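import Pool.Agent.W_448s7s_h5.TwD
import Pool.Agent.W_448j6_h22.KbH

/-!
MP_448cb3_co, G2, case B, windows `j - 1` and `j`: the rows with three sites: R, and all the rows with
both ends open.  helper5.
-/

namespace Pool.Agent.GaussPoset.Tw

set_option linter.unusedSectionVars false

open Finset Win Win.W4 Wd EK Win.Pn
open Pool.Agent.GaussPoset.Win.SO (PN vp mem_PN F5)

universe u

variable {P : Type u} [Fintype P] [PartialOrder P] [DecidableEq P] {r j i : ℕ}
  {t : Tops P} {lo hi : ℕ → ℕ} {e : ℕ → ℕ → P} {x : ℕ → P} {c : ℕ → ℤ} {β : ℤ} {p : P}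
  {K : Finset P} {psi : P → P}

/-- twice the value of a part, without the joins of a double and a single element -/
noncomputable def Vs (i : ℕ) (t : Tops P) : ℤ :=
  2 * Pn.own Ws i (i + 1) t +
    ∑ p ∈ (PD P i).filter (fun p => (topOf p : Tops P) = t), Pn.shr Ws i p

/-- the contribution of the window `j - 1` -/
noncomputable def V1 (i : ℕ) (t : Tops P) : ℤ :=
  2 * own1 Ws i t + ∑ p ∈ (PD P i).filter (fun p => (topOf p : Tops P) = t), Pn.shr Ws i p

lemma Vs_eq (i : ℕ) (t : Tops P) :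
    Vs i t = V1 i t + 2 * OwT (i + 1) (cext (i + 1 + 1) (topOf : P → Tops P) t) := by
  have e1 : Pn.own Ws i (i + 1) t = own1 Ws i t +
      OwT (i + 1) (cext (i + 1 + 1) (topOf : P → Tops P) t) := by
    unfold Pn.own own1 OwT F2 F4 F3
    show _ + -1 * _ + 2 * _ + 13 * _ + 0 * _ = _
    unfold I2.bb I2.VV
    ring
  unfold Vs V1
  rw [e1]
  ring

section nj

variable (h : NJ P r j) (hij : i + 1 = j) (hi1 : 1 ≤ i)
include h hij hi1

/-- both ends open: the ends of the levels -/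
lemma open_ends (B : RowB P j t 2 x c β) (C : Cp.Comp j (t : P) lo hi e)
    (u0 : (uc (x 0)).card = 1) (u2 : (uc (x 2)).card = 1) :
    hi j = lo j + 2 ∧ lo j = lo i ∧ hi j = hi i + 1 := by
  have H := h.g.H
  obtain ⟨hlen, hor⟩ := B.orient h (by omega) C
  have sing : ∀ s, lo j ≤ s → s ≤ hi j → ((uc (e j s)).card = 1 ↔ s = lo i ∨ s = hi i + 1) := by
    intro s s1 s2
    subst hij
    exact C.single_up H h.g.good t.2 (k := i) (s := s) (by omega) s1 s2
  have e1 := C.lo_step i (by omega)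
  have e2 := C.hi_step i (by omega)
  have e3 := C.lo_le i (by omega)
  rw [hij] at e1 e2
  have k1 : (uc (e j (lo j))).card = 1 ∧ (uc (e j (hi j))).card = 1 := by
    rcases hor with hor | hor
    · have a0 := hor 0 (by omega)
      have a2 := hor 2 (by omega)
      rw [add_zero] at a0
      rw [a0] at u0
      rw [a2, ← hlen] at u2
      exact ⟨u0, u2⟩
    · have a0 := hor 0 (by omega)
      have a2 := hor 2 (by omega)
      rw [Nat.sub_zero] at a0
      rw [a0] at u0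
      rw [a2, show hi j - 2 = lo j by omega] at u2
      exact ⟨u2, u0⟩
  have k2 := (sing _ le_rfl (by omega)).1 k1.1
  have k3 := (sing _ (by omega) le_rfl).1 k1.2
  omega

/-- THE WINDOW `j - 1`: three sites, both ends open -/
theorem open_V1 (C : Cp.Comp j (t : P) lo hi e) (hS : Shape j lo hi) (B : RowB P j t 2 x c β)
    (u0 : (uc (x 0)).card = 1) (u2 : (uc (x 2)).card = 1) : 0 ≤ V1 i t := by
  obtain ⟨k1, k2, k3⟩ := open_ends h hij hi1 B C u0 u2
  have hc := h.card_SS (i := i) (by omega) C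
  exact two_share h hij hi1 B C (by omega)
    (fun p hp ht => two_shape h hij hi1 C hS k1 k2 k3 hp ht)

end nj

/-- three sites, both ends open -/
theorem open_Vs (h : NJ P r (i + 1)) (hi1 : 1 ≤ i) (C : Cp.Comp (i + 1) (t : P) lo hi e)
    (hS : Shape (i + 1) lo hi) (B : RowB P (i + 1) t 2 x c β) (u0 : (uc (x 0)).card = 1) (u2 : (uc (x 2)).card = 1) :
    2 * OwT (i + 1) (cext (i + 1 + 1) (topOf : P → Tops P) t) ≤ Vs i t := by
  rw [Vs_eq]
  have := open_V1 h rfl hi1 C hS B u0 u2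
  linarith

/-- THE PATTERN R with three sites -/
theorem r2_three (h : NJ P r (i + 1)) (hi1 : 1 ≤ i) (C : Cp.Comp (i + 1) (t : P) lo hi e)
    (hS : Shape (i + 1) lo hi) (R : Red P (i + 1) K psi) (B : RowB P (i + 1) t 2 x c β)
    (hβ : β = 1) (c0 : c 0 = -1) (c1 : c 1 = 0) :
    -8 < Vs i t ∨ -16 < Vs i t ∧ ∀ z y v : P, K2.SD (i + 1) (topOf : P → Tops P) z y v →
      (topOf y = t ∨ topOf v = t) → sa (i + 1) (topOf : P → Tops P) K (uc y) (topOf y) *
        sa (i + 1) (topOf : P → Tops P) K (uc v) (topOf v) = 0 := by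
  obtain ⟨w, v, D⟩ := NJ.r2 h (by omega) R B hβ c0 c1
  have h1 := D.Ow_ge
  have h2 := open_Vs h hi1 C hS B D.u0 D.u2
  by_cases hp : pen (x 1) = ∅
  · right
    rw [hp, card_empty] at h1
    exact ⟨by push_cast at h1; linarith,
      NJ.noHeavy3 h (by omega) R B (fun q => by omega) (fun _ => hp) (fun q => by omega)⟩
  · left
    have h3 : 1 ≤ (pen (x 1)).card := by
      rw [Nat.one_le_iff_ne_zero]
      exact fun q => hp (card_eq_zero.1 q)
    have h4 : (1 : ℤ) ≤ (pen (x 1)).card := by exact_mod_cast h3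
    linarith

/-- [DL] with three sites, from the value of the window `j - 1` -/
theorem dl2_three (h : NJ P r (i + 1)) (hi1 : 1 ≤ i) (C : Cp.Comp (i + 1) (t : P) lo hi e)
    (hS : Shape (i + 1) lo hi) (R : Red P (i + 1) K psi) (B : RowB P (i + 1) t 2 x c β)
    (hβ : β = 0) (c0 : c 0 = 1) (c1 : c 1 = -1)
    (hV : ¬ ((uc (x 0)).card = 1 ∧ (uc (x 2)).card = 1) → -13 ≤ V1 i t) :
    -8 < Vs i t ∨ -16 < Vs i t ∧ ∀ z y v : P, K2.SD (i + 1) (topOf : P → Tops P) z y v →
      (topOf y = t ∨ topOf v = t) → sa (i + 1) (topOf : P → Tops P) K (uc y) (topOf y) *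
        sa (i + 1) (topOf : P → Tops P) K (uc v) (topOf v) = 0 := by
  obtain ⟨w, v, D⟩ := NJ.dl2 h (by omega) R B hβ c0 c1
  have h1 := D.Ow_ge
  have h5 : -5 ≤ V1 i t + 8 * ((uc (x 0)).card - 1) + 8 * ((uc (x 2)).card - 1) := by
    by_cases hu : (uc (x 0)).card = 1 ∧ (uc (x 2)).card = 1
    · have := open_V1 h rfl hi1 C hS B hu.1 hu.2
      rw [hu.1, hu.2]
      norm_num
      linarith
    · have h6 := hV hu
      have h7 := D.W.uc_le (k := 0) (by omega)
      have h8 := D.W.uc_le (k := 2) (by omega)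
      have h9 : (3 : ℤ) ≤ (uc (x 0)).card + (uc (x 2)).card := by
        have : 3 ≤ (uc (x 0)).card + (uc (x 2)).card := by omega
        exact_mod_cast this
      linarith
  have h1' : (1 : ℤ) ≤ (uc (x 0)).card := by
    have := D.W.uc_le (k := 0) (by omega)
    have : 1 ≤ (uc (x 0)).card := by omega
    exact_mod_cast this
  have h6 := Vs_eq i t
  by_cases hp : pen (x 2) = ∅
  · right
    rw [hp, card_empty] at h1
    exact ⟨by push_cast at h1; linarith,
      NJ.noHeavy3 h (by omega) R B (fun q => by omega) (fun q => by omega) (fun _ => hp)⟩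
  · left
    have h3 : 1 ≤ (pen (x 2)).card := by
      rw [Nat.one_le_iff_ne_zero]
      exact fun q => hp (card_eq_zero.1 q)
    have h4 : (1 : ℤ) ≤ (pen (x 2)).card := by exact_mod_cast h3
    linarith

/-- THE TRIANGLE, from the value of the window `j` -/
theorem rr_three (h : NJ P r (i + 1)) (hi1 : 1 ≤ i) (C : Cp.Comp (i + 1) (t : P) lo hi e)
    (hS : Shape (i + 1) lo hi) (B : RowB P (i + 1) t 2 x c β) (hβ : β ≠ 0)
    (hO : -3 ≤ OwT (i + 1) (cext (i + 1 + 1) (topOf : P → Tops P) t)) : -8 < Vs i t := by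
  obtain ⟨u0, u2⟩ := B.ends hβ
  have := open_Vs h hi1 C hS B u0 u2
  linarith

/-- ALL THE ROWS WITH THREE SITES AND A DEFECT, from the triangle at the window `j` and the closed [DL]
at the window `j - 1` -/
theorem all_three (h : NJ P r (i + 1)) (hi1 : 1 ≤ i) (C : Cp.Comp (i + 1) (t : P) lo hi e)
    (hS : Shape (i + 1) lo hi) (R : Red P (i + 1) K psi) (B : RowB P (i + 1) t 2 x c β)
    (hd : ¬ (β = 0 ∧ ∀ k, k < 2 → c k = 0))
    (hT : ∀ (x : ℕ → P) (c : ℕ → ℤ), RowB P (i + 1) t 2 x c 2 → c 0 = -1 → c 1 = -1 →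
      -3 ≤ OwT (i + 1) (cext (i + 1 + 1) (topOf : P → Tops P) t))
    (hD : ∀ (x : ℕ → P) (c : ℕ → ℤ) (β : ℤ), RowB P (i + 1) t 2 x c β → β = 0 → c 0 = 1 →
      c 1 = -1 → ¬ ((uc (x 0)).card = 1 ∧ (uc (x 2)).card = 1) → -13 ≤ V1 i t) :
    I2.w3 (I2.bb (i + 1) (i + 1 + 1) (topOf : P → Tops P) t)
      (I2.VV (i + 1) (i + 1 + 1) (topOf : P → Tops P) t) ≠ 0 ∧
    (-8 < Vs i t ∨ -16 < Vs i t ∧ ∀ z y v : P, K2.SD (i + 1) (topOf : P → Tops P) z y v →
      (topOf y = t ∨ topOf v = t) → sa (i + 1) (topOf : P → Tops P) K (uc y) (topOf y) *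
        sa (i + 1) (topOf : P → Tops P) K (uc v) (topOf v) = 0) := by
  refine ⟨NJ.w3_ne h (by omega) B hd, ?_⟩
  rcases B.pat with p1 | ⟨-, p1, p2, p3⟩ | ⟨-, p1, p2, p3⟩ | ⟨-, p1, p2, p3, p4⟩ |
    ⟨-, p1, p2, p3, p4⟩ | p1 | ⟨-, p1, p2, p3⟩ | p1
  · exact absurd p1 hd
  · exact r2_three h hi1 C hS R B p1 p2 (p3 1 le_rfl (by omega))
  · exact r2_three h hi1 C hS R B.rev p1 p2 (p3 0 (by omega))
  · exact dl2_three h hi1 C hS R B p1 p2 p3 (hD x c β B p1 p2 p3)
  · exact dl2_three h hi1 C hS R B.rev p1 p2 p3 (hD _ _ β B.rev p1 p2 p3)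
  · have := p1.1
    omega
  · left
    refine rr_three h hi1 C hS B (by rw [p1]; norm_num) (hT x c (by rw [← p1]; exact B) p2 p3)
  · have := p1.1
    omega

end Pool.Agent.GaussPoset.Tw
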