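import Pool.Agent.W_448s7s_h5.TwE
import Pool.Agent.W_448j6_h22.KcN

/-!
MP_448cb3_co, G2, case B, windows `j - 1` and `j`: the rows with three sites and a defect, from the
closed [DL] at the window `j - 1`.  helper5.
-/

namespace Pool.Agent.GaussPoset.Tw

set_option linter.unusedSectionVars false

open Finset Win Win.W4 Wd EK Win.Pn

universe u

variable {P : Type u} [Fintype P] [PartialOrder P] [DecidableEq P] {r j i : ℕ}
  {t : Tops P} {lo hi : ℕ → ℕ} {e : ℕ → ℕ → P} {x : ℕ → P} {c : ℕ → ℤ} {β : ℤ}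
  {K : Finset P} {psi : P → P}

/-- the triangle at the window `j` -/
theorem tri_Ow (h : NJ P r j) (hj : 2 ≤ j) (B : RowB P j t 2 x c 2) (c0 : c 0 = -1)
    (c1 : c 1 = -1) : 1 ≤ OwT j (cext (j + 1) (topOf : P → Tops P) t) := by
  have h1 := NJ.tri_own2 h hj B c0 c1
  unfold I2.bb I2.VV at h1
  exact h1

/-- ALL THE ROWS WITH THREE SITES AND A DEFECT, from the closed [DL] at the window `j - 1` -/
theorem three_of (h : NJ P r (i + 1)) (hi1 : 1 ≤ i) (C : Cp.Comp (i + 1) (t : P) lo hi e)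
    (hS : Shape (i + 1) lo hi) (R : Red P (i + 1) K psi) (B : RowB P (i + 1) t 2 x c β)
    (hd : ¬ (β = 0 ∧ ∀ k, k < 2 → c k = 0))
    (hD : ∀ (x : ℕ → P) (c : ℕ → ℤ) (β : ℤ), RowB P (i + 1) t 2 x c β → β = 0 → c 0 = 1 →
      c 1 = -1 → ¬ ((uc (x 0)).card = 1 ∧ (uc (x 2)).card = 1) → -13 ≤ V1 i t) :
    I2.w3 (I2.bb (i + 1) (i + 1 + 1) (topOf : P → Tops P) t)
      (I2.VV (i + 1) (i + 1 + 1) (topOf : P → Tops P) t) ≠ 0 ∧
    (-8 < Vs i t ∨ -16 < Vs i t ∧ ∀ z y v : P, K2.SD (i + 1) (topOf : P → Tops P) z y v →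
      (topOf y = t ∨ topOf v = t) → sa (i + 1) (topOf : P → Tops P) K (uc y) (topOf y) *
        sa (i + 1) (topOf : P → Tops P) K (uc v) (topOf v) = 0) :=
  all_three h hi1 C hS R B hd (fun x c B c0 c1 => by
    have := tri_Ow h (by omega) B c0 c1
    linarith) hD

end Pool.Agent.GaussPoset.Tw
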