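import Pool.Agent.W_448s7s_h5.SlA

/-!
# The windows of S7 with a cap: elements of level `j + 1` below a deep cell (MP_448cb3_co)
-/

namespace Pool.Agent.GaussPoset.Sm

set_option linter.unusedSectionVars false

open Polynomial Finset

universe u

variable {P : Type u} [Fintype P] [PartialOrder P] [DecidableEq P] {r j w K : ℕ}
  {N : Tops P → Finset P} {b : Tops P → ℕ} {θ : Tops P → P → ℕ} {XE XO : ℕ → Prop}

/-- cost of a pendant below the flip cell `((j - 3) / 2, (j + 3) / 2)` of level `j` -/
def flC (w j : ℕ) : ℕ :=
  ∑ n ∈ range (j - w + 1), min (j - w - 1) n *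
    (min ((w + n) / 2) ((j - 3) / 2) + 1 - ((w + n) - (j + 3) / 2)) + (j - w - 1)

/-- cost of a pendant below the fold end of level `j` -/
def foC (w j : ℕ) : ℕ :=
  ∑ n ∈ range (j - w + 1), min (j - w - 1) n *
    (min ((w + n) / 2) (j / 2) + 1 - ((w + n) - j / 2)) + (j - w - 1)

/-- the additional cost of a second cover -/
def foE (w j : ℕ) : ℕ :=
  ∑ n ∈ range (j - w + 1), min (j - w - 1) n * (if j / 2 < w + n then 1 else 0)

/-- the parity -/
def foN (w j : ℕ) : ℕ :=
  ∑ n ∈ range (j - w - 1), (min ((w + n) / 2) (j / 2) + 1 - ((w + n) - j / 2))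

/-- thresholds of single-up elements of level `j` -/
lemma Wk.single_th (W : Wk r j w K N b θ) {x : P} (hx : x ∉ unnat N) (hl : lev x = j)
    (h1 : (Win.uc x).card = 1) : lev x ≤ θ (topOf x) x + 2 + w := by
  have H := W.gt.H
  have HN := W.natSys
  have hj := W.hj
  have hw := W.hw
  have hxt : x ∈ N (topOf x) := HN.mem_iff.mpr ⟨hx, rfl⟩
  generalize topOf x = t at hxt ⊢
  rcases W.typ t with ⟨g1, g2, g3, g5⟩ | ⟨Nc, co, h0, g1, g2, g4⟩ |
    ⟨Nc, co, h0, g1, g2, g3, g4, g5'⟩
  · rw [g2]
    simp only
    omega
  · rw [g1] at hxt
    by_cases hJ : x ∈ junk (fun _ => True) Nc co ∨ x ∈ junk (fun _ => True) Nc (swp co)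
    · rw [g2]
      unfold thR
      rw [if_pos hJ]
      omega
    · have hxN : x ∈ Nc := by
        rw [mem_natR] at hxt
        rcases hxt with h | h | h
        · exact h
        · exact absurd (Or.inl h) hJ
        · exact absurd (Or.inr h) hJ
      have h2 := rect_th7 h0 hw hxN hJ (by omega)
      rw [g2]
      by_contra hcon
      have := chart_inner_uc h0.chart H hxN (by omega) (by omega)
      omega
  · rw [g1] at hxt
    by_cases hJ : x ∈ junk (fun c => c.1 ≤ c.2) Nc co
    · rw [g2]
      unfold thS
      rw [if_pos hJ]
      omega
    · have hxN : x ∈ Nc := by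
        rw [mem_natS] at hxt
        exact hxt.resolve_right hJ
      have h2 := stair_th7 h0 hw g4 hxN hJ (by omega)
      rw [g2]
      omega

/-- elements of level `j + 1` below a deep cell -/
theorem Wk.deep_j (W : Wk r j w K N b θ) (hw2 : 2 ≤ w) (hj8 : 8 ≤ j)
    (hfl : j % 2 = 1 → K < flC w j) (hfo : j % 2 = 0 → K < foC w j + foE w j)
    (hfv : j % 2 = 0 → (Even (foN w j) ∧ XE (foC w j)) ∨ (Odd (foN w j) ∧ XO (foC w j)))
    {v : ℕ} {z : P} (hz : z ∈ bdR (rA N))
    (hc : cst w (hA N θ) z = v) (hlz : lev z = j + 1) {x : P} (hzx : z ⋖ x)
    (hD : Dk j w K N θ x) : OutK j w K XE XO (hA N θ) z v := by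
  classical
  have H := W.gt.H
  have HN := W.natSys
  have hj := W.hj
  have hw := W.hw
  have hzR := (mem_bdR.mp hz).1
  have hzu := (mem_rA.mp hzR).1
  have e1 := (H.covBy_iff.mp hzx).2
  have hlx : lev x = j := by omega
  have hx : x ∉ unnat N := W.low (by omega)
  have hbs : GaussPoset.bs N x = x := by
    unfold GaussPoset.bs
    rw [if_neg (W.not_tw hx)]
  have hle := W.hA_le (not_mem_rA.mpr (Or.inl hx)) hzx
  rw [hbs] at hle
  have hth := hD.th
  have h1w := hD.one_le
  have hxt : x ∈ N (topOf x) := HN.mem_iff.mpr ⟨hx, rfl⟩
  have hxle : x ≤ (topOf x : P) := le_topOf x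
  have hzN := mem_unnat.mp hzu (topOf x)
  have hnat : ∀ y ∈ N (topOf x), y ∉ unnat N := fun y hy => (HN.mem_iff.mp hy).1
  have hzt : ∀ y, y ∉ unnat N → ¬ ∀ v, y < v ↔ z < v := fun y hy h =>
    (mem_rA.mp hzR).2 (mem_twA.mpr ⟨hzu, y, hy, h⟩)
  -- two covers have one cover each
  have hnear : (Win.uc x).card = 2 → ∀ y, z ⋖ y → y = x := by
    intro h2 y hy
    by_contra hne
    have := (W.near hzR hlz hzx hy (Ne.symm hne)).1
    omega
  -- the label of an element with one cover
  have hlab : (∀ y, z ⋖ y → y = x) → hA N θ z = θ (topOf x) x + 1 := by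
    intro ho
    obtain ⟨x0, g1, g2, g3⟩ := W.hA_spec hz
    rw [ho x0 g2, hbs] at g3
    exact g3
  have hthx : θ (topOf x) x = θ (topOf x) x := rfl
  generalize htt : topOf x = t at hxt hxle hzN hnat hle hth hlab
  rcases W.typ t with ⟨g1, g2, g3, g5⟩ | ⟨Nc, co, h0, g1, g2, g4⟩ |
    ⟨Nc, co, h0, g1, g2, g3, g4, g5'⟩
  · exfalso
    rw [g2] at hth
    simp only at hth
    omega
  · exfalso
    rw [g1] at hxt
    rw [g2] at hth
    have hJ : ¬ (x ∈ junk (fun _ => True) Nc co ∨ x ∈ junk (fun _ => True) Nc (swp co)) := by
      intro h
      unfold thR at hth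
      rw [if_pos h] at hth
      omega
    have hxN : x ∈ Nc := by
      rw [mem_natR] at hxt
      rcases hxt with h | h | h
      · exact h
      · exact absurd (Or.inl h) hJ
      · exact absurd (Or.inr h) hJ
    have h2 := rect_th7 h0 hw hxN hJ (by omega)
    have h3 := chart_inner_uc h0.chart H hxN (by omega) (by omega)
    exact g4 x z hxle hlx h3 hzx (hnear h3)
  · rw [g1] at hxt hzN
    rw [g2] at hth
    have hJ : x ∉ junk (fun c => c.1 ≤ c.2) Nc co := by
      intro h
      unfold thS at hth
      rw [if_pos h] at hth
      omega
    have hxN : x ∈ Nc := by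
      rw [mem_natS] at hxt
      exact hxt.resolve_right hJ
    have hl := h0.chart.lev x hxN
    have hm : (co x).1 ≤ (co x).2 := h0.chart.mem x hxN
    have h2 := stair_th7 h0 hw g4 hxN hJ (by omega)
    have hzN1 : z ∉ Nc := fun h => hzN (mem_natS.mpr (Or.inl h))
    have h6 := cst_ge_cover (i := w) (h := hA N θ) H.gradedBelow hzx
    rw [hc] at h6
    rcases Nat.lt_or_ge (co x).1 (co x).2 with hlt | hge
    · -- a double
      have h3 := stair_inner_uc h0.chart H hxN (by omega) hlt
      have ho := hnear h3
      rcases g5' x z hxle hlx h3 hzx ho with h4 | h4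
      · exfalso
        obtain ⟨y, hy, h⟩ := diag_twin h0.chart h0.max H hzN1 hxN hzx ho h4
        exact hzt y (hnat y (by rw [g1]; exact mem_natS.mpr (Or.inl hy))) h
      · left
        have h5 := hlab ho
        rw [g2] at h5
        have hlb : hA N θ z = j - w - 1 := by omega
        have h7 := cst_stair (w := w) (L := j) (h := hA N θ z) h0.chart hxN hlx (by omega)
        have h8 := hfl (by omega)
        rw [h7, Nat.min_eq_left (by omega), hlb] at h6
        unfold flC at h8
        rw [show (co x).1 = (j - 3) / 2 by omega, show j - (j - 3) / 2 = (j + 3) / 2 by omega]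
          at h6
        omega
    · -- the fold end
      have hcc : (co x).2 = (co x).1 := by omega
      -- the label
      have hlb : hA N θ z + 1 = lev x - w := by
        obtain ⟨x0, f1, f2, f3⟩ := W.hA_spec hz
        rw [g2] at hle
        by_cases hne : x0 = x
        · rw [hne, hbs, htt, g2] at f3
          omega
        · have f4 := W.near hzR hlz hzx f2 (Ne.symm hne)
          have f5 := (H.covBy_iff.mp f2).2
          have hx0 : x0 ∉ unnat N := W.low (by omega)
          have hbs0 : GaussPoset.bs N x0 = x0 := by
            unfold GaussPoset.bs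
            rw [if_neg (W.not_tw hx0)]
          rw [hbs0] at f3
          have f6 := W.single_th hx0 (by omega) f4.2
          omega
      have h8 : min (hA N θ z) (lev z - w) = hA N θ z := Nat.min_eq_left (by omega)
      rw [h8] at h6
      have hj2 : j % 2 = 0 := by omega
      have hA2 : (co x).1 = j / 2 := by omega
      have hlb' : hA N θ z = j - w - 1 := by omega
      have h7 := cst_stair (w := w) (L := j) (h := j - w - 1) h0.chart hxN hlx (by omega)
      rw [hA2, show j - j / 2 = j / 2 by omega] at h7
      have hnk : ∀ k, k ≤ j → nab k x + (k - j / 2) = min (k / 2) (j / 2) + 1 := by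
        intro k hk
        have := stair_nab h0.chart hxN (k := k) (by omega)
        rw [hA2, show (co x).2 = j / 2 by omega] at this
        exact this
      by_cases ho : ∀ y, z ⋖ y → y = x
      · -- a pendant
        have h9 := cst_only (i := w) (h := hA N θ) H.gradedBelow hzx ho
        rw [hc, h8, hlb', h7] at h9
        have hfv' := hfv hj2
        have hvv : v = foC w j := by
          unfold foC
          exact h9
        have hns : nst w (hA N θ) z = foN w j := by
          rw [nst_eq, hlb']
          unfold foN
          refine Finset.sum_congr rfl fun n hn => ?_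
          rw [mem_range] at hn
          rw [nab_only ho hzx (by omega)]
          have := hnk (w + n) (by omega)
          omega
        right
        constructor
        · rw [hlb', nab_only ho hzx (by omega), nab_only ho hzx (by omega)]
          have a1 := hnk w (by omega)
          have a2 := hnk (w + (j - w - 1)) (by omega)
          omega
        · rw [hns, hvv]
          rcases hfv' with h | h
          · exact Or.inl ⟨h.1, Or.inr h.2⟩
          · exact Or.inr (Or.inl ⟨h.1, Or.inr h.2⟩)
      · -- a second cover
        left
        push Not at ho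
        obtain ⟨x', hzx', hne'⟩ := ho
        have hne : x ≠ x' := Ne.symm hne'
        have e2 := (H.covBy_iff.mp hzx').2
        have hx' : x' ∉ unnat N := W.low (by omega)
        have hnr := W.near hzR hlz hzx hzx' hne
        have hextra : ∀ k, j / 2 < k → k ≤ j → nab k x + 1 ≤ nab k z := by
          intro k hk1 hk2
          obtain ⟨q, q1, q2, q3⟩ := exists_between H.gradedBelow (z := x') (s := (topOf x' : P))
            (le_topOf x') (l := k) (by have := (topOf x').2; omega) (by omega)
          have hxq : ¬ x ≤ q := by
            intro hxq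
            have hqt : topOf q = topOf x' := (W.up hx' q1).2
            have hqt' : topOf q = topOf x := (W.up hx hxq).2
            have hx't : x' ∈ N t := by
              rw [← htt, ← hqt', hqt]
              exact HN.mem_iff.mpr ⟨hx', rfl⟩
            rw [g1] at hx't
            have hx'N : x' ∈ Nc := by
              refine h0.strip (mem_lowPart.mpr ⟨?_, by omega⟩)
              have h5 := le_topOf x'
              rw [← hqt, hqt', htt] at h5
              exact h5
            have hl' := h0.chart.lev x' hx'N
            have hm' : (co x').1 ≤ (co x').2 := h0.chart.mem x' hx'N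
            have h10 : (co x').1 = 0 := by
              by_contra h11
              rcases Nat.lt_or_ge (co x').1 (co x').2 with h12 | h12
              · have := stair_inner_uc h0.chart H hx'N (by omega) h12
                omega
              · exact hne (h0.chart.inj x hxN x' hx'N (Prod.ext (by omega) (by omega)))
            have hqN := h0.chart.up x' hx'N q q1
            have hq1 := (h0.chart.le_iff x' hx'N q hqN).mp q1
            have hq2 := (h0.chart.le_iff x hxN q hqN).mp hxq
            have hlq := h0.chart.lev q hqN
            have b1 : (co q).1 ≤ (co x').1 := hq1.1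
            have b2 : (co q).2 ≤ (co x).2 := hq2.2
            omega
          have h11 : insert q ((lv P k).filter (fun y => x ≤ y)) ⊆
              (lv P k).filter (fun y => z ≤ y) := by
            intro y hy
            rw [mem_insert, mem_filter, mem_lv] at hy
            rw [mem_filter, mem_lv]
            rcases hy with rfl | hy
            · exact ⟨q3, hzx'.1.le.trans q1⟩
            · exact ⟨hy.1, hzx.1.le.trans hy.2⟩
          have h12 := Finset.card_le_card h11
          rw [Finset.card_insert_of_notMem (by
            rw [mem_filter]
            exact fun h => hxq h.2)] at h12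
          exact h12
        have hfo' := hfo hj2
        have key : foC w j + foE w j ≤ v := by
          rw [← hc, cst_shift (i := w) (h := hA N θ) (a := j - w + 1) (by omega),
            Finset.sum_range_succ, hlb']
          have s4 : min (j - w - 1) (j - w + 1) * nab (w + (j - w + 1)) z = j - w - 1 := by
            rw [Nat.min_eq_left (by omega), show w + (j - w + 1) = lev z by omega, nab_self,
              mul_one]
          rw [s4]
          unfold foC foE
          have s5 : ∑ n ∈ range (j - w + 1), min (j - w - 1) n *
              (min ((w + n) / 2) (j / 2) + 1 - ((w + n) - j / 2)) +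
              ∑ n ∈ range (j - w + 1), min (j - w - 1) n * (if j / 2 < w + n then 1 else 0) ≤
              ∑ n ∈ range (j - w + 1), min (j - w - 1) n * nab (w + n) z := by
            rw [← Finset.sum_add_distrib]
            refine Finset.sum_le_sum fun n hn => ?_
            rw [mem_range] at hn
            rw [← Nat.mul_add]
            refine Nat.mul_le_mul_left _ ?_
            have a1 := hnk (w + n) (by omega)
            split_ifs with h13
            · have := hextra (w + n) h13 (by omega)
              omega
            · have := nab_mono (l := w + n) hzx.1.le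
              omega
          omega
        omega

end Pool.Agent.GaussPoset.Sm
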