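import Pool.Agent.W_448s7s_h5.SkU

/-!
# The windows of S7 with a cap: the cheapest class has both signs (MP_448cb3_co)
-/

namespace Pool.Agent.GaussPoset.Sm

set_option linter.unusedSectionVars false

open Polynomial Finset

universe u

variable {P : Type u} [Fintype P] [PartialOrder P] [DecidableEq P] {r j w K : ℕ}
  {N : Tops P → Finset P} {b : Tops P → ℕ} {θ : Tops P → P → ℕ} {XE XO : ℕ → Prop}

/-- the remaining inputs at window `w` -/
structure Lk (P : Type u) [Fintype P] [PartialOrder P] [DecidableEq P] (j w K : ℕ)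
    (N : Tops P → Finset P) (b : Tops P → ℕ) (θ : Tops P → P → ℕ) (XE XO : ℕ → Prop) : Prop where
  unq : Unq P w b
  nsk : ∀ z x x' : P, Cg z x x' → j + 1 ≤ lev z → nab w x = 1 → ¬ Sok j x → K < ful w z
  dj : ∀ (v : ℕ) (z x : P), z ∈ bdR (rA N) → cst w (hA N θ) z = v → lev z = j + 1 → z ⋖ x →
    Dk j w K N θ x → OutK j w K XE XO (hA N θ) z v

/-- the outcomes for a cheapest boundary element -/
theorem Wk.out (W : Wk r j w K N b θ) (L : Lk P j w K N b θ XE XO) {v : ℕ}
    (hP : OnePen P j (fun t => 2 ≤ b t) ∨ v ≤ (j + 1 - w) ^ 2 + 5 * (j - w))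
    (M : Mn j w N θ v) {z : P} (hz : z ∈ bdR (rA N)) (hc : cst w (hA N θ) z = v) :
    OutK j w K XE XO (hA N θ) z v := by
  classical
  have H := W.gt.H
  have hj := W.hj
  have hw := W.hw
  have hlz := W.bd_lev hz
  by_cases hd : ∃ x, x ∉ rA N ∧ z ⋖ x ∧ Dk j w K N θ (GaussPoset.bs N x)
  · obtain ⟨x, hx, hzx, hD⟩ := hd
    have e1 := (H.covBy_iff.mp hzx).2
    by_cases hl : j + 1 ≤ lev x
    · left
      have := W.deep_cover hz hx hzx hl hD
      omega
    · have hxu : x ∉ unnat N := W.low (by omega)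
      have hbs : GaussPoset.bs N x = x := by
        unfold GaussPoset.bs
        rw [if_neg (W.not_tw hxu)]
      rw [hbs] at hD
      exact L.dj v z x hz hc (by omega) hzx hD
  · push Not at hd
    obtain ⟨hF, hge⟩ := W.flat M hz hc hd
    by_cases hR : ∃ x, z ⋖ x ∧ Row1 j w N θ x
    · obtain ⟨x, hzx, hR⟩ := hR
      exact W.row1_out hz hc hF hge hzx hR
    · push Not at hR
      have hS : ∀ x, z ⋖ x → x ∉ unnat N ∧ Str w N θ x := fun x hx =>
        ⟨(hF x hx).1, (hF x hx).2.resolve_right (hR x hx)⟩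
      have hh : hA N θ z = lev z - w := by
        obtain ⟨x0, f1, f2, f3⟩ := W.hA_spec hz
        obtain ⟨g1, g2⟩ := hS x0 f2
        have hbs : GaussPoset.bs N x0 = x0 := by
          unfold GaussPoset.bs
          rw [if_neg (W.not_tw g1)]
        rw [hbs, g2.th] at f3
        have := (H.covBy_iff.mp f2).2
        omega
      by_cases hT : ∃ x x', z ⋖ x ∧ z ⋖ x' ∧ topOf x ≠ topOf x'
      · obtain ⟨x, x', h1, h2, h3⟩ := hT
        exact W.cross_out L.unq L.nsk hz hh hc (hS x h1).1 (hS x' h2).1 (hS x h1).2 (hS x' h2).2 h1 h2 h3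
      · push Not at hT
        obtain ⟨x, hzx, -⟩ := Hul.exists_cov (w := z) (v := (topOf z : P))
          (lt_of_le_of_ne (le_topOf z) (by
            intro h
            have := (topOf z).2
            rw [← h] at this
            omega))
        exact W.own_out hP hz hh hc hS (t := topOf x) fun x' hx' => hT x' x hx' hzx

/-- the outcome for the twins -/
theorem Wk.out_tw (W : Wk r j w K N b θ) {v : ℕ} {x : P} (hx : x ∈ twA N)
    (hc : tcst w (thA N θ) (twT N x, x) = v) (h : P → ℕ) (hh : h x = lev x - w) :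
    K < v ∨ (thA N θ (twT N x) + 1 = lev (twT N x) - w ∧ nab w x = nab (w + h x) x + 1 ∧
      Even (nst w h x) ∧ EvN j w v) := by
  have hj := W.hj
  have hw := W.hw
  obtain ⟨hl, hk⟩ := W.tw_cases hx
  have hl2 := W.twSys.lev hx
  have hup := W.twSys.up x hx
  rcases hk with hk | hk
  · right
    obtain ⟨a, ha⟩ : ∃ a, lev x = w + a := ⟨lev x - w, by omega⟩
    have h1 := W.tcst_row1 hx hk ha
    have hn : ∀ k, w ≤ k → k < lev x → nab k x = 2 := fun k h1 h2 => by
      rw [← nab_congr_up hup h2]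
      exact hk.nab k h1 (by omega)
    have e1 : thA N θ (twT N x) = θ (topOf (twT N x)) (twT N x) :=
      W.thA_nat (W.twSys.nat x hx)
    refine ⟨by rw [e1]; exact hk.th, ?_, ?_, hk.one_le, Or.inr (Or.inl ⟨a - (j + 1 - w),
      Or.inr ?_⟩)⟩
    · rw [hn w le_rfl (by omega), hh, show w + (lev x - w) = lev x by omega, nab_self]
    · rw [nst_eq, hh, Finset.sum_congr rfl (g := fun _ => 2)]
      · rw [Finset.sum_const, card_range]
        exact ⟨lev x - w, by simp only [smul_eq_mul]; ring⟩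
      · intro k hk'
        rw [mem_range] at hk'
        exact hn _ (by omega) (by omega)
    · rw [← hc, h1, show j + 1 - w + (a - (j + 1 - w)) = a by omega]
      ring
  · left
    rw [← hc]
    exact W.tcst_deep hx hk

/-- existence of the minimal value -/
lemma exists_minK (W : Wk r j w K N b θ) (hne : (bdR (rA N)).Nonempty) :
    ∃ v, Mn j w N θ v ∧ ((∃ z ∈ bdR (rA N), cst w (hA N θ) z = v) ∨
      ∃ x ∈ twA N, tcst w (thA N θ) (twT N x, x) = v) := by
  classical
  let A : Finset ℕ := (bdR (rA N)).image (cst w (hA N θ)) ∪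
    (twA N).image (fun x => tcst w (thA N θ) (twT N x, x))
  have hA : A.Nonempty := by
    obtain ⟨z, hz⟩ := hne
    exact ⟨_, mem_union_left _ (mem_image_of_mem _ hz)⟩
  refine ⟨A.min' hA, ⟨fun z hz => A.min'_le _ (mem_union_left _ (mem_image_of_mem _ hz)),
    fun x hx => A.min'_le _ (mem_union_right _
      (mem_image_of_mem (fun x => tcst w (thA N θ) (twT N x, x)) hx))⟩, ?_⟩
  have := A.min'_mem hA
  rcases mem_union.mp this with h | h
  · obtain ⟨z, hz, h⟩ := mem_image.mp h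
    exact Or.inl ⟨z, hz, h⟩
  · obtain ⟨x, hx, h⟩ := mem_image.mp h
    exact Or.inr ⟨x, hx, h⟩

/-- **The cheapest class at window `w` has both signs.** -/
theorem Wk.both (W : Wk r j w K N b θ) (L : Lk P j w K N b θ XE XO) {v : ℕ}
    (hP : OnePen P j (fun t => 2 ≤ b t) ∨ v ≤ (j + 1 - w) ^ 2 + 5 * (j - w))
    (M : Mn j w N θ v) (hex : (∃ z ∈ bdR (rA N), cst w (hA N θ) z = v) ∨
      ∃ x ∈ twA N, tcst w (thA N θ) (twT N x, x) = v) (hcap : v ≤ K) :
    ((∃ z x x' : P, Cg z x x' ∧ Sok j x ∧ Sok j x' ∧ ful w z = v ∧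
      Odd (nst w (fun z => lev z - w) z)) ∨ OdN j w v ∨ XO v) ∧
    ((∃ z x x' : P, Cg z x x' ∧ Sok j x ∧ Sok j x' ∧ ful w z = v ∧
      Even (nst w (fun z => lev z - w) z)) ∨ EvN j w v ∨ XE v) := by
  classical
  have H := W.gt.H
  have hj := W.hj
  have hw := W.hw
  -- labels on the whole class
  let hh : P → ℕ := fun z => if z ∈ twA N then lev z - w else hA N θ z
  have hh1 : ∀ z ∈ twA N, hh z = lev z - w := fun z hz => if_pos hz
  have hh2 : ∀ z, z ∉ twA N → hh z = hA N θ z := fun z hz => if_neg hz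
  set T1 := (bdR (rA N)).filter (fun z => cst w (hA N θ) z = v) with hT1
  set T2 := (twA N).filter (fun x => tcst w (thA N θ) (twT N x, x) = v) with hT2
  have hn1 : ∀ z ∈ T1, z ∉ twA N := by
    intro z hz
    rw [hT1, mem_filter] at hz
    exact (mem_rA.mp (mem_bdR.mp hz.1).1).2
  have hdisj : Disjoint T1 T2 := by
    rw [Finset.disjoint_left]
    intro z hz hz'
    rw [hT2, mem_filter] at hz'
    exact hn1 z hz hz'.1
  have hout1 : ∀ z ∈ T1, nab w z = nab (w + hh z) z + 1 ∧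
      ((Even (nst w hh z) ∧ (EvN j w v ∨ XE v)) ∨ (Odd (nst w hh z) ∧ (OdN j w v ∨ XO v)) ∨
      (∃ x x', Cg z x x' ∧ Sok j x ∧ Sok j x') ∧ v = ful w z ∧ hh z = lev z - w) := by
    intro z hz
    have hzt := hn1 z hz
    rw [hT1, mem_filter] at hz
    have h1 := W.out L hP M hz.1 hz.2
    have h2 : nst w hh z = nst w (hA N θ) z := by
      rw [nst_eq, nst_eq, hh2 z hzt]
    rw [h2, hh2 z hzt]
    exact h1.resolve_left (by omega)
  have hout2 : ∀ x ∈ T2, thA N θ (twT N x) + 1 = lev (twT N x) - w ∧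
      nab w x = nab (w + hh x) x + 1 ∧ Even (nst w hh x) ∧ EvN j w v := by
    intro x hx
    rw [hT2, mem_filter] at hx
    exact (W.out_tw hx.1 hx.2 hh (hh1 x hx.1)).resolve_left (by omega)
  -- the exact far window theorem
  have F := W.farX v M.tw
  have hd := F.lead M.bd
  have hZ := dvd_Z H.gauss w v
  have hsum2 : ∑ t ∈ (pairsX (twA N) (twT N)).filter (fun t => tcst w (thA N θ) t = v),
      Tm w (thA N θ) t = ∑ x ∈ T2, Lt w hh x := by
    have h1 : (pairsX (twA N) (twT N)).filter (fun t => tcst w (thA N θ) t = v) =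
        T2.image (fun x => (twT N x, x)) := by
      unfold pairsX
      rw [Finset.filter_image]
    rw [h1, Finset.sum_image (by
      intro x _ y _ h
      exact (Prod.mk.inj h).2)]
    refine Finset.sum_congr rfl fun x hx => ?_
    have h2 := (hout2 x hx).1
    rw [hT2, mem_filter] at hx
    rw [Tm_eq H.gradedBelow (W.twn hx.1) h2]
    unfold Lt
    simp only
    rw [nst_eq, nst_eq, hh1 x hx.1]
  have hsum1 : ∑ z ∈ T1, Lt w (hA N θ) z = ∑ z ∈ T1, Lt w hh z := by
    refine Finset.sum_congr rfl fun z hz => ?_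
    unfold Lt
    rw [nst_eq, nst_eq, hh2 z (hn1 z hz)]
  rw [hsum2] at hd
  have hsum1' : ∑ z ∈ (bdR (rA N)).filter (fun z => cst w (hA N θ) z = v), Lt w (hA N θ) z =
      ∑ z ∈ T1, Lt w hh z := hsum1
  rw [hsum1', ← Finset.sum_union hdisj] at hd
  have hdrop : ∀ z ∈ T1 ∪ T2, nab w z = nab (w + hh z) z + 1 := by
    intro z hz
    rcases mem_union.mp hz with h | h
    · exact (hout1 z h).1
    · exact (hout2 z h).2.1
  have hTne : (T1 ∪ T2).Nonempty := by
    rcases hex with ⟨z, hz, h⟩ | ⟨x, hx, h⟩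
    · exact ⟨z, mem_union_left _ (mem_filter.mpr ⟨hz, h⟩)⟩
    · exact ⟨x, mem_union_right _ (mem_filter.mpr ⟨hx, h⟩)⟩
  have hcard : 1 ≤ (lv P w).card := by
    obtain ⟨z, hz⟩ := hTne
    have h1 := hdrop z hz
    have h2 := nab_le z w
    omega
  have hs := sign_sum_of_dvd (T1 ∪ T2) hZ hd (c0 := (lv P w).card - 1) (by omega) (by
    intro z hz
    have := hdrop z hz
    omega)
  rw [Finset.filter_true_of_mem (fun z hz => by
    have := hdrop z hz
    omega)] at hs
  obtain ⟨⟨z1, hz1, he⟩, z2, hz2, ho⟩ := both_signs _ _ hs hTne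
  have hcls : ∀ z ∈ T1 ∪ T2, (Even (nst w hh z) ∧ (EvN j w v ∨ XE v)) ∨
      (Odd (nst w hh z) ∧ (OdN j w v ∨ XO v)) ∨
      (∃ x x', Cg z x x' ∧ Sok j x ∧ Sok j x') ∧ v = ful w z ∧ nst w hh z = nst w (fun z => lev z - w) z := by
    intro z hz
    rcases mem_union.mp hz with h | h
    · rcases (hout1 z h).2 with h1 | h1 | h1
      · exact Or.inl h1
      · exact Or.inr (Or.inl h1)
      · refine Or.inr (Or.inr ⟨h1.1, h1.2.1, ?_⟩)
        rw [nst_eq, nst_eq, h1.2.2]
    · exact Or.inl ⟨(hout2 z h).2.2.1, Or.inl (hout2 z h).2.2.2⟩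
  constructor
  · rcases hcls z2 hz2 with h | h | ⟨⟨x, x', h, s1, s2⟩, h1, h2⟩
    · exact absurd h.1 (Nat.not_even_iff_odd.mpr ho)
    · exact Or.inr h.2
    · rw [h2] at ho
      exact Or.inl ⟨z2, x, x', h, s1, s2, h1.symm, ho⟩
  · rcases hcls z1 hz1 with h | h | ⟨⟨x, x', h, s1, s2⟩, h1, h2⟩
    · exact Or.inr h.2
    · exact absurd h.1 (Nat.not_odd_iff_even.mpr he)
    · rw [h2] at he
      exact Or.inl ⟨z1, x, x', h, s1, s2, h1.symm, he⟩

end Pool.Agent.GaussPoset.Sm
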