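import Pool.Agent.W_448s7s_h5.SrA

/-!
# S7 for `j ≤ 16`: the tables with the refined sides, without fold ends (MP_448cb3_co)
-/

namespace Pool.Agent.GaussPoset.Sm

set_option linter.unusedSectionVars false

open Finset Wd

universe u

variable {P : Type u} [Fintype P] [PartialOrder P] [DecidableEq P] {r j w : ℕ}

variable {lo hi : Tops P → ℕ → ℕ} {e : Tops P → ℕ → ℕ → P}

/-- for `j < 12` the joins of level `j + 1` at a fold end are excluded -/
def NoFo (P : Type u) [Fintype P] [PartialOrder P] [DecidableEq P] (j : ℕ) : Prop :=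
  j < 12 → ∀ z x x' : P, Cg z x x' → lev z = j + 1 → ¬ Fold j x

/-- the joins of level `j + 1` at an end with the data `s` are excluded -/
def NoD (P : Type u) [Fintype P] [PartialOrder P] [DecidableEq P] (j : ℕ) (s : ℕ × ℕ × ℕ) : Prop :=
  ∀ z x x' : P, Cg z x x' → lev z = j + 1 → ¬ Dt j x s

/-- pairs with the end `s` -/
def XE (s0 s s' : ℕ × ℕ × ℕ) : Bool := s == s0 || s' == s0

lemma noP_XE {s0 : ℕ × ℕ × ℕ} (h : NoD P j s0) : NoP P j (XE s0) := by
  intro z x x' hz hl s s' d d'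
  unfold XE
  rw [Bool.or_eq_false_iff]
  constructor
  · rw [beq_eq_false_iff_ne]
    rintro rfl
    exact h z x x' hz hl d
  · rw [beq_eq_false_iff_ne]
    rintro rfl
    exact h z x' x hz.symm hl d'

/-- the tables; `X` = the excluded pairs of ends -/
structure Tab' (j W : ℕ) (cap : ℕ → ℤ) (tab : List (List ℤ)) (E S1 S2 : List (ℕ × ℕ × ℕ))
    (X : ℕ × ℕ × ℕ → ℕ × ℕ × ℕ → Bool) : Prop where
  wj : W < j
  e : ChkE j E
  s1 : ChkT j S1
  s2 : ChkS j 2 S2
  e0 : (0, 0, 0) ∈ E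
  s10 : (0, 0, 0) ∈ S1
  s20 : (0, 0, 0) ∈ S2
  c0 : chk0 j W cap tab E X = true
  c1 : chk1 j W cap tab S1 = true
  c2 : chk2 j W cap tab S2 = true
  cb : chkB j W cap S2 = true

/-- the data of a join of level `j + 1` -/
theorem Ctx.pair' (K : Ctx P r j lo hi e) {E : List (ℕ × ℕ × ℕ)} (hE : ChkE j E)
    (h0 : (0, 0, 0) ∈ E) (hf : NoFo P j)
    {z x x' : P} (h : Cg z x x') (hlz : lev z = j + 1) (hs : Sok j x) (hs' : Sok j x') :
    ∃ s s', s ∈ E ∧ s' ∈ E ∧ Dt j x s ∧ Dt j x' s' ∧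
      kapZ j z = (s.1 : ℤ) + s'.1 ∧ gZ j z = -((s.2.1 : ℤ) + s'.2.1) := by
  have H := K.gt.H
  obtain ⟨l1, l2⟩ := h.lev_eq H
  obtain ⟨k1, k2, k3, k4, k5, k6⟩ := h.line H hlz.ge
  have hqz : (lev z : ℤ) - (j + 1) = 0 := by rw [hlz]; push_cast; ring
  rw [hqz] at k1 k2 k5
  obtain ⟨u1, u2⟩ := K.ends h hlz
  have hF : ∀ y y' : P, Cg z y y' → Sok j y → Fold j y → (fm j, fc j, 1) ∈ E := by
    intro y y' hyy hy hfy
    rcases Nat.lt_or_ge j 12 with h12 | h12
    · exact absurd hfy (hf h12 z y y' hyy hlz)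
    · exact absurd hfy (hy.2 h12)
  obtain ⟨s, g1, g2, g3, g4⟩ := K.endd h.only (by omega) u1 hE h0 (hF x x' h hs)
  obtain ⟨s', g1', g2', g3', g4'⟩ := K.endd h.only' (by omega) u2 hE h0 (hF x' x h.symm hs')
  obtain ⟨n0, d0⟩ := k6 (by omega)
  have hn : (nab j x : ℤ) = 1 ∧ (nab j x' : ℤ) = 1 := by
    constructor
    · rw [show j = lev x by omega, nab_self]; norm_num
    · rw [show j = lev x' by omega, nab_self]; norm_num
  refine ⟨s, s', g1, g1', ⟨g2, g3, g4⟩, ⟨g2', g3', g4'⟩, ?_, ?_⟩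
  · rw [k1, n0, hn.1, hn.2, g2, g2']
    ring
  · rw [k2, d0, g3, g3']
    ring

/-- **the cheap lines are in the table** -/
theorem Ctx.mem_tab' (K : Ctx P r j lo hi e) {X : ℕ × ℕ × ℕ → ℕ × ℕ × ℕ → Bool} (hN : NoP P j X)
    (hF : NoFo P j)
    {W : ℕ} {cap : ℕ → ℤ} {tab : List (List ℤ)} {E S1 S2 : List (ℕ × ℕ × ℕ)}
    (T : Tab' j W cap tab E S1 S2 X)
    {z x x' : P} (h : Cg z x x') (hs : Sok j x) (hs' : Sok j x') (hw : w ≤ W)
    (hc : kapZ j z * (j - w) + gZ j z ≤ cap w) : aT tab (kapZ j z) (gZ j z) = true := by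
  have H := K.gt.H
  have hl := K.lev_ge h
  obtain ⟨l1, l2⟩ := h.lev_eq H
  obtain ⟨k1, k2, k3, k4, k5, k6⟩ := h.line H hl
  obtain ⟨q, hq⟩ : ∃ q, lev z = j + 1 + q := ⟨lev z - (j + 1), by omega⟩
  have hqz : (lev z : ℤ) - (j + 1) = q := by rw [hq]; push_cast; ring
  rw [hqz] at k1 k2 k5
  rcases Nat.lt_or_ge q 1 with h0 | h0
  · -- level `j + 1`
    have hlz : lev z = j + 1 := by omega
    obtain ⟨s, s', g1, g1', d1, d1', e1, e2⟩ := K.pair' T.e T.e0 hF h hlz hs hs'
    have h1 := T.c0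
    unfold chk0 at h1
    rw [List.all_eq_true] at h1
    have h2 := h1 _ g1
    rw [List.all_eq_true] at h2
    have h3 := h2 _ g1'
    rw [hN z x x' h hlz s s' d1 d1', Bool.false_or] at h3
    rw [e1, e2] at hc ⊢
    exact okL_at h3 hw hc
  · rcases Nat.lt_or_ge q 2 with h1q | h1q
    · obtain rfl : q = 1 := by omega
      obtain ⟨m, c, b, g1, g2, g3, g4⟩ := K.side1 h.only (by omega) hs.1 T.s1 T.s10
      obtain ⟨m', c', b', g1', g2', g3', g4'⟩ := K.side1 h.only' (by omega) hs'.1 T.s1 T.s10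
      obtain ⟨n0, d0⟩ := k6 (by omega)
      have e1 : kapZ j z = 2 + ((m : ℤ) + m') + ((b : ℤ) + b') := by
        rw [k1, n0, g4, g4', g2, g2']
        push_cast; ring
      have e2 : gZ j z = 3 - ((c : ℤ) + c') := by
        rw [k2, d0, g3, g3']
        push_cast; ring
      have h1 := T.c1
      unfold chk1 at h1
      rw [List.all_eq_true] at h1
      have h2 := h1 _ g1
      rw [List.all_eq_true] at h2
      have h3 := h2 _ g1'
      rw [e1, e2] at hc ⊢
      exact okL_at h3 hw hc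
    · have hp : ∀ y : P, lev y = j + q → 2 = min q 2 := fun _ _ => by omega
      obtain ⟨m, c, b, g1, g2, g3, g4⟩ := K.side h.only (by omega) hs.1 (q := q) (by omega)
        (p := 2) (by omega) T.s2 T.s20
      obtain ⟨m', c', b', g1', g2', g3', g4'⟩ := K.side h.only' (by omega) hs'.1 (q := q) (by omega)
        (p := 2) (by omega) T.s2 T.s20
      obtain ⟨n, hn⟩ : ∃ n : ℕ, nJ j z = n := ⟨(nJ j z).toNat, (Int.toNat_of_nonneg k3).symm⟩
      obtain ⟨d, hd⟩ : ∃ d : ℕ, dJ j z = d :=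
        ⟨(dJ j z).toNat, (Int.toNat_of_nonneg (k3.trans k4)).symm⟩
      rw [hn, hd] at k4 k5
      have e1 : kapZ j z = 2 * (q : ℤ) + ((m : ℤ) + m') + ((b : ℤ) + b') + n := by
        rw [k1, hn, g4, g4', g2, g2']
      have e2 : gZ j z = (q : ℤ) * q + 2 * q - ((c : ℤ) + c') + d := by
        rw [k2, hd, g3, g3']
      have hB := T.cb
      unfold chkB at hB
      rw [List.all_eq_true] at hB
      have hB1 := hB w (List.mem_range.mpr (by omega))
      rw [Bool.and_eq_true, decide_eq_true_eq, List.all_eq_true] at hB1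
      have b1 := hB1.2 _ g1
      have b2 := hB1.2 _ g1'
      rw [decide_eq_true_eq] at b1 b2
      simp only at b1 b2
      have hjw : (0 : ℤ) < (j : ℤ) - w := by
        have := T.wj
        omega
      have e5 : kapZ j z * ((j : ℤ) - w) + gZ j z =
          (2 * (q : ℤ) + ((b : ℤ) + b') + n) * ((j : ℤ) - w) +
            (m * ((j : ℤ) - w) - c) + (m' * ((j : ℤ) - w) - c') + (q : ℤ) * q + 2 * q + d := by
        rw [e1, e2]; ring
      have hqn : 2 * q + n ≤ 8 := by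
        by_contra hcon
        push Not at hcon
        have e6 : (9 : ℤ) ≤ 2 * (q : ℤ) + ((b : ℤ) + b') + n := by
          have : (9 : ℤ) ≤ 2 * (q : ℤ) + n := by exact_mod_cast hcon
          have := Int.natCast_nonneg b
          have := Int.natCast_nonneg b'
          linarith
        have e7 : 9 * ((j : ℤ) - w) ≤ (2 * (q : ℤ) + ((b : ℤ) + b') + n) * ((j : ℤ) - w) :=
          mul_le_mul_of_nonneg_right e6 hjw.le
        have e8 : (0 : ℤ) ≤ (q : ℤ) * q + 2 * q + d := by positivity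
        linarith [hB1.1]
      have h1 := T.c2
      unfold chk2 at h1
      rw [List.all_eq_true] at h1
      have h2 := h1 _ g1
      rw [List.all_eq_true] at h2
      have h3 := h2 _ g1'
      rw [List.all_eq_true] at h3
      have h4 := h3 q (List.mem_range.mpr (by omega))
      rw [Bool.or_eq_true, decide_eq_true_eq] at h4
      have h5 := h4.resolve_left (by omega)
      rw [List.all_eq_true] at h5
      have h6 := h5 n (List.mem_range.mpr (by omega))
      rw [List.all_eq_true] at h6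
      have k5' : d ≤ (q - 1) * n := by
        have : (d : ℤ) ≤ ((q - 1 : ℕ) : ℤ) * n := by
          rw [Nat.cast_sub (by omega)]
          exact_mod_cast k5
        exact_mod_cast this
      have h7 := h6 d (List.mem_range.mpr (by omega))
      rw [Bool.or_eq_true, decide_eq_true_eq] at h7
      have h8 := h7.resolve_left (by
        have : (n : ℤ) ≤ d := k4
        have : n ≤ d := by exact_mod_cast this
        omega)
      rw [e1, e2] at hc ⊢
      exact okL_at h8 hw hc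

/-- **The bounds of the checker hold for the lines of the joins of level `j + 1`.** -/
theorem Ctx.bounds' (K : Ctx P r j lo hi e) {X : ℕ × ℕ × ℕ → ℕ × ℕ × ℕ → Bool} (hN : NoP P j X)
    (hF : NoFo P j)
    {W : ℕ} {cap : ℕ → ℤ} {tab : List (List ℤ)} {E S1 S2 : List (ℕ × ℕ × ℕ)}
    (T : Tab' j W cap tab E S1 S2 X)
    {nO nE : ℕ → ℤ → Bool} {lb : ℕ → ℤ}
    (hB : ∀ w ≤ W, ∃ V, WinB P j w (cap w) (nO w) (nE w) (lb w) V) (N R : ℕ)
    {z x x' : P} (h : Cg z x x') (hs : Sok j x) (hs' : Sok j x') :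
    Chk.above (kapZ j z) (gZ j z) (rnds (aT tab) nO nE cap (odds tab.length) (evens tab.length) j N
      (W + 1) R ((List.range (W + 1)).map fun w => min (lb w) (cap w + 1))) j = true := by
  classical
  have hB' : ∀ w, ∃ V, w ≤ W → WinB P j w (cap w) (nO w) (nE w) (lb w) V := by
    intro w
    by_cases hw : w ≤ W
    · obtain ⟨V, hV⟩ := hB w hw
      exact ⟨V, fun _ => hV⟩
    · exact ⟨0, fun h => absurd h hw⟩
  choose V hV using hB'
  have hS : Sys (j : ℤ) W cap (aT tab) nO nE (odds tab.length) (evens tab.length) V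
      (fun κ g => ∃ z x x' : P, Cg z x x' ∧ Sok j x ∧ Sok j x' ∧ κ = kapZ j z ∧ g = gZ j z) := by
    refine ⟨?_, ?_, ?_, ?_⟩
    · rintro κ g ⟨z, x, x', h, hs, hs', rfl, rfl⟩ w hw he hc
      have h1 := K.mem_tab' hN hF T h hs hs' hw (by rw [he]; exact hc)
      exact ⟨h1, aT_mem h1⟩
    · rintro κ g ⟨z, x, x', h, hs, hs', rfl, rfl⟩ w hw
      exact (hV w hw).mn z x x' h hs hs'
    · intro w hw hc
      rcases (hV w hw).od hc with ⟨z, x, x', h1, h2, h3, h4, h5⟩ | h1
      · exact Or.inl ⟨_, _, ⟨z, x, x', h1, h2, h3, rfl, rfl⟩, h4, h5⟩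
      · exact Or.inr h1
    · intro w hw hc
      rcases (hV w hw).ev hc with ⟨z, x, x', h1, h2, h3, h4, h5⟩ | h1
      · exact Or.inl ⟨_, _, ⟨z, x, x', h1, h2, h3, rfl, rfl⟩, h4, h5⟩
      · exact Or.inr h1
  refine hS.target N R ?_ ⟨z, x, x', h, hs, hs', rfl, rfl⟩
  refine ⟨by simp, fun w hw => ?_⟩
  rw [List.getD_eq_getElem?_getD, List.getElem?_map, List.getElem?_range (by omega)]
  simp only [Option.map_some, Option.getD_some]
  rcases le_or_gt (V w) (cap w) with h1 | h1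
  · exact (min_le_left _ _).trans ((hV w hw).lo h1)
  · exact (min_le_right _ _).trans (by omega)

/-- **the pairs of ends which are left** -/
theorem Ctx.left' (K : Ctx P r j lo hi e) {X : ℕ × ℕ × ℕ → ℕ × ℕ × ℕ → Bool} (hN : NoP P j X)
    (hF : NoFo P j)
    {W : ℕ} {cap : ℕ → ℤ} {tab : List (List ℤ)} {E S1 S2 : List (ℕ × ℕ × ℕ)}
    (T : Tab' j W cap tab E S1 S2 X)
    {nO nE : ℕ → ℤ → Bool} {lb : ℕ → ℤ}
    (hB : ∀ w ≤ W, ∃ V, WinB P j w (cap w) (nO w) (nE w) (lb w) V) (N R : ℕ)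
    {z x x' : P} (h : Cg z x x') (hl : lev z = j + 1) (hs : Sok j x) (hs' : Sok j x') :
    ∃ s s', (s, s') ∈ rest j E X (ubd j W cap lb tab nO nE N R) ∧ Dt j x s ∧ Dt j x' s' := by
  obtain ⟨s, s', g1, g1', d1, d1', e1, e2⟩ := K.pair' T.e T.e0 hF h hl hs hs'
  refine ⟨s, s', ?_, d1, d1'⟩
  have h1 := K.bounds' hN hF T hB N R h hs hs'
  rw [e1, e2] at h1
  unfold rest
  rw [List.mem_flatMap]
  refine ⟨s, g1, ?_⟩
  rw [List.mem_map]
  refine ⟨s', ?_, rfl⟩
  rw [List.mem_filter]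
  refine ⟨g1', ?_⟩
  rw [hN z x x' h hl s s' d1 d1', Bool.not_false, Bool.true_and]
  exact h1

end Pool.Agent.GaussPoset.Sm
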