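import Pool.Agent.W_448s7s_h5.SrE

/-!
# S7 for `j = 16`: windows `0, …, 3` (MP_448cb3_co)
-/

namespace Pool.Agent.GaussPoset.Sm

set_option linter.unusedSectionVars false

open Finset Wd

universe u

variable {P : Type u} [Fintype P] [PartialOrder P] [DecidableEq P] {r : ℕ}

/-- ends -/
def Er16 : List (ℕ × ℕ × ℕ) :=
    [(0, 0, 0), (1, 2, 1), (1, 3, 0), (1, 4, 0), (1, 5, 0), (1, 6, 0), (1, 7, 0), (1, 8, 0),
    (3, 9, 1), (5, 20, 1), (5, 25, 0), (10, 80, 0)]

/-- sides, one level deeper -/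
def Sr16a : List (ℕ × ℕ × ℕ) :=
    [(0, 0, 0), (0, 0, 1), (1, 1, 0), (1, 1, 1), (1, 2, 0), (1, 3, 0), (1, 4, 0), (1, 5, 0),
    (1, 6, 0), (1, 7, 0), (1, 8, 0), (2, 3, 1), (3, 6, 0), (3, 6, 1), (3, 9, 0), (4, 7, 1),
    (4, 10, 1), (5, 12, 1), (5, 15, 0), (5, 15, 1), (5, 20, 0), (5, 25, 0), (6, 13, 1),
    (6, 16, 1), (6, 21, 1), (7, 23, 1), (7, 28, 1), (8, 24, 1), (8, 31, 0), (8, 31, 1),
    (9, 33, 0), (10, 34, 1), (10, 80, 0)]

/-- sides, two or more levels deeper -/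
def Sr16b : List (ℕ × ℕ × ℕ) :=
    [(0, 0, 0), (0, 0, 1), (1, 1, 0), (1, 1, 1), (1, 1, 2), (1, 2, 0), (1, 3, 0), (1, 4, 0),
    (1, 5, 0), (1, 6, 0), (1, 7, 0), (1, 8, 0), (2, 3, 0), (2, 3, 1), (2, 3, 2), (3, 6, 0),
    (3, 6, 1), (3, 9, 0), (4, 7, 1), (4, 7, 2), (4, 7, 3), (4, 10, 0), (4, 10, 1), (4, 10, 2),
    (5, 12, 0), (5, 12, 1), (5, 15, 0), (5, 15, 1), (5, 20, 0), (5, 25, 0), (6, 13, 1),
    (6, 13, 2), (6, 13, 3), (6, 16, 1), (6, 16, 2), (6, 21, 0), (6, 21, 1), (7, 23, 0),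
    (7, 23, 1), (7, 28, 0), (7, 28, 1), (8, 24, 1), (8, 24, 2), (8, 24, 3), (8, 31, 0),
    (8, 31, 1), (9, 33, 0), (10, 34, 1), (10, 34, 2), (10, 80, 0), (11, 35, 1), (11, 35, 2),
    (11, 35, 3), (11, 35, 4)]

lemma chkEr16 : ChkE 16 Er16 := by decide +kernel

lemma chkSr16a : ChkT 16 Sr16a := by decide +kernel

lemma chkSr16b : ChkS 16 2 Sr16b := by decide +kernel

/-- caps -/
def cr16 (w : ℕ) : ℤ :=
  if w = 0 then cap0 16 else if w = 1 then ((16 * (16 - 1) / 2 : ℕ) : ℤ) - 1 else if w = 2 then ((101 : ℕ) : ℤ) else ((88 : ℕ) : ℤ)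

/-- even noise -/
def ner16 (w : ℕ) (V : ℤ) : Bool :=
  if w = 0 then false else if w = 1 then nz 16 V else if w = 2 then (nz ((16 + 1 - 2 : ℕ) : ℤ) V || ([] : List ℤ).elem V) else (nz ((16 + 1 - 3 : ℕ) : ℤ) V || ([] : List ℤ).elem V)

/-- odd noise -/
def nor16 (w : ℕ) (V : ℤ) : Bool :=
  if w = 0 then false else if w = 1 then false else if w = 2 then ([60] : List ℤ).elem V else ([47] : List ℤ).elem V

/-- lower bounds -/
def lwr16 (w : ℕ) : ℤ :=
  if w = 0 then 0 else if w = 1 then 0 else if w = 2 then (0) else (0)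

lemma balr16 {lo hi : Tops P → ℕ → ℕ} {e : Tops P → ℕ → ℕ → P} (K : Ctx P r 16 lo hi e)
    (hF : NoFo P 16) (hJ : ∃ z : P, Hul.Jn z) :
    ∀ w ≤ 3, ∃ V, WinB P 16 w (cr16 w) (nor16 w) (ner16 w) (lwr16 w) V := by
  intro w hw
  have : w = 0 ∨ w = 1 ∨ w = 2 ∨ w = 3 := by omega
  rcases this with rfl | rfl | rfl | rfl
  · exact K.win0 hJ
  · exact K.win1 (by norm_num) chkEr16 (by decide +kernel) (by decide +kernel) hJ
  · exact K.win23' (w := 2) (cT := 101) (LE := []) (LO := [60]) (lb := 0) hF (by norm_num)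
      (by norm_num) chkEr16 (by decide +kernel)
      (fun h => absurd h (by norm_num))
      (by decide +kernel) (by decide +kernel)
      (fun h => absurd h (by norm_num))
      (fun _ => by decide +kernel)
      (fun _ => Or.inr ⟨by decide +kernel, by decide +kernel⟩)
      (by norm_num) (by norm_num) (by norm_num) (by decide +kernel) (by decide +kernel) hJ
  · exact K.win23' (w := 3) (cT := 88) (LE := []) (LO := [47]) (lb := 0) hF (by norm_num)
      (by norm_num) chkEr16 (by decide +kernel)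
      (fun h => absurd h (by norm_num))
      (by decide +kernel) (by decide +kernel)
      (fun h => absurd h (by norm_num))
      (fun _ => by decide +kernel)
      (fun _ => Or.inr ⟨by decide +kernel, by decide +kernel⟩)
      (by norm_num) (by norm_num) (by norm_num) (by decide +kernel) (by decide +kernel) hJ

/-- caps as a list -/
def crl16 : List (ℕ × ℕ) := [(16, 138), (15, 119), (14, 101), (13, 88)]

lemma capr16 : CapL 16 3 cr16 crl16 := by decide +kernel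

/-- lines with `g + 300`, by `κ` -/
def tr16 : List (List ℕ) :=
  [[300], [292, 293, 294, 295, 296, 297, 298], [284, 285, 286, 287, 288, 289, 290, 291, 292,
    293, 294, 295, 296, 303], [291, 295, 296, 297, 298, 299, 300, 301, 302, 303], [283, 284,
    285, 286, 287, 288, 289, 290, 291, 292, 293, 294, 295, 296, 297, 298, 299, 300, 301, 302,
    303, 308], [275, 280, 294, 295, 296, 297, 298, 299, 300, 301, 302, 303, 304, 305, 306, 307,
    308, 309], [267, 268, 269, 270, 271, 272, 273, 274, 275, 276, 277, 278, 282, 286, 287, 288,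
    289, 290, 291, 292, 293, 294, 295, 296, 297, 298, 299, 300, 301, 302, 303, 304, 305, 306,
    307, 308, 309, 310, 315], [278, 283, 288, 289, 290, 291, 292, 293, 294, 295, 296, 297, 298,
    299, 300, 301, 302, 303, 304, 305, 306, 307, 308, 309, 310, 311, 312, 313, 314, 315, 316,
    317], [266, 270, 271, 272, 273, 274, 275, 276, 277, 278, 279, 280, 281, 282, 283, 284, 285,
    286, 287, 288, 289, 290, 291, 292, 293, 294, 295, 296, 297, 298, 299, 300, 301, 302, 303,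
    304, 305, 306, 307, 308, 309, 310], [277, 280, 281, 282, 283, 284, 285, 286, 287, 288, 289,
    290, 291, 292, 293, 294], [250, 255, 260, 269, 272, 274, 275, 276, 277, 278], [], [223],
    [215, 216, 217, 218, 219, 220, 221, 222, 223]]

/-- lines with `g`, by `κ` -/
def Lr16 : List (List ℤ) :=
  [[0], [-8, -7, -6, -5, -4, -3, -2], [-16, -15, -14, -13, -12, -11, -10, -9, -8, -7, -6, -5,
    -4, 3], [-9, -5, -4, -3, -2, -1, 0, 1, 2, 3], [-17, -16, -15, -14, -13, -12, -11, -10, -9,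
    -8, -7, -6, -5, -4, -3, -2, -1, 0, 1, 2, 3, 8], [-25, -20, -6, -5, -4, -3, -2, -1, 0, 1, 2,
    3, 4, 5, 6, 7, 8, 9], [-33, -32, -31, -30, -29, -28, -27, -26, -25, -24, -23, -22, -18,
    -14, -13, -12, -11, -10, -9, -8, -7, -6, -5, -4, -3, -2, -1, 0, 1, 2, 3, 4, 5, 6, 7, 8, 9,
    10, 15], [-22, -17, -12, -11, -10, -9, -8, -7, -6, -5, -4, -3, -2, -1, 0, 1, 2, 3, 4, 5, 6,
    7, 8, 9, 10, 11, 12, 13, 14, 15, 16, 17], [-34, -30, -29, -28, -27, -26, -25, -24, -23,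
    -22, -21, -20, -19, -18, -17, -16, -15, -14, -13, -12, -11, -10, -9, -8, -7, -6, -5, -4,
    -3, -2, -1, 0, 1, 2, 3, 4, 5, 6, 7, 8, 9, 10], [-23, -20, -19, -18, -17, -16, -15, -14,
    -13, -12, -11, -10, -9, -8, -7, -6], [-50, -45, -40, -31, -28, -26, -25, -24, -23, -22],
    [], [-77], [-85, -84, -83, -82, -81, -80, -79, -78, -77]]

lemma Lr16_eq : Lr16 = tabI tr16 := by decide +kernel

lemma fr16a : fst1 crl16 tr16 Sr16a = true := by decide +kernel

lemma fr16b : fst2 crl16 tr16 Sr16b = true := by decide +kernel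

theorem tabr16 : Tab' 16 3 cr16 Lr16 Er16 Sr16a Sr16b (XE (10, 80, 0)) := by
  refine ⟨by norm_num, chkEr16, chkSr16a, chkSr16b, ?_, ?_, ?_, ?_, ?_, ?_, ?_⟩
  · decide +kernel
  · decide +kernel
  · decide +kernel
  · decide +kernel
  · rw [Lr16_eq]
    exact chk1_of capr16 fr16a
  · rw [Lr16_eq]
    exact chk2_of (by norm_num) capr16 fr16b
  · decide +kernel

/-- the pairs of ends which are left -/
def Rr16 : List ((ℕ × ℕ × ℕ) × (ℕ × ℕ × ℕ)) :=
    []

lemma restr16 : rest 16 Er16 (XE (10, 80, 0)) (ubd 16 3 cr16 lwr16 Lr16 nor16 ner16 250 24) = Rr16 := by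
  decide +kernel

/-- **S7 for `j = 16`**, the joins of level `17` which are left -/
theorem leftr16 {lo hi : Tops P → ℕ → ℕ} {e : Tops P → ℕ → ℕ → P} (K : Ctx P r 16 lo hi e) (hF : NF P 16) (hE : NoD P 16 (10, 80, 0))
    {z x x' : P} (h : Cg z x x') (hl : lev z = 17) :
    ∃ s s', (s, s') ∈ Rr16 ∧ Dt 16 x s ∧ Dt 16 x' s' := by
  have h1 := K.leftF (noP_XE hE) hF tabr16 (balr16 K (NF.noFo hF) ⟨z, h.jn⟩) 250 24 h hl
  rw [restr16] at h1
  exact h1

/-- **S7 for `j = 16`** -/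
theorem nojr16 {lo hi : Tops P → ℕ → ℕ} {e : Tops P → ℕ → ℕ → P} (K : Ctx P r 16 lo hi e) (hF : NF P 16) (hE : NoD P 16 (10, 80, 0))
    {z : P} (hl : lev z = 17) : ¬ Hul.Jn z := by
  intro hz
  obtain ⟨x, x', h⟩ := K.cross hz hl
  obtain ⟨s, s', h1, -⟩ := leftr16 K hF hE h hl
  exact absurd h1 List.not_mem_nil

end Pool.Agent.GaussPoset.Sm
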