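import Pool.Agent.W_448s7s_h5.SrE

/-!
# S7 for `j = 11`: windows `0, …, 3` (MP_448cb3_co)
-/

namespace Pool.Agent.GaussPoset.Sm

set_option linter.unusedSectionVars false

open Finset Wd

universe u

variable {P : Type u} [Fintype P] [PartialOrder P] [DecidableEq P] {r : ℕ}

/-- ends -/
def Er11 : List (ℕ × ℕ × ℕ) :=
    [(0, 0, 0), (1, 2, 1), (1, 3, 0), (1, 4, 0), (1, 5, 0), (3, 9, 1), (5, 20, 1), (5, 25, 0)]

/-- sides, one level deeper -/
def Sr11a : List (ℕ × ℕ × ℕ) :=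
    [(0, 0, 0), (0, 0, 1), (1, 1, 0), (1, 1, 1), (1, 2, 0), (1, 3, 0), (1, 4, 0), (1, 5, 0),
    (2, 3, 1), (3, 6, 0), (3, 6, 1), (3, 9, 0), (4, 7, 1), (4, 10, 1), (5, 12, 1), (5, 15, 0),
    (5, 15, 1), (5, 20, 0), (5, 25, 0), (6, 13, 1), (6, 16, 1), (7, 23, 1), (8, 24, 1),
    (8, 31, 0), (8, 31, 1)]

/-- sides, two or more levels deeper -/
def Sr11b : List (ℕ × ℕ × ℕ) :=
    [(0, 0, 0), (0, 0, 1), (1, 1, 0), (1, 1, 1), (1, 1, 2), (1, 2, 0), (1, 3, 0), (1, 4, 0),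
    (1, 5, 0), (2, 3, 0), (2, 3, 1), (2, 3, 2), (3, 6, 0), (3, 6, 1), (3, 9, 0), (4, 7, 1),
    (4, 7, 2), (4, 7, 3), (4, 10, 0), (4, 10, 1), (4, 10, 2), (5, 12, 0), (5, 12, 1),
    (5, 15, 0), (5, 15, 1), (5, 20, 0), (5, 25, 0), (6, 13, 1), (6, 13, 2), (6, 13, 3),
    (6, 16, 1), (6, 16, 2), (6, 21, 0), (7, 23, 0), (7, 23, 1), (8, 24, 1), (8, 24, 2),
    (8, 31, 0), (8, 31, 1)]

lemma chkEr11 : ChkE 11 Er11 := by decide +kernel

lemma chkSr11a : ChkT 11 Sr11a := by decide +kernel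

lemma chkSr11b : ChkS 11 2 Sr11b := by decide +kernel

/-- caps -/
def cr11 (w : ℕ) : ℤ :=
  if w = 0 then cap0 11 else if w = 1 then ((11 * (11 - 1) / 2 : ℕ) : ℤ) - 1 else if w = 2 then ((21 : ℕ) : ℤ) else ((15 : ℕ) : ℤ)

/-- even noise -/
def ner11 (w : ℕ) (V : ℤ) : Bool :=
  if w = 0 then false else if w = 1 then nz 11 V else if w = 2 then (nz ((11 + 1 - 2 : ℕ) : ℤ) V || ([] : List ℤ).elem V) else (nz ((11 + 1 - 3 : ℕ) : ℤ) V || ([] : List ℤ).elem V)

/-- odd noise -/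
def nor11 (w : ℕ) (V : ℤ) : Bool :=
  if w = 0 then false else if w = 1 then false else if w = 2 then ([] : List ℤ).elem V else ([] : List ℤ).elem V

/-- lower bounds -/
def lwr11 (w : ℕ) : ℤ :=
  if w = 0 then 0 else if w = 1 then 0 else if w = 2 then (0) else (0)

lemma balr11 {lo hi : Tops P → ℕ → ℕ} {e : Tops P → ℕ → ℕ → P} (K : Ctx P r 11 lo hi e)
    (hF : NoFo P 11) (hJ : ∃ z : P, Hul.Jn z) :
    ∀ w ≤ 3, ∃ V, WinB P 11 w (cr11 w) (nor11 w) (ner11 w) (lwr11 w) V := by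
  intro w hw
  have : w = 0 ∨ w = 1 ∨ w = 2 ∨ w = 3 := by omega
  rcases this with rfl | rfl | rfl | rfl
  · exact K.win0 hJ
  · exact K.win1 (by norm_num) chkEr11 (by decide +kernel) (by decide +kernel) hJ
  · exact K.win23' (w := 2) (cT := 21) (LE := []) (LO := []) (lb := 0) hF (by norm_num)
      (by norm_num) chkEr11 (by decide +kernel)
      (fun _ => by decide +kernel)
      (by decide +kernel) (by decide +kernel)
      (fun _ => by decide +kernel)
      (fun h => absurd h (by norm_num))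
      (fun h => absurd h (by norm_num))
      (by norm_num) (by norm_num) (by norm_num) (by decide +kernel) (by decide +kernel) hJ
  · exact K.win23' (w := 3) (cT := 15) (LE := []) (LO := []) (lb := 0) hF (by norm_num)
      (by norm_num) chkEr11 (by decide +kernel)
      (fun _ => by decide +kernel)
      (by decide +kernel) (by decide +kernel)
      (fun _ => by decide +kernel)
      (fun h => absurd h (by norm_num))
      (fun h => absurd h (by norm_num))
      (by norm_num) (by norm_num) (by norm_num) (by decide +kernel) (by decide +kernel) hJ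

/-- caps as a list -/
def crl11 : List (ℕ × ℕ) := [(11, 68), (10, 54), (9, 21), (8, 15)]

lemma capr11 : CapL 11 3 cr11 crl11 := by decide +kernel

/-- lines with `g + 300`, by `κ` -/
def tr11 : List (List ℕ) :=
  [[300], [295, 296, 297, 298], [290, 291, 292, 293, 294, 295, 296, 303], [291, 298, 299, 300,
    301, 302, 303], [286, 287, 288, 289, 293, 294, 295, 296, 297, 298, 299, 300, 301, 302, 303,
    308], [275, 280, 294, 297, 298, 299, 300, 301, 302, 303, 304, 305, 306, 307, 308, 309],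
    [270, 271, 272, 273, 275, 276, 277, 278, 282, 289, 290, 291, 292, 293, 294, 295, 296, 297,
    298, 299, 300, 301, 302], [278, 283, 288], [266, 271, 273, 274, 275, 276, 277, 278, 279,
    280], [], [250, 255]]

/-- lines with `g`, by `κ` -/
def Lr11 : List (List ℤ) :=
  [[0], [-5, -4, -3, -2], [-10, -9, -8, -7, -6, -5, -4, 3], [-9, -2, -1, 0, 1, 2, 3], [-14,
    -13, -12, -11, -7, -6, -5, -4, -3, -2, -1, 0, 1, 2, 3, 8], [-25, -20, -6, -3, -2, -1, 0, 1,
    2, 3, 4, 5, 6, 7, 8, 9], [-30, -29, -28, -27, -25, -24, -23, -22, -18, -11, -10, -9, -8,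
    -7, -6, -5, -4, -3, -2, -1, 0, 1, 2], [-22, -17, -12], [-34, -29, -27, -26, -25, -24, -23,
    -22, -21, -20], [], [-50, -45]]

lemma Lr11_eq : Lr11 = tabI tr11 := by decide +kernel

lemma fr11a : fst1 crl11 tr11 Sr11a = true := by decide +kernel

lemma fr11b : fst2 crl11 tr11 Sr11b = true := by decide +kernel

theorem tabr11 : Tab' 11 3 cr11 Lr11 Er11 Sr11a Sr11b X0 := by
  refine ⟨by norm_num, chkEr11, chkSr11a, chkSr11b, ?_, ?_, ?_, ?_, ?_, ?_, ?_⟩
  · decide +kernel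
  · decide +kernel
  · decide +kernel
  · decide +kernel
  · rw [Lr11_eq]
    exact chk1_of capr11 fr11a
  · rw [Lr11_eq]
    exact chk2_of (by norm_num) capr11 fr11b
  · decide +kernel

/-- the pairs of ends which are left -/
def Rr11 : List ((ℕ × ℕ × ℕ) × (ℕ × ℕ × ℕ)) :=
    [((3, 9, 1), (5, 20, 1)), ((5, 20, 1), (3, 9, 1)), ((5, 20, 1), (5, 20, 1)),
    ((5, 20, 1), (5, 25, 0)), ((5, 25, 0), (5, 20, 1)), ((5, 25, 0), (5, 25, 0))]

lemma restr11 : rest 11 Er11 X0 (ubd 11 3 cr11 lwr11 Lr11 nor11 ner11 250 7) = Rr11 := by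
  decide +kernel

/-- **S7 for `j = 11`**, the joins of level `12` which are left -/
theorem leftr11 {lo hi : Tops P → ℕ → ℕ} {e : Tops P → ℕ → ℕ → P} (K : Ctx P r 11 lo hi e)
    {z x x' : P} (h : Cg z x x') (hl : lev z = 12) :
    ∃ s s', (s, s') ∈ Rr11 ∧ Dt 11 x s ∧ Dt 11 x' s' := by
  have h1 := K.leftF (noP_zero 11) (nf_odd (by norm_num)) tabr11 (balr11 K (NF.noFo (nf_odd (by norm_num))) ⟨z, h.jn⟩) 250 7 h hl
  rw [restr11] at h1
  exact h1

end Pool.Agent.GaussPoset.Sm
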