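import Pool.Agent.W_448s7s_h5.SrE

/-!
# S7 for `j = 13`: windows `0, …, 3` (MP_448cb3_co)
-/

namespace Pool.Agent.GaussPoset.Sm

set_option linter.unusedSectionVars false

open Finset Wd

universe u

variable {P : Type u} [Fintype P] [PartialOrder P] [DecidableEq P] {r : ℕ}

/-- ends -/
def Er13 : List (ℕ × ℕ × ℕ) :=
    [(0, 0, 0), (1, 2, 1), (1, 3, 0), (1, 4, 0), (1, 5, 0), (1, 6, 0), (3, 9, 1), (5, 20, 1),
    (5, 25, 0)]

/-- sides, one level deeper -/
def Sr13a : List (ℕ × ℕ × ℕ) :=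
    [(0, 0, 0), (0, 0, 1), (1, 1, 0), (1, 1, 1), (1, 2, 0), (1, 3, 0), (1, 4, 0), (1, 5, 0),
    (1, 6, 0), (2, 3, 1), (3, 6, 0), (3, 6, 1), (3, 9, 0), (4, 7, 1), (4, 10, 1), (5, 12, 1),
    (5, 15, 0), (5, 15, 1), (5, 20, 0), (5, 25, 0), (6, 13, 1), (6, 16, 1), (6, 21, 1),
    (7, 23, 1), (8, 24, 1), (8, 31, 0), (8, 31, 1), (9, 33, 0), (10, 34, 1), (10, 50, 0)]

/-- sides, two or more levels deeper -/
def Sr13b : List (ℕ × ℕ × ℕ) :=
    [(0, 0, 0), (0, 0, 1), (1, 1, 0), (1, 1, 1), (1, 1, 2), (1, 2, 0), (1, 3, 0), (1, 4, 0),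
    (1, 5, 0), (1, 6, 0), (2, 3, 0), (2, 3, 1), (2, 3, 2), (3, 6, 0), (3, 6, 1), (3, 9, 0),
    (4, 7, 1), (4, 7, 2), (4, 7, 3), (4, 10, 0), (4, 10, 1), (4, 10, 2), (5, 12, 0),
    (5, 12, 1), (5, 15, 0), (5, 15, 1), (5, 20, 0), (5, 25, 0), (6, 13, 1), (6, 13, 2),
    (6, 13, 3), (6, 16, 1), (6, 16, 2), (6, 21, 0), (6, 21, 1), (7, 23, 0), (7, 23, 1),
    (7, 28, 0), (8, 24, 1), (8, 24, 2), (8, 24, 3), (8, 31, 0), (8, 31, 1), (9, 33, 0),
    (10, 34, 1), (10, 34, 2), (10, 50, 0), (11, 35, 1), (11, 35, 2), (11, 35, 3)]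

lemma chkEr13 : ChkE 13 Er13 := by decide +kernel

lemma chkSr13a : ChkT 13 Sr13a := by decide +kernel

lemma chkSr13b : ChkS 13 2 Sr13b := by decide +kernel

/-- caps -/
def cr13 (w : ℕ) : ℤ :=
  if w = 0 then cap0 13 else if w = 1 then ((13 * (13 - 1) / 2 : ℕ) : ℤ) - 1 else if w = 2 then ((47 : ℕ) : ℤ) else ((37 : ℕ) : ℤ)

/-- even noise -/
def ner13 (w : ℕ) (V : ℤ) : Bool :=
  if w = 0 then false else if w = 1 then nz 13 V else if w = 2 then (nz ((13 + 1 - 2 : ℕ) : ℤ) V || ([] : List ℤ).elem V) else (nz ((13 + 1 - 3 : ℕ) : ℤ) V || ([] : List ℤ).elem V)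

/-- odd noise -/
def nor13 (w : ℕ) (V : ℤ) : Bool :=
  if w = 0 then false else if w = 1 then false else if w = 2 then ([] : List ℤ).elem V else ([] : List ℤ).elem V

/-- lower bounds -/
def lwr13 (w : ℕ) : ℤ :=
  if w = 0 then 0 else if w = 1 then 0 else if w = 2 then (0) else (0)

lemma balr13 {lo hi : Tops P → ℕ → ℕ} {e : Tops P → ℕ → ℕ → P} (K : Ctx P r 13 lo hi e)
    (hF : NoFo P 13) (hJ : ∃ z : P, Hul.Jn z) :
    ∀ w ≤ 3, ∃ V, WinB P 13 w (cr13 w) (nor13 w) (ner13 w) (lwr13 w) V := by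
  intro w hw
  have : w = 0 ∨ w = 1 ∨ w = 2 ∨ w = 3 := by omega
  rcases this with rfl | rfl | rfl | rfl
  · exact K.win0 hJ
  · exact K.win1 (by norm_num) chkEr13 (by decide +kernel) (by decide +kernel) hJ
  · exact K.win23' (w := 2) (cT := 47) (LE := []) (LO := []) (lb := 0) hF (by norm_num)
      (by norm_num) chkEr13 (by decide +kernel)
      (fun _ => by decide +kernel)
      (by decide +kernel) (by decide +kernel)
      (fun _ => by decide +kernel)
      (fun h => absurd h (by norm_num))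
      (fun h => absurd h (by norm_num))
      (by norm_num) (by norm_num) (by norm_num) (by decide +kernel) (by decide +kernel) hJ
  · exact K.win23' (w := 3) (cT := 37) (LE := []) (LO := []) (lb := 0) hF (by norm_num)
      (by norm_num) chkEr13 (by decide +kernel)
      (fun _ => by decide +kernel)
      (by decide +kernel) (by decide +kernel)
      (fun _ => by decide +kernel)
      (fun h => absurd h (by norm_num))
      (fun h => absurd h (by norm_num))
      (by norm_num) (by norm_num) (by norm_num) (by decide +kernel) (by decide +kernel) hJ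

/-- caps as a list -/
def crl13 : List (ℕ × ℕ) := [(13, 93), (12, 77), (11, 47), (10, 37)]

lemma capr13 : CapL 13 3 cr13 crl13 := by decide +kernel

/-- lines with `g + 300`, by `κ` -/
def tr13 : List (List ℕ) :=
  [[300], [294, 295, 296, 297, 298], [288, 289, 290, 291, 292, 293, 294, 295, 296, 303], [291,
    297, 298, 299, 300, 301, 302, 303], [285, 286, 287, 288, 289, 291, 292, 293, 294, 295, 296,
    297, 298, 299, 300, 301, 302, 303, 308], [275, 280, 294, 296, 297, 298, 299, 300, 301, 302,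
    303, 304, 305, 306, 307, 308, 309], [269, 270, 271, 272, 273, 274, 275, 276, 277, 278, 282,
    288, 289, 290, 291, 292, 293, 294, 295, 296, 297, 298, 299, 300, 301, 302, 303, 304, 305,
    306, 307, 308, 309, 310, 315], [278, 283, 288, 291, 292, 293, 294, 295, 296, 297, 298, 299,
    300, 301, 302], [266, 271, 272, 273, 274, 275, 276, 277, 278, 279, 280, 281, 282, 283, 284,
    285, 286, 287, 288, 289], [], [250, 255, 260]]

/-- lines with `g`, by `κ` -/
def Lr13 : List (List ℤ) :=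
  [[0], [-6, -5, -4, -3, -2], [-12, -11, -10, -9, -8, -7, -6, -5, -4, 3], [-9, -3, -2, -1, 0,
    1, 2, 3], [-15, -14, -13, -12, -11, -9, -8, -7, -6, -5, -4, -3, -2, -1, 0, 1, 2, 3, 8],
    [-25, -20, -6, -4, -3, -2, -1, 0, 1, 2, 3, 4, 5, 6, 7, 8, 9], [-31, -30, -29, -28, -27,
    -26, -25, -24, -23, -22, -18, -12, -11, -10, -9, -8, -7, -6, -5, -4, -3, -2, -1, 0, 1, 2,
    3, 4, 5, 6, 7, 8, 9, 10, 15], [-22, -17, -12, -9, -8, -7, -6, -5, -4, -3, -2, -1, 0, 1, 2],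
    [-34, -29, -28, -27, -26, -25, -24, -23, -22, -21, -20, -19, -18, -17, -16, -15, -14, -13,
    -12, -11], [], [-50, -45, -40]]

lemma Lr13_eq : Lr13 = tabI tr13 := by decide +kernel

lemma fr13a : fst1 crl13 tr13 Sr13a = true := by decide +kernel

lemma fr13b : fst2 crl13 tr13 Sr13b = true := by decide +kernel

theorem tabr13 : Tab' 13 3 cr13 Lr13 Er13 Sr13a Sr13b X0 := by
  refine ⟨by norm_num, chkEr13, chkSr13a, chkSr13b, ?_, ?_, ?_, ?_, ?_, ?_, ?_⟩
  · decide +kernel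
  · decide +kernel
  · decide +kernel
  · decide +kernel
  · rw [Lr13_eq]
    exact chk1_of capr13 fr13a
  · rw [Lr13_eq]
    exact chk2_of (by norm_num) capr13 fr13b
  · decide +kernel

/-- the pairs of ends which are left -/
def Rr13 : List ((ℕ × ℕ × ℕ) × (ℕ × ℕ × ℕ)) :=
    [((3, 9, 1), (5, 20, 1)), ((3, 9, 1), (5, 25, 0)), ((5, 20, 1), (3, 9, 1)),
    ((5, 20, 1), (5, 20, 1)), ((5, 20, 1), (5, 25, 0)), ((5, 25, 0), (3, 9, 1)),
    ((5, 25, 0), (5, 20, 1)), ((5, 25, 0), (5, 25, 0))]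

lemma restr13 : rest 13 Er13 X0 (ubd 13 3 cr13 lwr13 Lr13 nor13 ner13 250 7) = Rr13 := by
  decide +kernel

/-- **S7 for `j = 13`**, the joins of level `14` which are left -/
theorem leftr13 {lo hi : Tops P → ℕ → ℕ} {e : Tops P → ℕ → ℕ → P} (K : Ctx P r 13 lo hi e)
    {z x x' : P} (h : Cg z x x') (hl : lev z = 14) :
    ∃ s s', (s, s') ∈ Rr13 ∧ Dt 13 x s ∧ Dt 13 x' s' := by
  have h1 := K.leftF (noP_zero 13) (nf_odd (by norm_num)) tabr13 (balr13 K (NF.noFo (nf_odd (by norm_num))) ⟨z, h.jn⟩) 250 7 h hl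
  rw [restr13] at h1
  exact h1

end Pool.Agent.GaussPoset.Sm
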