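import Pool.Agent.W_448s7s_h5.SpC
import Pool.Agent.W_448s7_h5.SevN

/-!
# Pendants of the level `j + 1` have no twins (MP_448cb3_co, S7)

By the near level theorem every double-up element of the level `j` has at most one pendant.
-/

set_option autoImplicit false

namespace Pool.Agent.GaussPoset.Sm

set_option linter.unusedSectionVars false

open Finset Wd

universe u

variable {P : Type u} [Fintype P] [PartialOrder P] [DecidableEq P] {r j : ℕ}

/-- at most one pendant below an element with two upper covers -/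
theorem pen_le_one (G : Win.GoodTo P r j) (hj : 2 ≤ j) {y : P} (hy : lev y = j)
    (hy2 : (Win.uc y).card = 2) : (Win.pen y).card ≤ 1 := by
  have G' : Win.GoodTo P r ((j - 1) + 1) := by
    rw [show j - 1 + 1 = j by omega]
    exact G
  obtain ⟨t, ht, hyt⟩ := exists_above' (x := y) (j := 0) (Nat.zero_le _)
  obtain ⟨lo, hi, x, C⟩ := Win.comp_exists G' hyt
  obtain ⟨a, a1, a2, rfl⟩ := C.surj (j - 1 + 1) le_rfl y (by omega) ht
  have h1 := (C.uc_two G' hyt (k := j - 1) (by omega) a1 a2).1 hy2
  rcases (Win.near_level' G' (by omega)).2 t lo hi x hyt C with ⟨-, -, h2⟩ | ⟨-, -, b, -, h2⟩ |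
    ⟨-, -, b, -, h2⟩
  · rw [h2 a h1.1 h1.2]
    exact Nat.zero_le _
  · rw [h2 a h1.1 h1.2]
    split_ifs <;> omega
  · rw [h2 a h1.1 h1.2]
    split_ifs <;> omega

/-- two pendants below the same element with two upper covers are equal -/
theorem pend_unique (G : Win.GoodTo P r j) (hj : 2 ≤ j) {x x' y : P} (hy : lev y = j)
    (hy2 : (Win.uc y).card = 2) (hx : Win.uc x = {y}) (hx' : Win.uc x' = {y}) : x = x' := by
  have h1 := pen_le_one G hj hy hy2
  rw [card_le_one] at h1
  have m1 : x ⋖ y := by rw [← Win.mem_uc, hx]; exact mem_singleton_self _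
  have m2 : x' ⋖ y := by rw [← Win.mem_uc, hx']; exact mem_singleton_self _
  exact h1 x (Win.mem_pen.2 ⟨m1, by rw [hx, card_singleton]⟩) x'
    (Win.mem_pen.2 ⟨m2, by rw [hx', card_singleton]⟩)

/-- an element of the level `j + 1` with one element above it on the level `j` and two on the level
`j - 1` has no twin -/
theorem no_pend_tw (G : Win.GoodTo P r j) (hj : 2 ≤ j) {x x' : P} (hne : x ≠ x')
    (hl : lev x = j + 1) (hu : ∀ u, x < u ↔ x' < u) (h1 : nab j x = 1)
    (h2 : 2 ≤ nab (j - 1) x) : False := by
  have H := G.H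
  have hl' : lev x' = j + 1 := by
    have := lev_eq_of_up (x := x) (x' := x') hu
    omega
  have e1 := nab_uc H (z := x) (k := j) hl
  have e2 := nab_uc H (z := x') (k := j) hl'
  have e3 := nab_congr_up (x := x) (y := x') (fun v => (hu v).symm) (k := j) (by omega)
  obtain ⟨y, hy⟩ := card_eq_one.1 (by omega : (Win.uc x).card = 1)
  obtain ⟨y', hy'⟩ := card_eq_one.1 (by omega : (Win.uc x').card = 1)
  have m1 : x ⋖ y := by rw [← Win.mem_uc, hy]; exact mem_singleton_self _
  have ly := (H.covBy_iff.mp m1).2
  have m2 : x' ⋖ y := H.covBy_iff.mpr ⟨(hu y).1 m1.1, by omega⟩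
  have e4 : y = y' := by
    have := Win.mem_uc.2 m2
    rw [hy', mem_singleton] at this
    exact this
  subst e4
  have h3 : nab (j - 1) x = nab (j - 1) y := nab_only (fun v hv => by
    have := Win.mem_uc.2 hv
    rw [hy, mem_singleton] at this
    exact this) m1 (by omega)
  have h4 := nab_uc H (z := y) (k := j - 1) (by omega)
  have h5 := Win.uc_card_le H y
  exact hne (pend_unique G hj (by omega) (by omega) hy hy')

end Pool.Agent.GaussPoset.Sm
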