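import Pool.Agent.W_448s7s_h5.SmH

/-!
# S7 for `j = 5`: window `0` (MP_448cb3_co)
-/

namespace Pool.Agent.GaussPoset.Sm

set_option linter.unusedSectionVars false

open Finset Wd

universe u

variable {P : Type u} [Fintype P] [PartialOrder P] [DecidableEq P] {r : ℕ}

/-- ends -/
def E5 : List (ℕ × ℕ × ℕ) :=
    [(0, 0, 0), (1, 2, 1)]

/-- sides, one level deeper -/
def S5a : List (ℕ × ℕ × ℕ) :=
    [(0, 0, 0), (0, 0, 1), (1, 1, 0), (1, 1, 1), (1, 2, 0), (2, 3, 0), (2, 3, 1)]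

/-- sides, two or more levels deeper -/
def S5b : List (ℕ × ℕ × ℕ) :=
    [(0, 0, 0), (0, 0, 1), (1, 1, 0), (1, 1, 1), (1, 1, 2), (1, 2, 0), (2, 3, 0), (2, 3, 1),
    (2, 3, 2)]

/-- lines with `g`, by `κ` -/
def L5 : List (List ℤ) :=
  [[0], [-2], [-4, 3], [1, 2]]

theorem tab5 : Tab 5 0 (fun _ => cap0 5) L5 E5 S5a S5b X0 := by
  refine ⟨by norm_num, ?_, ?_, ?_, ?_, ?_, ?_, ?_, ?_, ?_, ?_, ?_⟩
  · decide +kernel
  · decide +kernel
  · decide +kernel
  · decide +kernel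
  · decide +kernel
  · decide +kernel
  · intro _ h
    exact absurd h (by norm_num)
  · decide +kernel
  · decide +kernel
  · decide +kernel
  · decide +kernel

lemma rest5 : rest 5 E5 X0 (ubd 5 0 (fun _ => cap0 5) (fun _ => 0) L5 (fun _ _ => false)
    (fun _ _ => false) 100 2) = [] := by
  decide +kernel

variable {lo hi : Tops P → ℕ → ℕ} {e : Tops P → ℕ → ℕ → P}

/-- **S7 for `j = 5`.** -/
theorem no_join5 (K : Ctx P r 5 lo hi e) {z : P} (hl : lev z = 6) : ¬ Hul.Jn z := by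
  intro hz
  obtain ⟨x, x', h⟩ := K.cross hz hl
  have hs : ∀ y : P, lev y = 5 → Sok 5 y := fun y hy => ⟨fun hf => by have := hf.1; omega,
    fun h12 => by omega⟩
  obtain ⟨l1, l2⟩ := h.lev_eq K.gt.H
  obtain ⟨s, s', h1, -, -⟩ := K.left (noP_zero 5) tab5 (lb := fun _ => 0)
    (nO := fun _ _ => false) (nE := fun _ _ => false)
    (fun w hw => by obtain rfl : w = 0 := by omega
                    exact K.win0 ⟨z, hz⟩) 100 2 h hl (hs x (by omega)) (hs x' (by omega))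
  rw [rest5] at h1
  exact absurd h1 List.not_mem_nil

end Pool.Agent.GaussPoset.Sm
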