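import Pool.Agent.W_448s7s_h5.SkZ
import Pool.Agent.W_448s7s_h5.SmI6

/-!
# S7 for `j = 6`: windows `0`, `1` (MP_448cb3_co)
-/

namespace Pool.Agent.GaussPoset.Sm

set_option linter.unusedSectionVars false

open Finset Wd

universe u

variable {P : Type u} [Fintype P] [PartialOrder P] [DecidableEq P] {r : ℕ}

lemma chkE6 : ChkE 6 E6 := tab6.e

/-- caps -/
def cp6 (w : ℕ) : ℤ := if w = 0 then cap0 6 else ((6 * (6 - 1) / 2 : ℕ) : ℤ) - 1

/-- even noise -/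
def ne6 (w : ℕ) (V : ℤ) : Bool := if w = 0 then false else nz 6 V

lemma bal6 {lo hi : Tops P → ℕ → ℕ} {e : Tops P → ℕ → ℕ → P} (K : Ctx P r 6 lo hi e)
    (hJ : ∃ z : P, Hul.Jn z) : ∀ w ≤ 1, ∃ V, WinB P 6 w (cp6 w) ((fun _ _ => false) w) (ne6 w)
      ((fun _ => 0) w) V := by
  intro w hw
  have : w = 0 ∨ w = 1 := by omega
  rcases this with rfl | rfl
  · exact K.win0 hJ
  · exact K.win1 (by norm_num) chkE6 (by decide +kernel) (by decide +kernel) hJ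

/-- lines with `g`, by `κ` -/
def L6w : List (List ℤ) :=
  [[0], [-3, -2], [-6, -5, -4, 3], [-9, 0, 1, 2, 3], [-12, -11, -3, -2, -1], [], [-18]]

set_option maxRecDepth 100000 in
theorem tab6w : Tab 6 1 cp6 L6w E6 S6a S6b X0 := by
  refine ⟨by norm_num, chkE6, ?_, ?_, ?_, ?_, ?_, ?_, ?_, ?_, ?_, ?_⟩
  · decide +kernel
  · decide +kernel
  · decide +kernel
  · decide +kernel
  · decide +kernel
  · intro _ h
    decide +kernel
  · decide +kernel
  · decide +kernel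
  · decide +kernel
  · decide +kernel

/-- the pairs of ends which are left -/
def R6w : List ((ℕ × ℕ × ℕ) × (ℕ × ℕ × ℕ)) :=
    []

lemma rest6w : rest 6 E6 X0 (ubd 6 1 cp6 (fun _ => 0) L6w (fun _ _ => false) ne6 200 3) =
    R6w := by
  decide +kernel

/-- **S7 for `j = 6`**, exclusion `X0`. -/
theorem left6w {lo hi : Tops P → ℕ → ℕ} {e : Tops P → ℕ → ℕ → P} (K : Ctx P r 6 lo hi e)
    {z x x' : P} (h : Cg z x x') (hl : lev z = 7) :
    ∃ s s', (s, s') ∈ R6w ∧ Dt 6 x s ∧ Dt 6 x' s' := by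
  have hs : ∀ y : P, lev y = 6 → Sok 6 y := fun y hy => ⟨fun hf => by have := hf.1; omega,
    fun h12 => by omega⟩
  obtain ⟨l1, l2⟩ := h.lev_eq K.gt.H
  obtain ⟨s, s', h1, h2, h3⟩ := K.left (noP_zero 6) tab6w (bal6 K ⟨z, h.jn⟩) 200 3 h hl
    (hs x (by omega)) (hs x' (by omega))
  rw [rest6w] at h1
  exact ⟨s, s', h1, h2, h3⟩

theorem no_join6w {lo hi : Tops P → ℕ → ℕ} {e : Tops P → ℕ → ℕ → P} (K : Ctx P r 6 lo hi e)
    {z : P} (hl : lev z = 7) : ¬ Hul.Jn z := by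
  intro hz
  obtain ⟨x, x', h⟩ := K.cross hz hl
  obtain ⟨s, s', h1, -, -⟩ := left6w K h hl
  exact absurd h1 List.not_mem_nil

end Pool.Agent.GaussPoset.Sm
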