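import Pool.Agent.W_448s7s_h5.SmH

/-!
# S7 for `j = 7`: window `0` (MP_448cb3_co)
-/

namespace Pool.Agent.GaussPoset.Sm

set_option linter.unusedSectionVars false

open Finset Wd

universe u

variable {P : Type u} [Fintype P] [PartialOrder P] [DecidableEq P] {r : ℕ}

/-- ends -/
def E7 : List (ℕ × ℕ × ℕ) :=
    [(0, 0, 0), (1, 2, 1), (1, 3, 0), (3, 9, 1)]

/-- sides, one level deeper -/
def S7a : List (ℕ × ℕ × ℕ) :=
    [(0, 0, 0), (0, 0, 1), (1, 1, 0), (1, 1, 1), (1, 2, 0), (1, 3, 0), (2, 3, 0), (2, 3, 1),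
    (3, 6, 0), (3, 6, 1), (3, 9, 0), (4, 7, 1), (4, 10, 0), (4, 10, 1), (5, 12, 0), (5, 12, 1),
    (6, 13, 1)]

/-- sides, two or more levels deeper -/
def S7b : List (ℕ × ℕ × ℕ) :=
    [(0, 0, 0), (0, 0, 1), (1, 1, 0), (1, 1, 1), (1, 1, 2), (1, 2, 0), (1, 3, 0), (2, 3, 0),
    (2, 3, 1), (2, 3, 2), (3, 6, 0), (3, 6, 1), (3, 9, 0), (4, 7, 1), (4, 7, 2), (4, 7, 3),
    (4, 10, 0), (4, 10, 1), (5, 12, 0), (5, 12, 1), (6, 13, 1), (6, 13, 2)]

/-- lines with `g`, by `κ` -/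
def L7 : List (List ℤ) :=
  [[0], [-3, -2], [-6, -5, -4, 3], [-9, 0, 1, 2, 3], [-12, -11, -3, -2, -1, 0, 1, 2], [-6],
    [-18]]

theorem tab7 : Tab 7 0 (fun _ => cap0 7) L7 E7 S7a S7b X0 := by
  refine ⟨by norm_num, ?_, ?_, ?_, ?_, ?_, ?_, ?_, ?_, ?_, ?_, ?_⟩
  · decide +kernel
  · decide +kernel
  · decide +kernel
  · decide +kernel
  · decide +kernel
  · decide +kernel
  · intro _ h
    exact absurd h (by norm_num)
  · decide +kernel
  · decide +kernel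
  · decide +kernel
  · decide +kernel

lemma rest7 : rest 7 E7 X0 (ubd 7 0 (fun _ => cap0 7) (fun _ => 0) L7 (fun _ _ => false)
    (fun _ _ => false) 100 2) = [((3, 9, 1), (3, 9, 1))] := by
  decide +kernel

variable {lo hi : Tops P → ℕ → ℕ} {e : Tops P → ℕ → ℕ → P}

/-- **S7 for `j = 7`**: only two ends with the data `(3, 9)` can be joined. -/
theorem join7 (K : Ctx P r 7 lo hi e) {z : P} (hl : lev z = 8) (hz : Hul.Jn z) :
    ∃ x x' : P, Cg z x x' ∧ Dt 7 x (3, 9, 1) ∧ Dt 7 x' (3, 9, 1) := by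
  obtain ⟨x, x', h⟩ := K.cross hz hl
  have hs : ∀ y : P, lev y = 7 → Sok 7 y := fun y hy => ⟨fun hf => by have := hf.1; omega,
    fun h12 => by omega⟩
  obtain ⟨l1, l2⟩ := h.lev_eq K.gt.H
  obtain ⟨s, s', h1, h2, h3⟩ := K.left (noP_zero 7) tab7 (lb := fun _ => 0)
    (nO := fun _ _ => false) (nE := fun _ _ => false)
    (fun w hw => by obtain rfl : w = 0 := by omega
                    exact K.win0 ⟨z, hz⟩) 100 2 h hl (hs x (by omega)) (hs x' (by omega))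
  rw [rest7, List.mem_singleton, Prod.mk.injEq] at h1
  obtain ⟨rfl, rfl⟩ := h1
  exact ⟨x, x', h, h2, h3⟩

theorem no_join7 (K : Ctx P r 7 lo hi e) (hN : NoP P 7 XRR) {z : P} (hl : lev z = 8) :
    ¬ Hul.Jn z := by
  intro hz
  obtain ⟨x, x', h, h1, h2⟩ := join7 K hl hz
  exact absurd (hN z x x' h hl _ _ h1 h2) (by decide)

end Pool.Agent.GaussPoset.Sm
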