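import Pool.Agent.W_448s7s_h5.SkZ
import Pool.Agent.W_448s7s_h5.SmI7

/-!
# S7 for `j = 7`: windows `0`, `1` (MP_448cb3_co)
-/

namespace Pool.Agent.GaussPoset.Sm

set_option linter.unusedSectionVars false

open Finset Wd

universe u

variable {P : Type u} [Fintype P] [PartialOrder P] [DecidableEq P] {r : ℕ}

lemma chkE7 : ChkE 7 E7 := tab7.e

/-- caps -/
def cp7 (w : ℕ) : ℤ := if w = 0 then cap0 7 else ((7 * (7 - 1) / 2 : ℕ) : ℤ) - 1

/-- even noise -/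
def ne7 (w : ℕ) (V : ℤ) : Bool := if w = 0 then false else nz 7 V

lemma bal7 {lo hi : Tops P → ℕ → ℕ} {e : Tops P → ℕ → ℕ → P} (K : Ctx P r 7 lo hi e)
    (hJ : ∃ z : P, Hul.Jn z) : ∀ w ≤ 1, ∃ V, WinB P 7 w (cp7 w) ((fun _ _ => false) w) (ne7 w)
      ((fun _ => 0) w) V := by
  intro w hw
  have : w = 0 ∨ w = 1 := by omega
  rcases this with rfl | rfl
  · exact K.win0 hJ
  · exact K.win1 (by norm_num) chkE7 (by decide +kernel) (by decide +kernel) hJ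

/-- lines with `g`, by `κ` -/
def L7w : List (List ℤ) :=
  [[0], [-3, -2], [-6, -5, -4, 3], [-9, 0, 1, 2, 3], [-12, -11, -3, -2, -1, 0, 1, 2], [-6],
    [-18]]

set_option maxRecDepth 100000 in
theorem tab7w : Tab 7 1 cp7 L7w E7 S7a S7b X0 := by
  refine ⟨by norm_num, chkE7, ?_, ?_, ?_, ?_, ?_, ?_, ?_, ?_, ?_, ?_⟩
  · decide +kernel
  · decide +kernel
  · decide +kernel
  · decide +kernel
  · decide +kernel
  · intro _ h
    exact absurd h (by norm_num)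
  · decide +kernel
  · decide +kernel
  · decide +kernel
  · decide +kernel

/-- the pairs of ends which are left -/
def R7w : List ((ℕ × ℕ × ℕ) × (ℕ × ℕ × ℕ)) :=
    []

lemma rest7w : rest 7 E7 X0 (ubd 7 1 cp7 (fun _ => 0) L7w (fun _ _ => false) ne7 200 3) =
    R7w := by
  decide +kernel

/-- **S7 for `j = 7`**, exclusion `X0`. -/
theorem left7w {lo hi : Tops P → ℕ → ℕ} {e : Tops P → ℕ → ℕ → P} (K : Ctx P r 7 lo hi e)
    {z x x' : P} (h : Cg z x x') (hl : lev z = 8) :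
    ∃ s s', (s, s') ∈ R7w ∧ Dt 7 x s ∧ Dt 7 x' s' := by
  have hs : ∀ y : P, lev y = 7 → Sok 7 y := fun y hy => ⟨fun hf => by have := hf.1; omega,
    fun h12 => by omega⟩
  obtain ⟨l1, l2⟩ := h.lev_eq K.gt.H
  obtain ⟨s, s', h1, h2, h3⟩ := K.left (noP_zero 7) tab7w (bal7 K ⟨z, h.jn⟩) 200 3 h hl
    (hs x (by omega)) (hs x' (by omega))
  rw [rest7w] at h1
  exact ⟨s, s', h1, h2, h3⟩

theorem no_join7w {lo hi : Tops P → ℕ → ℕ} {e : Tops P → ℕ → ℕ → P} (K : Ctx P r 7 lo hi e)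
    {z : P} (hl : lev z = 8) : ¬ Hul.Jn z := by
  intro hz
  obtain ⟨x, x', h⟩ := K.cross hz hl
  obtain ⟨s, s', h1, -, -⟩ := left7w K h hl
  exact absurd h1 List.not_mem_nil

end Pool.Agent.GaussPoset.Sm
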