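import Pool.Agent.W_448s7s_h5.SkZ

/-!
# S7 for `j = 9`: windows `0`, `1` (MP_448cb3_co)
-/

namespace Pool.Agent.GaussPoset.Sm

set_option linter.unusedSectionVars false

open Finset Wd

universe u

variable {P : Type u} [Fintype P] [PartialOrder P] [DecidableEq P] {r : ℕ}

/-- ends -/
def E9 : List (ℕ × ℕ × ℕ) :=
    [(0, 0, 0), (1, 2, 1), (1, 3, 0), (1, 4, 0), (3, 9, 1), (5, 20, 1)]

/-- sides, one level deeper -/
def S9a : List (ℕ × ℕ × ℕ) :=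
    [(0, 0, 0), (0, 0, 1), (1, 1, 0), (1, 1, 1), (1, 2, 0), (1, 3, 0), (1, 4, 0), (2, 3, 0),
    (2, 3, 1), (3, 6, 0), (3, 6, 1), (3, 9, 0), (4, 7, 1), (4, 10, 0), (4, 10, 1), (5, 12, 0),
    (5, 12, 1), (5, 15, 0), (5, 20, 0), (6, 13, 1), (6, 16, 1)]

/-- sides, two or more levels deeper -/
def S9b : List (ℕ × ℕ × ℕ) :=
    [(0, 0, 0), (0, 0, 1), (1, 1, 0), (1, 1, 1), (1, 1, 2), (1, 2, 0), (1, 3, 0), (1, 4, 0),
    (2, 3, 0), (2, 3, 1), (2, 3, 2), (3, 6, 0), (3, 6, 1), (3, 9, 0), (4, 7, 1), (4, 7, 2),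
    (4, 7, 3), (4, 10, 0), (4, 10, 1), (4, 10, 2), (5, 12, 0), (5, 12, 1), (5, 15, 0),
    (5, 20, 0), (6, 13, 1), (6, 13, 2), (6, 13, 3), (6, 16, 1)]

lemma chkE9 : ChkE 9 E9 := by decide +kernel

/-- caps -/
def cp9 (w : ℕ) : ℤ := if w = 0 then cap0 9 else ((9 * (9 - 1) / 2 : ℕ) : ℤ) - 1

/-- even noise -/
def ne9 (w : ℕ) (V : ℤ) : Bool := if w = 0 then false else nz 9 V

lemma bal9 {lo hi : Tops P → ℕ → ℕ} {e : Tops P → ℕ → ℕ → P} (K : Ctx P r 9 lo hi e)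
    (hJ : ∃ z : P, Hul.Jn z) : ∀ w ≤ 1, ∃ V, WinB P 9 w (cp9 w) ((fun _ _ => false) w) (ne9 w)
      ((fun _ => 0) w) V := by
  intro w hw
  have : w = 0 ∨ w = 1 := by omega
  rcases this with rfl | rfl
  · exact K.win0 hJ
  · exact K.win1 (by norm_num) chkE9 (by decide +kernel) (by decide +kernel) hJ

/-- lines with `g`, by `κ` -/
def L9 : List (List ℤ) :=
  [[0], [-4, -3, -2], [-8, -7, -6, -5, -4, 3], [-9, -1, 0, 1, 2, 3], [-13, -12, -11, -5, -4,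
    -3, -2, -1, 0, 1, 2, 3, 8], [-20, -6, -4, -3, -2, -1, 0, 1, 2], [-24, -23, -22, -18, -10,
    -9, -8, -7], [-17], [-29]]

set_option maxRecDepth 100000 in
theorem tab9 : Tab 9 1 cp9 L9 E9 S9a S9b X0 := by
  refine ⟨by norm_num, chkE9, ?_, ?_, ?_, ?_, ?_, ?_, ?_, ?_, ?_, ?_⟩
  · decide +kernel
  · decide +kernel
  · decide +kernel
  · decide +kernel
  · decide +kernel
  · intro _ h
    exact absurd h (by norm_num)
  · decide +kernel
  · decide +kernel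
  · decide +kernel
  · decide +kernel

/-- the pairs of ends which are left -/
def R9 : List ((ℕ × ℕ × ℕ) × (ℕ × ℕ × ℕ)) :=
    [((5, 20, 1), (5, 20, 1))]

lemma rest9 : rest 9 E9 X0 (ubd 9 1 cp9 (fun _ => 0) L9 (fun _ _ => false) ne9 200 5) =
    R9 := by
  decide +kernel

/-- **S7 for `j = 9`**, exclusion `X0`. -/
theorem left9 {lo hi : Tops P → ℕ → ℕ} {e : Tops P → ℕ → ℕ → P} (K : Ctx P r 9 lo hi e)
    {z x x' : P} (h : Cg z x x') (hl : lev z = 10) :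
    ∃ s s', (s, s') ∈ R9 ∧ Dt 9 x s ∧ Dt 9 x' s' := by
  have hs : ∀ y : P, lev y = 9 → Sok 9 y := fun y hy => ⟨fun hf => by have := hf.1; omega,
    fun h12 => by omega⟩
  obtain ⟨l1, l2⟩ := h.lev_eq K.gt.H
  obtain ⟨s, s', h1, h2, h3⟩ := K.left (noP_zero 9) tab9 (bal9 K ⟨z, h.jn⟩) 200 5 h hl
    (hs x (by omega)) (hs x' (by omega))
  rw [rest9] at h1
  exact ⟨s, s', h1, h2, h3⟩

/-- lines with `g`, by `κ` -/
def L9r : List (List ℤ) :=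
  [[0], [-4, -3, -2], [-8, -7, -6, -5, 3], [-9, -1, 0, 1, 2, 3], [-13, -12, -5, -4, -3, -2, -1,
    0, 1, 2, 3, 8], [-20, -6, -4, -3, -2, -1, 0, 1, 2], [-24, -23, -10, -9, -8, -7], [-17]]

set_option maxRecDepth 100000 in
theorem tab9r : Tab 9 1 cp9 L9r E9 S9a S9b XRR := by
  refine ⟨by norm_num, chkE9, ?_, ?_, ?_, ?_, ?_, ?_, ?_, ?_, ?_, ?_⟩
  · decide +kernel
  · decide +kernel
  · decide +kernel
  · decide +kernel
  · decide +kernel
  · intro _ h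
    exact absurd h (by norm_num)
  · decide +kernel
  · decide +kernel
  · decide +kernel
  · decide +kernel

/-- the pairs of ends which are left -/
def R9r : List ((ℕ × ℕ × ℕ) × (ℕ × ℕ × ℕ)) :=
    []

lemma rest9r : rest 9 E9 XRR (ubd 9 1 cp9 (fun _ => 0) L9r (fun _ _ => false) ne9 200 4) =
    R9r := by
  decide +kernel

/-- **S7 for `j = 9`**, exclusion `XRR`. -/
theorem left9r {lo hi : Tops P → ℕ → ℕ} {e : Tops P → ℕ → ℕ → P} (K : Ctx P r 9 lo hi e) (hN : NoP P 9 XRR)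
    {z x x' : P} (h : Cg z x x') (hl : lev z = 10) :
    ∃ s s', (s, s') ∈ R9r ∧ Dt 9 x s ∧ Dt 9 x' s' := by
  have hs : ∀ y : P, lev y = 9 → Sok 9 y := fun y hy => ⟨fun hf => by have := hf.1; omega,
    fun h12 => by omega⟩
  obtain ⟨l1, l2⟩ := h.lev_eq K.gt.H
  obtain ⟨s, s', h1, h2, h3⟩ := K.left hN tab9r (bal9 K ⟨z, h.jn⟩) 200 4 h hl
    (hs x (by omega)) (hs x' (by omega))
  rw [rest9r] at h1
  exact ⟨s, s', h1, h2, h3⟩

theorem no_join9r {lo hi : Tops P → ℕ → ℕ} {e : Tops P → ℕ → ℕ → P} (K : Ctx P r 9 lo hi e) (hN : NoP P 9 XRR)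
    {z : P} (hl : lev z = 10) : ¬ Hul.Jn z := by
  intro hz
  obtain ⟨x, x', h⟩ := K.cross hz hl
  obtain ⟨s, s', h1, -, -⟩ := left9r K hN h hl
  exact absurd h1 List.not_mem_nil

end Pool.Agent.GaussPoset.Sm
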