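import Pool.Agent.W_448s7s_h5.SpA
import Pool.Agent.W_448s7s_h5.SmJ9

/-!
# S7 for `j = 9`: the ends with `(5, 20)` (MP_448cb3_co)
-/

namespace Pool.Agent.GaussPoset.Sm

set_option linter.unusedSectionVars false

open Finset Wd

universe u

variable {P : Type u} [Fintype P] [PartialOrder P] [DecidableEq P] {r j : ℕ}

/-- rows of a late component -/
lemma LateC.rows {t : P} {lo hi : ℕ → ℕ} {e : ℕ → ℕ → P} {a : ℕ} (C : Cp.Comp j t lo hi e)
    (h : LateC j lo hi a) {W : List Ltr} (hW : Wd.word lo hi a (j - a) = W) :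
    Lw W (W.length + 3) = lo j ∧ Hw W (W.length + 3) = hi j := by
  obtain ⟨d, rfl⟩ : ∃ d, j = a + d := ⟨j - a, by have := h.le; omega⟩
  rw [Nat.add_sub_cancel_left] at hW
  have hlen : W.length = d := by rw [← hW, word_length]
  rw [hlen, ← hW]
  exact ⟨lo_word (a := a) (d := d) C.lo_step h.at_a.1 (hi := hi) le_rfl d le_rfl,
    hi_word (a := a) (d := d) C.hi_step h.at_a.2 (lo := lo) le_rfl d le_rfl⟩

/-- the ends with the data `s` are in rows with one element -/
def Chk1 (j : ℕ) (s : ℕ × ℕ × ℕ) : Prop :=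
  ∀ a ∈ range (j + 1), 2 ≤ a → ∀ w ∈ wds j a, w.length = j - a →
    ∀ A ∈ (Icc (Lw w (w.length + 3)) (Hw w (w.length + 3))).powerset, A.Nonempty →
      condA 0 w A → (mA w A, dA w A, rhA w A) = s → Lw w (w.length + 3) = Hw w (w.length + 3)

instance (j : ℕ) (s : ℕ × ℕ × ℕ) : Decidable (Chk1 j s) := by
  unfold Chk1; infer_instance

theorem Ctx.row_one {lo hi : Tops P → ℕ → ℕ} {e : Tops P → ℕ → ℕ → P} (K : Ctx P r j lo hi e)
    {s : ℕ × ℕ × ℕ} (hs : s.1 ≠ 0) (hc : Chk1 j s) {x : P} (hx : x ∈ onlyB (topOf x))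
    (hl : lev x = j) (hend : (Win.uc x).card = 1) (hD : Dt j x s) (hF : ¬ Fold j x) :
    lo (topOf x) j = hi (topOf x) j := by
  obtain ⟨d1, d2, d3⟩ := hD
  have hj := K.h5
  rcases K.cases hx hl.ge (fun _ => hend) (fun h => by have := h.1; omega) with h | h | ⟨a, h, -⟩
  · exact absurd h hF
  · exfalso
    have := h.mX.1
    rw [d1] at this
    exact hs (by exact_mod_cast this)
  · obtain ⟨A, g1, g2, g3, g4, g5, -, g7⟩ := late_side K.gt (by omega) (K.comp (topOf x)) h.two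
      h.le h.low h.at_a hx hl.ge (fun _ => hend) rfl
    have h1 := hc a (mem_range.mpr (by have := h.le; omega)) h.two _ h.word (by simp) A g1 g2
      (g3 0 hl) (by
        refine Prod.ext ?_ (Prod.ext ?_ ?_)
        · rw [d1] at g4
          exact_mod_cast g4.symm
        · rw [d2] at g5
          exact_mod_cast g5.symm
        · show rhA _ A = s.2.2
          omega)
    obtain ⟨e1, e2⟩ := h.rows (K.comp (topOf x)) rfl
    rw [← e1, ← e2]
    exact h1

lemma chk1_9 : Chk1 9 (5, 20, 1) := by decide +kernel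

/-- **S7 for `j = 9`** -/
theorem no_join9 {lo hi : Tops P → ℕ → ℕ} {e : Tops P → ℕ → ℕ → P} (K : Ctx P r 9 lo hi e)
    {z : P} (hl : lev z = 10) : ¬ Hul.Jn z := by
  intro hz
  have hrow : ∀ z x x' : P, Cg z x x' → lev z = 10 → lo (topOf x) 9 = hi (topOf x) 9 := by
    intro z x x' h hl
    obtain ⟨s, s', h1, h2, h3⟩ := left9 K h hl
    rw [R9, List.mem_singleton, Prod.mk.injEq] at h1
    obtain ⟨rfl, rfl⟩ := h1
    obtain ⟨l1, l2⟩ := h.lev_eq K.gt.H
    refine K.row_one (by norm_num) chk1_9 h.only (by omega) (K.ends h hl).1 h2 (fun hf => ?_)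
    have := hf.2.1
    omega
  obtain ⟨x, x', h⟩ := K.cross hz hl
  refine no_cg_single K.gt K.gt.hr (fun t => lo t 9 = hi t 9)
    (fun z x x' h hl _ => hrow z x' x h.symm hl) ?_ h hl (hrow z x x' h hl)
  intro v v' hv hv' hs ht
  have C := K.comp (topOf v)
  obtain ⟨s, a1, a2, a3⟩ := C.surj v (le_topOf v) (by omega)
  obtain ⟨s', b1, b2, b3⟩ := C.surj v' (by rw [ht]; exact le_topOf v') (by omega)
  rw [hv] at a1 a2 a3
  rw [hv'] at b1 b2 b3
  rw [← a3, ← b3, show s = s' by omega]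

end Pool.Agent.GaussPoset.Sm
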