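import Pool.Agent.W_448s7s_h5.SmH

/-!
# S7 and S8 for `j ≤ 4`: window `0` (MP_448cb3_co)
-/

namespace Pool.Agent.GaussPoset.Sm

set_option linter.unusedSectionVars false

open Finset Wd

universe u

variable {P : Type u} [Fintype P] [PartialOrder P] [DecidableEq P] {r j : ℕ}

/-- the elements above on the next level are the upper covers -/
lemma nab_uc (H : Gr P r) {z : P} {k : ℕ} (hk : lev z = k + 1) : nab k z = (Win.uc z).card := by
  classical
  unfold nab
  congr 1
  ext y
  rw [mem_filter, mem_lv, Win.mem_uc]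
  constructor
  · rintro ⟨h1, h2⟩
    exact H.covBy_iff.mpr ⟨lt_of_le_of_ne h2 (by rintro rfl; omega), by omega⟩
  · intro h
    have := (H.covBy_iff.mp h).2
    exact ⟨by omega, h.1.le⟩

/-- the covers of a join of level `j + 1` have one cover -/
theorem cg_ends (G : Win.GoodTo P r j) (hj : 2 ≤ j) {z x x' : P} (h : Cg z x x')
    (hl : lev z = j + 1) : (Win.uc x).card = 1 ∧ (Win.uc x').card = 1 := by
  have H := G.H
  obtain ⟨l1, l2⟩ := h.lev_eq H
  have hne : x ≠ x' := by rintro rfl; exact h.ne rfl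
  have G' : Win.GoodTo P r ((j - 1) + 1) := by
    rw [show j - 1 + 1 = j by omega]
    exact G
  rcases (Win.near_level' G' (by omega)).1 z x x' (by omega) h.cov h.cov' hne with h1 | ⟨h1, h2, _⟩
  · exfalso
    obtain ⟨y, hy, hy'⟩ := Win.exists_of_ucv (v := x) (v' := x') (by rw [h1]; exact one_pos)
    have e1 := mem_onlyB.mp (onlyB_up h.only hy.1.le) (topOf y) (topOf y).2 (le_topOf y)
    have e2 := mem_onlyB.mp (onlyB_up h.only' hy'.1.le) (topOf y) (topOf y).2 (le_topOf y)
    exact h.ne (Subtype.ext (e1.symm.trans e2))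
  · exact ⟨h1, h2⟩

/-- deeper joins are more expensive -/
lemma big_T (G : Win.GoodTo P r j) (hj : 1 ≤ j) {z x x' : P} (h : Cg z x x')
    (hl : j + 2 ≤ lev z) : 5 ≤ kapZ j z * j + gZ j z := by
  have H := G.H
  obtain ⟨l1, l2⟩ := h.lev_eq H
  obtain ⟨k1, k2, k3, k4, -, -⟩ := h.line H (j := j) (by omega)
  have s1 := side_nonneg (x := x) (j := j) (by omega)
  have s2 := side_nonneg (x := x') (j := j) (by omega)
  have n1 : (1 : ℤ) ≤ nab j x := by exact_mod_cast one_le_nab (l := j) (z := x) (by omega)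
  have n2 : (1 : ℤ) ≤ nab j x' := by exact_mod_cast one_le_nab (l := j) (z := x') (by omega)
  have hj' : (1 : ℤ) ≤ j := by exact_mod_cast hj
  have hq : (1 : ℤ) ≤ (lev z : ℤ) - (j + 1) := by
    have : ((j + 2 : ℕ) : ℤ) ≤ lev z := by exact_mod_cast hl
    push_cast at this
    linarith
  rw [k1, k2]
  generalize (lev z : ℤ) - (j + 1) = q at *
  generalize (nab j x : ℤ) = a at *
  generalize (nab j x' : ℤ) = b at *
  generalize (j : ℤ) = J at *
  have p1 : 0 ≤ (a - 1) * J := mul_nonneg (by linarith) (by linarith)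
  have p2 : 0 ≤ (b - 1) * J := mul_nonneg (by linarith) (by linarith)
  have p3 : 0 ≤ nJ j z * J := mul_nonneg k3 (by linarith)
  have p4 : 1 ≤ q * q := by nlinarith
  have p5 : 1 ≤ q * J := by nlinarith
  nlinarith

/-- no joins if the relative cost of the joins of level `j + 1` is small and determines the parity -/
theorem no_join_prop (G : Win.GoodTo P r j) (hj : 1 ≤ j) (c : ℤ)
    (hA : ∀ z x x' : P, Cg z x x' → lev z = j + 1 → kapZ j z * j + gZ j z ≤ 4 ∧
      kapZ j z * j + gZ j z = c * kapZ j z ∧ (c = 0 → kapZ j z = 0))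
    {z : P} (hl : lev z = j + 1) : ¬ Hul.Jn z := by
  intro hz
  have H := G.H
  obtain ⟨v, hv, ⟨z1, x1, x1', hz1, e1, o1⟩, z2, x2, x2', hz2, e2, o2⟩ := class_zero H ⟨z, hz⟩
  obtain ⟨x, x', h⟩ := cg_of_max hz fun y hy => G.no_join y (by
    have := lev_strictAnti hy
    omega)
  have hlev : ∀ z x x' : P, Cg z x x' → j + 1 ≤ lev z := fun z x x' h => by
    by_contra hcon
    exact G.no_join z (by omega) h.jn
  have l0 := h.line0 (j := j) H
  have l1 := hz1.line0 (j := j) H
  have l2 := hz2.line0 (j := j) H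
  have hle : (v : ℤ) ≤ ful 0 z := by exact_mod_cast hv z h.jn
  obtain ⟨a1, -, -⟩ := hA z x x' h hl
  rw [e1] at l1
  rw [e2] at l2
  push_cast at l0 l1 l2
  have t1 : kapZ j z1 * j + gZ j z1 ≤ 4 := by linarith
  have t2 : kapZ j z2 * j + gZ j z2 ≤ 4 := by linarith
  have g1 : lev z1 = j + 1 := by
    have := hlev z1 x1 x1' hz1
    by_contra hcon
    have := big_T G hj hz1 (by omega)
    linarith
  have g2 : lev z2 = j + 1 := by
    have := hlev z2 x2 x2' hz2
    by_contra hcon
    have := big_T G hj hz2 (by omega)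
    linarith
  obtain ⟨-, b1, c1⟩ := hA z1 x1 x1' hz1 g1
  obtain ⟨-, b2, c2⟩ := hA z2 x2 x2' hz2 g2
  have p1 := (kap_parity (j := j)).1 o1
  have p2 := (kap_parity (j := j)).2 o2
  by_cases hc : c = 0
  · rw [c1 hc] at p1
    exact absurd p1 (by decide)
  · have h3 : c * kapZ j z1 = c * kapZ j z2 := by rw [← b1, ← b2]; linarith
    rw [mul_left_cancel₀ hc h3] at p1
    exact absurd p2 (Int.not_even_iff_odd.mpr p1)

/-- **no joins on the level `j + 1`, `j ≤ 4`** -/
theorem no_join_le4 (G : Win.GoodTo P r j) (hj : 1 ≤ j) (h4 : j ≤ 4)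
    {lo hi : Tops P → ℕ → ℕ} {e : Tops P → ℕ → ℕ → P}
    (C : ∀ t : Tops P, Cp.Comp j (t : P) (lo t) (hi t) (e t)) (S : ∀ t, Shape j (lo t) (hi t))
    {z : P} (hl : lev z = j + 1) : ¬ Hul.Jn z := by
  have H := G.H
  have hn0 : ∀ x : P, x ∈ onlyB (topOf x) → nab 0 x = 1 := fun x hx => by
    classical
    refine le_antisymm ?_ (one_le_nab (Nat.zero_le _))
    unfold nab
    rw [Finset.card_le_one]
    intro y hy y' hy'
    rw [mem_filter, mem_lv] at hy hy'
    rw [mem_onlyB.mp hx y hy.1 hy.2, mem_onlyB.mp hx y' hy'.1 hy'.2]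
  have hnp : ∀ x : P, lev x = j → (Win.uc x).card = 1 → nab (j - 1) x = 1 := fun x h1 h2 => by
    rw [nab_uc H (k := j - 1) (by omega), h2]
  have hnpp : 2 ≤ j → ∀ x : P, lev x = j → (Win.uc x).card = 1 → nab (j - 2) x ≤ 2 :=
    fun h2j x h1 h2 => by
      obtain ⟨y, hy⟩ := Finset.card_eq_one.mp h2
      have hxy : x ⋖ y := by
        rw [← Win.mem_uc, hy]
        exact mem_singleton_self y
      have ho : ∀ u, x ⋖ u → u = y := fun u hu => by
        rw [← Win.mem_uc, hy, mem_singleton] at hu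
        exact hu
      have e1 := (H.covBy_iff.mp hxy).2
      rw [nab_only ho hxy (by omega), nab_uc H (k := j - 2) (by omega)]
      exact Win.uc_card_le H y
  have hkey : ∀ z x x' : P, Cg z x x' → lev z = j + 1 →
      kapZ j z * j + gZ j z = (mX j x * j - cX j x) + (mX j x' * j - cX j x') ∧
      kapZ j z = mX j x + mX j x' := by
    intro z x x' h hl
    obtain ⟨l1, l2⟩ := h.lev_eq H
    obtain ⟨k1, k2, -, -, -, k6⟩ := h.line H (j := j) hl.ge
    obtain ⟨n0, d0⟩ := k6 (by omega)
    have q0 : (lev z : ℤ) - (j + 1) = 0 := by rw [hl]; push_cast; ring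
    have n1 : nab j x = 1 := by rw [show j = lev x by omega, nab_self]
    have n2 : nab j x' = 1 := by rw [show j = lev x' by omega, nab_self]
    rw [k1, k2, n0, d0, q0, n1, n2]
    push_cast
    constructor <;> ring
  have h1234 : j = 1 ∨ j = 2 ∨ j = 3 ∨ j = 4 := by omega
  rcases h1234 with rfl | rfl | rfl | rfl
  · refine no_join_prop G hj 0 (fun z x x' h hl => ?_) hl
    obtain ⟨l1, l2⟩ := h.lev_eq H
    obtain ⟨g1, g2⟩ := hkey z x x' h hl
    have a1 := hn0 x h.only
    have a2 := hn0 x' h.only'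
    have m1 : mX 1 x = 0 ∧ cX 1 x = 0 := by simp [mX, cX, a1]
    have m2 : mX 1 x' = 0 ∧ cX 1 x' = 0 := by simp [mX, cX, a2]
    rw [g1, g2, m1.1, m1.2, m2.1, m2.2]
    norm_num
  · refine no_join_prop G hj 0 (fun z x x' h hl => ?_) hl
    obtain ⟨l1, l2⟩ := h.lev_eq H
    obtain ⟨g1, g2⟩ := hkey z x x' h hl
    obtain ⟨u1, u2⟩ := cg_ends G (by norm_num) h hl
    have a1 := hn0 x h.only
    have a2 := hn0 x' h.only'
    have b1 := hnp x (by omega) u1
    have b2 := hnp x' (by omega) u2
    norm_num at b1 b2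
    have m1 : mX 2 x = 0 ∧ cX 2 x = 0 := by simp [mX, cX, Finset.sum_range_succ, a1, b1]
    have m2 : mX 2 x' = 0 ∧ cX 2 x' = 0 := by simp [mX, cX, Finset.sum_range_succ, a2, b2]
    rw [g1, g2, m1.1, m1.2, m2.1, m2.2]
    norm_num
  · refine no_join_prop G hj 1 (fun z x x' h hl => ?_) hl
    obtain ⟨l1, l2⟩ := h.lev_eq H
    obtain ⟨g1, g2⟩ := hkey z x x' h hl
    obtain ⟨u1, u2⟩ := cg_ends G (by norm_num) h hl
    have a1 := hn0 x h.only
    have a2 := hn0 x' h.only'
    have b1 := hnp x (by omega) u1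
    have b2 := hnp x' (by omega) u2
    have c1 := hnpp (by norm_num) x (by omega) u1
    have c2 := hnpp (by norm_num) x' (by omega) u2
    norm_num at b1 b2 c1 c2
    have m1 : mX 3 x = (nab 1 x : ℤ) - 1 ∧ cX 3 x = 2 * ((nab 1 x : ℤ) - 1) := by
      constructor
      · simp only [mX, Finset.sum_range_succ, a1, b1]
        push_cast
        simp only [Finset.range_zero, Finset.sum_empty]
        ring
      · simp only [cX, Finset.sum_range_succ, a1, b1]
        push_cast
        simp only [Finset.range_zero, Finset.sum_empty]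
        ring
    have m2 : mX 3 x' = (nab 1 x' : ℤ) - 1 ∧ cX 3 x' = 2 * ((nab 1 x' : ℤ) - 1) := by
      constructor
      · simp only [mX, Finset.sum_range_succ, a2, b2]
        push_cast
        simp only [Finset.range_zero, Finset.sum_empty]
        ring
      · simp only [cX, Finset.sum_range_succ, a2, b2]
        push_cast
        simp only [Finset.range_zero, Finset.sum_empty]
        ring
    have c1' : (nab 1 x : ℤ) ≤ 2 := by exact_mod_cast c1
    have c2' : (nab 1 x' : ℤ) ≤ 2 := by exact_mod_cast c2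
    rw [g1, g2, m1.1, m1.2, m2.1, m2.2]
    push_cast
    refine ⟨by linarith, by ring, by norm_num⟩
  · have hn1 : ∀ x : P, x ∈ onlyB (topOf x) → lev x = 4 → (Win.uc x).card = 1 → nab 1 x = 1 := by
      intro x hx hlx hu
      have hone : ∀ k, k ≤ 4 → lo (topOf x) k = hi (topOf x) k → nab k x = 1 := fun k hk hh =>
        nab_one_of_eq (C (topOf x)) hx hk (by omega) hh
      have hear : RectShape 4 (lo (topOf x)) (hi (topOf x)) ∨
          StairShape 4 (lo (topOf x)) (hi (topOf x)) → nab 1 x = 1 := by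
        intro hh
        rcases early_dich H G.good (by norm_num) (C (topOf x)) (hh.imp id Or.inl) hx hlx.ge
          (fun _ => hu) with h1 | h1 | h1
        · exact h1 1 (by norm_num)
        · have := h1.2.2 1 (by norm_num)
          omega
        · omega
      rcases S (topOf x) with h | ⟨h1, h2⟩ | ⟨h1, h2⟩ | ⟨h0, _, _⟩ | ⟨h0, h1⟩ |
        ⟨a, h0, h1, h2, h3, hN, h4⟩
      · exact hone 1 (by norm_num) (by rw [(h 1 (by norm_num)).1, (h 1 (by norm_num)).2])
      · exact hear (Or.inl h2)
      · exact hear (Or.inr h2)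
      · omega
      · omega
      · exact hone 1 (by norm_num) (by rw [(h2 1 (by omega)).1, (h2 1 (by omega)).2])
    refine no_join_prop G hj 2 (fun z x x' h hl => ?_) hl
    obtain ⟨l1, l2⟩ := h.lev_eq H
    obtain ⟨g1, g2⟩ := hkey z x x' h hl
    obtain ⟨u1, u2⟩ := cg_ends G (by norm_num) h hl
    have a1 := hn0 x h.only
    have a2 := hn0 x' h.only'
    have b1 := hnp x (by omega) u1
    have b2 := hnp x' (by omega) u2
    have c1 := hnpp (by norm_num) x (by omega) u1
    have c2 := hnpp (by norm_num) x' (by omega) u2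
    have d1 := hn1 x h.only (by omega) u1
    have d2 := hn1 x' h.only' (by omega) u2
    norm_num at b1 b2 c1 c2
    have m1 : mX 4 x = (nab 2 x : ℤ) - 1 ∧ cX 4 x = 2 * ((nab 2 x : ℤ) - 1) := by
      constructor
      · simp only [mX, Finset.sum_range_succ, a1, b1, d1]
        push_cast
        simp only [Finset.range_zero, Finset.sum_empty]
        ring
      · simp only [cX, Finset.sum_range_succ, a1, b1, d1]
        push_cast
        simp only [Finset.range_zero, Finset.sum_empty]
        ring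
    have m2 : mX 4 x' = (nab 2 x' : ℤ) - 1 ∧ cX 4 x' = 2 * ((nab 2 x' : ℤ) - 1) := by
      constructor
      · simp only [mX, Finset.sum_range_succ, a2, b2, d2]
        push_cast
        simp only [Finset.range_zero, Finset.sum_empty]
        ring
      · simp only [cX, Finset.sum_range_succ, a2, b2, d2]
        push_cast
        simp only [Finset.range_zero, Finset.sum_empty]
        ring
    have c1' : (nab 2 x : ℤ) ≤ 2 := by exact_mod_cast c1
    have c2' : (nab 2 x' : ℤ) ≤ 2 := by exact_mod_cast c2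
    rw [g1, g2, m1.1, m1.2, m2.1, m2.2]
    push_cast
    refine ⟨by linarith, by ring, by norm_num⟩

end Pool.Agent.GaussPoset.Sm
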