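import Pool.Agent.W_448s7s_h5.SkZ

/-!
# S7 for `j = 8`: windows `0`, `1` (MP_448cb3_co)
-/

namespace Pool.Agent.GaussPoset.Sm

set_option linter.unusedSectionVars false

open Finset Wd

universe u

variable {P : Type u} [Fintype P] [PartialOrder P] [DecidableEq P] {r : ℕ}

/-- ends -/
def E8 : List (ℕ × ℕ × ℕ) :=
    [(0, 0, 0), (1, 2, 1), (1, 3, 0), (1, 4, 0), (3, 9, 1), (6, 24, 1)]

/-- sides, one level deeper -/
def S8a : List (ℕ × ℕ × ℕ) :=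
    [(0, 0, 0), (0, 0, 1), (1, 1, 0), (1, 1, 1), (1, 2, 0), (1, 3, 0), (1, 4, 0), (2, 3, 0),
    (2, 3, 1), (3, 6, 0), (3, 6, 1), (3, 9, 0), (4, 7, 1), (4, 10, 0), (4, 10, 1), (5, 12, 0),
    (5, 12, 1), (5, 15, 0), (6, 13, 1)]

/-- sides, two or more levels deeper -/
def S8b : List (ℕ × ℕ × ℕ) :=
    [(0, 0, 0), (0, 0, 1), (1, 1, 0), (1, 1, 1), (1, 1, 2), (1, 2, 0), (1, 3, 0), (1, 4, 0),
    (2, 3, 0), (2, 3, 1), (2, 3, 2), (3, 6, 0), (3, 6, 1), (3, 9, 0), (4, 7, 1), (4, 7, 2),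
    (4, 7, 3), (4, 10, 0), (4, 10, 1), (4, 10, 2), (5, 12, 0), (5, 12, 1), (5, 15, 0),
    (6, 13, 1), (6, 13, 2), (6, 13, 3)]

lemma chkE8 : ChkE 8 E8 := by decide +kernel

/-- caps -/
def cp8 (w : ℕ) : ℤ := if w = 0 then cap0 8 else ((8 * (8 - 1) / 2 : ℕ) : ℤ) - 1

/-- even noise -/
def ne8 (w : ℕ) (V : ℤ) : Bool := if w = 0 then false else nz 8 V

lemma bal8 {lo hi : Tops P → ℕ → ℕ} {e : Tops P → ℕ → ℕ → P} (K : Ctx P r 8 lo hi e)
    (hJ : ∃ z : P, Hul.Jn z) : ∀ w ≤ 1, ∃ V, WinB P 8 w (cp8 w) ((fun _ _ => false) w) (ne8 w)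
      ((fun _ => 0) w) V := by
  intro w hw
  have : w = 0 ∨ w = 1 := by omega
  rcases this with rfl | rfl
  · exact K.win0 hJ
  · exact K.win1 (by norm_num) chkE8 (by decide +kernel) (by decide +kernel) hJ

/-- lines with `g`, by `κ` -/
def L8 : List (List ℤ) :=
  [[0], [-4, -3, -2], [-8, -7, -6, -5, -4, 3], [-9, -1, 0, 1, 2, 3], [-13, -12, -11, -5, -4,
    -3, -2, -1, 0, 1, 2, 3], [-6, -4, -3, -2], [-24, -18, -10], [-28, -27, -26]]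

set_option maxRecDepth 100000 in
theorem tab8 : Tab 8 1 cp8 L8 E8 S8a S8b X0 := by
  refine ⟨by norm_num, chkE8, ?_, ?_, ?_, ?_, ?_, ?_, ?_, ?_, ?_, ?_⟩
  · decide +kernel
  · decide +kernel
  · decide +kernel
  · decide +kernel
  · decide +kernel
  · intro _ h
    decide +kernel
  · decide +kernel
  · decide +kernel
  · decide +kernel
  · decide +kernel

/-- the pairs of ends which are left -/
def R8 : List ((ℕ × ℕ × ℕ) × (ℕ × ℕ × ℕ)) :=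
    [((1, 2, 1), (6, 24, 1)), ((3, 9, 1), (3, 9, 1)), ((3, 9, 1), (6, 24, 1)),
    ((6, 24, 1), (1, 2, 1)), ((6, 24, 1), (3, 9, 1)), ((6, 24, 1), (6, 24, 1))]

lemma rest8 : rest 8 E8 X0 (ubd 8 1 cp8 (fun _ => 0) L8 (fun _ _ => false) ne8 200 3) =
    R8 := by
  decide +kernel

/-- **S7 for `j = 8`**, exclusion `X0`. -/
theorem left8 {lo hi : Tops P → ℕ → ℕ} {e : Tops P → ℕ → ℕ → P} (K : Ctx P r 8 lo hi e)
    {z x x' : P} (h : Cg z x x') (hl : lev z = 9) :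
    ∃ s s', (s, s') ∈ R8 ∧ Dt 8 x s ∧ Dt 8 x' s' := by
  have hs : ∀ y : P, lev y = 8 → Sok 8 y := fun y hy => ⟨fun hf => by have := hf.1; omega,
    fun h12 => by omega⟩
  obtain ⟨l1, l2⟩ := h.lev_eq K.gt.H
  obtain ⟨s, s', h1, h2, h3⟩ := K.left (noP_zero 8) tab8 (bal8 K ⟨z, h.jn⟩) 200 3 h hl
    (hs x (by omega)) (hs x' (by omega))
  rw [rest8] at h1
  exact ⟨s, s', h1, h2, h3⟩

/-- lines with `g`, by `κ` -/
def L8r : List (List ℤ) :=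
  [[0], [-4, -3, -2], [-8, -7, -6, -5, 3], [-9, -1, 0, 1, 2, 3], [-13, -12, -5, -4, -3, -2, -1,
    0, 1, 2, 3], [-6, -4, -3, -2], [-24, -10], [-28, -27]]

set_option maxRecDepth 100000 in
theorem tab8r : Tab 8 1 cp8 L8r E8 S8a S8b XRR := by
  refine ⟨by norm_num, chkE8, ?_, ?_, ?_, ?_, ?_, ?_, ?_, ?_, ?_, ?_⟩
  · decide +kernel
  · decide +kernel
  · decide +kernel
  · decide +kernel
  · decide +kernel
  · intro _ h
    decide +kernel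
  · decide +kernel
  · decide +kernel
  · decide +kernel
  · decide +kernel

/-- the pairs of ends which are left -/
def R8r : List ((ℕ × ℕ × ℕ) × (ℕ × ℕ × ℕ)) :=
    []

lemma rest8r : rest 8 E8 XRR (ubd 8 1 cp8 (fun _ => 0) L8r (fun _ _ => false) ne8 200 4) =
    R8r := by
  decide +kernel

/-- **S7 for `j = 8`**, exclusion `XRR`. -/
theorem left8r {lo hi : Tops P → ℕ → ℕ} {e : Tops P → ℕ → ℕ → P} (K : Ctx P r 8 lo hi e) (hN : NoP P 8 XRR)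
    {z x x' : P} (h : Cg z x x') (hl : lev z = 9) :
    ∃ s s', (s, s') ∈ R8r ∧ Dt 8 x s ∧ Dt 8 x' s' := by
  have hs : ∀ y : P, lev y = 8 → Sok 8 y := fun y hy => ⟨fun hf => by have := hf.1; omega,
    fun h12 => by omega⟩
  obtain ⟨l1, l2⟩ := h.lev_eq K.gt.H
  obtain ⟨s, s', h1, h2, h3⟩ := K.left hN tab8r (bal8 K ⟨z, h.jn⟩) 200 4 h hl
    (hs x (by omega)) (hs x' (by omega))
  rw [rest8r] at h1
  exact ⟨s, s', h1, h2, h3⟩

theorem no_join8r {lo hi : Tops P → ℕ → ℕ} {e : Tops P → ℕ → ℕ → P} (K : Ctx P r 8 lo hi e) (hN : NoP P 8 XRR)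
    {z : P} (hl : lev z = 9) : ¬ Hul.Jn z := by
  intro hz
  obtain ⟨x, x', h⟩ := K.cross hz hl
  obtain ⟨s, s', h1, -, -⟩ := left8r K hN h hl
  exact absurd h1 List.not_mem_nil

end Pool.Agent.GaussPoset.Sm
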