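import Pool.Agent.W_448s7_h27.Chk

/-!
# A checker for balance systems with caps (MP_448cb3_co, S7, `j ≤ 16`)

As `Chk`, but the two signs are only known at the windows `w` with `v w ≤ cap w`; the result is a
list of lower bounds for `v`.
-/

namespace Pool.Agent.GaussPoset.Sm

open Chk

/-- the lines `X` are allowed, and they balance at the windows `w ≤ W` with `v w ≤ cap w` -/
structure Sys (j : ℤ) (W : ℕ) (cap : ℕ → ℤ) (a : ℤ → ℤ → Bool) (nO nE : ℕ → ℤ → Bool)
    (ko ke : List ℤ) (v : ℕ → ℤ) (X : ℤ → ℤ → Prop) : Prop where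
  al : ∀ κ g, X κ g → ∀ w ≤ W, κ * (j - w) + g = v w → v w ≤ cap w →
    a κ g = true ∧ (Odd κ → κ ∈ ko) ∧ (Even κ → κ ∈ ke)
  mn : ∀ κ g, X κ g → ∀ w ≤ W, v w ≤ κ * (j - w) + g
  od : ∀ w ≤ W, v w ≤ cap w →
    (∃ κ g, X κ g ∧ Odd κ ∧ κ * (j - w) + g = v w) ∨ nO w (v w) = true
  ev : ∀ w ≤ W, v w ≤ cap w →
    (∃ κ g, X κ g ∧ Even κ ∧ κ * (j - w) + g = v w) ∨ nE w (v w) = true

/-- several sweeps -/
def rnds (a : ℤ → ℤ → Bool) (nO nE : ℕ → ℤ → Bool) (cap : ℕ → ℤ) (ko ke : List ℤ) (j : ℤ)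
    (N W : ℕ) : ℕ → List ℤ → List ℤ
  | 0, u => u
  | r + 1, u => rnds a nO nE cap ko ke j N W r (sweep a nO nE cap ko ke j N W u)

section
variable {j : ℤ} {W : ℕ} {cap : ℕ → ℤ} {a : ℤ → ℤ → Bool} {nO nE : ℕ → ℤ → Bool}
  {ko ke : List ℤ} {v : ℕ → ℤ} {X : ℤ → ℤ → Prop}

lemma Sys.abv (hS : Sys j W cap a nO nE ko ke v X) {u : List ℤ} (hu : Below W v u) {κ g x : ℤ}
    (hx : X κ g) {w : ℕ} (he : κ * (j - w) + g = x) :
    above κ (x - κ * (j - w)) u j = true := by
  have hg : x - κ * (j - w) = g := by rw [← he]; ring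
  rw [hg]
  refine above_of (W := W) (v := v) u j fun w hw => ?_
  have hw' : w ≤ W := by
    have := hu.1
    omega
  exact (hu.2 w hw').trans (hS.mn _ _ hx w hw')

lemma Sys.both (hS : Sys j W cap a nO nE ko ke v X) {u : List ℤ} (hu : Below W v u) {w : ℕ}
    (hw : w ≤ W) (hc : v w ≤ cap w) :
    both a (nO w (v w)) (nE w (v w)) ko ke j (j - w) (v w) u = true := by
  unfold Chk.both
  rw [Bool.and_eq_true, Bool.or_eq_true, Bool.or_eq_true]
  constructor
  · rcases hS.od w hw hc with ⟨κ, g, hx, ho, he⟩ | h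
    · have h1 := hS.al κ g hx w hw he hc
      refine Or.inr (List.any_eq_true.mpr ⟨κ, h1.2.1 ho, ?_⟩)
      rw [Bool.and_eq_true]
      refine ⟨?_, hS.abv hu hx he⟩
      rw [show v w - κ * (j - w) = g by rw [← he]; ring]
      exact h1.1
    · exact Or.inl h
  · rcases hS.ev w hw hc with ⟨κ, g, hx, ho, he⟩ | h
    · have h1 := hS.al κ g hx w hw he hc
      refine Or.inr (List.any_eq_true.mpr ⟨κ, h1.2.2 ho, ?_⟩)
      rw [Bool.and_eq_true]
      refine ⟨?_, hS.abv hu hx he⟩
      rw [show v w - κ * (j - w) = g by rw [← he]; ring]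
      exact h1.1
    · exact Or.inl h

lemma Sys.raise (hS : Sys j W cap a nO nE ko ke v X) {w : ℕ} (hw : w ≤ W) :
    ∀ (n : ℕ) (u : List ℤ), Below W v u → Below W v (raise a nO nE cap ko ke j w n u) := by
  intro n
  induction n with
  | zero => intro u hu; exact hu
  | succ n ih =>
    intro u hu
    unfold Chk.raise
    split_ifs with h
    · exact hu
    · refine ih _ (hu.set hw ?_)
      have h1 := hu.2 w hw
      rcases h1.lt_or_eq with h2 | h2
      · omega
      · exfalso
        apply h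
        rw [Bool.or_eq_true]
        by_cases hc : cap w < u.getD w 0
        · left
          simpa using hc
        right
        have h3 := hS.both hu hw (by omega)
        rw [← h2] at h3
        exact h3

lemma Sys.sweep (hS : Sys j W cap a nO nE ko ke v X) (N : ℕ) :
    ∀ (W' : ℕ), W' ≤ W + 1 → ∀ (u : List ℤ), Below W v u →
      Below W v (sweep a nO nE cap ko ke j N W' u) := by
  intro W'
  induction W' with
  | zero => intro _ u hu; exact hu
  | succ n ih =>
    intro hn u hu
    exact hS.raise (by omega) N _ (ih (by omega) u hu)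

/-- **The checker is sound**: the bounds which it finds are lower bounds. -/
theorem Sys.rnds (hS : Sys j W cap a nO nE ko ke v X) (N : ℕ) :
    ∀ (r : ℕ) (u : List ℤ), Below W v u → Below W v (rnds a nO nE cap ko ke j N (W + 1) r u) := by
  intro r
  induction r with
  | zero => intro u hu; exact hu
  | succ n ih =>
    intro u hu
    exact ih _ (hS.sweep N (W + 1) le_rfl u hu)

/-- a line is above the bounds -/
theorem Sys.target (hS : Sys j W cap a nO nE ko ke v X) (N r : ℕ) {u : List ℤ}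
    (hu : Below W v u) {κ g : ℤ} (hx : X κ g) :
    above κ g (Sm.rnds a nO nE cap ko ke j N (W + 1) r u) j = true := by
  have h1 := hS.rnds N r u hu
  refine above_of (W := W) (v := v) _ j fun w hw => ?_
  have hw' : w ≤ W := by
    have := h1.1
    omega
  exact (h1.2 w hw').trans (hS.mn _ _ hx w hw')

end

end Pool.Agent.GaussPoset.Sm
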