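import Pool.Agent.W_448s7s_h5.SmD
import Pool.Agent.W_448s7s_h5.SmE

/-!
# S7 for `j ≤ 16`: the system of lines (MP_448cb3_co)
-/

namespace Pool.Agent.GaussPoset.Sm

set_option linter.unusedSectionVars false

open Finset Wd

universe u

variable {P : Type u} [Fintype P] [PartialOrder P] [DecidableEq P] {r j w : ℕ}

/-- expensive sides -/
def Fatt (j : ℕ) (x : P) : Prop := j + 1 ≤ lev x ∧ ∀ k, 2 ≤ k → k + 2 ≤ j → 2 ≤ nab k x

/-- the sides which are used -/
def Sok (j : ℕ) (x : P) : Prop := ¬ Fatt j x ∧ (12 ≤ j → ¬ Fold j x)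

/-- the context -/
structure Ctx (P : Type u) [Fintype P] [PartialOrder P] [DecidableEq P] (r j : ℕ)
    (lo hi : Tops P → ℕ → ℕ) (e : Tops P → ℕ → ℕ → P) : Prop where
  gt : Win.GoodTo P r j
  h5 : 5 ≤ j
  h16 : j ≤ 16
  comp : ∀ t : Tops P, Cp.Comp j (t : P) (lo t) (hi t) (e t)
  shape : ∀ t, Shape j (lo t) (hi t)

variable {lo hi : Tops P → ℕ → ℕ} {e : Tops P → ℕ → ℕ → P}

/-- cross elements have level at least `j + 1` -/
lemma Ctx.lev_ge (K : Ctx P r j lo hi e) {z x x' : P} (h : Cg z x x') : j + 1 ≤ lev z := by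
  by_contra hcon
  exact K.gt.no_join z (by omega) h.jn

/-- the covers of a join of level `j + 1` have one cover -/
theorem Ctx.ends (K : Ctx P r j lo hi e) {z x x' : P} (h : Cg z x x') (hl : lev z = j + 1) :
    (Win.uc x).card = 1 ∧ (Win.uc x').card = 1 := by
  have H := K.gt.H
  have h5 := K.h5
  obtain ⟨l1, l2⟩ := h.lev_eq H
  have hne : x ≠ x' := by rintro rfl; exact h.ne rfl
  have G : Win.GoodTo P r ((j - 1) + 1) := by
    rw [show j - 1 + 1 = j by omega]
    exact K.gt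
  rcases (Win.near_level' G (by omega)).1 z x x' (by omega) h.cov h.cov' hne with h1 | ⟨h1, h2, _⟩
  · exfalso
    obtain ⟨y, hy, hy'⟩ := Win.exists_of_ucv (v := x) (v' := x') (by rw [h1]; exact one_pos)
    have e1 := mem_onlyB.mp (onlyB_up h.only hy.1.le) (topOf y) (topOf y).2 (le_topOf y)
    have e2 := mem_onlyB.mp (onlyB_up h.only' hy'.1.le) (topOf y) (topOf y).2 (le_topOf y)
    exact h.ne (Subtype.ext (e1.symm.trans e2))
  · exact ⟨h1, h2⟩

/-- sides: the fold end, straight, or in a late component -/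
theorem Ctx.cases (K : Ctx P r j lo hi e) {x : P} (hx : x ∈ onlyB (topOf x)) (hl : j ≤ lev x)
    (hend : lev x = j → (Win.uc x).card = 1) (hf : ¬ Fatt j x) :
    Fold j x ∨ Strt j x ∨ ∃ a, LateC j (lo (topOf x)) (hi (topOf x)) a ∧ (j ≠ 6 → 3 ≤ a) := by
  have H := K.gt.H
  have h5 := K.h5
  rcases shape_cases (K.comp (topOf x)) h5 (K.shape (topOf x)) with h | h | h
  · exact Or.inr (Or.inl fun k hk => nab_one_of_eq (K.comp (topOf x)) hx hk (by omega) (h k hk))
  · rcases early_dich H K.gt.good (by omega) (K.comp (topOf x)) (h.imp id Or.inl) hx hl hend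
      with h1 | h1 | h1
    · exact Or.inr (Or.inl h1)
    · exact Or.inl h1
    · exact absurd h1 hf
  · exact Or.inr (Or.inr h)

lemma Strt.mX {x : P} (h : Strt j x) : mX j x = 0 ∧ cX j x = 0 := mX_zero h

/-- the data of a side -/
theorem Ctx.side (K : Ctx P r j lo hi e) {x : P} (hx : x ∈ onlyB (topOf x)) (hl : j + 1 ≤ lev x)
    (hf : ¬ Fatt j x) {q p : ℕ} (hq : lev x = j + q) (hp : p = min q 2)
    {S : List (ℕ × ℕ × ℕ)} (hS : ChkS j p S) (h0 : (0, 0, 0) ∈ S) :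
    ∃ m c b : ℕ, (m, c, b) ∈ S ∧ mX j x = m ∧ cX j x = c ∧ (nab j x : ℤ) - 1 = b := by
  have h5 := K.h5
  rcases K.cases hx (by omega) (fun h => by omega) hf with h | h | ⟨a, h, -⟩
  · have := h.1
    omega
  · refine ⟨0, 0, 0, h0, h.mX.1, h.mX.2, ?_⟩
    rw [h j le_rfl]
    norm_num
  · exact late_mem K.gt (by omega) (K.comp _) h hx (by omega) (fun h => by omega) hq hp hS

/-- profile of the fold end -/
def fnb (j k : ℕ) : ℕ := k / 2 - (k - j / 2)

def fm (j : ℕ) : ℕ := ∑ k ∈ range j, fnb j k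

def fc (j : ℕ) : ℕ := ∑ k ∈ range j, fnb j k * (j - k)

lemma Fold.nab {x : P} (h : Fold j x) {k : ℕ} (hk : k ≤ j) : (nab k x : ℤ) - 1 = fnb j k := by
  have h1 := h.2.2 k hk
  have h2 := one_le_nab (l := k) (z := x) (by rw [h.1]; exact hk)
  unfold fnb
  omega

lemma Fold.mX {x : P} (h : Fold j x) : mX j x = fm j ∧ cX j x = fc j := by
  constructor
  · unfold GaussPoset.mX fm
    rw [Nat.cast_sum]
    exact Finset.sum_congr rfl fun k hk => h.nab (by rw [mem_range] at hk; omega)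
  · unfold GaussPoset.cX fc
    rw [Nat.cast_sum]
    refine Finset.sum_congr rfl fun k hk => ?_
    rw [mem_range] at hk
    rw [h.nab hk.le, Nat.cast_mul, Nat.cast_sub hk.le]

/-- data of an end -/
def Dt (j : ℕ) (x : P) (s : ℕ × ℕ × ℕ) : Prop :=
  mX j x = s.1 ∧ cX j x = s.2.1 ∧ nab (j - 2) x = s.2.2 + 1

/-- the data of an end -/
theorem Ctx.endd (K : Ctx P r j lo hi e) {x : P} (hx : x ∈ onlyB (topOf x)) (hl : lev x = j)
    (hend : (Win.uc x).card = 1) {S : List (ℕ × ℕ × ℕ)} (hS : ChkE j S) (h0 : (0, 0, 0) ∈ S)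
    (hF : Fold j x → (fm j, fc j, 1) ∈ S) : ∃ s ∈ S, Dt j x s := by
  suffices h : ∃ m c b : ℕ, (m, c, b) ∈ S ∧ mX j x = m ∧ cX j x = c ∧ nab (j - 2) x = b + 1 by
    obtain ⟨m, c, b, h1, h2, h3, h4⟩ := h
    exact ⟨_, h1, h2, h3, h4⟩
  have h5 := K.h5
  rcases K.cases hx hl.ge (fun _ => hend) (fun h => by have := h.1; omega) with h | h | ⟨a, h, -⟩
  · refine ⟨_, _, _, hF h, h.mX.1, h.mX.2, ?_⟩
    have h1 := h.2.2 (j - 2) (by omega)
    have := h.2.1
    omega
  · exact ⟨0, 0, 0, h0, h.mX.1, h.mX.2, h (j - 2) (by omega)⟩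
  · exact late_end K.gt (by omega) (K.comp _) h hx hl hend hS

/-- at all windows above the cap -/
def dead (j : ℤ) (W : ℕ) (cap : ℕ → ℤ) (κ g : ℤ) : Bool :=
  (List.range (W + 1)).all fun w => decide (cap w < κ * (j - w) + g)

/-- the table of the lines -/
def aT (tab : List (List ℤ)) (κ g : ℤ) : Bool :=
  decide (0 ≤ κ) && (tab.getD κ.toNat []).elem g

def okL (j : ℤ) (W : ℕ) (cap : ℕ → ℤ) (tab : List (List ℤ)) (κ g : ℤ) : Bool :=
  dead j W cap κ g || aT tab κ g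

def chk0 (j : ℤ) (W : ℕ) (cap : ℕ → ℤ) (tab : List (List ℤ)) (E : List (ℕ × ℕ × ℕ))
    (X : ℕ × ℕ × ℕ → ℕ × ℕ × ℕ → Bool) : Bool :=
  E.all fun s => E.all fun s' => X s s' || okL j W cap tab (s.1 + s'.1) (-(s.2.1 + s'.2.1))

def chk1 (j : ℤ) (W : ℕ) (cap : ℕ → ℤ) (tab : List (List ℤ)) (S : List (ℕ × ℕ × ℕ)) : Bool :=
  S.all fun s => S.all fun s' =>
    okL j W cap tab (2 + (s.1 + s'.1) + (s.2.2 + s'.2.2)) (3 - (s.2.1 + s'.2.1))

def chk2 (j : ℤ) (W : ℕ) (cap : ℕ → ℤ) (tab : List (List ℤ)) (S : List (ℕ × ℕ × ℕ)) : Bool :=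
  S.all fun s => S.all fun s' => (List.range 5).all fun q => decide (q < 2) ||
    (List.range (9 - 2 * q)).all fun n => (List.range ((q - 1) * n + 1)).all fun d =>
      decide (d < n) || okL j W cap tab (2 * q + (s.1 + s'.1) + (s.2.2 + s'.2.2) + n)
        (q * q + 2 * q - (s.2.1 + s'.2.1) + d)

def chkB (j : ℤ) (W : ℕ) (cap : ℕ → ℤ) (S : List (ℕ × ℕ × ℕ)) : Bool :=
  (List.range (W + 1)).all fun w => decide (cap w < 9 * (j - w)) &&
    S.all fun s => decide ((s.2.1 : ℤ) ≤ s.1 * (j - w))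

lemma not_dead {j : ℤ} {W : ℕ} {cap : ℕ → ℤ} {κ g : ℤ} (hw : w ≤ W) (h : κ * (j - w) + g ≤ cap w) :
    dead j W cap κ g = false := by
  rw [Bool.eq_false_iff]
  intro hd
  unfold dead at hd
  rw [List.all_eq_true] at hd
  have := hd w (List.mem_range.mpr (by omega))
  rw [decide_eq_true_eq] at this
  omega

lemma okL_at {j : ℤ} {W : ℕ} {cap : ℕ → ℤ} {tab : List (List ℤ)} {κ g : ℤ}
    (h : okL j W cap tab κ g = true) (hw : w ≤ W) (hc : κ * (j - w) + g ≤ cap w) :
    aT tab κ g = true := by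
  unfold okL at h
  rw [not_dead hw hc, Bool.false_or] at h
  exact h

/-- the tables; `X` = the excluded pairs of ends -/
structure Tab (j W : ℕ) (cap : ℕ → ℤ) (tab : List (List ℤ)) (E S1 S2 : List (ℕ × ℕ × ℕ))
    (X : ℕ × ℕ × ℕ → ℕ × ℕ × ℕ → Bool) : Prop where
  wj : W < j
  e : ChkE j E
  s1 : ChkS j 1 S1
  s2 : ChkS j 2 S2
  e0 : (0, 0, 0) ∈ E
  s10 : (0, 0, 0) ∈ S1
  s20 : (0, 0, 0) ∈ S2
  ef : j < 12 → j % 2 = 0 → (fm j, fc j, 1) ∈ E
  c0 : chk0 j W cap tab E X = true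
  c1 : chk1 j W cap tab S1 = true
  c2 : chk2 j W cap tab S2 = true
  cb : chkB j W cap S2 = true

/-- the joins of level `j + 1` with the pairs of ends `X` are excluded -/
def NoP (P : Type u) [Fintype P] [PartialOrder P] [DecidableEq P] (j : ℕ)
    (X : ℕ × ℕ × ℕ → ℕ × ℕ × ℕ → Bool) : Prop :=
  ∀ z x x' : P, Cg z x x' → lev z = j + 1 → ∀ s s', Dt j x s → Dt j x' s' → X s s' = false

/-- two ends, each with two ancestors on level `j - 2` -/
def XRR (s s' : ℕ × ℕ × ℕ) : Bool := s.2.2 == 1 && s'.2.2 == 1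

/-- no exclusion -/
def X0 (_ _ : ℕ × ℕ × ℕ) : Bool := false

lemma noP_zero (j : ℕ) : NoP P j X0 := fun _ _ _ _ _ _ _ _ _ => rfl

/-- the data of a join of level `j + 1` -/
theorem Ctx.pair (K : Ctx P r j lo hi e) {E : List (ℕ × ℕ × ℕ)} (hE : ChkE j E)
    (h0 : (0, 0, 0) ∈ E) (hf : j < 12 → j % 2 = 0 → (fm j, fc j, 1) ∈ E)
    {z x x' : P} (h : Cg z x x') (hlz : lev z = j + 1) (hs : Sok j x) (hs' : Sok j x') :
    ∃ s s', s ∈ E ∧ s' ∈ E ∧ Dt j x s ∧ Dt j x' s' ∧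
      kapZ j z = (s.1 : ℤ) + s'.1 ∧ gZ j z = -((s.2.1 : ℤ) + s'.2.1) := by
  have H := K.gt.H
  obtain ⟨l1, l2⟩ := h.lev_eq H
  obtain ⟨k1, k2, k3, k4, k5, k6⟩ := h.line H hlz.ge
  have hqz : (lev z : ℤ) - (j + 1) = 0 := by rw [hlz]; push_cast; ring
  rw [hqz] at k1 k2 k5
  obtain ⟨u1, u2⟩ := K.ends h hlz
  have hF : ∀ y : P, Sok j y → Fold j y → (fm j, fc j, 1) ∈ E := by
    intro y hy hfy
    refine hf ?_ hfy.2.1
    by_contra hcon
    exact hy.2 (by omega) hfy
  obtain ⟨s, g1, g2, g3, g4⟩ := K.endd h.only (by omega) u1 hE h0 (hF x hs)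
  obtain ⟨s', g1', g2', g3', g4'⟩ := K.endd h.only' (by omega) u2 hE h0 (hF x' hs')
  obtain ⟨n0, d0⟩ := k6 (by omega)
  have hn : (nab j x : ℤ) = 1 ∧ (nab j x' : ℤ) = 1 := by
    constructor
    · rw [show j = lev x by omega, nab_self]; norm_num
    · rw [show j = lev x' by omega, nab_self]; norm_num
  refine ⟨s, s', g1, g1', ⟨g2, g3, g4⟩, ⟨g2', g3', g4'⟩, ?_, ?_⟩
  · rw [k1, n0, hn.1, hn.2, g2, g2']
    ring
  · rw [k2, d0, g3, g3']
    ring

/-- **the cheap lines are in the table** -/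
theorem Ctx.mem_tab (K : Ctx P r j lo hi e) {X : ℕ × ℕ × ℕ → ℕ × ℕ × ℕ → Bool} (hN : NoP P j X)
    {W : ℕ} {cap : ℕ → ℤ} {tab : List (List ℤ)} {E S1 S2 : List (ℕ × ℕ × ℕ)}
    (T : Tab j W cap tab E S1 S2 X)
    {z x x' : P} (h : Cg z x x') (hs : Sok j x) (hs' : Sok j x') (hw : w ≤ W)
    (hc : kapZ j z * (j - w) + gZ j z ≤ cap w) : aT tab (kapZ j z) (gZ j z) = true := by
  have H := K.gt.H
  have hl := K.lev_ge h
  obtain ⟨l1, l2⟩ := h.lev_eq H
  obtain ⟨k1, k2, k3, k4, k5, k6⟩ := h.line H hl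
  obtain ⟨q, hq⟩ : ∃ q, lev z = j + 1 + q := ⟨lev z - (j + 1), by omega⟩
  have hqz : (lev z : ℤ) - (j + 1) = q := by rw [hq]; push_cast; ring
  rw [hqz] at k1 k2 k5
  rcases Nat.lt_or_ge q 1 with h0 | h0
  · -- level `j + 1`
    have hlz : lev z = j + 1 := by omega
    obtain ⟨s, s', g1, g1', d1, d1', e1, e2⟩ := K.pair T.e T.e0 T.ef h hlz hs hs'
    have h1 := T.c0
    unfold chk0 at h1
    rw [List.all_eq_true] at h1
    have h2 := h1 _ g1
    rw [List.all_eq_true] at h2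
    have h3 := h2 _ g1'
    rw [hN z x x' h hlz s s' d1 d1', Bool.false_or] at h3
    rw [e1, e2] at hc ⊢
    exact okL_at h3 hw hc
  · rcases Nat.lt_or_ge q 2 with h1q | h1q
    · obtain rfl : q = 1 := by omega
      obtain ⟨m, c, b, g1, g2, g3, g4⟩ := K.side h.only (by omega) hs.1 (q := 1) (by omega) rfl
        T.s1 T.s10
      obtain ⟨m', c', b', g1', g2', g3', g4'⟩ := K.side h.only' (by omega) hs'.1 (q := 1) (by omega)
        rfl T.s1 T.s10
      obtain ⟨n0, d0⟩ := k6 (by omega)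
      have e1 : kapZ j z = 2 + ((m : ℤ) + m') + ((b : ℤ) + b') := by
        rw [k1, n0, g4, g4', g2, g2']
        push_cast; ring
      have e2 : gZ j z = 3 - ((c : ℤ) + c') := by
        rw [k2, d0, g3, g3']
        push_cast; ring
      have h1 := T.c1
      unfold chk1 at h1
      rw [List.all_eq_true] at h1
      have h2 := h1 _ g1
      rw [List.all_eq_true] at h2
      have h3 := h2 _ g1'
      rw [e1, e2] at hc ⊢
      exact okL_at h3 hw hc
    · have hp : ∀ y : P, lev y = j + q → 2 = min q 2 := fun _ _ => by omega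
      obtain ⟨m, c, b, g1, g2, g3, g4⟩ := K.side h.only (by omega) hs.1 (q := q) (by omega)
        (p := 2) (by omega) T.s2 T.s20
      obtain ⟨m', c', b', g1', g2', g3', g4'⟩ := K.side h.only' (by omega) hs'.1 (q := q) (by omega)
        (p := 2) (by omega) T.s2 T.s20
      obtain ⟨n, hn⟩ : ∃ n : ℕ, nJ j z = n := ⟨(nJ j z).toNat, (Int.toNat_of_nonneg k3).symm⟩
      obtain ⟨d, hd⟩ : ∃ d : ℕ, dJ j z = d :=
        ⟨(dJ j z).toNat, (Int.toNat_of_nonneg (k3.trans k4)).symm⟩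
      rw [hn, hd] at k4 k5
      have e1 : kapZ j z = 2 * (q : ℤ) + ((m : ℤ) + m') + ((b : ℤ) + b') + n := by
        rw [k1, hn, g4, g4', g2, g2']
      have e2 : gZ j z = (q : ℤ) * q + 2 * q - ((c : ℤ) + c') + d := by
        rw [k2, hd, g3, g3']
      have hB := T.cb
      unfold chkB at hB
      rw [List.all_eq_true] at hB
      have hB1 := hB w (List.mem_range.mpr (by omega))
      rw [Bool.and_eq_true, decide_eq_true_eq, List.all_eq_true] at hB1
      have b1 := hB1.2 _ g1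
      have b2 := hB1.2 _ g1'
      rw [decide_eq_true_eq] at b1 b2
      simp only at b1 b2
      have hjw : (0 : ℤ) < (j : ℤ) - w := by
        have := T.wj
        omega
      have e5 : kapZ j z * ((j : ℤ) - w) + gZ j z =
          (2 * (q : ℤ) + ((b : ℤ) + b') + n) * ((j : ℤ) - w) +
            (m * ((j : ℤ) - w) - c) + (m' * ((j : ℤ) - w) - c') + (q : ℤ) * q + 2 * q + d := by
        rw [e1, e2]; ring
      have hqn : 2 * q + n ≤ 8 := by
        by_contra hcon
        push Not at hcon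
        have e6 : (9 : ℤ) ≤ 2 * (q : ℤ) + ((b : ℤ) + b') + n := by
          have : (9 : ℤ) ≤ 2 * (q : ℤ) + n := by exact_mod_cast hcon
          have := Int.natCast_nonneg b
          have := Int.natCast_nonneg b'
          linarith
        have e7 : 9 * ((j : ℤ) - w) ≤ (2 * (q : ℤ) + ((b : ℤ) + b') + n) * ((j : ℤ) - w) :=
          mul_le_mul_of_nonneg_right e6 hjw.le
        have e8 : (0 : ℤ) ≤ (q : ℤ) * q + 2 * q + d := by positivity
        linarith [hB1.1]
      have h1 := T.c2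
      unfold chk2 at h1
      rw [List.all_eq_true] at h1
      have h2 := h1 _ g1
      rw [List.all_eq_true] at h2
      have h3 := h2 _ g1'
      rw [List.all_eq_true] at h3
      have h4 := h3 q (List.mem_range.mpr (by omega))
      rw [Bool.or_eq_true, decide_eq_true_eq] at h4
      have h5 := h4.resolve_left (by omega)
      rw [List.all_eq_true] at h5
      have h6 := h5 n (List.mem_range.mpr (by omega))
      rw [List.all_eq_true] at h6
      have k5' : d ≤ (q - 1) * n := by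
        have : (d : ℤ) ≤ ((q - 1 : ℕ) : ℤ) * n := by
          rw [Nat.cast_sub (by omega)]
          exact_mod_cast k5
        exact_mod_cast this
      have h7 := h6 d (List.mem_range.mpr (by omega))
      rw [Bool.or_eq_true, decide_eq_true_eq] at h7
      have h8 := h7.resolve_left (by
        have : (n : ℤ) ≤ d := k4
        have : n ≤ d := by exact_mod_cast this
        omega)
      rw [e1, e2] at hc ⊢
      exact okL_at h8 hw hc

/-- the balance at one window -/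
structure WinB (P : Type u) [Fintype P] [PartialOrder P] [DecidableEq P] (j w : ℕ) (cp : ℤ)
    (nO nE : ℤ → Bool) (lb V : ℤ) : Prop where
  lo : V ≤ cp → lb ≤ V
  mn : ∀ z x x' : P, Cg z x x' → Sok j x → Sok j x' → V ≤ kapZ j z * (j - w) + gZ j z
  od : V ≤ cp → (∃ z x x' : P, Cg z x x' ∧ Sok j x ∧ Sok j x' ∧ Odd (kapZ j z) ∧
    kapZ j z * (j - w) + gZ j z = V) ∨ nO V = true
  ev : V ≤ cp → (∃ z x x' : P, Cg z x x' ∧ Sok j x ∧ Sok j x' ∧ Even (kapZ j z) ∧
    kapZ j z * (j - w) + gZ j z = V) ∨ nE V = true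

def odds (n : ℕ) : List ℤ :=
  List.map (fun k : ℕ => (k : ℤ)) (List.filter (fun k => k % 2 == 1) (List.range n))

def evens (n : ℕ) : List ℤ :=
  List.map (fun k : ℕ => (k : ℤ)) (List.filter (fun k => k % 2 == 0) (List.range n))

lemma aT_mem {tab : List (List ℤ)} {κ g : ℤ} (h : aT tab κ g = true) :
    (Odd κ → κ ∈ odds tab.length) ∧ (Even κ → κ ∈ evens tab.length) := by
  unfold aT at h
  rw [Bool.and_eq_true, decide_eq_true_eq] at h
  obtain ⟨h0, h1⟩ := h
  have h2 : κ.toNat < tab.length := by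
    by_contra hcon
    rw [List.getD_eq_default _ _ (by omega)] at h1
    simp at h1
  have h3 : ((κ.toNat : ℕ) : ℤ) = κ := Int.toNat_of_nonneg h0
  constructor
  · intro ho
    unfold odds
    rw [List.mem_map]
    refine ⟨κ.toNat, ?_, h3⟩
    rw [List.mem_filter, List.mem_range]
    refine ⟨h2, ?_⟩
    rw [beq_iff_eq]
    rw [Int.odd_iff] at ho
    omega
  · intro he
    unfold evens
    rw [List.mem_map]
    refine ⟨κ.toNat, ?_, h3⟩
    rw [List.mem_filter, List.mem_range]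
    refine ⟨h2, ?_⟩
    rw [beq_iff_eq]
    rw [Int.even_iff] at he
    omega

/-- **The bounds of the checker hold for the lines of the joins of level `j + 1`.** -/
theorem Ctx.bounds (K : Ctx P r j lo hi e) {X : ℕ × ℕ × ℕ → ℕ × ℕ × ℕ → Bool} (hN : NoP P j X)
    {W : ℕ} {cap : ℕ → ℤ} {tab : List (List ℤ)} {E S1 S2 : List (ℕ × ℕ × ℕ)}
    (T : Tab j W cap tab E S1 S2 X)
    {nO nE : ℕ → ℤ → Bool} {lb : ℕ → ℤ}
    (hB : ∀ w ≤ W, ∃ V, WinB P j w (cap w) (nO w) (nE w) (lb w) V) (N R : ℕ)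
    {z x x' : P} (h : Cg z x x') (hs : Sok j x) (hs' : Sok j x') :
    Chk.above (kapZ j z) (gZ j z) (rnds (aT tab) nO nE cap (odds tab.length) (evens tab.length) j N
      (W + 1) R ((List.range (W + 1)).map fun w => min (lb w) (cap w + 1))) j = true := by
  classical
  have hB' : ∀ w, ∃ V, w ≤ W → WinB P j w (cap w) (nO w) (nE w) (lb w) V := by
    intro w
    by_cases hw : w ≤ W
    · obtain ⟨V, hV⟩ := hB w hw
      exact ⟨V, fun _ => hV⟩
    · exact ⟨0, fun h => absurd h hw⟩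
  choose V hV using hB'
  have hS : Sys (j : ℤ) W cap (aT tab) nO nE (odds tab.length) (evens tab.length) V
      (fun κ g => ∃ z x x' : P, Cg z x x' ∧ Sok j x ∧ Sok j x' ∧ κ = kapZ j z ∧ g = gZ j z) := by
    refine ⟨?_, ?_, ?_, ?_⟩
    · rintro κ g ⟨z, x, x', h, hs, hs', rfl, rfl⟩ w hw he hc
      have h1 := K.mem_tab hN T h hs hs' hw (by rw [he]; exact hc)
      exact ⟨h1, aT_mem h1⟩
    · rintro κ g ⟨z, x, x', h, hs, hs', rfl, rfl⟩ w hw
      exact (hV w hw).mn z x x' h hs hs'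
    · intro w hw hc
      rcases (hV w hw).od hc with ⟨z, x, x', h1, h2, h3, h4, h5⟩ | h1
      · exact Or.inl ⟨_, _, ⟨z, x, x', h1, h2, h3, rfl, rfl⟩, h4, h5⟩
      · exact Or.inr h1
    · intro w hw hc
      rcases (hV w hw).ev hc with ⟨z, x, x', h1, h2, h3, h4, h5⟩ | h1
      · exact Or.inl ⟨_, _, ⟨z, x, x', h1, h2, h3, rfl, rfl⟩, h4, h5⟩
      · exact Or.inr h1
  refine hS.target N R ?_ ⟨z, x, x', h, hs, hs', rfl, rfl⟩
  refine ⟨by simp, fun w hw => ?_⟩
  rw [List.getD_eq_getElem?_getD, List.getElem?_map, List.getElem?_range (by omega)]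
  simp only [Option.map_some, Option.getD_some]
  rcases le_or_gt (V w) (cap w) with h1 | h1
  · exact (min_le_left _ _).trans ((hV w hw).lo h1)
  · exact (min_le_right _ _).trans (by omega)

end Pool.Agent.GaussPoset.Sm
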