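import Pool.Agent.W_448s7s_h5.TvE
import Pool.Agent.W_448s7s_h5.SmF
import Pool.Agent.W_448s8f_h76.FjA

/-!
**`j = 14`: no element of level 15 below both ends of `La7`, no pendant below the last element of
level 14, with joins of a fold end and an end `(5, 25, 0)`** (MP_448cb3_co, S7; after `SgN` of
helper94).
-/

namespace Pool.Agent.GaussPoset.Tv

set_option linter.unusedSectionVars false

open Polynomial Finset Cl Dd Wd Cp Sg

universe u

variable {P : Type u} [Fintype P] [PartialOrder P] [DecidableEq P] {r : ℕ}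

/-- the joins of level `15` are joins of a fold end and an end `(5, 25, 0)` -/
def JFB (P : Type u) [Fintype P] [PartialOrder P] [DecidableEq P] : Prop :=
  ∀ z : P, lev z = 15 → Hul.Jn z → ∃ x x', W4.FJn 14 z x x' ∧ Sm.Dt 14 x' (5, 25, 0)

/-- **the cost of a join at the window 7** -/
theorem fb_cost (H : Gr P r) {z x x' : P} (h : W4.FJn 14 z x x') (hd : Sm.Dt 14 x' (5, 25, 0))
    {k : ℕ} (hk : 1 ≤ k) : 26 ≤ ct 7 k z := by
  obtain ⟨hc, hl, hf⟩ := h
  have hl' : lev x' = 14 := by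
    have := (H.covBy_iff.mp hc.cov').2
    omega
  have hs : ∀ l, l ≤ 14 → nab l z = nab l x + nab l x' := fun l hl2 => hc.sum H (by omega)
  have h1 : ∀ l, l ≤ 14 → 1 ≤ nab l x' := fun l hl2 => one_le_nab (by omega)
  have hF : ∀ l, l ≤ 14 → nab l x + (l - 14 / 2) = l / 2 + 1 := hf.2.2
  have hm : mX 14 x' = 5 := hd.1
  have hx : cX 14 x' = 25 := hd.2.1
  unfold mX at hm
  unfold cX at hx
  simp only [Finset.sum_range_succ, Finset.sum_range_zero] at hm hx
  have e : ct 7 1 z ≤ ct 7 k z := by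
    classical
    rw [ct_eq_sum, ct_eq_sum]
    refine Finset.sum_le_sum fun y _ => ?_
    split_ifs
    · exact min_le_min_right _ hk
    · exact le_rfl
  refine le_trans ?_ e
  rw [Sg.ct_one hl, hs 8 (by omega), hs 9 (by omega), hs 10 (by omega), hs 11 (by omega),
    hs 12 (by omega), hs 13 (by omega), hs 14 (by omega)]
  have f8 := hF 8 (by omega)
  have f9 := hF 9 (by omega)
  have f10 := hF 10 (by omega)
  have f11 := hF 11 (by omega)
  have f12 := hF 12 (by omega)
  have f13 := hF 13 (by omega)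
  have f14 := hF 14 (by omega)
  have g0 := h1 0 (by omega)
  have g1 := h1 1 (by omega)
  have g2 := h1 2 (by omega)
  have g3 := h1 3 (by omega)
  have g4 := h1 4 (by omega)
  have g5 := h1 5 (by omega)
  have g6 := h1 6 (by omega)
  have g7 := h1 7 (by omega)
  have g8 := h1 8 (by omega)
  have g9 := h1 9 (by omega)
  have g10 := h1 10 (by omega)
  have g11 := h1 11 (by omega)
  have g12 := h1 12 (by omega)
  have g13 := h1 13 (by omega)
  have g14 := h1 14 (by omega)
  norm_num at hm hx f8 f9 f10 f11 f12 f13 f14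
  omega

section Ends

variable {lo hi : Tops P → ℕ → ℕ} {e : Tops P → ℕ → ℕ → P} (h : Win.GoodTo P r 14)
  (C : ∀ t : Tops P, Comp 14 (t : P) (lo t) (hi t) (e t)) (hS : ∀ t, Shape 14 (lo t) (hi t))

include h C hS

/-- the data at the energy 8 -/
theorem exists_Dat : ∃ (N : Tops P → Finset P) (θ : Tops P → P → ℕ) (B : Tops P → P → Prop),
    (∀ t : Tops P, Dat t (hi t 7 - lo t 7 + 1) (lo t) (hi t) (e t) (N t) (θ t) (B t)) ∧
      ∀ t : Tops P, WordD 14 7 wa7 (lo t) (hi t) →
        θ t (ce (e t) 29) = 0 ∧ Thin (ce (e t) 29) := by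
  have hex0 : ∀ t : Tops P, ∃ N θ B, Dat t (hi t 7 - lo t 7 + 1) (lo t) (hi t) (e t) N θ B ∧
      (WordD 14 7 wa7 (lo t) (hi t) → θ (ce (e t) 29) = 0 ∧ Thin (ce (e t) 29)) := by
    intro t
    by_cases hD : WordD 14 7 wa7 (lo t) (hi t)
    · obtain ⟨N, θ, B, h1, h2⟩ := t7_la h (C t) hD
      exact ⟨N, θ, B, h1, fun _ => h2⟩
    · obtain ⟨N, θ, B, h1⟩ := t7_shape h (C t) (hS t)
      exact ⟨N, θ, B, h1, fun h => absurd h hD⟩
  choose N θ B hT hT2 using hex0
  exact ⟨N, θ, B, hT, hT2⟩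

/-- no pendants below thin elements with the label `0` -/
theorem no_thin_of {N : Tops P → Finset P} {θ : Tops P → P → ℕ} {B : Tops P → P → Prop}
    (hT : ∀ t : Tops P, Dat t (hi t 7 - lo t 7 + 1) (lo t) (hi t) (e t) (N t) (θ t) (B t))
    (t : Tops P) (x : P) (hx : x ≤ (t : P)) (hl : lev x = 14) (h0 : θ t x = 0) (ht : Thin x)
    (z : P) (hz : lev z = 15) (hp : Pend z x) : False := by
  have W : C7 r N (fun t => hi t 7 - lo t 7 + 1) θ B :=
    ⟨h, fun t => (hT t).1, (card_level h.H h.good C (i := 7) (by omega)).symm⟩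
  refine W.no_thin hz hp ?_ ht
  rw [W.natSys.topOf_eq ((hT t).1.strip (mem_lowPart.mpr ⟨hx, hl.le⟩))]
  exact h0

/-- **No pendant below the last element of level 14 of `La7`.** -/
theorem no_pen_last (t : Tops P) (D : WordD 14 7 wa7 (lo t) (hi t)) {z : P}
    (hz : Pend z (e t 14 7)) : False := by
  obtain ⟨N, θ, B, hT, hT2⟩ := exists_Dat h C hS
  have e29 : ce (e t) 29 = e t 14 7 := by
    unfold ce
    rfl
  have h29 := La7_le D (C t) (a := 29) (by norm_num)
  obtain ⟨h3, h4⟩ := hT2 t D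
  rw [e29] at h29 h3 h4
  have hl14 : lev (e t 14 7) = 14 := h29.2.trans (by decide +kernel)
  have hl : lev z = 15 := by
    have := (h.H.covBy_iff.mp hz.1).2
    omega
  exact no_thin_of h C hS hT t _ h29.1 hl14 h3 h4 z hl hz

/-- the covers of a join of level `15` -/
lemma jfb_cost (hJ : JFB P) (z x y : P) (hl : lev z = 15) (hx : z ⋖ x) (hy : z ⋖ y)
    (hne : topOf x ≠ topOf y) (k : ℕ) (hk : 1 ≤ k) : 26 ≤ ct 7 k z := by
  have hj : Hul.Jn z := ⟨topOf x, topOf y, (topOf x).2, (topOf y).2,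
    fun hh => hne (Subtype.ext hh), hx.1.le.trans (le_topOf x), hy.1.le.trans (le_topOf y)⟩
  obtain ⟨a, a', h1, h2⟩ := hJ z hl hj
  exact fb_cost h.H h1 h2 hk

/-- **No element of level 15 below both ends of `La7`.** -/
theorem no_ends_fb (hJ : JFB P) (t : Tops P) (D : WordD 14 7 wa7 (lo t) (hi t)) {z : P}
    (hz1 : z ⋖ e t 14 7) (hz2 : z ⋖ e t 14 3) : False := by
  classical
  obtain ⟨N, θ, B, hT, hT2⟩ := exists_Dat h C hS
  have W : C7 r N (fun t => hi t 7 - lo t 7 + 1) θ B :=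
    ⟨h, fun t => (hT t).1, (card_level h.H h.good C (i := 7) (by omega)).symm⟩
  have htop : ∀ (t : Tops P) (x : P), x ≤ (t : P) → lev x ≤ 14 → topOf x = t := fun t x hx hl =>
    W.natSys.topOf_eq ((hT t).1.strip (mem_lowPart.mpr ⟨hx, hl⟩))
  -- the second stage
  have hex : ∀ t : Tops P, ∃ (N' A : Finset P) (θ' : P → ℕ) (B' : P → Prop) (ρ : ℤ),
      T25 t (hi t 7 - lo t 7 + 1) N' A θ' B' ρ ∧ (WordD 14 7 wa7 (lo t) (hi t) →
        (∃ z, Mk (e t) z 570425344) → 0 < ρ) := by
    intro t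
    by_cases hD : WordD 14 7 wa7 (lo t) (hi t)
    · have hb : hi t 7 - lo t 7 + 1 = 2 := by
        obtain ⟨h1, h2⟩ := hD.rows (C t)
        rw [h1 7 (by omega), h2 7 (by omega)]
        decide +kernel
      have hp0 : ∀ z, ¬ Mk (e t) z 536870912 := by
        intro z hz
        have h29 := La7_le hD (C t) (a := 29) (by norm_num)
        have hl29 : lev (ce (e t) 29) = 14 := h29.2.trans (by decide +kernel)
        have hpd : Pend z (ce (e t) 29) := by
          refine ⟨hz.cov (by norm_num) (by decide +kernel), fun y hy => ?_⟩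
          obtain ⟨b, hb, hbit, rfl⟩ := (hz.2 y).mp hy
          have h3 : ∀ b < 30, Nat.testBit 536870912 b = true → b = 29 := by decide +kernel
          rw [h3 b hb hbit]
        obtain ⟨h3, h4⟩ := hT2 t hD
        exact no_thin_of h C hS hT t _ h29.1 hl29 h3 h4 z hz.1 hpd
      obtain ⟨A, θ', ρ, hL⟩ := la7_data hD (C t) h t.2 hp0
      refine ⟨_, A, θ', _, ρ, T25.la (lo t) (hi t) (e t) (C t) hD rfl hb rfl hL, fun _ => hL.pos⟩
    · rcases (hT t).2 with ⟨h3, h4⟩ | ⟨h3, -⟩
      · exact ⟨N t, ∅, θ t, B t, 0, T25.nat h3 rfl rfl (fun x hx hl h0 ht =>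
          ⟨h4 x hx hl h0 ht, fun z hz hp => no_thin_of h C hS hT t x hx hl h0 ht z hz hp⟩),
          fun h => absurd h hD⟩
      · exact absurd h3 hD
  choose N' A θ' B' ρ hT' hpos using hex
  have W' : D7F r N' A (fun t => hi t 7 - lo t 7 + 1) θ' B' ρ :=
    ⟨h, fun z x y hl hx hy hne k hk => jfb_cost h C hS hJ z x y hl hx hy hne k hk, hT',
      (card_level h.H h.good C (i := 7) (by omega)).symm⟩
  refine W'.no_pos (t0 := t) (hpos t D ?_)
  have e29 : ce (e t) 29 = e t 14 7 := by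
    unfold ce
    rfl
  have e25 : ce (e t) 25 = e t 14 3 := by
    unfold ce
    rfl
  have h29 := La7_le D (C t) (a := 29) (by norm_num)
  have h25 := La7_le D (C t) (a := 25) (by norm_num)
  have hl29 := h29.2
  rw [← e29] at hz1
  rw [← e25] at hz2
  have hlz : lev z = 15 := by
    have h1 := (h.H.covBy_iff.mp hz1).2
    rw [hl29] at h1
    exact h1
  have hne : ce (e t) 29 ≠ ce (e t) 25 := fun hh =>
    absurd ((La7_cod D (C t) h.H h.good t.2).inj 29 (by norm_num) 25 (by norm_num) hh)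
      (by norm_num)
  obtain ⟨m, hm, hmk⟩ := La7_msk D (C t) h t.2 hlz (fun y hy => by
    rcases uc_pair h.H hz1 hz2 hne hy with e | e
    · rw [e]; exact h29.1
    · rw [e]; exact h25.1)
  have hmk' : Mk (e t) z m := ⟨hlz, hmk⟩
  have h1 : ∀ m ∈ msk, m.testBit 29 = true → m.testBit 25 = true → m = 570425344 := by
    decide +kernel
  have b29 : m.testBit 29 = true := by
    by_contra hcon
    exact hmk'.ncov D (C t) h t.2 (by norm_num) (by simpa using hcon) hz1
  have b25 : m.testBit 25 = true := by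
    by_contra hcon
    exact hmk'.ncov D (C t) h t.2 (by norm_num) (by simpa using hcon) hz2
  rw [h1 m hm b29 b25] at hmk'
  exact ⟨z, hmk'⟩

/-- (H1): no pendant below the last element of level 14 of `La7` -/
theorem pen_last : ∀ t : Tops P, WordD 14 7 wa7 (lo t) (hi t) → Win.pen (e t 14 7) = ∅ := by
  intro t D
  have h29 := La7_le D (C t) (a := 29) (by norm_num)
  rw [Finset.eq_empty_iff_forall_notMem]
  intro z hz
  rw [Win.mem_pen] at hz
  refine no_pen_last h C hS t D (z := z) ⟨hz.1, fun y hy => ?_⟩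
  obtain ⟨y0, h0⟩ := Finset.card_eq_one.mp hz.2
  have h1 : e t 14 7 ∈ Win.uc z := by rw [Win.mem_uc]; exact hz.1
  have h2 : y ∈ Win.uc z := by rw [Win.mem_uc]; exact hy
  rw [h0, mem_singleton] at h1 h2
  rw [h1, h2]

/-- (H2): no element of level 15 below both ends of `La7` -/
theorem dcv_ends (hJ : JFB P) : ∀ t : Tops P, WordD 14 7 wa7 (lo t) (hi t) →
    dcv (e t 14 3) (e t 14 7) = 0 := by
  intro t D
  classical
  unfold dcv
  rw [Finset.card_eq_zero, Finset.filter_eq_empty_iff]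
  rintro z - ⟨h1, h2⟩
  exact no_ends_fb h C hS hJ t D h2 h1

end Ends

end Pool.Agent.GaussPoset.Tv
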