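import Pool.Agent.W_448s7s_h5.SkZ

/-!
# S7 for `j = 10`: windows `0`, `1` (MP_448cb3_co)
-/

namespace Pool.Agent.GaussPoset.Sm

set_option linter.unusedSectionVars false

open Finset Wd

universe u

variable {P : Type u} [Fintype P] [PartialOrder P] [DecidableEq P] {r : ℕ}

/-- ends -/
def E10 : List (ℕ × ℕ × ℕ) :=
    [(0, 0, 0), (1, 2, 1), (1, 3, 0), (1, 4, 0), (1, 5, 0), (3, 9, 1), (5, 20, 1), (5, 25, 0),
    (10, 50, 1)]

/-- sides, one level deeper -/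
def S10a : List (ℕ × ℕ × ℕ) :=
    [(0, 0, 0), (0, 0, 1), (1, 1, 0), (1, 1, 1), (1, 2, 0), (1, 3, 0), (1, 4, 0), (1, 5, 0),
    (2, 3, 0), (2, 3, 1), (3, 6, 0), (3, 6, 1), (3, 9, 0), (4, 7, 1), (4, 10, 0), (4, 10, 1),
    (5, 12, 0), (5, 12, 1), (5, 15, 0), (5, 15, 1), (5, 20, 0), (5, 25, 0), (6, 13, 1),
    (6, 16, 1), (7, 23, 0), (7, 23, 1)]

/-- sides, two or more levels deeper -/
def S10b : List (ℕ × ℕ × ℕ) :=
    [(0, 0, 0), (0, 0, 1), (1, 1, 0), (1, 1, 1), (1, 1, 2), (1, 2, 0), (1, 3, 0), (1, 4, 0),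
    (1, 5, 0), (2, 3, 0), (2, 3, 1), (2, 3, 2), (3, 6, 0), (3, 6, 1), (3, 9, 0), (4, 7, 1),
    (4, 7, 2), (4, 7, 3), (4, 10, 0), (4, 10, 1), (4, 10, 2), (5, 12, 0), (5, 12, 1),
    (5, 15, 0), (5, 15, 1), (5, 20, 0), (5, 25, 0), (6, 13, 1), (6, 13, 2), (6, 13, 3),
    (6, 16, 1), (6, 16, 2), (7, 23, 0), (7, 23, 1)]

lemma chkE10 : ChkE 10 E10 := by decide +kernel

/-- caps -/
def cp10 (w : ℕ) : ℤ := if w = 0 then cap0 10 else ((10 * (10 - 1) / 2 : ℕ) : ℤ) - 1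

/-- even noise -/
def ne10 (w : ℕ) (V : ℤ) : Bool := if w = 0 then false else nz 10 V

lemma bal10 {lo hi : Tops P → ℕ → ℕ} {e : Tops P → ℕ → ℕ → P} (K : Ctx P r 10 lo hi e)
    (hJ : ∃ z : P, Hul.Jn z) : ∀ w ≤ 1, ∃ V, WinB P 10 w (cp10 w) ((fun _ _ => false) w) (ne10 w)
      ((fun _ => 0) w) V := by
  intro w hw
  have : w = 0 ∨ w = 1 := by omega
  rcases this with rfl | rfl
  · exact K.win0 hJ
  · exact K.win1 (by norm_num) chkE10 (by decide +kernel) (by decide +kernel) hJ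

/-- lines with `g`, by `κ` -/
def L10 : List (List ℤ) :=
  [[0], [-5, -4, -3, -2], [-10, -9, -8, -7, -6, -5, -4, 3], [-9, -2, -1, 0, 1, 2, 3], [-14,
    -13, -12, -11, -7, -6, -5, -4, -3, -2, -1, 0, 1, 2, 3, 8], [-25, -20, -6, -5, -4, -3, -2,
    -1, 0, 1, 2, 3, 4, 5, 6, 7], [-30, -29, -28, -27, -25, -24, -23, -22, -18, -11, -10, -9,
    -8, -7, -6, -5, -4, -3], [-22, -17], [-34, -29, -27, -26, -25, -24, -23], [], [-50, -45],
    [-55, -54, -53]]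

set_option maxRecDepth 100000 in
theorem tab10 : Tab 10 1 cp10 L10 E10 S10a S10b X0 := by
  refine ⟨by norm_num, chkE10, ?_, ?_, ?_, ?_, ?_, ?_, ?_, ?_, ?_, ?_⟩
  · decide +kernel
  · decide +kernel
  · decide +kernel
  · decide +kernel
  · decide +kernel
  · intro _ h
    decide +kernel
  · decide +kernel
  · decide +kernel
  · decide +kernel
  · decide +kernel

/-- the pairs of ends which are left -/
def R10 : List ((ℕ × ℕ × ℕ) × (ℕ × ℕ × ℕ)) :=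
    [((0, 0, 0), (5, 20, 1)), ((0, 0, 0), (10, 50, 1)), ((1, 2, 1), (3, 9, 1)),
    ((1, 2, 1), (5, 20, 1)), ((1, 2, 1), (5, 25, 0)), ((1, 2, 1), (10, 50, 1)),
    ((1, 3, 0), (5, 20, 1)), ((1, 3, 0), (5, 25, 0)), ((1, 3, 0), (10, 50, 1)),
    ((1, 4, 0), (5, 20, 1)), ((1, 4, 0), (5, 25, 0)), ((1, 4, 0), (10, 50, 1)),
    ((1, 5, 0), (5, 20, 1)), ((1, 5, 0), (10, 50, 1)), ((3, 9, 1), (1, 2, 1)),
    ((3, 9, 1), (3, 9, 1)), ((3, 9, 1), (5, 20, 1)), ((3, 9, 1), (5, 25, 0)),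
    ((3, 9, 1), (10, 50, 1)), ((5, 20, 1), (0, 0, 0)), ((5, 20, 1), (1, 2, 1)),
    ((5, 20, 1), (1, 3, 0)), ((5, 20, 1), (1, 4, 0)), ((5, 20, 1), (1, 5, 0)),
    ((5, 20, 1), (3, 9, 1)), ((5, 20, 1), (5, 20, 1)), ((5, 20, 1), (5, 25, 0)),
    ((5, 20, 1), (10, 50, 1)), ((5, 25, 0), (1, 2, 1)), ((5, 25, 0), (1, 3, 0)),
    ((5, 25, 0), (1, 4, 0)), ((5, 25, 0), (3, 9, 1)), ((5, 25, 0), (5, 20, 1)),
    ((5, 25, 0), (5, 25, 0)), ((5, 25, 0), (10, 50, 1)), ((10, 50, 1), (0, 0, 0)),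
    ((10, 50, 1), (1, 2, 1)), ((10, 50, 1), (1, 3, 0)), ((10, 50, 1), (1, 4, 0)),
    ((10, 50, 1), (1, 5, 0)), ((10, 50, 1), (3, 9, 1)), ((10, 50, 1), (5, 20, 1)),
    ((10, 50, 1), (5, 25, 0)), ((10, 50, 1), (10, 50, 1))]

lemma rest10 : rest 10 E10 X0 (ubd 10 1 cp10 (fun _ => 0) L10 (fun _ _ => false) ne10 200 3) =
    R10 := by
  decide +kernel

/-- **S7 for `j = 10`**, exclusion `X0`. -/
theorem left10 {lo hi : Tops P → ℕ → ℕ} {e : Tops P → ℕ → ℕ → P} (K : Ctx P r 10 lo hi e)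
    {z x x' : P} (h : Cg z x x') (hl : lev z = 11) :
    ∃ s s', (s, s') ∈ R10 ∧ Dt 10 x s ∧ Dt 10 x' s' := by
  have hs : ∀ y : P, lev y = 10 → Sok 10 y := fun y hy => ⟨fun hf => by have := hf.1; omega,
    fun h12 => by omega⟩
  obtain ⟨l1, l2⟩ := h.lev_eq K.gt.H
  obtain ⟨s, s', h1, h2, h3⟩ := K.left (noP_zero 10) tab10 (bal10 K ⟨z, h.jn⟩) 200 3 h hl
    (hs x (by omega)) (hs x' (by omega))
  rw [rest10] at h1
  exact ⟨s, s', h1, h2, h3⟩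

/-- lines with `g`, by `κ` -/
def L10r : List (List ℤ) :=
  [[0], [-5, -4, -3, -2], [-10, -9, -8, -7, -6, -5, 3], [-9, -2, -1, 0, 1, 2, 3], [-14, -13,
    -12, -7, -6, -5, -4, -3, -2, -1, 0, 1, 2, 3, 8], [-25, -20, -6, -5, -4, -3, -2, -1, 0, 1,
    2, 3, 4, 5, 6, 7], [-30, -29, -28, -27, -25, -24, -23, -11, -10, -9, -8, -7, -6, -5, -4,
    -3], [-22, -17], [-34, -27, -26, -25, -24, -23], [], [-50, -45], [-55, -54, -53]]

set_option maxRecDepth 100000 in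
theorem tab10r : Tab 10 1 cp10 L10r E10 S10a S10b XRR := by
  refine ⟨by norm_num, chkE10, ?_, ?_, ?_, ?_, ?_, ?_, ?_, ?_, ?_, ?_⟩
  · decide +kernel
  · decide +kernel
  · decide +kernel
  · decide +kernel
  · decide +kernel
  · intro _ h
    decide +kernel
  · decide +kernel
  · decide +kernel
  · decide +kernel
  · decide +kernel

/-- the pairs of ends which are left -/
def R10r : List ((ℕ × ℕ × ℕ) × (ℕ × ℕ × ℕ)) :=
    [((1, 3, 0), (10, 50, 1)), ((1, 4, 0), (10, 50, 1)), ((1, 5, 0), (10, 50, 1)),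
    ((5, 20, 1), (5, 25, 0)), ((5, 25, 0), (5, 20, 1)), ((5, 25, 0), (10, 50, 1)),
    ((10, 50, 1), (1, 3, 0)), ((10, 50, 1), (1, 4, 0)), ((10, 50, 1), (1, 5, 0)),
    ((10, 50, 1), (5, 25, 0))]

lemma rest10r : rest 10 E10 XRR (ubd 10 1 cp10 (fun _ => 0) L10r (fun _ _ => false) ne10 200 6) =
    R10r := by
  decide +kernel

/-- **S7 for `j = 10`**, exclusion `XRR`. -/
theorem left10r {lo hi : Tops P → ℕ → ℕ} {e : Tops P → ℕ → ℕ → P} (K : Ctx P r 10 lo hi e) (hN : NoP P 10 XRR)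
    {z x x' : P} (h : Cg z x x') (hl : lev z = 11) :
    ∃ s s', (s, s') ∈ R10r ∧ Dt 10 x s ∧ Dt 10 x' s' := by
  have hs : ∀ y : P, lev y = 10 → Sok 10 y := fun y hy => ⟨fun hf => by have := hf.1; omega,
    fun h12 => by omega⟩
  obtain ⟨l1, l2⟩ := h.lev_eq K.gt.H
  obtain ⟨s, s', h1, h2, h3⟩ := K.left hN tab10r (bal10 K ⟨z, h.jn⟩) 200 6 h hl
    (hs x (by omega)) (hs x' (by omega))
  rw [rest10r] at h1
  exact ⟨s, s', h1, h2, h3⟩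

end Pool.Agent.GaussPoset.Sm
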