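import Pool.Agent.W_448s7s_h5.SlB

/-!
# The windows `2`, `3` for `12 ≤ j ≤ 16`: the balance (MP_448cb3_co)
-/

namespace Pool.Agent.GaussPoset.Sm

set_option linter.unusedSectionVars false

open Finset Wd Cp

universe u

variable {P : Type u} [Fintype P] [PartialOrder P] [DecidableEq P] {r j w K : ℕ}
  {lo hi : Tops P → ℕ → ℕ} {e : Tops P → ℕ → ℕ → P}

lemma late3_len : ∀ v ∈ lateW 3, v.length ≤ 7 := by decide +kernel

lemma LateC.four {lo hi : ℕ → ℕ} {a : ℕ} (h : LateC j lo hi a) (hj : 11 ≤ j) : 4 ≤ a := by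
  by_contra hcon
  have h2 := h.two
  have hw := h.word
  have : a = 2 ∨ a = 3 := by omega
  rcases this with rfl | rfl
  · unfold wds at hw
    rw [if_pos rfl, if_neg (by omega)] at hw
    exact absurd hw List.not_mem_nil
  · unfold wds at hw
    rw [if_neg (by omega), if_neg (by omega), List.append_nil] at hw
    have := late3_len _ hw
    simp at this
    omega

/-- sides which are not allowed do not occur at the windows `2`, `3` -/
lemma nsk23 (hj : 12 ≤ j) (hw : w = 2 ∨ w = 3) {x : P} (hn : nab w x = 1) (hs : ¬ Sok j x) :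
    False := by
  apply hs
  refine ⟨fun hf => ?_, fun _ hf => ?_⟩
  · have := hf.2 w (by omega) (by omega)
    omega
  · have := hf.2.2 w (by omega)
    rcases hw with rfl | rfl <;> omega

/-- the low levels of an allowed side -/
lemma Ctx.low_one (K : Ctx P r j lo hi e) (hj : 12 ≤ j) {x : P} (hx : x ∈ onlyB (topOf x))
    (hl : j ≤ lev x) (hend : lev x = j → (Win.uc x).card = 1) (hs : Sok j x) {k : ℕ} (hk : k < 4) :
    nab k x = 1 := by
  rcases K.cases hx hl hend hs.1 with h | h | ⟨a, h, -⟩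
  · exact absurd h (hs.2 hj)
  · exact h k (by omega)
  · have h4 := h.four (by omega)
    obtain ⟨e1, e2⟩ := h.low k (by omega)
    exact nab_one_of_eq (K.comp (topOf x)) hx (by omega) (by omega) (by rw [e1, e2])

/-- **the balance at the windows `2`, `3`** -/
theorem Ctx.win23 (K : Ctx P r j lo hi e) (h12 : 12 ≤ j) (hw : w = 2 ∨ w = 3) {cT : ℕ}
    {LE LO : List ℤ} {lb : ℤ} {E : List (ℕ × ℕ × ℕ)} (hE : ChkE j E) (h0 : (0, 0, 0) ∈ E)
    (hb : j % 2 = 1 → ∀ s ∈ E, (s.1 : ℤ) * ((j : ℤ) - w) - s.2.1 ≤ 5 * ((j : ℤ) - w))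
    (c1 : ∀ a ∈ Finset.Icc 2 ((j + 1) / 2), (j + 1 - w) ^ 2 + cT + 1 < stC w (j + 1) a)
    (c2 : ∀ a ∈ Finset.Icc 2 (j - 1), (j + 1 - w) ^ 2 + cT + 1 < reC w (j + 1) a)
    (c3 : j % 2 = 1 → (j + 1 - w) ^ 2 + cT < flC w j)
    (c4 : j % 2 = 0 → (j + 1 - w) ^ 2 + cT < foC w j + foE w j)
    (c5 : j % 2 = 0 → (Even (foN w j) ∧ (foC w j : ℤ) - ((j + 1 - w : ℕ) : ℤ) ^ 2 ∈ LE) ∨
      (Odd (foN w j) ∧ (foC w j : ℤ) - ((j + 1 - w : ℕ) : ℤ) ^ 2 ∈ LO))
    (c6 : 2 * ((j + 1 - w) ^ 2 + cT) < 3 * (j + 1 - w) ^ 2 + 3 * (j + 1 - w))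
    (c7 : cT < 7 * (j + 1 - w) + 10)
    (hl0 : lb ≤ 0) (hlE : ∀ x ∈ LE, lb ≤ x) (hlO : ∀ x ∈ LO, lb ≤ x)
    (hJ : ∃ z : P, Hul.Jn z) :
    ∃ V, WinB P j w cT (fun V => LO.elem V) (fun V => nz ((j + 1 - w : ℕ) : ℤ) V || LE.elem V)
      lb V := by
  have H := K.gt.H
  have h16 := K.h16
  have hsh : ∀ t : Tops P, lo t w = hi t w ∨ RectShape j (lo t) (hi t) ∨
      StairShape j (lo t) (hi t) ∨ StairShape j (fun k => k - hi t k) (fun k => k - lo t k) := by
    intro t
    rcases shape_cases (K.comp t) (by omega) (K.shape t) with h | h | ⟨a, h, h3⟩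
    · exact Or.inl (h w (by omega))
    · exact Or.inr (by tauto)
    · left
      have h4 := h.four (by omega)
      rw [(h.low w (by omega)).1, (h.low w (by omega)).2]
  obtain ⟨N, θ, t1, t2, hs, hu⟩ := K.types (w := w) (by omega) hsh
  have W : Wk r j w ((j + 1 - w) ^ 2 + cT) N (fun t => hi t w - lo t w + 1) θ :=
    { gt := K.gt, hj := by omega, hw1 := by omega, hw := by omega, typ := t1, top := t2
      sum_b := hs
      hK := c6
      rdeep := fun C _ hx _ h1 h2 h3 h4 => rdeep_of (by omega) (by omega) c2 C hx h1 h2 h3 h4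
      sdeep := fun _ _ _ _ C _ hx _ h1 h3 h4 => sdeep_of (by omega) (by omega) c1 C hx h1 h3 h4 }
  have L : Lk P j w ((j + 1 - w) ^ 2 + cT) N (fun t => hi t w - lo t w + 1) θ
      (XL (j + 1 - w) LE) (XL (j + 1 - w) LO) :=
    { unq := hu
      nsk := fun z x x' h hl hn hns => (nsk23 h12 hw hn hns).elim
      dj := fun v z x hz hc hl hzx hD =>
        W.deep_j (by omega) (by omega) c3 c4 c5 hz hc hl hzx hD }
  have hlow : ∀ z x x' : P, Cg z x x' → Sok j x → Sok j x' → j + 1 ≤ lev z →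
      ∀ k, k < w → nab k z = 2 := by
    intro z x x' h hs hs' hl k hk
    obtain ⟨l1, l2⟩ := h.lev_eq H
    have hend : lev x = j → (Win.uc x).card = 1 := fun hh => (K.ends h (by omega)).1
    have hend' : lev x' = j → (Win.uc x').card = 1 := fun hh => (K.ends h (by omega)).2
    rw [h.sum H (by omega), K.low_one h12 h.only (by omega) hend hs (by omega),
      K.low_one h12 h.only' (by omega) hend' hs' (by omega)]
  have hpen : OnePen P j (fun t => 2 ≤ hi t w - lo t w + 1) ∨ ∃ z : P, Hul.Jn z ∧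
      ful w z ≤ (j + 1 - w) ^ 2 + 5 * (j - w) := by
    rcases K.pen_or with h | ⟨hodd, z, x, x', h1, h2, h3, h4⟩
    · left
      intro e e' p p' hB
      refine h e e' p p' ?_
      rcases shape_cases (K.comp (topOf e)) (by omega) (K.shape (topOf e)) with h | h | ⟨a, h, h3⟩
      · have := h w (by omega)
        omega
      · exact h
      · have h4 := h.four (by omega)
        have e1 := h.low w (by omega)
        omega
    · right
      have hs : Sok j x := ⟨fun hf => by
        have := hf.1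
        have := (h1.lev_eq H).1
        omega, fun _ hf => by
        have := hf.2.1
        omega⟩
      have hs' : Sok j x' := ⟨fun hf => by
        have := hf.1
        have := (h1.lev_eq H).2
        omega, fun _ hf => by
        have := hf.2.1
        omega⟩
      exact ⟨z, h1.jn, K.cheap (by omega) hodd hE h0 (hb hodd) h1 h2 h3 h4
        (hlow z x x' h1 hs hs' h2.ge)⟩
  exact W.winB L h16 (cT := (cT : ℤ)) (lb := lb) (by push_cast; ring)
    (by exact_mod_cast c7) hl0 hlE hlO hlow hpen hJ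

end Pool.Agent.GaussPoset.Sm
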