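import Pool.Agent.W_448s7s_h5.SkT

/-!
# The windows of S7 with a cap: straight covers below two tops (MP_448cb3_co)
-/

namespace Pool.Agent.GaussPoset.Sm

set_option linter.unusedSectionVars false

open Polynomial Finset

universe u

variable {P : Type u} [Fintype P] [PartialOrder P] [DecidableEq P] {r j w K : ℕ}
  {N : Tops P → Finset P} {b : Tops P → ℕ} {θ : Tops P → P → ℕ} {XE XO : ℕ → Prop}

/-- the strips which are light at window `w` have one element of level `w` -/
def Unq (P : Type u) [Fintype P] [PartialOrder P] [DecidableEq P] (w : ℕ) (b : Tops P → ℕ) : Prop :=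
  ∀ t : Tops P, b t = 1 → ∀ x y : P, x ≤ (t : P) → y ≤ (t : P) → lev x = w → lev y = w → x = y

/-- straight natural elements -/
lemma Wk.str_nab (W : Wk r j w K N b θ) (L : Unq P w b) {x : P} (hx : x ∉ unnat N)
    (hS : Str w N θ x) (hl : j ≤ lev x) : nab w x = 1 := by
  classical
  have H := W.gt.H
  have HN := W.natSys
  have hg := W.gt.good
  have hj := W.hj
  have hw := W.hw
  have hxt : x ∈ N (topOf x) := HN.mem_iff.mpr ⟨hx, rfl⟩
  have hth := hS.th
  generalize topOf x = t at hxt hth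
  rcases W.typ t with ⟨g1, g2, g3, g5⟩ | ⟨Nc, co, h0, g1, g2, g4⟩ |
    ⟨Nc, co, h0, g1, g2, g3, g4, g5'⟩
  · rw [g1] at hxt
    refine le_antisymm ?_ (one_le_nab (by omega))
    unfold nab
    rw [Finset.card_le_one]
    intro y hy y' hy'
    rw [mem_filter, mem_lv] at hy hy'
    exact L t g3 y y' (onlyB_le (onlyB_up hxt hy.2)) (onlyB_le (onlyB_up hxt hy'.2)) hy.1 hy'.1
  · rw [g1] at hxt
    rw [g2] at hth
    rcases rect_str7 h0 hw hxt (by omega) hth with h | h
    · exact h.nab_one rowT_true h0.chart H hg h0.strip h0.one1 (by omega) (by omega)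
    · exact h.nab_one rowT_true h0.chart.swap H hg h0.strip h0.one2 (by omega) (by omega)
  · rw [g1] at hxt
    rw [g2] at hth
    have h := stair_str7 h0 hw g4 hxt (by omega) hth
    exact h.nab_one rowT_shift h0.chart H hg h0.strip (h0.one1 g4) (by omega) (by omega)

/-- straight covers below two tops -/
theorem Wk.cross_out (W : Wk r j w K N b θ) (L : Unq P w b)
    (F : ∀ z x x' : P, Cg z x x' → j + 1 ≤ lev z → nab w x = 1 → ¬ Sok j x → K < ful w z)
    {v : ℕ} {z : P}
    (hz : z ∈ bdR (rA N)) (hh : hA N θ z = lev z - w) (hc : cst w (hA N θ) z = v) {x x' : P}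
    (hx : x ∉ unnat N) (hx' : x' ∉ unnat N) (hS : Str w N θ x) (hS' : Str w N θ x')
    (hzx : z ⋖ x) (hzx' : z ⋖ x') (htt : topOf x ≠ topOf x') :
    OutK j w K XE XO (hA N θ) z v := by
  classical
  have H := W.gt.H
  have HN := W.natSys
  have hj := W.hj
  have hw := W.hw
  have hlz := W.bd_lev hz
  have e1 := (H.covBy_iff.mp hzx).2
  have e2 := (H.covBy_iff.mp hzx').2
  have hxt : x ∈ N (topOf x) := HN.mem_iff.mpr ⟨hx, rfl⟩
  have hxt' : x' ∈ N (topOf x') := HN.mem_iff.mpr ⟨hx', rfl⟩
  have n1 := W.str_nab L hx hS (by omega)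
  have n2 := W.str_nab L hx' hS' (by omega)
  have hv : v = ful w z := by
    rw [← hc]
    exact cst_eq_ful (by omega)
  have C : Cg z x x' := Cg.mk' hzx hzx' (mem_onlyB.mpr fun s hs hxs => HN.top_eq hxt hs hxs)
    (mem_onlyB.mpr fun s hs hxs => HN.top_eq hxt' hs hxs) htt
  by_cases s1 : Sok j x
  · by_cases s2 : Sok j x'
    · right
      refine ⟨?_, Or.inr (Or.inr ⟨⟨x, x', C, s1, s2⟩, hv, hh⟩)⟩
      rw [nab_join_eq HN H hxt hxt' htt hzx hzx' (by omega), n1, n2, hh,
        show w + (lev z - w) = lev z by omega, nab_self]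
    · left
      rw [hv]
      exact F z x' x C.symm (by omega) n2 s2
  · left
    rw [hv]
    exact F z x x' C (by omega) n1 s1

end Pool.Agent.GaussPoset.Sm
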