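import Pool.Agent.W_448s7s_h5.SmA

/-!
# S7 for `j ≤ 16`: the extra elements above an element of a late component (MP_448cb3_co)
-/

namespace Pool.Agent.GaussPoset.Sm

set_option linter.unusedSectionVars false

open Finset Wd

universe u

variable {P : Type u} [Fintype P] [PartialOrder P] [DecidableEq P] {r j w : ℕ}

/-- extra elements on the level `a + n` above a set `A` of positions on the last level -/
def xA (w : List Ltr) (A : Finset ℕ) (n : ℕ) : ℕ :=
  ((Icc (Lw w (n + 3)) (Hw w (n + 3))).filter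
    (fun s' => ∃ s ∈ A, s' ≤ s ∧ s ≤ s' + (w.length - n))).card - 1

def mA (w : List Ltr) (A : Finset ℕ) : ℕ := ∑ n ∈ range w.length, xA w A n

def dA (w : List Ltr) (A : Finset ℕ) : ℕ := ∑ n ∈ range w.length, xA w A n * (w.length - n)

/-- the end positions of the last level -/
def EndP (w : List Ltr) (s : ℕ) : Prop := s = Lw w (w.length + 2) ∨ s = Hw w (w.length + 2) + 1

instance (w : List Ltr) (s : ℕ) : Decidable (EndP w s) := by unfold EndP; infer_instance

/-- the possible positions of the ancestors of an element of level `j + q` -/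
def condA (q : ℕ) (w : List Ltr) (A : Finset ℕ) : Prop :=
  (q = 0 → A.card = 1 ∧ ∀ s ∈ A, EndP w s) ∧
    (q = 1 → A.card ≤ 2 ∧ ((∀ s ∈ A, ∀ s' ∈ A, s ≤ s' + 1) ∨ ∀ s ∈ A, EndP w s))

instance (q : ℕ) (w : List Ltr) (A : Finset ℕ) : Decidable (condA q w A) := by
  unfold condA; infer_instance

open Classical in
/-- the positions of the ancestors of level `j` -/
noncomputable def posA (j : ℕ) (lo hi : ℕ → ℕ) (e : ℕ → ℕ → P) (x : P) : Finset ℕ :=
  (Icc (lo j) (hi j)).filter (fun s => x ≤ e j s)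

section

variable {t : Tops P} {lo hi : ℕ → ℕ} {e : ℕ → ℕ → P}

lemma mem_posA {x : P} {s : ℕ} : s ∈ posA j lo hi e x ↔ (lo j ≤ s ∧ s ≤ hi j) ∧ x ≤ e j s := by
  classical
  unfold posA
  rw [mem_filter, mem_Icc]

/-- numbers of elements above `x` from the positions of level `j` -/
theorem nab_pos (H : Gr P r) (hg : ∀ l, l < j → Win.Good P l) (C : Cp.Comp j (t : P) lo hi e)
    {x : P} (hx : x ∈ onlyB t) (hl : j ≤ lev x) {k : ℕ} (hk : k ≤ j) :
    nab k x = ((Icc (lo k) (hi k)).filter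
      (fun s' => ∃ s ∈ posA j lo hi e x, s' ≤ s ∧ s ≤ s' + (j - k))).card := by
  classical
  have ht : lev (t : P) = 0 := t.2
  have key : ∀ s s', lo j ≤ s → s ≤ hi j → lo k ≤ s' → s' ≤ hi k →
      (e j s ≤ e k s' ↔ s' ≤ s ∧ s ≤ s' + (j - k)) := by
    intro s s' h1 h2 h3 h4
    have := C.le_iff H hg ht h3 h4 (d := j - k) (s := s) (by omega)
      (by rw [show k + (j - k) = j by omega]; exact h1)
      (by rw [show k + (j - k) = j by omega]; exact h2)
    rw [show k + (j - k) = j by omega] at this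
    exact this
  unfold nab
  have : (lv P k).filter (x ≤ ·) = ((Icc (lo k) (hi k)).filter
      (fun s' => ∃ s ∈ posA j lo hi e x, s' ≤ s ∧ s ≤ s' + (j - k))).image (e k) := by
    ext y
    rw [mem_filter, mem_lv, mem_image]
    constructor
    · rintro ⟨hy, hxy⟩
      obtain ⟨s', a1, a2, a3⟩ := C.surj y (onlyB_le (onlyB_up hx hxy)) (by omega)
      rw [hy] at a1 a2 a3
      obtain ⟨q, h1, h2, h3⟩ := exists_between H.gradedBelow (z := x) (s := y) hxy (l := j)
        (by omega) hl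
      obtain ⟨s, b1, b2, b3⟩ := C.surj q (onlyB_le (onlyB_up hx h1)) (by omega)
      rw [h3] at b1 b2 b3
      refine ⟨s', ?_, a3⟩
      rw [mem_filter, mem_Icc]
      refine ⟨⟨a1, a2⟩, s, mem_posA.mpr ⟨⟨b1, b2⟩, by rw [b3]; exact h1⟩, ?_⟩
      exact (key s s' b1 b2 a1 a2).mp (by rw [b3, a3]; exact h2)
    · rintro ⟨s', hs, rfl⟩
      rw [mem_filter, mem_Icc] at hs
      obtain ⟨⟨a1, a2⟩, s, h1, h2⟩ := hs
      obtain ⟨⟨b1, b2⟩, h3⟩ := mem_posA.mp h1
      exact ⟨C.lev_e k s' (by omega) a1 a2, h3.trans ((key s s' b1 b2 a1 a2).mpr h2)⟩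
  rw [this, Finset.card_image_of_injOn]
  intro a ha b hb hab
  rw [Finset.mem_coe, mem_filter, mem_Icc] at ha hb
  exact C.inj k a b (by omega) ha.1.1 ha.1.2 hb.1.1 hb.1.2 hab

/-- the number of ancestors of level `j` -/
lemma card_posA (C : Cp.Comp j (t : P) lo hi e)
    {x : P} (hx : x ∈ onlyB t) : nab j x = (posA j lo hi e x).card := by
  classical
  unfold nab
  have : (lv P j).filter (x ≤ ·) = (posA j lo hi e x).image (e j) := by
    ext y
    rw [mem_filter, mem_lv, mem_image]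
    constructor
    · rintro ⟨hy, hxy⟩
      obtain ⟨s', a1, a2, a3⟩ := C.surj y (onlyB_le (onlyB_up hx hxy)) (by omega)
      rw [hy] at a1 a2 a3
      exact ⟨s', mem_posA.mpr ⟨⟨a1, a2⟩, by rw [a3]; exact hxy⟩, a3⟩
    · rintro ⟨s', hs, rfl⟩
      obtain ⟨⟨b1, b2⟩, h3⟩ := mem_posA.mp hs
      exact ⟨C.lev_e j s' le_rfl b1 b2, h3⟩
  rw [this, Finset.card_image_of_injOn]
  intro a ha b hb hab
  rw [Finset.mem_coe, mem_posA] at ha hb
  exact C.inj j a b le_rfl ha.1.1 ha.1.2 hb.1.1 hb.1.2 hab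

/-- end positions -/
lemma end_pos (C : Cp.Comp j (t : P) lo hi e) (hj : 1 ≤ j) {s : ℕ}
    (hs1 : lo j ≤ s) (hs2 : s ≤ hi j) (h1 : (Win.uc (e j s)).card = 1) :
    s = lo (j - 1) ∨ s = hi (j - 1) + 1 := by
  obtain ⟨i, rfl⟩ : ∃ i, j = i + 1 := ⟨j - 1, by omega⟩
  exact single_pos C hs1 hs2 h1

/-- the positions for an element of level `j` or `j + 1` -/
theorem pos_cond (G : Win.GoodTo P r j) (hj : 2 ≤ j) (C : Cp.Comp j (t : P) lo hi e) {x : P}
    (hx : x ∈ onlyB t) (hl : j ≤ lev x) (hend : lev x = j → (Win.uc x).card = 1) :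
    (lev x = j → (posA j lo hi e x).card = 1 ∧
      ∀ s ∈ posA j lo hi e x, s = lo (j - 1) ∨ s = hi (j - 1) + 1) ∧
    (lev x = j + 1 → (posA j lo hi e x).card ≤ 2 ∧
      ((∀ s ∈ posA j lo hi e x, ∀ s' ∈ posA j lo hi e x, s ≤ s' + 1) ∨
        ∀ s ∈ posA j lo hi e x, s = lo (j - 1) ∨ s = hi (j - 1) + 1)) := by
  classical
  have H := G.H
  have hle : ∀ s ∈ posA j lo hi e x, lev (e j s) = j := fun s hs => by
    obtain ⟨⟨b1, b2⟩, -⟩ := mem_posA.mp hs
    exact C.lev_e j s le_rfl b1 b2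
  constructor
  · intro hlx
    have heq : ∀ s ∈ posA j lo hi e x, e j s = x := by
      intro s hs
      have h1 := hle s hs
      obtain ⟨⟨b1, b2⟩, h3⟩ := mem_posA.mp hs
      by_contra hne
      have := lev_strictAnti (lt_of_le_of_ne h3 (Ne.symm hne))
      omega
    constructor
    · rw [← card_posA C hx, ← hlx, nab_self]
    · intro s hs
      obtain ⟨⟨b1, b2⟩, h3⟩ := mem_posA.mp hs
      exact end_pos C (by omega) b1 b2 (by rw [heq s hs]; exact hend hlx)
  · intro hlx
    have hcov : ∀ s ∈ posA j lo hi e x, x ⋖ e j s := by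
      intro s hs
      have h1 := hle s hs
      obtain ⟨⟨b1, b2⟩, h3⟩ := mem_posA.mp hs
      exact H.covBy_iff.mpr ⟨lt_of_le_of_ne h3 (by intro h; rw [← h] at h1; omega), by omega⟩
    constructor
    · have h1 : (posA j lo hi e x).image (e j) ⊆ Win.uc x := by
        intro y hy
        obtain ⟨s, hs, rfl⟩ := mem_image.mp hy
        exact Win.mem_uc.mpr (hcov s hs)
      have h2 := Finset.card_le_card h1
      rw [Finset.card_image_of_injOn (by
        intro a ha b hb hab
        rw [Finset.mem_coe, mem_posA] at ha hb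
        exact C.inj j a b le_rfl ha.1.1 ha.1.2 hb.1.1 hb.1.2 hab)] at h2
      have := Win.uc_card_le H x
      omega
    · by_cases hall : ∀ s ∈ posA j lo hi e x, ∀ s' ∈ posA j lo hi e x, s ≤ s' + 1
      · exact Or.inl hall
      right
      push Not at hall
      obtain ⟨s0, hs0, s1, hs1, hlt⟩ := hall
      obtain ⟨i, rfl⟩ : ∃ i, j = i + 1 := ⟨j - 1, by omega⟩
      have hne : e (i + 1) s0 ≠ e (i + 1) s1 := by
        intro h
        have h0 := (mem_posA.mp hs0).1
        have h1 := (mem_posA.mp hs1).1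
        have := C.inj (i + 1) s0 s1 le_rfl h0.1 h0.2 h1.1 h1.2 h
        omega
      have hnear := (Win.near_level' G (by omega)).1 x (e (i + 1) s0) (e (i + 1) s1) (by omega)
        (hcov s0 hs0) (hcov s1 hs1) hne
      have htwo : ∀ s ∈ posA (i + 1) lo hi e x, s = s0 ∨ s = s1 := by
        intro s hs
        have h0 := (mem_posA.mp hs0).1
        have h1 := (mem_posA.mp hs1).1
        have h2 := (mem_posA.mp hs).1
        rcases uc_two_of H (hcov s0 hs0) (hcov s1 hs1) hne _ (hcov s hs) with h | h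
        · exact Or.inl (C.inj (i + 1) s s0 le_rfl h2.1 h2.2 h0.1 h0.2 h)
        · exact Or.inr (C.inj (i + 1) s s1 le_rfl h2.1 h2.2 h1.1 h1.2 h)
      rcases hnear with h | ⟨h1, h2, -⟩
      · exfalso
        obtain ⟨y, hy, hy'⟩ := Win.exists_of_ucv (v := e (i + 1) s0) (v' := e (i + 1) s1)
          (by rw [h]; exact one_pos)
        have hyt : y ≤ (t : P) := onlyB_le (onlyB_up hx ((hcov s0 hs0).1.le.trans hy.1.le))
        have hly := (H.covBy_iff.mp hy).2
        rw [hle s0 hs0] at hly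
        obtain ⟨s', c1, c2, c3⟩ := C.surj y hyt (by omega)
        rw [show lev y = i by omega] at c1 c2 c3
        rw [← c3] at hy hy'
        have g0 := (mem_posA.mp hs0).1
        have g1 := (mem_posA.mp hs1).1
        have k1 := (C.cov i s0 s' (by omega) g0.1 g0.2 c1 c2).mp hy
        have k2 := (C.cov i s1 s' (by omega) g1.1 g1.2 c1 c2).mp hy'
        omega
      · intro s hs
        have g := (mem_posA.mp hs).1
        rcases htwo s hs with rfl | rfl
        · exact single_pos C g.1 g.2 h1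
        · exact single_pos C g.1 g.2 h2

end

end Pool.Agent.GaussPoset.Sm
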