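import Pool.Agent.W_448s7s_h5.SrB

/-!
# Fast checks of the tables (MP_448cb3_co, S7, `j ≤ 16`)
-/

namespace Pool.Agent.GaussPoset.Sm

/-- all pairs of a list, up to the order -/
def symAll {α : Type} (p : α → α → Bool) : List α → Bool
  | [] => true
  | s :: l => p s s && (l.all (p s) && symAll p l)

lemma symAll_spec {α : Type} {p : α → α → Bool} (hp : ∀ a b, p a b = p b a) :
    ∀ l : List α, symAll p l = true → ∀ a ∈ l, ∀ b ∈ l, p a b = true := by
  intro l
  induction l with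
  | nil => intro _ a ha; exact absurd ha List.not_mem_nil
  | cons s l ih =>
    intro h a ha b hb
    unfold symAll at h
    rw [Bool.and_eq_true, Bool.and_eq_true, List.all_eq_true] at h
    obtain ⟨h1, h2, h3⟩ := h
    rw [List.mem_cons] at ha hb
    rcases ha with rfl | ha
    · rcases hb with rfl | hb
      · exact h1
      · exact h2 b hb
    · rcases hb with rfl | hb
      · rw [hp]; exact h2 a ha
      · exact ih h3 a ha b hb

/-- dead lines, natural numbers: the line `K (j - w) + a - C` -/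
def deadN (L : List (ℕ × ℕ)) (K C a : ℕ) : Bool :=
  L.all fun p => Nat.blt (p.2 + C) (K * p.1 + a)

/-- dead or in the table -/
def okN (L : List (ℕ × ℕ)) (tb : List (List ℕ)) (K C a : ℕ) : Bool :=
  deadN L K C a || (Nat.ble C (a + 300) && (tb.getD K []).any fun g => Nat.beq g (a + 300 - C))

/-- the table with integers -/
def tabI (tb : List (List ℕ)) : List (List ℤ) :=
  tb.map fun l : List ℕ => l.map fun g : ℕ => (g : ℤ) - 300

/-- the caps as a list -/
def CapL (j W : ℕ) (cap : ℕ → ℤ) (L : List (ℕ × ℕ)) : Prop :=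
  L.length = W + 1 ∧ ∀ w ∈ List.range (W + 1), (L.getD w (0, 0)).1 + w = j ∧
    ((L.getD w (0, 0)).2 : ℤ) = cap w

instance (j W : ℕ) (cap : ℕ → ℤ) (L : List (ℕ × ℕ)) : Decidable (CapL j W cap L) := by
  unfold CapL; infer_instance

lemma dead_of {j W : ℕ} {cap : ℕ → ℤ} {L : List (ℕ × ℕ)} (hL : CapL j W cap L) {K C a : ℕ}
    (h : deadN L K C a = true) : dead j W cap (K : ℤ) ((a : ℤ) - C) = true := by
  unfold dead
  unfold deadN at h
  rw [List.all_eq_true] at h ⊢
  intro w hw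
  obtain ⟨h1, h2⟩ := hL.2 w hw
  rw [List.mem_range] at hw
  have h3 : L.getD w (0, 0) ∈ L := by
    rw [List.getD_eq_getElem _ _ (by rw [hL.1]; exact hw)]
    exact List.getElem_mem _
  have h4 := h _ h3
  rw [Nat.blt_eq] at h4
  rw [decide_eq_true_eq, ← h2]
  have h5 : ((j : ℤ) - w) = ((L.getD w (0, 0)).1 : ℤ) := by
    have : (((L.getD w (0, 0)).1 + w : ℕ) : ℤ) = j := by exact_mod_cast h1
    push_cast at this
    linarith
  rw [h5]
  have h6 : (((L.getD w (0, 0)).2 + C : ℕ) : ℤ) < ((K * (L.getD w (0, 0)).1 + a : ℕ) : ℤ) := by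
    exact_mod_cast h4
  push_cast at h6
  linarith

lemma dead_mono {j : ℤ} {W : ℕ} {cap : ℕ → ℤ} {κ g κ' g' : ℤ} (hj : (W : ℤ) < j)
    (h1 : κ ≤ κ') (h2 : g ≤ g') (h : dead j W cap κ g = true) : dead j W cap κ' g' = true := by
  unfold dead at h ⊢
  rw [List.all_eq_true] at h ⊢
  intro w hw
  have h3 := h w hw
  rw [List.mem_range] at hw
  rw [decide_eq_true_eq] at h3 ⊢
  have h4 : (w : ℤ) ≤ W := by exact_mod_cast Nat.lt_succ_iff.mp hw
  have h5 : κ * (j - w) ≤ κ' * (j - w) := mul_le_mul_of_nonneg_right h1 (by linarith)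
  linarith

lemma okL_of {j W : ℕ} {cap : ℕ → ℤ} {L : List (ℕ × ℕ)} (hL : CapL j W cap L)
    {tb : List (List ℕ)} {K C a : ℕ} (h : okN L tb K C a = true) {κ g : ℤ} (e1 : κ = K)
    (e2 : g = (a : ℤ) - C) : okL j W cap (tabI tb) κ g = true := by
  subst e1 e2
  unfold okN at h
  unfold okL
  rw [Bool.or_eq_true] at h ⊢
  rcases h with h | h
  · exact Or.inl (dead_of hL h)
  · right
    rw [Bool.and_eq_true, List.any_eq_true, Nat.ble_eq] at h
    obtain ⟨h1, g, h2, h3⟩ := h
    rw [Nat.beq_eq] at h3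
    unfold aT tabI
    rw [Bool.and_eq_true, decide_eq_true_eq]
    refine ⟨Int.natCast_nonneg _, ?_⟩
    have h4 : (tb.map fun l : List ℕ => l.map fun g : ℕ => (g : ℤ) - 300).getD K [] =
        (tb.getD K []).map fun g : ℕ => (g : ℤ) - 300 := by
      have := List.getD_map (l := tb) (d := []) (n := K)
        (f := fun l : List ℕ => l.map fun g : ℕ => (g : ℤ) - 300)
      simpa using this
    rw [List.elem_iff, Int.toNat_natCast, h4, List.mem_map]
    refine ⟨g, h2, ?_⟩
    rw [h3]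
    omega

/-- sides of level `j + 1` -/
def fst1 (L : List (ℕ × ℕ)) (tb : List (List ℕ)) (S : List (ℕ × ℕ × ℕ)) : Bool :=
  symAll (fun s s' => okN L tb (2 + (s.1 + s'.1) + (s.2.2 + s'.2.2)) (s.2.1 + s'.2.1) 3) S

lemma chk1_of {j W : ℕ} {cap : ℕ → ℤ} {L : List (ℕ × ℕ)} (hL : CapL j W cap L)
    {tb : List (List ℕ)} {S : List (ℕ × ℕ × ℕ)} (h : fst1 L tb S = true) :
    chk1 j W cap (tabI tb) S = true := by
  unfold chk1
  unfold fst1 at h
  have h1 := symAll_spec (by intro a b; simp only [Nat.add_comm]) S h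
  rw [List.all_eq_true]
  intro s hs
  rw [List.all_eq_true]
  intro s' hs'
  refine okL_of hL (h1 s hs s' hs') ?_ ?_
  · push_cast; ring
  · push_cast; ring

/-- the deeper lines -/
def dl : List (ℕ × ℕ) :=
  [(4, 8), (5, 9), (6, 10), (7, 11), (8, 12), (6, 15), (7, 16), (7, 17), (8, 17), (8, 18),
    (8, 19), (8, 24)]

/-- sides of the levels `> j + 1` -/
def fst2 (L : List (ℕ × ℕ)) (tb : List (List ℕ)) (S : List (ℕ × ℕ × ℕ)) : Bool :=
  symAll (fun s s' => deadN L (4 + (s.1 + s'.1 + (s.2.2 + s'.2.2))) (s.2.1 + s'.2.1) 8 ||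
    dl.all fun p => okN L tb (p.1 + (s.1 + s'.1 + (s.2.2 + s'.2.2))) (s.2.1 + s'.2.1) p.2) S

lemma dl_mem : ∀ q ∈ Finset.Icc 2 4, ∀ n ∈ Finset.range (9 - 2 * q), ∀ d ∈
    Finset.range ((q - 1) * n + 1), n ≤ d → (2 * q + n, q * q + 2 * q + d) ∈ dl := by
  decide +kernel

lemma chk2_of {j W : ℕ} (hW : W < j) {cap : ℕ → ℤ} {L : List (ℕ × ℕ)} (hL : CapL j W cap L)
    {tb : List (List ℕ)} {S : List (ℕ × ℕ × ℕ)} (h : fst2 L tb S = true) :
    chk2 j W cap (tabI tb) S = true := by
  unfold chk2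
  unfold fst2 at h
  have h1 := symAll_spec (by intro a b; simp only [Nat.add_comm]) S h
  rw [List.all_eq_true]
  intro s hs
  rw [List.all_eq_true]
  intro s' hs'
  have h2 := h1 s hs s' hs'
  rw [List.all_eq_true]
  intro q hq
  rw [List.mem_range] at hq
  rw [Bool.or_eq_true, decide_eq_true_eq]
  rcases Nat.lt_or_ge q 2 with hq2 | hq2
  · exact Or.inl hq2
  right
  rw [List.all_eq_true]
  intro n hn
  rw [List.mem_range] at hn
  rw [List.all_eq_true]
  intro d hd
  rw [List.mem_range] at hd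
  rw [Bool.or_eq_true, decide_eq_true_eq]
  rcases Nat.lt_or_ge d n with hdn | hdn
  · exact Or.inl hdn
  right
  rw [Bool.or_eq_true] at h2
  have hq3 : q * q = q * q := rfl
  rcases h2 with h2 | h2
  · unfold okL
    rw [Bool.or_eq_true]
    left
    have h3 := dead_of hL h2
    refine dead_mono (by exact_mod_cast hW) ?_ ?_ h3
    · push_cast
      have : (2 : ℤ) ≤ q := by exact_mod_cast hq2
      have : (0 : ℤ) ≤ n := Int.natCast_nonneg n
      linarith
    · push_cast
      have h4 : (2 : ℤ) ≤ q := by exact_mod_cast hq2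
      have : (0 : ℤ) ≤ d := Int.natCast_nonneg d
      nlinarith
  · rw [List.all_eq_true] at h2
    have h3 := h2 _ (dl_mem q (Finset.mem_Icc.mpr ⟨hq2, by omega⟩) n (Finset.mem_range.mpr hn) d
      (Finset.mem_range.mpr hd) hdn)
    refine okL_of hL h3 ?_ ?_
    · push_cast; ring
    · push_cast; ring

end Pool.Agent.GaussPoset.Sm
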