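import Pool.Agent.W_448s7s_h5.SrC
import Pool.Agent.W_448s7s_h5.SrD

/-!
# The pairs of ends which are left, without fold ends (MP_448cb3_co, S7, `j ≤ 16`)
-/

namespace Pool.Agent.GaussPoset.Sm

set_option linter.unusedSectionVars false

open Finset Wd

universe u

variable {P : Type u} [Fintype P] [PartialOrder P] [DecidableEq P] {r j w : ℕ}

/-- there is no join of level `j + 1` at a fold end -/
def NF (P : Type u) [Fintype P] [PartialOrder P] [DecidableEq P] (j : ℕ) : Prop :=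
  ∀ z x x' : P, Cg z x x' → lev z = j + 1 → ¬ Fold j x

lemma NF.noFo (h : NF P j) : NoFo P j := fun _ z x x' hz hl => h z x x' hz hl

lemma nf_odd (hj : j % 2 = 1) : NF P j := fun _ _ _ _ _ hf => by
  have := hf.2.1
  omega

lemma noFo_big (hj : 12 ≤ j) : NoFo P j := fun h => absurd h (by omega)

lemma NF.sok (h : NF P j) (H : Gr P r) {z x x' : P} (hz : Cg z x x') (hl : lev z = j + 1) :
    Sok j x :=
  ⟨fun hf => by
    have := hf.1
    have := (hz.lev_eq H).1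
    omega, fun _ => h z x x' hz hl⟩

/-- both exclusions -/
def XO (X Y : ℕ × ℕ × ℕ → ℕ × ℕ × ℕ → Bool) (s s' : ℕ × ℕ × ℕ) : Bool := X s s' || Y s s'

lemma noP_XO {X Y : ℕ × ℕ × ℕ → ℕ × ℕ × ℕ → Bool} (h1 : NoP P j X) (h2 : NoP P j Y) :
    NoP P j (XO X Y) := by
  intro z x x' hz hl s s' d d'
  unfold XO
  rw [h1 z x x' hz hl s s' d d', h2 z x x' hz hl s s' d d']
  rfl

/-- **the pairs of ends which are left** -/
theorem Ctx.leftF {lo hi : Tops P → ℕ → ℕ} {e : Tops P → ℕ → ℕ → P} (K : Ctx P r j lo hi e)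
    {X : ℕ × ℕ × ℕ → ℕ × ℕ × ℕ → Bool} (hN : NoP P j X) (hF : NF P j)
    {W : ℕ} {cap : ℕ → ℤ} {tab : List (List ℤ)} {E S1 S2 : List (ℕ × ℕ × ℕ)}
    (T : Tab' j W cap tab E S1 S2 X)
    {nO nE : ℕ → ℤ → Bool} {lb : ℕ → ℤ}
    (hB : ∀ w ≤ W, ∃ V, WinB P j w (cap w) (nO w) (nE w) (lb w) V) (N R : ℕ)
    {z x x' : P} (h : Cg z x x') (hl : lev z = j + 1) :
    ∃ s s', (s, s') ∈ rest j E X (ubd j W cap lb tab nO nE N R) ∧ Dt j x s ∧ Dt j x' s' :=
  K.left' hN hF.noFo T hB N R h hl (hF.sok K.gt.H h hl) (hF.sok K.gt.H h.symm hl)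

/-- the data of an element are unique -/
lemma Dt.uniq {x : P} {s s' : ℕ × ℕ × ℕ} (h : Dt j x s) (h' : Dt j x s') : s = s' := by
  obtain ⟨a1, a2, a3⟩ := h
  obtain ⟨b1, b2, b3⟩ := h'
  refine Prod.ext ?_ (Prod.ext ?_ ?_)
  · rw [a1] at b1
    exact_mod_cast b1
  · rw [a2] at b2
    exact_mod_cast b2
  · omega

end Pool.Agent.GaussPoset.Sm
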