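import Pool.Agent.W_448s7s_h5.SrE

/-!
# S7 for `j = 15`: windows `0, …, 3` (MP_448cb3_co)
-/

namespace Pool.Agent.GaussPoset.Sm

set_option linter.unusedSectionVars false

open Finset Wd

universe u

variable {P : Type u} [Fintype P] [PartialOrder P] [DecidableEq P] {r : ℕ}

/-- ends -/
def Er15 : List (ℕ × ℕ × ℕ) :=
    [(0, 0, 0), (1, 2, 1), (1, 3, 0), (1, 4, 0), (1, 5, 0), (1, 6, 0), (1, 7, 0), (3, 9, 1),
    (5, 20, 1), (5, 25, 0), (10, 70, 0)]

/-- sides, one level deeper -/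
def Sr15a : List (ℕ × ℕ × ℕ) :=
    [(0, 0, 0), (0, 0, 1), (1, 1, 0), (1, 1, 1), (1, 2, 0), (1, 3, 0), (1, 4, 0), (1, 5, 0),
    (1, 6, 0), (1, 7, 0), (2, 3, 1), (3, 6, 0), (3, 6, 1), (3, 9, 0), (4, 7, 1), (4, 10, 1),
    (5, 12, 1), (5, 15, 0), (5, 15, 1), (5, 20, 0), (5, 25, 0), (6, 13, 1), (6, 16, 1),
    (6, 21, 1), (7, 23, 1), (7, 28, 1), (8, 24, 1), (8, 31, 0), (8, 31, 1), (9, 33, 0),
    (10, 34, 1), (10, 70, 0)]

/-- sides, two or more levels deeper -/
def Sr15b : List (ℕ × ℕ × ℕ) :=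
    [(0, 0, 0), (0, 0, 1), (1, 1, 0), (1, 1, 1), (1, 1, 2), (1, 2, 0), (1, 3, 0), (1, 4, 0),
    (1, 5, 0), (1, 6, 0), (1, 7, 0), (2, 3, 0), (2, 3, 1), (2, 3, 2), (3, 6, 0), (3, 6, 1),
    (3, 9, 0), (4, 7, 1), (4, 7, 2), (4, 7, 3), (4, 10, 0), (4, 10, 1), (4, 10, 2), (5, 12, 0),
    (5, 12, 1), (5, 15, 0), (5, 15, 1), (5, 20, 0), (5, 25, 0), (6, 13, 1), (6, 13, 2),
    (6, 13, 3), (6, 16, 1), (6, 16, 2), (6, 21, 0), (6, 21, 1), (7, 23, 0), (7, 23, 1),
    (7, 28, 0), (7, 28, 1), (8, 24, 1), (8, 24, 2), (8, 24, 3), (8, 31, 0), (8, 31, 1),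
    (9, 33, 0), (10, 34, 1), (10, 34, 2), (10, 70, 0), (11, 35, 1), (11, 35, 2), (11, 35, 3),
    (11, 35, 4)]

lemma chkEr15 : ChkE 15 Er15 := by decide +kernel

lemma chkSr15a : ChkT 15 Sr15a := by decide +kernel

lemma chkSr15b : ChkS 15 2 Sr15b := by decide +kernel

/-- caps -/
def cr15 (w : ℕ) : ℤ :=
  if w = 0 then cap0 15 else if w = 1 then ((15 * (15 - 1) / 2 : ℕ) : ℤ) - 1 else if w = 2 then ((87 : ℕ) : ℤ) else ((72 : ℕ) : ℤ)

/-- even noise -/
def ner15 (w : ℕ) (V : ℤ) : Bool :=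
  if w = 0 then false else if w = 1 then nz 15 V else if w = 2 then (nz ((15 + 1 - 2 : ℕ) : ℤ) V || ([] : List ℤ).elem V) else (nz ((15 + 1 - 3 : ℕ) : ℤ) V || ([] : List ℤ).elem V)

/-- odd noise -/
def nor15 (w : ℕ) (V : ℤ) : Bool :=
  if w = 0 then false else if w = 1 then false else if w = 2 then ([] : List ℤ).elem V else ([] : List ℤ).elem V

/-- lower bounds -/
def lwr15 (w : ℕ) : ℤ :=
  if w = 0 then 0 else if w = 1 then 0 else if w = 2 then (0) else (0)

lemma balr15 {lo hi : Tops P → ℕ → ℕ} {e : Tops P → ℕ → ℕ → P} (K : Ctx P r 15 lo hi e)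
    (hF : NoFo P 15) (hJ : ∃ z : P, Hul.Jn z) :
    ∀ w ≤ 3, ∃ V, WinB P 15 w (cr15 w) (nor15 w) (ner15 w) (lwr15 w) V := by
  intro w hw
  have : w = 0 ∨ w = 1 ∨ w = 2 ∨ w = 3 := by omega
  rcases this with rfl | rfl | rfl | rfl
  · exact K.win0 hJ
  · exact K.win1 (by norm_num) chkEr15 (by decide +kernel) (by decide +kernel) hJ
  · exact K.win23' (w := 2) (cT := 87) (LE := []) (LO := []) (lb := 0) hF (by norm_num)
      (by norm_num) chkEr15 (by decide +kernel)
      (fun _ => by decide +kernel)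
      (by decide +kernel) (by decide +kernel)
      (fun _ => by decide +kernel)
      (fun h => absurd h (by norm_num))
      (fun h => absurd h (by norm_num))
      (by norm_num) (by norm_num) (by norm_num) (by decide +kernel) (by decide +kernel) hJ
  · exact K.win23' (w := 3) (cT := 72) (LE := []) (LO := []) (lb := 0) hF (by norm_num)
      (by norm_num) chkEr15 (by decide +kernel)
      (fun _ => by decide +kernel)
      (by decide +kernel) (by decide +kernel)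
      (fun _ => by decide +kernel)
      (fun h => absurd h (by norm_num))
      (fun h => absurd h (by norm_num))
      (by norm_num) (by norm_num) (by norm_num) (by decide +kernel) (by decide +kernel) hJ

/-- caps as a list -/
def crl15 : List (ℕ × ℕ) := [(15, 122), (14, 104), (13, 87), (12, 72)]

lemma capr15 : CapL 15 3 cr15 crl15 := by decide +kernel

/-- lines with `g + 300`, by `κ` -/
def tr15 : List (List ℕ) :=
  [[300], [293, 294, 295, 296, 297, 298], [286, 287, 288, 289, 290, 291, 292, 293, 294, 295,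
    296, 303], [291, 296, 297, 298, 299, 300, 301, 302, 303], [284, 285, 286, 287, 288, 289,
    290, 291, 292, 293, 294, 295, 296, 297, 298, 299, 300, 301, 302, 303, 308], [275, 280, 294,
    295, 296, 297, 298, 299, 300, 301, 302, 303, 304, 305, 306, 307, 308, 309], [268, 269, 270,
    271, 272, 273, 274, 275, 276, 277, 278, 282, 287, 288, 289, 290, 291, 292, 293, 294, 295,
    296, 297, 298, 299, 300, 301, 302, 303, 304, 305, 306, 307, 308, 309, 310, 315], [278, 283,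
    288, 290, 291, 292, 293, 294, 295, 296, 297, 298, 299, 300, 301, 302, 303, 304, 305, 306,
    307, 308, 309, 310, 311, 312, 313, 314, 315, 316, 317], [266, 271, 272, 273, 274, 275, 276,
    277, 278, 279, 280, 281, 282, 283, 284, 285, 286, 287, 288, 289, 290, 291, 292, 293, 294,
    295, 296, 297, 298, 299, 300, 301, 302], [277, 281, 282, 283, 284, 285, 286, 287], [250,
    255, 260, 269, 272], [], [233], [226, 227]]

/-- lines with `g`, by `κ` -/
def Lr15 : List (List ℤ) :=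
  [[0], [-7, -6, -5, -4, -3, -2], [-14, -13, -12, -11, -10, -9, -8, -7, -6, -5, -4, 3], [-9,
    -4, -3, -2, -1, 0, 1, 2, 3], [-16, -15, -14, -13, -12, -11, -10, -9, -8, -7, -6, -5, -4,
    -3, -2, -1, 0, 1, 2, 3, 8], [-25, -20, -6, -5, -4, -3, -2, -1, 0, 1, 2, 3, 4, 5, 6, 7, 8,
    9], [-32, -31, -30, -29, -28, -27, -26, -25, -24, -23, -22, -18, -13, -12, -11, -10, -9,
    -8, -7, -6, -5, -4, -3, -2, -1, 0, 1, 2, 3, 4, 5, 6, 7, 8, 9, 10, 15], [-22, -17, -12, -10,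
    -9, -8, -7, -6, -5, -4, -3, -2, -1, 0, 1, 2, 3, 4, 5, 6, 7, 8, 9, 10, 11, 12, 13, 14, 15,
    16, 17], [-34, -29, -28, -27, -26, -25, -24, -23, -22, -21, -20, -19, -18, -17, -16, -15,
    -14, -13, -12, -11, -10, -9, -8, -7, -6, -5, -4, -3, -2, -1, 0, 1, 2], [-23, -19, -18, -17,
    -16, -15, -14, -13], [-50, -45, -40, -31, -28], [], [-67], [-74, -73]]

lemma Lr15_eq : Lr15 = tabI tr15 := by decide +kernel

lemma fr15a : fst1 crl15 tr15 Sr15a = true := by decide +kernel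

lemma fr15b : fst2 crl15 tr15 Sr15b = true := by decide +kernel

theorem tabr15 : Tab' 15 3 cr15 Lr15 Er15 Sr15a Sr15b (XE (10, 70, 0)) := by
  refine ⟨by norm_num, chkEr15, chkSr15a, chkSr15b, ?_, ?_, ?_, ?_, ?_, ?_, ?_⟩
  · decide +kernel
  · decide +kernel
  · decide +kernel
  · decide +kernel
  · rw [Lr15_eq]
    exact chk1_of capr15 fr15a
  · rw [Lr15_eq]
    exact chk2_of (by norm_num) capr15 fr15b
  · decide +kernel

/-- the pairs of ends which are left -/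
def Rr15 : List ((ℕ × ℕ × ℕ) × (ℕ × ℕ × ℕ)) :=
    [((5, 20, 1), (5, 20, 1))]

lemma restr15 : rest 15 Er15 (XE (10, 70, 0)) (ubd 15 3 cr15 lwr15 Lr15 nor15 ner15 250 19) = Rr15 := by
  decide +kernel

/-- **S7 for `j = 15`**, the joins of level `16` which are left -/
theorem leftr15 {lo hi : Tops P → ℕ → ℕ} {e : Tops P → ℕ → ℕ → P} (K : Ctx P r 15 lo hi e) (hE : NoD P 15 (10, 70, 0))
    {z x x' : P} (h : Cg z x x') (hl : lev z = 16) :
    ∃ s s', (s, s') ∈ Rr15 ∧ Dt 15 x s ∧ Dt 15 x' s' := by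
  have h1 := K.leftF (noP_XE hE) (nf_odd (by norm_num)) tabr15 (balr15 K (NF.noFo (nf_odd (by norm_num))) ⟨z, h.jn⟩) 250 19 h hl
  rw [restr15] at h1
  exact h1

end Pool.Agent.GaussPoset.Sm
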