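import Pool.Agent.W_448s7s_h5.StA
import Pool.Agent.W_448s7_h27.EwS
import Pool.Agent.W_448s7_h27.PoD

/-!
Level `11`: no element of level `12` is below the end `(5, 25)` of the `E7` strip alone
(MP_448cb3_co, S7).
-/

namespace Pool.Agent.GaussPoset.Ec

set_option linter.unusedSectionVars false

open Polynomial Finset Sm Wd Cp W4 Cl

universe u

variable {P : Type u} [Fintype P] [PartialOrder P] [DecidableEq P] {r j : ℕ}

lemma row11 : losW 4 w7 11 = 3 ∧ hisW 4 w7 11 = 4 := by decide +kernel

lemma nb11_3 : ∀ k < 12, 4 ≤ k → Ew.nbW 4 w7 11 3 k = if k ≤ 8 then 2 else 1 := by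
  decide +kernel

lemma nb11_4 : ∀ k < 12, 4 ≤ k → Ew.nbW 4 w7 11 4 k =
    if k ≤ 7 then 2 else if k = 8 then 3 else if k ≤ 10 then 2 else 1 := by
  decide +kernel

lemma th11 : E7t4 11 3 = 4 ∧ E7t4 11 4 = 3 := by decide +kernel

/-- above a pendant there is what is above its cover -/
lemma nab_pend11 {z x : P} (hzx : z ⋖ x) (honly : ∀ y, z ⋖ y → y = x) {k : ℕ} (hk : k < lev z) :
    nab k z = nab k x := nab_only honly hzx hk

/-- **the cheapest unnatural elements at window `4`, level `11`**: cost `40`, the pendants below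
the end `(5, 25)` -/
theorem cost11 {N : Tops P → Finset P} {θf : Tops P → (ℕ → ℕ → ℕ) → P → ℕ}
    {lo hi : Tops P → ℕ → ℕ} {e : Tops P → ℕ → ℕ → P} (H : Gr P r)
    (hg : ∀ l, l < 11 → Win.Good P l) (HN : NatSys N)
    (C : ∀ t : Tops P, Comp 11 (t : P) (lo t) (hi t) (e t))
    (hlow : ∀ t : Tops P, ∀ x, x ≤ (t : P) → lev x ≤ 11 → x ∈ N t)
    (F : ∀ t, ∃ M θ4 b d, FineY 11 t (lo t) (hi t) (e t) M θ4 b (N t) (θf t) d)
    {z : P} (hz : z ∈ bdR (unnat N)) :
    40 < cst 4 (hcan (unnat N) (fun x => θf (topOf x) E7t4 x)) z ∨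
      (hcan (unnat N) (fun x => θf (topOf x) E7t4 x) z = 5 ∧ lev z = 12 ∧
        cst 4 (hcan (unnat N) (fun x => θf (topOf x) E7t4 x)) z = 40 ∧
        ∀ k, 4 ≤ k → k ≤ 11 → nab k z = if k ≤ 8 then 2 else 1) := by
  classical
  obtain ⟨x, hxR, hzx, hh⟩ := hcan_spec (θ := fun x => θf (topOf x) E7t4 x) hz
  set h := hcan (unnat N) (fun x => θf (topOf x) E7t4 x) with hdef
  have hzR := (mem_filter.mp hz).1
  have hxN : x ∈ N (topOf x) := HN.mem_iff.mpr ⟨hxR, rfl⟩
  have hlz := (H.covBy_iff.mp hzx).2
  have hl12 : 12 ≤ lev z := by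
    by_contra hcon
    exact mem_unnat.mp hzR (topOf x)
      (hlow _ z (hzx.le.trans (HN.le_t _ x hxN)) (by omega))
  obtain ⟨M, θ4, b, d, F⟩ := F (topOf x)
  rcases F.kinds HN H (C (topOf x)) le_rfl hzR hxN hzx (by omega) with ⟨h1, h2⟩ | ⟨D, h1, h2⟩
  · left
    have h3 := cst4_ge (h := h) (z := z) (fun k => if k ≤ 10 then 2 else 1) 4 hl12
      (by rw [hh]; omega) (by
        intro k hk hk'
        split_ifs with hc
        · exact h2 k hk hc
        · exact one_le_nab (by omega))
    exact lt_of_lt_of_le (by decide +kernel) h3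
  · have hlx : lev x = 11 := by
      rw [h1, mem_lowPart] at hxN
      omega
    obtain ⟨r1, r2⟩ := D.rows (C (topOf x))
    obtain ⟨s, a1, a2, a3⟩ := (C (topOf x)).surj x (le_topOf x) hlx.le
    rw [hlx] at a1 a2 a3
    have q1 := r1 11 le_rfl
    have q2 := r2 11 le_rfl
    rw [row11.1] at q1
    rw [row11.2] at q2
    have hxo : e (topOf x) 11 s ∈ onlyB (topOf x) := by
      rw [a3, mem_onlyB]
      intro v hv hxv
      exact top_eq H hg hlx.le hv (topOf x).2 hxv (le_topOf x)
    have hnb : ∀ k, k ≤ 11 → nab k x = Ew.nbW 4 w7 11 s k := by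
      intro k hk
      have := Ew.nab_word D (C (topOf x)) H hg a1 a2 hxo hk
      rwa [a3] at this
    have hth : θf (topOf x) E7t4 x = E7t4 11 s := by
      rw [h2]
      have h9 := thC_e (C (topOf x)) E7t4 le_rfl a1 a2
      rwa [a3] at h9
    rw [hth] at hh
    have hs : s = 3 ∨ s = 4 := by omega
    rcases hs with rfl | rfl
    · rw [th11.1] at hh
      by_cases honly : ∀ y, z ⋖ y → y = x
      · right
        have hnz : ∀ k, 4 ≤ k → k ≤ 11 → nab k z = if k ≤ 8 then 2 else 1 := by
          intro k hk hk'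
          rw [nab_pend11 hzx honly (by omega), hnb k (by omega), nb11_3 k (by omega) hk]
        refine ⟨hh, by omega, ?_, hnz⟩
        have h12 : nab 12 z = 1 := by
          have := nab_self (z := z)
          rwa [show lev z = 12 by omega] at this
        rw [cst_eq, hh, show lev z = 12 by omega]
        rw [Finset.sum_range_succ, h12, ← Finset.sum_subset
          (s₁ := (range 12).filter (fun k => 4 ≤ k)) (Finset.filter_subset _ _) (by
            intro k hk hk'
            rw [mem_filter, not_and] at hk'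
            have h9 := hk' hk
            have : k - 4 = 0 := by omega
            rw [this, Nat.min_zero, Nat.zero_mul])]
        rw [Finset.sum_congr rfl (g := fun k => min (4 + 1) (k - 4) * (if k ≤ 8 then 2 else 1))
          (by
            intro k hk
            rw [mem_filter, mem_range] at hk
            rw [hnz k hk.2 (by omega)])]
        decide +kernel
      · left
        push Not at honly
        obtain ⟨y, hy, hne⟩ := honly
        have hly := (H.covBy_iff.mp hy).2
        have h3 := cst4_ge (h := h) (z := z)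
          (fun k => if k ≤ 8 then 2 else if k = 11 then 2 else 1) 5 hl12 (by omega) (by
            intro k hk hk'
            split_ifs with hc hc2
            · refine le_trans ?_ (nab_mono hzx.le)
              rw [hnb k (by omega), nb11_3 k (by omega) (by omega), if_pos hc]
            · subst hc2
              exact two_le_nab hy.le hzx.le (by omega) hlx hne
            · exact one_le_nab (by omega))
        exact lt_of_lt_of_le (by decide +kernel) h3
    · left
      rw [th11.2] at hh
      have h3 := cst4_ge (h := h) (z := z)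
        (fun k => if k ≤ 7 then 2 else if k = 8 then 3 else if k ≤ 10 then 2 else 1) 4 hl12
        (by omega) (by
          intro k hk hk'
          by_cases hk12 : k = 12
          · subst hk12
            exact one_le_nab (by omega)
          · refine le_trans (le_of_eq ?_) (nab_mono hzx.le)
            rw [hnb k (by omega), nb11_4 k (by omega) (by omega)])
      exact lt_of_lt_of_le (by decide +kernel) h3

/-- **Level `11`: nothing of level `12` is below the end `(5, 25)` alone.** -/
theorem no_b_pend11 {lo hi : Tops P → ℕ → ℕ} {e : Tops P → ℕ → ℕ → P} (K : Ctx P r 11 lo hi e)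
    {t : Tops P} (D : WordD 11 4 w7 (lo t) (hi t)) {z : P} (hz : z ⋖ e t 11 3)
    (honly : ∀ y, z ⋖ y → y = e t 11 3) : False := by
  classical
  have H := K.gt.H
  have hg := K.gt.good
  have hgr := H.gradedBelow
  choose M θ4 N θf d F using fun s => exists_fine K.gt le_rfl (K.comp s) (K.shape s)
  choose B hB using fun s => (F s).nat (K.comp s) H hg (by omega)
  have FD := farData_of_tops hgr hB
  have HN := natSys_of_tops hB
  rw [← card_level H hg K.comp (i := 4) (by omega)] at FD
  have hlow : ∀ s : Tops P, ∀ x, x ≤ (s : P) → lev x ≤ 11 → x ∈ N s := by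
    intro s x hx hl
    rcases F s with ⟨h1, h2, h3, h4, h5, h6, h7⟩ | ⟨c, Nc, co, h0, h1, h2, h3, h4, h5, h6⟩ |
      ⟨h0, h1, h2, h3, h4, h5, h6, h7, h8⟩ | ⟨Nc, co, h0, h1, h2, h3, h4, h5, h6⟩
    · rw [h4, h1]
      exact h7 x hx hl
    · rw [h4, h1, mem_natR]
      exact Or.inl (h0.strip (mem_lowPart.mpr ⟨hx, hl⟩))
    · rw [h4]
      exact mem_lowPart.mpr ⟨hx, hl⟩
    · rw [h4, h1, mem_natS]
      exact Or.inl (h0.strip (mem_lowPart.mpr ⟨hx, hl⟩))
  have key := fun {z : P} (hz : z ∈ bdR (unnat N)) => cost11 (θf := θf) H hg HN K.comp hlow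
    (fun s => ⟨_, _, _, _, F s⟩) hz
  have hdvd := dvd_Z H.gauss 4 40
  have hcard : 1 ≤ (lv P 4).card := by
    obtain ⟨x, hx, hl⟩ := hex4 (K.comp t) (by omega)
    exact Finset.card_pos.mpr ⟨x, mem_lv.mpr hl⟩
  have hsum := FD.sign_sum (n := 40) (fun z hz => by
    rcases key hz with h1 | ⟨-, -, h1, -⟩ <;> omega) hdvd (c0 := (lv P 4).card - 1) (by omega)
    (by
      intro z hz hc
      rcases key hz with h1 | ⟨h1, h2, h3, h4⟩
      · omega
      · rw [h1, h4 4 le_rfl (by omega), h4 (4 + 5) (by omega) (by omega)]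
        norm_num
        omega)
  have hone : ∀ z ∈ (bdR (unnat N)).filter (fun z =>
      cst 4 (hcan (unnat N) (fun x => θf (topOf x) E7t4 x)) z = 40 ∧
      (lv P 4).card - 1 + nab 4 z = (lv P 4).card +
        nab (4 + hcan (unnat N) (fun x => θf (topOf x) E7t4 x) z) z),
      (-1 : ℤ) ^ (nst 4 (hcan (unnat N) (fun x => θf (topOf x) E7t4 x)) z) = 1 := by
    intro z hz
    rw [mem_filter] at hz
    rcases key hz.1 with h1 | ⟨h1, h2, h3, h4⟩
    · omega
    · rw [nst_eq, h1, Finset.sum_congr rfl (g := fun _ => 2) (by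
        intro k hk
        rw [mem_range] at hk
        rw [h4 (4 + k) (by omega) (by omega), if_pos (by omega)])]
      norm_num
  rw [Finset.sum_congr rfl hone, Finset.sum_const, nsmul_eq_mul, mul_one] at hsum
  have hempty : ((bdR (unnat N)).filter (fun z =>
      cst 4 (hcan (unnat N) (fun x => θf (topOf x) E7t4 x)) z = 40 ∧
      (lv P 4).card - 1 + nab 4 z = (lv P 4).card +
        nab (4 + hcan (unnat N) (fun x => θf (topOf x) E7t4 x) z) z)) = ∅ := by
    rw [← Finset.card_eq_zero]
    exact_mod_cast hsum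
  -- the pendant is in the set
  obtain ⟨r1, r2⟩ := D.rows (K.comp t)
  have q1 := r1 11 le_rfl
  have q2 := r2 11 le_rfl
  rw [row11.1] at q1
  rw [row11.2] at q2
  have hle := (K.comp t).le_t 11 3 le_rfl (by omega) (by omega)
  have hlx := (K.comp t).lev_e 11 3 le_rfl (by omega) (by omega)
  have hlz := (H.covBy_iff.mp hz).2
  have hxN : e t 11 3 ∈ N t := hlow t _ hle (by omega)
  have hNt : N t = lowPart 11 (t : P) ∧ θf t E7t4 = thC (lo t) (hi t) (e t) E7t4 := by
    have h3 : lo t 3 = hi t 3 := by rw [(D.trunk 3 (by omega)).1, (D.trunk 3 (by omega)).2]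
    have h4 := D.row
    rcases F t with ⟨h1, h2, h3', h4', h5, h6, h7⟩ | ⟨c, Nc, co, h0, h1, h2, h3', h4', h5, h6, h7⟩ |
      ⟨h0, h1, h2, h3', h4', h5, h6, h7, h8⟩ | ⟨Nc, co, h0, h1, h2, h3', h4', h5, h6⟩
    · omega
    · omega
    · exact ⟨h4', by rw [h5]⟩
    · omega
  have hzR : z ∈ unnat N := by
    rw [mem_unnat]
    intro s hzs
    have h1 := HN.top_eq hzs t.2 (hz.le.trans hle)
    have h2 : s = t := Subtype.ext h1.symm
    rw [h2, hNt.1, mem_lowPart] at hzs
    omega
  have hxR : e t 11 3 ∉ unnat N := fun h => mem_unnat.mp h t hxN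
  have hzb : z ∈ bdR (unnat N) := mem_filter.mpr ⟨hzR, _, hxR, hz⟩
  have htop : topOf (e t 11 3) = t := HN.topOf_eq hxN
  have hh : hcan (unnat N) (fun x => θf (topOf x) E7t4 x) z = 5 := by
    obtain ⟨x, -, hzx, hx⟩ := hcan_spec (θ := fun x => θf (topOf x) E7t4 x) hzb
    rw [hx, honly x hzx, htop, hNt.2, thC_e (K.comp t) E7t4 le_rfl (by omega) (by omega),
      th11.1]
  have hxo : e t 11 3 ∈ onlyB t := by
    rw [mem_onlyB]
    intro v hv hxv
    exact top_eq H hg hlx.le hv t.2 hxv hle
  have hnz : ∀ k, 4 ≤ k → k ≤ 11 → nab k z = if k ≤ 8 then 2 else 1 := by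
    intro k hk hk'
    rw [nab_pend11 hz honly (by omega), Ew.nab_word D (K.comp t) H hg (by omega) (by omega) hxo hk',
      nb11_3 k (by omega) hk]
  have hcst : cst 4 (hcan (unnat N) (fun x => θf (topOf x) E7t4 x)) z = 40 := by
    rcases key hzb with h1 | ⟨-, -, h1, -⟩
    · exfalso
      have h12 : nab 12 z = 1 := by
        have := nab_self (z := z)
        rwa [show lev z = 12 by omega] at this
      have h13 : cst 4 (hcan (unnat N) (fun x => θf (topOf x) E7t4 x)) z = 40 := by
        rw [cst_eq, hh, show lev z = 12 by omega]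
        rw [Finset.sum_range_succ, h12, ← Finset.sum_subset
          (s₁ := (range 12).filter (fun k => 4 ≤ k)) (Finset.filter_subset _ _) (by
            intro k hk hk'
            rw [mem_filter, not_and] at hk'
            have h9 := hk' hk
            have : k - 4 = 0 := by omega
            rw [this, Nat.min_zero, Nat.zero_mul])]
        rw [Finset.sum_congr rfl (g := fun k => min 5 (k - 4) * (if k ≤ 8 then 2 else 1))
          (by
            intro k hk
            rw [mem_filter, mem_range] at hk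
            rw [hnz k hk.2 (by omega)])]
        decide +kernel
      omega
    · exact h1
  have hmem : z ∈ (bdR (unnat N)).filter (fun z =>
      cst 4 (hcan (unnat N) (fun x => θf (topOf x) E7t4 x)) z = 40 ∧
      (lv P 4).card - 1 + nab 4 z = (lv P 4).card +
        nab (4 + hcan (unnat N) (fun x => θf (topOf x) E7t4 x) z) z) := by
    rw [mem_filter]
    refine ⟨hzb, hcst, ?_⟩
    rw [hh, hnz 4 le_rfl (by omega), hnz (4 + 5) (by omega) (by omega)]
    norm_num
    omega
  rw [hempty] at hmem
  exact absurd hmem (Finset.notMem_empty z)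

end Pool.Agent.GaussPoset.Ec

namespace Pool.Agent.GaussPoset.Sm

set_option linter.unusedSectionVars false

open Finset Wd Cl

universe u

variable {P : Type u} [Fintype P] [PartialOrder P] [DecidableEq P] {r : ℕ}
  {lo hi : Tops P → ℕ → ℕ} {e : Tops P → ℕ → ℕ → P}

/-- the data `(5, 25)` of a side of level `12` belong to `E7` only -/
lemma chkW11 : ∀ a ∈ range (11 + 1), 2 ≤ a → ∀ w ∈ wds 11 a, w.length = 11 - a →
    ∀ A ∈ (Icc (Lw w (w.length + 3)) (Hw w (w.length + 3))).powerset, A.Nonempty →
      condA 1 w A → mA w A = 5 → dA w A = 25 → A.card - 1 = 0 → a = 4 ∧ w = w7.take 7 := by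
  decide +kernel

lemma mX11_4 : ∑ k ∈ range 11, ((Ew.nbW 4 w7 11 4 k : ℤ) - 1) ≠ 5 := by decide +kernel

/-- **Level `11`: no join of level `13` has a side below the end `(5, 25)` alone.** -/
theorem Ctx.noSd11 (K : Ctx P r 11 lo hi e) : NoSd P 11 (5, 25, 0) := by
  intro z x x' h hlz hm hc hn
  simp only at hm hc hn
  have H := K.gt.H
  have hg := K.gt.good
  obtain ⟨l1, l2⟩ := h.lev_eq H
  have hlx : lev x = 12 := by omega
  have hn1 : nab 11 x = 1 := by
    have : (nab 11 x : ℤ) = 1 := by push_cast at hn; omega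
    exact_mod_cast this
  obtain ⟨y, hy⟩ : ∃ y, x ⋖ y := by
    obtain ⟨y, hxy, hly⟩ := exists_above' (x := x) (j := 11) (by omega)
    have hlt : x < y := lt_of_le_of_ne hxy (by rintro rfl; omega)
    obtain ⟨w, hw, -⟩ := Hul.exists_cov hlt
    exact ⟨w, hw⟩
  have hly : lev y = 11 := by
    have := (H.covBy_iff.mp hy).2
    omega
  have honly : ∀ w, x ⋖ w → w = y := by
    intro w hw
    by_contra hne
    have hlw := (H.covBy_iff.mp hw).2
    have := two_le_nab (l := 11) hw.le hy.le (by omega) hly hne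
    omega
  have hf : ¬ Fatt 11 x := by
    intro hf
    have h1 : (8 : ℤ) ≤ mX 11 x := by
      unfold GaussPoset.mX
      have h2 : ∑ k ∈ range 11, (if 2 ≤ k ∧ k ≤ 9 then (1 : ℤ) else 0) ≤
          ∑ k ∈ range 11, ((nab k x : ℤ) - 1) := by
        refine Finset.sum_le_sum fun k hk => ?_
        rw [mem_range] at hk
        have h3 := one_le_nab (l := k) (z := x) (by omega)
        split_ifs with hc
        · have h4 := hf.2 k hc.1 (by omega)
          omega
        · omega
      refine le_trans (le_of_eq ?_) h2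
      decide +kernel
    rw [hm] at h1
    norm_num at h1
  rcases K.cases h.only (by omega) (fun h => by omega) hf with h1 | h1 | ⟨a, h1, -⟩
  · have := h1.1
    omega
  · have h2 := h1.mX.1
    rw [hm] at h2
    norm_num at h2
  · obtain ⟨A, g1, g2, g3, g4, g5, g6, -⟩ := late_side K.gt (by omega) (K.comp _) h1.two h1.le
      h1.low h1.at_a h.only (by omega) (fun h => by omega) rfl
    obtain ⟨q1, q2⟩ := chkW11 a (mem_range.mpr (by have := h1.le; omega)) h1.two _ h1.word
      (by simp) A g1 g2 (g3 1 (by omega)) (by rw [hm] at g4; exact_mod_cast g4.symm)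
      (by rw [hc] at g5; exact_mod_cast g5.symm) (by
        rw [hn1] at g6
        have : ((A.card - 1 : ℕ) : ℤ) = 0 := by rw [← g6]; norm_num
        exact_mod_cast this)
    subst q1
    have D : WordD 11 4 w7 (lo (topOf x)) (hi (topOf x)) := ⟨h1.low, h1.at_a, q2⟩
    have hyo := onlyB_up h.only hy.le
    obtain ⟨s, a1, a2, a3⟩ := (K.comp (topOf x)).surj y (onlyB_le hyo) hly.le
    rw [hly] at a1 a2 a3
    obtain ⟨r1, r2⟩ := D.rows (K.comp (topOf x))
    have q3 := r1 11 le_rfl
    have q4 := r2 11 le_rfl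
    rw [Ec.row11.1] at q3
    rw [Ec.row11.2] at q4
    have hs : s = 3 ∨ s = 4 := by omega
    rcases hs with rfl | rfl
    · subst a3
      exact Ec.no_b_pend11 K D hy honly
    · refine mX11_4 ?_
      rw [← Nat.cast_ofNat (n := 5), ← hm]
      unfold GaussPoset.mX
      refine Finset.sum_congr rfl fun k hk => ?_
      rw [mem_range] at hk
      rw [nab_only honly hy (by omega), ← a3,
        Ew.nab_word D (K.comp (topOf x)) H hg a1 a2 (by rw [a3]; exact hyo) hk.le]

end Pool.Agent.GaussPoset.Sm
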