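import Pool.Agent.W_448s7s_h5.SmH

/-!
# The windows of S7 with a cap `K`, `7 ≤ j`: natural elements (MP_448cb3_co)
-/

namespace Pool.Agent.GaussPoset.Sm

set_option linter.unusedSectionVars false

open Polynomial Finset

universe u

variable {P : Type u} [Fintype P] [PartialOrder P] [DecidableEq P] {r j w K : ℕ}
  {N : Tops P → Finset P} {b : Tops P → ℕ} {θ : Tops P → P → ℕ}

/-- window `w ≤ 3` of S7, `7 ≤ j`, with the cap `K` -/
structure Wk (r j w K : ℕ) (N : Tops P → Finset P) (b : Tops P → ℕ) (θ : Tops P → P → ℕ) :
    Prop where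
  gt : Win.GoodTo P r j
  hj : w + 5 ≤ j
  hw1 : 1 ≤ w
  hw : w ≤ 3
  typ : ∀ t, TypeX j w t (b t) (N t) (θ t)
  top : ∀ t, TopType j w t (b t) (N t) (θ t)
  sum_b : ∑ t, b t = (lv P w).card
  hK : 2 * K < 3 * (j + 1 - w) ^ 2 + 3 * (j + 1 - w)
  rdeep : ∀ {t : P} {Nc : Finset P} {co : P → ℕ × ℕ}, Chart t (fun _ => True) Nc co →
    ∀ {x : P}, x ∈ Nc → ∀ {h : ℕ}, 2 ≤ (co x).1 → 2 ≤ (co x).2 → j + 1 ≤ lev x →
      h + min (min (co x).1 (co x).2) w = lev x - w + 1 → K + 1 < cst w (fun _ => h) x + h
  sdeep : 2 ≤ w → ∀ {t : P} {Nc : Finset P} {co : P → ℕ × ℕ}, Chart t (fun c => c.1 ≤ c.2) Nc co →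
    ∀ {x : P}, x ∈ Nc → ∀ {h : ℕ}, 2 ≤ (co x).1 → j + 1 ≤ lev x → h + 1 = lev x - w →
      K + 1 < cst w (fun _ => h) x + h

lemma Wk.natSys (W : Wk r j w K N b θ) : NatSys N :=
  (farData_of_types (jt := fun _ => j) W.gt.H.gradedBelow W.top).1

lemma Wk.low (W : Wk r j w K N b θ) {x : P} (hx : lev x ≤ j) : x ∉ unnat N := by
  intro h
  refine mem_unnat.mp h (topOf x) ?_
  rcases W.typ (topOf x) with ⟨h1, h2, h3, h5⟩ | ⟨Nc, co, h0, h1, h2, h4⟩ |
    ⟨Nc, co, h0, h1, h2, h3, h4, h5⟩
  · rw [h1]; exact h5 x (le_topOf x) hx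
  · rw [h1]; exact mem_natR.mpr (Or.inl (h0.strip (mem_lowPart.mpr ⟨le_topOf x, hx⟩)))
  · rw [h1]; exact mem_natS.mpr (Or.inl (h0.strip (mem_lowPart.mpr ⟨le_topOf x, hx⟩)))

lemma Wk.lt_lev (W : Wk r j w K N b θ) {x : P} (hx : x ∈ unnat N) : j < lev x := by
  by_contra hcon
  exact W.low (not_lt.mp hcon) hx

lemma Wk.up (W : Wk r j w K N b θ) {x y : P} (hx : x ∉ unnat N) (hxy : x ≤ y) :
    y ∉ unnat N ∧ topOf y = topOf x := by
  have HN := W.natSys
  exact ⟨fun h => hx (HN.lower x y hxy h), (HN.cp x y hxy hx).symm⟩

/-- deep cells -/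
structure Dk (j w K : ℕ) (N : Tops P → Finset P) (θ : Tops P → P → ℕ) (x : P) : Prop where
  one_le : 1 ≤ w
  th : θ (topOf x) x + 1 ≤ lev x - w
  th3 : lev x - w ≤ θ (topOf x) x + 3
  mono : ∀ y, x < y → θ (topOf y) y ≤ θ (topOf x) x + 1
  cost : j + 1 ≤ lev x → K + 1 < cst w (fun _ => θ (topOf x) x + 1) x +
    (θ (topOf x) x + 1)

/-- the threshold of a cell of a rectangle-like chart -/
lemma rect_th7 {t : Tops P} {c : ℕ} {Nc : Finset P} {co : P → ℕ × ℕ} (R : RectNat j w t c Nc co)
    (hw : w ≤ 3) {x : P} (hx : x ∈ Nc)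
    (hJ : ¬ (x ∈ junk (fun _ => True) Nc co ∨ x ∈ junk (fun _ => True) Nc (swp co)))
    (hl : w + 5 ≤ lev x) :
    thR w c Nc co x + min (min (co x).1 (co x).2) w = lev x - w := by
  have h1 := R.chart.lev x hx
  have h2 := R.b_two
  have h3 := R.b_le
  have h4 : c = w + 1 ∨ (co x).1 ≤ c - 1 := R.rows.imp id fun h => h x hx
  unfold thR
  rw [if_neg hJ]
  omega

/-- the threshold of a cell of a stair-like chart -/
lemma stair_th7 {t : Tops P} {Nc : Finset P} {co : P → ℕ × ℕ} (R : StairNat j w t Nc co)
    (hw : w ≤ 3) (hw2 : 2 ≤ w) {x : P} (hx : x ∈ Nc)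
    (hJ : x ∉ junk (fun c => c.1 ≤ c.2) Nc co) (hl : w + 5 ≤ lev x) :
    thS w Nc co x + min (co x).1 2 = lev x - w := by
  have h1 := R.chart.lev x hx
  have h2 : (co x).1 ≤ (co x).2 := R.chart.mem x hx
  unfold thS
  rw [if_neg hJ]
  omega

/-- the kinds of natural elements of level at least `j` -/
theorem Wk.cases (W : Wk r j w K N b θ) {x : P} (hx : x ∉ unnat N) (hlx : j ≤ lev x) :
    Str w N θ x ∨ Row1 j w N θ x ∨ Dk j w K N θ x := by
  have H := W.gt.H
  have HN := W.natSys
  have hxt : x ∈ N (topOf x) := HN.mem_iff.mpr ⟨hx, rfl⟩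
  have hj := W.hj
  have hw := W.hw
  have hT := W.typ (topOf x)
  generalize ht : topOf x = t at hxt hT
  rcases hT with ⟨h1, h2, h3, h5⟩ | ⟨Nc, co, h0, h1, h2, h4⟩ |
    ⟨Nc, co, h0, h1, h2, h3, h4, h5'⟩
  · left
    refine ⟨by rw [ht, h2], ?_⟩
    intro z hz h
    have h7 : z ∉ onlyB t := by
      rw [← h1]
      exact mem_unnat.mp hz t
    rw [mem_onlyB] at h7
    push Not at h7
    obtain ⟨s, hs1, hs2, hs3⟩ := h7
    have h7 := W.lt_lev hz
    have h8 : z < s := lt_of_le_of_ne hs2 (by rintro rfl; omega)
    exact hs3 (HN.top_eq hxt hs1 ((h s).mpr h8).le)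
  · have e1 := h0.b_two
    have e2 := h0.b_le
    have hxN' : x ∈ natR Nc co := by rw [← h1]; exact hxt
    by_cases hJ : x ∈ junk (fun _ => True) Nc co ∨ x ∈ junk (fun _ => True) Nc (swp co)
    · left
      refine ⟨?_, ?_⟩
      · rw [ht, h2]
        unfold thR
        rw [if_pos hJ]
      · intro z hz h
        refine mem_unnat.mp hz t ?_
        rw [h1, mem_natR]
        rcases hJ with h' | h'
        · exact Or.inr (Or.inl (junk_twin h' h))
        · exact Or.inr (Or.inr (junk_twin h' h))
    · have hxN : x ∈ Nc := by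
        rw [mem_natR] at hxN'
        rcases hxN' with h | h | h
        · exact h
        · exact absurd (Or.inl h) hJ
        · exact absurd (Or.inr h) hJ
      have hl := h0.chart.lev x hxN
      have hth := rect_th7 h0 hw hxN hJ (by omega)
      -- thresholds above `x`
      have hmono : 1 ≤ (co x).1 → 1 ≤ (co x).2 → ∀ y, x < y → θ (topOf y) y ≤ θ t x + 1 := by
        intro g1 g2 y hxy
        have hy := h0.chart.up x hxN y hxy.le
        have hyt : topOf y = t := by
          have := (W.up hx hxy.le).2
          rw [this, ht]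
        have hy1 := not_junk_above h0.chart hxN g1 hxy.le
        have hy2 := not_junk_above h0.chart.swap hxN g2 hxy.le
        have hle := (h0.chart.le_iff x hxN y hy).mp hxy.le
        have hle1 : (co y).1 ≤ (co x).1 := hle.1
        have hle2 : (co y).2 ≤ (co x).2 := hle.2
        rw [hyt, h2]
        unfold thR
        rw [if_neg (by rintro (h | h); exacts [hy1 h, hy2 h]), if_neg hJ]
        omega
      by_cases h7 : (co x).1 = 0 ∨ (co x).2 = 0
      · left
        refine ⟨?_, ?_⟩
        · rw [ht, h2]
          omega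
        · intro z hz h
          rcases h7 with h7 | h7
          · obtain ⟨u, hu, hcu⟩ := h0.chart.low x hxN (0, (co x).2 - 1)
              ⟨Nat.zero_le _, Nat.sub_le _ _⟩ trivial
            refine straight_twin H h0 h1 hxN hu ?_ ?_ ?_ hz h
            · rw [hcu]
              exact Or.inr ⟨by simp only; omega, by simp only; omega⟩
            · intro y hy hp
              rw [hcu]
              rcases hp with hp | hp
              · omega
              · exact Prod.ext (by simp only; omega) (by simp only; omega)
            · rw [hcu]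
              exact Or.inl rfl
          · obtain ⟨u, hu, hcu⟩ := h0.chart.low x hxN ((co x).1 - 1, 0)
              ⟨Nat.sub_le _ _, Nat.zero_le _⟩ trivial
            refine straight_twin H h0 h1 hxN hu ?_ ?_ ?_ hz h
            · rw [hcu]
              exact Or.inl ⟨by simp only; omega, by simp only; omega⟩
            · intro y hy hp
              rw [hcu]
              rcases hp with hp | hp
              · exact Prod.ext (by simp only; omega) (by simp only; omega)
              · omega
            · rw [hcu]
              exact Or.inr rfl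
      · by_cases h8 : (co x).1 = 1 ∨ (co x).2 = 1
        · right; left
          refine ⟨by omega, chart_inner_uc h0.chart H hxN (by omega) (by omega), ?_, ?_, ?_, ?_⟩
          · intro hlx z hz
            exact h4 x z (h0.chart.le_t x hxN) hlx
              (chart_inner_uc h0.chart H hxN (by omega) (by omega)) hz
          · rw [ht, h2]; omega
          · intro k hk hkx
            have := rect_nab h0.chart hxN (k := k) (by omega)
            omega
          · rw [ht]
            exact hmono (by omega) (by omega)
        · right; right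
          refine ⟨by omega, ?_, ?_, ?_, ?_⟩
          · rw [ht, h2]; omega
          · rw [ht, h2]; omega
          · rw [ht]
            exact hmono (by omega) (by omega)
          · intro hlj
            rw [ht, h2]
            exact W.rdeep h0.chart hxN (by omega) (by omega) hlj (by omega)
  · have hxN' : x ∈ natS Nc co := by rw [← h1]; exact hxt
    by_cases hJ : x ∈ junk (fun c => c.1 ≤ c.2) Nc co
    · left
      refine ⟨?_, ?_⟩
      · rw [ht, h2]
        unfold thS
        rw [if_pos hJ]
      · intro z hz h
        refine mem_unnat.mp hz t ?_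
        rw [h1, mem_natS]
        exact Or.inr (junk_twin hJ h)
    · have hxN : x ∈ Nc := by
        rw [mem_natS] at hxN'
        rcases hxN' with h | h
        · exact h
        · exact absurd h hJ
      have hl := h0.chart.lev x hxN
      have hm : (co x).1 ≤ (co x).2 := h0.chart.mem x hxN
      have hth := stair_th7 h0 hw h4 hxN hJ (by omega)
      have hmono : 1 ≤ (co x).1 → ∀ y, x < y → θ (topOf y) y ≤ θ t x + 1 := by
        intro g1 y hxy
        have hy := h0.chart.up x hxN y hxy.le
        have hyt : topOf y = t := by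
          have := (W.up hx hxy.le).2
          rw [this, ht]
        have hy1 := not_junk_above h0.chart hxN g1 hxy.le
        have hle := (h0.chart.le_iff x hxN y hy).mp hxy.le
        have hle1 : (co y).1 ≤ (co x).1 := hle.1
        have hle2 : (co y).2 ≤ (co x).2 := hle.2
        rw [hyt, h2]
        unfold thS
        rw [if_neg hy1, if_neg hJ]
        omega
      rcases Nat.lt_or_ge (co x).1 1 with h7 | h7
      · left
        refine ⟨?_, ?_⟩
        · rw [ht, h2]
          omega
        · intro z hz h
          obtain ⟨u, hu, hcu⟩ := h0.chart.low x hxN (0, (co x).2 - 1)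
            ⟨Nat.zero_le _, Nat.sub_le _ _⟩ (Nat.zero_le _)
          have g1 : x ⋖ u := by
            rw [chart_cov h0.chart H hxN hu, hcu]
            exact Or.inr ⟨by simp only; omega, by simp only; omega⟩
          have g2 : z ⋖ u := (cov_of_up h).mp g1
          have g3 := stair_pendant H h0 (by omega) h1 hz (x := u)
            (by rw [h1]; exact mem_natS.mpr (Or.inl hu)) g2 (by
            intro y hy
            have hy1 : x ⋖ y := (cov_of_up h).mpr hy
            have hyN := h0.chart.up x hxN y hy1.le
            refine h0.chart.inj y hyN u hu ?_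
            rw [hcu]
            rcases (chart_cov h0.chart H hxN hyN).mp hy1 with hp | hp
            · omega
            · exact Prod.ext (by simp only; omega) (by simp only; omega))
          have g4 := g3.2.2
          rw [hcu] at g4
          simp only at g4
          omega
      · rcases Nat.lt_or_ge (co x).1 2 with h8 | h8
        · right; left
          have hd := stair_inner_uc h0.chart H hxN h7 (by omega)
          refine ⟨by omega, hd, ?_, ?_, ?_, ?_⟩
          · intro hlx z hz hon
            have := h5' x z (h0.chart.le_t x hxN) hlx hd hz hon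
            omega
          · rw [ht, h2]; omega
          · intro k hk hkx
            have := stair_nab h0.chart hxN (k := k) (by omega)
            omega
          · rw [ht]
            exact hmono h7
        · right; right
          refine ⟨by omega, ?_, ?_, ?_, ?_⟩
          · rw [ht, h2]; omega
          · rw [ht, h2]; omega
          · rw [ht]
            exact hmono h7
          · intro hlj
            rw [ht, h2]
            exact W.sdeep h4 h0.chart hxN h8 hlj (by omega)

end Pool.Agent.GaussPoset.Sm
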