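import Pool.Agent.W_448s7s_h5.SkL

/-!
# The windows of S7 with a cap: twins (MP_448cb3_co)
-/

namespace Pool.Agent.GaussPoset.Sm

set_option linter.unusedSectionVars false

open Polynomial Finset

universe u

variable {P : Type u} [Fintype P] [PartialOrder P] [DecidableEq P] {r j w K : ℕ}
  {N : Tops P → Finset P} {b : Tops P → ℕ} {θ : Tops P → P → ℕ}

theorem Wk.twSys (W : Wk r j w K N b θ) : TwSys (unnat N) (twA N) topOf (twT N) where
  sub := fun x hx => (mem_twA.mp hx).1
  nat := fun x hx => (twT_spec (mem_twA.mp hx).2).1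
  up := fun x hx => (twT_spec (mem_twA.mp hx).2).2
  inj := by
    intro x hx x' hx' h
    have h1 := mem_twA.mp hx
    have h2 := mem_twA.mp hx'
    have h3 := twT_spec h1.2
    have h4 := twT_spec h2.2
    have hlx := W.lt_lev h1.1
    by_contra hne
    have h5 : x < (topOf x : P) := lt_of_le_of_ne (le_topOf x) (by
      intro h
      have := (topOf x).2
      rw [← h] at this
      omega)
    obtain ⟨u, hu, -⟩ := Hul.exists_cov h5
    have hu' : twT N x ⋖ u := (cov_of_up h3.2).mpr hu
    have hu'' : x' ⋖ u := by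
      rw [h] at hu'
      exact (cov_of_up h4.2).mp hu'
    refine Win.dc_three W.gt.H hu hu'' hu' hne ?_ ?_
    · intro h6
      exact h3.1 (h6 ▸ h1.1)
    · intro h6
      rw [h] at h6
      exact h4.1 (h6 ▸ h2.1)
  anti := by
    intro x hx y hy h
    have h1 := mem_twA.mp hx
    have h2 := mem_twA.mp hy
    have h3 := twT_spec h2.2
    exact (W.up h3.1 ((h3.2 x).mpr h).le).1 h1.1
  cp := by
    intro x hx
    have h1 := mem_twA.mp hx
    have h3 := twT_spec h1.2
    have hlx := W.lt_lev h1.1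
    have h5 : x < (topOf x : P) := lt_of_le_of_ne (le_topOf x) (by
      intro h
      have := (topOf x).2
      rw [← h] at this
      omega)
    have h6 : twT N x ∈ N (topOf (twT N x)) := W.natSys.mem_iff.mpr ⟨h3.1, rfl⟩
    exact (Subtype.ext (W.natSys.top_eq h6 (topOf x).2 ((h3.2 _).mpr h5).le)).symm

/-- twins are not straight -/
lemma Wk.tw_cases (W : Wk r j w K N b θ) {x : P} (hx : x ∈ twA N) :
    j < lev (twT N x) ∧ (Row1 j w N θ (twT N x) ∨ Dk j w K N θ (twT N x)) := by
  have h1 := mem_twA.mp hx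
  have h3 := twT_spec h1.2
  have h4 := W.lt_lev h1.1
  have h5 := W.twSys.lev hx
  refine ⟨by omega, ?_⟩
  rcases W.cases h3.1 (by omega) with h | h
  · exact absurd h3.2 (h.tw x h1.1)
  · exact h

lemma Wk.not_tw (W : Wk r j w K N b θ) {x : P} (hx : x ∉ unnat N) : x ∉ twA N :=
  fun h => hx (mem_twA.mp h).1

lemma Wk.thA_nat (W : Wk r j w K N b θ) {x : P} (hx : x ∉ unnat N) :
    thA N θ x = θ (topOf x) x := thX_not (W.not_tw hx)

lemma Wk.thA_tw (W : Wk r j w K N b θ) {x : P} (hx : x ∈ twA N) :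
    thA N θ x = θ (topOf (twT N x)) (twT N x) := thX_of hx

theorem Wk.twn (W : Wk r j w K N b θ) {x : P} (hx : x ∈ twA N) :
    Twn w (thA N θ) (twT N x, x) := by
  have T := W.twSys
  have h1 := mem_twA.mp hx
  have h3 := twT_spec h1.2
  obtain ⟨hl, hk⟩ := W.tw_cases hx
  have hj := W.hj
  have hw := W.hw
  have e1 : thA N θ (twT N x) = θ (topOf (twT N x)) (twT N x) := W.thA_nat h3.1
  have e2 := W.thA_tw hx
  have hm : ∀ y, twT N x < y → θ (topOf y) y ≤ θ (topOf (twT N x)) (twT N x) + 1 := by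
    rcases hk with h | h
    · exact h.mono
    · exact h.mono
  have ht : θ (topOf (twT N x)) (twT N x) + 1 ≤ lev (twT N x) - w ∧
      lev (twT N x) - w ≤ θ (topOf (twT N x)) (twT N x) + 3 := by
    rcases hk with h | h
    · have := h.th
      omega
    · exact ⟨h.th, h.th3⟩
  refine ⟨?_, h3.2, ?_, ?_, ?_, ?_⟩
  · intro h
    simp only at h
    exact h3.1 (by rw [h]; exact h1.1)
  · simp only
    rw [e1]
    omega
  · simp only
    rw [e1, e2]
  · simp only
    rw [e1]
    exact ht.1
  · intro y hy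
    simp only at hy ⊢
    rw [e1, W.thA_nat (W.up h3.1 hy.le).1]
    exact hm y hy

/-- cost of the twins of cells of row `1` -/
lemma Wk.tcst_row1 (W : Wk r j w K N b θ) {x : P} (hx : x ∈ twA N)
    (hk : Row1 j w N θ (twT N x)) {a : ℕ} (ha : lev x = w + a) :
    tcst w (thA N θ) (twT N x, x) + 1 = a ^ 2 + a := by
  have h1 := mem_twA.mp hx
  have h3 := twT_spec h1.2
  have hl := W.twSys.lev hx
  have e1 : thA N θ (twT N x) = θ (topOf (twT N x)) (twT N x) := W.thA_nat h3.1
  have h4 := hk.th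
  have h5 : thA N θ (twT N x) + 1 = a := by omega
  rw [tcst_cst (W.twn hx)]
  simp only
  rw [h5, cst_eq_ful (by omega), ful_two (a := a) (by omega)
    fun k hk1 hk2 => hk.nab k hk1.le hk2]
  omega

/-- cost of the twins of deep cells -/
lemma Wk.tcst_deep (W : Wk r j w K N b θ) {x : P} (hx : x ∈ twA N)
    (hk : Dk j w K N θ (twT N x)) : K < tcst w (thA N θ) (twT N x, x) := by
  have h1 := mem_twA.mp hx
  have h3 := twT_spec h1.2
  have hl := (W.tw_cases hx).1
  have e1 : thA N θ (twT N x) = θ (topOf (twT N x)) (twT N x) := W.thA_nat h3.1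
  rw [tcst_cst (W.twn hx)]
  have h4 := hk.cost (by omega)
  simp only
  rw [e1]
  omega

theorem Wk.farX (W : Wk r j w K N b θ) (n0 : ℕ)
    (hcost : ∀ x ∈ twA N, n0 ≤ tcst w (thA N θ) (twT N x, x)) :
    FarX P w (rA N) (lv P w).card (hA N θ) (thA N θ) (pairsX (twA N) (twT N)) n0 := by
  choose B hB using fun t => (W.top t).natTop W.gt.H.gradedBelow
  have h := farX_of_tops W.gt.H.gradedBelow hB W.twSys n0 (fun x hx => W.twn hx) hcost
  rw [W.sum_b] at h
  exact h

end Pool.Agent.GaussPoset.Sm
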