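import Pool.Agent.W_448s7s_h5.SkN

/-!
# The windows of S7 with a cap: neighbours (MP_448cb3_co)
-/

namespace Pool.Agent.GaussPoset.Sm

set_option linter.unusedSectionVars false

open Polynomial Finset

universe u

variable {P : Type u} [Fintype P] [PartialOrder P] [DecidableEq P] {r j w K : ℕ}
  {N : Tops P → Finset P} {b : Tops P → ℕ} {θ : Tops P → P → ℕ}

/-- an element of the far set is not below two neighbours with a common cover -/
theorem Wk.no_adj (W : Wk r j w K N b θ) {z x x' p : P} (hz : z ∈ rA N) (hx : x ∉ unnat N)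
    (hx' : x' ∉ unnat N) (hzx : z ⋖ x) (hzx' : z ⋖ x') (hne : x ≠ x') (hp : x ⋖ p)
    (hp' : x' ⋖ p) : False := by
  have H := W.gt.H
  have HN := W.natSys
  have hzu := (mem_rA.mp hz).1
  have hzt : ∀ y, y ∉ unnat N → ¬ ∀ v, y < v ↔ z < v := fun y hy h =>
    (mem_rA.mp hz).2 (mem_twA.mpr ⟨hzu, y, hy, h⟩)
  have t1 := (W.up hx hp.1.le).2
  have t2 := (W.up hx' hp'.1.le).2
  have huni := uc_two_of H hzx hzx' hne
  have hxt : x ∈ N (topOf x) := HN.mem_iff.mpr ⟨hx, rfl⟩
  have hxt' : x' ∈ N (topOf x) := HN.mem_iff.mpr ⟨hx', by rw [← t2, t1]⟩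
  have hzN := mem_unnat.mp hzu (topOf x)
  have hnat : ∀ y ∈ N (topOf x), y ∉ unnat N := fun y hy => (HN.mem_iff.mp hy).1
  generalize topOf x = t at hxt hxt' hzN hnat
  rcases W.typ t with ⟨h1, h2, h3, h5⟩ | ⟨Nc, co, h0, h1, h2, h4⟩ |
    ⟨Nc, co, h0, h1, h2, h3, h4, h5'⟩
  · apply hzN
    rw [h1] at hxt hxt' ⊢
    rw [mem_onlyB] at hxt hxt' ⊢
    intro s hs hzs
    have hzs' : z < s := lt_of_le_of_ne hzs (by
      intro h
      have := lev_strictAnti hzx.1
      rw [h] at this
      omega)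
    obtain ⟨v, hv, hvs⟩ := Hul.exists_cov hzs'
    rcases huni v hv with h | h
    · exact hxt s hs (h ▸ hvs)
    · exact hxt' s hs (h ▸ hvs)
  · rw [h1] at hxt hxt' hzN
    rw [mem_natR] at hxt hxt'
    have hzN1 : z ∉ Nc := fun h => hzN (mem_natR.mpr (Or.inl h))
    have hzN2 : z ∉ junk (fun _ => True) Nc co := fun h => hzN (mem_natR.mpr (Or.inr (Or.inl h)))
    have hzN3 : z ∉ junk (fun _ => True) Nc (swp co) :=
      fun h => hzN (mem_natR.mpr (Or.inr (Or.inr h)))
    have g1 := h0.one1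
    have g2 := h0.one2
    -- both in one orientation
    have fin1 : (x ∈ Nc ∨ x ∈ junk (fun _ => True) Nc co) →
        (x' ∈ Nc ∨ x' ∈ junk (fun _ => True) Nc co) → False := by
      intro e1 e2
      rcases adj_core rowT_true (fun _ _ _ => trivial) h0.chart h0.max H g1 hzN1 e1 e2 hzx hzx' hne
        hp hp' with ⟨y, hy, h⟩ | h
      · exact hzt y (hnat y (by rw [h1]; exact mem_natR.mpr (Or.inl hy))) h
      · exact hzN2 h
    have fin2 : (x ∈ Nc ∨ x ∈ junk (fun _ => True) Nc (swp co)) →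
        (x' ∈ Nc ∨ x' ∈ junk (fun _ => True) Nc (swp co)) → False := by
      intro e1 e2
      rcases adj_core rowT_true (fun _ _ _ => trivial) h0.chart.swap h0.max.swap H g2 hzN1 e1 e2
        hzx hzx' hne hp hp' with ⟨y, hy, h⟩ | h
      · exact hzt y (hnat y (by rw [h1]; exact mem_natR.mpr (Or.inl hy))) h
      · exact hzN3 h
    -- no common cover across
    have across : ∀ (a c : P), a ∈ junk (fun _ => True) Nc co →
        c ∈ junk (fun _ => True) Nc (swp co) → a ⋖ p → c ⋖ p → False := by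
      intro a c ha hc hap hcp
      obtain ⟨x1, H1, hj⟩ := mem_junk.mp ha
      obtain ⟨x2, H2, hj2⟩ := mem_junk.mp hc
      have h2 : p ≤ x1 := by
        rcases (mem_jset.mp hj).2 p hap.1.le with h3 | h3
        · exact h3
        · rcases eq_or_lt_of_le h3 with h4 | h4
          · rw [h4]
          · exact absurd h4 (hap.2 (mem_jset.mp hj).1)
      exact junk_cross h0.chart g1 g2 H1 H2 hj2 (hcp.1.trans_le h2)
    rcases hxt with e | e | e
    · rcases hxt' with e' | e' | e'
      · exact fin1 (Or.inl e) (Or.inl e')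
      · exact fin1 (Or.inl e) (Or.inr e')
      · exact fin2 (Or.inl e) (Or.inr e')
    · rcases hxt' with e' | e' | e'
      · exact fin1 (Or.inr e) (Or.inl e')
      · exact fin1 (Or.inr e) (Or.inr e')
      · exact across x x' e e' hp hp'
    · rcases hxt' with e' | e' | e'
      · exact fin2 (Or.inr e) (Or.inl e')
      · exact across x' x e' e hp' hp
      · exact fin2 (Or.inr e) (Or.inr e')
  · rw [h1] at hxt hxt' hzN
    rw [mem_natS] at hxt hxt'
    have hzN1 : z ∉ Nc := fun h => hzN (mem_natS.mpr (Or.inl h))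
    have hzN2 : z ∉ junk (fun c => c.1 ≤ c.2) Nc co := fun h => hzN (mem_natS.mpr (Or.inr h))
    rcases adj_core rowT_shift (fun s c h => by simpa using h) h0.chart h0.max H (h0.one1 h4) hzN1
      hxt hxt' hzx hzx' hne hp hp' with ⟨y, hy, h⟩ | h
    · exact hzt y (hnat y (by rw [h1]; exact mem_natS.mpr (Or.inl hy))) h
    · exact hzN2 h

end Pool.Agent.GaussPoset.Sm
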