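import Pool.Agent.W_448s7s_h5.SkX

/-!
# The window `1` for `7 ≤ j ≤ 16` (MP_448cb3_co)
-/

namespace Pool.Agent.GaussPoset.Sm

set_option linter.unusedSectionVars false

open Finset Wd

universe u

variable {P : Type u} [Fintype P] [PartialOrder P] [DecidableEq P] {r j w K : ℕ}
  {N : Tops P → Finset P} {b : Tops P → ℕ} {θ : Tops P → P → ℕ} {XE XO : ℕ → Prop}

/-- the cap at window `1` -/
def K1 (j : ℕ) : ℕ := j ^ 2 + j * (j - 1) / 2 - 1

/-- deep cells of the rectangles at window `1` -/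
theorem rect_deep1 {t : P} {Nc : Finset P} {co : P → ℕ × ℕ} (C : Chart t (fun _ => True) Nc co)
    (hj : 6 ≤ j) {x : P} (hx : x ∈ Nc) {h : ℕ} (h1 : 2 ≤ (co x).1) (h2 : 2 ≤ (co x).2)
    (hlx : j + 1 ≤ lev x) (hh : h + min (min (co x).1 (co x).2) 1 = lev x - 1 + 1) :
    K1 j + 1 < cst 1 (fun _ => h) x + h := by
  have hl := C.lev x hx
  obtain ⟨m, hm⟩ : ∃ m, lev x = 1 + m := ⟨lev x - 1, by omega⟩
  obtain rfl : h = m := by omega
  have h3 := cst_ge_shift (i := 1) (a := h) (h := fun _ => h) (x := x)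
    (fun n => 2 + ind 1 (h - 1) n) hm (by omega) (fun n hn1 hn2 => by
      have := rect_nab C hx (k := 1 + n) (by omega)
      unfold ind
      split_ifs with h6
      · omega
      · omega)
  have h4 := sum_ind (s := 1) (a := h - 1) (m := h) (by omega)
  have h5 : ∑ n ∈ range h, n * (2 + ind 1 (h - 1) n) =
      (∑ n ∈ range h, n) * 2 + ∑ n ∈ range h, n * ind 1 (h - 1) n := by
    rw [Finset.sum_mul, ← Finset.sum_add_distrib]
    refine Finset.sum_congr rfl fun n _ => ?_
    ring
  rw [h5, Finset.sum_range_id_mul_two, Nat.min_self] at h3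
  unfold K1
  obtain ⟨d, rfl⟩ : ∃ d, h = j + d := ⟨h - j, by omega⟩
  obtain ⟨i, rfl⟩ : ∃ i, j = i + 2 := ⟨j - 2, by omega⟩
  rw [show i + 2 + d - 1 = i + d + 1 by omega] at h3 h4
  rw [show i + d + 1 - 1 = i + d by omega] at h4
  rw [show i + 2 - 1 = i + 1 by omega]
  have e1 : (i + 2 + d) * (i + d + 1) = i * i + 2 * (i * d) + d * d + 3 * i + 3 * d + 2 := by ring
  have e2 : (i + d + 1) * (i + d) = i * i + 2 * (i * d) + d * d + i + d := by ring
  have e3 : (i + 2) ^ 2 = i * i + 4 * i + 4 := by ring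
  have e4 : (i + 2) * (i + 1) = i * i + 3 * i + 2 := by ring
  rw [e1] at h3
  rw [e2] at h4
  rw [e3, e4]
  norm_num at h4
  omega

lemma K1_cast (hj : 6 ≤ j) :
    (K1 j : ℤ) = (j : ℤ) ^ 2 + (((j * (j - 1) / 2 : ℕ) : ℤ) - 1) := by
  unfold K1
  have h1 : 1 ≤ j ^ 2 + j * (j - 1) / 2 := by
    have : 1 ≤ j ^ 2 := Nat.one_le_pow _ _ (by omega)
    omega
  rw [Nat.cast_sub h1]
  push_cast
  ring

lemma nab_zero_only {x : P} {t : Tops P} (hx : x ∈ onlyB t) : nab 0 x = 1 := by
  classical
  refine le_antisymm ?_ (one_le_nab (Nat.zero_le _))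
  unfold nab
  rw [Finset.card_le_one]
  intro y hy y' hy'
  rw [mem_filter, mem_lv] at hy hy'
  rw [mem_onlyB.mp hx y hy.1 hy.2, mem_onlyB.mp hx y' hy'.1 hy'.2]

/-- there is no element of level `j + 1` in the far set below a deep cell at window `1` -/
theorem Wk.deep_j1 (W : Wk r j 1 K N b θ) {z x : P} (hz : z ∈ bdR (rA N)) (hlz : lev z = j + 1)
    (hzx : z ⋖ x) (hD : Dk j 1 K N θ x) : False := by
  classical
  have H := W.gt.H
  have HN := W.natSys
  have hj := W.hj
  have hw := W.hw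
  have hzR := (mem_bdR.mp hz).1
  have hzu := (mem_rA.mp hzR).1
  have e1 := (H.covBy_iff.mp hzx).2
  have hlx : lev x = j := by omega
  have hx : x ∉ unnat N := W.low (by omega)
  have hth := hD.th
  have hxt : x ∈ N (topOf x) := HN.mem_iff.mpr ⟨hx, rfl⟩
  have hxle : x ≤ (topOf x : P) := le_topOf x
  have hnear : (Win.uc x).card = 2 → ∀ y, z ⋖ y → y = x := by
    intro h2 y hy
    by_contra hne
    have := (W.near hzR hlz hzx hy (Ne.symm hne)).1
    omega
  generalize htt : topOf x = t at hxt hxle hth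
  rcases W.typ t with ⟨g1, g2, g3, g5⟩ | ⟨Nc, co, h0, g1, g2, g4⟩ |
    ⟨Nc, co, h0, g1, g2, g3, g4, g5'⟩
  · rw [g2] at hth
    simp only at hth
    omega
  · rw [g1] at hxt
    rw [g2] at hth
    have hJ : ¬ (x ∈ junk (fun _ => True) Nc co ∨ x ∈ junk (fun _ => True) Nc (swp co)) := by
      intro h
      unfold thR at hth
      rw [if_pos h] at hth
      omega
    have hxN : x ∈ Nc := by
      rw [mem_natR] at hxt
      rcases hxt with h | h | h
      · exact h
      · exact absurd (Or.inl h) hJ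
      · exact absurd (Or.inr h) hJ
    have h2 := rect_th7 h0 hw hxN hJ (by omega)
    have h3 := chart_inner_uc h0.chart H hxN (by omega) (by omega)
    exact g4 x z hxle hlx h3 hzx (hnear h3)
  · omega

/-- sides which are not allowed are expensive at window `1` -/
theorem nsk1 (H : Gr P r) (hj : 6 ≤ j) (h16 : j ≤ 16) {z x x' : P} (h : Cg z x x')
    (hl : j + 1 ≤ lev z) (hn : ¬ Sok j x) : K1 j < ful 1 z := by
  obtain ⟨l1, l2⟩ := h.lev_eq H
  by_cases hf : Fatt j x
  · obtain ⟨f1, f2⟩ := hf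
    obtain ⟨c, hc⟩ : ∃ c, lev z = 1 + c := ⟨lev z - 1, by omega⟩
    have h4 := ful_ge (w := 1) (z := z) (fun n => ind 1 (j - 2) n) hc (fun n hn1 hn2 => by
      unfold ind
      split_ifs with h6
      · rw [h.sum H (by omega)]
        have := f2 (1 + n) (by omega) (by omega)
        have := one_le_nab (l := 1 + n) (z := x') (by omega)
        omega
      · exact h.two_le H (k := 1 + n) (by omega))
    have g2 := sum_ind (s := 1) (a := j - 2) (m := c) (by omega)
    have h7 : (j + 1) ^ 2 ≤ c ^ 2 := Nat.pow_le_pow_left (by omega) 2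
    unfold K1
    obtain ⟨i, rfl⟩ : ∃ i, j = i + 3 := ⟨j - 3, by omega⟩
    rw [show i + 3 - 2 = i + 1 by omega, show i + 1 - 1 = i by omega] at g2
    rw [show i + 3 - 2 = i + 1 by omega] at h4
    rw [show i + 3 - 1 = i + 2 by omega]
    have e1 : (i + 3 + 1) ^ 2 = i * i + 8 * i + 16 := by ring
    have e2 : (i + 3) ^ 2 = i * i + 6 * i + 9 := by ring
    have e3 : (i + 3) * (i + 2) = i * i + 5 * i + 6 := by ring
    have e4 : (i + 1) * i = i * i + i := by ring
    rw [e1] at h7
    rw [e4] at g2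
    rw [e2, e3]
    norm_num at g2
    omega
  · have hF : 12 ≤ j ∧ Fold j x := by
      unfold Sok at hn
      by_contra hcon
      exact hn ⟨hf, fun h12 hfo => hcon ⟨h12, hfo⟩⟩
    obtain ⟨h12, hfo⟩ := hF
    have hlx := hfo.1
    obtain ⟨k1, k2, k3, k4, k5, k6⟩ := h.line H hl
    obtain ⟨n0, d0⟩ := k6 (by omega)
    have hn : (nab j x : ℤ) = 1 ∧ (nab j x' : ℤ) = 1 := by
      constructor
      · rw [show j = lev x by omega, nab_self]; norm_num
      · rw [show j = lev x' by omega, nab_self]; norm_num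
    have hz0 : (lev z : ℤ) - (j + 1) = 0 := by rw [l1, hlx]; push_cast; ring
    obtain ⟨f1, f2⟩ := hfo.mX
    have b1 := nab_zero_only h.only
    have b2 := nab_zero_only h.only'
    have hln := ful_line (j := j) (w := 1) (z := z) (by omega) (by omega) (fun k hk => by
      obtain rfl : k = 0 := by omega
      rw [h.sum H (by omega), b1, b2])
    have hs : 0 ≤ mX j x' * ((j : ℤ) - (1 : ℕ)) - cX j x' := by
      unfold mX cX
      rw [Finset.sum_mul, ← Finset.sum_sub_distrib]
      refine Finset.sum_nonneg fun k hk => ?_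
      rw [mem_range] at hk
      rcases Nat.eq_zero_or_pos k with hk0 | hk0
      · subst hk0
        rw [b2]
        norm_num
      · have h1 := one_le_nab (l := k) (z := x') (by omega)
        have h2 : (0 : ℤ) ≤ (nab k x' : ℤ) - 1 := by
          have : (1 : ℤ) ≤ nab k x' := by exact_mod_cast h1
          linarith
        have h3 : (1 : ℤ) ≤ k := by exact_mod_cast hk0
        push_cast
        nlinarith
    have hodd := hfo.2.1
    have key : (((j * (j - 1) / 2 : ℕ) : ℤ) - 1) < fm j * ((j : ℤ) - 1) - fc j := by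
      have : j = 12 ∨ j = 14 ∨ j = 16 := by omega
      rcases this with rfl | rfl | rfl <;> decide +kernel
    have : (K1 j : ℤ) < ful 1 z := by
      rw [hln, K1_cast hj, k1, k2, n0, d0, hn.1, hn.2, hz0, f1, f2]
      generalize ((j * (j - 1) / 2 : ℕ) : ℤ) = D at key ⊢
      push_cast at hs ⊢
      nlinarith
    exact_mod_cast this

end Pool.Agent.GaussPoset.Sm
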