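import Pool.Agent.W_448s7s_h5.SkZ

/-!
# Costs of the deep cells by a finite check (MP_448cb3_co, S7, `j ≤ 16`)
-/

namespace Pool.Agent.GaussPoset.Sm

set_option linter.unusedSectionVars false

open Finset Wd

universe u

variable {P : Type u} [Fintype P] [PartialOrder P] [DecidableEq P] {r j w K : ℕ}

/-- cost and label below the cell `(a, L - a)` of a stair, window `w` -/
def stC (w L a : ℕ) : ℕ :=
  ∑ n ∈ range (L - w + 1), min (L - w - 1) n *
    (min ((w + n) / 2) a + 1 - ((w + n) - (L - a))) + (L - w - 1)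

/-- cost and label below the cell `(a, L - a)` of a rectangle, window `w` -/
def reC (w L a : ℕ) : ℕ :=
  ∑ n ∈ range (L - w + 1), min (L - w + 1 - min (min a (L - a)) w) n *
    (min (w + n) a + 1 - ((w + n) - (L - a))) + (L - w + 1 - min (min a (L - a)) w)

lemma cst_up {x x' : P} {h h' : ℕ} (hxx : x ≤ x') (hh : h' ≤ h) :
    cst w (fun _ => h') x' ≤ cst w (fun _ => h) x := by
  unfold cst ez
  refine Finset.sum_le_sum fun y _ => ?_
  by_cases h1 : x' ≤ y
  · rw [if_pos h1, if_pos (hxx.trans h1)]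
    exact min_le_min hh le_rfl
  · rw [if_neg h1]
    exact Nat.zero_le _

/-- exact cost of a cell of a stair -/
lemma cst_stair {t : P} {Nc : Finset P} {co : P → ℕ × ℕ} (C : Chart t (fun c => c.1 ≤ c.2) Nc co)
    {x : P} (hx : x ∈ Nc) {L h : ℕ} (hl : lev x = L) (hw : w ≤ L) :
    cst w (fun _ => h) x = ∑ n ∈ range (L - w + 1), min h n *
      (min ((w + n) / 2) (co x).1 + 1 - ((w + n) - (L - (co x).1))) := by
  have hl2 := C.lev x hx
  rw [cst_shift (i := w) (a := L - w) (by omega)]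
  refine Finset.sum_congr rfl fun n hn => ?_
  rw [mem_range] at hn
  have h3 := stair_nab C hx (k := w + n) (by omega)
  congr 1
  omega

lemma cst_rect {t : P} {Nc : Finset P} {co : P → ℕ × ℕ} (C : Chart t (fun _ => True) Nc co)
    {x : P} (hx : x ∈ Nc) {L h : ℕ} (hl : lev x = L) (hw : w ≤ L) :
    cst w (fun _ => h) x = ∑ n ∈ range (L - w + 1), min h n *
      (min (w + n) (co x).1 + 1 - ((w + n) - (L - (co x).1))) := by
  have hl2 := C.lev x hx
  rw [cst_shift (i := w) (a := L - w) (by omega)]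
  refine Finset.sum_congr rfl fun n hn => ?_
  rw [mem_range] at hn
  have h3 := rect_nab C hx (k := w + n) (by omega)
  congr 1
  omega

/-- deep cells of the stairs -/
theorem sdeep_of (hj : 3 ≤ j) (hwj : w < j)
    (hchk : ∀ a ∈ Finset.Icc 2 ((j + 1) / 2), K + 1 < stC w (j + 1) a)
    {t : P} {Nc : Finset P} {co : P → ℕ × ℕ} (C : Chart t (fun c => c.1 ≤ c.2) Nc co) {x : P}
    (hx : x ∈ Nc) {h : ℕ} (h1 : 2 ≤ (co x).1) (hlx : j + 1 ≤ lev x) (hh : h + 1 = lev x - w) :
    K + 1 < cst w (fun _ => h) x + h := by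
  have hl := C.lev x hx
  have hm : (co x).1 ≤ (co x).2 := C.mem x hx
  obtain ⟨y, hy, hcy⟩ := C.low x hx (j + 1 - min (co x).2 (j - 1), min (co x).2 (j - 1))
    ⟨by simp only; omega, by simp only; omega⟩
    (show j + 1 - min (co x).2 (j - 1) ≤ min (co x).2 (j - 1) by omega)
  have hly := C.lev y hy
  have hxy : x ≤ y := by
    rw [C.le_iff x hx y hy, hcy]
    exact ⟨by simp only; omega, by simp only; omega⟩
  have hy1 : (co y).1 = j + 1 - min (co x).2 (j - 1) := by rw [hcy]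
  have hy2 : (co y).2 = min (co x).2 (j - 1) := by rw [hcy]
  have hly' : lev y = j + 1 := by omega
  have h2 := cst_up (w := w) (h := h) (h' := j + 1 - w - 1) hxy (by omega)
  have h3 := cst_stair (w := w) (h := j + 1 - w - 1) C hy hly' (by omega)
  have h4 := hchk (co y).1 (by rw [Finset.mem_Icc]; omega)
  unfold stC at h4
  rw [h3] at h2
  omega

/-- deep cells of the rectangles -/
theorem rdeep_of (hj : 3 ≤ j) (hwj : w < j)
    (hchk : ∀ a ∈ Finset.Icc 2 (j - 1), K + 1 < reC w (j + 1) a)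
    {t : P} {Nc : Finset P} {co : P → ℕ × ℕ} (C : Chart t (fun _ => True) Nc co) {x : P}
    (hx : x ∈ Nc) {h : ℕ} (h1 : 2 ≤ (co x).1) (h2 : 2 ≤ (co x).2) (hlx : j + 1 ≤ lev x)
    (hh : h + min (min (co x).1 (co x).2) w = lev x - w + 1) :
    K + 1 < cst w (fun _ => h) x + h := by
  have hl := C.lev x hx
  obtain ⟨y, hy, hcy⟩ := C.low x hx (j + 1 - min (co x).2 (j - 1), min (co x).2 (j - 1))
    ⟨by simp only; omega, by simp only; omega⟩ trivial
  have hly := C.lev y hy
  have hxy : x ≤ y := by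
    rw [C.le_iff x hx y hy, hcy]
    exact ⟨by simp only; omega, by simp only; omega⟩
  have hy1 : (co y).1 = j + 1 - min (co x).2 (j - 1) := by rw [hcy]
  have hy2 : (co y).2 = min (co x).2 (j - 1) := by rw [hcy]
  have hly' : lev y = j + 1 := by omega
  have h3 := cst_up (w := w) (h := h)
    (h' := j + 1 - w + 1 - min (min (co y).1 (j + 1 - (co y).1)) w) hxy (by omega)
  have h4 := cst_rect (w := w)
    (h := j + 1 - w + 1 - min (min (co y).1 (j + 1 - (co y).1)) w) C hy hly' (by omega)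
  have h5 := hchk (co y).1 (by rw [Finset.mem_Icc]; omega)
  unfold reC at h5
  rw [h4] at h3
  omega

/-- the caps at the windows `2`, `3` -/
def KT (j w : ℕ) : ℕ := if w = 2 then (j - 3) * j / 2 - 3 else (j - 4) * (j - 1) / 2 - 2

lemma chk14 : (∀ a ∈ Finset.Icc 2 ((14 + 1) / 2), 13 ^ 2 + KT 14 2 + 1 < stC 2 (14 + 1) a) ∧
    (∀ a ∈ Finset.Icc 2 ((14 + 1) / 2), 12 ^ 2 + KT 14 3 + 1 < stC 3 (14 + 1) a) ∧
    (∀ a ∈ Finset.Icc 2 (14 - 1), 13 ^ 2 + KT 14 2 + 1 < reC 2 (14 + 1) a) ∧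
    (∀ a ∈ Finset.Icc 2 (14 - 1), 12 ^ 2 + KT 14 3 + 1 < reC 3 (14 + 1) a) := by
  decide +kernel

end Pool.Agent.GaussPoset.Sm
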