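import Pool.Agent.W_448s7_h5.SevGn

/-!
# S7 for `j ≤ 16`: window 0, all joins of least cost (MP_448cb3_co)
-/

namespace Pool.Agent.GaussPoset.Sm

set_option linter.unusedSectionVars false

open Polynomial Finset

universe u

variable {P : Type u} [Fintype P] [PartialOrder P] [DecidableEq P] {r j w : ℕ}

/-- an element below two tops with two private covers -/
abbrev Cg (z x x' : P) : Prop := Crs 0 (fun _ => False) z x x'

lemma Cg.mk' {z x x' : P} (h1 : z ⋖ x) (h2 : z ⋖ x') (h3 : x ∈ onlyB (topOf x))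
    (h4 : x' ∈ onlyB (topOf x')) (h5 : topOf x ≠ topOf x') : Cg z x x' :=
  ⟨h1, h2, h3, h4, h5, fun h => h.elim, fun h => h.elim⟩

lemma Cg.symm {z x x' : P} (h : Cg z x x') : Cg z x' x :=
  Cg.mk' h.cov' h.cov h.only' h.only h.ne.symm

lemma Cg.jn {z x x' : P} (h : Cg z x x') : Hul.Jn z :=
  ⟨topOf x, topOf x', (topOf x).2, (topOf x').2, fun hh => h.ne (Subtype.ext hh),
    h.cov.1.le.trans (le_topOf x), h.cov'.1.le.trans (le_topOf x')⟩

lemma ful_zero (z : P) : Hul.En 0 z = ful 0 z := by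
  rw [Hul.En_levels, ful_eq_above]
  rfl

lemma ua_anc (z : P) : Hul.ua z = anc z + 1 := Hul.ua_levels z

/-- a join above which there is no join -/
theorem cg_of_max {z : P} (hz : Hul.Jn z) (hmax : ∀ u, z < u → ¬ Hul.Jn u) :
    ∃ x x', Cg z x x' := by
  obtain ⟨t1, t2, h1, h2, hne, hz1, hz2⟩ := hz
  have hlt : ∀ t t' : P, lev t = 0 → lev t' = 0 → t ≠ t' → z ≤ t → z ≤ t' → z < t := by
    intro t t' h h' hn hz hz'
    refine lt_of_le_of_ne hz ?_
    rintro rfl
    have h3 : z < t' := lt_of_le_of_ne hz' hn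
    have := lev_strictAnti h3
    omega
  obtain ⟨x, hx, hxt⟩ := Hul.exists_cov (hlt t1 t2 h1 h2 hne hz1 hz2)
  obtain ⟨x', hx', hxt'⟩ := Hul.exists_cov (hlt t2 t1 h2 h1 hne.symm hz2 hz1)
  have hon : ∀ y : P, z < y → y ∈ onlyB (topOf y) := fun y hy =>
    mem_onlyB.mpr fun s hs hys => Hul.top_unique (hmax y hy) hs (topOf y).2 hys (le_topOf y)
  have e1 : (topOf x : P) = t1 := Hul.top_unique (hmax x hx.1) (topOf x).2 h1 (le_topOf x) hxt
  have e2 : (topOf x' : P) = t2 := Hul.top_unique (hmax x' hx'.1) (topOf x').2 h2 (le_topOf x') hxt'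
  refine ⟨x, x', Cg.mk' hx hx' (hon x hx.1) (hon x' hx'.1) ?_⟩
  intro h
  apply hne
  rw [← e1, ← e2, h]

/-- **Classification at window `0`.** -/
theorem class_zero (H : Gr P r) (hJ : ∃ z : P, Hul.Jn z) :
    ∃ v, (∀ z : P, Hul.Jn z → v ≤ ful 0 z) ∧
      (∃ z x x' : P, Cg z x x' ∧ ful 0 z = v ∧ Odd (anc z)) ∧
      ∃ z x x' : P, Cg z x x' ∧ ful 0 z = v ∧ Even (anc z) := by
  classical
  obtain ⟨w0, hw0⟩ := hJ
  obtain ⟨w, hw, hmin⟩ := Finset.exists_min_image (univ.filter fun u : P => Hul.Jn u)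
    (fun u => Hul.En 0 u) ⟨w0, by simp [hw0]⟩
  rw [mem_filter] at hw
  have hE : ∀ u : P, Hul.Jn u → Hul.En 0 w ≤ Hul.En 0 u := fun u hu => hmin u (by simp [hu])
  have hpos : ∀ u : P, Hul.Jn u → 0 < lev u := by
    rintro u ⟨t1, t2, h1, h2, hne, hz1, hz2⟩
    by_contra h0
    have e1 : u = t1 := by
      by_contra hcon
      have := lev_strictAnti (lt_of_le_of_ne hz1 hcon)
      omega
    have e2 : u = t2 := by
      by_contra hcon
      have := lev_strictAnti (lt_of_le_of_ne hz2 hcon)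
      omega
    exact hne (e1.symm.trans e2)
  have hmx : ∀ u : P, Hul.Jn u → Hul.En 0 u = Hul.En 0 w → ∀ t, u < t → ¬ Hul.Jn t := by
    intro u hu huE t ht hJ
    have h1 := hE t hJ
    have h2 := Hul.En_lt (i := 0) (hpos u hu) ht
    omega
  have hsum := Hul.hull_zero H hE
  have hne : (univ.filter (fun u : P => Hul.Jn u ∧ Hul.En 0 u = Hul.En 0 w)).Nonempty :=
    ⟨w, by simp [hw.2]⟩
  obtain ⟨⟨z1, hz1, he⟩, z2, hz2, ho⟩ := both_signs _ _ hsum hne
  rw [mem_filter] at hz1 hz2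
  refine ⟨ful 0 w, fun z hz => ?_, ?_, ?_⟩
  · rw [← ful_zero, ← ful_zero]
    exact hE z hz
  · obtain ⟨x, x', h⟩ := cg_of_max hz1.2.1 (hmx z1 hz1.2.1 hz1.2.2)
    refine ⟨z1, x, x', h, by rw [← ful_zero, ← ful_zero]; exact hz1.2.2, ?_⟩
    rw [ua_anc] at he
    rcases Nat.even_or_odd (anc z1) with h' | h'
    · exact absurd he (Nat.not_even_iff_odd.mpr h'.add_one)
    · exact h'
  · obtain ⟨x, x', h⟩ := cg_of_max hz2.2.1 (hmx z2 hz2.2.1 hz2.2.2)
    refine ⟨z2, x, x', h, by rw [← ful_zero, ← ful_zero]; exact hz2.2.2, ?_⟩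
    rw [ua_anc] at ho
    rcases Nat.even_or_odd (anc z2) with h' | h'
    · exact h'
    · exact absurd ho (Nat.not_odd_iff_even.mpr h'.add_one)

/-- extra elements on the levels `> j` -/
noncomputable def nJ (j : ℕ) (z : P) : ℤ :=
  ∑ k ∈ range (lev z - (j + 1)), ((nab (j + 1 + k) z : ℤ) - 2)

/-- their total depth -/
noncomputable def dJ (j : ℕ) (z : P) : ℤ :=
  ∑ k ∈ range (lev z - (j + 1)), ((nab (j + 1 + k) z : ℤ) - 2) * ((k : ℤ) + 1)

/-- **The line of a cross element.** -/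
theorem Cg.line (H : Gr P r) {z x x' : P} (h : Cg z x x') (hl : j + 1 ≤ lev z) :
    kapZ j z = 2 * ((lev z : ℤ) - (j + 1)) + (mX j x + mX j x') +
        (((nab j x : ℤ) - 1) + ((nab j x' : ℤ) - 1)) + nJ j z ∧
      gZ j z = ((lev z : ℤ) - (j + 1)) * ((lev z : ℤ) - (j + 1)) + 2 * ((lev z : ℤ) - (j + 1)) -
        (cX j x + cX j x') + dJ j z ∧
      0 ≤ nJ j z ∧ nJ j z ≤ dJ j z ∧ dJ j z ≤ ((lev z : ℤ) - (j + 1) - 1) * nJ j z ∧
      (lev z ≤ j + 2 → nJ j z = 0 ∧ dJ j z = 0) := by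
  obtain ⟨l1, l2⟩ := h.lev_eq H
  have hs : ∀ k, k < lev z → (nab k z : ℤ) = nab k x + nab k x' := fun k hk => by
    rw [h.sum H hk]
    push_cast
    ring
  have hnn : ∀ k, k < lev z → 0 ≤ (nab k z : ℤ) - 2 := fun k hk => by
    have h1 := one_le_nab (l := k) (z := x) (by omega)
    have h2 := one_le_nab (l := k) (z := x') (by omega)
    rw [hs k hk]
    have h1' : (1 : ℤ) ≤ nab k x := by exact_mod_cast h1
    have h2' : (1 : ℤ) ≤ nab k x' := by exact_mod_cast h2
    linarith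
  obtain ⟨c, hc⟩ : ∃ c, lev z = j + 1 + c := ⟨lev z - (j + 1), by omega⟩
  have hc' : lev z - (j + 1) = c := by omega
  have em : mZ z = mX j x + mX j x' + (((nab j x : ℤ) - 1) + ((nab j x' : ℤ) - 1)) + nJ j z := by
    unfold mZ mX nJ
    rw [hc', hc, Finset.sum_range_add, Finset.sum_range_succ, ← Finset.sum_add_distrib]
    rw [hs j (by omega)]
    have : ∑ k ∈ range j, ((nab k z : ℤ) - 2) =
        ∑ k ∈ range j, ((nab k x : ℤ) - 1 + ((nab k x' : ℤ) - 1)) := by
      refine Finset.sum_congr rfl fun k hk => ?_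
      rw [mem_range] at hk
      rw [hs k (by omega)]
      ring
    rw [this]
    ring
  have ec : cZ j z = cX j x + cX j x' - dJ j z := by
    unfold cZ cX dJ
    rw [hc', hc, Finset.sum_range_add, Finset.sum_range_succ, ← Finset.sum_add_distrib]
    have e1 : ∑ k ∈ range j, ((nab k z : ℤ) - 2) * ((j : ℤ) - k) =
        ∑ k ∈ range j, (((nab k x : ℤ) - 1) * ((j : ℤ) - k) + ((nab k x' : ℤ) - 1) * ((j : ℤ) - k)) := by
      refine Finset.sum_congr rfl fun k hk => ?_
      rw [mem_range] at hk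
      rw [hs k (by omega)]
      ring
    have e2 : ∑ k ∈ range c, ((nab (j + 1 + k) z : ℤ) - 2) * ((j : ℤ) - ((j + 1 + k : ℕ) : ℤ)) =
        -∑ k ∈ range c, ((nab (j + 1 + k) z : ℤ) - 2) * ((k : ℤ) + 1) := by
      rw [← Finset.sum_neg_distrib]
      refine Finset.sum_congr rfl fun k _ => ?_
      push_cast
      ring
    rw [e1, e2]
    ring
  have hlast : ∀ k, k < c → c ≤ k + 1 → (nab (j + 1 + k) z : ℤ) - 2 = 0 := by
    intro k hk hk2
    rw [hs _ (by omega), show j + 1 + k = lev x by omega, nab_self,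
      show lev x = lev x' by omega, nab_self]
    norm_num
  refine ⟨?_, ?_, ?_, ?_, ?_, ?_⟩
  · unfold kapZ
    rw [em]
    ring
  · unfold gZ
    rw [ec]
    ring
  · unfold nJ
    exact Finset.sum_nonneg fun k hk => hnn _ (by rw [mem_range] at hk; omega)
  · unfold nJ dJ
    refine Finset.sum_le_sum fun k hk => ?_
    rw [mem_range] at hk
    have h1 := hnn (j + 1 + k) (by omega)
    have h2 : (0 : ℤ) ≤ k := Int.natCast_nonneg k
    nlinarith
  · unfold nJ dJ
    rw [hc', Finset.mul_sum]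
    refine Finset.sum_le_sum fun k hk => ?_
    rw [mem_range] at hk
    rcases Nat.lt_or_ge (k + 1) c with h1 | h1
    · have h2 := hnn (j + 1 + k) (by omega)
      rw [mul_comm]
      refine mul_le_mul_of_nonneg_right ?_ h2
      rw [hc]
      push_cast
      have : (k : ℤ) + 2 ≤ c := by exact_mod_cast h1
      linarith
    · rw [hlast k hk h1]
      norm_num
  · intro hl2
    have hz : ∀ k, k < c → (nab (j + 1 + k) z : ℤ) - 2 = 0 := fun k hk => hlast k hk (by omega)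
    constructor
    · unfold nJ
      rw [hc']
      exact Finset.sum_eq_zero fun k hk => hz k (mem_range.mp hk)
    · unfold dJ
      rw [hc']
      exact Finset.sum_eq_zero fun k hk => by rw [hz k (mem_range.mp hk), zero_mul]

end Pool.Agent.GaussPoset.Sm
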