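import Pool.Agent.W_448s7s_h5.SmB

/-!
# S7 for `j ≤ 16`: the sides of a cross element (MP_448cb3_co)
-/

namespace Pool.Agent.GaussPoset.Sm

set_option linter.unusedSectionVars false

open Finset Wd

universe u

variable {P : Type u} [Fintype P] [PartialOrder P] [DecidableEq P] {r j w : ℕ}

/-- the words of the late components -/
def IsW (a : ℕ) (w : List Ltr) : Prop :=
  ((1 ≤ w.length ∧ w.length ≤ a) ∧ w = Qw w.length) ∨ w ∈ lateW a

/-- extra elements on the level `j - 2` -/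
def rhA (w : List Ltr) (A : Finset ℕ) : ℕ := if 2 ≤ w.length then xA w A (w.length - 2) else 0

/-- the words of level `j` -/
def wds (j a : ℕ) : List (List Ltr) :=
  if a = 2 then (if j = 6 then [[OC, OO, CC, OC]] else [])
  else lateW a ++ (if 1 ≤ j - a ∧ j - a ≤ a then [Qw (j - a)] else [])

/-- the data of the ends of level `j` -/
def ChkE (j : ℕ) (S : List (ℕ × ℕ × ℕ)) : Prop :=
  ∀ a ∈ range (j + 1), 2 ≤ a → ∀ w ∈ wds j a, w.length = j - a →
    ∀ A ∈ (Icc (Lw w (w.length + 3)) (Hw w (w.length + 3))).powerset, A.Nonempty →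
      condA 0 w A → (mA w A, dA w A, rhA w A) ∈ S

instance (j : ℕ) (S : List (ℕ × ℕ × ℕ)) : Decidable (ChkE j S) := by
  unfold ChkE; infer_instance

/-- the data of the sides of level `j + q` -/
def ChkS (j q : ℕ) (S : List (ℕ × ℕ × ℕ)) : Prop :=
  ∀ a ∈ range (j + 1), 2 ≤ a → ∀ w ∈ wds j a, w.length = j - a →
    ∀ A ∈ (Icc (Lw w (w.length + 3)) (Hw w (w.length + 3))).powerset, A.Nonempty →
      condA q w A → (mA w A, dA w A, A.card - 1) ∈ S

instance (j q : ℕ) (S : List (ℕ × ℕ × ℕ)) : Decidable (ChkS j q S) := by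
  unfold ChkS; infer_instance

section

variable {t : Tops P} {lo hi : ℕ → ℕ} {e : ℕ → ℕ → P} {a : ℕ}

/-- the side of a late component -/
theorem late_side (G : Win.GoodTo P r j) (hj : 2 ≤ j) (C : Cp.Comp j (t : P) lo hi e)
    (h0 : 2 ≤ a) (h1 : a ≤ j) (h2 : ∀ k, k < a → lo k = 0 ∧ hi k = 0) (h3 : lo a = 0 ∧ hi a = 1)
    {x : P} (hx : x ∈ onlyB t) (hl : j ≤ lev x) (hend : lev x = j → (Win.uc x).card = 1)
    {W : List Ltr} (hW : word lo hi a (j - a) = W) :
    ∃ A ∈ (Icc (Lw W (W.length + 3)) (Hw W (W.length + 3))).powerset, A.Nonempty ∧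
      (∀ q, lev x = j + q → condA q W A) ∧ mX j x = mA W A ∧ cX j x = dA W A ∧
      (nab j x : ℤ) - 1 = ((A.card - 1 : ℕ) : ℤ) ∧ nab (j - 2) x = rhA W A + 1 := by
  classical
  have H := G.H
  have hg := G.good
  obtain ⟨d, rfl⟩ : ∃ d, j = a + d := ⟨j - a, by omega⟩
  rw [Nat.add_sub_cancel_left] at hW
  have hlen : W.length = d := by rw [← hW, word_length]
  have hL : ∀ n, n ≤ d → Lw W (n + 3) = lo (a + n) := by
    rw [← hW]
    exact lo_word (a := a) (d := d) C.lo_step h3.1 (hi := hi) le_rfl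
  have hH : ∀ n, n ≤ d → Hw W (n + 3) = hi (a + n) := by
    rw [← hW]
    exact hi_word (a := a) (d := d) C.hi_step h3.2 (lo := lo) le_rfl
  have hpl : Lw W (W.length + 2) = lo (a + d - 1) := by
    rw [hlen]
    rcases Nat.eq_zero_or_pos d with hd | hd
    · subst hd
      have : Lw W (0 + 2) = 0 := by simp [Lw]
      rw [this, (h2 (a + 0 - 1) (by omega)).1]
    · obtain ⟨d', rfl⟩ : ∃ d', d = d' + 1 := ⟨d - 1, by omega⟩
      rw [show d' + 1 + 2 = d' + 3 by omega, hL d' (by omega)]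
      rfl
  have hph : Hw W (W.length + 2) = hi (a + d - 1) := by
    rw [hlen]
    rcases Nat.eq_zero_or_pos d with hd | hd
    · subst hd
      have : Hw W (0 + 2) = 0 := by simp [Hw]
      rw [this, (h2 (a + 0 - 1) (by omega)).2]
    · obtain ⟨d', rfl⟩ : ∃ d', d = d' + 1 := ⟨d - 1, by omega⟩
      rw [show d' + 1 + 2 = d' + 3 by omega, hH d' (by omega)]
      rfl
  have hone : ∀ k, k < a → (nab k x : ℤ) - 1 = 0 := by
    intro k hk
    rw [nab_one_of_eq C hx (by omega) (by omega) (by rw [(h2 k hk).1, (h2 k hk).2])]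
    norm_num
  set A := posA (a + d) lo hi e x with hA
  have hxA : ∀ n, n < d → (nab (a + n) x : ℤ) - 1 = xA W A n := by
    intro n hn
    have h4 := nab_pos H hg C hx hl (k := a + n) (by omega)
    have h5 := one_le_nab (l := a + n) (z := x) (by omega)
    unfold xA
    rw [hL n hn.le, hH n hn.le, hlen, h4, ← hA, show a + d - (a + n) = d - n by omega]
    rw [h4, ← hA, show a + d - (a + n) = d - n by omega] at h5
    omega
  have hcard := card_posA C hx
  have hnj := one_le_nab (l := a + d) (z := x) hl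
  rw [hcard, ← hA] at hnj
  obtain ⟨c1, c2⟩ := pos_cond G hj C hx hl hend
  rw [← hA] at c1 c2
  refine ⟨A, ?_, Finset.card_pos.mp hnj, ?_, ?_, ?_, ?_, ?_⟩
  · rw [Finset.mem_powerset, hlen, hL d le_rfl, hH d le_rfl]
    intro s hs
    rw [hA, mem_posA] at hs
    exact mem_Icc.mpr hs.1
  · intro q hq
    refine ⟨fun hq0 => ?_, fun hq1 => ?_⟩
    · obtain ⟨g1, g2⟩ := c1 (by omega)
      refine ⟨g1, fun s hs => ?_⟩
      unfold EndP
      rw [hpl, hph]
      exact g2 s hs
    · obtain ⟨g1, g2⟩ := c2 (by omega)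
      refine ⟨g1, g2.imp id fun g s hs => ?_⟩
      unfold EndP
      rw [hpl, hph]
      exact g s hs
  · unfold mX mA
    rw [Finset.sum_range_add, Finset.sum_eq_zero fun k hk => hone k (mem_range.mp hk), zero_add,
      hlen, Nat.cast_sum]
    exact Finset.sum_congr rfl fun n hn => hxA n (mem_range.mp hn)
  · unfold cX dA
    rw [Finset.sum_range_add, Finset.sum_eq_zero fun k hk => by
      rw [hone k (mem_range.mp hk), zero_mul], zero_add, hlen, Nat.cast_sum]
    refine Finset.sum_congr rfl fun n hn => ?_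
    rw [hxA n (mem_range.mp hn), Nat.cast_mul]
    rw [mem_range] at hn
    congr 1
    omega
  · rw [hcard, ← hA]
    omega
  · unfold rhA
    rw [hlen]
    split_ifs with hd
    · have h4 := hxA (d - 2) (by omega)
      rw [show a + (d - 2) = a + d - 2 by omega] at h4
      omega
    · have h4 := hone (a + d - 2) (by omega)
      omega

/-- the kinds of components whose sides are in the lists -/
structure LateC (j : ℕ) (lo hi : ℕ → ℕ) (a : ℕ) : Prop where
  two : 2 ≤ a
  le : a ≤ j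
  low : ∀ k, k < a → lo k = 0 ∧ hi k = 0
  at_a : lo a = 0 ∧ hi a = 1
  word : word lo hi a (j - a) ∈ wds j a

/-- the side of a late component in a list -/
theorem late_mem (G : Win.GoodTo P r j) (hj : 2 ≤ j) (C : Cp.Comp j (t : P) lo hi e)
    (h : LateC j lo hi a)
    {x : P} (hx : x ∈ onlyB t) (hl : j ≤ lev x) (hend : lev x = j → (Win.uc x).card = 1)
    {q p : ℕ} (hq : lev x = j + q) (hp : p = min q 2) {S : List (ℕ × ℕ × ℕ)} (hS : ChkS j p S) :
    ∃ m c b : ℕ, (m, c, b) ∈ S ∧ mX j x = m ∧ cX j x = c ∧ (nab j x : ℤ) - 1 = b := by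
  obtain ⟨A, g1, g2, g3, g4, g5, g6, -⟩ := late_side G hj C h.two h.le h.low h.at_a hx hl hend rfl
  refine ⟨_, _, _, hS a (mem_range.mpr (by have := h.le; omega)) h.two _ h.word (by simp) A g1 g2
    ?_, g4, g5, g6⟩
  have h5 := g3 q hq
  exact ⟨fun h => h5.1 (by omega), fun h => h5.2 (by omega)⟩

/-- the ends of a late component in a list -/
theorem late_end (G : Win.GoodTo P r j) (hj : 2 ≤ j) (C : Cp.Comp j (t : P) lo hi e)
    (h : LateC j lo hi a) {x : P} (hx : x ∈ onlyB t) (hl : lev x = j)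
    (hend : (Win.uc x).card = 1) {S : List (ℕ × ℕ × ℕ)} (hS : ChkE j S) :
    ∃ m c b : ℕ, (m, c, b) ∈ S ∧ mX j x = m ∧ cX j x = c ∧ nab (j - 2) x = b + 1 := by
  obtain ⟨A, g1, g2, g3, g4, g5, -, g7⟩ := late_side G hj C h.two h.le h.low h.at_a hx hl.ge
    (fun _ => hend) rfl
  exact ⟨_, _, _, hS a (mem_range.mpr (by have := h.le; omega)) h.two _ h.word (by simp) A g1 g2
    (g3 0 hl), g4, g5, g7⟩

/-- the shapes: straight, early or late -/
theorem shape_cases (C : Cp.Comp j (t : P) lo hi e) (hj : 5 ≤ j) (S : Shape j lo hi) :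
    (∀ k, k ≤ j → lo k = hi k) ∨ (RectShape j lo hi ∨ StairShape j lo hi) ∨
      ∃ a, LateC j lo hi a ∧ (j ≠ 6 → 3 ≤ a) := by
  rcases S with h | ⟨h1, h2⟩ | ⟨h1, h2⟩ | ⟨h0, _, _⟩ | ⟨h0, h1⟩ | ⟨a, h0, h1, h2, h3, hN, h4⟩
  · exact Or.inl fun k hk => by rw [(h k hk).1, (h k hk).2]
  · exact Or.inr (Or.inl (Or.inl h2))
  · exact Or.inr (Or.inl (Or.inr h2))
  · omega
  · right; right
    obtain ⟨⟨l0, l1, l2, l3, l4, l5, l6⟩, u0, u1, u2, u3, u4, u5, u6⟩ := h1
    subst h0
    refine ⟨2, ⟨le_rfl, by norm_num, fun k hk => ?_, ⟨l2, u2⟩, ?_⟩, fun h => absurd rfl h⟩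
    · have : k = 0 ∨ k = 1 := by omega
      rcases this with rfl | rfl
      · exact ⟨l0, u0⟩
      · exact ⟨l1, u1⟩
    · have : Wd.word lo hi 2 (6 - 2) = [OC, OO, CC, OC] := by
        unfold Wd.word
        simp [List.range_succ, l2, l3, l4, l5, l6, u2, u3, u4, u5, u6, OC, OO, CC]
      rw [this]
      simp [wds]
  · right; right
    refine ⟨a, ⟨by omega, h1, h2, h3, ?_⟩, fun _ => h0⟩
    unfold wds
    rw [if_neg (by omega), List.mem_append]
    rcases h4 with ⟨h5, h6⟩ | h5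
    · right
      rw [if_pos h5, h6]
      simp
    · exact Or.inl h5

end

end Pool.Agent.GaussPoset.Sm
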