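import Pool.Agent.W_448s7s_h5.SmC

/-!
# S7 for `j ≤ 16`: elements below the early components (MP_448cb3_co)
-/

namespace Pool.Agent.GaussPoset.Sm

set_option linter.unusedSectionVars false

open Finset Wd

universe u

variable {P : Type u} [Fintype P] [PartialOrder P] [DecidableEq P] {r j w : ℕ}

/-- straight elements -/
def Strt (j : ℕ) (x : P) : Prop := ∀ k, k ≤ j → nab k x = 1

/-- the fold end -/
def Fold (j : ℕ) (x : P) : Prop :=
  lev x = j ∧ j % 2 = 0 ∧ ∀ k, k ≤ j → nab k x + (k - j / 2) = k / 2 + 1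

section

open Cp

variable {t : Tops P} {lo hi : ℕ → ℕ} {e : ℕ → ℕ → P}

/-- rectangle-like strips -/
lemma rect_dich' (H : Gr P r) {co : P → ℕ × ℕ}
    (C : Chart (t : P) (fun _ => True) (lowPart j (t : P)) co) (hj : 4 ≤ j) {x : P}
    (hx : x ∈ onlyB t) (hl : j ≤ lev x) :
    (∀ k, k ≤ j → nab k x = 1) ∨ ((∀ k, 2 ≤ k → k + 2 ≤ j → 2 ≤ nab k x) ∧
      (lev x = j → (Win.uc x).card = 2)) := by
  classical
  -- straight and inner cells
  have hstr : ∀ q ∈ lowPart j (t : P), lev q = j → ((co q).1 = 0 ∨ (co q).2 = 0) →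
      ∀ k, k ≤ j → nab k q = 1 := by
    intro q hq hlq h0 k hk
    have h1 := rect_nab C hq (k := k) (by omega)
    have h2 := C.lev q hq
    omega
  have hinn : ∀ q ∈ lowPart j (t : P), lev q = j → 1 ≤ (co q).1 → 1 ≤ (co q).2 →
      ∀ k, 2 ≤ k → k + 2 ≤ j → 2 ≤ nab k q := by
    intro q hq hlq h1 h2 k hk hk2
    have h3 := rect_nab C hq (k := k) (by omega)
    have h4 := C.lev q hq
    omega
  by_cases hin : ∃ q, x ≤ q ∧ lev q = j ∧ 1 ≤ (co q).1 ∧ 1 ≤ (co q).2
  · obtain ⟨q, h1, h2, h3, h4⟩ := hin
    have hq := low_anc hx h1 h2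
    right
    refine ⟨fun k hk hk2 => (hinn q hq h2 h3 h4 k hk hk2).trans (nab_mono h1), fun hlx => ?_⟩
    have : x = q := by
      by_contra hne
      have := lev_strictAnti (lt_of_le_of_ne h1 hne)
      omega
    rw [this]
    exact chart_inner_uc C H hq h3 h4
  · push Not at hin
    have hst : ∀ q, x ≤ q → lev q = j → (co q).1 = 0 ∨ (co q).2 = 0 := by
      intro q h1 h2
      have := hin q h1 h2
      omega
    obtain ⟨q, h1, h2, h3⟩ := exists_between H.gradedBelow (z := x) (s := (t : P)) (onlyB_le hx)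
      (l := j) (by have := t.2; omega) hl
    by_cases huni : ∀ q', x ≤ q' → lev q' = j → q' = q
    · left
      intro k hk
      rw [nab_through H h1 h3 huni hk]
      exact hstr q (low_anc hx h1 h3) h3 (hst q h1 h3) k hk
    · push Not at huni
      obtain ⟨q', h1', h3', hne⟩ := huni
      right
      have hq := low_anc hx h1 h3
      have hq' := low_anc hx h1' h3'
      have key : ∀ a a' : P, x ≤ a → x ≤ a' → a ∈ lowPart j (t : P) → a' ∈ lowPart j (t : P) →
          lev a = j → lev a' = j → (co a).1 = 0 → (co a').2 = 0 → ∀ k, 2 ≤ k → k + 2 ≤ j →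
          2 ≤ nab k x := by
        intro a a' hxa hxa' ha ha' hla hla' h0 h0' k hk hk2
        have l1 := C.lev a ha
        have l2 := C.lev a' ha'
        obtain ⟨y, hy, hcy⟩ := C.low a ha (0, k) ⟨Nat.zero_le _, by simp only; omega⟩ trivial
        obtain ⟨y', hy', hcy'⟩ := C.low a' ha' (k, 0) ⟨by simp only; omega, Nat.zero_le _⟩ trivial
        have ly := C.lev y hy
        have ly' := C.lev y' hy'
        rw [hcy] at ly
        rw [hcy'] at ly'
        simp only at ly ly'
        refine two_le_nab (x := y) (y := y') (hxa.trans ?_) (hxa'.trans ?_) (by omega) (by omega) ?_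
        · rw [C.le_iff a ha y hy, hcy]
          exact ⟨Nat.zero_le _, by simp only; omega⟩
        · rw [C.le_iff a' ha' y' hy', hcy']
          exact ⟨by simp only; omega, Nat.zero_le _⟩
        · rintro rfl
          rw [hcy] at hcy'
          simp only [Prod.mk.injEq] at hcy'
          omega
      have l1 := C.lev q hq
      have l2 := C.lev q' hq'
      refine ⟨?_, fun hlx => ?_⟩
      · rcases hst q h1 h3 with s1 | s1
        · rcases hst q' h1' h3' with s2 | s2
          · exact absurd (C.inj q' hq' q hq (Prod.ext (by omega) (by omega))) hne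
          · exact key q q' h1 h1' hq hq' h3 h3' s1 s2
        · rcases hst q' h1' h3' with s2 | s2
          · exact key q' q h1' h1 hq' hq h3' h3 s2 s1
          · exact absurd (C.inj q' hq' q hq (Prod.ext (by omega) (by omega))) hne
      · exfalso
        have a1 : x = q := by
          by_contra hcon
          have := lev_strictAnti (lt_of_le_of_ne h1 hcon)
          omega
        have a2 : x = q' := by
          by_contra hcon
          have := lev_strictAnti (lt_of_le_of_ne h1' hcon)
          omega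
        exact hne (a2.symm.trans a1)

/-- stair-like strips -/
lemma stair_dich' (H : Gr P r) {co : P → ℕ × ℕ}
    (C : Chart (t : P) (fun c => c.1 ≤ c.2) (lowPart j (t : P)) co) (hj : 4 ≤ j) {x : P}
    (hx : x ∈ onlyB t) (hl : j ≤ lev x) :
    (∀ k, k ≤ j → nab k x = 1) ∨ ((∀ k, 2 ≤ k → k + 2 ≤ j → 2 ≤ nab k x) ∧
      (lev x = j → (Win.uc x).card = 2 ∨
        (j % 2 = 0 ∧ ∀ k, k ≤ j → nab k x + (k - j / 2) = k / 2 + 1))) := by
  classical
  by_cases hin : ∃ q, x ≤ q ∧ lev q = j ∧ 1 ≤ (co q).1
  · obtain ⟨q, h1, h2, h3⟩ := hin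
    have hq := low_anc hx h1 h2
    have hm : (co q).1 ≤ (co q).2 := C.mem q hq
    have hlq := C.lev q hq
    right
    refine ⟨fun k hk hk2 => le_trans ?_ (nab_mono h1), fun hlx => ?_⟩
    · have h4 := stair_nab C hq (k := k) (by omega)
      omega
    · have : x = q := by
        by_contra hne
        have := lev_strictAnti (lt_of_le_of_ne h1 hne)
        omega
      rw [this]
      rcases Nat.lt_or_ge (co q).1 (co q).2 with h4 | h4
      · exact Or.inl (stair_inner_uc C H hq h3 h4)
      · right
        refine ⟨by omega, fun k hk => ?_⟩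
        have h5 := stair_nab C hq (k := k) (by omega)
        have h6 : (co q).2 = j / 2 := by omega
        rw [h6] at h5
        omega
  · push Not at hin
    left
    obtain ⟨q, h1, h2, h3⟩ := exists_between H.gradedBelow (z := x) (s := (t : P)) (onlyB_le hx)
      (l := j) (by have := t.2; omega) hl
    have hq := low_anc hx h1 h3
    have hlq := C.lev q hq
    have h4 := hin q h1 h3
    intro k hk
    rw [nab_through H h1 h3 (fun q' h1' h3' => by
      have hq' := low_anc hx h1' h3'
      have hlq' := C.lev q' hq'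
      have h4' := hin q' h1' h3'
      exact C.inj q' hq' q hq (Prod.ext (by omega) (by omega))) hk]
    have h5 := stair_nab C hq (k := k) (by omega)
    omega

/-- the dichotomy for an early strip -/
theorem early_dich (H : Gr P r) (hg : ∀ l, l < j → Win.Good P l) (hj : 4 ≤ j)
    (C : Comp j (t : P) lo hi e)
    (hS : RectShape j lo hi ∨ StairShape j lo hi ∨
      StairShape j (fun k => k - hi k) (fun k => k - lo k)) {x : P}
    (hx : x ∈ onlyB t) (hl : j ≤ lev x) (hend : lev x = j → (Win.uc x).card = 1) :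
    Strt j x ∨ Fold j x ∨ (j + 1 ≤ lev x ∧ ∀ k, 2 ≤ k → k + 2 ≤ j → 2 ≤ nab k x) := by
  have hstair : ∀ (lo hi : ℕ → ℕ) (e : ℕ → ℕ → P), Comp j (t : P) lo hi e → StairShape j lo hi →
      Strt j x ∨ Fold j x ∨ (j + 1 ≤ lev x ∧ ∀ k, 2 ≤ k → k + 2 ≤ j → 2 ≤ nab k x) := by
    intro lo hi e C S
    rcases stair_dich' H (chart_stair C H hg S) hj hx hl with h | ⟨h1, h2⟩
    · exact Or.inl h
    · rcases eq_or_lt_of_le hl with h3 | h3
      · have h4 := hend h3.symm
        rcases h2 h3.symm with h5 | h5
        · omega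
        · exact Or.inr (Or.inl ⟨h3.symm, h5⟩)
      · exact Or.inr (Or.inr ⟨h3, h1⟩)
  rcases hS with hS | hS | hS
  · rcases rect_dich' H (chart_rect C H hg hS) hj hx hl with h | ⟨h1, h3⟩
    · exact Or.inl h
    · rcases eq_or_lt_of_le hl with h4 | h4
      · have h5 := hend h4.symm
        have h6 := h3 h4.symm
        omega
      · exact Or.inr (Or.inr ⟨h4, h1⟩)
  · exact hstair lo hi e C hS
  · exact hstair _ _ _ (comp_swap C) hS

end

end Pool.Agent.GaussPoset.Sm
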