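import Pool.Agent.W_448s7s_h5.SmF

/-!
# S7 for `j ≤ 16`: the balance at window `0` (MP_448cb3_co)
-/

namespace Pool.Agent.GaussPoset.Sm

set_option linter.unusedSectionVars false

open Finset Wd

universe u

variable {P : Type u} [Fintype P] [PartialOrder P] [DecidableEq P] {r j w : ℕ}

/-- the cap at window `0` -/
def cap0 (j : ℕ) : ℤ := 2 * j + 1 + ((j - 1) * (j - 2) / 2 : ℕ)

lemma Cg.two_le (H : Gr P r) {z x x' : P} (h : Cg z x x') {k : ℕ} (hk : k < lev z) :
    2 ≤ nab k z := by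
  obtain ⟨l1, l2⟩ := h.lev_eq H
  rw [h.sum H hk]
  have := one_le_nab (l := k) (z := x) (by omega)
  have := one_le_nab (l := k) (z := x') (by omega)
  omega

/-- the relative cost of a cross element at window `0` -/
lemma Cg.line0 {z x x' : P} (h : Cg z x x') (H : Gr P r) :
    (ful 0 z : ℤ) = ((j : ℤ) + 1) ^ 2 + (kapZ j z * ((j : ℤ) - (0 : ℕ)) + gZ j z) := by
  have hl := (h.lev_eq H).1
  have := ful_line (j := j) (w := 0) (z := z) (by omega) (by omega) (fun k hk => by omega)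
  rw [this]
  norm_num

/-- a fat side is expensive at window `0` -/
theorem fat0 (H : Gr P r) (hj : 5 ≤ j) {z x x' : P} (h : Cg z x x') (hf : Fatt j x) :
    ((j : ℤ) + 1) ^ 2 + cap0 j < ful 0 z := by
  obtain ⟨l1, l2⟩ := h.lev_eq H
  obtain ⟨f1, f2⟩ := hf
  obtain ⟨c, hc⟩ : ∃ c, lev z = 0 + c := ⟨lev z, by omega⟩
  have h4 := ful_ge (w := 0) (fun n => ind 2 (j - 1) n) hc (fun n hn1 hn2 => by
    rw [Nat.zero_add]
    unfold ind
    split_ifs with h6
    · rw [h.sum H (by omega)]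
      have := f2 n (by omega) (by omega)
      have := one_le_nab (l := n) (z := x') (by omega)
      omega
    · exact h.two_le H (by omega))
  have g2 := sum_ind (s := 2) (a := j - 1) (m := c) (by omega)
  obtain ⟨i, rfl⟩ : ∃ i, j = i + 2 := ⟨j - 2, by omega⟩
  rw [show i + 2 - 1 = i + 1 by omega, show i + 1 - 1 = i by omega] at g2
  rw [show i + 2 - 1 = i + 1 by omega] at h4
  norm_num at g2
  have h7 : (i + 4) ^ 2 ≤ c ^ 2 := Nat.pow_le_pow_left (by omega) 2
  have h8 : (i + 1) * i / 2 * 2 ≤ (i + 1) * i := Nat.div_mul_le_self _ _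
  have h9 : (i + 4) ^ 2 = i ^ 2 + 8 * i + 16 := by ring
  have h10 : (i + 2 + 1) ^ 2 = i ^ 2 + 6 * i + 9 := by ring
  have h11 : (i + 2 + 1) ^ 2 + (2 * (i + 2) + 1 + (i + 1) * i / 2) < ful 0 z := by omega
  unfold cap0
  rw [show i + 2 - 1 = i + 1 by omega, show i + 2 - 2 = i by omega]
  have h12 : (((i + 2 + 1) ^ 2 + (2 * (i + 2) + 1 + (i + 1) * i / 2) : ℕ) : ℤ) < ful 0 z := by
    exact_mod_cast h11
  push_cast at h12 ⊢
  linarith

lemma side_nonneg {x : P} (hl : j ≤ lev x) : 0 ≤ mX j x * (j : ℤ) - cX j x := by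
  unfold mX cX
  rw [Finset.sum_mul, ← Finset.sum_sub_distrib]
  refine Finset.sum_nonneg fun k hk => ?_
  rw [mem_range] at hk
  have h1 := one_le_nab (l := k) (z := x) (by omega)
  have h2 : (0 : ℤ) ≤ (nab k x : ℤ) - 1 := by
    have : (1 : ℤ) ≤ nab k x := by exact_mod_cast h1
    linarith
  have h3 : (0 : ℤ) ≤ k := Int.natCast_nonneg k
  nlinarith

/-- a fold side is expensive at window `0` -/
theorem fold0 (H : Gr P r) (hj : 12 ≤ j) (hj16 : j ≤ 16) {z x x' : P} (h : Cg z x x')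
    (hl : j + 1 ≤ lev z) (hf : Fold j x) : cap0 j < kapZ j z * ((j : ℤ) - (0 : ℕ)) + gZ j z := by
  obtain ⟨l1, l2⟩ := h.lev_eq H
  have hlx := hf.1
  obtain ⟨k1, k2, k3, k4, k5, k6⟩ := h.line H hl
  obtain ⟨n0, d0⟩ := k6 (by omega)
  have hn : (nab j x : ℤ) = 1 ∧ (nab j x' : ℤ) = 1 := by
    constructor
    · rw [show j = lev x by omega, nab_self]; norm_num
    · rw [show j = lev x' by omega, nab_self]; norm_num
  have hz0 : (lev z : ℤ) - (j + 1) = 0 := by rw [l1, hlx]; push_cast; ring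
  obtain ⟨f1, f2⟩ := hf.mX
  have hs := side_nonneg (j := j) (x := x') (by omega)
  rw [k1, k2, n0, d0, hn.1, hn.2, hz0, f1, f2]
  have hodd := hf.2.1
  have key : cap0 j < fm j * (j : ℤ) - fc j := by
    have : j = 12 ∨ j = 14 ∨ j = 16 := by omega
    rcases this with rfl | rfl | rfl <;> decide +kernel
  push_cast
  linarith

/-- **the balance at window `0`** -/
theorem Ctx.win0 {lo hi : Tops P → ℕ → ℕ} {e : Tops P → ℕ → ℕ → P} (K : Ctx P r j lo hi e)
    (hJ : ∃ z : P, Hul.Jn z) :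
    ∃ V, WinB P j 0 (cap0 j) (fun _ => false) (fun _ => false) 0 V := by
  have H := K.gt.H
  have h5 := K.h5
  obtain ⟨v, hv, ⟨z1, x1, x1', hz1, e1, o1⟩, z2, x2, x2', hz2, e2, o2⟩ := class_zero H hJ
  have hsq : ∀ z x x' : P, Cg z x x' → ((j : ℤ) + 1) ^ 2 ≤ ful 0 z := by
    intro z x x' h
    have hl := K.lev_ge h
    have h4 := ful_ge (w := 0) (z := z) (c := lev z) (fun _ => 0) (by omega)
      (fun n hn1 hn2 => by
        rw [Nat.zero_add]
        exact h.two_le H (k := n) hn2)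
    simp only [mul_zero, Finset.sum_const_zero, add_zero] at h4
    have h5 : (j + 1) ^ 2 ≤ lev z ^ 2 := Nat.pow_le_pow_left hl 2
    have h6 : (j + 1) ^ 2 ≤ ful 0 z := h5.trans h4
    exact_mod_cast h6
  have hok : ∀ z x x' : P, Cg z x x' → ful 0 z = v → (v : ℤ) - ((j : ℤ) + 1) ^ 2 ≤ cap0 j →
      Sok j x := by
    intro z x x' h he hc
    refine ⟨fun hf => ?_, fun h12 hf => ?_⟩
    · have := fat0 H h5 h hf
      rw [he] at this
      linarith
    · have h1 := fold0 H h12 K.h16 h (K.lev_ge h) hf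
      have h2 := h.line0 (j := j) H
      rw [he] at h2
      linarith
  have hpar : ∀ {z : P}, (Odd (anc z) → Odd (kapZ j z)) ∧ (Even (anc z) → Even (kapZ j z)) :=
    kap_parity
  refine ⟨(v : ℤ) - ((j : ℤ) + 1) ^ 2, ?_, ?_, ?_, ?_⟩
  · intro _
    have := hsq z1 x1 x1' hz1
    rw [e1] at this
    linarith
  · intro z x x' h _ _
    have h1 : (v : ℤ) ≤ ful 0 z := by exact_mod_cast hv z h.jn
    have h2 := h.line0 (j := j) H
    linarith
  · intro hc
    left
    have h2 := hz1.line0 (j := j) H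
    rw [e1] at h2
    exact ⟨z1, x1, x1', hz1, hok _ _ _ hz1 e1 hc, hok _ _ _ hz1.symm e1 hc, hpar.1 o1,
      by linarith⟩
  · intro hc
    left
    have h2 := hz2.line0 (j := j) H
    rw [e2] at h2
    exact ⟨z2, x2, x2', hz2, hok _ _ _ hz2 e2 hc, hok _ _ _ hz2.symm e2 hc, hpar.2 o2,
      by linarith⟩

end Pool.Agent.GaussPoset.Sm
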