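import Pool.Agent.W_448s7s_h5.SmG

/-!
# S7 for `j ≤ 16`: the joins which are left (MP_448cb3_co)
-/

namespace Pool.Agent.GaussPoset.Sm

set_option linter.unusedSectionVars false

open Finset Wd

universe u

variable {P : Type u} [Fintype P] [PartialOrder P] [DecidableEq P] {r j w : ℕ}

/-- the pairs of ends above the bounds -/
def rest (j : ℕ) (E : List (ℕ × ℕ × ℕ)) (X : ℕ × ℕ × ℕ → ℕ × ℕ × ℕ → Bool) (u : List ℤ) :
    List ((ℕ × ℕ × ℕ) × (ℕ × ℕ × ℕ)) :=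
  E.flatMap fun s => (E.filter fun s' => !X s s' &&
    Chk.above ((s.1 : ℤ) + s'.1) (-((s.2.1 : ℤ) + s'.2.1)) u j).map fun s' => (s, s')

/-- the bounds -/
def ubd (j W : ℕ) (cap lb : ℕ → ℤ) (tab : List (List ℤ)) (nO nE : ℕ → ℤ → Bool) (N R : ℕ) :
    List ℤ :=
  rnds (aT tab) nO nE cap (odds tab.length) (evens tab.length) j N (W + 1) R
    ((List.range (W + 1)).map fun w => min (lb w) (cap w + 1))

variable {lo hi : Tops P → ℕ → ℕ} {e : Tops P → ℕ → ℕ → P}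

/-- **the pairs of ends which are left** -/
theorem Ctx.left (K : Ctx P r j lo hi e) {X : ℕ × ℕ × ℕ → ℕ × ℕ × ℕ → Bool} (hN : NoP P j X)
    {W : ℕ} {cap : ℕ → ℤ} {tab : List (List ℤ)} {E S1 S2 : List (ℕ × ℕ × ℕ)}
    (T : Tab j W cap tab E S1 S2 X)
    {nO nE : ℕ → ℤ → Bool} {lb : ℕ → ℤ}
    (hB : ∀ w ≤ W, ∃ V, WinB P j w (cap w) (nO w) (nE w) (lb w) V) (N R : ℕ)
    {z x x' : P} (h : Cg z x x') (hl : lev z = j + 1) (hs : Sok j x) (hs' : Sok j x') :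
    ∃ s s', (s, s') ∈ rest j E X (ubd j W cap lb tab nO nE N R) ∧ Dt j x s ∧ Dt j x' s' := by
  obtain ⟨s, s', g1, g1', d1, d1', e1, e2⟩ := K.pair T.e T.e0 T.ef h hl hs hs'
  refine ⟨s, s', ?_, d1, d1'⟩
  have h1 := K.bounds hN T hB N R h hs hs'
  rw [e1, e2] at h1
  unfold rest
  rw [List.mem_flatMap]
  refine ⟨s, g1, ?_⟩
  rw [List.mem_map]
  refine ⟨s', ?_, rfl⟩
  rw [List.mem_filter]
  refine ⟨g1', ?_⟩
  rw [hN z x x' h hl s s' d1 d1', Bool.not_false, Bool.true_and]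
  exact h1

/-- a join of level `j + 1` is a cross element -/
theorem Ctx.cross (K : Ctx P r j lo hi e) {z : P} (hz : Hul.Jn z) (hl : lev z = j + 1) :
    ∃ x x' : P, Cg z x x' := by
  refine cg_of_max hz fun y hy => K.gt.no_join y ?_
  have := lev_strictAnti hy
  omega

end Pool.Agent.GaussPoset.Sm
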