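import Pool.Agent.W_448s7s_h5.SkZ

/-!
# S7 for `j = 11`: windows `0`, `1` (MP_448cb3_co)
-/

namespace Pool.Agent.GaussPoset.Sm

set_option linter.unusedSectionVars false

open Finset Wd

universe u

variable {P : Type u} [Fintype P] [PartialOrder P] [DecidableEq P] {r : ℕ}

/-- ends -/
def E11 : List (ℕ × ℕ × ℕ) :=
    [(0, 0, 0), (1, 2, 1), (1, 3, 0), (1, 4, 0), (1, 5, 0), (3, 9, 1), (5, 20, 1), (5, 25, 0)]

/-- sides, one level deeper -/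
def S11a : List (ℕ × ℕ × ℕ) :=
    [(0, 0, 0), (0, 0, 1), (1, 1, 0), (1, 1, 1), (1, 2, 0), (1, 3, 0), (1, 4, 0), (1, 5, 0),
    (2, 3, 0), (2, 3, 1), (3, 6, 0), (3, 6, 1), (3, 9, 0), (4, 7, 1), (4, 10, 0), (4, 10, 1),
    (5, 12, 0), (5, 12, 1), (5, 15, 0), (5, 15, 1), (5, 20, 0), (5, 25, 0), (6, 13, 1),
    (6, 16, 1), (6, 21, 0), (7, 23, 0), (7, 23, 1), (8, 24, 1), (8, 31, 0), (8, 31, 1)]

/-- sides, two or more levels deeper -/
def S11b : List (ℕ × ℕ × ℕ) :=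
    [(0, 0, 0), (0, 0, 1), (1, 1, 0), (1, 1, 1), (1, 1, 2), (1, 2, 0), (1, 3, 0), (1, 4, 0),
    (1, 5, 0), (2, 3, 0), (2, 3, 1), (2, 3, 2), (3, 6, 0), (3, 6, 1), (3, 9, 0), (4, 7, 1),
    (4, 7, 2), (4, 7, 3), (4, 10, 0), (4, 10, 1), (4, 10, 2), (5, 12, 0), (5, 12, 1),
    (5, 15, 0), (5, 15, 1), (5, 20, 0), (5, 25, 0), (6, 13, 1), (6, 13, 2), (6, 13, 3),
    (6, 16, 1), (6, 16, 2), (6, 21, 0), (7, 23, 0), (7, 23, 1), (8, 24, 1), (8, 24, 2),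
    (8, 31, 0), (8, 31, 1)]

lemma chkE11 : ChkE 11 E11 := by decide +kernel

/-- caps -/
def cp11 (w : ℕ) : ℤ := if w = 0 then cap0 11 else ((11 * (11 - 1) / 2 : ℕ) : ℤ) - 1

/-- even noise -/
def ne11 (w : ℕ) (V : ℤ) : Bool := if w = 0 then false else nz 11 V

lemma bal11 {lo hi : Tops P → ℕ → ℕ} {e : Tops P → ℕ → ℕ → P} (K : Ctx P r 11 lo hi e)
    (hJ : ∃ z : P, Hul.Jn z) : ∀ w ≤ 1, ∃ V, WinB P 11 w (cp11 w) ((fun _ _ => false) w) (ne11 w)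
      ((fun _ => 0) w) V := by
  intro w hw
  have : w = 0 ∨ w = 1 := by omega
  rcases this with rfl | rfl
  · exact K.win0 hJ
  · exact K.win1 (by norm_num) chkE11 (by decide +kernel) (by decide +kernel) hJ

/-- lines with `g`, by `κ` -/
def L11 : List (List ℤ) :=
  [[0], [-5, -4, -3, -2], [-10, -9, -8, -7, -6, -5, -4, 3], [-9, -2, -1, 0, 1, 2, 3], [-14,
    -13, -12, -11, -7, -6, -5, -4, -3, -2, -1, 0, 1, 2, 3, 8], [-25, -20, -6, -5, -4, -3, -2,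
    -1, 0, 1, 2, 3, 4, 5, 6, 7, 8, 9], [-30, -29, -28, -27, -25, -24, -23, -22, -18, -11, -10,
    -9, -8, -7, -6, -5, -4, -3, -2, -1, 0, 1, 2], [-22, -17, -12, -11, -10, -9], [-34, -29,
    -27, -26, -25, -24, -23, -22, -21, -20], [], [-50, -45]]

set_option maxRecDepth 100000 in
theorem tab11 : Tab 11 1 cp11 L11 E11 S11a S11b X0 := by
  refine ⟨by norm_num, chkE11, ?_, ?_, ?_, ?_, ?_, ?_, ?_, ?_, ?_, ?_⟩
  · decide +kernel
  · decide +kernel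
  · decide +kernel
  · decide +kernel
  · decide +kernel
  · intro _ h
    exact absurd h (by norm_num)
  · decide +kernel
  · decide +kernel
  · decide +kernel
  · decide +kernel

/-- the pairs of ends which are left -/
def R11 : List ((ℕ × ℕ × ℕ) × (ℕ × ℕ × ℕ)) :=
    [((3, 9, 1), (5, 20, 1)), ((5, 20, 1), (3, 9, 1)), ((5, 20, 1), (5, 20, 1)),
    ((5, 20, 1), (5, 25, 0)), ((5, 25, 0), (5, 20, 1)), ((5, 25, 0), (5, 25, 0))]

lemma rest11 : rest 11 E11 X0 (ubd 11 1 cp11 (fun _ => 0) L11 (fun _ _ => false) ne11 200 7) =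
    R11 := by
  decide +kernel

/-- **S7 for `j = 11`**, exclusion `X0`. -/
theorem left11 {lo hi : Tops P → ℕ → ℕ} {e : Tops P → ℕ → ℕ → P} (K : Ctx P r 11 lo hi e)
    {z x x' : P} (h : Cg z x x') (hl : lev z = 12) :
    ∃ s s', (s, s') ∈ R11 ∧ Dt 11 x s ∧ Dt 11 x' s' := by
  have hs : ∀ y : P, lev y = 11 → Sok 11 y := fun y hy => ⟨fun hf => by have := hf.1; omega,
    fun h12 => by omega⟩
  obtain ⟨l1, l2⟩ := h.lev_eq K.gt.H
  obtain ⟨s, s', h1, h2, h3⟩ := K.left (noP_zero 11) tab11 (bal11 K ⟨z, h.jn⟩) 200 7 h hl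
    (hs x (by omega)) (hs x' (by omega))
  rw [rest11] at h1
  exact ⟨s, s', h1, h2, h3⟩

/-- lines with `g`, by `κ` -/
def L11r : List (List ℤ) :=
  [[0], [-5, -4, -3, -2], [-10, -9, -8, -7, -6, -5, 3], [-9, -2, -1, 0, 1, 2, 3], [-14, -13,
    -12, -7, -6, -5, -4, -3, -2, -1, 0, 1, 2, 3, 8], [-25, -20, -6, -5, -4, -3, -2, -1, 0, 1,
    2, 3, 4, 5, 6, 7, 8, 9], [-30, -29, -28, -27, -25, -24, -23, -11, -10, -9, -8, -7, -6, -5,
    -4, -3, -2, -1, 0, 1, 2], [-22, -17, -12, -11, -10, -9], [-34, -27, -26, -25, -24, -23,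
    -22, -21, -20], [], [-50, -45]]

set_option maxRecDepth 100000 in
theorem tab11r : Tab 11 1 cp11 L11r E11 S11a S11b XRR := by
  refine ⟨by norm_num, chkE11, ?_, ?_, ?_, ?_, ?_, ?_, ?_, ?_, ?_, ?_⟩
  · decide +kernel
  · decide +kernel
  · decide +kernel
  · decide +kernel
  · decide +kernel
  · intro _ h
    exact absurd h (by norm_num)
  · decide +kernel
  · decide +kernel
  · decide +kernel
  · decide +kernel

/-- the pairs of ends which are left -/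
def R11r : List ((ℕ × ℕ × ℕ) × (ℕ × ℕ × ℕ)) :=
    [((5, 20, 1), (5, 25, 0)), ((5, 25, 0), (5, 20, 1)), ((5, 25, 0), (5, 25, 0))]

lemma rest11r : rest 11 E11 XRR (ubd 11 1 cp11 (fun _ => 0) L11r (fun _ _ => false) ne11 200 6) =
    R11r := by
  decide +kernel

/-- **S7 for `j = 11`**, exclusion `XRR`. -/
theorem left11r {lo hi : Tops P → ℕ → ℕ} {e : Tops P → ℕ → ℕ → P} (K : Ctx P r 11 lo hi e) (hN : NoP P 11 XRR)
    {z x x' : P} (h : Cg z x x') (hl : lev z = 12) :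
    ∃ s s', (s, s') ∈ R11r ∧ Dt 11 x s ∧ Dt 11 x' s' := by
  have hs : ∀ y : P, lev y = 11 → Sok 11 y := fun y hy => ⟨fun hf => by have := hf.1; omega,
    fun h12 => by omega⟩
  obtain ⟨l1, l2⟩ := h.lev_eq K.gt.H
  obtain ⟨s, s', h1, h2, h3⟩ := K.left hN tab11r (bal11 K ⟨z, h.jn⟩) 200 6 h hl
    (hs x (by omega)) (hs x' (by omega))
  rw [rest11r] at h1
  exact ⟨s, s', h1, h2, h3⟩

end Pool.Agent.GaussPoset.Sm
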