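import Pool.Agent.W_448s7s_h5.SmH
import Pool.Agent.W_448st_h88.MgG
import Pool.Agent.W_448g_h5.GA

/-!
# Clusters of components linked by joins: matching polynomials (MP_448cb3_co)
-/

namespace Pool.Agent.GaussPoset.Sm

set_option linter.unusedSectionVars false

open Finset Polynomial

universe u

variable {P : Type u} [Fintype P] [PartialOrder P] [DecidableEq P] {r j : ℕ}

lemma ucv_cross (G : Win.GoodTo P r j) {v v' : P} (hv : lev v ≤ j) (hv' : lev v' ≤ j)
    (hne : topOf v ≠ topOf v') : ucv v v' = 0 := by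
  by_contra hcon
  have h1 := G.top_of_ucv hv (Nat.one_le_iff_ne_zero.mpr hcon) (topOf v).2 (le_topOf v)
  exact hne (Subtype.ext (G.top_eq hv' (topOf v).2 (topOf v').2 h1 (le_topOf v')))

/-- two covers with different tops of an element of level `j + 1` -/
lemma cg_of_cov (G : Win.GoodTo P r j) {z u w : P} (hlz : lev z = j + 1) (h1 : z ⋖ u) (h2 : z ⋖ w)
    (hne : topOf u ≠ topOf w) : Cg z u w := by
  have H := G.H
  have e1 := (H.covBy_iff.mp h1).2
  have e2 := (H.covBy_iff.mp h2).2
  exact Cg.mk' h1 h2 (only_of_le H G.good (le_topOf u) (by omega))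
    (only_of_le H G.good (le_topOf w) (by omega)) hne

open Classical in
/-- the matching polynomial of a closed family of components is one -/
theorem mp_closed (G : Win.GoodTo P r j) (hr : j ≤ r) (S : Tops P → Prop)
    (hS : ∀ z x x' : P, Cg z x x' → lev z = j + 1 → S (topOf x) → S (topOf x')) :
    St.mp (Win.Df j) ((lv P j).filter fun v => S (topOf v)) = 1 := by
  have H := G.H
  have h1 : St.mp (Win.Df j) (lv P j) = 1 := St.mp_level H hr
  have h2 : lv P j = ((lv P j).filter fun v => S (topOf v)) ∪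
      ((lv P j).filter fun v => ¬ S (topOf v)) := (Finset.filter_union_filter_not_eq _ _).symm
  have hd : Disjoint ((lv P j).filter fun v => S (topOf v))
      ((lv P j).filter fun v => ¬ S (topOf v)) := Finset.disjoint_filter_filter_not _ _ _
  have h3 : ∀ u ∈ (lv P j).filter fun v => S (topOf v), ∀ w ∈ (lv P j).filter
      fun v => ¬ S (topOf v), Win.Df j {u, w} = 0 := by
    intro u hu w hw
    rw [mem_filter, mem_lv] at hu hw
    have hne : topOf u ≠ topOf w := fun h => hw.2 (h ▸ hu.2)
    have hne' : u ≠ w := fun h => hne (by rw [h])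
    have hd0 : dcv u w = 0 := by
      by_contra hcon
      obtain ⟨z, hz1, hz2⟩ := Win.StA_of_dcv (Nat.one_le_iff_ne_zero.mpr hcon)
      have e1 := (H.covBy_iff.mp hz1).2
      have hlz : lev z = j + 1 := by omega
      exact hw.2 (hS z u w (cg_of_cov G hlz hz1 hz2 hne) hlz hu.2)
    rw [Win.Df_pair H hu.1 hne', hd0, ucv_cross G hu.1.le hw.1.le hne]
    simp
  rw [h2, St.mp_union hd h3] at h1
  exact St.eq_one_of_mul h1 St.coeff_zero_mp

open Classical in
/-- a closed family of components with one element on the level `j` has no joins -/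
theorem no_cg_single (G : Win.GoodTo P r j) (hr : j ≤ r) (S : Tops P → Prop)
    (hS : ∀ z x x' : P, Cg z x x' → lev z = j + 1 → S (topOf x) → S (topOf x'))
    (h1 : ∀ v v' : P, lev v = j → lev v' = j → S (topOf v) → topOf v = topOf v' → v = v')
    {z x x' : P} (h : Cg z x x') (hl : lev z = j + 1) (hx : S (topOf x)) : False := by
  have H := G.H
  obtain ⟨l1, l2⟩ := h.lev_eq H
  have hmp := mp_closed G hr S hS
  set V := (lv P j).filter fun v => S (topOf v) with hV
  have hc : (St.mp (Win.Df j) V).coeff 1 = 0 := by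
    rw [hmp]
    simp [Polynomial.coeff_one]
  rw [St.coeff_mp] at hc
  have hval : ∀ u w : P, u ∈ V → w ∈ V → u ≠ w → Win.Df j {u, w} = (dcv u w : ℤ) := by
    intro u w hu hw hne
    rw [hV, mem_filter, mem_lv] at hu hw
    have hne' : topOf u ≠ topOf w := fun hh => hne (h1 u w hu.1 hw.1 hu.2 hh)
    rw [Win.Df_pair H hu.1 hne, ucv_cross G hu.1.le hw.1.le hne']
    simp
  have hnn : ∀ M ∈ (St.MS V).filter (fun M => M.card = 1), 0 ≤ ∏ T ∈ M, Win.Df j T := by
    intro M hM
    rw [mem_filter] at hM
    refine Finset.prod_nonneg fun T hT => ?_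
    obtain ⟨g1, g2⟩ := (St.mem_MS.1 hM.1).1 T hT
    obtain ⟨u, w, hne, rfl⟩ := Finset.card_eq_two.mp g2
    rw [hval u w (g1 (by simp)) (g1 (by simp)) hne]
    exact Int.natCast_nonneg _
  have h0 := (Finset.sum_eq_zero_iff_of_nonneg hnn).mp hc {{x, x'}} (by
    rw [mem_filter, St.mem_MS]
    refine ⟨⟨?_, ?_⟩, card_singleton _⟩
    · intro T hT
      rw [mem_singleton] at hT
      subst hT
      refine ⟨?_, card_pair (fun hh => h.ne (by rw [hh]))⟩
      intro y hy
      rw [mem_insert, mem_singleton] at hy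
      rw [hV, mem_filter, mem_lv]
      rcases hy with rfl | rfl
      · exact ⟨by omega, hx⟩
      · exact ⟨by omega, hS z x _ h hl hx⟩
    · rw [coe_singleton]
      exact Set.pairwiseDisjoint_singleton _ _)
  rw [prod_singleton, hval x x' (by rw [hV, mem_filter, mem_lv]; exact ⟨by omega, hx⟩)
    (by rw [hV, mem_filter, mem_lv]; exact ⟨by omega, hS z x _ h hl hx⟩)
    (fun hh => h.ne (by rw [hh]))] at h0
  have := Win.dcv_pos h.cov h.cov'
  omega

end Pool.Agent.GaussPoset.Sm
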