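import Pool.Agent.W_448s7s_h5.SmH

/-!
# S7 for `j ≤ 16`: refined sides of level `j + 1` (MP_448cb3_co)
-/

namespace Pool.Agent.GaussPoset.Sm

set_option linter.unusedSectionVars false

open Finset Wd

universe u

variable {P : Type u} [Fintype P] [PartialOrder P] [DecidableEq P] {r j w : ℕ}

/-- letters C, O at the left end, before the last level -/
def LCw (w : List Ltr) : Prop :=
  Lw w (w.length + 1) = Lw w w.length + 1 ∧ Lw w (w.length + 2) = Lw w (w.length + 1)

/-- letters C, O at the right end, before the last level -/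
def RCw (w : List Ltr) : Prop :=
  Hw w (w.length + 1) = Hw w w.length ∧ Hw w (w.length + 2) = Hw w (w.length + 1) + 1

instance (w : List Ltr) : Decidable (LCw w) := by unfold LCw; infer_instance
instance (w : List Ltr) : Decidable (RCw w) := by unfold RCw; infer_instance

/-- the positions which may have a pendant below -/
def PenP (w : List Ltr) (s : ℕ) : Prop :=
  EndP w s ∨ (LCw w ∧ (s = Lw w (w.length + 2) + 1 ∨ s = Lw w (w.length + 2) + 2)) ∨
    (RCw w ∧ (s = Hw w (w.length + 2) ∨ s + 1 = Hw w (w.length + 2)))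

instance (w : List Ltr) (s : ℕ) : Decidable (PenP w s) := by unfold PenP; infer_instance

/-- a single ancestor -/
def condB (w : List Ltr) (A : Finset ℕ) : Prop := A.card = 1 → ∀ s ∈ A, PenP w s

instance (w : List Ltr) (A : Finset ℕ) : Decidable (condB w A) := by
  unfold condB; infer_instance

/-- the data of the sides of level `j + 1` -/
def ChkT (j : ℕ) (S : List (ℕ × ℕ × ℕ)) : Prop :=
  ∀ a ∈ range (j + 1), 2 ≤ a → ∀ w ∈ wds j a, w.length = j - a →
    ∀ A ∈ (Icc (Lw w (w.length + 3)) (Hw w (w.length + 3))).powerset, A.Nonempty →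
      condA 1 w A → condB w A → (mA w A, dA w A, A.card - 1) ∈ S

instance (j : ℕ) (S : List (ℕ × ℕ × ℕ)) : Decidable (ChkT j S) := by
  unfold ChkT; infer_instance

section

variable {t : Tops P} {lo hi : ℕ → ℕ} {e : ℕ → ℕ → P} {a : ℕ}

/-- the position of a single ancestor -/
theorem pos_pen (G : Win.GoodTo P r j) (hj : 2 ≤ j) (C : Cp.Comp j (t : P) lo hi e) {x : P}
    (hx : x ∈ onlyB t) (hlx : lev x = j + 1) (hc : (posA j lo hi e x).card = 1) :
    ∀ s ∈ posA j lo hi e x, (s = lo (j - 1) ∨ s = hi (j - 1) + 1) ∨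
      (Win.LCO lo hi (j - 1) ∧ (s = lo (j - 1) + 1 ∨ s = lo (j - 1) + 2)) ∨
      (Win.RCO lo hi (j - 1) ∧ (s = hi (j - 1) ∨ s + 1 = hi (j - 1))) := by
  classical
  intro s hs
  have H := G.H
  obtain ⟨i, rfl⟩ : ∃ i, j = i + 1 := ⟨j - 1, by omega⟩
  rw [show i + 1 - 1 = i by omega]
  obtain ⟨⟨b1, b2⟩, b3⟩ := mem_posA.mp hs
  have hle : lev (e (i + 1) s) = i + 1 := C.lev_e _ s le_rfl b1 b2
  have hcov : x ⋖ e (i + 1) s := H.covBy_iff.mpr
    ⟨lt_of_le_of_ne b3 (by intro h; rw [← h] at hle; omega), by omega⟩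
  have huni : ∀ y, x ⋖ y → y = e (i + 1) s := by
    intro y hy
    have hly := (H.covBy_iff.mp hy).2
    obtain ⟨s', a1, a2, a3⟩ := C.surj y (onlyB_le (onlyB_up hx hy.1.le)) (by omega)
    rw [show lev y = i + 1 by omega] at a1 a2 a3
    have hs' : s' ∈ posA (i + 1) lo hi e x :=
      mem_posA.mpr ⟨⟨a1, a2⟩, by rw [a3]; exact hy.1.le⟩
    obtain ⟨q, hq⟩ := Finset.card_eq_one.mp hc
    rw [hq, mem_singleton] at hs hs'
    rw [← a3, hs, hs']
  have huc : (Win.uc x).card = 1 := by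
    have : Win.uc x = {e (i + 1) s} := by
      ext y
      rw [Win.mem_uc, mem_singleton]
      exact ⟨huni y, fun h => h ▸ hcov⟩
    rw [this, card_singleton]
  have hpen : 1 ≤ (Win.pen (e (i + 1) s)).card :=
    Finset.card_pos.mpr ⟨x, Win.mem_pen.mpr ⟨hcov, huc⟩⟩
  have f1 := C.lo_step i (by omega)
  have f2 := C.hi_step i (by omega)
  by_cases hin : lo i < s ∧ s ≤ hi i
  · right
    rcases (Win.near_level' G (by omega)).2 t lo hi e t.2 C.toWin with ⟨-, -, g⟩ | ⟨g1, -, b, hb, g⟩ |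
      ⟨g1, -, b, hb, g⟩
    · rw [g s hin.1 hin.2] at hpen
      omega
    · rw [g s hin.1 hin.2] at hpen
      split_ifs at hpen with hab
      · left
        exact ⟨g1, by omega⟩
      · omega
    · rw [g s hin.1 hin.2] at hpen
      split_ifs at hpen with hab
      · right
        exact ⟨g1, by omega⟩
      · omega
  · left
    omega

/-- the side of a late component -/
theorem late_side' (G : Win.GoodTo P r j) (hj : 2 ≤ j) (C : Cp.Comp j (t : P) lo hi e)
    (h0 : 2 ≤ a) (h1 : a ≤ j) (h2 : ∀ k, k < a → lo k = 0 ∧ hi k = 0) (h3 : lo a = 0 ∧ hi a = 1)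
    {x : P} (hx : x ∈ onlyB t) (hl : j ≤ lev x) (hend : lev x = j → (Win.uc x).card = 1)
    {W : List Ltr} (hW : word lo hi a (j - a) = W) :
    ∃ A ∈ (Icc (Lw W (W.length + 3)) (Hw W (W.length + 3))).powerset, A.Nonempty ∧
      (∀ q, lev x = j + q → condA q W A) ∧ (lev x = j + 1 → condB W A) ∧
      mX j x = mA W A ∧ cX j x = dA W A ∧
      (nab j x : ℤ) - 1 = ((A.card - 1 : ℕ) : ℤ) := by
  classical
  have H := G.H
  have hg := G.good
  obtain ⟨d, rfl⟩ : ∃ d, j = a + d := ⟨j - a, by omega⟩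
  rw [Nat.add_sub_cancel_left] at hW
  have hlen : W.length = d := by rw [← hW, word_length]
  have hL : ∀ n, n ≤ d → Lw W (n + 3) = lo (a + n) := by
    rw [← hW]
    exact lo_word (a := a) (d := d) C.lo_step h3.1 (hi := hi) le_rfl
  have hH : ∀ n, n ≤ d → Hw W (n + 3) = hi (a + n) := by
    rw [← hW]
    exact hi_word (a := a) (d := d) C.hi_step h3.2 (lo := lo) le_rfl
  have hL' : ∀ n, n ≤ d + 3 → Lw W n = lo (a + n - 3) := by
    intro n hn
    rcases Nat.lt_or_ge n 3 with h | h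
    · rw [(h2 (a + n - 3) (by omega)).1]
      unfold Lw
      rw [show n - 3 = 0 by omega]
      simp
    · obtain ⟨n', rfl⟩ : ∃ n', n = n' + 3 := ⟨n - 3, by omega⟩
      rw [hL n' (by omega)]
      rfl
  have hH' : ∀ n, n ≤ d + 3 → Hw W n = hi (a + n - 3) := by
    intro n hn
    rcases Nat.lt_or_ge n 3 with h | h
    · rw [(h2 (a + n - 3) (by omega)).2]
      unfold Hw
      rw [if_pos h]
    · obtain ⟨n', rfl⟩ : ∃ n', n = n' + 3 := ⟨n - 3, by omega⟩
      rw [hH n' (by omega)]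
      rfl
  have hpl : Lw W (W.length + 2) = lo (a + d - 1) := by
    rw [hlen, hL' _ (by omega)]
    rfl
  have hph : Hw W (W.length + 2) = hi (a + d - 1) := by
    rw [hlen, hH' _ (by omega)]
    rfl
  have hone : ∀ k, k < a → (nab k x : ℤ) - 1 = 0 := by
    intro k hk
    rw [nab_one_of_eq C hx (by omega) (by omega) (by rw [(h2 k hk).1, (h2 k hk).2])]
    norm_num
  set A := posA (a + d) lo hi e x with hA
  have hxA : ∀ n, n < d → (nab (a + n) x : ℤ) - 1 = xA W A n := by
    intro n hn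
    have h4 := nab_pos H hg C hx hl (k := a + n) (by omega)
    have h5 := one_le_nab (l := a + n) (z := x) (by omega)
    unfold xA
    rw [hL n hn.le, hH n hn.le, hlen, h4, ← hA, show a + d - (a + n) = d - n by omega]
    rw [h4, ← hA, show a + d - (a + n) = d - n by omega] at h5
    omega
  have hcard := card_posA C hx
  have hnj := one_le_nab (l := a + d) (z := x) hl
  rw [hcard, ← hA] at hnj
  obtain ⟨c1, c2⟩ := pos_cond G hj C hx hl hend
  rw [← hA] at c1 c2
  refine ⟨A, ?_, Finset.card_pos.mp hnj, ?_, ?_, ?_, ?_, ?_⟩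
  · rw [Finset.mem_powerset, hlen, hL d le_rfl, hH d le_rfl]
    intro s hs
    rw [hA, mem_posA] at hs
    exact mem_Icc.mpr hs.1
  · intro q hq
    refine ⟨fun hq0 => ?_, fun hq1 => ?_⟩
    · obtain ⟨g1, g2⟩ := c1 (by omega)
      refine ⟨g1, fun s hs => ?_⟩
      unfold EndP
      rw [hpl, hph]
      exact g2 s hs
    · obtain ⟨g1, g2⟩ := c2 (by omega)
      refine ⟨g1, g2.imp id fun g s hs => ?_⟩
      unfold EndP
      rw [hpl, hph]
      exact g s hs
  · intro hlx hc s hs
    have g := pos_pen G hj C hx hlx hc s hs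
    unfold PenP EndP LCw RCw
    rw [hlen, hL' _ (by omega), hL' _ (by omega), hL' _ (by omega), hH' _ (by omega),
      hH' _ (by omega), hH' _ (by omega)]
    rcases g with g | ⟨⟨g1, g2, g3, g4⟩, g5⟩ | ⟨⟨g1, g2, g3, g4⟩, g5⟩
    · exact Or.inl g
    · right; left
      rw [show a + (d + 1) - 3 = a + d - 1 - 1 by omega, show a + d - 3 = a + d - 1 - 2 by omega,
        show a + (d + 2) - 3 = a + d - 1 by omega]
      exact ⟨⟨g2, g3⟩, g5⟩
    · right; right
      rw [show a + (d + 1) - 3 = a + d - 1 - 1 by omega, show a + d - 3 = a + d - 1 - 2 by omega,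
        show a + (d + 2) - 3 = a + d - 1 by omega]
      exact ⟨⟨g2, g3⟩, g5⟩
  · unfold mX mA
    rw [Finset.sum_range_add, Finset.sum_eq_zero fun k hk => hone k (mem_range.mp hk), zero_add,
      hlen, Nat.cast_sum]
    exact Finset.sum_congr rfl fun n hn => hxA n (mem_range.mp hn)
  · unfold cX dA
    rw [Finset.sum_range_add, Finset.sum_eq_zero fun k hk => by
      rw [hone k (mem_range.mp hk), zero_mul], zero_add, hlen, Nat.cast_sum]
    refine Finset.sum_congr rfl fun n hn => ?_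
    rw [hxA n (mem_range.mp hn), Nat.cast_mul]
    rw [mem_range] at hn
    congr 1
    omega
  · rw [hcard, ← hA]
    omega

/-- the side of level `j + 1` of a late component in a list -/
theorem late_mem' (G : Win.GoodTo P r j) (hj : 2 ≤ j) (C : Cp.Comp j (t : P) lo hi e)
    (h : LateC j lo hi a) {x : P} (hx : x ∈ onlyB t) (hl : lev x = j + 1)
    {S : List (ℕ × ℕ × ℕ)} (hS : ChkT j S) :
    ∃ m c b : ℕ, (m, c, b) ∈ S ∧ mX j x = m ∧ cX j x = c ∧ (nab j x : ℤ) - 1 = b := by
  obtain ⟨A, g1, g2, g3, g3', g4, g5, g6⟩ := late_side' G hj C h.two h.le h.low h.at_a hx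
    (by omega) (fun hh => by omega) rfl
  exact ⟨_, _, _, hS a (mem_range.mpr (by have := h.le; omega)) h.two _ h.word (by simp) A g1 g2
    (g3 1 hl) (g3' hl), g4, g5, g6⟩

end

/-- the data of a side of level `j + 1` -/
theorem Ctx.side1 {lo hi : Tops P → ℕ → ℕ} {e : Tops P → ℕ → ℕ → P} (K : Ctx P r j lo hi e) {x : P}
    (hx : x ∈ onlyB (topOf x)) (hl : lev x = j + 1) (hf : ¬ Fatt j x)
    {S : List (ℕ × ℕ × ℕ)} (hS : ChkT j S) (h0 : (0, 0, 0) ∈ S) :
    ∃ m c b : ℕ, (m, c, b) ∈ S ∧ mX j x = m ∧ cX j x = c ∧ (nab j x : ℤ) - 1 = b := by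
  have h5 := K.h5
  rcases K.cases hx (by omega) (fun h => by omega) hf with h | h | ⟨a, h, -⟩
  · have := h.1
    omega
  · refine ⟨0, 0, 0, h0, h.mX.1, h.mX.2, ?_⟩
    rw [h j le_rfl]
    norm_num
  · exact late_mem' K.gt (by omega) (K.comp _) h hx hl hS

end Pool.Agent.GaussPoset.Sm
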