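import Pool.Agent.W_448s7s_h5.SrE

/-!
# S7 for `j = 10`: windows `0, …, 2` (MP_448cb3_co)
-/

namespace Pool.Agent.GaussPoset.Sm

set_option linter.unusedSectionVars false

open Finset Wd

universe u

variable {P : Type u} [Fintype P] [PartialOrder P] [DecidableEq P] {r : ℕ}

/-- ends -/
def Er10 : List (ℕ × ℕ × ℕ) :=
    [(0, 0, 0), (1, 2, 1), (1, 3, 0), (1, 4, 0), (1, 5, 0), (3, 9, 1), (5, 20, 1), (5, 25, 0)]

/-- sides, one level deeper -/
def Sr10a : List (ℕ × ℕ × ℕ) :=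
    [(0, 0, 0), (0, 0, 1), (1, 1, 0), (1, 1, 1), (1, 2, 0), (1, 3, 0), (1, 4, 0), (1, 5, 0),
    (2, 3, 1), (3, 6, 0), (3, 6, 1), (3, 9, 0), (4, 7, 1), (4, 10, 1), (5, 12, 1), (5, 15, 0),
    (5, 15, 1), (5, 20, 0), (5, 25, 0), (6, 13, 1), (6, 16, 1), (7, 23, 1)]

/-- sides, two or more levels deeper -/
def Sr10b : List (ℕ × ℕ × ℕ) :=
    [(0, 0, 0), (0, 0, 1), (1, 1, 0), (1, 1, 1), (1, 1, 2), (1, 2, 0), (1, 3, 0), (1, 4, 0),
    (1, 5, 0), (2, 3, 0), (2, 3, 1), (2, 3, 2), (3, 6, 0), (3, 6, 1), (3, 9, 0), (4, 7, 1),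
    (4, 7, 2), (4, 7, 3), (4, 10, 0), (4, 10, 1), (4, 10, 2), (5, 12, 0), (5, 12, 1),
    (5, 15, 0), (5, 15, 1), (5, 20, 0), (5, 25, 0), (6, 13, 1), (6, 13, 2), (6, 13, 3),
    (6, 16, 1), (6, 16, 2), (7, 23, 0), (7, 23, 1)]

lemma chkEr10 : ChkE 10 Er10 := by decide +kernel

lemma chkSr10a : ChkT 10 Sr10a := by decide +kernel

lemma chkSr10b : ChkS 10 2 Sr10b := by decide +kernel

/-- caps -/
def cr10 (w : ℕ) : ℤ :=
  if w = 0 then cap0 10 else if w = 1 then ((10 * (10 - 1) / 2 : ℕ) : ℤ) - 1 else ((19 : ℕ) : ℤ)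

/-- even noise -/
def ner10 (w : ℕ) (V : ℤ) : Bool :=
  if w = 0 then false else if w = 1 then nz 10 V else (nz ((10 + 1 - 2 : ℕ) : ℤ) V || ([] : List ℤ).elem V)

/-- odd noise -/
def nor10 (w : ℕ) (V : ℤ) : Bool :=
  if w = 0 then false else if w = 1 then false else ([-9] : List ℤ).elem V

/-- lower bounds -/
def lwr10 (w : ℕ) : ℤ :=
  if w = 0 then 0 else if w = 1 then 0 else (-9)

lemma balr10 {lo hi : Tops P → ℕ → ℕ} {e : Tops P → ℕ → ℕ → P} (K : Ctx P r 10 lo hi e)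
    (hF : NoFo P 10) (hJ : ∃ z : P, Hul.Jn z) :
    ∀ w ≤ 2, ∃ V, WinB P 10 w (cr10 w) (nor10 w) (ner10 w) (lwr10 w) V := by
  intro w hw
  have : w = 0 ∨ w = 1 ∨ w = 2 := by omega
  rcases this with rfl | rfl | rfl
  · exact K.win0 hJ
  · exact K.win1 (by norm_num) chkEr10 (by decide +kernel) (by decide +kernel) hJ
  · exact K.win23' (w := 2) (cT := 19) (LE := []) (LO := [-9]) (lb := -9) hF (by norm_num)
      (by norm_num) chkEr10 (by decide +kernel)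
      (fun h => absurd h (by norm_num))
      (by decide +kernel) (by decide +kernel)
      (fun h => absurd h (by norm_num))
      (fun _ => by decide +kernel)
      (fun _ => Or.inr ⟨by decide +kernel, by decide +kernel⟩)
      (by norm_num) (by norm_num) (by norm_num) (by decide +kernel) (by decide +kernel) hJ

/-- caps as a list -/
def crl10 : List (ℕ × ℕ) := [(10, 57), (9, 44), (8, 19)]

lemma capr10 : CapL 10 2 cr10 crl10 := by decide +kernel

/-- lines with `g + 300`, by `κ` -/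
def tr10 : List (List ℕ) :=
  [[300], [295, 296, 297, 298], [290, 291, 292, 293, 294, 295, 296, 303], [291, 298, 299, 300,
    301, 302, 303], [286, 287, 288, 289, 293, 294, 295, 296, 297, 298, 299, 300, 301, 302, 303,
    308], [280, 294, 297, 298, 299, 300, 301, 302, 303, 304, 305, 306, 307], [275, 276, 277,
    278, 282, 289, 290, 291, 292, 293, 294, 295, 296, 297], [278, 283], [271, 273, 274, 275,
    276, 277]]

/-- lines with `g`, by `κ` -/
def Lr10 : List (List ℤ) :=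
  [[0], [-5, -4, -3, -2], [-10, -9, -8, -7, -6, -5, -4, 3], [-9, -2, -1, 0, 1, 2, 3], [-14,
    -13, -12, -11, -7, -6, -5, -4, -3, -2, -1, 0, 1, 2, 3, 8], [-20, -6, -3, -2, -1, 0, 1, 2,
    3, 4, 5, 6, 7], [-25, -24, -23, -22, -18, -11, -10, -9, -8, -7, -6, -5, -4, -3], [-22,
    -17], [-29, -27, -26, -25, -24, -23]]

lemma Lr10_eq : Lr10 = tabI tr10 := by decide +kernel

lemma fr10a : fst1 crl10 tr10 Sr10a = true := by decide +kernel

lemma fr10b : fst2 crl10 tr10 Sr10b = true := by decide +kernel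

theorem tabr10 : Tab' 10 2 cr10 Lr10 Er10 Sr10a Sr10b (XE (5, 25, 0)) := by
  refine ⟨by norm_num, chkEr10, chkSr10a, chkSr10b, ?_, ?_, ?_, ?_, ?_, ?_, ?_⟩
  · decide +kernel
  · decide +kernel
  · decide +kernel
  · decide +kernel
  · rw [Lr10_eq]
    exact chk1_of capr10 fr10a
  · rw [Lr10_eq]
    exact chk2_of (by norm_num) capr10 fr10b
  · decide +kernel

/-- the pairs of ends which are left -/
def Rr10 : List ((ℕ × ℕ × ℕ) × (ℕ × ℕ × ℕ)) :=
    [((0, 0, 0), (5, 20, 1)), ((1, 2, 1), (3, 9, 1)), ((1, 2, 1), (5, 20, 1)),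
    ((1, 3, 0), (5, 20, 1)), ((1, 4, 0), (5, 20, 1)), ((1, 5, 0), (5, 20, 1)),
    ((3, 9, 1), (1, 2, 1)), ((3, 9, 1), (3, 9, 1)), ((3, 9, 1), (5, 20, 1)),
    ((5, 20, 1), (0, 0, 0)), ((5, 20, 1), (1, 2, 1)), ((5, 20, 1), (1, 3, 0)),
    ((5, 20, 1), (1, 4, 0)), ((5, 20, 1), (1, 5, 0)), ((5, 20, 1), (3, 9, 1)),
    ((5, 20, 1), (5, 20, 1))]

lemma restr10 : rest 10 Er10 (XE (5, 25, 0)) (ubd 10 2 cr10 lwr10 Lr10 nor10 ner10 250 3) = Rr10 := by
  decide +kernel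

/-- **S7 for `j = 10`**, the joins of level `11` which are left -/
theorem leftr10 {lo hi : Tops P → ℕ → ℕ} {e : Tops P → ℕ → ℕ → P} (K : Ctx P r 10 lo hi e) (hF : NF P 10) (hE : NoD P 10 (5, 25, 0))
    {z x x' : P} (h : Cg z x x') (hl : lev z = 11) :
    ∃ s s', (s, s') ∈ Rr10 ∧ Dt 10 x s ∧ Dt 10 x' s' := by
  have h1 := K.leftF (noP_XE hE) hF tabr10 (balr10 K (NF.noFo hF) ⟨z, h.jn⟩) 250 3 h hl
  rw [restr10] at h1
  exact h1

end Pool.Agent.GaussPoset.Sm
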