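import Pool.Agent.W_448s7s_h5.SrE

/-!
# S7 for `j = 8`: windows `0, …, 1` (MP_448cb3_co)
-/

namespace Pool.Agent.GaussPoset.Sm

set_option linter.unusedSectionVars false

open Finset Wd

universe u

variable {P : Type u} [Fintype P] [PartialOrder P] [DecidableEq P] {r : ℕ}

/-- ends -/
def Er8 : List (ℕ × ℕ × ℕ) :=
    [(0, 0, 0), (1, 2, 1), (1, 3, 0), (1, 4, 0), (3, 9, 1)]

/-- sides, one level deeper -/
def Sr8a : List (ℕ × ℕ × ℕ) :=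
    [(0, 0, 0), (0, 0, 1), (1, 1, 0), (1, 1, 1), (1, 2, 0), (1, 3, 0), (1, 4, 0), (2, 3, 1),
    (3, 6, 0), (3, 6, 1), (3, 9, 0), (4, 7, 1), (4, 10, 1), (5, 12, 1), (5, 15, 0), (6, 13, 1)]

/-- sides, two or more levels deeper -/
def Sr8b : List (ℕ × ℕ × ℕ) :=
    [(0, 0, 0), (0, 0, 1), (1, 1, 0), (1, 1, 1), (1, 1, 2), (1, 2, 0), (1, 3, 0), (1, 4, 0),
    (2, 3, 0), (2, 3, 1), (2, 3, 2), (3, 6, 0), (3, 6, 1), (3, 9, 0), (4, 7, 1), (4, 7, 2),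
    (4, 7, 3), (4, 10, 0), (4, 10, 1), (4, 10, 2), (5, 12, 0), (5, 12, 1), (5, 15, 0),
    (6, 13, 1), (6, 13, 2), (6, 13, 3)]

lemma chkEr8 : ChkE 8 Er8 := by decide +kernel

lemma chkSr8a : ChkT 8 Sr8a := by decide +kernel

lemma chkSr8b : ChkS 8 2 Sr8b := by decide +kernel

/-- caps -/
def cr8 (w : ℕ) : ℤ :=
  if w = 0 then cap0 8 else ((8 * (8 - 1) / 2 : ℕ) : ℤ) - 1

/-- even noise -/
def ner8 (w : ℕ) (V : ℤ) : Bool :=
  if w = 0 then false else nz 8 V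

/-- odd noise -/
def nor8 (_w : ℕ) (_V : ℤ) : Bool :=
  false

/-- lower bounds -/
def lwr8 (_w : ℕ) : ℤ :=
  0

lemma balr8 {lo hi : Tops P → ℕ → ℕ} {e : Tops P → ℕ → ℕ → P} (K : Ctx P r 8 lo hi e)
    (hF : NoFo P 8) (hJ : ∃ z : P, Hul.Jn z) :
    ∀ w ≤ 1, ∃ V, WinB P 8 w (cr8 w) (nor8 w) (ner8 w) (lwr8 w) V := by
  intro w hw
  have : w = 0 ∨ w = 1 := by omega
  rcases this with rfl | rfl
  · exact K.win0 hJ
  · exact K.win1 (by norm_num) chkEr8 (by decide +kernel) (by decide +kernel) hJ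

/-- caps as a list -/
def crl8 : List (ℕ × ℕ) := [(8, 38), (7, 27)]

lemma capr8 : CapL 8 1 cr8 crl8 := by decide +kernel

/-- lines with `g + 300`, by `κ` -/
def tr8 : List (List ℕ) :=
  [[300], [296, 297, 298], [292, 293, 294, 295, 296, 303], [291, 299, 300, 301, 302, 303],
    [287, 288, 289, 295, 296, 297, 298, 299, 300, 301, 302, 303], [294, 297, 298], [282, 290]]

/-- lines with `g`, by `κ` -/
def Lr8 : List (List ℤ) :=
  [[0], [-4, -3, -2], [-8, -7, -6, -5, -4, 3], [-9, -1, 0, 1, 2, 3], [-13, -12, -11, -5, -4,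
    -3, -2, -1, 0, 1, 2, 3], [-6, -3, -2], [-18, -10]]

lemma Lr8_eq : Lr8 = tabI tr8 := by decide +kernel

lemma fr8a : fst1 crl8 tr8 Sr8a = true := by decide +kernel

lemma fr8b : fst2 crl8 tr8 Sr8b = true := by decide +kernel

theorem tabr8 : Tab' 8 1 cr8 Lr8 Er8 Sr8a Sr8b X0 := by
  refine ⟨by norm_num, chkEr8, chkSr8a, chkSr8b, ?_, ?_, ?_, ?_, ?_, ?_, ?_⟩
  · decide +kernel
  · decide +kernel
  · decide +kernel
  · decide +kernel
  · rw [Lr8_eq]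
    exact chk1_of capr8 fr8a
  · rw [Lr8_eq]
    exact chk2_of (by norm_num) capr8 fr8b
  · decide +kernel

/-- the pairs of ends which are left -/
def Rr8 : List ((ℕ × ℕ × ℕ) × (ℕ × ℕ × ℕ)) :=
    []

lemma restr8 : rest 8 Er8 X0 (ubd 8 1 cr8 lwr8 Lr8 nor8 ner8 250 3) = Rr8 := by
  decide +kernel

/-- **S7 for `j = 8`**, the joins of level `9` which are left -/
theorem leftr8 {lo hi : Tops P → ℕ → ℕ} {e : Tops P → ℕ → ℕ → P} (K : Ctx P r 8 lo hi e) (hF : NF P 8)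
    {z x x' : P} (h : Cg z x x') (hl : lev z = 9) :
    ∃ s s', (s, s') ∈ Rr8 ∧ Dt 8 x s ∧ Dt 8 x' s' := by
  have h1 := K.leftF (noP_zero 8) hF tabr8 (balr8 K (NF.noFo hF) ⟨z, h.jn⟩) 250 3 h hl
  rw [restr8] at h1
  exact h1

/-- **S7 for `j = 8`** -/
theorem nojr8 {lo hi : Tops P → ℕ → ℕ} {e : Tops P → ℕ → ℕ → P} (K : Ctx P r 8 lo hi e) (hF : NF P 8)
    {z : P} (hl : lev z = 9) : ¬ Hul.Jn z := by
  intro hz
  obtain ⟨x, x', h⟩ := K.cross hz hl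
  obtain ⟨s, s', h1, -⟩ := leftr8 K hF h hl
  exact absurd h1 List.not_mem_nil

end Pool.Agent.GaussPoset.Sm
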