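import Pool.Agent.W_448s6_h67.PcC
import Pool.Agent.W_448mp_h83.MpA

/-!
# S6 for one component (MP_448cb3_co): no join below this component

`S6_pieces` of `W_448s6_h67` with the hypothesis only for the joins below the component of `t`.
-/

set_option autoImplicit false

namespace Pool.Agent.GaussPoset.Win

set_option linter.unusedSectionVars false

open Finset

universe u

variable {P : Type u} [Fintype P] [PartialOrder P] [DecidableEq P] {r i : ℕ} {t : P}
  {lo hi : ℕ → ℕ} {x : ℕ → ℕ → P}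

/-- two lower covers are below the same maximal element, no join below `t` -/
lemma GoodTo.top_of_dcv_loc (h : GoodTo P r i)
    (hno : ∀ z : P, lev z = i + 1 → z ≤ t → ¬ Hul.Jn z) {v v' : P}
    (hv : lev v = i) (hd : 1 ≤ dcv v v') (ht : lev t = 0) (hvt : v ≤ t) :
    v' ≤ t := by
  obtain ⟨z, hz, hz'⟩ := StA_of_dcv hd
  have hlz := lev_cov h.H hz
  obtain ⟨s, hs, hs2⟩ := exists_above' (x := v') (j := 0) (Nat.zero_le _)
  by_contra hcon
  refine hno z (by omega) (hz.le.trans hvt) ⟨t, s, ht, hs2, ?_, hz.le.trans hvt,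
    hz'.le.trans hs⟩
  rintro rfl
  exact hcon hs

/-- the row of a component without joins is a piece -/
theorem pce_loc (h : GoodTo P r i) (hno : ∀ z : P, lev z = i + 1 → z ≤ t → ¬ Hul.Jn z)
    (ht : lev t = 0) : Mp.Pce P i (St.wt0 i t) := by
  refine ⟨fun v hv => mem_lv.2 (St.mem_wt0.1 hv).1, ?_⟩
  intro u hu w hw hwt
  rw [St.mem_wt0] at hu
  have hnw : ¬ w ≤ t := fun hc => hwt (St.mem_wt0.2 ⟨hw, hc⟩)
  have hne : u ≠ w := fun he => hnw (he ▸ hu.2)
  have h1 : dcv u w = 0 := by
    by_contra hcon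
    exact hnw (h.top_of_dcv_loc hno hu.1 (by omega) ht hu.2)
  have h2 : ucv u w = 0 := by
    by_contra hcon
    exact hnw (h.top_of_ucv hu.1.le (by omega) ht hu.2)
  rw [Df_pair h.H hu.1 hne, h1, h2]
  simp

/-- the matching polynomial of a component without joins is one -/
theorem S6_mp_loc (h : GoodTo P r i) (hno : ∀ z : P, lev z = i + 1 → z ≤ t → ¬ Hul.Jn z)
    (ht : lev t = 0) : St.mp (Df i) (St.wt0 i t) = 1 :=
  Mp.mp_piece h.H h.hr (pce_loc h hno ht)

/-- an inner element without double lower covers has a pendant below it -/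
theorem S6_pendant_loc (C : Comp P t (i + 1) lo hi x) (h : GoodTo P r (i + 1)) (hi1 : 1 ≤ i)
    (hr : i + 2 ≤ r) (hno : ∀ z : P, lev z = i + 2 → z ≤ t → ¬ Hul.Jn z) (ht : lev t = 0)
    {a : ℕ} (ha : lo (i + 1) < a) (ha' : a < hi (i + 1))
    (h1 : dcv (x (i + 1) (a - 1)) (x (i + 1) a) = 0)
    (h2 : dcv (x (i + 1) a) (x (i + 1) (a + 1)) = 0) : 1 ≤ (pen (x (i + 1) a)).card := by
  have hl := C.lev_x (i + 1) le_rfl a ha.le ha'.le
  obtain ⟨z, hz⟩ := exists_dc h.H (v := x (i + 1) a) (by omega)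
  have hlz := lev_cov h.H hz
  rcases uc_card_cases h.H (x := z) (by omega) with h3 | h3
  · exact Finset.card_pos.2 ⟨z, mem_pen.2 ⟨hz, h3⟩⟩
  · exfalso
    obtain ⟨v, hv, hne⟩ := exists_other_uc (y := x (i + 1) a) h3
    have hlv := lev_cov h.H hv
    have hvt := h.top_of_dcv_loc hno hl (StA_dcv_pos hz hv) ht
      (C.le_t (i + 1) le_rfl a ha.le ha'.le)
    obtain ⟨b, b1, b2, rfl⟩ := C.surj (i + 1) le_rfl v (by omega) hvt
    have hab : a ≠ b := fun he => hne (by rw [he])
    have S := C.rw_row h hi1 ht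
    rcases Nat.lt_or_ge a b with h4 | h4
    · rcases Nat.lt_or_ge (a + 1) b with h5 | h5
      · have h6 := S.far (a - lo (i + 1)) (b - lo (i + 1)) (by omega) (by omega) (by
          show dcv (x (i + 1) (lo (i + 1) + (a - lo (i + 1))))
            (x (i + 1) (lo (i + 1) + (b - lo (i + 1)))) ≠ 0
          rw [show lo (i + 1) + (a - lo (i + 1)) = a by omega,
            show lo (i + 1) + (b - lo (i + 1)) = b by omega]
          have := StA_dcv_pos hz hv
          omega)
        omega
      · rw [show a + 1 = b by omega] at h2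
        have := StA_dcv_pos hz hv
        omega
    · rcases Nat.lt_or_ge (b + 1) a with h5 | h5
      · have h6 := S.far (b - lo (i + 1)) (a - lo (i + 1)) (by omega) (by omega) (by
          show dcv (x (i + 1) (lo (i + 1) + (b - lo (i + 1))))
            (x (i + 1) (lo (i + 1) + (a - lo (i + 1)))) ≠ 0
          rw [show lo (i + 1) + (a - lo (i + 1)) = a by omega,
            show lo (i + 1) + (b - lo (i + 1)) = b by omega]
          have := StA_dcv_pos hv hz
          omega)
        omega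
      · rw [show a - 1 = b by omega] at h1
        have := StA_dcv_pos hv hz
        omega

/-- S6 for one component: the defects of the row of level `i + 1`, no join below `t` -/
theorem S6_loc (h : GoodTo P r (i + 1)) (hi1 : 1 ≤ i) (hr : i + 2 ≤ r)
    (hno : ∀ z : P, lev z = i + 2 → z ≤ t → ¬ Hul.Jn z) (ht : lev t = 0)
    (C : Comp P t (i + 1) lo hi x) :
    ∃ (c : ℕ → ℤ) (β : ℤ), PcPat (hi (i + 1) - lo (i + 1)) c β ∧
      (∀ a b, lo (i + 1) ≤ a → a < b → b ≤ hi (i + 1) →
        (dcv (x (i + 1) a) (x (i + 1) b) : ℤ) - ucv (x (i + 1) a) (x (i + 1) b) =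
          if b = a + 1 then c (a - lo (i + 1)) else
          if a = lo (i + 1) ∧ b = hi (i + 1) then β else 0) ∧
      (β ≠ 0 → (uc (x (i + 1) (lo (i + 1)))).card = 1 ∧
        (uc (x (i + 1) (hi (i + 1)))).card = 1) := by
  have S := C.rw_row h hi1 ht
  have hlohi := C.lohi (i + 1) le_rfl
  have hS5 := (near_level' h hi1).2 t lo hi x ht C
  set m := hi (i + 1) - lo (i + 1) with hm
  set X : ℕ → P := fun a => x (i + 1) (lo (i + 1) + a) with hX
  have hXe : ∀ a, lo (i + 1) ≤ a → X (a - lo (i + 1)) = x (i + 1) a := by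
    intro a ha
    show x (i + 1) (lo (i + 1) + (a - lo (i + 1))) = x (i + 1) a
    congr 1
    omega
  have hSV : St.wt0 (i + 1) t = SV m X := by
    ext v
    unfold SV
    rw [St.mem_wt0, mem_image]
    constructor
    · rintro ⟨h1, h2⟩
      obtain ⟨a, ha, hx⟩ := S.surj v h1 h2
      exact ⟨a, mem_range.2 (by omega), hx⟩
    · rintro ⟨a, ha, rfl⟩
      rw [mem_range] at ha
      exact ⟨S.lev_x a (by omega), S.le_t a (by omega)⟩
  have hmp : St.mp (Df (i + 1)) (SV m X) = 1 := by
    rw [← hSV]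
    exact S6_mp_loc h hno ht
  obtain ⟨q, hq⟩ := S5c_pen hS5
  have f1 := C.lo_le i (by omega)
  have f2 := C.lo_ge i (by omega)
  have f3 := C.hi_le i (by omega)
  have f4 := C.hi_ge i (by omega)
  obtain ⟨c, β, hpat, hc, hβ⟩ := S.cases h.H hmp (p := q - 1 - lo (i + 1)) (by
    intro a ha hap
    by_contra hcon
    have h3 : 1 ≤ (pen (x (i + 1) (lo (i + 1) + a + 1))).card := by
      refine S6_pendant_loc C h hi1 hr hno ht (by omega) (by omega) ?_ ?_
      · have : dcv (X a) (X (a + 1)) = 0 := by omega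
        exact this
      · have : dcv (X (a + 1)) (X (a + 2)) = 0 := by omega
        exact this
    rw [hq (lo (i + 1) + a + 1) (by omega) (by omega) (by omega)] at h3
    omega)
  have hval : ∀ a b, lo (i + 1) ≤ a → a < b → b ≤ hi (i + 1) →
      (dcv (x (i + 1) a) (x (i + 1) b) : ℤ) - ucv (x (i + 1) a) (x (i + 1) b) =
        Df (i + 1) {X (a - lo (i + 1)), X (b - lo (i + 1))} := by
    intro a b h1 h2 h3
    rw [hXe a h1, hXe b (by omega), Df_pair h.H (C.lev_x _ le_rfl a h1 (by omega))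
      (C.inj _ le_rfl a b h1 h2 h3)]
  refine ⟨c, β, hpat, ?_, ?_⟩
  · intro a b h1 h2 h3
    rw [hval a b h1 h2 h3]
    split_ifs with h4 h5
    · have h6 := hc (a - lo (i + 1)) (by omega)
      rw [← h6, show b - lo (i + 1) = a - lo (i + 1) + 1 by omega]
    · have h6 := hβ (by omega)
      rw [← h6, show a - lo (i + 1) = 0 by omega, show b - lo (i + 1) = m by omega]
    · exact S.onStrip h.H _ _ (by omega) (by omega) (by omega)
  · intro hβ0
    by_cases hm2 : 2 ≤ m
    · have h6 := hβ hm2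
      rw [S.Df_ends h.H hm2] at h6
      have h7 : dcv (X 0) (X m) ≠ 0 := by
        intro h8
        rw [h8] at h6
        exact hβ0 (by rw [← h6]; norm_num)
      obtain ⟨-, -, h8, h9⟩ := S.far 0 m (by omega) le_rfl h7
      refine ⟨h8, ?_⟩
      have h10 : X m = x (i + 1) (hi (i + 1)) := by
        show x (i + 1) (lo (i + 1) + m) = x (i + 1) (hi (i + 1))
        congr 1
        omega
      rw [← h10]
      exact h9
    · exfalso
      rcases hpat with ⟨e, -⟩ | ⟨e, -⟩ | ⟨e, -⟩ | ⟨e, -⟩ | ⟨e, -⟩ | ⟨e, -⟩ | ⟨e, -⟩ | ⟨e, -⟩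
      · exact hβ0 e
      all_goals omega

/-- no inner doubling: a doubled pair of neighbours contains an end of the row, or the row has seven
elements and the pair is the third or fourth one -/
theorem inner_pat {m : ℕ} {c : ℕ → ℤ} {β : ℤ} (h : PcPat m c β) {k : ℕ} (h1 : 1 ≤ k)
    (h2 : k + 1 < m) (hk : 1 ≤ c k) : m = 6 ∧ (k = 2 ∨ k = 3) := by
  rcases h with ⟨-, g⟩ | ⟨-, -, -, g⟩ | ⟨-, -, -, g⟩ | ⟨-, -, -, g1, g⟩ | ⟨-, -, -, g1, g⟩ |
    ⟨-, -, -, g1, g2, -, g⟩ | ⟨g, -⟩ | ⟨g, -, -, g1, g4, -, g5⟩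
  · rw [g k (by omega)] at hk
    omega
  · rw [g k h1 (by omega)] at hk
    omega
  · rw [g k (by omega)] at hk
    omega
  · rcases Nat.lt_or_ge k 2 with h3 | h3
    · rw [show k = 1 by omega, g1] at hk
      omega
    · rw [g k h3 (by omega)] at hk
      omega
  · rcases Nat.lt_or_ge (k + 2) m with h3 | h3
    · rw [g k h3] at hk
      omega
    · rw [show k = m - 2 by omega, g1] at hk
      omega
  · rcases Nat.lt_or_ge k 2 with h3 | h3
    · rw [show k = 1 by omega, g1] at hk
      omega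
    · rcases Nat.lt_or_ge (k + 2) m with h4 | h4
      · rw [g k h3 h4] at hk
        omega
      · rw [show k = m - 2 by omega, g2] at hk
        omega
  · omega
  · subst g
    refine ⟨rfl, ?_⟩
    have h5 : k = 1 ∨ k = 2 ∨ k = 3 ∨ k = 4 := by omega
    rcases h5 with rfl | rfl | rfl | rfl
    · omega
    · exact Or.inl rfl
    · exact Or.inr rfl
    · omega

end Pool.Agent.GaussPoset.Win
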