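import Pool.Agent.W_448s7s_h5.SsA
import Pool.Agent.W_448s7s_h5.SpC

/-!
# No own twins and no flips on the first bad level (MP_448cb3_co), N1

All levels less than `j = i + 1` are good and no join of level `j + 1` lies below `t`.  In the row of
level `j` of `t` no inner pair of neighbours has two common lower covers (`no_twin_in`), except the third
or fourth pair of a row of seven elements; with letter C at the end of level `j`, the pendant of the next
level is not below the second element of the row (`no_flip_left`, `no_flip_right`).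
-/

set_option autoImplicit false

namespace Pool.Agent.GaussPoset.Win

set_option linter.unusedSectionVars false

open Finset

universe u

variable {P : Type u} [Fintype P] [PartialOrder P] [DecidableEq P] {r i : ℕ} {t : P}
  {lo hi : ℕ → ℕ} {x : ℕ → ℕ → P}

/-- **N1, twins**: an inner pair of neighbours has at most one common lower cover -/
theorem no_twin_in (h : GoodTo P r (i + 1)) (hi1 : 1 ≤ i) (hr : i + 2 ≤ r)
    (hno : ∀ z : P, lev z = i + 2 → z ≤ t → ¬ Hul.Jn z) (ht : lev t = 0)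
    (C : Comp P t (i + 1) lo hi x) {a : ℕ} (h1 : lo (i + 1) < a) (h2 : a + 1 < hi (i + 1))
    (h6 : hi (i + 1) = lo (i + 1) + 6 → a ≠ lo (i + 1) + 2 ∧ a ≠ lo (i + 1) + 3) :
    dcv (x (i + 1) a) (x (i + 1) (a + 1)) ≤ 1 := by
  obtain ⟨c, β, hp, hd, -⟩ := S6_loc h hi1 hr hno ht C
  have e := hd a (a + 1) h1.le (by omega) (by omega)
  rw [if_pos rfl, C.ucv_lt h ht le_rfl h1.le (by omega) (by omega), if_pos rfl] at e
  by_contra hcon
  have hk : (1 : ℤ) ≤ c (a - lo (i + 1)) := by
    rw [← e]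
    omega
  obtain ⟨g1, g2⟩ := inner_pat hp (by omega) (by omega) hk
  have := h6 (by omega)
  omega

lemma dc_inter_card (v v' : P) : (dc v ∩ dc v').card = dcv v v' := by
  classical
  unfold dcv
  congr 1
  ext y
  simp only [mem_inter, mem_dc, mem_filter, mem_univ, true_and]

lemma dcv_swap (v v' : P) : dcv v v' = dcv v' v := by
  rw [← dc_inter_card, ← dc_inter_card, inter_comm]

/-- a pendant and the common lower covers with two other elements -/
lemma pen_two (H : Gr P r) {v y y' : P} (hy : y ≠ v) (hy' : y' ≠ v) (hne : y ≠ y') :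
    (pen v).card + dcv v y + dcv v y' ≤ 2 := by
  classical
  rw [← dc_inter_card, ← dc_inter_card]
  have d1 : Disjoint (pen v) (dc v ∩ dc y) := by
    rw [disjoint_left]
    intro z hz hz'
    rw [mem_pen] at hz
    rw [mem_inter, mem_dc, mem_dc] at hz'
    obtain ⟨b, hb⟩ := card_eq_one.1 hz.2
    have e1 : v ∈ uc z := mem_uc.2 hz'.1
    have e2 : y ∈ uc z := mem_uc.2 hz'.2
    rw [hb, mem_singleton] at e1 e2
    exact hy (e2.trans e1.symm)
  have d2 : Disjoint (pen v ∪ (dc v ∩ dc y)) (dc v ∩ dc y') := by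
    rw [disjoint_left]
    intro z hz hz'
    rw [mem_inter, mem_dc, mem_dc] at hz'
    have e1 : v ∈ uc z := mem_uc.2 hz'.1
    have e2 : y' ∈ uc z := mem_uc.2 hz'.2
    rcases mem_union.1 hz with h | h
    · rw [mem_pen] at h
      obtain ⟨b, hb⟩ := card_eq_one.1 h.2
      rw [hb, mem_singleton] at e1 e2
      exact hy' (e2.trans e1.symm)
    · rw [mem_inter, mem_dc, mem_dc] at h
      have e3 : y ∈ uc z := mem_uc.2 h.2
      have h3 : ({v, y, y'} : Finset P) ⊆ uc z := by
        intro w hw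
        rw [mem_insert, mem_insert, mem_singleton] at hw
        rcases hw with rfl | rfl | rfl
        · exact e1
        · exact e3
        · exact e2
      have h4 := card_le_card h3
      rw [card_eq_three.2 ⟨v, y, y', hy.symm, hy'.symm, hne, rfl⟩] at h4
      have := uc_card_le H z
      omega
  rw [← card_union_of_disjoint d1, ← card_union_of_disjoint d2]
  refine (card_le_card ?_).trans (dc_card_le H v)
  intro z hz
  rcases mem_union.1 hz with h | h
  · rcases mem_union.1 h with h | h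
    · exact mem_dc.2 (mem_pen.1 h).1
    · exact (mem_inter.1 h).1
  · exact (mem_inter.1 h).1

/-- a double of the row without pendants at the end of the row has a common lower cover with its
neighbour -/
lemma end_dbl (C : Comp P t (i + 1) lo hi x) (h : GoodTo P r (i + 1)) (hi1 : 1 ≤ i)
    (hr : i + 2 ≤ r) (hno : ∀ z : P, lev z = i + 2 → z ≤ t → ¬ Hul.Jn z) (ht : lev t = 0)
    {a b : ℕ} (ha : a = lo (i + 1) ∧ b = a + 1 ∨ a = hi (i + 1) ∧ a = b + 1)
    (hab : lo (i + 1) ≤ a ∧ a ≤ hi (i + 1) ∧ lo (i + 1) ≤ b ∧ b ≤ hi (i + 1))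
    (h2 : (uc (x (i + 1) a)).card = 2) (hp : (pen (x (i + 1) a)).card = 0) :
    1 ≤ dcv (x (i + 1) a) (x (i + 1) b) := by
  have hl := C.lev_x (i + 1) le_rfl a hab.1 hab.2.1
  obtain ⟨z, hz⟩ := exists_dc h.H (v := x (i + 1) a) (by omega)
  have hlz := lev_cov h.H hz
  rcases uc_card_cases h.H (x := z) (by omega) with h3 | h3
  · exfalso
    have := Finset.card_pos.2 ⟨z, mem_pen.2 ⟨hz, h3⟩⟩
    omega
  · obtain ⟨v, hv, hne⟩ := exists_other_uc (y := x (i + 1) a) h3
    have hlv := lev_cov h.H hv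
    have hvt := h.top_of_dcv_loc hno hl (StA_dcv_pos hz hv) ht
      (C.le_t (i + 1) le_rfl a hab.1 hab.2.1)
    obtain ⟨b', b1, b2, rfl⟩ := C.surj (i + 1) le_rfl v (by omega) hvt
    have hab' : a ≠ b' := fun he => hne (by rw [he])
    have hpos := StA_dcv_pos hz hv
    have S := C.rw_row h hi1 ht
    by_cases hbb : b' = b
    · rw [← hbb]
      exact hpos
    · exfalso
      rcases Nat.lt_or_ge a b' with h4 | h4
      · have h6 := S.far (a - lo (i + 1)) (b' - lo (i + 1)) (by omega) (by omega) (by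
          show dcv (x (i + 1) (lo (i + 1) + (a - lo (i + 1))))
            (x (i + 1) (lo (i + 1) + (b' - lo (i + 1)))) ≠ 0
          rw [show lo (i + 1) + (a - lo (i + 1)) = a by omega,
            show lo (i + 1) + (b' - lo (i + 1)) = b' by omega]
          omega)
        obtain ⟨-, -, g1, -⟩ := h6
        rw [show lo (i + 1) + 0 = a by omega] at g1
        omega
      · have h6 := S.far (b' - lo (i + 1)) (a - lo (i + 1)) (by omega) (by omega) (by
          show dcv (x (i + 1) (lo (i + 1) + (b' - lo (i + 1))))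
            (x (i + 1) (lo (i + 1) + (a - lo (i + 1)))) ≠ 0
          rw [show lo (i + 1) + (a - lo (i + 1)) = a by omega,
            show lo (i + 1) + (b' - lo (i + 1)) = b' by omega]
          have := StA_dcv_pos hv hz
          omega)
        obtain ⟨-, -, -, g1⟩ := h6
        rw [show lo (i + 1) + (hi (i + 1) - lo (i + 1)) = a by omega] at g1
        omega

/-- **N1, flips**: letter C at the left end of level `j`, the second element of the row of level `j` has
no pendant -/
theorem no_flip_left (h : GoodTo P r (i + 1)) (hi1 : 1 ≤ i) (hr : i + 2 ≤ r)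
    (hno : ∀ z : P, lev z = i + 2 → z ≤ t → ¬ Hul.Jn z) (ht : lev t = 0)
    (C : Comp P t (i + 1) lo hi x) (hlo : lo (i + 1) = lo i + 1)
    (hm : lo (i + 1) + 4 ≤ hi (i + 1)) :
    (pen (x (i + 1) (lo (i + 1) + 1))).card = 0 := by
  by_contra hcon
  obtain ⟨c, β, hp, hd, hb⟩ := S6_loc h hi1 hr hno ht C
  have f3 := C.hi_le i (by omega)
  have f4 := C.hi_ge i (by omega)
  have hS5 := (near_level' h hi1).2 t lo hi x ht C
  have u0 : (uc (x (i + 1) (lo (i + 1)))).card = 2 :=
    (C.uc_two h ht (k := i) (by omega) le_rfl (by omega)).2 ⟨by omega, by omega⟩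
  have hβ : β = 0 := by
    by_contra hβ
    have := (hb hβ).1
    omega
  have p0 : (pen (x (i + 1) (lo (i + 1)))).card = 0 := by
    rcases hS5 with ⟨-, -, g1⟩ | ⟨-, -, b, -, g1⟩ | ⟨-, -, b, -, g1⟩
    · exact g1 _ (by omega) (by omega)
    · have e1 := g1 (lo (i + 1) + 1) (by omega) (by omega)
      have e2 := g1 (lo (i + 1)) (by omega) (by omega)
      rw [e2]
      split_ifs at e1 ⊢ <;> omega
    · have e1 := g1 (lo (i + 1) + 1) (by omega) (by omega)
      have e2 := g1 (lo (i + 1)) (by omega) (by omega)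
      rw [e2]
      split_ifs at e1 ⊢ <;> omega
  have k1 := end_dbl C h hi1 hr hno ht (a := lo (i + 1)) (b := lo (i + 1) + 1)
    (Or.inl ⟨rfl, rfl⟩) ⟨le_rfl, by omega, by omega, by omega⟩ u0 p0
  have k2 := pen_two h.H (v := x (i + 1) (lo (i + 1) + 1)) (y := x (i + 1) (lo (i + 1)))
    (y' := x (i + 1) (lo (i + 1) + 2)) (C.inj _ le_rfl _ _ le_rfl (by omega) (by omega))
    (C.inj _ le_rfl _ _ (by omega) (by omega) (by omega)).symm
    (C.inj _ le_rfl _ _ le_rfl (by omega) (by omega))
  have e1 := hd (lo (i + 1)) (lo (i + 1) + 1) le_rfl (by omega) (by omega)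
  have e2 := hd (lo (i + 1) + 1) (lo (i + 1) + 2) (by omega) (by omega) (by omega)
  rw [if_pos rfl, C.ucv_lt h ht le_rfl le_rfl (by omega) (by omega), if_pos rfl,
    Nat.sub_self] at e1
  rw [if_pos rfl, C.ucv_lt h ht le_rfl (by omega) (by omega) (by omega), if_pos rfl,
    show lo (i + 1) + 1 - lo (i + 1) = 1 by omega] at e2
  rw [dcv_swap (x (i + 1) (lo (i + 1) + 1)) (x (i + 1) (lo (i + 1)))] at k2
  have c0 : c 0 = 0 := by
    rw [← e1]
    omega
  have c1 : c 1 = -1 := by
    rw [← e2]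
    omega
  rcases hp with ⟨-, g⟩ | ⟨-, g, -⟩ | ⟨-, g, -⟩ | ⟨-, -, g, -⟩ | ⟨-, -, -, -, g⟩ |
    ⟨-, -, g, -⟩ | ⟨g, -⟩ | ⟨-, -, g, -⟩
  · have := g 1 (by omega)
    omega
  · omega
  · omega
  · omega
  · have := g 1 (by omega)
    omega
  · omega
  · omega
  · omega

/-- the same at the right end -/
theorem no_flip_right (h : GoodTo P r (i + 1)) (hi1 : 1 ≤ i) (hr : i + 2 ≤ r)
    (hno : ∀ z : P, lev z = i + 2 → z ≤ t → ¬ Hul.Jn z) (ht : lev t = 0)
    (C : Comp P t (i + 1) lo hi x) (hhi : hi (i + 1) = hi i)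
    (hm : lo (i + 1) + 4 ≤ hi (i + 1)) :
    (pen (x (i + 1) (hi (i + 1) - 1))).card = 0 := by
  by_contra hcon
  obtain ⟨c, β, hp, hd, hb⟩ := S6_loc h hi1 hr hno ht C
  have f1 := C.lo_le i (by omega)
  have f2 := C.lo_ge i (by omega)
  have hS5 := (near_level' h hi1).2 t lo hi x ht C
  have u0 : (uc (x (i + 1) (hi (i + 1)))).card = 2 :=
    (C.uc_two h ht (k := i) (by omega) (by omega) le_rfl).2 ⟨by omega, by omega⟩
  have hβ : β = 0 := by
    by_contra hβ
    have := (hb hβ).2
    omega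
  have p0 : (pen (x (i + 1) (hi (i + 1)))).card = 0 := by
    rcases hS5 with ⟨-, -, g1⟩ | ⟨-, -, b, -, g1⟩ | ⟨-, -, b, -, g1⟩
    · exact g1 _ (by omega) (by omega)
    · have e1 := g1 (hi (i + 1) - 1) (by omega) (by omega)
      have e2 := g1 (hi (i + 1)) (by omega) (by omega)
      rw [e2]
      split_ifs at e1 ⊢ <;> omega
    · have e1 := g1 (hi (i + 1) - 1) (by omega) (by omega)
      have e2 := g1 (hi (i + 1)) (by omega) (by omega)
      rw [e2]
      split_ifs at e1 ⊢ <;> omega
  have k1 := end_dbl C h hi1 hr hno ht (a := hi (i + 1)) (b := hi (i + 1) - 1)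
    (Or.inr ⟨rfl, by omega⟩) ⟨by omega, by omega, by omega, by omega⟩ u0 p0
  have k2 := pen_two h.H (v := x (i + 1) (hi (i + 1) - 1)) (y := x (i + 1) (hi (i + 1)))
    (y' := x (i + 1) (hi (i + 1) - 2)) (C.inj _ le_rfl _ _ (by omega) (by omega) (by omega)).symm
    (C.inj _ le_rfl _ _ (by omega) (by omega) (by omega))
    (C.inj _ le_rfl _ _ (by omega) (by omega) (by omega)).symm
  have e1 := hd (hi (i + 1) - 1) (hi (i + 1)) (by omega) (by omega) (by omega)
  have e2 := hd (hi (i + 1) - 2) (hi (i + 1) - 1) (by omega) (by omega) (by omega)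
  rw [if_pos (by omega), C.ucv_lt h ht le_rfl (by omega) (by omega) (by omega),
    if_pos (by omega)] at e1
  rw [if_pos (by omega), C.ucv_lt h ht le_rfl (by omega) (by omega) (by omega),
    if_pos (by omega)] at e2
  rw [dcv_swap (x (i + 1) (hi (i + 1))) (x (i + 1) (hi (i + 1) - 1))] at k1
  rw [dcv_swap (x (i + 1) (hi (i + 1) - 1)) (x (i + 1) (hi (i + 1) - 2))] at k2
  have c0 : c (hi (i + 1) - 1 - lo (i + 1)) = 0 := by
    rw [← e1]
    omega
  have c1 : c (hi (i + 1) - 2 - lo (i + 1)) = -1 := by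
    rw [← e2]
    omega
  rw [show hi (i + 1) - 1 - lo (i + 1) = hi (i + 1) - lo (i + 1) - 1 by omega] at c0
  rw [show hi (i + 1) - 2 - lo (i + 1) = hi (i + 1) - lo (i + 1) - 2 by omega] at c1
  rcases hp with ⟨-, g⟩ | ⟨-, g, -⟩ | ⟨-, g, -⟩ | ⟨-, -, -, -, g⟩ | ⟨-, -, g, -⟩ |
    ⟨-, -, -, -, -, g, -⟩ | ⟨g, -⟩ | ⟨g', -, -, -, -, g, -⟩
  · have := g (hi (i + 1) - lo (i + 1) - 2) (by omega)
    omega
  · omega
  · omega
  · have := g (hi (i + 1) - lo (i + 1) - 2) (by omega) (by omega)
    omega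
  · omega
  · omega
  · omega
  · rw [g'] at c0
    norm_num at c0
    omega

end Pool.Agent.GaussPoset.Win
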