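import Pool.Agent.W_448s7_h27.EwD
import Pool.Agent.W_448s7_h5.SevP

/-!
Level `11`: the fine natural system at window `4` (MP_448cb3_co, S7).
-/

namespace Pool.Agent.GaussPoset.Ec

set_option linter.unusedSectionVars false

open Polynomial Finset Sm Wd Cp W4 Cl

universe u

variable {P : Type u} [Fintype P] [PartialOrder P] [DecidableEq P] {r j : ℕ}

section Exists

variable {t : Tops P} {lo hi : ℕ → ℕ} {e : ℕ → ℕ → P}

/-- every component of level `j ≥ 11` has a fine system at window `4` -/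
theorem exists_fine (h : Win.GoodTo P r j) (hj : 11 ≤ j)
    (C : Comp j (t : P) lo hi e) (S : Shape j lo hi) :
    ∃ N θ4 Nf θf, ∃ d : Prop, FineY j t lo hi e N θ4 (hi 4 - lo 4 + 1) Nf θf d := by
  have H := h.H
  have hg := h.good
  have hlo := C.lo_le 3 (by omega)
  have hlo4 := C.lo_le 4 (by omega)
  have h5 : ∀ x, x ≤ (t : P) → lev x ≤ j → x ∈ onlyB t := by
    intro x hx hxi
    rw [mem_onlyB]
    intro s hs hxs
    exact top_eq H hg hxi hs t.2 hxs hx
  have hls : lo 4 = lo 3 ∨ lo 4 = lo 3 + 1 := C.lo_step 3 (by omega)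
  have hhs : hi 4 = hi 3 ∨ hi 4 = hi 3 + 1 := C.hi_step 3 (by omega)
  have hii : hi 3 ≤ 3 := C.hi_le (by omega)
  have hii4 : hi 4 ≤ 4 := C.hi_le (by omega)
  have hlight : lo 3 = hi 3 → lo 4 = hi 4 →
      ∃ N θ4 Nf θf, ∃ d : Prop, FineY j t lo hi e N θ4 (hi 4 - lo 4 + 1) Nf θf d := by
    intro e1 e2
    rw [e2, Nat.sub_self]
    exact ⟨_, _, _, _, False, FineY.light rfl rfl rfl rfl rfl (fun h => h) h5⟩
  have hstair : ∀ {lo' hi' : ℕ → ℕ} {e' : ℕ → ℕ → P}, Comp j (t : P) lo' hi' e' →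
      StairShape j lo' hi' → hi' 3 - lo' 3 = hi 3 - lo 3 → hi' 4 - lo' 4 = hi 4 - lo 4 →
      ∃ N θ4 Nf θf, ∃ d : Prop, FineY j t lo hi e N θ4 (hi 4 - lo 4 + 1) Nf θf d := by
    intro lo' hi' e' C' hT q3 q4
    have h2 : hi' 3 = 3 / 2 := hT.hi 3 (by omega)
    have h2' : hi' 4 = 4 / 2 := hT.hi 4 (by omega)
    have hls' : lo' 4 = lo' 3 ∨ lo' 4 = lo' 3 + 1 := C'.lo_step 3 (by omega)
    have h0 : lo' 4 = 0 := by
      by_contra hcon
      have e1 := shape_lo C' hT.lo (l := 4) (by omega) 4 (by omega)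
      have e2 := hT.hi (4 + 4) (by omega)
      have e3 := C'.lo_le (4 + 4) (by omega)
      omega
    obtain ⟨N, co, h1, -⟩ := exists_stair C' H hg H.gradedBelow hT (i := 4) (by omega)
    have hb4 : hi 4 - lo 4 + 1 = 3 := by omega
    exact ⟨_, _, _, _, True, FineY.stair N co h1 rfl rfl hb4 rfl rfl trivial⟩
  rcases shape_cases C (by omega) S with hs | (hT | hT) | ⟨a, hL, h3⟩
  · exact hlight (hs 3 (by omega)) (hs 4 (by omega))
  · have f1 : lo 4 = 0 ∨ lo 4 = lo 3 + 1 := hT.lo 3 (by omega)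
    have f2 : hi 4 = 4 ∨ hi 4 = hi 3 := hT.hi 3 (by omega)
    have f3 : lo 4 = 0 ∨ hi 4 = 4 := by
      by_contra hcon
      have e1 := shape_lo C hT.lo (l := 4) (by omega) 4 (by omega)
      have e2 := shape_hi C hT.hi (l := 4) (by omega) 4 (by omega)
      have e3 := C.lo_le (4 + 4) (by omega)
      omega
    by_cases hl : lo 3 = hi 3
    · exact hlight hl (by omega)
    · have hlt : lo 3 < hi 3 := by omega
      obtain ⟨N, co, h1, -⟩ := exists_rect C H hg H.gradedBelow hT (i := 4) (by omega) (by omega)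
      exact ⟨_, _, _, _, False,
        FineY.rect _ N co h1 rfl rfl rfl rfl rfl (fun h => h) hlt⟩
  · exact hstair C hT rfl rfl
  · have h4 := hL.four (by omega)
    have e3 := hL.low 3 (by omega)
    by_cases ha : a = 4
    · subst ha
      obtain ⟨D, hj16⟩ := wordD_four (lateD_of hL (by omega)) (by omega) (by omega)
      have hb : hi 4 - lo 4 + 1 = 2 := by
        rw [hL.at_a.1, hL.at_a.2]
      rw [hb]
      exact ⟨_, _, _, _, True, FineY.e7 D rfl rfl rfl rfl rfl trivial h5 hj16⟩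
    · have e4 := hL.low 4 (by omega)
      exact hlight (by rw [e3.1, e3.2]) (by rw [e4.1, e4.2])

end Exists

/-- lower bound of the cost at window `4` -/
lemma cst4_ge {h : P → ℕ} {z : P} (f : ℕ → ℕ) (m : ℕ) (hl : 12 ≤ lev z) (hh : m ≤ h z)
    (hf : ∀ k, 5 ≤ k → k ≤ 12 → f k ≤ nab k z) :
    ∑ k ∈ range 13, min m (k - 4) * f k ≤ cst 4 h z := by
  rw [cst_eq]
  refine le_trans ?_ (Finset.sum_le_sum_of_subset (s := range 13) ?_)
  · refine Finset.sum_le_sum fun k hk => ?_
    rw [mem_range] at hk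
    rcases Nat.lt_or_ge 4 k with h1 | h1
    · exact Nat.mul_le_mul (min_le_min_right _ hh) (hf k h1 (by omega))
    · have : k - 4 = 0 := by omega
      rw [this, Nat.min_zero, Nat.zero_mul]
      exact Nat.zero_le _
  · intro k hk
    rw [mem_range] at hk ⊢
    omega

/-- two elements above a cell of a rectangle -/
lemma two_cell_rect {t : P} {N : Finset P} {co : P → ℕ × ℕ} (C : Chart t (fun _ => True) N co)
    {x : P} (hx : x ∈ N) (h1 : 1 ≤ (co x).1) (h2 : 1 ≤ (co x).2) (hl : 11 ≤ lev x) {k : ℕ}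
    (hk5 : 5 ≤ k) (hk : k ≤ 10) : 2 ≤ nab k x := by
  have h3 := C.lev x hx
  rw [nab_chart C hx k]
  have h4 := card_cellsAt_true (l := k) (p := co x) (by omega)
  omega

/-- two elements above a cell of a stair -/
lemma two_cell_stair {t : P} {N : Finset P} {co : P → ℕ × ℕ}
    (C : Chart t (fun c => c.1 ≤ c.2) N co)
    {x : P} (hx : x ∈ N) (h1 : 1 ≤ (co x).1) (hl : 11 ≤ lev x) {k : ℕ}
    (hk5 : 5 ≤ k) (hk : k ≤ 10) : 2 ≤ nab k x := by
  have h3 := C.lev x hx
  have h5 : (co x).1 ≤ (co x).2 := C.mem x hx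
  rw [nab_chart C hx k]
  have h4 := card_cellsAt_shift (l := k) (p := co x) h5 (by omega)
  omega

/-- the kinds of unnatural elements at window `4`, level `11` -/
theorem FineY.kinds {t : Tops P} {lo hi : ℕ → ℕ} {e : ℕ → ℕ → P} {N : Finset P} {θ4 : P → ℕ}
    {b : ℕ} {Nf : Tops P → Finset P} {θf : (ℕ → ℕ → ℕ) → P → ℕ} {d : Prop}
    (F : FineY j t lo hi e N θ4 b (Nf t) θf d) (HN : NatSys Nf) (H : Gr P r)
    (C : Comp j (t : P) lo hi e) (hj : 11 ≤ j)
    {z x : P} (hz : z ∈ unnat Nf) (hx : x ∈ Nf t) (hzx : z ⋖ x) (hl : 11 ≤ lev x) :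
    (3 ≤ θf E7t4 x ∧ ∀ k, 5 ≤ k → k ≤ 10 → 2 ≤ nab k z) ∨
      (WordD j 4 w7 lo hi ∧ Nf t = lowPart j (t : P) ∧ θf E7t4 = thC lo hi e E7t4) := by
  rcases F with ⟨h1, h2, h3, h4, h5, h6, h7⟩ | ⟨c, Nc, co, h0, h1, h2, h3, h4, h5, h6⟩ |
    ⟨h0, h1, h2, h3, h4, h5, h6, h7, h8⟩ | ⟨Nc, co, h0, h1, h2, h3, h4, h5, h6⟩
  · left
    subst h5 h2
    refine ⟨by simp only; omega, fun k hk hk' => ?_⟩
    obtain ⟨s, hs, hst, hzs⟩ := light_private HN (by rw [h4, h1]) hz
    have hzt : z ≤ (t : P) := hzx.le.trans (HN.le_t t x hx)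
    exact two_le_nab_join HN H.gradedBelow hx hzx.le hs hst (hzs.resolve_right (fun h => h hzt))
      (by omega)
  · left
    have hb := h0.b_le
    have hNt : Nf t = natR Nc co := by rw [h4, h1]
    subst h5 h2
    have hJ : ∀ x, (x ∈ junk (fun _ => True) Nc co ∨ x ∈ junk (fun _ => True) Nc (swp co)) ∨
        ¬ (x ∈ junk (fun _ => True) Nc co ∨ x ∈ junk (fun _ => True) Nc (swp co)) :=
      fun x => em _
    rcases hJ x with hJx | hJx
    · refine ⟨?_, fun k hk hk' => ?_⟩
      · show 3 ≤ thR 4 c Nc co x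
        unfold thR
        rw [if_pos hJx]
        omega
      · exact rect_two_le_nab H h0 hNt hz hzx.le
          (hJx.elim Or.inl (fun h => Or.inr (Or.inl h))) (by omega) (by omega)
    · have hxN : x ∈ Nc := by
        rw [hNt, mem_natR] at hx
        rcases hx with h | h
        · exact h
        · exact absurd h hJx
      have hlx := h0.chart.lev x hxN
      refine ⟨?_, fun k hk hk' => ?_⟩
      · show 3 ≤ thR 4 c Nc co x
        unfold thR
        rw [if_neg hJx]
        omega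
      · by_cases hc : (co x).1 = 0 ∨ (co x).2 = 0
        · exact rect_two_le_nab H h0 hNt hz hzx.le (Or.inr (Or.inr ⟨hxN, hc⟩)) (by omega)
            (by omega)
        · push Not at hc
          exact (two_cell_rect h0.chart hxN (by omega) (by omega) hl hk hk').trans
            (nab_mono hzx.le)
  · right
    exact ⟨h0, h4, by rw [h5]⟩
  · left
    have hNt : Nf t = natS Nc co := by rw [h4, h1]
    subst h5
    by_cases hJx : x ∈ junk (fun c => c.1 ≤ c.2) Nc co
    · refine ⟨?_, fun k hk hk' => ?_⟩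
      · show 3 ≤ thS 4 Nc co x
        unfold thS
        rw [if_pos hJx]
        omega
      · exact stair_two_le_nab H h0 hNt hz hzx.le (Or.inl hJx) (by omega) (by omega)
    · have hxN : x ∈ Nc := by
        rw [hNt, mem_natS] at hx
        exact hx.resolve_right hJx
      have hlx := h0.chart.lev x hxN
      refine ⟨?_, fun k hk hk' => ?_⟩
      · show 3 ≤ thS 4 Nc co x
        unfold thS
        rw [if_neg hJx]
        omega
      · by_cases hc : (co x).1 = 0
        · exact stair_two_le_nab H h0 hNt hz hzx.le (Or.inr ⟨hxN, hc⟩) (by omega) (by omega)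
        · exact (two_cell_stair h0.chart hxN (by omega) hl hk hk').trans (nab_mono hzx.le)

end Pool.Agent.GaussPoset.Ec
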