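import Pool.Agent.W_448b1_h24.BA

/-!
Shifted diagrams with at most `i` rows all of which end at distance one from the window `i`: the
alternating sum (MP_448cb3_co, S7, `j = 13`).
-/

namespace Pool.Agent.GaussPoset.Yg

set_option linter.unusedSectionVars false

open Finset Polynomial

section inv

variable {A : Type*} [Ring A]

lemma IS_one (g : ℕ → A) {r : ℕ} (hr : 2 ≤ r) : IS g r 1 = 0 := by
  obtain ⟨r, rfl⟩ : ∃ r', r = r' + 2 := ⟨r - 2, by omega⟩
  rw [IS_succ, IS_succ_zero, IS_succ_zero]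
  simp

/-- only the label `0` is bad -/
lemma IS_vanish (g : ℕ → A) {r : ℕ} (hr : 2 ≤ r) : ∀ b : ℕ, (∀ x, 1 ≤ x → x < b → g x = 0) →
    IS g r b = 0 := by
  intro b
  obtain ⟨r, rfl⟩ : ∃ r', r = r' + 1 := ⟨r - 1, by omega⟩
  induction b with
  | zero => intro _; exact IS_succ_zero g r
  | succ b ih =>
    intro h
    rcases Nat.eq_zero_or_pos b with h0 | h0
    · subst h0
      exact IS_one g hr
    · rw [IS_succ, ih (fun x h1 h2 => h x h1 (by omega)), h b h0 (by omega), mul_zero, sub_zero]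

end inv

section near

variable {K : Type*} [Field K] [CharZero K] {q : K}
variable (hq0 : q ≠ 0) (hq : ∀ j : ℕ, 1 - q ^ (j + 1) ≠ 0)

include hq0 in
lemma rowP_zero_near {i a k x : ℕ} (h1 : x + a < i) (h2 : i ≤ a + k + x) :
    (rowP q i a k).eval (q ^ x) = 0 := by
  rw [rowP_eval]
  refine prod_eq_zero (i := i - 1 - a - x) (mem_range.2 (by omega)) ?_
  rw [← zpow_natCast q x, ← zpow_add₀ hq0]
  have h3 : (a : ℤ) + ((i - 1 - a - x : ℕ) : ℤ) + 1 - i + x = 0 := by omega
  rw [h3, zpow_zero, sub_self, mul_zero]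

include hq0 hq in
lemma rowP_GF_near {n i a k x l : ℕ} (ha : a < n) (h2 : i ≤ a + k + x)
    (hl : l + (i + 1) = n + x) :
    GF q (k + 1) (n - 1 - a) l = (rowP q i a k).eval (q ^ x) := by
  by_cases hc : l < n - 1 - a
  · rw [GF_lt q _ _ _ hc, rowP_zero_near hq0 (by omega) h2]
  · exact rowP_GF' hq0 hq (by omega) ha hl

end near

section nearSum

variable {K : Type*} [Field K] [CharZero K] {n : ℕ} {q : K}
variable (hq0 : q ≠ 0) (hq : ∀ j : ℕ, 1 - q ^ (j + 1) ≠ 0)

include hq0 hq in
/-- the sum over all labels as a function of the window variable: at most `i` rows, every row ends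
at distance at most one from the window -/
theorem SS_near {i : ℕ} {lam : Fin n → ℕ} (hn : n ≤ i) (h1 : ∀ a, 1 ≤ lam a)
    (h2 : ∀ a : Fin n, i ≤ a + lam a) :
    ∃ F ∈ GS q (ExteriorAlgebra K (Fin n → K)) (n / 2),
      ∀ m, SS (io (fv q lam)) n (m + n) = F (m + i + 1) := by
  obtain ⟨s, hs⟩ : ∃ s, i + 1 = s + n := ⟨i + 1 - n, by omega⟩
  have hs1 : 1 ≤ s := by omega
  set κ : K := (q ^ s)⁻¹ with hκ
  have hqs : q ^ s ≠ 0 := pow_ne_zero _ hq0
  have e1 : io (fv q lam) = fun y => κ • io (gv q i lam) (s + y) := by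
    funext y
    unfold io
    rw [← map_smul]
    congr 1
    funext a
    rw [Pi.smul_apply, smul_eq_mul]
    unfold fv gv
    have h3 := h1 a
    obtain ⟨k, hk⟩ : ∃ k, lam a = k + 1 := ⟨lam a - 1, by omega⟩
    have h5 := h2 a
    have h4 : GF q (lam a) (n - 1 - a) y = (rowP q i a (lam a - 1)).eval (q ^ (s + y)) := by
      rw [hk, Nat.add_sub_cancel]
      exact rowP_GF_near hq0 hq (i := i) (x := s + y) (l := y) a.2 (by omega) (by omega)
    rw [h4, hκ, pow_add]
    field_simp
  have e3 : ∀ x, 1 ≤ x → x < s → io (gv q i lam) x = 0 := by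
    intro x hx hx'
    have h5 : gv q i lam x = 0 := by
      funext a
      unfold gv
      have h3 := h1 a
      have h4 := h2 a
      have h6 := a.2
      rw [rowP_zero_near hq0 (by omega) (by omega), mul_zero]
      rfl
    unfold io
    rw [h5, map_zero]
  refine ⟨∑ c ∈ range (n + 1), κ ^ n • (SS (io (gv q i lam)) c *
      (fun _ => IS (io (gv q i lam)) (n - c) s)), ?_, fun m => ?_⟩
  · refine Submodule.sum_mem _ fun c hc => ?_
    rw [mem_range] at hc
    refine Submodule.smul_mem _ _ ?_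
    by_cases hg : n ≤ c + 1
    · have h3 := SS_mem hq (io_anti (gv q i lam)) (io_sq _) (gv_mem q i lam) c
      have h4 : SS (io (gv q i lam)) c ∈ GS q (ExteriorAlgebra K (Fin n → K)) (n / 2) :=
        GS_mono (by omega) h3
      have h5 := GS_mul h4 (GS_const (q := q) (IS (io (gv q i lam)) (n - c) s))
      rw [Nat.add_zero] at h5
      exact h5
    · rw [IS_vanish (io (gv q i lam)) (show 2 ≤ n - c by omega) s e3]
      have h6 : (SS (io (gv q i lam)) c * fun _ : ℕ => (0 : ExteriorAlgebra K (Fin n → K))) = 0 := by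
        funext b
        rw [Pi.mul_apply, mul_zero]
        rfl
      rw [h6]
      exact Submodule.zero_mem _
  · rw [e1, SS_smul, SS_from _ (io_sq _), Finset.sum_apply, smul_sum]
    refine sum_congr rfl fun c hc => ?_
    rw [Pi.smul_apply, Pi.mul_apply, show s + (m + n) = m + i + 1 by omega]

include hq0 hq in
/-- the alternating sum as a polynomial in the window variable -/
theorem Psi_dvd_near {i : ℕ} {lam : Fin n → ℕ} (hn : n ≤ i) (h1 : ∀ a, 1 ≤ lam a)
    (h2 : ∀ a : Fin n, i ≤ a + lam a) :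
    ∃ P : K[X], ∀ m, Psi q n m lam =
      (1 - q ^ (m + i + 1)) ^ (n / 2) * P.eval (q ^ (m + i + 1)) := by
  obtain ⟨F, hF, hF2⟩ := SS_near hq0 hq hn h1 h2
  obtain ⟨P, hP⟩ := GS_apply (vol K n) hF
  exact ⟨P, fun m => by rw [Psi_vol, hF2, hP]⟩

end nearSum

end Pool.Agent.GaussPoset.Yg
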