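import Pool.Agent.W_448s7s_h5.TuA
import Pool.Agent.W_448b1_h24.BB
import Pool.Agent.W_448s7_h27.HangD

/-!
Order of the window polynomial at the window `i` of a shifted shape which contains the cell
`(i - 1, i - 1)` (MP_448cb3_co, S7, `j = 13`).
-/

namespace Pool.Agent.GaussPoset.Yg

set_option linter.unusedSectionVars false

open Finset

universe u

section shifted

variable {Q : Type u} [Fintype Q] [PartialOrder Q] [DecidableEq Q] {n w : ℕ}

/-- the order of the window polynomial of a shifted shape -/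
theorem shift_dvd_near {lam : Fin n → ℕ} (h : StrictAnti lam) (hn : ∀ s, lam s ≤ w)
    (e : Q ≃ {p : Fin n × Fin w // (p.2 : ℕ) < lam p.1})
    (he : ∀ x y : Q, x ≤ y ↔ leS (e y : Fin n × Fin w) (e x)) {i : ℕ} (hni : n ≤ i)
    (h1 : ∀ a, 1 ≤ lam a) (h2 : ∀ a : Fin n, i ≤ a + lam a) :
    (1 + Polynomial.X : Polynomial (PowerSeries ℤ)) ^ (n / 2) ∣ W Q i := by
  have hmon : ((1 + Polynomial.X : Polynomial (PowerSeries ℤ)) ^
      (n / 2)).Monic := by
    apply Polynomial.Monic.pow
    rw [add_comm]
    exact Polynomial.monic_X_add_C 1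
  set φ := algebraMap (PowerSeries ℤ) (FractionRing (PowerSeries ℤ)) with hφ
  have hφi : Function.Injective φ := IsFractionRing.injective _ _
  set q := φ qq with hqd
  have hq0 : q ≠ 0 := by
    rw [hqd, ne_eq, map_eq_zero_iff φ hφi]
    exact qq_ne
  have hq : ∀ j : ℕ, 1 - q ^ (j + 1) ≠ 0 := by
    intro j hj
    rw [hqd, ← map_pow, ← map_one φ, ← map_sub, map_eq_zero_iff φ hφi] at hj
    have h1 := congrArg (PowerSeries.constantCoeff (R := ℤ)) hj
    simp at h1
  have : CharZero (FractionRing (PowerSeries ℤ)) := by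
    refine ⟨fun a b hab => ?_⟩
    rw [← map_natCast φ, ← map_natCast φ] at hab
    have h1 := congrArg (PowerSeries.constantCoeff (R := ℤ)) (hφi hab)
    simpa using h1
  obtain ⟨P, hP⟩ := Psi_dvd_near hq0 hq hni h1 h2
  rw [← Polynomial.map_dvd_map φ hφi hmon]
  rw [Polynomial.map_pow, Polynomial.map_add, Polynomial.map_one, Polynomial.map_X]
  set k := n / 2 with hk
  have key : Polynomial.C (q ^ (∑ b : Fin n, (n - 1 - b))) * (W Q i).map φ =
      Polynomial.C (q ^ (i * Fintype.card Q)) *
        ((1 + Polynomial.X) ^ k * P.comp (-Polynomial.X)) := by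
    apply Polynomial.eq_of_infinite_eval_eq
    have hinj : Function.Injective (fun m : ℕ => φ (pt i m)) := by
      intro a b hab
      have hab2 := hφi hab
      unfold pt at hab2
      simp only [neg_inj] at hab2
      have := congrArg PowerSeries.order hab2
      rw [PowerSeries.order_X_pow, PowerSeries.order_X_pow] at this
      have h2 : i + a + 1 = i + b + 1 := by exact_mod_cast this
      omega
    refine Set.infinite_of_injective_forall_mem hinj fun m => ?_
    simp only [Set.mem_setOf_eq]
    have h3 : (W Q i).eval (pt i m) = qq ^ (i * Fintype.card Q) *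
        ((U Q m : Polynomial ℤ) : PowerSeries ℤ) := W_eval i m
    have h4 : ((W Q i).map φ).eval (φ (pt i m)) = φ ((W Q i).eval (pt i m)) := by
      rw [Polynomial.eval_map, Polynomial.eval₂_hom]
    have h5 : φ (USg qq w m lam) = USg q w m lam := by
      unfold USg
      rw [map_sum]
      exact sum_congr rfl fun f _ => by rw [map_pow]
    have h6 : φ (pt i m) = -q ^ (m + i + 1) := by
      unfold pt
      rw [map_neg, map_pow, hqd, show i + m + 1 = m + i + 1 by ring]
    have h7 := USg_eq q w _ n m lam h hn le_rfl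
    rw [Polynomial.eval_mul, Polynomial.eval_C, h4, h3, map_mul, map_pow, U_shift h e he m, h5,
      Polynomial.eval_mul, Polynomial.eval_C, Polynomial.eval_mul, Polynomial.eval_pow,
      Polynomial.eval_add, Polynomial.eval_one, Polynomial.eval_X, Polynomial.eval_comp,
      Polynomial.eval_neg, Polynomial.eval_X, h6, neg_neg, ← sub_eq_add_neg]
    have h8 := hP m
    rw [← h7] at h8
    linear_combination (q ^ (i * Fintype.card Q)) * h8
  have hu : IsUnit (Polynomial.C (q ^ (∑ b : Fin n, (n - 1 - b)))) :=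
    Polynomial.isUnit_C.2 (isUnit_iff_ne_zero.2 (pow_ne_zero _ hq0))
  rw [← hu.dvd_mul_left, key]
  exact Dvd.dvd.mul_left (Dvd.intro _ rfl) _

/-- coordinates in a shifted shape (the greatest cell is `(0,0)`, cells `(a,c)` with `a ≤ c`): if
it contains the cell `(i - 1,i - 1)` then the window polynomial at `i` has order at least
`i / 2`. -/
theorem shift_dvd_diag (co : Q → ℕ × ℕ) (hinj : Function.Injective co)
    (hge : ∀ x, (co x).1 ≤ (co x).2) (hle : ∀ x y : Q, x ≤ y ↔ co y ≤ co x)
    (hlow : ∀ x : Q, ∀ c ≤ co x, c.1 ≤ c.2 → ∃ y, co y = c) {i : ℕ} (hi1 : 1 ≤ i)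
    (hc : ∃ x, co x = (i - 1, i - 1)) :
    (1 + Polynomial.X : Polynomial (PowerSeries ℤ)) ^ (i / 2) ∣ W Q i := by
  classical
  by_cases hbig : ∃ x, co x = (i, i)
  · exact (pow_dvd_pow _ (by omega)).trans (shift_dvd_cellg co hinj hge hle hlow hbig)
  obtain ⟨x0, hx0⟩ := hc
  set n := (univ : Finset Q).sup (fun x => (co x).1 + 1) with hn
  set w := (univ : Finset Q).sup (fun x => (co x).2 + 1) with hw
  have hn1 : ∀ x : Q, (co x).1 < n := fun x =>
    Nat.lt_of_succ_le (le_sup (f := fun x : Q => (co x).1 + 1) (mem_univ x))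
  have hw1 : ∀ x : Q, (co x).2 < w := fun x =>
    Nat.lt_of_succ_le (le_sup (f := fun x : Q => (co x).2 + 1) (mem_univ x))
  have hmax : ∃ x : Q, (co x).1 + 1 = n := by
    obtain ⟨x, -, hx⟩ := exists_mem_eq_sup (univ : Finset Q) ⟨x0, mem_univ _⟩
      (fun x => (co x).1 + 1)
    exact ⟨x, hx.symm⟩
  obtain ⟨xm, hxm⟩ := hmax
  let lam : Fin n → ℕ := fun s => ((range w).filter (fun c => ∃ x, co x = ((s : ℕ), (s : ℕ) + c))).card
  have hfil : ∀ s : Fin n, ∀ c : ℕ, (∃ x, co x = ((s : ℕ), (s : ℕ) + c)) ↔ c < lam s := by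
    intro s c
    have h1 : ∀ c c' : ℕ, c' ≤ c → (∃ x, co x = ((s : ℕ), (s : ℕ) + c)) →
        ∃ x, co x = ((s : ℕ), (s : ℕ) + c') := by
      rintro c c' hc ⟨x, hx⟩
      exact hlow x _ (by rw [hx]; exact ⟨le_rfl, by simp only; omega⟩) (by simp)
    constructor
    · intro h
      have h2 : range (c + 1) ⊆ (range w).filter (fun c => ∃ x, co x = ((s : ℕ), (s : ℕ) + c)) := by
        intro c' hc'
        rw [mem_range] at hc'
        obtain ⟨x, hx⟩ := h1 c c' (by omega) h
        rw [mem_filter, mem_range]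
        refine ⟨?_, x, hx⟩
        have := hw1 x
        rw [hx] at this
        simp only at this
        omega
      have h3 := card_le_card h2
      rw [card_range] at h3
      exact h3
    · intro h
      by_contra hcon
      have h2 : (range w).filter (fun c => ∃ x, co x = ((s : ℕ), (s : ℕ) + c)) ⊆ range c := by
        intro c' hc'
        rw [mem_filter] at hc'
        rw [mem_range]
        by_contra h3
        exact hcon (h1 c' c (by omega) hc'.2)
      have h3 := card_le_card h2
      rw [card_range] at h3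
      have h4 : lam s ≤ c := h3
      omega
  have hpos : ∀ s, 1 ≤ lam s := by
    intro s
    refine (hfil s 0).1 ?_
    refine hlow xm _ ?_ (by simp)
    have h1 := hge xm
    have h2 := s.2
    exact ⟨by simp only; omega, by simp only; omega⟩
  have hanti : StrictAnti lam := by
    intro s s' hs
    have h1 := hpos s'
    obtain ⟨x, hx⟩ := (hfil s' (lam s' - 1)).2 (by omega)
    have h2 : (s : ℕ) < s' := hs
    obtain ⟨y, hy⟩ := hlow x ((s : ℕ), (s : ℕ) + lam s') (by
      rw [hx]
      exact ⟨by simp only; omega, by simp only; omega⟩) (by simp)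
    exact (hfil s (lam s')).1 ⟨y, hy⟩
  have hlen : ∀ s, lam s ≤ w := by
    intro s
    have h1 := card_filter_le (range w) (fun c => ∃ x, co x = ((s : ℕ), (s : ℕ) + c))
    rw [card_range] at h1
    exact h1
  let toF : Q → {p : Fin n × Fin w // (p.2 : ℕ) < lam p.1} := fun x =>
    ⟨(⟨(co x).1, hn1 x⟩, ⟨(co x).2 - (co x).1, by have := hw1 x; omega⟩),
      (hfil ⟨(co x).1, hn1 x⟩ ((co x).2 - (co x).1)).1 ⟨x, by
        have := hge x
        refine Prod.ext rfl ?_
        simp only
        omega⟩⟩
  have hbij : Function.Bijective toF := by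
    constructor
    · intro x y hxy
      have h1 := congrArg (fun p => (p.1.1 : ℕ)) hxy
      have h2 := congrArg (fun p => (p.1.2 : ℕ)) hxy
      have h3 : (co x).1 = (co y).1 := h1
      have h4 : (co x).2 - (co x).1 = (co y).2 - (co y).1 := h2
      have h5 := hge x
      have h6 := hge y
      exact hinj (Prod.ext h3 (by omega))
    · rintro ⟨⟨s, c⟩, hp⟩
      obtain ⟨x, hx⟩ := (hfil s c).2 hp
      refine ⟨x, ?_⟩
      apply Subtype.ext
      apply Prod.ext
      · apply Fin.ext
        change (co x).1 = s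
        rw [hx]
      · apply Fin.ext
        change (co x).2 - (co x).1 = c
        rw [hx]
        simp
  have hn2 : n ≤ i := by
    by_contra hcon
    refine hbig ?_
    obtain ⟨y, hy⟩ := hlow xm (i, i) ⟨by simp only; omega, by
      have h1 := hge xm
      simp only
      omega⟩ le_rfl
    exact ⟨y, hy⟩
  have hn3 : i ≤ n := by
    have := hn1 x0
    rw [hx0] at this
    simp only at this
    omega
  have hnn : n = i := by omega
  have h2 : ∀ a : Fin n, i ≤ a + lam a := by
    intro a
    have ha := a.2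
    obtain ⟨y, hy⟩ := hlow x0 ((a : ℕ), i - 1) (by rw [hx0]; exact ⟨by simp only; omega, le_rfl⟩)
      (by simp only; omega)
    have h3 := (hfil a (i - 1 - a)).1 ⟨y, by
      rw [hy]
      refine Prod.ext rfl ?_
      simp only
      omega⟩
    omega
  refine (pow_dvd_pow _ (show i / 2 ≤ n / 2 by omega)).trans ?_
  exact shift_dvd_near hanti hlen (Equiv.ofBijective toF hbij) (by
    intro x y
    rw [hle]
    have h5 := hge x
    have h6 := hge y
    constructor
    · intro h
      have h7 : (co y).1 ≤ (co x).1 := h.1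
      have h8 : (co y).2 ≤ (co x).2 := h.2
      exact ⟨h7, by
        change (co y).1 + ((co y).2 - (co y).1) ≤ (co x).1 + ((co x).2 - (co x).1)
        omega⟩
    · intro h
      have h7 : (co y).1 ≤ (co x).1 := h.1
      have h8 : (co y).1 + ((co y).2 - (co y).1) ≤ (co x).1 + ((co x).2 - (co x).1) := h.2
      exact ⟨h7, by omega⟩) hn2 hpos h2

end shifted

end Pool.Agent.GaussPoset.Yg

namespace Pool.Agent.GaussPoset

set_option linter.unusedSectionVars false

open Finset Yg

universe u v

section Sub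

variable {Q : Type u} [Fintype Q] [PartialOrder Q] [DecidableEq Q]

/-- order of the window polynomial of a shifted shape with a poset hung below the end `x1` of the
first row -/
theorem shift_junk_dvd_diag (t1 : Q → Prop) [DecidablePred t1] (co : Q → ℕ × ℕ)
    (x1 : Q) (hx11 : ¬ t1 x1)
    (hlow1 : ∀ x y, x ≤ y → t1 y → t1 x)
    (hh1 : ∀ x y, t1 x → ¬ t1 y → (x ≤ y ↔ x1 ≤ y))
    (hinj : ∀ x y, ¬ t1 x → ¬ t1 y → co x = co y → x = y)
    (hge : ∀ x, ¬ t1 x → (co x).1 ≤ (co x).2)
    (hle : ∀ x y, ¬ t1 x → ¬ t1 y → (x ≤ y ↔ co y ≤ co x))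
    (hdown : ∀ x, ¬ t1 x → ∀ c ≤ co x, c.1 ≤ c.2 → ∃ y, ¬ t1 y ∧ co y = c)
    (hr1 : (∃ x, t1 x) → (co x1).1 = 0 ∧ ∀ y, ¬ t1 y → y ≠ x1 → (co y).2 < (co x1).2)
    {i : ℕ} (hi1 : 1 ≤ i)
    (hcell : ∃ x, ¬ t1 x ∧ co x = (i - 1, i - 1)) :
    (1 + Polynomial.X : Polynomial (PowerSeries ℤ)) ^ (i / 2) ∣ W Q i := by
  classical
  refine dvd_W_of_hang' t1 x1 hx11 hlow1 hh1 fun a ha => ?_
  let co' : Hang {x : Q // ¬ t1 x} (Fin a)ᵒᵈ ⟨x1, hx11⟩ → ℕ × ℕ :=
    Sum.elim (fun x => co (x : Q)) (fun k => (0, (co x1).2 + 1 + (OrderDual.ofDual k).val))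
  have hA : 0 < a → (co x1).1 = 0 ∧ ∀ y, ¬ t1 y → y ≠ x1 → (co y).2 < (co x1).2 := by
    intro h0
    rcases ha with h | h
    · omega
    · exact hr1 h
  have hA' : 0 < a → ∀ y, ¬ t1 y → (co y).2 ≤ (co x1).2 := by
    intro h0 y h1
    by_cases hy : y = x1
    · rw [hy]
    · exact ((hA h0).2 y h1 hy).le
  refine shift_dvd_diag co' ?_ ?_ ?_ ?_ hi1 ?_
  · -- injective
    rintro (x | x) (y | y) hxy
    · have h := hinj x y x.2 y.2 hxy
      have h' : x = y := Subtype.ext h
      subst h'
      rfl
    · exfalso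
      have h : co (x : Q) = (0, (co x1).2 + 1 + (OrderDual.ofDual y).val) := hxy
      have := hA' (by have := (OrderDual.ofDual y).2; omega) x x.2
      rw [h] at this
      simp only at this
      omega
    · exfalso
      have h : co (y : Q) = (0, (co x1).2 + 1 + (OrderDual.ofDual x).val) := hxy.symm
      have := hA' (by have := (OrderDual.ofDual x).2; omega) y y.2
      rw [h] at this
      simp only at this
      omega
    · have h : ((0 : ℕ), (co x1).2 + 1 + (OrderDual.ofDual x).val) =
        (0, (co x1).2 + 1 + (OrderDual.ofDual y).val) := hxy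
      have h' : x = y := by
        apply OrderDual.ofDual.injective
        apply Fin.ext
        have := (Prod.mk.injEq _ _ _ _ ▸ h).2
        omega
      subst h'
      rfl
  · rintro (x | x)
    · exact hge x x.2
    · exact Nat.zero_le _
  · -- order
    rintro (x | x) (y | y)
    · exact hle x y x.2 y.2
    · constructor
      · intro h
        exact h.elim
      · intro h
        exfalso
        have h' : ((0 : ℕ), (co x1).2 + 1 + (OrderDual.ofDual y).val) ≤ co (x : Q) := h
        have := hA' (by have := (OrderDual.ofDual y).2; omega) x x.2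
        have h3 := h'.2
        simp only at h3
        omega
    · have h0 : 0 < a := by have := (OrderDual.ofDual x).2; omega
      have hl := hle x1 y hx11 y.2
      constructor
      · intro h
        have h1 : x1 ≤ (y : Q) := h
        have h2 := hl.mp h1
        refine ⟨?_, ?_⟩
        · have := h2.1
          rw [(hA h0).1] at this
          exact this
        · have := h2.2
          change (co (y : Q)).2 ≤ (co x1).2 + 1 + (OrderDual.ofDual x).val
          omega
      · intro h
        change x1 ≤ (y : Q)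
        rw [hl]
        refine ⟨?_, hA' h0 y y.2⟩
        rw [(hA h0).1]
        exact h.1
    · constructor
      · intro h
        refine ⟨le_rfl, ?_⟩
        have h1 : OrderDual.ofDual y ≤ OrderDual.ofDual x := h
        have h2 : (OrderDual.ofDual y).val ≤ (OrderDual.ofDual x).val := h1
        change (co x1).2 + 1 + (OrderDual.ofDual y).val ≤ (co x1).2 + 1 + (OrderDual.ofDual x).val
        omega
      · intro h
        have h2 : (co x1).2 + 1 + (OrderDual.ofDual y).val ≤
          (co x1).2 + 1 + (OrderDual.ofDual x).val := h.2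
        change OrderDual.ofDual y ≤ OrderDual.ofDual x
        rw [Fin.le_def]
        omega
  · -- lower set of cells
    have hcells : ∀ c : ℕ × ℕ, (∃ y, ¬ t1 y ∧ co y = c) → ∃ y, co' y = c := by
      rintro c ⟨y, hy1, hy3⟩
      exact ⟨Sum.inl ⟨y, hy1⟩, hy3⟩
    rintro (x | x) c hcx hcs
    · exact hcells c (hdown x x.2 c hcx hcs)
    · have h1 : c ≤ ((0 : ℕ), (co x1).2 + 1 + (OrderDual.ofDual x).val) := hcx
      have h0 : 0 < a := by have := (OrderDual.ofDual x).2; omega
      obtain ⟨c1, c2⟩ := c
      have h2 : c1 ≤ 0 := h1.1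
      have h3 : c2 ≤ (co x1).2 + 1 + (OrderDual.ofDual x).val := h1.2
      have h4 : c1 = 0 := by omega
      subst h4
      by_cases h5 : c2 ≤ (co x1).2
      · refine hcells _ (hdown x1 hx11 _ ⟨Nat.zero_le _, h5⟩ (Nat.zero_le _))
      · refine ⟨Sum.inr (OrderDual.toDual ⟨c2 - ((co x1).2 + 1), ?_⟩), ?_⟩
        · have := (OrderDual.ofDual x).2
          omega
        · change ((0 : ℕ), (co x1).2 + 1 + (c2 - ((co x1).2 + 1))) = (0, c2)
          congr 1
          omega
  · obtain ⟨x, h1, h3⟩ := hcell
    exact ⟨Sum.inl ⟨x, h1⟩, h3⟩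

end Sub

end Pool.Agent.GaussPoset
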