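import Pool.Agent.W_448s7s_h5.TuB
import Pool.Agent.W_448b1_h24.BC

/-!
Stair-like components at window `4` with the base cell `(3, 3)`: order two, larger thresholds on
the third column (MP_448cb3_co, S7, `j = 13`).
-/

namespace Pool.Agent.GaussPoset

set_option linter.unusedSectionVars false

open Polynomial Finset

universe u

variable {P : Type u} [Fintype P] [PartialOrder P] [DecidableEq P]

section Cells

variable {ι : Type*} {R : Finset P} {cp : P → ι} {k : ι} {S : ℕ × ℕ → Prop} {co : P → ℕ × ℕ}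
  {i b α β α' β' : ℕ} {θ : P → ℕ} {B : P → Prop} {J1 J2 : P → Prop} {x1 x2 : P}

/-- component data from coordinates, the thresholds are the minimum of two distances -/
theorem compDataJ_cells2 (hgr : GradedBelow P) (hcp : ∀ x y, x ≤ y → x ∉ R → cp x = cp y)
    (h1 : Junk R cp k J1 x1) (h2 : Junk R cp k J2 x2)
    (H : CoordJ R cp k (fun x => J1 x ∨ J2 x) S co)
    (hB : ∀ x, x ∉ R → cp x = k → (B x ↔ ¬ (J1 x ∨ J2 x) ∧ co x = (α, β)))
    (hθ : ∀ x, x ∉ R → cp x = k → ¬ (J1 x ∨ J2 x) →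
      θ x = min (((co x).1 - α) + ((co x).2 - β)) (((co x).1 - α') + ((co x).2 - β')))
    (hθJ : ∀ x, J1 x ∨ J2 x → θ x = lev x - i)
    (hle : ∀ x, x ∉ R → cp x = k → ¬ (J1 x ∨ J2 x) →
      min (((co x).1 - α) + ((co x).2 - β)) (((co x).1 - α') + ((co x).2 - β')) ≤
        ((co x).1 + (co x).2) - i)
    (hθ1 : (∃ x, J1 x) → lev x1 - i ≤ θ x1) (hθ2 : (∃ x, J2 x) → lev x2 - i ≤ θ x2)
    (hclean : ∀ D, Good i R B D → ∀ _ : DecidableEq ι,
      (1 + X : Polynomial (PowerSeries ℤ)) ^ b ∣ W {x : {x : P // x ∉ D} // cp (x : P) = k} i) :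
    CompData R cp k i b θ B where
  clean := hclean
  lev := by
    intro x hx hk hx1
    by_cases hJ : J1 x ∨ J2 x
    · rw [hθJ x hJ] at hx1
      omega
    · rw [hθ x hx hk hJ] at hx1
      have h2 := hle x hx hk hJ
      rw [H.lev x hx hk hJ]
      omega
  base := by
    intro x hx hk hx1 y hyx hy hBy
    have hyk : cp y = k := by rw [hcp y x hyx hy]; exact hk
    obtain ⟨hyJ, hco⟩ := (hB y hy hyk).mp hBy
    have hxJ : ¬ (J1 x ∨ J2 x) := by
      rintro (h | h)
      · exact hyJ (Or.inl (h1.low y x hyx hy h))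
      · exact hyJ (Or.inr (h2.low y x hyx hy h))
    have h3 := (H.le_iff y x hy hx hyk hk hyJ hxJ).mp hyx
    rw [hco] at h3
    rw [hθ x hx hk hxJ] at hx1
    have h4 : (co x).1 ≤ α := h3.1
    have h5 : (co x).2 ≤ β := h3.2
    omega
  step := by
    intro x hx hk hx1 y hyx hy x' hx' hyx' hn
    have hyk : cp y = k := by rw [hcp y x hyx hy]; exact hk
    have hxk' : cp x' = k := by rw [← hcp y x' hyx'.1.le hy]; exact hyk
    have h4 := hgr.lev_covBy hyx'
    have hlyx : lev x ≤ lev y := by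
      rcases eq_or_lt_of_le hyx with h | h
      · rw [h]
      · exact (lev_strictAnti h).le
    -- junk case
    have key : ∀ (J : P → Prop) (z : P), Junk R cp k J z → (∀ x, J x → J1 x ∨ J2 x) →
        ((∃ x, J x) → lev z - i ≤ θ z) → J y → θ x ≤ θ x' + 1 := by
      intro J z hJ hJs hz hJy
      rcases hJ.anc y x hJy hyx with hJx | hzx
      · -- x is junk
        rw [hθJ x (hJs x hJx)]
        rcases hJ.anc y x' hJy hyx'.1.le with hJx' | hzx'
        · rw [hθJ x' (hJs x' hJx')]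
          omega
        · have hyz := (hJ.mem y hJy).2.2
          have hzx'' : z = x' := by
            by_contra hne
            exact hyx'.2 hyz (lt_of_le_of_ne hzx' hne)
          have := hz ⟨y, hJy⟩
          rw [hzx''] at this
          omega
      · exfalso
        rcases hJ.anc y x' hJy hyx'.1.le with hJx' | hzx'
        · exact hn ((hJ.mem x' hJx').2.2.le.trans hzx)
        · have hyz := (hJ.mem y hJy).2.2
          have hzx'' : z = x' := by
            by_contra hne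
            exact hyx'.2 hyz (lt_of_le_of_ne hzx' hne)
          exact hn (hzx'' ▸ hzx)
    by_cases hyJ : J1 y ∨ J2 y
    · rcases hyJ with h | h
      · exact key J1 x1 h1 (fun _ h => Or.inl h) hθ1 h
      · exact key J2 x2 h2 (fun _ h => Or.inr h) hθ2 h
    · have hxJ : ¬ (J1 x ∨ J2 x) := by
        rintro (h | h)
        · exact hyJ (Or.inl (h1.low y x hyx hy h))
        · exact hyJ (Or.inr (h2.low y x hyx hy h))
      have hxJ' : ¬ (J1 x' ∨ J2 x') := by
        rintro (h | h)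
        · exact hyJ (Or.inl (h1.low y x' hyx'.1.le hy h))
        · exact hyJ (Or.inr (h2.low y x' hyx'.1.le hy h))
      have h5 := (H.le_iff y x hy hx hyk hk hyJ hxJ).mp hyx
      have h3 := (H.le_iff y x' hy hx' hyk hxk' hyJ hxJ').mp hyx'.1.le
      rw [H.lev y hy hyk hyJ, H.lev x' hx' hxk' hxJ'] at h4
      have h6 : ¬ co x ≤ co x' := fun h => hn ((H.le_iff x' x hx' hx hxk' hk hxJ' hxJ).mpr h)
      have h6 : ¬ ((co x).1 ≤ (co x').1 ∧ (co x).2 ≤ (co x').2) := h6
      have h7 : (co x).1 ≤ (co y).1 := h5.1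
      have h8 : (co x).2 ≤ (co y).2 := h5.2
      have h9 : (co x').1 ≤ (co y).1 := h3.1
      have h10 : (co x').2 ≤ (co y).2 := h3.2
      rw [hθ x hx hk hxJ, hθ x' hx' hxk' hxJ']
      omega
  le := by
    intro x hx hk
    by_cases hJ : J1 x ∨ J2 x
    · rw [hθJ x hJ]
    · rw [hθ x hx hk hJ, H.lev x hx hk hJ]
      exact hle x hx hk hJ

/-- shifted shapes with junk below the end of the first row -/
theorem compDataJ_shifted_diag (hgr : GradedBelow P) (hcp : ∀ x y, x ≤ y → x ∉ R → cp x = cp y)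
    (h1 : Junk R cp k J1 x1)
    (hx1 : x1 ∉ R ∧ cp x1 = k ∧ ¬ J1 x1)
    (H : CoordJ R cp k J1 (fun c => c.1 ≤ c.2) co)
    (hr1 : (∃ x, J1 x) → (co x1).1 = 0 ∧
      ∀ y, y ∉ R → cp y = k → ¬ J1 y → y ≠ x1 → (co y).2 < (co x1).2)
    (hB : ∀ x, x ∉ R → cp x = k → (B x ↔ ¬ J1 x ∧ co x = (3, 3)))
    (hcell : ∃ x, x ∉ R ∧ cp x = k ∧ ¬ J1 x ∧ co x = (3, 3))
    (hθ : ∀ x, x ∉ R → cp x = k → ¬ J1 x →
      θ x = min (((co x).1 - 3) + ((co x).2 - 3)) (((co x).1 - 1) + ((co x).2 - 4)))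
    (hθJ : ∀ x, J1 x → θ x = lev x - 4) :
    CompData R cp k 4 2 θ B := by
  have hsimp : (fun x => J1 x ∨ J1 x) = J1 := by funext x; simp
  refine compDataJ_cells2 (J1 := J1) (J2 := J1) (x1 := x1) (x2 := x1) (S := fun c => c.1 ≤ c.2)
    (co := co) (α := 3) (β := 3) (α' := 1) (β' := 4) hgr hcp h1 h1 (by rw [hsimp]; exact H) ?_ ?_ ?_ ?_ ?_ ?_ ?_
  · intro x hx hk
    rw [or_self]
    exact hB x hx hk
  · intro x hx hk
    rw [or_self]
    exact hθ x hx hk
  · intro x
    rw [or_self]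
    exact hθJ x
  · intro x hx hk hJ
    rw [or_self] at hJ
    have := H.mem x hx hk hJ
    omega
  · intro hex
    rw [hθ x1 hx1.1 hx1.2.1 hx1.2.2, H.lev x1 hx1.1 hx1.2.1 hx1.2.2, (hr1 hex).1]
    omega
  · intro hex
    rw [hθ x1 hx1.1 hx1.2.1 hx1.2.2, H.lev x1 hx1.1 hx1.2.1 hx1.2.2, (hr1 hex).1]
    omega
  · intro D hD hdec
    classical
    have hR : ∀ x : {x : P // x ∉ D}, (x : P) ∉ R := fun x h => x.2 (hD.2.1 h)
    obtain ⟨z, hzD, hzk, hzJ, hzc⟩ := CoordJ.base_not_mem H hB hD hcell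
    obtain ⟨w1, hw1, -, hh1, hrr1⟩ := junk_end (J' := J1) h1 ⟨hx1.1, hx1.2.1, hx1.2.2, hx1.2.2⟩ hD
      (f := fun x => (co x).2) (g := fun x => (co x).1)
      (fun h => ⟨(hr1 h).1, fun y hy hyk hJ _ hne => (hr1 h).2 y hy hyk hJ hne⟩)
      ⟨⟨z, hzD⟩, hzk⟩ hzJ hzJ
    refine shift_junk_dvd_diag (i := 4) (Q := {x : {x : P // x ∉ D} // cp (x : P) = k})
      (fun x => J1 x.1.1) (fun x => co x.1.1) w1 hw1
      (fun x y hxy hy => h1.low _ _ hxy (hR _) hy) hh1 ?_ ?_ ?_ ?_ (fun h => ?_) (by norm_num) ?_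
    · intro x y hx hy hxy
      exact Subtype.ext (Subtype.ext (H.inj _ _ (hR _) (hR _) x.2 y.2 hx hy hxy))
    · intro x hx
      exact H.mem _ (hR _) x.2 hx
    · intro x y hx hy
      exact H.le_iff _ _ (hR _) (hR _) x.2 y.2 hx hy
    · intro x hx c hc hS
      obtain ⟨y, hy, hyk, hyJ, hcy⟩ := H.low _ (hR x.1) x.2 hx c hc hS
      have hyD : y ∉ D := by
        intro h
        refine x.1.2 (hD.1 _ y ?_ h)
        rw [H.le_iff _ y (hR _) hy x.2 hyk hx hyJ, hcy]
        exact hc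
      exact ⟨⟨⟨y, hyD⟩, hyk⟩, hyJ, hcy⟩
    · obtain ⟨h3, h4⟩ := hrr1 h
      exact ⟨h3, fun y hy hne => h4 y hy hy hne⟩
    · exact ⟨⟨⟨z, hzD⟩, hzk⟩, hzJ, hzc⟩

end Cells

section Stair

variable {t : Tops P} {N : Finset P} {co : P → ℕ × ℕ}

open Classical in
/-- the minimum of the distances to the cells `(3, 3)` and `(1, 4)` -/
noncomputable def thD (N : Finset P) (co : P → ℕ × ℕ) : P → ℕ := fun x =>
  if x ∈ junk (fun c => c.1 ≤ c.2) N co then lev x - 4 else
    min (((co x).1 - 3) + ((co x).2 - 3)) (((co x).1 - 1) + ((co x).2 - 4))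

/-- natural set of a stair-like component at window `4`, order two -/
theorem natTop_stair_diag (hgr : GradedBelow P) (C : Chart (t : P) (fun c => c.1 ≤ c.2) N co)
    (hcell : ∃ x ∈ N, co x = (3, 3)) (hlow : ∀ x, x ≤ (t : P) → lev x ≤ 4 → x ∈ N) :
    NatTop 4 t 2 (natS N co) (thD N co) (fun x => x ∈ N ∧ co x = (3, 3)) where
  up := natS_up C.up
  le_t := natS_le C.le_t
  low := fun x hx hxi => mem_natS.mpr (Or.inl (hlow x hx hxi))
  data := by
    intro M HM hM θ' B' hθ hB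
    obtain ⟨x0, hx0, hcx0⟩ := hcell
    have h1 : ∃ y ∈ N, 1 ≤ (co y).1 := ⟨x0, hx0, by rw [hcx0]; simp only; omega⟩
    have hmem : ∀ x, x ∉ unnat M → topOf x = t → x ∈ natS N co := fun x h1 h2 => by
      rw [← hM]; exact HM.mem_iff.mpr ⟨h1, h2⟩
    have hmem' : ∀ x, x ∈ natS N co → x ∉ unnat M ∧ topOf x = t := fun x h => by
      rw [← hM] at h; exact HM.mem_iff.mp h
    obtain ⟨x1, J1, hx1, hr1⟩ := junk_data (S := fun c : ℕ × ℕ => c.1 ≤ c.2) (fun c hc => hc) C h1
      HM (J' := fun _ => False) (fun x => by rw [hM, mem_natS, or_false])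
      (fun _ _ _ h => h.elim) (fun _ h => h.elim) (fun h => h)
    have hnJ : ∀ x, x ∉ unnat M → topOf x = t → x ∉ junk (fun c => c.1 ≤ c.2) N co → x ∈ N := by
      intro x hx hk hJ
      rcases mem_natS.mp (hmem x hx hk) with h | h
      · exact h
      · exact absurd h hJ
    have hNM : ∀ x ∈ N, x ∉ unnat M ∧ topOf x = t := fun x hx =>
      hmem' x (mem_natS.mpr (Or.inl hx))
    have hbase : ∀ x ∈ N, co x = (3, 3) → x ∉ junk (fun c => c.1 ≤ c.2) N co := by
      intro x hx hc h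
      obtain ⟨w, Hw, hxw⟩ := mem_junk.mp h
      have := (Hw.tail C hx (mem_jset.mp hxw).1).1
      rw [hc] at this
      simp only at this
      omega
    have H : CoordJ (unnat M) topOf t (fun x => x ∈ junk (fun c => c.1 ≤ c.2) N co)
        (fun c => c.1 ≤ c.2) co := by
      constructor
      · intro x y hx hy hkx hky hJx hJy h
        exact C.inj x (hnJ x hx hkx hJx) y (hnJ y hy hky hJy) h
      · intro x y hx hy hkx hky hJx hJy
        exact C.le_iff x (hnJ x hx hkx hJx) y (hnJ y hy hky hJy)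
      · intro x hx hk hJx
        exact C.mem x (hnJ x hx hk hJx)
      · intro x hx hk hJx c hc hS
        have hxN := hnJ x hx hk hJx
        obtain ⟨y, hy, hcy⟩ := C.low x hxN c hc hS
        refine ⟨y, (hNM y hy).1, (hNM y hy).2, ?_, hcy⟩
        have hxy : x ≤ y := by
          rw [C.le_iff x hxN y hy, hcy]
          exact hc
        intro h
        obtain ⟨w, Hw, hyw⟩ := mem_junk.mp h
        exact hJx (mem_junk.mpr ⟨w, Hw, (Hw.tail C hxN (hxy.trans_lt (mem_jset.mp hyw).1)).2⟩)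
      · intro x hx hk hJx
        exact C.lev x (hnJ x hx hk hJx)
    refine compDataJ_shifted_diag hgr HM.cp J1 ⟨hx1.1, hx1.2.1, hx1.2.2.1⟩ H ?_ ?_ ?_ ?_ ?_
    · intro hex
      obtain ⟨h3, h4⟩ := hr1 hex
      exact ⟨h3, fun y hy hk hJ hne => h4 y hy hk hJ (fun h => h) hne⟩
    · intro x hx hk
      rw [hB x (hmem x hx hk)]
      constructor
      · rintro ⟨h3, h4⟩
        exact ⟨hbase x h3 h4, h4⟩
      · rintro ⟨h3, h4⟩
        exact ⟨hnJ x hx hk h3, h4⟩
    · exact ⟨x0, (hNM x0 hx0).1, (hNM x0 hx0).2, hbase x0 hx0 hcx0, hcx0⟩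
    · intro x hx hk hJ
      rw [hθ x (hmem x hx hk)]
      unfold thD
      rw [if_neg hJ]
    · intro x hJ
      rw [hθ x (mem_natS.mpr (Or.inr hJ))]
      unfold thD
      rw [if_pos hJ]

end Stair

end Pool.Agent.GaussPoset
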