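import Pool.Agent.W_448s7_h27.EwA

/-!
The window theorem with at most one hit top and twins of the least cost (MP_448cb3_co, S7).
-/

namespace Pool.Agent.GaussPoset

set_option linter.unusedSectionVars false

open Polynomial Finset

universe u

variable {P : Type u} [Fintype P] [PartialOrder P] [DecidableEq P]

section Gen

variable {κ : Type*} [Fintype κ] [DecidableEq κ]

/-- at most one defect -/
lemma ZQ_card_one (i n : ℕ) (Q : (P → ℕ) → Finset P → Prop)
    (K : (P → ℕ) → Finset P → Finset κ) (E : Finset κ) (hK : ∀ e F, K e F ⊆ E) :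
    ZQ i n (fun e F => Q e F ∧ (K e F).card ≤ 1) =
      ZQ i n (fun e F => Q e F ∧ K e F ⊆ ∅) +
      ∑ t ∈ E, (ZQ i n (fun e F => Q e F ∧ K e F ⊆ {t}) -
        ZQ i n (fun e F => Q e F ∧ K e F ⊆ ∅)) := by
  classical
  have h0 : ZQ i n (fun e F => Q e F ∧ K e F ⊆ ∅) = ZQ i n (fun e F => Q e F ∧ K e F = ∅) :=
    ZQ_congr fun e F _ _ => by rw [Finset.subset_empty]
  have h1 : ∀ t ∈ E, ZQ i n (fun e F => Q e F ∧ K e F ⊆ {t}) -
      ZQ i n (fun e F => Q e F ∧ K e F ⊆ ∅) = ZQ i n (fun e F => Q e F ∧ K e F = {t}) := by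
    intro t _
    rw [h0, ZQ_split i n (fun e F => Q e F ∧ K e F ⊆ {t}) (fun e F => K e F = ∅)]
    have a1 : ZQ i n (fun e F => (Q e F ∧ K e F ⊆ {t}) ∧ K e F = ∅) =
        ZQ i n (fun e F => Q e F ∧ K e F = ∅) :=
      ZQ_congr fun e F _ _ =>
        ⟨fun h => ⟨h.1.1, h.2⟩, fun h => ⟨⟨h.1, by rw [h.2]; exact empty_subset _⟩, h.2⟩⟩
    have a2 : ZQ i n (fun e F => (Q e F ∧ K e F ⊆ {t}) ∧ ¬ K e F = ∅) =
        ZQ i n (fun e F => Q e F ∧ K e F = {t}) :=
      ZQ_congr fun e F _ _ => by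
        rw [Finset.subset_singleton_iff]
        constructor
        · rintro ⟨⟨a, b | b⟩, c⟩
          · exact absurd b c
          · exact ⟨a, b⟩
        · rintro ⟨a, b⟩
          exact ⟨⟨a, Or.inr b⟩, by rw [b]; exact singleton_ne_empty t⟩
    rw [a1, a2]
    ring
  rw [Finset.sum_congr rfl h1, h0]
  have h2 : ZQ i n (fun e F => Q e F ∧ (K e F).card ≤ 1) =
      ZQ i n (fun e F => Q e F ∧ K e F ∈ insert ∅ (E.image (fun t => ({t} : Finset κ)))) :=
    ZQ_congr fun e F _ _ => by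
      rw [mem_insert, mem_image]
      constructor
      · rintro ⟨a, b⟩
        refine ⟨a, ?_⟩
        rcases Nat.le_one_iff_eq_zero_or_eq_one.mp b with b | b
        · exact Or.inl (Finset.card_eq_zero.mp b)
        · obtain ⟨t, ht⟩ := Finset.card_eq_one.mp b
          refine Or.inr ⟨t, hK e F ?_, ht.symm⟩
          rw [ht]
          exact mem_singleton_self t
      · rintro ⟨a, b | ⟨t, -, b⟩⟩
        · exact ⟨a, by rw [b, Finset.card_empty]; exact Nat.zero_le _⟩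
        · exact ⟨a, by rw [← b, Finset.card_singleton]⟩
  rw [h2, ZQ_fiber, Finset.sum_insert, Finset.sum_image]
  · intro t _ t' _ h
    exact Finset.singleton_injective h
  · rw [mem_image]
    rintro ⟨t, -, h⟩
    exact singleton_ne_empty t h

/-- at most one defect, with corrections -/
lemma dvd_ZQ_one {i n : ℕ} {p : ℤ[X]} {Q : (P → ℕ) → Finset P → Prop}
    {K : (P → ℕ) → Finset P → Finset κ} (E : Finset κ) (hK : ∀ e F, K e F ⊆ E)
    {C0 : ℤ[X]} {C : κ → ℤ[X]} (h0 : p ∣ ZQ i n (fun e F => Q e F ∧ K e F ⊆ ∅) - C0)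
    (h1 : ∀ t ∈ E, p ∣ ZQ i n (fun e F => Q e F ∧ K e F ⊆ {t}) - (C0 + C t)) :
    p ∣ ZQ i n (fun e F => Q e F ∧ (K e F).card ≤ 1) - (C0 + ∑ t ∈ E, C t) := by
  rw [ZQ_card_one i n Q K E hK]
  have h2 : p ∣ ∑ t ∈ E, (ZQ i n (fun e F => Q e F ∧ K e F ⊆ {t}) -
        ZQ i n (fun e F => Q e F ∧ K e F ⊆ ∅) - C t) := by
    refine Finset.dvd_sum fun t ht => ?_
    have h3 := dvd_sub (h1 t ht) h0
    refine h3.trans (dvd_of_eq ?_)
    ring
  rw [Finset.sum_sub_distrib] at h2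
  have h3 := dvd_add h0 h2
  refine h3.trans (dvd_of_eq ?_)
  ring

end Gen

section Far

variable {i : ℕ} {R : Finset P} {h : P → ℕ} {n : ℕ}

lemma RB_eq_DG (hlev : ∀ x ∈ R, i < lev x) :
    RB i R (fun g => ∃ z ∈ bdR R, h z ≤ g z) n = DG i R h n := by
  classical
  unfold RB DG
  refine Finset.sum_congr rfl fun F _ => ?_
  refine Finset.sum_congr ?_ (fun _ _ => rfl)
  ext e
  simp only [mem_filter]
  refine and_congr_right fun _ => ?_
  constructor
  · rintro ⟨hV, h1⟩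
    refine ⟨hV, ?_⟩
    by_contra hcon
    push Not at hcon
    rcases h1 with ⟨x, hx, hxF⟩ | ⟨z, hz, h1⟩
    · exact not_mem_of_not_dg hlev hV hcon x hx hxF
    · rw [lbl_of (mem_filter.mp hz).1] at h1
      exact hcon z hz (Or.inr h1)
  · rintro ⟨hV, z, hz, h1⟩
    refine ⟨hV, ?_⟩
    rcases h1 with h1 | h1
    · exact Or.inl ⟨z, (mem_filter.mp hz).1, h1⟩
    · right
      refine ⟨z, hz, ?_⟩
      rw [lbl_of (mem_filter.mp hz).1]
      exact h1

/-- the part without dangerous elements, with twins -/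
theorem FarX.dvd_ND {b : ℕ} {θ : P → ℕ} {Tw : Finset (P × P)} (H : FarX P i R b h θ Tw n) :
    (1 + X : ℤ[X]) ^ b ∣ ND i R h n -
      ∑ t ∈ Tw.filter (fun t => tcst i θ t = n), Tm i θ t := by
  classical
  have hb : ¬ (fun g : P → ℕ => ∃ z ∈ bdR R, h z ≤ g z) 0 := by
    rintro ⟨z, hz, h1⟩
    have := H.one_le z hz
    have h2 : h z ≤ 0 := h1
    omega
  have h1 := dvd_Z_sub_RB (i := i) (R := R)
    (fun g => (fun g : P → ℕ => ∃ z ∈ bdR R, h z ≤ g z) g ∨ g = 0) ((1 + X : ℤ[X]) ^ b) n (by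
      intro g hg0 hg
      simp only [not_or] at hg
      refine H.clean g hg0 (fun z hz => ?_) hg.2
      by_contra hcon
      exact hg.1 ⟨z, hz, not_lt.mp hcon⟩)
  rw [RB_or_zero hb, RB_eq_DG H.hlev, Z_split i R h] at h1
  have h7 := dvd_add h1 H.zero
  refine h7.trans (dvd_of_eq ?_)
  ring

lemma Lt_congr {i : ℕ} {h h' : P → ℕ} {z : P} (hh : h z = h' z) : Lt i h z = Lt i h' z := by
  unfold Lt
  have h1 : nst i h z = nst i h' z := by
    unfold nst
    rw [hh]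
  rw [h1, hh]

end Far

namespace Ew

variable {i : ℕ} {N N1 : Tops P → Finset P} {b : Tops P → ℕ} {θ θ1 : Tops P → P → ℕ}
  {E S : Finset (Tops P)} {Y : Finset P} {τ : P → P}

section

variable (W : EW i E N N1 b θ θ1 Y τ)

include W

/-- the twin terms of the system `S` -/
lemma EW.tm_sum (hS : S ⊆ E) (n : ℕ) :
    ∑ t ∈ (pairsX (YS E Y S) τ).filter (fun t => tcst i (thS E θ θ1 Y τ S) t = n),
      Tm i (thS E θ θ1 Y τ S) t =
    ∑ x ∈ (YS E Y S).filter (fun x => tcst i (thS E θ θ1 Y τ E) (τ x, x) = n),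
      Tm i (thS E θ θ1 Y τ E) (τ x, x) := by
  classical
  unfold pairsX
  rw [Finset.filter_image, Finset.sum_image]
  · refine Finset.sum_congr (Finset.filter_congr fun x hx => ?_) fun x hx => ?_
    · rw [W.tcst_eq hS hx]
    · have hx' := (mem_filter.mp hx).1
      obtain ⟨hxY, ht⟩ := mem_YS.mp hx'
      have hτ : topOf (τ x) ∉ E ∨ topOf (τ x) ∈ S := by rw [W.tw.cp x hxY]; exact ht
      unfold Tm
      rw [tcst_congr (t := (τ x, x)) (W.thS_eq hS hτ)]
  · intro x _ y _ h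
    exact (Prod.mk.inj h).2

/-- the twins of the system `{t}` -/
lemma EW.YS_single {t : Tops P} (ht : t ∈ E) (f : P → ℤ[X]) (p : P → Prop) [DecidablePred p] :
    ∑ x ∈ (YS E Y {t}).filter p, f x =
      ∑ x ∈ (YS E Y ∅).filter p, f x + ∑ x ∈ Y.filter (fun x => topOf x = t ∧ p x), f x := by
  classical
  rw [← Finset.sum_union]
  · refine Finset.sum_congr ?_ (fun _ _ => rfl)
    ext x
    rw [mem_union, mem_filter, mem_filter, mem_filter, mem_YS, mem_YS, mem_singleton]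
    constructor
    · rintro ⟨⟨h1, h2 | h2⟩, h3⟩
      · exact Or.inl ⟨⟨h1, Or.inl h2⟩, h3⟩
      · exact Or.inr ⟨h1, h2, h3⟩
    · rintro (⟨⟨h1, h2 | h2⟩, h3⟩ | ⟨h1, h2, h3⟩)
      · exact ⟨⟨h1, Or.inl h2⟩, h3⟩
      · exact absurd h2 (Finset.notMem_empty _)
      · exact ⟨⟨h1, Or.inr h2⟩, h3⟩
  · rw [Finset.disjoint_left]
    intro x h1 h2
    rw [mem_filter, mem_YS] at h1
    rw [mem_filter] at h2
    rcases h1.1.2 with h | h
    · exact h (by rw [h2.2.1]; exact ht)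
    · exact absurd h (Finset.notMem_empty _)

/-- all twins -/
lemma EW.YS_all (f : P → ℤ[X]) (p : P → Prop) [DecidablePred p] :
    ∑ x ∈ (YS E Y ∅).filter p, f x +
      ∑ t ∈ E, ∑ x ∈ Y.filter (fun x => topOf x = t ∧ p x), f x = ∑ x ∈ Y.filter p, f x := by
  classical
  rw [← Finset.sum_filter_add_sum_filter_not (Y.filter p) (fun x => topOf x ∉ E) f]
  congr 1
  · refine Finset.sum_congr ?_ (fun _ _ => rfl)
    ext x
    rw [mem_filter, mem_filter, mem_filter, mem_YS]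
    constructor
    · rintro ⟨⟨h1, h2 | h2⟩, h3⟩
      · exact ⟨⟨h1, h3⟩, h2⟩
      · exact absurd h2 (Finset.notMem_empty _)
    · rintro ⟨⟨h1, h3⟩, h2⟩
      exact ⟨⟨h1, Or.inl h2⟩, h3⟩
  · rw [← Finset.sum_fiberwise_of_maps_to (s := (Y.filter p).filter (fun x => ¬ topOf x ∉ E))
      (t := E) (g := topOf)
      (fun x hx => by
        have h1 := (mem_filter.mp hx).2
        push Not at h1
        exact h1) f]
    refine Finset.sum_congr rfl fun t ht => Finset.sum_congr ?_ (fun _ _ => rfl)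
    ext x
    simp only [mem_filter]
    constructor
    · rintro ⟨h1, h2, h3⟩
      exact ⟨⟨⟨h1, h3⟩, by rw [h2]; simpa using ht⟩, h2⟩
    · rintro ⟨⟨⟨h1, h3⟩, h4⟩, h2⟩
      exact ⟨h1, h2, h3⟩

/-- the configurations which hit at most one top, with twins of the least cost -/
theorem EW.dvd_one {n : ℕ} (hB : ∑ t, b t = (lv P i).card)
    (hcost : ∀ x ∈ Y, n ≤ tcst i (thS E θ θ1 Y τ E) (τ x, x)) :
    (1 + X : ℤ[X]) ^ ((lv P i).card - 1) ∣
      ZQ i n (fun e _ => Ok (RS E N N1 Y E) (thS E θ θ1 Y τ E) e ∧ (KE E N θ e).card ≤ 1) -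
      ∑ x ∈ Y.filter (fun x => tcst i (thS E θ θ1 Y τ E) (τ x, x) = n),
        Tm i (thS E θ θ1 Y τ E) (τ x, x) := by
  classical
  have key : ∀ S, S ⊆ E → S.card ≤ 1 → (1 + X : ℤ[X]) ^ ((lv P i).card - 1) ∣
      ZQ i n (fun e _ => Ok (RS E N N1 Y E) (thS E θ θ1 Y τ E) e ∧ KE E N θ e ⊆ S) -
      ∑ x ∈ (YS E Y S).filter (fun x => tcst i (thS E θ θ1 Y τ E) (τ x, x) = n),
        Tm i (thS E θ θ1 Y τ E) (τ x, x) := by
    intro S hS hS1
    have H := W.farX hS n hcost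
    have h1 := H.dvd_ND
    rw [W.tm_sum hS, ND_eq_ZQ] at h1
    have h2 : ZQ i n (fun e F => ∀ z ∈ bdR (RS E N N1 Y S),
        ¬ Dgz (Ew.hS E N N1 θ θ1 Y τ S) e F z) =
        ZQ i n (fun e _ => Ok (RS E N N1 Y E) (thS E θ θ1 Y τ E) e ∧ KE E N θ e ⊆ S) :=
      ZQ_congr fun e F hV _ => by
        rw [show Ew.hS E N N1 θ θ1 Y τ S = hcan (RS E N N1 Y S) (thS E θ θ1 Y τ S) from rfl,
          ok_iff W.gr (W.lev_RS hS) (fun x hx => W.th_le hS hx) hV]
        exact W.ok_iff_S hS hV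
    rw [h2] at h1
    refine dvd_trans (pow_dvd_pow _ ?_) h1
    have := W.sum_bS hS
    omega
  have h0 := key ∅ (Finset.empty_subset E) (by rw [Finset.card_empty]; exact Nat.zero_le _)
  have h1 := dvd_ZQ_one (i := i) (n := n) (p := (1 + X : ℤ[X]) ^ ((lv P i).card - 1))
    (Q := fun e _ => Ok (RS E N N1 Y E) (thS E θ θ1 Y τ E) e) (K := fun e _ => KE E N θ e) E
    (fun e _ t ht => (mem_KE.mp ht).1) h0
    (C := fun t => ∑ x ∈ Y.filter (fun x => topOf x = t ∧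
      tcst i (thS E θ θ1 Y τ E) (τ x, x) = n), Tm i (thS E θ θ1 Y τ E) (τ x, x))
    (fun t ht => by
      have h2 := key {t} (Finset.singleton_subset_iff.mpr ht) (by rw [Finset.card_singleton])
      rw [W.YS_single ht] at h2
      exact h2)
  rwa [W.YS_all] at h1

/-- **The window theorem with at most one hit top and twins of the least cost**, all labels
full. -/
theorem EW.sign_tw {n : ℕ} (hB : ∑ t, b t = (lv P i).card)
    (hZ : (1 + X : ℤ[X]) ^ (lv P i).card ∣ Z P i n)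
    (hcost : ∀ x ∈ Y, n ≤ tcst i (thS E θ θ1 Y τ E) (τ x, x))
    (hful : ∀ x ∈ Y, tcst i (thS E θ θ1 Y τ E) (τ x, x) = n →
      thS E θ θ1 Y τ E (τ x) + 1 = lev (τ x) - i)
    (hmin : ∀ z ∈ bdR (RS E N N1 Y E), n ≤ cst i (hS E N N1 θ θ1 Y τ E) z)
    (hstr : ∀ z ∈ bdR (RS E N N1 Y E), cst i (hS E N N1 θ θ1 Y τ E) z = n →
      hS E N N1 θ θ1 Y τ E z = lev z - i)
    (hK : ∀ e F, Vd i e F → ∑ x, e x = n → Ok (RS E N N1 Y E) (thS E θ θ1 Y τ E) e →
      (KE E N θ e).card ≤ 1)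
    {U : Finset P} (hU : ∀ z, z ∈ U ↔
      (z ∈ bdR (RS E N N1 Y E) ∧ cst i (hS E N N1 θ θ1 Y τ E) z = n) ∨
      (z ∈ Y ∧ tcst i (thS E θ θ1 Y τ E) (τ z, z) = n))
    {c0 : ℕ} (hc : c0 + 1 < (lv P i).card)
    (hle : ∀ z ∈ U, c0 + nab i z ≤ (lv P i).card + nab (i + (lev z - i)) z) :
    ∑ z ∈ U.filter (fun z => c0 + nab i z = (lv P i).card + nab (i + (lev z - i)) z),
      (-1 : ℤ) ^ (nst i (fun z => lev z - i) z) = 0 := by
  classical
  have hEE := Finset.Subset.refl E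
  have HX := W.farX hEE n hcost
  have hT : ∀ z ∈ (bdR (RS E N N1 Y E)).filter
      (fun z => cst i (hS E N N1 θ θ1 Y τ E) z = n), z ∈ bdR (RS E N N1 Y E) ∧
      cst i (hS E N N1 θ θ1 Y τ E) z = n := fun z hz => mem_filter.mp hz
  have h1 := W.dvd_one hB hcost
  have h2 : Z P i n = ZQ i n (fun e _ => Ok (RS E N N1 Y E) (thS E θ θ1 Y τ E) e ∧
      (KE E N θ e).card ≤ 1) + ZQ i n (fun e _ => ¬ (Ok (RS E N N1 Y E) (thS E θ θ1 Y τ E) e ∧
      (KE E N θ e).card ≤ 1)) := by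
    rw [Z_eq_ZQ, ZQ_split i n (fun _ _ => True) (fun e _ => Ok (RS E N N1 Y E)
      (thS E θ θ1 Y τ E) e ∧ (KE E N θ e).card ≤ 1)]
    congr 1
    · exact ZQ_congr fun e F _ _ => by simp
    · exact ZQ_congr fun e F _ _ => by simp
  have h3 := ZQ_lead (i := i) (n := n) (Q := fun e _ => ¬ (Ok (RS E N N1 Y E)
      (thS E θ θ1 Y τ E) e ∧ (KE E N θ e).card ≤ 1)) (hS E N N1 θ θ1 Y τ E)
    ((bdR (RS E N N1 Y E)).filter (fun z => cst i (hS E N N1 θ θ1 Y τ E) z = n)) W.gr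
    (fun z hz => ⟨HX.one_le z (hT z hz).1, HX.le_lev z (hT z hz).1⟩)
    (fun z hz _ F hV h => by
      have hz' := (hT z hz).1
      obtain ⟨x, hx, hzx, hx2⟩ := hcan_spec (θ := thS E θ θ1 Y τ E) hz'
      have h1 := h.1 z (mem_filter.mp hz').1 x hx hzx
      rw [ez_self (HX.le_lev z hz')] at h1
      have h2 : hS E N N1 θ θ1 Y τ E z = thS E θ θ1 Y τ E x + 1 := hx2
      omega)
    (fun e F hV hs hbad => by
      have hq : ¬ Ok (RS E N N1 Y E) (thS E θ θ1 Y τ E) e := fun h =>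
        hbad ⟨h, hK e F hV hs h⟩
      rw [← ok_iff W.gr (W.lev_RS hEE) (fun x hx => W.th_le hEE hx) hV] at hq
      push Not at hq
      obtain ⟨z, hz, hd⟩ := hq
      have h4 : ∀ x, ez i (hS E N N1 θ θ1 Y τ E) z x ≤ e x :=
        ez_le hV (W.lev_RS hEE z (mem_filter.mp hz).1) hd
      have h6 : cst i (hS E N N1 θ θ1 Y τ E) z ≤ n := by
        rw [← hs]; exact Finset.sum_le_sum fun x _ => h4 x
      have h7 : cst i (hS E N N1 θ θ1 Y τ E) z = n := le_antisymm h6 (hmin z hz)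
      refine ⟨z, mem_filter.mpr ⟨hz, h7⟩, ?_⟩
      funext x
      have h9 : ∑ x, ez i (hS E N N1 θ θ1 Y τ E) z x = ∑ x, e x := by
        rw [hs]; exact h7
      exact ((Finset.sum_eq_sum_iff_of_le (fun x _ => h4 x)).mp h9 x (mem_univ x)).symm)
  rw [Finset.filter_filter] at h3
  simp only [and_self] at h3
  have h4 : ∑ z ∈ (bdR (RS E N N1 Y E)).filter (fun z => cst i (hS E N N1 θ θ1 Y τ E) z = n),
      Lt i (hS E N N1 θ θ1 Y τ E) z +
      ∑ x ∈ Y.filter (fun x => tcst i (thS E θ θ1 Y τ E) (τ x, x) = n),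
        Tm i (thS E θ θ1 Y τ E) (τ x, x) = ∑ z ∈ U, Lt i (fun z => lev z - i) z := by
    have e1 : U = (bdR (RS E N N1 Y E)).filter
        (fun z => cst i (hS E N N1 θ θ1 Y τ E) z = n) ∪
        Y.filter (fun x => tcst i (thS E θ θ1 Y τ E) (τ x, x) = n) := by
      ext z
      rw [hU, mem_union, mem_filter, mem_filter]
    rw [e1, Finset.sum_union]
    · congr 1
      · refine Finset.sum_congr rfl fun z hz => ?_
        exact Lt_congr (h' := fun z => lev z - i) (hstr z (hT z hz).1 (hT z hz).2)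
      · refine Finset.sum_congr rfl fun x hx => ?_
        obtain ⟨hx1, hx2⟩ := mem_filter.mp hx
        have hx3 : x ∈ YS E Y E := by rw [YS_self]; exact hx1
        have H1 := W.twnS hEE x hx3
        have h5 := Tm_eq W.gr H1 (hful x hx1 hx2)
        rw [h5]
        exact Lt_congr rfl
    · rw [Finset.disjoint_left]
      intro z g1 g2
      have g3 := (mem_filter.mp (hT z g1).1).1
      have g4 := (mem_filter.mp g2).1
      refine (mem_sdiff.mp g3).2 ?_
      rw [YS_self]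
      exact g4
  have h5 : (1 + X : ℤ[X]) ^ ((lv P i).card - 1) ∣
      Z P i n - ∑ z ∈ U, Lt i (fun z => lev z - i) z := by
    rw [h2, h3, ← h4]
    refine h1.trans (dvd_of_eq ?_)
    ring
  exact sign_sum_of_dvd U (dvd_trans (pow_dvd_pow _ (Nat.sub_le _ _)) hZ) h5 (by omega) hle

end

end Ew

end Pool.Agent.GaussPoset
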