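import Pool.Agent.W_448s7s_h5.TuC
import Pool.Agent.W_448s7s_h5.TuD
import Pool.Agent.W_448s7_h27.EwG

/-!
The components at window `4` with the coarse thresholds `thD` for the stairs (MP_448cb3_co, S7,
`j = 13`).
-/

namespace Pool.Agent.GaussPoset.Ec

set_option linter.unusedSectionVars false

open Polynomial Finset Sm Wd Cp W4 Cl

universe u

variable {P : Type u} [Fintype P] [PartialOrder P] [DecidableEq P] {r j : ℕ}

/-- the types of the components at window `4` with the coarse thresholds `θ5` -/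
inductive FineZ (j : ℕ) (t : Tops P) (lo hi : ℕ → ℕ) (e : ℕ → ℕ → P)
    (N : Finset P) (θ4 θ5 : P → ℕ) (b : ℕ) (Nf : Finset P) (θf : (ℕ → ℕ → ℕ) → P → ℕ)
    (d : Prop) : Prop
  | light (h1 : N = onlyB t) (h2 : θ4 = fun x => lev x - 4) (h3 : b = 1) (h4 : Nf = N)
      (h5 : θf = fun _ => θ4) (h6 : ¬ d) (h7 : ∀ x, x ≤ (t : P) → lev x ≤ j → x ∈ onlyB t)
      (h9 : θ5 = θ4)
  | rect (c : ℕ) (Nc : Finset P) (co : P → ℕ × ℕ) (h0 : RectNat j 4 t c Nc co)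
      (h1 : N = natR Nc co) (h2 : θ4 = thR 4 c Nc co) (h3 : b = c) (h4 : Nf = N)
      (h5 : θf = fun _ => θ4) (h6 : ¬ d) (h7 : lo 3 < hi 3) (h9 : θ5 = θ4)
  | e7 (h0 : WordD j 4 w7 lo hi) (h1 : N = onlyB t) (h2 : θ4 = fun x => lev x - 4) (h3 : b = 2)
      (h4 : Nf = lowPart j (t : P)) (h5 : θf = fun tb => thC lo hi e tb) (h6 : d)
      (h7 : ∀ x, x ≤ (t : P) → lev x ≤ j → x ∈ onlyB t) (h8 : j ≤ 16) (h9 : θ5 = θ4)
  | stair (Nc : Finset P) (co : P → ℕ × ℕ) (h0 : StairNat j 4 t Nc co) (h1 : N = natS Nc co)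
      (h2 : θ4 = thSg 2 4 Nc co) (h3 : b = 3) (h4 : Nf = N) (h5 : θf = fun _ => thS 4 Nc co)
      (h6 : d) (h9 : θ5 = thD Nc co)

section

variable {t : Tops P} {lo hi : ℕ → ℕ} {e : ℕ → ℕ → P} {N : Finset P} {θ4 θ5 : P → ℕ} {b : ℕ}
  {Nf : Finset P} {θf : (ℕ → ℕ → ℕ) → P → ℕ} {d : Prop}

theorem FineY.exists5 (F : FineY j t lo hi e N θ4 b Nf θf d) :
    ∃ θ5, FineZ j t lo hi e N θ4 θ5 b Nf θf d := by
  rcases F with ⟨h1, h2, h3, h4, h5, h6, h7⟩ | ⟨c, Nc, co, h0, h1, h2, h3, h4, h5, h6, h7⟩ |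
    ⟨h0, h1, h2, h3, h4, h5, h6, h7, h8⟩ | ⟨Nc, co, h0, h1, h2, h3, h4, h5, h6⟩
  · exact ⟨θ4, FineZ.light h1 h2 h3 h4 h5 h6 h7 rfl⟩
  · exact ⟨θ4, FineZ.rect c Nc co h0 h1 h2 h3 h4 h5 h6 h7 rfl⟩
  · exact ⟨θ4, FineZ.e7 h0 h1 h2 h3 h4 h5 h6 h7 h8 rfl⟩
  · exact ⟨thD Nc co, FineZ.stair Nc co h0 h1 h2 h3 h4 h5 h6 rfl⟩

lemma FineZ.old (F : FineZ j t lo hi e N θ4 θ5 b Nf θf d) :
    FineY j t lo hi e N θ4 b Nf θf d := by
  rcases F with ⟨h1, h2, h3, h4, h5, h6, h7, h9⟩ | ⟨c, Nc, co, h0, h1, h2, h3, h4, h5, h6, h7, h9⟩ |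
    ⟨h0, h1, h2, h3, h4, h5, h6, h7, h8, h9⟩ | ⟨Nc, co, h0, h1, h2, h3, h4, h5, h6, h9⟩
  · exact FineY.light h1 h2 h3 h4 h5 h6 h7
  · exact FineY.rect c Nc co h0 h1 h2 h3 h4 h5 h6 h7
  · exact FineY.e7 h0 h1 h2 h3 h4 h5 h6 h7 h8
  · exact FineY.stair Nc co h0 h1 h2 h3 h4 h5 h6

lemma FineZ.eq5 (F : FineZ j t lo hi e N θ4 θ5 b Nf θf d) (hd : ¬ d) : θ5 = θ4 := by
  rcases F with ⟨h1, h2, h3, h4, h5, h6, h7, h9⟩ | ⟨c, Nc, co, h0, h1, h2, h3, h4, h5, h6, h7, h9⟩ |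
    ⟨h0, h1, h2, h3, h4, h5, h6, h7, h8, h9⟩ | ⟨Nc, co, h0, h1, h2, h3, h4, h5, h6, h9⟩
  · exact h9
  · exact h9
  · exact h9
  · exact absurd h6 hd

lemma stair_diag_cell {Nc : Finset P} {co : P → ℕ × ℕ} (h0 : StairNat j 4 t Nc co) :
    ∃ x ∈ Nc, co x = (3, 3) := by
  obtain ⟨x, hx, hcx⟩ := h0.cell
  obtain ⟨y, hy, hcy⟩ := h0.chart.low x hx (3, 3)
    (by rw [hcx]; exact ⟨by simp only; omega, by simp only; omega⟩)
    (by show 3 ≤ 3; omega)
  exact ⟨y, hy, hcy⟩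

/-- the coarse natural system of a defect top -/
theorem FineZ.nat1 (F : FineZ j t lo hi e N θ4 θ5 b Nf θf d) (C : Comp j (t : P) lo hi e)
    (H : Gr P r) (hj : 8 ≤ j) (hd : d) : ∃ B, NatTop 4 t (b - 1) N θ5 B := by
  have hgr := H.gradedBelow
  rcases F with ⟨h1, h2, h3, h4, h5, h6, h7, h9⟩ | ⟨c, Nc, co, h0, h1, h2, h3, h4, h5, h6, h7, h9⟩ |
    ⟨h0, h1, h2, h3, h4, h5, h6, h7, h8, h9⟩ | ⟨Nc, co, h0, h1, h2, h3, h4, h5, h6, h9⟩
  · exact absurd hd h6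
  · exact absurd hd h6
  · subst h9
    exact (FineY.e7 h0 h1 h2 h3 h4 h5 h6 h7 h8).nat1 C H hj hd
  · subst h9 h1 h3
    exact ⟨_, natTop_stair_diag hgr h0.chart (stair_diag_cell h0)
      (low_of_strip h0.strip (by omega))⟩

/-- the values of the three thresholds of a stair -/
lemma th_stair {Nc : Finset P} {co : P → ℕ × ℕ} (h0 : StairNat j 4 t Nc co) {x : P}
    (hx : x ∈ Nc) (hJ : x ∉ junk (fun c => c.1 ≤ c.2) Nc co) :
    thS 4 Nc co x = ((co x).1 - 4) + ((co x).2 - 4) ∧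
    thSg 2 4 Nc co x = ((co x).1 - 2) + ((co x).2 - 4) ∧
    thD Nc co x = min (((co x).1 - 3) + ((co x).2 - 3)) (((co x).1 - 1) + ((co x).2 - 4)) := by
  unfold thS thSg thD
  rw [if_neg hJ, if_neg hJ, if_neg hJ]
  exact ⟨rfl, rfl, rfl⟩

/-- the fine thresholds are smaller -/
lemma FineZ.le1 (F : FineZ j t lo hi e N θ4 θ5 b Nf θf d) {tb : ℕ → ℕ → ℕ} (htb : TbOK tb)
    (x : P) : θf tb x ≤ θ5 x := by
  have G := F.old
  rcases F with ⟨h1, h2, h3, h4, h5, h6, h7, h9⟩ | ⟨c, Nc, co, h0, h1, h2, h3, h4, h5, h6, h7, h9⟩ |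
    ⟨h0, h1, h2, h3, h4, h5, h6, h7, h8, h9⟩ | ⟨Nc, co, h0, h1, h2, h3, h4, h5, h6, h9⟩
  · rw [h9]; exact G.le1 htb x
  · rw [h9]; exact G.le1 htb x
  · rw [h9]; exact G.le1 htb x
  · rw [h5, h9]
    show thS 4 Nc co x ≤ _
    unfold thS thD
    split_ifs
    · exact le_rfl
    · omega

/-- the new thresholds are larger, away from the low levels -/
lemma FineZ.ge (F : FineZ j t lo hi e N θ4 θ5 b Nf θf d) {x : P} (hx : x ∈ N)
    (hl : 7 ≤ lev x) : θ4 x ≤ θ5 x := by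
  rcases F with ⟨h1, h2, h3, h4, h5, h6, h7, h9⟩ | ⟨c, Nc, co, h0, h1, h2, h3, h4, h5, h6, h7, h9⟩ |
    ⟨h0, h1, h2, h3, h4, h5, h6, h7, h8, h9⟩ | ⟨Nc, co, h0, h1, h2, h3, h4, h5, h6, h9⟩
  · exact h9.ge x
  · exact h9.ge x
  · exact h9.ge x
  · rw [h2, h9]
    by_cases hJ : x ∈ junk (fun c => c.1 ≤ c.2) Nc co
    · unfold thSg thD
      rw [if_pos hJ, if_pos hJ]
    · have hxN : x ∈ Nc := by
        rw [h1, mem_natS] at hx
        exact hx.resolve_right hJ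
      obtain ⟨-, e2, e3⟩ := th_stair h0 hxN hJ
      have e4 := h0.chart.lev x hxN
      have e5 : (co x).1 ≤ (co x).2 := h0.chart.mem x hxN
      rw [e2, e3]
      omega

lemma FineZ.le2 (F : FineZ j t lo hi e N θ4 θ5 b Nf θf d) {tb : ℕ → ℕ → ℕ} (htb : TbOK tb)
    {x y : P} (hx : x ∈ N) (hx' : x ∉ Nf) (hxy : x ≤ y) : θf tb y ≤ θ5 x := by
  have G := F.old
  rcases F with ⟨h1, h2, h3, h4, h5, h6, h7, h9⟩ | ⟨c, Nc, co, h0, h1, h2, h3, h4, h5, h6, h7, h9⟩ |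
    ⟨h0, h1, h2, h3, h4, h5, h6, h7, h8, h9⟩ | ⟨Nc, co, h0, h1, h2, h3, h4, h5, h6, h9⟩
  · rw [h9]; exact G.le2 htb hx hx' hxy
  · rw [h9]; exact G.le2 htb hx hx' hxy
  · rw [h9]; exact G.le2 htb hx hx' hxy
  · exact absurd (h4 ▸ hx) hx'

end

/-- the cells with twins -/
inductive TwC (j : ℕ) (t : Tops P) (N : Finset P) (θ4 θ5 : P → ℕ) (y : P) : Prop
  | rect (c : ℕ) (Nc : Finset P) (co : P → ℕ × ℕ) (h0 : RectNat j 4 t c Nc co)
      (h1 : N = natR Nc co) (h2 : θ4 = thR 4 c Nc co) (h9 : θ5 = θ4) (hy : y ∈ Nc)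
      (hJ : ¬ (y ∈ junk (fun _ => True) Nc co ∨ y ∈ junk (fun _ => True) Nc (swp co)))
      (ha : 1 ≤ (co y).1) (hc : 1 ≤ (co y).2)
  | stair (Nc : Finset P) (co : P → ℕ × ℕ) (h0 : StairNat j 4 t Nc co) (h1 : N = natS Nc co)
      (h2 : θ4 = thSg 2 4 Nc co) (h9 : θ5 = thD Nc co) (hy : y ∈ Nc)
      (hJ : y ∉ junk (fun c => c.1 ≤ c.2) Nc co) (ha : 1 ≤ (co y).1)

variable {lo hi : Tops P → ℕ → ℕ} {e : Tops P → ℕ → ℕ → P} {N : Tops P → Finset P}
  {θ3 θ4 θ5 : Tops P → P → ℕ} {Nf : Tops P → Finset P} {θf : Tops P → (ℕ → ℕ → ℕ) → P → ℕ}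
  {D : Tops P → Prop} {K3 : ℕ} {b : Tops P → ℕ}

/-- the twins are at inner cells of the rectangles and the stairs -/
theorem tw_cell (W : Wk r j 3 K3 N b θ3) (hj : 8 ≤ j) {x : P} (hx : x ∈ twA N)
    {lo hi : ℕ → ℕ} {e : ℕ → ℕ → P} {b' : ℕ} {Nf : Finset P} {θf : (ℕ → ℕ → ℕ) → P → ℕ}
    {d : Prop} (F : FineZ j (topOf (twT N x)) lo hi e (N (topOf (twT N x)))
      (θ4 (topOf (twT N x))) (θ5 (topOf (twT N x))) b' Nf θf d) :
    TwC j (topOf (twT N x)) (N (topOf (twT N x))) (θ4 (topOf (twT N x)))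
      (θ5 (topOf (twT N x))) (twT N x) := by
  have H := W.gt.H
  have HN := W.natSys
  obtain ⟨hxu, hex⟩ := mem_twA.mp hx
  have h3 := twT_spec hex
  have hlt := W.lt_lev hxu
  have hll := W.twSys.lev hx
  have hyN : twT N x ∈ N (topOf (twT N x)) := HN.mem_iff.mpr ⟨h3.1, rfl⟩
  have htop : ∀ s, x ≤ (s : P) → lev (s : P) = 0 → twT N x ≤ (s : P) := by
    intro s hs hs0
    refine ((h3.2 s).mpr (lt_of_le_of_ne hs ?_)).le
    rintro rfl
    omega
  generalize twT N x = y at *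
  generalize ht : topOf y = t at *
  rcases F with ⟨h1, h2, h3', h4, h5, h6, h7, h9⟩ |
    ⟨c, Nc, co, h0, h1, h2, h3', h4, h5, h6, h7, h9⟩ |
    ⟨h0, h1, h2, h3', h4, h5, h6, h7, h8, h9⟩ | ⟨Nc, co, h0, h1, h2, h3', h4, h5, h6, h9⟩
  · exfalso
    have g1 : x ∉ onlyB t := by
      rw [← h1]
      exact mem_unnat.mp hxu t
    rw [mem_onlyB] at g1
    push Not at g1
    obtain ⟨s, hs1, hs2, hs3⟩ := g1
    exact hs3 (HN.top_eq hyN hs1 (htop s hs2 hs1))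
  · by_cases hJ : y ∈ junk (fun _ => True) Nc co ∨ y ∈ junk (fun _ => True) Nc (swp co)
    · exfalso
      refine mem_unnat.mp hxu t ?_
      rw [h1, mem_natR]
      rcases hJ with h' | h'
      · exact Or.inr (Or.inl (junk_twin h' h3.2))
      · exact Or.inr (Or.inr (junk_twin h' h3.2))
    · have hyc : y ∈ Nc := by
        rw [h1, mem_natR] at hyN
        rcases hyN with h | h | h
        · exact h
        · exact absurd (Or.inl h) hJ
        · exact absurd (Or.inr h) hJ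
      have hl := h0.chart.lev y hyc
      refine TwC.rect c Nc co h0 h1 h2 h9 hyc hJ ?_ ?_
      · by_contra h7
        obtain ⟨u, hu, hcu⟩ := h0.chart.low y hyc (0, (co y).2 - 1)
          ⟨Nat.zero_le _, Nat.sub_le _ _⟩ trivial
        refine straight_twin H h0 h1 hyc hu ?_ ?_ ?_ hxu h3.2
        · rw [hcu]
          exact Or.inr ⟨by simp only; omega, by simp only; omega⟩
        · intro y hy hp
          rw [hcu]
          rcases hp with hp | hp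
          · omega
          · exact Prod.ext (by simp only; omega) (by simp only; omega)
        · rw [hcu]
          exact Or.inl rfl
      · by_contra h7
        obtain ⟨u, hu, hcu⟩ := h0.chart.low y hyc ((co y).1 - 1, 0)
          ⟨Nat.sub_le _ _, Nat.zero_le _⟩ trivial
        refine straight_twin H h0 h1 hyc hu ?_ ?_ ?_ hxu h3.2
        · rw [hcu]
          exact Or.inl ⟨by simp only; omega, by simp only; omega⟩
        · intro y hy hp
          rw [hcu]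
          rcases hp with hp | hp
          · exact Prod.ext (by simp only; omega) (by simp only; omega)
          · omega
        · rw [hcu]
          exact Or.inr rfl
  · exfalso
    have g1 : x ∉ onlyB t := by
      rw [← h1]
      exact mem_unnat.mp hxu t
    rw [mem_onlyB] at g1
    push Not at g1
    obtain ⟨s, hs1, hs2, hs3⟩ := g1
    exact hs3 (HN.top_eq hyN hs1 (htop s hs2 hs1))
  · by_cases hJ : y ∈ junk (fun c => c.1 ≤ c.2) Nc co
    · exfalso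
      refine mem_unnat.mp hxu t ?_
      rw [h1, mem_natS]
      exact Or.inr (junk_twin hJ h3.2)
    · have hyc : y ∈ Nc := by
        rw [h1, mem_natS] at hyN
        rcases hyN with h | h
        · exact h
        · exact absurd h hJ
      have hl := h0.chart.lev y hyc
      refine TwC.stair Nc co h0 h1 h2 h9 hyc hJ ?_
      by_contra h7
      obtain ⟨u, hu, hcu⟩ := h0.chart.low y hyc (0, (co y).2 - 1)
        ⟨Nat.zero_le _, Nat.sub_le _ _⟩ (Nat.zero_le _)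
      have g1 : y ⋖ u := by
        rw [chart_cov h0.chart H hyc hu, hcu]
        exact Or.inr ⟨by simp only; omega, by simp only; omega⟩
      have g2 : x ⋖ u := (cov_of_up h3.2).mp g1
      have g3 := stair_pendant H h0 (by omega) h1 hxu (x := u)
        (by rw [h1]; exact mem_natS.mpr (Or.inl hu)) g2 (by
        intro v hv
        have hv1 : y ⋖ v := (cov_of_up h3.2).mpr hv
        have hvN := h0.chart.up y hyc v hv1.le
        refine h0.chart.inj v hvN u hu ?_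
        rw [hcu]
        rcases (chart_cov h0.chart H hyc hvN).mp hv1 with hp | hp
        · omega
        · exact Prod.ext (by simp only; omega) (by simp only; omega))
      have g4 := g3.2.2
      rw [hcu] at g4
      simp only at g4
      omega

end Pool.Agent.GaussPoset.Ec
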