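import Pool.Agent.W_448s7s_h5.TuE

/-!
The inclusion-exclusion at window `4` with the coarse thresholds `thD` for the stairs
(MP_448cb3_co, S7, `j = 13`).
-/

namespace Pool.Agent.GaussPoset.Ec

set_option linter.unusedSectionVars false

open Polynomial Finset Sm Wd Cp W4 Cl

universe u

variable {P : Type u} [Fintype P] [PartialOrder P] [DecidableEq P] {r j : ℕ}
  {lo hi : Tops P → ℕ → ℕ} {e : Tops P → ℕ → ℕ → P} {N : Tops P → Finset P}
  {θ3 θ4 θ5 : Tops P → P → ℕ} {Nf : Tops P → Finset P} {θf : Tops P → (ℕ → ℕ → ℕ) → P → ℕ}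
  {D : Tops P → Prop} {K3 : ℕ} {b : Tops P → ℕ}

/-- the threshold of a cell with a twin -/
lemma TwC.th {t : Tops P} {N : Finset P} {θ4 θ5 : P → ℕ} {y : P}
    (T : TwC j t N θ4 θ5 y) (hl : 9 ≤ lev y) :
    θ4 y ≤ θ5 y ∧ θ5 y + 1 ≤ lev y - 4 ∧ lev y - 4 ≤ θ5 y + 4 ∧ θ4 y + 1 ≤ lev y - 4 := by
  rcases T with ⟨c, Nc, co, h0, h1, h2, h9, hy, hJ, ha, hc⟩ |
    ⟨Nc, co, h0, h1, h2, h9, hy, hJ, ha⟩
  · have e1 := rect_th4 h0 hy hJ hl
    rw [h9, h2]
    omega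
  · obtain ⟨-, e2, e3⟩ := th_stair h0 hy hJ
    have e4 := h0.chart.lev y hy
    have e5 : (co y).1 ≤ (co y).2 := h0.chart.mem y hy
    rw [h2, h9, e2, e3]
    omega

/-- the thresholds above a cell with a twin -/
lemma TwC.mono {t : Tops P} {N : Finset P} {θ4 θ5 : P → ℕ} {y v : P}
    (T : TwC j t N θ4 θ5 y) (hv : y < v) : θ5 v ≤ θ5 y + 1 := by
  rcases T with ⟨c, Nc, co, h0, h1, h2, h9, hy, hJ, ha, hc⟩ |
    ⟨Nc, co, h0, h1, h2, h9, hy, hJ, ha⟩
  · have hvN := h0.chart.up y hy v hv.le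
    have hy1 := not_junk_above h0.chart hy ha hv.le
    have hy2 := not_junk_above h0.chart.swap hy hc hv.le
    have hle := (h0.chart.le_iff y hy v hvN).mp hv.le
    have hle1 : (co v).1 ≤ (co y).1 := hle.1
    have hle2 : (co v).2 ≤ (co y).2 := hle.2
    rw [h9, h2]
    unfold thR
    rw [if_neg (by rintro (h | h); exacts [hy1 h, hy2 h]), if_neg hJ]
    omega
  · have hvN := h0.chart.up y hy v hv.le
    have hy1 := not_junk_above h0.chart hy ha hv.le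
    have hle := (h0.chart.le_iff y hy v hvN).mp hv.le
    have hle1 : (co v).1 ≤ (co y).1 := hle.1
    have hle2 : (co v).2 ≤ (co y).2 := hle.2
    obtain ⟨-, -, e3⟩ := th_stair h0 hy hJ
    obtain ⟨-, -, e4⟩ := th_stair h0 hvN hy1
    rw [h9, e3, e4]
    omega

/-- the systems at window `4` -/
structure Fz (P : Type u) [Fintype P] [PartialOrder P] [DecidableEq P] (j : ℕ)
    (lo hi : Tops P → ℕ → ℕ) (e : Tops P → ℕ → ℕ → P) (N : Tops P → Finset P)
    (θ4 θ5 : Tops P → P → ℕ) (Nf : Tops P → Finset P) (θf : Tops P → (ℕ → ℕ → ℕ) → P → ℕ)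
    (D : Tops P → Prop) : Prop where
  typ : ∀ t, FineZ j t (lo t) (hi t) (e t) (N t) (θ4 t) (θ5 t) (hi t 4 - lo t 4 + 1) (Nf t)
    (θf t) (D t)
  sum : ∑ t, (hi t 4 - lo t 4 + 1) = (lv P 4).card

theorem Fs.exists5 (F : Fs P j lo hi e N θ4 Nf θf D) :
    ∃ θ5, Fz P j lo hi e N θ4 θ5 Nf θf D := by
  choose θ5 h using fun t => (F.typ t).exists5
  exact ⟨θ5, h, F.sum⟩

lemma Fz.fs (F : Fz P j lo hi e N θ4 θ5 Nf θf D) : Fs P j lo hi e N θ4 Nf θf D :=
  ⟨fun t => (F.typ t).old, F.sum⟩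

lemma Fz.tw (F : Fz P j lo hi e N θ4 θ5 Nf θf D) (W : Wk r j 3 K3 N b θ3) (hj : 8 ≤ j) {x : P}
    (hx : x ∈ twA N) : TwC j (topOf (twT N x)) (N (topOf (twT N x))) (θ4 (topOf (twT N x)))
      (θ5 (topOf (twT N x))) (twT N x) :=
  tw_cell W hj hx (F.typ _)

theorem Fz.twn (F : Fz P j lo hi e N θ4 θ5 Nf θf D) (W : Wk r j 3 K3 N b θ3) (hj : 9 ≤ j)
    {x : P} (hx : x ∈ twA N) : Twn 4 (thA N θ5) (twT N x, x) := by
  have h1 := mem_twA.mp hx
  have h3 := twT_spec h1.2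
  have hlt := W.lt_lev h1.1
  have hll := W.twSys.lev hx
  have T := F.tw W (by omega) hx
  have e1 : thA N θ5 (twT N x) = θ5 (topOf (twT N x)) (twT N x) := thX_not (W.not_tw h3.1)
  have e2 : thA N θ5 x = θ5 (topOf (twT N x)) (twT N x) := thA_tw4 hx
  obtain ⟨g1, g2, g3, g4⟩ := T.th (by omega)
  refine ⟨?_, h3.2, ?_, ?_, ?_, ?_⟩
  · intro h
    simp only at h
    exact h3.1 (by rw [h]; exact h1.1)
  · simp only
    rw [e1]
    omega
  · simp only
    rw [e1, e2]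
  · simp only
    rw [e1]
    exact g2
  · intro y hy
    simp only at hy ⊢
    obtain ⟨k1, k2⟩ := W.up h3.1 hy.le
    have e3 : thA N θ5 y = θ5 (topOf (twT N x)) y := by
      have : thA N θ5 y = θ5 (topOf y) y := thX_not (W.not_tw k1)
      rw [this, k2]
    rw [e1, e3]
    exact T.mono hy

lemma Fz.tS_eq (F : Fz P j lo hi e N θ4 θ5 Nf θf D) (tb : ℕ → ℕ → ℕ) :
    Ew.tS (fun t => θf t tb) θ5 (ED D) = θ5 := by
  funext t
  by_cases h : t ∈ ED D
  · rw [Ew.tS_of h]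
  · rw [Ew.tS_not h]
    have hd : ¬ D t := fun h' => h (mem_ED.mpr h')
    rw [(F.typ t).eq5 hd]
    exact ((F.typ t).old.eq hd).2 tb

/-- the context with the thresholds `θ5` -/
theorem Fz.ew (F : Fz P j lo hi e N θ4 θ5 Nf θf D) (K : Ctx P r j lo hi e) (h9 : 9 ≤ j)
    (W : Wk r j 3 K3 N b θ3) :
    Ew.EW 4 (ED D) Nf N (fun t => hi t 4 - lo t 4 + 1) (fun t => θf t E7t4) θ5 (twA N)
      (twT N) := by
  have H := K.gt.H
  have T := W.twSys
  have G := F.fs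
  exact
  { gr := H.gradedBelow
    nat := fun t => (F.typ t).old.nat (K.comp t) H K.gt.good (by omega)
    nat1 := fun t ht => (F.typ t).nat1 (K.comp t) H (by omega) (mem_ED.mp ht)
    one := fun t ht => (F.typ t).old.one (mem_ED.mp ht)
    sub := fun t _ => (F.typ t).old.sub
    le1 := fun t _ x _ => (F.typ t).le1 tbOK_E7t4 x
    le2 := fun t _ x hx hx' y _ hxy => (F.typ t).le2 tbOK_E7t4 hx hx' hxy
    tw := by
      rw [G.NS_eq]
      exact T
    twE := by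
      intro x hx hE
      have h1 := T.nat x hx
      have h2 := T.cp x hx
      have h3 : twT N x ∈ N (topOf x) := W.natSys.mem_iff.mpr ⟨h1, h2⟩
      have hlt := W.lt_lev (mem_twA.mp hx).1
      have hll := T.lev hx
      have h4 := F.tw W (by omega) hx
      rw [h2] at h4
      obtain ⟨g1, g2, g3, g4⟩ := h4.th (by omega)
      refine ⟨(F.typ _).old.twin h3 g4, fun y hy => ?_⟩
      exact ((F.typ _).old.up (mem_ED.mp hE) h3 g4 ((T.up x hx y).mpr hy.1)).trans g1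
    twn := by
      intro x hx
      rw [F.tS_eq]
      exact F.twn W h9 hx }

lemma Fz.RS_eq (F : Fz P j lo hi e N θ4 θ5 Nf θf D) :
    Ew.RS (ED D) Nf N (twA N) (ED D) = rA N := F.fs.RS_eq

lemma Fz.thS_eq (F : Fz P j lo hi e N θ4 θ5 Nf θf D) (tb : ℕ → ℕ → ℕ) :
    Ew.thS (ED D) (fun t => θf t tb) θ5 (twA N) (twT N) (ED D) = thA N θ5 := by
  unfold Ew.thS
  rw [F.tS_eq tb, Ew.YS_self]

lemma Fz.hS_eq (F : Fz P j lo hi e N θ4 θ5 Nf θf D) (tb : ℕ → ℕ → ℕ) :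
    Ew.hS (ED D) Nf N (fun t => θf t tb) θ5 (twA N) (twT N) (ED D) = hA N θ5 := by
  unfold Ew.hS
  rw [F.RS_eq, F.thS_eq]

/-- the thresholds grow -/
lemma Fz.thA_le (F : Fz P j lo hi e N θ4 θ5 Nf θf D) (W : Wk r j 3 K3 N b θ3) (hj : 9 ≤ j)
    {x : P} (hx : x ∉ rA N) (hl : 7 ≤ lev x) : thA N θ4 x ≤ thA N θ5 x := by
  have HN := W.natSys
  rcases not_mem_rA.mp hx with h | h
  · have e1 : thA N θ4 x = θ4 (topOf x) x := thX_not (W.not_tw h)
    have e2 : thA N θ5 x = θ5 (topOf x) x := thX_not (W.not_tw h)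
    rw [e1, e2]
    exact (F.typ _).ge (HN.mem_iff.mpr ⟨h, rfl⟩) hl
  · have hlt := W.lt_lev (mem_twA.mp h).1
    have hll := W.twSys.lev h
    have T := F.tw W (by omega) h
    have e1 : thA N θ4 x = θ4 (topOf (twT N x)) (twT N x) := thA_tw4 h
    have e2 : thA N θ5 x = θ5 (topOf (twT N x)) (twT N x) := thA_tw4 h
    rw [e1, e2]
    exact (T.th (by omega)).1

/-- the labels grow -/
lemma Fz.hA_le (F : Fz P j lo hi e N θ4 θ5 Nf θf D) (W : Wk r j 3 K3 N b θ3) (hj : 9 ≤ j)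
    {z : P} (hz : z ∈ bdR (rA N)) : hA N θ4 z ≤ hA N θ5 z := by
  obtain ⟨x, h1, h2, h3⟩ := hcan_spec (θ := thA N θ5) hz
  have h4 : hA N θ4 z ≤ thA N θ4 x + 1 := hcan_le h1 h2
  have h5 : hA N θ5 z = thA N θ5 x + 1 := h3
  have h6 := W.lt_lev (mem_rA.mp (mem_bdR.mp hz).1).1
  have h7 := W.gt.H.gradedBelow.lev_covBy h2
  have h8 := F.thA_le W hj h1 (by omega)
  omega

/-- the costs grow with the label -/
lemma cst_mono_h {i : ℕ} {h h' : P → ℕ} {z : P} (hh : h z ≤ h' z) : cst i h z ≤ cst i h' z := by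
  unfold cst ez
  refine Finset.sum_le_sum fun x _ => ?_
  split_ifs
  · exact min_le_min hh le_rfl
  · exact le_rfl

lemma tcst_mono_th {i : ℕ} {θ θ' : P → ℕ} {t : P × P} (hh : θ t.1 ≤ θ' t.1) :
    tcst i θ t ≤ tcst i θ' t := by
  unfold tcst tez
  refine Finset.sum_le_sum fun x _ => ?_
  split_ifs
  · exact hh
  · omega
  · exact min_le_min (by omega) le_rfl
  · exact le_rfl

end Pool.Agent.GaussPoset.Ec
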