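import Pool.Agent.W_448s7s_h5.TuF

/-!
The energies of the defect tops at window `4`, thresholds `thD` for the stairs
(MP_448cb3_co, S7, `j = 13`).
-/

namespace Pool.Agent.GaussPoset.Ec

set_option linter.unusedSectionVars false

open Polynomial Finset Sm Wd Cp W4 Cl

universe u

variable {P : Type u} [Fintype P] [PartialOrder P] [DecidableEq P] {r j : ℕ}
  {lo hi : Tops P → ℕ → ℕ} {e : Tops P → ℕ → ℕ → P} {N : Tops P → Finset P}
  {θ3 θ4 θ5 : Tops P → P → ℕ} {Nf : Tops P → Finset P} {θf : Tops P → (ℕ → ℕ → ℕ) → P → ℕ}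
  {D : Tops P → Prop} {K3 : ℕ} {b : Tops P → ℕ}

/-- **The energy of a defect of a stair top.** -/
theorem Fz.stair_defect0 (F : Fz P j lo hi e N θ4 θ5 Nf θf D) (W : Wk r j 3 K3 N b θ3)
    (hj : 12 ≤ j) {m : ℕ} {t : Tops P} {Nc : Finset P}
    {co : P → ℕ × ℕ} (h0 : StairNat j 4 t Nc co) (h1 : N t = natS Nc co)
    (h2' : θ4 t = thSg 2 4 Nc co)
    (hm : ∀ a ∈ Finset.Icc 1 (j / 2), m ≤ deC j a)
    {e : P → ℕ} {F' : Finset P} (hV : Vd 4 e F') {z x : P} (hzx : z ⋖ x)
    (hx : x ∈ natS Nc co) (hz : z ∉ natS Nc co) (he : thS 4 Nc co x < e z)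
    (hr : z ∈ rA N → x ∉ junk (fun c => c.1 ≤ c.2) Nc co ∧ 1 ≤ (co x).1) :
    m ≤ ∑ y ∈ natS Nc co, e y := by
  classical
  have H := W.gt.H
  have HN := W.natSys
  have e1 := (H.covBy_iff.mp hzx).2
  obtain ⟨hxu, hxt⟩ := HN.mem_iff.mp (show x ∈ N t by rw [h1]; exact hx)
  have hzu : z ∈ unnat N := by
    by_contra hcon
    apply hz
    rw [← h1]
    refine HN.mem_iff.mpr ⟨hcon, ?_⟩
    rw [← hxt]
    exact (W.up hcon hzx.1.le).2.symm
  have hlz := W.lt_lev hzu
  -- a cell of level `j`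
  have key : ∀ x1 ∈ Nc, 1 ≤ (co x1).1 → j ≤ lev x1 → z ≤ x1 → thS 4 Nc co x1 < e z →
      m ≤ ∑ y ∈ natS Nc co, e y := by
    intro x1 hx1 ha hl1 hzx1 he1
    have hl := h0.chart.lev x1 hx1
    have hmm : (co x1).1 ≤ (co x1).2 := h0.chart.mem x1 hx1
    obtain ⟨y, hy, hcy⟩ := h0.chart.low x1 hx1 (j - min (co x1).2 (j - 1), min (co x1).2 (j - 1))
      ⟨by simp only; omega, by simp only; omega⟩
      (show j - min (co x1).2 (j - 1) ≤ min (co x1).2 (j - 1) by omega)
    have hy1 : (co y).1 = j - min (co x1).2 (j - 1) := by rw [hcy]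
    have hy2 : (co y).2 = min (co x1).2 (j - 1) := by rw [hcy]
    have hly := h0.chart.lev y hy
    have hxy : x1 ≤ y := by
      rw [h0.chart.le_iff x1 hx1 y hy, hcy]
      exact ⟨by simp only; omega, by simp only; omega⟩
    have hJ1 : x1 ∉ junk (fun c => c.1 ≤ c.2) Nc co := not_junk_above h0.chart hx1 ha le_rfl
    have hJy : y ∉ junk (fun c => c.1 ≤ c.2) Nc co := not_junk_above h0.chart hx1 ha hxy
    have hth : thS 4 Nc co y ≤ thS 4 Nc co x1 := by
      unfold thS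
      rw [if_neg hJ1, if_neg hJy]
      omega
    have hthy : thS 4 Nc co y + 1 = ((co y).1 - 4) + (j - (co y).1 - 4) + 1 := by
      unfold thS
      rw [if_neg hJy, show (co y).2 = j - (co y).1 by omega]
    have h3 := cst_stair (w := 4) (L := j) (h := thS 4 Nc co y + 1) h0.chart hy (by omega)
      (by omega)
    have h4 := hm (co y).1 (by rw [Finset.mem_Icc]; omega)
    have h5 : deC j (co y).1 = cst 4 (fun _ => thS 4 Nc co y + 1) y := by
      rw [h3, hthy]
      rfl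
    rw [h5] at h4
    refine h4.trans ?_
    have h6 : cst 4 (fun _ => thS 4 Nc co y + 1) y =
        ∑ v ∈ natS Nc co, ez 4 (fun _ => thS 4 Nc co y + 1) y v := by
      unfold cst
      symm
      refine Finset.sum_subset (Finset.subset_univ _) fun v _ hv => ?_
      unfold ez
      rw [if_neg]
      intro hyv
      exact hv (mem_natS.mpr (Or.inl (h0.chart.up y hy v hyv)))
    rw [h6]
    refine Finset.sum_le_sum fun v _ => ?_
    refine le_trans ?_ (ez_le (i := 4) (h := fun _ => e z) hV (z := z) (by omega)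
      (Or.inr le_rfl) v)
    unfold ez
    split_ifs with g1 g2
    · refine min_le_min ?_ le_rfl
      show thS 4 Nc co y + 1 ≤ e z
      omega
    · exact absurd (hzx1.trans (hxy.trans g1)) g2
    · exact Nat.zero_le _
    · exact Nat.zero_le _
  by_cases hzR : z ∈ rA N
  · obtain ⟨hJ, ha⟩ := hr hzR
    have hxN : x ∈ Nc := by
      rw [mem_natS] at hx
      exact hx.resolve_right hJ
    exact key x hxN ha (by omega) hzx.1.le he
  · have hzT : z ∈ twA N := by
      by_contra hcon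
      exact hzR (mem_rA.mpr ⟨hzu, hcon⟩)
    have h3 := twT_spec (mem_twA.mp hzT).2
    have hlev := W.twSys.lev hzT
    have T := F.tw W (by omega) hzT
    have hth4 := (T.th (by omega)).2.2.2
    generalize twT N z = y0 at h3 hlev T hth4
    have hyx : y0 ⋖ x := (cov_of_up h3.2).mpr hzx
    have hty : topOf y0 = t := by
      rw [← hxt]
      exact (W.up h3.1 hyx.1.le).2.symm
    have hyN : y0 ∈ natS Nc co := by
      rw [← h1]
      exact HN.mem_iff.mpr ⟨h3.1, hty⟩
    rw [hty, h2'] at hth4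
    have hJ : y0 ∉ junk (fun c => c.1 ≤ c.2) Nc co := by
      intro hJ
      unfold thSg at hth4
      rw [if_pos hJ] at hth4
      omega
    have hy0 : y0 ∈ Nc := by
      rw [mem_natS] at hyN
      exact hyN.resolve_right hJ
    have h4 := stair_th4 h0 hy0 hJ (by omega)
    have hl := h0.chart.lev y0 hy0
    have hmm : (co y0).1 ≤ (co y0).2 := h0.chart.mem y0 hy0
    have hxN := h0.chart.up y0 hy0 x hyx.1.le
    have hmx : (co x).1 ≤ (co x).2 := h0.chart.mem x hxN
    have hcx := (chart_cov h0.chart H hy0 hxN).mp hyx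
    unfold Prd at hcx
    rcases Nat.lt_or_ge (co y0).1 (co y0).2 with hlt | hge
    · obtain ⟨x1, hx1, hcx1⟩ := h0.chart.low y0 hy0 ((co y0).1, (co y0).2 - 1)
        ⟨le_rfl, Nat.sub_le _ _⟩ (show (co y0).1 ≤ (co y0).2 - 1 by omega)
      have hl1 := h0.chart.lev x1 hx1
      have a1 : (co x1).1 = (co y0).1 := by rw [hcx1]
      have a2 : (co x1).2 = (co y0).2 - 1 := by rw [hcx1]
      have hyx1 : y0 < x1 := by
        refine lt_of_le_of_ne ((h0.chart.le_iff y0 hy0 x1 hx1).mpr ⟨by omega, by omega⟩) ?_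
        rintro rfl
        omega
      refine key x1 hx1 (by omega) (by omega) ((h3.2 x1).mp hyx1).le ?_
      refine lt_of_le_of_lt ?_ he
      have hJ1 : x1 ∉ junk (fun c => c.1 ≤ c.2) Nc co :=
        not_junk_above h0.chart hy0 (by omega) hyx1.le
      have hJx : x ∉ junk (fun c => c.1 ≤ c.2) Nc co :=
        not_junk_above h0.chart hy0 (by omega) hyx.1.le
      unfold thS
      rw [if_neg hJ1, if_neg hJx]
      omega
    · have hxl := h0.chart.lev x hxN
      exact key x hxN (by omega) (by omega) hzx.1.le he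

/-- **At most one defect top is hit.** -/
theorem Fz.card_le0 (F : Fz P j lo hi e N θ4 θ5 Nf θf D) (K : Ctx P r j lo hi e) (h12 : 12 ≤ j)
    (W : Wk r j 3 K3 N b θ3) {n m : ℕ} (hm : MinT E7t4 j m)
    (hS : ∀ a ∈ Finset.Icc 1 (j / 2), m ≤ deC j a) (hn : n < (1 + 1) * m)
    {e' : P → ℕ} {F' : Finset P} (hV : Vd 4 e' F') (hs : ∑ x, e' x = n)
    (hok : ∀ z ∈ rA N, ∀ x, x ∉ rA N → z ⋖ x → e' z ≤ thA N θ5 x ∨
      ∀ Nc co, StairNat j 4 (topOf x) Nc co → N (topOf x) = natS Nc co →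
        x ∉ junk (fun c => c.1 ≤ c.2) Nc co ∧ 1 ≤ (co x).1) :
    (Ew.KE (ED D) Nf (fun t => θf t E7t4) e').card ≤ 1 := by
  classical
  have H := K.gt.H
  have hg := K.gt.good
  refine Ew.card_KE_le (F.ew K (by omega) W).natSys hs (fun t ht => ?_) hn
  obtain ⟨htE, z, x, hzx, hx, hz, hlt⟩ := Ew.mem_KE.mp ht
  have htD := mem_ED.mp htE
  have e1 := (H.covBy_iff.mp hzx).2
  rcases F.typ t with ⟨h1, h2, h3, h4, h5, h6, h7, h9⟩ |
    ⟨c, Nc, co, h0, h1, h2, h3, h4, h5, h6, h7, h9⟩ |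
    ⟨h0, h1, h2, h3, h4, h5, h6, h7, h8, h9⟩ | ⟨Nc, co, h0, h1, h2, h3, h4, h5, h6, h9⟩
  · exact absurd htD h6
  · exact absurd htD h6
  · rw [h4] at hx hz
    obtain ⟨hxt, hxl⟩ := mem_lowPart.mp hx
    have hzl : j < lev z := by
      by_contra hcon
      exact hz (mem_lowPart.mpr ⟨hzx.1.le.trans hxt, by omega⟩)
    have hlx : lev x = j := by omega
    obtain ⟨s, a1, a2, a3⟩ := (K.comp t).surj x hxt (by omega)
    rw [hlx] at a1 a2 a3
    have hxB : x ∈ onlyB t := h7 x hxt hxl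
    have hlow : ∀ x ∈ Nf t, ∀ y, x ≤ y → y ∈ Nf t := by
      rw [h4]
      intro x hx y hxy
      obtain ⟨g1, g2⟩ := mem_lowPart.mp hx
      have g3 := lev_anti hxy
      exact mem_lowPart.mpr ⟨onlyB_le (onlyB_up (h7 x g1 g2) hxy), by omega⟩
    have hts : E7t4 j s < e' z := by
      rw [h5, ← a3] at hlt
      have h9 := thC_e (K.comp t) E7t4 le_rfl a1 a2
      simp only at hlt
      rwa [h9] at hlt
    have h10 := Ew.cst_le_sum hV hzx.1.le (by omega) (h := E7t4 j s + 1)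
      (Or.inr (Nat.succ_le_of_lt hts)) (A := Nf t) (by rw [h4]; exact hx) hlow
    rw [← a3, Ew.cst_word h0 (K.comp t) H hg a1 a2 (by rw [a3]; exact hxB)] at h10
    obtain ⟨r1, r2⟩ := h0.rows (K.comp t)
    refine le_trans (hm s (Finset.mem_Icc.mpr ⟨?_, ?_⟩)) h10
    · rw [← r1 j le_rfl]
      exact a1
    · rw [← r2 j le_rfl]
      exact a2
  · rw [h4, h1] at hx hz ⊢
    rw [h5] at hlt
    have hxN : x ∈ N t := by rw [h1]; exact hx
    obtain ⟨hxu, hxt⟩ := W.natSys.mem_iff.mp hxN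
    have hlt' : thS 4 Nc co x < e' z := hlt
    refine F.stair_defect0 W h12 h0 h1 h2 hS hV hzx hx hz hlt' fun hzR => ?_
    have hxR : x ∉ rA N := fun h => hxu (mem_rA.mp h).1
    rcases hok z hzR x hxR hzx with h10 | h10
    · have e2 : thA N θ5 x = θ5 (topOf x) x := thX_not (W.not_tw hxu)
      rw [e2, hxt, h9] at h10
      have hJ : x ∉ junk (fun c => c.1 ≤ c.2) Nc co := by
        intro hJ
        unfold thS at hlt'
        unfold thD at h10
        rw [if_pos hJ] at hlt' h10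
        omega
      refine ⟨hJ, ?_⟩
      unfold thS at hlt'
      unfold thD at h10
      rw [if_neg hJ] at hlt' h10
      omega
    · exact h10 Nc co (by rw [hxt]; exact h0) (by rw [hxt]; exact h1)

/-- **At most one defect top is hit.** -/
theorem Fz.card_le (F : Fz P j lo hi e N θ4 θ5 Nf θf D) (K : Ctx P r j lo hi e) (h12 : 12 ≤ j)
    (W : Wk r j 3 K3 N b θ3) {n m : ℕ} (hm : MinT E7t4 j m)
    (hS : ∀ a ∈ Finset.Icc 1 (j / 2), m ≤ deC j a) (hn : n < (1 + 1) * m)
    {e' : P → ℕ} {F' : Finset P} (hV : Vd 4 e' F') (hs : ∑ x, e' x = n)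
    (hok : Ew.Ok (rA N) (thA N θ5) e') :
    (Ew.KE (ED D) Nf (fun t => θf t E7t4) e').card ≤ 1 :=
  F.card_le0 K h12 W hm hS hn hV hs fun z hz x hx hzx => Or.inl (hok z hz x hx hzx)

lemma minT_13 : MinT E7t4 13 76 := by decide +kernel

theorem de_13 : ∀ a ∈ Finset.Icc 1 (13 / 2), 76 ≤ deC 13 a := by decide +kernel

end Pool.Agent.GaussPoset.Ec
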