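import Pool.Agent.W_448s7_h27.EwA
import Pool.Agent.W_448f4_h70.GH

/-!
The inclusion-exclusion with larger labels at some pendants below the defect tops
(MP_448cb3_co, S7, flips).
-/

namespace Pool.Agent.GaussPoset.Ew

set_option linter.unusedSectionVars false

open Polynomial Finset

universe u

variable {P : Type u} [Fintype P] [PartialOrder P] [DecidableEq P]
variable {i : ℕ} {N N1 : Tops P → Finset P} {b : Tops P → ℕ} {θ θ1 : Tops P → P → ℕ}
  {E S : Finset (Tops P)} {Y : Finset P} {τ : P → P} {Z : Finset P} {n : ℕ}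

open Classical in
/-- the larger labels: one more at the elements of `Z` below the tops in `S` -/
noncomputable def dl (Z : Finset P) (S : Finset (Tops P)) (z : P) : ℕ :=
  if z ∈ Z ∧ ∃ x, z ⋖ x ∧ topOf x ∈ S then 1 else 0

lemma dl_of {z x : P} (h : z ∈ Z) (hx : z ⋖ x) (ht : topOf x ∈ S) : dl Z S z = 1 :=
  if_pos ⟨h, x, hx, ht⟩

lemma dl_not {z : P} (h : ¬ (z ∈ Z ∧ ∃ x, z ⋖ x ∧ topOf x ∈ S)) : dl Z S z = 0 := if_neg h

lemma dl_mono (hS : S ⊆ E) (z : P) : dl Z S z ≤ dl Z E z := by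
  by_cases h : z ∈ Z ∧ ∃ x, z ⋖ x ∧ topOf x ∈ S
  · obtain ⟨h1, x, h2, h3⟩ := h
    rw [dl_of h1 h2 h3, dl_of h1 h2 (hS h3)]
  · rw [dl_not h]
    exact Nat.zero_le _

/-- pendants below the defect tops with larger labels, energies at most `n` -/
structure Fl (i : ℕ) (E : Finset (Tops P)) (N N1 : Tops P → Finset P) (b : Tops P → ℕ)
    (θ1 : Tops P → P → ℕ) (Y : Finset P) (Z : Finset P) (n : ℕ) : Prop where
  mem : ∀ z ∈ Z, z ∈ RS E N N1 Y E
  cov : ∀ z ∈ Z, ∃ x, z ⋖ x ∧ (∀ y, z ⋖ y → y = x) ∧ topOf x ∈ E ∧ x ∈ N (topOf x) ∧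
    θ1 (topOf x) x + 2 ≤ lev z - i
  big : ∀ S, S ⊆ E → ∀ z ∈ Z, ∀ x, z ⋖ x → topOf x ∈ S → ∀ g : P → ℕ,
    g z = θ1 (topOf x) x + 1 → ∀ m, m + ∑ x ∈ RS E N N1 Y S, g x ≤ n →
    (1 + X : ℤ[X]) ^ (b (topOf x) - 1) ∣
      ZB (P := {y : P // y ∉ RS E N N1 Y S ∧ topOf y = topOf x}) i ∅ 0
        (fun y => by classical exact ((RS E N N1 Y S).filter (fun z => z ⋖ (y : P))).sup g) m

/-- the larger labels of the system `S` -/
noncomputable def hR (Z : Finset P) (E : Finset (Tops P)) (N N1 : Tops P → Finset P)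
    (θ θ1 : Tops P → P → ℕ) (Y : Finset P) (τ : P → P) (S : Finset (Tops P)) (z : P) : ℕ :=
  Ew.hS E N N1 θ θ1 Y τ S z + dl Z S z

/-- all labels of the far set are at most the thresholds, one more at `Z` -/
def OkR (Z : Finset P) (S : Finset (Tops P)) (R : Finset P) (θ e : P → ℕ) : Prop :=
  ∀ z ∈ R, ∀ x, x ∉ R → z ⋖ x → e z ≤ θ x + dl Z S z

/-- the part without dangerous elements, with a prescribed sum -/
theorem FarV_dvd_ND {i : ℕ} {R : Finset P} {h : P → ℕ} {b : ℕ} {T : ℤ[X]} {n : ℕ}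
    (H : FarV P i R b h T n) (hT : T = 0) : (1 + X : ℤ[X]) ^ b ∣ ND i R h n := by
  refine GaussPoset.dvd_ND H.hlev _ n fun g h1 h2 => ?_
  by_cases hg : g = 0
  · have h3 := H.zero
    rw [hT, sub_zero] at h3
    rw [hg]
    exact h3
  · exact H.clean g h1 h2 hg

section

variable (W : EW i E N N1 b θ θ1 Y τ) (G : Fl i E N N1 b θ1 Y Z n)

include W G

/-- the cover of an element of `Z` -/
lemma EW.fl_cov (hS : S ⊆ E) {z : P} (hz : z ∈ Z) : ∃ x, z ⋖ x ∧ (∀ y, z ⋖ y → y = x) ∧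
    topOf x ∈ E ∧ z ∈ RS E N N1 Y S ∧ x ∉ RS E N N1 Y S ∧ θ1 (topOf x) x + 2 ≤ lev z - i ∧
    (topOf x ∈ S → thS E θ θ1 Y τ S x = θ1 (topOf x) x) := by
  obtain ⟨x, h1, h2, h3, h4, h5⟩ := G.cov z hz
  have HS := W.natSysS hS
  have hxS : x ∈ NS N N1 S (topOf x) := by
    by_cases h : topOf x ∈ S
    · rw [NS_of h]
      exact W.sub _ h3 h4
    · rw [NS_not h]
      exact h4
  have hxu : x ∉ unnat (NS N N1 S) := (HS.mem_iff.mp hxS).1
  refine ⟨x, h1, h2, h3, W.RS_sub hS (G.mem z hz), fun h => hxu (mem_sdiff.mp h).1, h5, ?_⟩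
  intro ht
  have hxY : x ∉ YS E Y S := fun h => hxu ((W.twS hS).sub h)
  unfold thS
  rw [thX_not hxY, tS_of ht]

lemma EW.hS_fl (hS : S ⊆ E) {z x : P} (hz : z ∈ Z) (hzx : z ⋖ x) (ht : topOf x ∈ S) :
    Ew.hS E N N1 θ θ1 Y τ S z = θ1 (topOf x) x + 1 := by
  classical
  obtain ⟨x0, h1, h2, -, h4, h5, -, h7⟩ := W.fl_cov G hS hz
  have hx0 : x = x0 := h2 x hzx
  subst hx0
  have hbd : z ∈ bdR (RS E N N1 Y S) := mem_filter.mpr ⟨h4, x, h5, hzx⟩
  obtain ⟨x', g1, g2, g3⟩ := hcan_spec (θ := thS E θ θ1 Y τ S) hbd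
  have hx' := h2 x' g2
  rw [hx', h7 ht] at g3
  exact g3

/-- the far window theorem for the system `S` with the larger labels -/
theorem EW.farR (hS : S ⊆ E)
    (hcost : ∀ x ∈ Y, n < tcst i (thS E θ θ1 Y τ E) (τ x, x)) :
    (1 + X : ℤ[X]) ^ (∑ t, bS b S t) ∣ ND i (RS E N N1 Y S) (hR Z E N N1 θ θ1 Y τ S) n := by
  classical
  have H := W.farX hS n (fun x hx => (hcost x hx).le)
  choose B hB using W.natS hS
  have hz0 : (∑ t ∈ (pairsX (YS E Y S) τ).filter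
      (fun t => tcst i (thS E θ θ1 Y τ S) t = n), Tm i (thS E θ θ1 Y τ S) t) = 0 := by
    have h4 : (pairsX (YS E Y S) τ).filter
        (fun t => tcst i (thS E θ θ1 Y τ S) t = n) = ∅ := by
      rw [Finset.filter_eq_empty_iff]
      intro t ht h5
      rw [mem_pairsX] at ht
      have h6 := hcost t.2 (mem_YS.mp ht.1).1
      rw [← W.tcst_eq hS ht.1] at h6
      have e3 : t = (τ t.2, t.2) := Prod.ext ht.2 rfl
      rw [e3] at h5
      omega
    rw [h4, Finset.sum_empty]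
  have F : FarV P i (unnat (NS N N1 S) \ YS E Y S) (∑ t, bS b S t)
      (hcan (unnat (NS N N1 S) \ YS E Y S) (thX (YS E Y S) τ (fun x => tS θ θ1 S (topOf x) x)))
      0 n := by
    refine ⟨H.graded, H.hlev, H.clean, ?_, H.one_le, H.le_lev⟩
    have h3 := H.zero
    rw [hz0] at h3
    exact h3
  refine FarV_dvd_ND (farV_big (B := B) hB (W.twS hS) n 0 F (W.twnS hS) ?_
    (hR Z E N N1 θ θ1 Y τ S) ?_ (fun _ _ _ => Nat.zero_le _) ?_ ?_) rfl
  · intro x hx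
    have h6 := hcost x (mem_YS.mp hx).1
    rw [← W.tcst_eq hS hx] at h6
    exact h6
  · intro z _
    exact Nat.le_add_right _ _
  · intro z hz
    have h1 : Ew.hS E N N1 θ θ1 Y τ S z ≤ lev z - i := H.le_lev z hz
    show Ew.hS E N N1 θ θ1 Y τ S z + dl Z S z ≤ lev z - i
    by_cases h : z ∈ Z ∧ ∃ x, z ⋖ x ∧ topOf x ∈ S
    · obtain ⟨h2, x, h3, h4⟩ := h
      rw [dl_of h2 h3 h4, W.hS_fl G hS h2 h3 h4]
      obtain ⟨x0, -, h5, -, -, -, h6, -⟩ := W.fl_cov G hS h2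
      rw [h5 x h3]
      omega
    · rw [dl_not h]
      exact h1
  · intro g _ hg x z hx hz hzx hlt m hm
    have hzb : z ∈ bdR (RS E N N1 Y S) := mem_filter.mpr ⟨hz, x, hx, hzx⟩
    have h1 : g z < Ew.hS E N N1 θ θ1 Y τ S z + dl Z S z := hg z hzb
    have h2 : Ew.hS E N N1 θ θ1 Y τ S z ≤ thS E θ θ1 Y τ S x + 1 := hcan_le hx hzx
    have h3 : thS E θ θ1 Y τ S x < g z := hlt
    have h4 : z ∈ Z ∧ ∃ x, z ⋖ x ∧ topOf x ∈ S := by
      by_contra hcon
      rw [dl_not hcon] at h1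
      omega
    obtain ⟨h5, x1, h6, h7⟩ := h4
    obtain ⟨x0, -, h8, -, -, -, -, h9⟩ := W.fl_cov G hS h5
    have e1 : x1 = x := (h8 x1 h6).trans (h8 x hzx).symm
    have e2 : x = x0 := h8 x hzx
    subst e1
    subst e2
    have h10 := h9 h7
    rw [dl_of h5 h6 h7] at h1
    have h11 : bS b S (topOf x1) = b (topOf x1) - 1 := if_pos h7
    rw [h11]
    exact G.big S hS z h5 x1 h6 h7 g (by omega) m hm

/-- no dangerous element iff all labels are small -/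
theorem EW.okR_iff (hS : S ⊆ E) {e : P → ℕ} {F : Finset P} (hV : Vd i e F) :
    (∀ z ∈ bdR (RS E N N1 Y S), ¬ Dgz (hR Z E N N1 θ θ1 Y τ S) e F z) ↔
      OkR Z S (RS E N N1 Y S) (thS E θ θ1 Y τ S) e := by
  classical
  constructor
  · intro h z hz x hx hzx
    have h1 : z ∈ bdR (RS E N N1 Y S) := mem_filter.mpr ⟨hz, x, hx, hzx⟩
    have h2 := h z h1
    have h3 : Ew.hS E N N1 θ θ1 Y τ S z ≤ thS E θ θ1 Y τ S x + 1 := hcan_le hx hzx
    unfold Dgz hR at h2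
    push Not at h2
    omega
  · intro h z hz hd
    obtain ⟨x, hx, hzx, hx2⟩ := hcan_spec (θ := thS E θ θ1 Y τ S) hz
    have hzR := (mem_filter.mp hz).1
    have h1 := h z hzR x hx hzx
    have h2 := W.th_le hS hx
    have h3 := W.lev_RS hS z hzR
    have h4 := W.gr.lev_covBy hzx
    have hx3 : Ew.hS E N N1 θ θ1 Y τ S z = thS E θ θ1 Y τ S x + 1 := hx2
    rcases hd with hd | hd
    · have h5 := sub_le_of_mem hV hd
      by_cases h6 : z ∈ Z ∧ ∃ x, z ⋖ x ∧ topOf x ∈ S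
      · obtain ⟨g1, x1, g2, g3⟩ := h6
        obtain ⟨x0, -, g4, -, -, -, g5, g6⟩ := W.fl_cov G hS g1
        have e1 : x1 = x := (g4 x1 g2).trans (g4 x hzx).symm
        have e2 : x = x0 := g4 x hzx
        subst e1
        subst e2
        rw [dl_of g1 g2 g3] at h1
        have := g6 g3
        omega
      · rw [dl_not h6] at h1
        omega
    · unfold hR at hd
      omega

end

end Pool.Agent.GaussPoset.Ew
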