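import Pool.Agent.W_448s7s_h5.TuH

/-!
The equivalence for the inclusion-exclusion with larger labels at some pendants below the
defect tops (MP_448cb3_co, S7, flips).
-/

namespace Pool.Agent.GaussPoset.Ew

set_option linter.unusedSectionVars false

open Polynomial Finset

universe u

variable {P : Type u} [Fintype P] [PartialOrder P] [DecidableEq P]
variable {i : ℕ} {N N1 : Tops P → Finset P} {b : Tops P → ℕ} {θ θ1 : Tops P → P → ℕ}
  {E S : Finset (Tops P)} {Y : Finset P} {τ : P → P} {Z : Finset P} {n : ℕ}

section

variable (W : EW i E N N1 b θ θ1 Y τ) (G : Fl i E N N1 b θ1 Y Z n)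

include W G

/-- **The equivalence.** -/
theorem EW.okR_iff_S (hS : S ⊆ E) {e : P → ℕ} {F : Finset P} (hV : Vd i e F) :
    OkR Z S (RS E N N1 Y S) (thS E θ θ1 Y τ S) e ↔
      (OkR Z E (RS E N N1 Y E) (thS E θ θ1 Y τ E) e ∧ KE E N θ e ⊆ S) := by
  classical
  have HS := W.natSysS hS
  have HE := W.natSysS (Finset.Subset.refl E)
  have hsub := W.RS_sub hS
  have hmono : ∀ z x1 x2 : P, z ∈ RS E N N1 Y S → x1 ∈ RS E N N1 Y S → x2 ∉ RS E N N1 Y S →
      z ≤ x1 → x1 ⋖ x2 → e x1 ≤ thS E θ θ1 Y τ S x2 → e z ≤ e x1 := by
    intro z x1 x2 hz h1 h2 hzx hc he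
    have h3 := W.th_le hS h2
    have hl2 := W.gr.lev_covBy hc
    have hl1 := W.lev_RS hS x1 h1
    have hlz := W.lev_RS hS z hz
    have hx1F : x1 ∉ F := by
      intro hF
      have := sub_le_of_mem hV hF
      omega
    have hzF : z ∉ F := fun h => hx1F (hV.1 z x1 hzx h)
    have h4 := hV.2.2.1 z x1 hzx hzF hx1F
    rw [rho_of_lt hlz, rho_of_lt hl1] at h4
    exact_mod_cast h4
  have hYE : ∀ x ∈ Y, x ∈ unnat (NS N N1 E) := fun x hx => W.tw.sub hx
  -- the larger labels below a natural element of a top outside `S`
  have hd0 : ∀ z x : P, z ⋖ x → topOf x ∉ S → dl Z S z = 0 := by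
    intro z x hzx ht
    refine dl_not ?_
    rintro ⟨h1, x1, h2, h3⟩
    obtain ⟨x0, -, h4, -⟩ := G.cov z h1
    rw [h4 x1 h2, ← h4 x hzx] at h3
    exact ht h3
  have hd1 : ∀ z x : P, z ⋖ x → (topOf x ∉ E ∨ topOf x ∈ S) → dl Z E z ≤ dl Z S z := by
    intro z x hzx ht
    by_cases h : z ∈ Z ∧ ∃ x, z ⋖ x ∧ topOf x ∈ E
    · obtain ⟨h1, x1, h2, h3⟩ := h
      obtain ⟨x0, -, h4, -⟩ := G.cov z h1
      have e1 : x1 = x := (h4 x1 h2).trans (h4 x hzx).symm
      rw [dl_of h1 hzx (ht.resolve_left (by rw [← e1]; exact not_not.mpr h3))]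
      unfold dl
      split_ifs <;> omega
    · rw [dl_not h]
      exact Nat.zero_le _
  constructor
  · intro hok
    refine ⟨?_, ?_⟩
    · intro z hz x hx hzx
      have hzS := hsub hz
      by_cases hxS : x ∈ RS E N N1 Y S
      · -- `x` is an own element of a top of `E \ S`
        have ht : topOf x ∈ E ∧ topOf x ∉ S := by
          by_contra hcon
          have ht' : topOf x ∉ E ∨ topOf x ∈ S := by
            by_cases h : topOf x ∈ E
            · exact Or.inr (by by_contra h'; exact hcon ⟨h, h'⟩)
            · exact Or.inl h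
          obtain ⟨h1, h2⟩ := mem_sdiff.mp hxS
          rw [YS_iff W ht'] at h2
          refine hx (mem_sdiff.mpr ⟨?_, by rw [YS_self]; exact h2⟩)
          by_contra h3
          exact W.nat_of_not hS h3 ht' h1
        refine le_trans ?_ (Nat.le_add_right _ _)
        by_cases hxY : x ∈ Y
        · -- a twin
          obtain ⟨g1, g2⟩ := W.twE x hxY ht.1
          have hlx := W.lev_RS hS x hxS
          have hlt : x < (topOf x : P) := by
            refine lt_of_le_of_ne (le_topOf x) fun h => ?_
            have h2 : lev (topOf x : P) = 0 := (topOf x).2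
            rw [← h] at h2
            omega
          obtain ⟨y, hy, -⟩ := exists_covBy_le_of_lt hlt
          have hyN : y ∈ N (topOf x) :=
            W.natSys.up _ _ g1 y ((W.tw.up x hxY y).mpr hy.1).le
          have hxN : x ∉ N (topOf x) := fun h => by
            have h1 := hYE x hxY
            refine mem_unnat.mp h1 (topOf x) ?_
            rw [NS_of ht.1]
            exact W.sub _ ht.1 h
          obtain ⟨f1, f2, f3⟩ := W.far_of_cov hS ht.1 ht.2 hy hyN hxN
          have h1 := hok x hxS y f2 hy
          have hty : topOf y = topOf x := W.natSys.topOf_eq hyN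
          rw [hd0 x y hy (by rw [hty]; exact ht.2), add_zero] at h1
          have h2 := hmono z x y hzS hxS f2 hzx.1.le hy h1
          rw [f3] at h1
          have h3 := g2 y hy
          have h4 : thS E θ θ1 Y τ E x = θ1 (topOf x) (τ x) := by
            unfold thS
            rw [YS_self, thX_of hxY, W.tw.cp x hxY, tS_of ht.1]
          rw [h4]
          omega
        · -- an element of the larger natural set
          have hxu : x ∉ unnat (NS N N1 E) := fun h =>
            hx (mem_sdiff.mpr ⟨h, by rw [YS_self]; exact hxY⟩)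
          have hxN1 : x ∈ N1 (topOf x) := by
            have := HE.mem_iff.mpr ⟨hxu, rfl⟩
            rwa [NS_of ht.1] at this
          have hxN : x ∉ N (topOf x) := fun h => by
            refine mem_unnat.mp (mem_sdiff.mp hxS).1 (topOf x) ?_
            rw [NS_not ht.2]
            exact h
          choose B hB using W.natS hS
          have htop0 : (topOf x : P) ∉ unnat (NS N N1 S) := by
            have h2 : lev (topOf x : P) = 0 := (topOf x).2
            exact low_natural hB (by omega)
          have hne : (topOf x : P) ∉ RS E N N1 Y S := fun h => htop0 (mem_sdiff.mp h).1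
          obtain ⟨x1, x2, f1, f2, f3, f4, f5⟩ := exists_exit hxS hne (le_topOf x)
          have hxx2 : x ≤ x2 := f1.trans f3.1.le
          have hx2E : x2 ∈ NS N N1 E (topOf x) :=
            HE.up _ x (HE.mem_iff.mpr ⟨hxu, rfl⟩) x2 hxx2
          have hx2u : x2 ∉ unnat (NS N N1 E) := (HE.mem_iff.mp hx2E).1
          have hx2S : x2 ∉ unnat (NS N N1 S) := by
            intro h
            refine f4 (mem_sdiff.mpr ⟨h, fun h' => hx2u (hYE x2 (mem_YS.mp h').1)⟩)
          have hx2N : x2 ∈ N (topOf x) := by
            have h1 := HS.mem_iff.mpr ⟨hx2S, rfl⟩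
            rw [(HE.mem_iff.mp hx2E).2, NS_not ht.2] at h1
            exact h1
          have hx1N : x1 ∉ N (topOf x) := fun h => by
            refine mem_unnat.mp (mem_sdiff.mp f2).1 (topOf x) ?_
            rw [NS_not ht.2]
            exact h
          obtain ⟨k1, k2, k3⟩ := W.far_of_cov hS ht.1 ht.2 f3 hx2N hx1N
          have h1 := hok x1 f2 x2 f4 f3
          have hty : topOf x2 = topOf x := (HE.mem_iff.mp hx2E).2
          rw [hd0 x1 x2 f3 (by rw [hty]; exact ht.2), add_zero] at h1
          have h2 := hmono z x1 x2 hzS f2 f4 (hzx.1.le.trans f1) f3 h1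
          rw [k3] at h1
          have h3 := W.le2 _ ht.1 x hxN1 hxN x2 hx2N hxx2
          have h4 : thS E θ θ1 Y τ E x = θ1 (topOf x) x := by
            unfold thS
            rw [YS_self, thX_not hxY, tS_of ht.1]
          rw [h4]
          omega
      · have h1 := hok z hzS x hxS hzx
        by_cases ht : topOf x ∉ E ∨ topOf x ∈ S
        · rw [W.thS_eq hS ht] at h1
          have := dl_mono (Z := Z) hS z
          omega
        · push Not at ht
          rw [hd0 z x hzx ht.2, add_zero] at h1
          refine le_trans ?_ (Nat.le_add_right _ _)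
          have hxYS : x ∉ YS E Y S := fun h => by
            rcases (mem_YS.mp h).2 with h | h
            · exact h ht.1
            · exact ht.2 h
          have hxu : x ∉ unnat (NS N N1 S) := fun h => hxS (mem_sdiff.mpr ⟨h, hxYS⟩)
          have hxN : x ∈ N (topOf x) := by
            have := HS.mem_iff.mpr ⟨hxu, rfl⟩
            rwa [NS_not ht.2] at this
          have hxY : x ∉ Y := fun h => by
            refine mem_unnat.mp (hYE x h) (topOf x) ?_
            rw [NS_of ht.1]
            exact W.sub _ ht.1 hxN
          have h5 : thS E θ θ1 Y τ S x = θ (topOf x) x := by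
            unfold thS
            rw [thX_not hxYS, tS_not ht.2]
          have h6 : thS E θ θ1 Y τ E x = θ1 (topOf x) x := by
            unfold thS
            rw [YS_self, thX_not hxY, tS_of ht.1]
          have h7 := W.le1 _ ht.1 x hxN
          rw [h5] at h1
          rw [h6]
          omega
    · intro t ht
      obtain ⟨htE, z, x, hzx, hx, hz, hlt⟩ := mem_KE.mp ht
      by_contra htS
      obtain ⟨g1, g2, g3⟩ := W.far_of_cov hS htE htS hzx hx hz
      have h1 := hok z g1 x g2 hzx
      have hty : topOf x = t := W.natSys.topOf_eq hx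
      rw [hd0 z x hzx (by rw [hty]; exact htS), add_zero] at h1
      omega
  · rintro ⟨hok, hK⟩ z hz x hx hzx
    by_cases ht : topOf x ∉ E ∨ topOf x ∈ S
    · rw [W.thS_eq hS ht]
      have hxE : x ∉ RS E N N1 Y E := fun h => hx (hsub h)
      have hzE : z ∈ RS E N N1 Y E := by
        refine mem_sdiff.mpr ⟨?_, ?_⟩
        · by_contra hcon
          have h1 : topOf z = topOf x := HE.cp z x hzx.1.le hcon
          exact W.nat_of_not hS hcon (by rw [h1]; exact ht) (mem_sdiff.mp hz).1
        · rw [YS_self]
          intro hzY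
          have h2 := W.tw.nat z hzY
          have h3 : τ z < x := (W.tw.up z hzY x).mpr hzx.1
          have h4 : topOf (τ z) = topOf x := HE.cp _ _ h3.le h2
          rw [W.tw.cp z hzY] at h4
          exact (mem_sdiff.mp hz).2 (mem_YS.mpr ⟨hzY, by rw [h4]; exact ht⟩)
      have h1 := hok z hzE x hxE hzx
      have := hd1 z x hzx ht
      omega
    · push Not at ht
      refine le_trans ?_ (Nat.le_add_right _ _)
      have hxYS : x ∉ YS E Y S := fun h => by
        rcases (mem_YS.mp h).2 with h | h
        · exact h ht.1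
        · exact ht.2 h
      have hxu : x ∉ unnat (NS N N1 S) := fun h => hx (mem_sdiff.mpr ⟨h, hxYS⟩)
      have hxN : x ∈ N (topOf x) := by
        have := HS.mem_iff.mpr ⟨hxu, rfl⟩
        rwa [NS_not ht.2] at this
      have hzN : z ∉ N (topOf x) := by
        intro h
        refine mem_unnat.mp (mem_sdiff.mp hz).1 (topOf x) ?_
        rw [NS_not ht.2]
        exact h
      have h6 : thS E θ θ1 Y τ S x = θ (topOf x) x := by
        unfold thS
        rw [thX_not hxYS, tS_not ht.2]
      rw [h6]
      by_contra hcon
      push Not at hcon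
      exact ht.2 (hK (mem_KE.mpr ⟨ht.1, z, x, hzx, hxN, hzN, hcon⟩))

end

end Pool.Agent.GaussPoset.Ew
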