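import Pool.Agent.W_448s7s_h5.TuHb

/-!
The window theorem with larger labels at some pendants below the defect tops
(MP_448cb3_co, S7, flips).
-/

namespace Pool.Agent.GaussPoset.Ew

set_option linter.unusedSectionVars false

open Polynomial Finset

universe u

variable {P : Type u} [Fintype P] [PartialOrder P] [DecidableEq P]
variable {i : ℕ} {N N1 : Tops P → Finset P} {b : Tops P → ℕ} {θ θ1 : Tops P → P → ℕ}
  {E S : Finset (Tops P)} {Y : Finset P} {τ : P → P} {Z : Finset P} {n : ℕ}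

section

variable (W : EW i E N N1 b θ θ1 Y τ) (G : Fl i E N N1 b θ1 Y Z n)

include W G

/-- the larger labels are at most the level -/
lemma EW.hR_bd (hS : S ⊆ E)
    (hcost : ∀ x ∈ Y, n < tcst i (thS E θ θ1 Y τ E) (τ x, x)) {z : P}
    (hz : z ∈ bdR (RS E N N1 Y S)) :
    1 ≤ hR Z E N N1 θ θ1 Y τ S z ∧ hR Z E N N1 θ θ1 Y τ S z ≤ lev z - i := by
  have H := W.farX hS n (fun x hx => (hcost x hx).le)
  have h1 : Ew.hS E N N1 θ θ1 Y τ S z ≤ lev z - i := H.le_lev z hz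
  have h0 : 1 ≤ Ew.hS E N N1 θ θ1 Y τ S z := H.one_le z hz
  refine ⟨?_, ?_⟩
  · show 1 ≤ Ew.hS E N N1 θ θ1 Y τ S z + dl Z S z
    omega
  · show Ew.hS E N N1 θ θ1 Y τ S z + dl Z S z ≤ lev z - i
    by_cases h : z ∈ Z ∧ ∃ x, z ⋖ x ∧ topOf x ∈ S
    · obtain ⟨h2, x, h3, h4⟩ := h
      rw [dl_of h2 h3 h4, W.hS_fl G hS h2 h3 h4]
      obtain ⟨x0, -, h5, -, -, -, h6, -⟩ := W.fl_cov G hS h2
      rw [h5 x h3]
      omega
    · rw [dl_not h]
      exact h1

/-- **The window theorem with larger labels at the flips.**  The least cost in the coarse system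
is `n` and no configuration of energy `n` hits more than `d` tops of `E`. -/
theorem EW.signR {d : ℕ} (hB : ∑ t, b t = (lv P i).card)
    (hZ : (1 + X : ℤ[X]) ^ (lv P i).card ∣ GaussPoset.Z P i n)
    (hcost : ∀ x ∈ Y, n < tcst i (thS E θ θ1 Y τ E) (τ x, x))
    (hmin : ∀ z ∈ bdR (RS E N N1 Y E), n ≤ cst i (hR Z E N N1 θ θ1 Y τ E) z)
    (hK : ∀ e F, Vd i e F → ∑ x, e x = n →
      OkR Z E (RS E N N1 Y E) (thS E θ θ1 Y τ E) e → (KE E N θ e).card ≤ d)
    {c0 : ℕ} (hc : c0 + d < (lv P i).card)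
    (hle : ∀ z ∈ bdR (RS E N N1 Y E), cst i (hR Z E N N1 θ θ1 Y τ E) z = n →
      c0 + nab i z ≤ (lv P i).card + nab (i + hR Z E N N1 θ θ1 Y τ E z) z) :
    ∑ z ∈ (bdR (RS E N N1 Y E)).filter (fun z => cst i (hR Z E N N1 θ θ1 Y τ E) z = n ∧
        c0 + nab i z = (lv P i).card + nab (i + hR Z E N N1 θ θ1 Y τ E z) z),
      (-1 : ℤ) ^ (nst i (hR Z E N N1 θ θ1 Y τ E) z) = 0 := by
  classical
  have hEE := Finset.Subset.refl E
  have key := far_ie_sign (i := i) (n := n) (d := d) (b := (lv P i).card - d)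
    (fun e _ => OkR Z E (RS E N N1 Y E) (thS E θ θ1 Y τ E) e) (fun e _ => KE E N θ e) E
    (fun S => RS E N N1 Y S) (fun S => hR Z E N N1 θ θ1 Y τ S)
    (fun e F => by
      intro t ht
      exact (mem_KE.mp ht).1)
    (fun S hS hSd => by
      refine dvd_trans (pow_dvd_pow _ ?_) (W.farR G hS hcost)
      have := W.sum_bS hS
      omega)
    (fun S hS _ e F hV _ => by
      rw [W.okR_iff G hS hV]
      exact W.okR_iff_S G hS hV)
    (dvd_trans (pow_dvd_pow _ (Nat.sub_le _ _)) hZ) W.gr (hR Z E N N1 θ θ1 Y τ E)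
    ((bdR (RS E N N1 Y E)).filter (fun z => cst i (hR Z E N N1 θ θ1 Y τ E) z = n))
    (fun z hz => W.hR_bd G hEE hcost (mem_filter.mp hz).1)
    (fun z hz => (mem_filter.mp hz).2)
    (fun z hz F hV h => by
      have hz' := (mem_filter.mp hz).1
      obtain ⟨x, hx, hzx, hx2⟩ := hcan_spec (θ := thS E θ θ1 Y τ E) hz'
      have h1 := h.1 z (mem_filter.mp hz').1 x hx hzx
      rw [ez_self (W.hR_bd G hEE hcost hz').2] at h1
      have h2 : Ew.hS E N N1 θ θ1 Y τ E z = thS E θ θ1 Y τ E x + 1 := hx2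
      have h3 : hR Z E N N1 θ θ1 Y τ E z = Ew.hS E N N1 θ θ1 Y τ E z + dl Z E z := rfl
      omega)
    (fun e F hV hs hbad => by
      have hq : ¬ OkR Z E (RS E N N1 Y E) (thS E θ θ1 Y τ E) e := fun h =>
        hbad ⟨h, hK e F hV hs h⟩
      rw [← W.okR_iff G hEE hV] at hq
      push Not at hq
      obtain ⟨z, hz, hd⟩ := hq
      have h4 : ∀ x, ez i (hR Z E N N1 θ θ1 Y τ E) z x ≤ e x :=
        ez_le hV (W.lev_RS hEE z (mem_filter.mp hz).1) hd
      have h6 : cst i (hR Z E N N1 θ θ1 Y τ E) z ≤ n := by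
        rw [← hs]; exact Finset.sum_le_sum fun x _ => h4 x
      have h7 : cst i (hR Z E N N1 θ θ1 Y τ E) z = n := le_antisymm h6 (hmin z hz)
      refine ⟨z, mem_filter.mpr ⟨hz, h7⟩, ?_⟩
      funext x
      have h9 : ∑ x, ez i (hR Z E N N1 θ θ1 Y τ E) z x = ∑ x, e x := by
        rw [hs]; exact h7
      exact ((Finset.sum_eq_sum_iff_of_le (fun x _ => h4 x)).mp h9 x (mem_univ x)).symm)
    (c0 := c0) (by omega)
    (fun z hz => hle z (mem_filter.mp hz).1 (mem_filter.mp hz).2)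
  rw [Finset.filter_filter] at key
  exact key

end

end Pool.Agent.GaussPoset.Ew
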