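import Pool.Agent.W_448s7s_h5.TuG
import Pool.Agent.W_448s7s_h5.TuI
import Pool.Agent.W_448f4_h70.IB
import Pool.Agent.W_448f4_h70.GT

/-!
The cells of the flips and of the special twins at window `4`, `j = 13` (MP_448cb3_co, S7).
-/

namespace Pool.Agent.GaussPoset.Ec

set_option linter.unusedSectionVars false

open Polynomial Finset Sm Wd Cp W4 Cl

universe u

variable {P : Type u} [Fintype P] [PartialOrder P] [DecidableEq P] {r : ℕ}

section

variable {t : Tops P} {lo hi : ℕ → ℕ} {e : ℕ → ℕ → P} {N : Finset P} {θ4 θ5 : P → ℕ}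
  {Nf : Finset P} {θf : (ℕ → ℕ → ℕ) → P → ℕ} {d : Prop}

/-- the type of the top of a flip -/
theorem FineZ.flip (F : FineZ 13 t lo hi e N θ4 θ5 (hi 4 - lo 4 + 1) Nf θf d)
    (C : Comp 13 (t : P) lo hi e) {x : P} (hxt : x ≤ (t : P)) (hl : lev x = 13)
    (n3 : nab 3 x = 2) (n4 : nab 4 x = 3) (n8 : nab 8 x = 5) (n9 : nab 9 x = 4) :
    d ∧ x ∈ N ∧ Nf = N ∧ hi 4 - lo 4 + 1 = 3 ∧ θ5 x = 7 ∧
      ∀ Nc co, StairNat 13 4 t Nc co → N = natS Nc co →
        x ∉ junk (fun c => c.1 ≤ c.2) Nc co ∧ 1 ≤ (co x).1 := by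
  have key : ∀ Nc co, StairNat 13 4 t Nc co → x ∈ Nc ∧ (co x).1 = 5 ∧ (co x).2 = 8 ∧
      x ∉ junk (fun c => c.1 ≤ c.2) Nc co := by
    intro Nc co h0
    have hx : x ∈ Nc := h0.strip (mem_lowPart.mpr ⟨hxt, by omega⟩)
    have k1 := h0.chart.lev x hx
    have k2 : (co x).1 ≤ (co x).2 := h0.chart.mem x hx
    have k8 := stair_nab h0.chart hx (k := 8) (by omega)
    have k9 := stair_nab h0.chart hx (k := 9) (by omega)
    rw [n8] at k8
    rw [n9] at k9
    refine ⟨hx, by omega, by omega, not_junk_above h0.chart hx (by omega) le_rfl⟩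
  rcases F with ⟨h1, h2, h3, h4, h5, h6, h7, h9⟩ | ⟨c, Nc, co, h0, h1, h2, h3, h4, h5, h6, h7, h9⟩ |
    ⟨h0, h1, h2, h3, h4, h5, h6, h7, h8, h9⟩ | ⟨Nc, co, h0, h1, h2, h3, h4, h5, h6, h9⟩
  · exfalso
    have := nab_le_width C (h7 x hxt (by omega)) (k := 4) (by omega)
    omega
  · exfalso
    have hx : x ∈ Nc := h0.strip (mem_lowPart.mpr ⟨hxt, by omega⟩)
    have k1 := h0.chart.lev x hx
    have k3 := rect_nab h0.chart hx (k := 3) (by omega)
    have k4 := rect_nab h0.chart hx (k := 4) (by omega)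
    omega
  · exfalso
    have := nab_le_width C (h7 x hxt (by omega)) (k := 4) (by omega)
    omega
  · obtain ⟨a1, a2, a3, a4⟩ := key Nc co h0
    refine ⟨h6, by rw [h1]; exact mem_natS.mpr (Or.inl a1), h4, h3, ?_, ?_⟩
    · obtain ⟨-, -, e3⟩ := th_stair h0 a1 a4
      rw [h9, e3, a2, a3]
      rfl
    · intro Nc' co' h0' _
      obtain ⟨b1, b2, b3, b4⟩ := key Nc' co' h0'
      exact ⟨b4, by omega⟩

/-- the thresholds of the special cells -/
theorem FineZ.spc_ge (F : FineZ 13 t lo hi e N θ4 θ5 (hi 4 - lo 4 + 1) Nf θf d) {x : P}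
    (hx : x ∈ N) (hl : lev x = 14) (n3 : nab 3 x = 2) (n4 : nab 4 x = 3)
    (n10 : nab 10 x = 3) (n13 : nab 13 x = 2) : 9 ≤ θ5 x := by
  rcases F with ⟨h1, h2, h3, h4, h5, h6, h7, h9⟩ | ⟨c, Nc, co, h0, h1, h2, h3, h4, h5, h6, h7, h9⟩ |
    ⟨h0, h1, h2, h3, h4, h5, h6, h7, h8, h9⟩ | ⟨Nc, co, h0, h1, h2, h3, h4, h5, h6, h9⟩
  · rw [h9, h2]
    show 9 ≤ lev x - 4
    omega
  · rw [h9, h2]
    unfold thR
    by_cases hJ : x ∈ junk (fun _ => True) Nc co ∨ x ∈ junk (fun _ => True) Nc (swp co)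
    · rw [if_pos hJ]
      omega
    · exfalso
      rw [h1, mem_natR] at hx
      have hxN : x ∈ Nc := by
        rcases hx with hx | hx | hx
        · exact hx
        · exact absurd (Or.inl hx) hJ
        · exact absurd (Or.inr hx) hJ
      have k1 := h0.chart.lev x hxN
      have k3 := rect_nab h0.chart hxN (k := 3) (by omega)
      have k4 := rect_nab h0.chart hxN (k := 4) (by omega)
      omega
  · rw [h9, h2]
    show 9 ≤ lev x - 4
    omega
  · by_cases hJ : x ∈ junk (fun c => c.1 ≤ c.2) Nc co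
    · rw [h9]
      unfold thD
      rw [if_pos hJ]
      omega
    · rw [h1, mem_natS] at hx
      have hxN := hx.resolve_right hJ
      obtain ⟨-, -, e3⟩ := th_stair h0 hxN hJ
      have k1 := h0.chart.lev x hxN
      have k2 : (co x).1 ≤ (co x).2 := h0.chart.mem x hxN
      have k10 := stair_nab h0.chart hxN (k := 10) (by omega)
      have k13 := stair_nab h0.chart hxN (k := 13) (by omega)
      rw [h9, e3]
      omega

end

variable {lo hi : Tops P → ℕ → ℕ} {e : Tops P → ℕ → ℕ → P} {N : Tops P → Finset P}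
  {θ3 θ4 θ5 : Tops P → P → ℕ} {Nf : Tops P → Finset P} {θf : Tops P → (ℕ → ℕ → ℕ) → P → ℕ}
  {D : Tops P → Prop} {K3 : ℕ} {b : Tops P → ℕ}

/-- the numbers of a special cell of `j = 13` -/
lemma spc13 {x : P} (h : Spc 13 3 N b θ3 x) : lev x = 14 ∧ nab 3 x = 2 ∧ nab 4 x = 3 ∧
    nab 5 x = 3 ∧ nab 6 x = 3 ∧ nab 7 x = 3 ∧ nab 8 x = 3 ∧ nab 9 x = 3 ∧ nab 10 x = 3 ∧
    nab 11 x = 3 ∧ nab 12 x = 3 ∧ nab 13 x = 2 ∧ nab 14 x = 1 := by
  obtain ⟨Nc, co, C⟩ := h
  have h0 := C.lev (by omega)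
  have h3 := C.nab (by omega) (k := 3) (by omega)
  have h4 := C.nab (by omega) (k := 4) (by omega)
  have h5 := C.nab (by omega) (k := 5) (by omega)
  have h6 := C.nab (by omega) (k := 6) (by omega)
  have h7 := C.nab (by omega) (k := 7) (by omega)
  have h8 := C.nab (by omega) (k := 8) (by omega)
  have h9 := C.nab (by omega) (k := 9) (by omega)
  have h10 := C.nab (by omega) (k := 10) (by omega)
  have h11 := C.nab (by omega) (k := 11) (by omega)
  have h12 := C.nab (by omega) (k := 12) (by omega)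
  have h13 := C.nab (by omega) (k := 13) (by omega)
  have h14 := C.nab (by omega) (k := 14) (by omega)
  refine ⟨h0, ?_, ?_, ?_, ?_, ?_, ?_, ?_, ?_, ?_, ?_, ?_, ?_⟩ <;> omega

/-- the numbers of the cell above a flip -/
lemma flp13 {x : P} {Nc : Finset P} {co : P → ℕ × ℕ} (C : FlpC 13 3 N b θ3 x Nc co) :
    lev x = 13 ∧ nab 3 x = 2 ∧ nab 4 x = 3 ∧
    nab 5 x = 3 ∧ nab 6 x = 4 ∧ nab 7 x = 4 ∧ nab 8 x = 5 ∧ nab 9 x = 4 ∧ nab 10 x = 4 ∧
    nab 11 x = 3 ∧ nab 12 x = 2 ∧ nab 13 x = 1 := by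
  have h0 := C.lev (by omega)
  have h3 := C.nab (by omega) (k := 3) (by omega)
  have h4 := C.nab (by omega) (k := 4) (by omega)
  have h5 := C.nab (by omega) (k := 5) (by omega)
  have h6 := C.nab (by omega) (k := 6) (by omega)
  have h7 := C.nab (by omega) (k := 7) (by omega)
  have h8 := C.nab (by omega) (k := 8) (by omega)
  have h9 := C.nab (by omega) (k := 9) (by omega)
  have h10 := C.nab (by omega) (k := 10) (by omega)
  have h11 := C.nab (by omega) (k := 11) (by omega)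
  have h12 := C.nab (by omega) (k := 12) (by omega)
  have h13 := C.nab (by omega) (k := 13) (by omega)
  refine ⟨h0, ?_, ?_, ?_, ?_, ?_, ?_, ?_, ?_, ?_, ?_, ?_⟩ <;> omega

/-- the cost of a special cell with the label `10` -/
lemma spc13_cst {x : P} (h : Spc 13 3 N b θ3 x) : cst 4 (fun _ => 10) x = 136 := by
  obtain ⟨h0, h3, h4, h5, h6, h7, h8, h9, h10, h11, h12, h13, h14⟩ := spc13 h
  rw [cst_shift (i := 4) (a := 10) h0]
  simp only [Finset.sum_range_succ, Finset.sum_range_zero]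
  norm_num [h4, h5, h6, h7, h8, h9, h10, h11, h12, h13, h14]

/-- the cost of the cell above a flip with the label `9` -/
lemma flp13_cst {x : P} {Nc : Finset P} {co : P → ℕ × ℕ} (C : FlpC 13 3 N b θ3 x Nc co) :
    cst 4 (fun _ => 9) x = 133 := by
  obtain ⟨h0, h3, h4, h5, h6, h7, h8, h9, h10, h11, h12, h13⟩ := flp13 C
  rw [cst_shift (i := 4) (a := 9) h0]
  simp only [Finset.sum_range_succ, Finset.sum_range_zero]
  norm_num [h4, h5, h6, h7, h8, h9, h10, h11, h12, h13]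

end Pool.Agent.GaussPoset.Ec
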