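import Pool.Agent.W_448s7s_h5.TuJ

/-!
The costs of the special cells and of the flips at window `4`, `j = 13` (MP_448cb3_co, S7).
-/

namespace Pool.Agent.GaussPoset.Ec

set_option linter.unusedSectionVars false

open Polynomial Finset Sm Wd Cp W4 Cl

universe u

variable {P : Type u} [Fintype P] [PartialOrder P] [DecidableEq P] {r : ℕ}
  {lo hi : Tops P → ℕ → ℕ} {e : Tops P → ℕ → ℕ → P} {N : Tops P → Finset P}
  {θ3 θ4 θ5 : Tops P → P → ℕ} {Nf : Tops P → Finset P} {θf : Tops P → (ℕ → ℕ → ℕ) → P → ℕ}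
  {D : Tops P → Prop} {K3 : ℕ} {b : Tops P → ℕ}

/-- the typing of the least costs at window `4`, small thresholds, `j = 13` -/
structure Nz5 (P : Type u) [Fintype P] [PartialOrder P] [DecidableEq P] (N : Tops P → Finset P)
    (b : Tops P → ℕ) (θ3 θ4 : Tops P → P → ℕ) : Prop where
  bd : ∀ z ∈ bdR (rA N), PenS 13 3 N b θ3 z ∨ PenF 13 3 N b θ3 z ∨ 145 ≤ cst 4 (hA N θ4) z
  tw : ∀ x ∈ twA N, Spc 13 3 N b θ3 (twT N x) ∨ 145 < tcst 4 (thA N θ4) (twT N x, x)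
  eq : ∀ z ∈ bdR (rA N), cst 4 (hA N θ4) z = 145 → PenS 13 3 N b θ3 z ∨ PenF 13 3 N b θ3 z ∨
    (hA N θ4 z = lev z - 4 ∧ 145 = ful 4 z ∧ ∃ x x', Cg z x x')

section

variable (F : Fz P 13 lo hi e N θ4 θ5 Nf θf D) (W : Wk r 13 3 K3 N b θ3)

include F W

lemma Fz.spc_th {x : P} (hx : x ∉ unnat N) (h : Spc 13 3 N b θ3 x) : 9 ≤ θ5 (topOf x) x := by
  obtain ⟨h0, h3, h4, -, -, -, -, -, h10, -, -, h13, -⟩ := spc13 h
  exact (F.typ (topOf x)).spc_ge (W.natSys.mem_iff.mpr ⟨hx, rfl⟩) h0 h3 h4 h10 h13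

/-- the special twins -/
lemma Fz.spc_tw {x : P} (hx : x ∈ twA N) (h : Spc 13 3 N b θ3 (twT N x)) :
    thA N θ5 (twT N x) = 9 ∧ lev (twT N x) = 14 ∧ tcst 4 (thA N θ5) (twT N x, x) = 145 := by
  have h1 := mem_twA.mp hx
  have h3 := twT_spec h1.2
  have h2 := F.spc_th W h3.1 h
  have h0 := (spc13 h).1
  have T := F.tw W (by omega) hx
  have e1 : thA N θ5 (twT N x) = θ5 (topOf (twT N x)) (twT N x) := thX_not (W.not_tw h3.1)
  obtain ⟨g1, g2, g3, g4⟩ := T.th (by omega)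
  have e2 : thA N θ5 (twT N x) = 9 := by omega
  refine ⟨e2, h0, ?_⟩
  have e3 := tcst_cst (F.twn W (by omega) hx)
  simp only at e3
  rw [e3, e2, spc13_cst h]

/-- the twins which are not special -/
lemma Fz.tcst_ge {x : P} (hx : x ∈ twA N) :
    tcst 4 (thA N θ4) (twT N x, x) ≤ tcst 4 (thA N θ5) (twT N x, x) := by
  have h1 := mem_twA.mp hx
  have h3 := twT_spec h1.2
  have hlt := W.lt_lev h1.1
  have hll := W.twSys.lev hx
  exact tcst_mono_th (F.thA_le W (by omega) (fun h => h3.1 (mem_rA.mp h).1) (by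
    show 7 ≤ lev (twT N x)
    omega))

/-- the costs at least those with the small thresholds -/
lemma Fz.cst_ge {z : P} (hz : z ∈ bdR (rA N)) : cst 4 (hA N θ4) z ≤ cst 4 (hA N θ5) z :=
  cst_mono_h (F.hA_le W (by omega) hz)

/-- the pendants below a special cell -/
lemma Fz.penS_ge {z : P} (hz : PenS 13 3 N b θ3 z) : 146 ≤ cst 4 (hA N θ5) z := by
  obtain ⟨p1, p2, p3⟩ := W.penS hz
  obtain ⟨h1, x, h2, h3, h4, h5⟩ := hz
  have H := W.gt.H.gradedBelow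
  have e1 := H.lev_covBy h3
  have g7 := W.bs h2
  obtain ⟨x0, f1, f2, f3⟩ := hcan_spec (θ := thA N θ5) p3
  have e4 := h4 x0 f2
  subst e4
  have f3' : hA N θ5 z = thA N θ5 x0 + 1 := f3
  have hth : 9 ≤ thA N θ5 x0 := by
    rcases not_mem_rA.mp h2 with h | h
    · have e5 : GaussPoset.bs N x0 = x0 := by
        unfold GaussPoset.bs
        rw [if_neg (W.not_tw h)]
      rw [e5] at h5
      have e2 : thA N θ5 x0 = θ5 (topOf x0) x0 := thX_not (W.not_tw h)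
      rw [e2]
      exact F.spc_th W h h5
    · have e5 : GaussPoset.bs N x0 = twT N x0 := by
        unfold GaussPoset.bs
        rw [if_pos h]
      rw [e5] at h5
      have e2 : thA N θ5 x0 = θ5 (topOf (twT N x0)) (twT N x0) := thA_tw4 h
      rw [e2]
      exact F.spc_th W (twT_spec (mem_twA.mp h).2).1 h5
  have h6 : cst 4 (fun _ => 10) z ≤ cst 4 (hA N θ5) z := by
    refine cst_mono_h ?_
    show 10 ≤ hA N θ5 z
    omega
  have h7 : cst 4 (fun _ => 10) x0 = 136 := by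
    rw [← cst_const_congr g7.lev g7.nab]
    exact spc13_cst h5
  rw [cst_only (h := fun _ => 10) H h3 h4, h7, p2] at h6
  exact h6

/-- the flips: cell and label -/
lemma Fz.flp_cell (K : Ctx P r 13 lo hi e) {x : P} (hx : x ∉ unnat N) {Nc : Finset P}
    {co : P → ℕ × ℕ} (C : FlpC 13 3 N b θ3 x Nc co) :
    topOf x ∈ ED D ∧ x ∈ N (topOf x) ∧ Nf (topOf x) = N (topOf x) ∧
      hi (topOf x) 4 - lo (topOf x) 4 + 1 = 3 ∧ θ5 (topOf x) x = 7 ∧
      ∀ Nc co, StairNat 13 4 (topOf x) Nc co → N (topOf x) = natS Nc co →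
        x ∉ junk (fun c => c.1 ≤ c.2) Nc co ∧ 1 ≤ (co x).1 := by
  obtain ⟨h0, h3, h4, -, -, -, h8, h9, -, -, -, -⟩ := flp13 C
  obtain ⟨a1, a2, a3, a4, a5, a6⟩ := (F.typ (topOf x)).flip (K.comp (topOf x)) (le_topOf x) h0
    h3 h4 h8 h9
  exact ⟨mem_ED.mpr a1, a2, a3, a4, a5, a6⟩

end

end Pool.Agent.GaussPoset.Ec
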