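import Pool.Agent.W_448s7s_h5.TuK

/-!
The flips at window `4`, `j = 13`: the larger labels (MP_448cb3_co, S7).
-/

namespace Pool.Agent.GaussPoset.Ec

set_option linter.unusedSectionVars false

open Polynomial Finset Sm Wd Cp W4 Cl

universe u

variable {P : Type u} [Fintype P] [PartialOrder P] [DecidableEq P] {r : ℕ}
  {lo hi : Tops P → ℕ → ℕ} {e : Tops P → ℕ → ℕ → P} {N : Tops P → Finset P}
  {θ3 θ4 θ5 : Tops P → P → ℕ} {Nf : Tops P → Finset P} {θf : Tops P → (ℕ → ℕ → ℕ) → P → ℕ}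
  {D : Tops P → Prop} {K3 : ℕ} {b : Tops P → ℕ}

open Classical in
/-- the flips -/
noncomputable def ZF (P : Type u) [Fintype P] [PartialOrder P] [DecidableEq P]
    (N : Tops P → Finset P) (b : Tops P → ℕ) (θ3 : Tops P → P → ℕ) : Finset P :=
  univ.filter (fun z => PenF 13 3 N b θ3 z)

lemma mem_ZF {z : P} : z ∈ ZF P N b θ3 ↔ PenF 13 3 N b θ3 z := by
  classical
  unfold ZF
  rw [mem_filter]
  exact ⟨fun h => h.2, fun h => ⟨mem_univ _, h⟩⟩

section

variable (F : Fz P 13 lo hi e N θ4 θ5 Nf θf D) (W : Wk r 13 3 K3 N b θ3)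

include F W

/-- the part of the top of a flip -/
theorem Fz.flp_big (K : Ctx P r 13 lo hi e) {S : Finset (Tops P)} (hS : S ⊆ ED D) {z x : P}
    (hz : PenF 13 3 N b θ3 z) (hzx : z ⋖ x) {g : P → ℕ} (hg : g z = 8) {m : ℕ}
    (hm : m + ∑ x ∈ Ew.RS (ED D) Nf N (twA N) S, g x ≤ 142) :
    (1 + X : ℤ[X]) ^ 2 ∣
      ZB (P := {y : P // y ∉ Ew.RS (ED D) Nf N (twA N) S ∧ topOf y = topOf x}) 4 ∅ 0
        (fun y => by
          classical exact ((Ew.RS (ED D) Nf N (twA N) S).filter (fun z => z ⋖ (y : P))).sup g)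
        m := by
  classical
  have WE := F.ew K (by omega) W
  obtain ⟨q1, q2, q3, -⟩ := W.penF hz
  obtain ⟨hzR, x1, h2, h4, Nc, co, C⟩ := hz
  have hxx := h4 x hzx
  subst hxx
  have hlx := (flp13 C).1
  have hx : x ∉ unnat N := W.low (by omega)
  have HS := WE.natSysS hS
  have HE := WE.natSysS (Finset.Subset.refl (ED D))
  have hzRE : z ∈ Ew.RS (ED D) Nf N (twA N) (ED D) := by rw [F.RS_eq]; exact hzR
  have hzS := WE.RS_sub hS hzRE
  have hxS : x ∉ Ew.RS (ED D) Nf N (twA N) S := by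
    intro h
    have h1 := WE.lev_RS hS x h
    have h5 := (F.flp_cell W K hx C)
    have h6 : x ∈ Nf (topOf x) := by rw [h5.2.2.1]; exact h5.2.1
    have h7 : x ∈ Ew.NS Nf N S (topOf x) := by
      by_cases hs : topOf x ∈ S
      · rw [Ew.NS_of hs]
        exact h5.2.1
      · rw [Ew.NS_not hs]
        exact h6
    exact mem_unnat.mp (mem_sdiff.mp h).1 _ h7
  set R := Ew.RS (ED D) Nf N (twA N) S with hR
  have hp : ∀ x' y : P, x' ≤ y → (x' ∉ R ∧ topOf x' = topOf x) → (y ∉ R ∧ topOf y = topOf x) :=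
    pg_part_up ((WE.twS hS).lower HS.lower) ((WE.twS hS).cp' HS.cp)
  have hE : cst 4 (fun _ => 8 + 1) z = F4.Efs 4 8 x x + 8 + 2 :=
    cst_pen hzx h4 (by omega) (by omega)
  have hC : cst 4 (fun _ => 8 + 1) z = 142 := by
    rw [cst_only (h := fun _ => 8 + 1) W.gt.H.gradedBelow hzx h4]
    have := flp13_cst C
    rw [show (8 + 1 : ℕ) = 9 from rfl, this, q2]
    rfl
  have hsz : 8 ≤ ∑ x ∈ R, g x := by
    rw [← hg]
    exact Finset.single_le_sum (f := g) (fun _ _ => Nat.zero_le _) hzS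
  have hBx : 8 ≤ (R.filter (fun z => z ⋖ x)).sup g := by
    rw [← hg]
    exact Finset.le_sup (f := g) (mem_filter.mpr ⟨hzS, hzx⟩)
  by_cases hbigz : ∃ z' ∈ R, 8 < g z'
  · obtain ⟨z', hz', hk'⟩ := hbigz
    have hne' : z' ≠ z := by
      rintro rfl
      omega
    have h8 : g z + g z' ≤ ∑ x ∈ R, g x := by
      rw [← Finset.sum_pair (f := g) hne'.symm]
      refine Finset.sum_le_sum_of_subset ?_
      intro y hy
      rw [mem_insert, mem_singleton] at hy
      rcases hy with rfl | rfl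
      · exact hzS
      · exact hz'
    rw [F4.part_zero hp (i := 4) (k := 8) (f := x) (s := x) ⟨hxS, rfl⟩ ⟨hxS, rfl⟩ hBx hBx
      (by omega)]
    exact dvd_zero _
  · push Not at hbigz
    have hBle : ∀ y : P, (R.filter (fun z => z ⋖ y)).sup g ≤ 8 := by
      intro y
      refine Finset.sup_le fun z' hz' => ?_
      exact hbigz z' (mem_filter.mp hz').1
    refine F4.part_coneG hp (i := 4) (h := 8) (A := 5) (x := x) ⟨hxS, rfl⟩ C.cone (by omega)
      (by omega) (by omega) (fun y hy hly => ?_) (fun y => hBle y)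
      (le_antisymm (hBle x) hBx) (by omega)
    have hyN : y ∈ Nc := by
      refine C.nat.strip (mem_lowPart.mpr ⟨?_, by omega⟩)
      rw [← hy.2]
      exact le_topOf y
    have h5 := C.nat.chart.lev y hyN
    have h6 : (co y).1 ≤ (co y).2 := C.nat.chart.mem y hyN
    rw [C.nat.chart.le_iff x C.mem y hyN, C.co_eq]
    exact ⟨by simp only; omega, by simp only; omega⟩

/-- the flips may have a larger label -/
theorem Fz.fl (K : Ctx P r 13 lo hi e) :
    Ew.Fl 4 (ED D) Nf N (fun t => hi t 4 - lo t 4 + 1) θ5 (twA N) (ZF P N b θ3) 142 where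
  mem := by
    intro z hz
    rw [F.RS_eq]
    exact (mem_ZF.mp hz).1
  cov := by
    intro z hz
    have hz' := mem_ZF.mp hz
    obtain ⟨q1, q2, q3, -⟩ := W.penF hz'
    obtain ⟨hzR, x, h2, h4, Nc, co, C⟩ := hz'
    have hlx := (flp13 C).1
    have hx : x ∉ unnat N := W.low (by omega)
    obtain ⟨a1, a2, a3, a4, a5, a6⟩ := F.flp_cell W K hx C
    exact ⟨x, h2, h4, a1, by rw [a3]; exact a2, by rw [a5]; omega⟩
  big := by
    intro S hS z hz x hzx ht g hg m hm
    have hz' := mem_ZF.mp hz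
    obtain ⟨hzR, x1, h2, h4, Nc, co, C⟩ := hz'
    have hxx := h4 x hzx
    subst hxx
    have hlx := (flp13 C).1
    have hx : x ∉ unnat N := W.low (by omega)
    obtain ⟨a1, a2, a3, a4, a5, a6⟩ := F.flp_cell W K hx C
    rw [a4]
    rw [a5] at hg
    exact F.flp_big W K hS (mem_ZF.mp hz) hzx hg hm

end

end Pool.Agent.GaussPoset.Ec
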