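import Pool.Agent.W_448s7s_h5.TuL

/-!
No flips at `j = 13`: window `4`, energy `142` (MP_448cb3_co, S7).
-/

namespace Pool.Agent.GaussPoset.Ec

set_option linter.unusedSectionVars false

open Polynomial Finset Sm Wd Cp W4 Cl

universe u

variable {P : Type u} [Fintype P] [PartialOrder P] [DecidableEq P] {r : ℕ}
  {lo hi : Tops P → ℕ → ℕ} {e : Tops P → ℕ → ℕ → P} {N : Tops P → Finset P}
  {θ3 θ4 θ5 : Tops P → P → ℕ} {Nf : Tops P → Finset P} {θf : Tops P → (ℕ → ℕ → ℕ) → P → ℕ}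
  {D : Tops P → Prop} {K3 : ℕ} {b : Tops P → ℕ}

section

variable (F : Fz P 13 lo hi e N θ4 θ5 Nf θf D) (W : Wk r 13 3 K3 N b θ3)

include F W

/-- the larger label of a flip, cost and numbers -/
lemma Fz.flp_lab (K : Ctx P r 13 lo hi e) {z : P} (hz : PenF 13 3 N b θ3 z) :
    hA N θ5 z + Ew.dl (ZF P N b θ3) (ED D) z = 9 ∧ cst 4 (fun _ => 9) z = 142 ∧
      nab 4 z = 3 ∧ nab 13 z = 1 ∧ nst 4 (fun _ => 9) z = 32 := by
  obtain ⟨q1, q2, q3, -⟩ := W.penF hz
  have hz' := hz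
  obtain ⟨hzR, x, h2, h4, Nc, co, C⟩ := hz
  obtain ⟨h0, n3, n4, n5, n6, n7, n8, n9, n10, n11, n12, n13⟩ := flp13 C
  have hx : x ∉ unnat N := W.low (by omega)
  obtain ⟨a1, a2, a3, a4, a5, a6⟩ := F.flp_cell W K hx C
  obtain ⟨x0, f1, f2, f3⟩ := hcan_spec (θ := thA N θ5) q3
  have e4 := h4 x0 f2
  subst e4
  have f3' : hA N θ5 z = thA N θ5 x0 + 1 := f3
  have e2 : thA N θ5 x0 = θ5 (topOf x0) x0 := thX_not (W.not_tw hx)
  have hn : ∀ k, k ≤ 13 → nab k z = nab k x0 := fun k hk => nab_only h4 h2 (by omega)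
  refine ⟨?_, ?_, ?_, ?_, ?_⟩
  · rw [Ew.dl_of (mem_ZF.mpr hz') h2 a1, f3', e2, a5]
  · rw [cst_only (h := fun _ => 9) W.gt.H.gradedBelow h2 h4, flp13_cst C, q2]
    rfl
  · rw [hn 4 (by omega), n4]
  · rw [hn 13 (by omega), n13]
  · rw [nst_eq]
    simp only [Finset.sum_range_succ, Finset.sum_range_zero]
    norm_num [hn, n4, n5, n6, n7, n8, n9, n10, n11, n12]

/-- all other elements of the boundary cost at least `145` -/
lemma Fz.bd_ge (Q : Nz5 P N b θ3 θ4) {z : P} (hz : z ∈ bdR (rA N)) :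
    PenF 13 3 N b θ3 z ∨ 145 ≤ cst 4 (hA N θ5) z := by
  rcases Q.bd z hz with h | h | h
  · have := F.penS_ge W h
    exact Or.inr (by omega)
  · exact Or.inl h
  · exact Or.inr (h.trans (F.cst_ge W hz))

/-- the twins cost at least `145` -/
lemma Fz.tw_ge (Q : Nz5 P N b θ3 θ4) {x : P} (hx : x ∈ twA N) :
    145 ≤ tcst 4 (thA N θ5) (twT N x, x) := by
  rcases Q.tw x hx with h | h
  · exact (F.spc_tw W hx h).2.2.ge
  · exact h.le.trans (F.tcst_ge W hx)

/-- **No flips at `j = 13`.** -/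
theorem Fz.no_flip (K : Ctx P r 13 lo hi e) (Q : Nz5 P N b θ3 θ4) (z : P) :
    ¬ PenF 13 3 N b θ3 z := by
  classical
  intro hz0
  have WE := F.ew K (by omega) W
  have G := F.fl W K
  have hR : Ew.hR (ZF P N b θ3) (ED D) Nf N (fun t => θf t E7t4) θ5 (twA N) (twT N) (ED D) =
      fun z => hA N θ5 z + Ew.dl (ZF P N b θ3) (ED D) z := by
    funext z
    unfold Ew.hR
    rw [F.hS_eq]
  set h5 : P → ℕ := fun z => hA N θ5 z + Ew.dl (ZF P N b θ3) (ED D) z with hh5
  have hge : ∀ z, hA N θ5 z ≤ h5 z := fun z => Nat.le_add_right _ _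
  have hcard : 3 ≤ (lv P 4).card := by
    have h1 := nab_le_card (P := P) 4 z
    have h2 := (F.flp_lab W K hz0).2.2.1
    omega
  have hflp : ∀ z, PenF 13 3 N b θ3 z → h5 z = 9 ∧ cst 4 h5 z = 142 := by
    intro z hz
    obtain ⟨g1, g2, -⟩ := F.flp_lab W K hz
    have g3 : h5 z = 9 := g1
    refine ⟨g3, ?_⟩
    rw [cst_const, g3]
    exact g2
  have hbd : ∀ z ∈ bdR (rA N), PenF 13 3 N b θ3 z ∨ 145 ≤ cst 4 h5 z := by
    intro z hz
    rcases F.bd_ge W Q hz with h | h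
    · exact Or.inl h
    · exact Or.inr (h.trans (cst_mono_h (hge z)))
  have key := WE.signR G (d := 1) F.sum (dvd_Z K.gt.H.gauss 4 142)
    (by
      rw [F.thS_eq]
      intro x hx
      have := F.tw_ge W Q hx
      omega)
    (by
      rw [F.RS_eq, hR]
      intro z hz
      rcases hbd z hz with h | h
      · exact (hflp z h).2.ge
      · omega)
    (by
      rw [F.RS_eq, F.thS_eq]
      intro e' F' hV hs hok
      refine F.card_le0 K (by omega) W minT_13 de_13 (by omega) hV hs ?_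
      intro z hz x hx hzx
      by_cases hf : PenF 13 3 N b θ3 z
      · right
        obtain ⟨-, x1, h2, h4, Nc, co, C⟩ := hf
        have hxx := h4 x hzx
        subst hxx
        have hlx := (flp13 C).1
        exact (F.flp_cell W K (W.low (by omega)) C).2.2.2.2.2
      · left
        have h1 := hok z hz x hx hzx
        rw [Ew.dl_not (fun h => hf (mem_ZF.mp h.1))] at h1
        exact h1)
    (c0 := (lv P 4).card - 2) (by omega)
    (by
      rw [F.RS_eq, hR]
      intro z hz hc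
      rcases hbd z hz with h | h
      · obtain ⟨g1, g2, g3, g4, -⟩ := F.flp_lab W K h
        rw [(hflp z h).1, g3, show 4 + 9 = 13 from rfl, g4]
        omega
      · omega)
  rw [F.RS_eq, hR] at key
  have h1 : ∀ z ∈ (bdR (rA N)).filter (fun z => cst 4 h5 z = 142 ∧
      (lv P 4).card - 2 + nab 4 z = (lv P 4).card + nab (4 + h5 z) z),
      (-1 : ℤ) ^ (nst 4 h5 z) = 1 := by
    intro z hz
    rw [mem_filter] at hz
    rcases hbd z hz.1 with h | h
    · obtain ⟨g1, g2, g3, g4, g5⟩ := F.flp_lab W K h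
      have g6 : nst 4 h5 z = 32 := by
        rw [← g5, nst_congr (h := h5) (h' := fun _ => 9) (hflp z h).1]
      rw [g6]
      norm_num
    · omega
  rw [Finset.sum_congr rfl h1, Finset.sum_const] at key
  have h2 : z ∈ (bdR (rA N)).filter (fun z => cst 4 h5 z = 142 ∧
      (lv P 4).card - 2 + nab 4 z = (lv P 4).card + nab (4 + h5 z) z) := by
    rw [mem_filter]
    obtain ⟨g1, g2, g3, g4, -⟩ := F.flp_lab W K hz0
    refine ⟨(W.penF hz0).2.2.1, (hflp z hz0).2, ?_⟩
    rw [(hflp z hz0).1, g3, show 4 + 9 = 13 from rfl, g4]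
    omega
  have h3 := Finset.card_pos.mpr ⟨z, h2⟩
  rw [nsmul_eq_mul, mul_one] at key
  have h4 : ((bdR (rA N)).filter (fun z => cst 4 h5 z = 142 ∧
      (lv P 4).card - 2 + nab 4 z = (lv P 4).card + nab (4 + h5 z) z)).card = 0 := by
    exact_mod_cast key
  omega

end

end Pool.Agent.GaussPoset.Ec
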