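import Pool.Agent.W_448s7s_h5.TuM
import Pool.Agent.W_448s7s_h5.SlC

/-!
The cheap joins at window `4`, `j = 13`, have two ancestors on the level `4`
(MP_448cb3_co, S7).
-/

namespace Pool.Agent.GaussPoset.Sm

set_option linter.unusedSectionVars false

open Finset Wd

universe u

variable {P : Type u} [Fintype P] [PartialOrder P] [DecidableEq P] {r : ℕ}
  {lo hi : Tops P → ℕ → ℕ} {e : Tops P → ℕ → ℕ → P}

/-- the costs of the joins of level at least `15` -/
lemma ful4_ge13 (H : Gr P r) {z x x' : P} (h : Cg z x x') (hl : 15 ≤ lev z) :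
    (121 : ℤ) + ∑ k ∈ range 13, ((k - 4 : ℕ) : ℤ) * ((nab k x : ℤ) - 1) ≤ ful 4 z := by
  obtain ⟨l1, l2⟩ := h.lev_eq H
  have hs : ∀ k, k < lev z → (nab k x : ℤ) + 1 ≤ nab k z := fun k hk => by
    have h1 := one_le_nab (l := k) (z := x') (by omega)
    rw [h.sum H hk]
    push_cast
    have h1' : (1 : ℤ) ≤ nab k x' := by exact_mod_cast h1
    linarith
  have h1 : ∀ k, k < lev z → (1 : ℤ) ≤ nab k x := fun k hk => by
    have h1 := one_le_nab (l := k) (z := x) (by omega)
    exact_mod_cast h1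
  obtain ⟨c, hc⟩ : ∃ c, lev z = 13 + (2 + c) := ⟨lev z - 15, by omega⟩
  have e1 : (ful 4 z : ℤ) = ∑ k ∈ range (lev z), ((k - 4 : ℕ) : ℤ) * (nab k z : ℤ) +
      ((lev z - 4 : ℕ) : ℤ) := by
    rw [ful_eq_above]
    push_cast
    rfl
  have e2 : ∑ k ∈ range (lev z), ((k - 4 : ℕ) : ℤ) * ((nab k x : ℤ) + 1) ≤
      ∑ k ∈ range (lev z), ((k - 4 : ℕ) : ℤ) * (nab k z : ℤ) := by
    refine Finset.sum_le_sum fun k hk => ?_
    rw [mem_range] at hk
    exact mul_le_mul_of_nonneg_left (hs k hk) (Nat.cast_nonneg _)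
  rw [hc, Finset.sum_range_add] at e2
  have e3 : ∑ k ∈ range 13, ((k - 4 : ℕ) : ℤ) * ((nab k x : ℤ) + 1) =
      72 + ∑ k ∈ range 13, ((k - 4 : ℕ) : ℤ) * ((nab k x : ℤ) - 1) := by
    have e4 : ∑ k ∈ range 13, ((k - 4 : ℕ) : ℤ) * ((nab k x : ℤ) + 1) =
        ∑ k ∈ range 13, (((k - 4 : ℕ) : ℤ) * 2 + ((k - 4 : ℕ) : ℤ) * ((nab k x : ℤ) - 1)) :=
      Finset.sum_congr rfl fun k _ => by ring
    rw [e4, Finset.sum_add_distrib]
    congr 1
  have e5 : (38 : ℤ) ≤ ∑ k ∈ range (2 + c), ((13 + k - 4 : ℕ) : ℤ) * ((nab (13 + k) x : ℤ) + 1) := by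
    rw [Finset.sum_range_add]
    have g1 := h1 13 (by omega)
    have g2 := h1 14 (by omega)
    have g3 : (0 : ℤ) ≤ ∑ k ∈ range c, ((13 + (2 + k) - 4 : ℕ) : ℤ) *
        ((nab (13 + (2 + k)) x : ℤ) + 1) :=
      Finset.sum_nonneg fun k _ => mul_nonneg (Nat.cast_nonneg _) (by positivity)
    have g4 : ∑ k ∈ range 2, ((13 + k - 4 : ℕ) : ℤ) * ((nab (13 + k) x : ℤ) + 1) =
        9 * ((nab 13 x : ℤ) + 1) + 10 * ((nab 14 x : ℤ) + 1) := by
      simp [Finset.sum_range_succ]
    rw [g4]
    linarith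
  have e6 : (11 : ℤ) ≤ ((lev z - 4 : ℕ) : ℤ) := by
    have : 11 ≤ lev z - 4 := by omega
    exact_mod_cast this
  rw [e1, hc]
  rw [hc] at e6
  rw [e3] at e2
  linarith

/-- the word of the late components with `a = 4` -/
lemma e7_13 : ∀ w ∈ wds 13 4, w.length = 9 →
    ∀ A ∈ (Icc (Wd.Lw w (w.length + 3)) (Wd.Hw w (w.length + 3))).powerset, A.Nonempty →
      ¬ condA 0 w A ∧ mA w A = 10 ∧ dA w A = 50 := by
  decide +kernel

/-- the sides of the cheap joins -/
theorem Ctx.side4_13 (K : Ctx P r 13 lo hi e) {z x x' : P} (h : Cg z x x')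
    (hf : ful 4 z ≤ 145) : nab 4 x = 1 := by
  have H := K.gt.H
  obtain ⟨l1, l2⟩ := h.lev_eq H
  have hl := K.lev_ge h
  have hend : lev x = 13 → (Win.uc x).card = 1 := fun hh => (K.ends h (by omega)).1
  have hf' : (ful 4 z : ℤ) ≤ 145 := by exact_mod_cast hf
  by_cases hfat : Fatt 13 x
  · exfalso
    obtain ⟨f1, f2⟩ := hfat
    have h1 := ful4_ge13 H h (by omega)
    have h2 : (28 : ℤ) ≤ ∑ k ∈ range 13, ((k - 4 : ℕ) : ℤ) * ((nab k x : ℤ) - 1) := by
      have h3 : ∑ k ∈ range 13, ((k - 4 : ℕ) : ℤ) * (if 4 < k ∧ k ≤ 11 then 1 else 0) ≤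
          ∑ k ∈ range 13, ((k - 4 : ℕ) : ℤ) * ((nab k x : ℤ) - 1) := by
        refine Finset.sum_le_sum fun k hk => ?_
        rw [mem_range] at hk
        refine mul_le_mul_of_nonneg_left ?_ (Nat.cast_nonneg _)
        split_ifs with g
        · have := f2 k (by omega) (by omega)
          have g1 : (2 : ℤ) ≤ nab k x := by exact_mod_cast this
          linarith
        · have := one_le_nab (l := k) (z := x) (by omega)
          have g1 : (1 : ℤ) ≤ nab k x := by exact_mod_cast this
          linarith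
      have h4 : ∑ k ∈ range 13, ((k - 4 : ℕ) : ℤ) * (if 4 < k ∧ k ≤ 11 then 1 else 0) = 28 := by
        decide +kernel
      rw [h4] at h3
      exact h3
    linarith
  · rcases K.cases h.only (by omega) hend hfat with h1 | h1 | ⟨a, h1, -⟩
    · have := h1.2.1
      omega
    · exact h1 4 (by omega)
    · have h4 := h1.four (by omega)
      rcases Nat.lt_or_ge 4 a with ha | ha
      · obtain ⟨e1, e2⟩ := h1.low 4 ha
        exact nab_one_of_eq (K.comp (topOf x)) h.only (by omega) (by omega) (by rw [e1, e2])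
      · exfalso
        have ha4 : a = 4 := by omega
        subst ha4
        obtain ⟨A, g1, g2, g3, g4, g5, g6, -⟩ := late_side K.gt (by omega) (K.comp (topOf x))
          h1.two h1.le h1.low h1.at_a h.only (by omega) hend rfl
        have hw := h1.word
        have hwl : (word (lo (topOf x)) (hi (topOf x)) 4 (13 - 4)).length = 9 := by
          rw [word_length]
        obtain ⟨k1, k2, k3⟩ := e7_13 _ hw hwl A g1 g2
        rcases Nat.lt_or_ge 13 (lev x) with hx | hx
        · have h5 := ful4_ge13 H h (by omega)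
          rw [k2] at g4
          rw [k3] at g5
          have h6 : (40 : ℤ) ≤ ∑ k ∈ range 13, ((k - 4 : ℕ) : ℤ) * ((nab k x : ℤ) - 1) := by
            have h7 : ∑ k ∈ range 13, (9 * ((nab k x : ℤ) - 1) -
                ((nab k x : ℤ) - 1) * (((13 : ℕ) : ℤ) - k)) ≤
                ∑ k ∈ range 13, ((k - 4 : ℕ) : ℤ) * ((nab k x : ℤ) - 1) := by
              refine Finset.sum_le_sum fun k hk => ?_
              rw [mem_range] at hk
              have := one_le_nab (l := k) (z := x) (by omega)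
              have g1 : (1 : ℤ) ≤ nab k x := by exact_mod_cast this
              have g2 : (k : ℤ) - 4 ≤ ((k - 4 : ℕ) : ℤ) := by omega
              have g3 : (9 : ℤ) * ((nab k x : ℤ) - 1) - ((nab k x : ℤ) - 1) * (((13 : ℕ) : ℤ) - k) =
                  ((k : ℤ) - 4) * ((nab k x : ℤ) - 1) := by
                push_cast
                ring
              rw [g3]
              exact mul_le_mul_of_nonneg_right g2 (by linarith)
            rw [Finset.sum_sub_distrib, ← Finset.mul_sum] at h7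
            unfold mX at g4
            unfold cX at g5
            rw [g4, g5] at h7
            push_cast at h7
            linarith
          linarith
        · exact k1 (g3 0 (by omega))

/-- **the cheap joins have two ancestors on the level `4`** -/
theorem Ctx.nab4_13 (K : Ctx P r 13 lo hi e) {z x x' : P} (h : Cg z x x')
    (hf : ful 4 z ≤ 145) : nab 4 z = 2 := by
  have hl := K.lev_ge h
  rw [h.sum K.gt.H (by omega), K.side4_13 h hf, K.side4_13 h.symm hf]

end Pool.Agent.GaussPoset.Sm
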