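import Pool.Agent.W_448s7s_h5.TuN

/-!
No special twins at `j = 13`: window `4`, energy `145`, class `3` (MP_448cb3_co, S7).
-/

namespace Pool.Agent.GaussPoset.Ec

set_option linter.unusedSectionVars false

open Polynomial Finset Sm Wd Cp W4 Cl

universe u

variable {P : Type u} [Fintype P] [PartialOrder P] [DecidableEq P] {r : ℕ}
  {lo hi : Tops P → ℕ → ℕ} {e : Tops P → ℕ → ℕ → P} {N : Tops P → Finset P}
  {θ3 θ4 θ5 : Tops P → P → ℕ} {Nf : Tops P → Finset P} {θf : Tops P → (ℕ → ℕ → ℕ) → P → ℕ}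
  {D : Tops P → Prop} {K3 : ℕ} {b : Tops P → ℕ}

section

variable (F : Fz P 13 lo hi e N θ4 θ5 Nf θf D) (W : Wk r 13 3 K3 N b θ3)

include F W

/-- the numbers of a special twin -/
lemma Fz.spc_num {x : P} (hx : x ∈ twA N) (h : Spc 13 3 N b θ3 (twT N x)) :
    lev x = 14 ∧ nab 4 x = 3 ∧ nst 4 (fun z => lev z - 4) x = 29 := by
  obtain ⟨h0, n3, n4, n5, n6, n7, n8, n9, n10, n11, n12, n13, n14⟩ := spc13 h
  have hll := W.twSys.lev hx
  have h3 := twT_spec (mem_twA.mp hx).2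
  have hlx : lev x = 14 := by omega
  have hn : ∀ k, k ≤ 13 → nab k x = nab k (twT N x) := fun k hk =>
    (nab_congr_up h3.2 (by omega)).symm
  refine ⟨hlx, by rw [hn 4 (by omega), n4], ?_⟩
  rw [nst_eq, show lev x - 4 = 10 by omega]
  simp only [Finset.sum_range_succ, Finset.sum_range_zero]
  norm_num [hn, n4, n5, n6, n7, n8, n9, n10, n11, n12, n13]

/-- the labels of the joins of cost `145` -/
lemma Fz.heq5 (K : Ctx P r 13 lo hi e) (Q : Nz5 P N b θ3 θ4) {z : P} (hz : z ∈ bdR (rA N))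
    (hc : cst 4 (hA N θ5) z = 145) :
    hA N θ5 z = lev z - 4 ∧ 145 = ful 4 z ∧ ∃ x x', Cg z x x' := by
  have h1 := F.cst_ge W hz
  have h2 : cst 4 (hA N θ4) z = 145 := by
    rcases Q.bd z hz with h | h | h
    · have := F.penS_ge W h
      omega
    · exact absurd h (F.no_flip W K Q z)
    · omega
  rcases Q.eq z hz h2 with h | h | ⟨h3, h4, h5⟩
  · have := F.penS_ge W h
    omega
  · exact absurd h (F.no_flip W K Q z)
  · refine ⟨?_, h4, h5⟩
    have HX := (F.ew K (by omega) W).farX (Finset.Subset.refl (ED D)) 145 (by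
      rw [F.thS_eq]
      exact fun x hx => F.tw_ge W Q hx)
    have h6 := HX.le_lev z (by rw [F.RS_eq]; exact hz)
    rw [F.hS_eq] at h6
    have h7 := F.hA_le W (by omega) hz
    omega

/-- **No special twins at `j = 13`.** -/
theorem Fz.no_spc (K : Ctx P r 13 lo hi e) (Q : Nz5 P N b θ3 θ4) {x0 : P} (hx0 : x0 ∈ twA N)
    (hs : Spc 13 3 N b θ3 (twT N x0)) : False := by
  classical
  have WE := F.ew K (by omega) W
  have hbd : ∀ z ∈ bdR (rA N), 145 ≤ cst 4 (hA N θ5) z := fun z hz =>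
    (F.bd_ge W Q hz).resolve_left (F.no_flip W K Q z)
  have htw : ∀ x ∈ twA N, tcst 4 (thA N θ5) (twT N x, x) = 145 → Spc 13 3 N b θ3 (twT N x) := by
    intro x hx hc
    rcases Q.tw x hx with h | h
    · exact h
    · have := F.tcst_ge W hx
      omega
  have hcard : 3 ≤ (lv P 4).card := by
    have h1 := nab_le_card (P := P) 4 x0
    have h2 := (F.spc_num W hx0 hs).2.1
    omega
  have h0 := F.spc_tw W hx0 hs
  set U : Finset P := (bdR (rA N)).filter (fun z => cst 4 (hA N θ5) z = 145) ∪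
    (twA N).filter (fun x => tcst 4 (thA N θ5) (twT N x, x) = 145) with hU
  have hmU : ∀ z, z ∈ U ↔ (z ∈ bdR (rA N) ∧ cst 4 (hA N θ5) z = 145) ∨
      (z ∈ twA N ∧ tcst 4 (thA N θ5) (twT N z, z) = 145) := by
    intro z
    rw [hU, mem_union, mem_filter, mem_filter]
  have hcl : ∀ z ∈ U, 4 ≤ lev z ∧ (nab 4 z = 2 ∨ (nab 4 z = 3 ∧
      nst 4 (fun z => lev z - 4) z = 29)) := by
    intro z hz
    rcases (hmU z).mp hz with ⟨h1, h2⟩ | ⟨h1, h2⟩
    · obtain ⟨-, h3, x, x', h4⟩ := F.heq5 W K Q h1 h2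
      have := K.lev_ge h4
      exact ⟨by omega, Or.inl (K.nab4_13 h4 h3.ge)⟩
    · obtain ⟨g1, g2, g3⟩ := F.spc_num W h1 (htw z h1 h2)
      exact ⟨by omega, Or.inr ⟨g2, g3⟩⟩
  have key := WE.sign_tw (n := 145) F.sum (dvd_Z K.gt.H.gauss 4 145)
    (by rw [F.thS_eq]; exact fun x hx => F.tw_ge W Q hx)
    (by
      rw [F.thS_eq]
      intro x hx hc
      obtain ⟨g1, g2, g3⟩ := F.spc_tw W hx (htw x hx hc)
      omega)
    (by rw [F.RS_eq, F.hS_eq]; exact hbd)
    (by
      rw [F.RS_eq, F.hS_eq]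
      exact fun z hz hc => (F.heq5 W K Q hz hc).1)
    (by
      rw [F.RS_eq, F.thS_eq]
      exact fun e' F' hV hs' hok => F.card_le K (by omega) W minT_13 de_13 (by omega) hV hs' hok)
    (U := U) (by
      rw [F.RS_eq, F.hS_eq, F.thS_eq]
      exact hmU)
    (c0 := (lv P 4).card - 2) (by omega)
    (by
      intro z hz
      obtain ⟨h1, h2⟩ := hcl z hz
      rw [show 4 + (lev z - 4) = lev z by omega, nab_self]
      omega)
  have h1 : ∀ z ∈ U.filter (fun z => (lv P 4).card - 2 + nab 4 z =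
      (lv P 4).card + nab (4 + (lev z - 4)) z), (-1 : ℤ) ^ (nst 4 (fun z => lev z - 4) z) = -1 := by
    intro z hz
    rw [mem_filter] at hz
    obtain ⟨h1, h2⟩ := hcl z hz.1
    have h3 := hz.2
    rw [show 4 + (lev z - 4) = lev z by omega, nab_self] at h3
    rcases h2 with h2 | ⟨h2, h4⟩
    · omega
    · rw [h4]
      norm_num
  rw [Finset.sum_congr rfl h1, Finset.sum_const] at key
  have h2 : x0 ∈ U.filter (fun z => (lv P 4).card - 2 + nab 4 z =
      (lv P 4).card + nab (4 + (lev z - 4)) z) := by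
    rw [mem_filter, hmU]
    obtain ⟨g1, g2, g3⟩ := F.spc_num W hx0 hs
    refine ⟨Or.inr ⟨hx0, h0.2.2⟩, ?_⟩
    rw [show 4 + (lev x0 - 4) = lev x0 by omega, nab_self, g2]
    omega
  have h3 := Finset.card_pos.mpr ⟨x0, h2⟩
  rw [nsmul_eq_mul, mul_neg, mul_one, neg_eq_zero] at key
  have h4 : (U.filter (fun z => (lv P 4).card - 2 + nab 4 z =
      (lv P 4).card + nab (4 + (lev z - 4)) z)).card = 0 := by
    exact_mod_cast key
  omega

end

end Pool.Agent.GaussPoset.Ec
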