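import Pool.Agent.W_448s7s_h5.TuO
import Pool.Agent.W_448s7_h27.PpG
import Pool.Agent.W_448s7_h27.PpS13

/-!
No twins of the cells `(2, 12)` at `j = 13` from the typing of the least costs at window `4`
(MP_448cb3_co, S7).
-/

namespace Pool.Agent.GaussPoset.Ec

set_option linter.unusedSectionVars false

open Polynomial Finset Sm Wd Cp W4 Cl

universe u

variable {P : Type u} [Fintype P] [PartialOrder P] [DecidableEq P] {r : ℕ}
  {lo hi : Tops P → ℕ → ℕ} {e : Tops P → ℕ → ℕ → P} {N : Tops P → Finset P}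
  {θ3 θ4 θ5 : Tops P → P → ℕ} {Nf : Tops P → Finset P} {θf : Tops P → (ℕ → ℕ → ℕ) → P → ℕ}
  {D : Tops P → Prop} {K3 : ℕ} {b : Tops P → ℕ}

/-- the cost of an element with the numbers of a special cell -/
lemma cst_of_num {x : P} (hl : lev x = 14) (h3 : ∀ k, 4 ≤ k → k + 1 ≤ 13 → nab k x = 3)
    (h2 : nab 13 x = 2) : cst 4 (fun _ => 10) x = 136 ∧ ful 4 x = 136 := by
  have h14 : nab 14 x = 1 := by rw [← hl, nab_self]
  have e1 : cst 4 (fun _ => 10) x = 136 := by
    rw [cst_shift (i := 4) (a := 10) hl]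
    simp only [Finset.sum_range_succ, Finset.sum_range_zero]
    norm_num [h3, h2, h14]
  refine ⟨e1, ?_⟩
  rw [ful_eq_above, hl]
  simp only [Finset.sum_range_succ, Finset.sum_range_zero]
  norm_num [h3, h2]

section

variable (F : Fz P 13 lo hi e N θ4 θ5 Nf θf D) (W : Wk r 13 3 K3 N b θ3)

include F W

/-- no far element has the numbers of a special cell -/
theorem Fz.no_num (K : Ctx P r 13 lo hi e) (Q : Nz5 P N b θ3 θ4) {y : P} (hy : y ∈ unnat N)
    (hl : lev y = 14) (h3 : ∀ k, 4 ≤ k → k + 1 ≤ 13 → nab k y = 3) (h2 : nab 13 y = 2)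
    (h5 : nab 3 y = 2) : False := by
  by_cases hyt : y ∈ twA N
  · have g3 := twT_spec (mem_twA.mp hyt).2
    have hn : ∀ k, k ≤ 13 → nab k (twT N y) = nab k y := fun k hk =>
      nab_congr_up g3.2 (by omega)
    have hll := W.twSys.lev hyt
    have hlt : lev (twT N y) = 14 := by omega
    have h9 : 9 ≤ θ5 (topOf (twT N y)) (twT N y) :=
      (F.typ (topOf (twT N y))).spc_ge (W.natSys.mem_iff.mpr ⟨g3.1, rfl⟩) hlt
        (by rw [hn 3 (by omega), h5]) (by rw [hn 4 (by omega), h3 4 (by omega) (by omega)])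
        (by rw [hn 10 (by omega), h3 10 (by omega) (by omega)])
        (by rw [hn 13 (by omega), h2])
    have T := F.tw W (by omega) hyt
    have e1 : thA N θ5 (twT N y) = θ5 (topOf (twT N y)) (twT N y) := thX_not (W.not_tw g3.1)
    obtain ⟨k1, k2, k3, k4⟩ := T.th (by omega)
    have e2 : thA N θ5 (twT N y) = 9 := by omega
    have e3 := tcst_cst (F.twn W (by omega) hyt)
    simp only at e3
    rw [e2, (cst_of_num hlt (fun k hk hk' => by rw [hn k (by omega), h3 k hk hk'])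
      (by rw [hn 13 (by omega), h2])).1] at e3
    rcases Q.tw y hyt with h | h
    · exact F.no_spc W K Q hyt h
    · have := F.tcst_ge W hyt
      omega
  · have hbd : ∀ z ∈ bdR (rA N), 145 ≤ cst 4 (hA N θ5) z := fun z hz =>
      (F.bd_ge W Q hz).resolve_left (F.no_flip W K Q z)
    have h1 : 145 ≤ ful 4 y := min_le_ful (rA_pos W) hbd (mem_rA.mpr ⟨hy, hyt⟩)
    rw [(cst_of_num hl h3 h2).2] at h1
    omega

/-- **no twins with the numbers of a special cell** -/
theorem Fz.no_twin (K : Ctx P r 13 lo hi e) (Q : Nz5 P N b θ3 θ4) (L : Unq P 3 b) {x x' : P}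
    (hne : x ≠ x') (hl : lev x = 14) (hup : ∀ u, x < u ↔ x' < u)
    (h3 : ∀ k, 4 ≤ k → k + 1 ≤ 13 → nab k x = 3) (h2 : nab 13 x = 2) (h5 : nab 3 x = 2) :
    False := by
  by_cases hx : x ∈ unnat N
  · exact F.no_num W K Q hx hl h3 h2 h5
  · by_cases hx' : x' ∈ unnat N
    · have hll : lev x = lev x' := lev_eq_of_up hup
      have hn : ∀ k, k ≤ 13 → nab k x' = nab k x := fun k hk =>
        nab_congr_up (fun v => (hup v).symm) (by omega)
      exact F.no_num W K Q hx' (by omega)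
        (fun k hk hk' => by rw [hn k (by omega), h3 k hk hk'])
        (by rw [hn 13 (by omega), h2]) (by rw [hn 3 (by omega), h5])
    · exact hne (W.nat_up_inj L hx hx' hup (by omega) (by omega))

end

/-- **No twins of the cells `(2, 12)` at `j = 13`**, from the typing at window `4`. -/
theorem noE2_13_nz (K : Ctx P r 13 lo hi e) (hJ : ∃ z : P, Hul.Jn z)
    (hown : ∀ (N : Tops P → Finset P) (θ3 θ4 : Tops P → P → ℕ) (K3 V : ℕ),
      Sy P 13 lo hi N θ3 θ4 → Wk r 13 3 K3 N (fun t => hi t 3 - lo t 3 + 1) θ3 →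
      MnT 13 3 N (fun t => hi t 3 - lo t 3 + 1) θ3 V → 11 ^ 2 + 55 ≤ V →
      (∀ z x x' : P, Cg z x x' → 145 ≤ ful 4 z) →
      Nz5 P N (fun t => hi t 3 - lo t 3 + 1) θ3 θ4) : NoE2 P 13 := by
  refine K.noE2_13_of hJ fun x x' hne hl hup h3 h2 h5 => ?_
  obtain ⟨N, θ3, θ4, Nf, θf, D, S, F0⟩ := exists_fs K (by norm_num)
  obtain ⟨θ5, F⟩ := F0.exists5
  obtain ⟨V, v, hB, hb, M, W, hv⟩ := ps13 K hJ S
  exact F.no_twin W K (hown N θ3 θ4 _ v S W M hv (low4_13 K)) S.unq3 hne hl hup h3 h2 h5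

end Pool.Agent.GaussPoset.Ec
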