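import Pool.Agent.W_448s7s_h5.TuP
import Pool.Agent.W_448ft_h93.OnF

/-!
# S7 for `j = 13` (MP_448cb3_co): no joins of level `14`
-/

namespace Pool.Agent.GaussPoset.Ec

set_option linter.unusedSectionVars false

open Polynomial Finset Sm Wd Cp W4 Cl

universe u

variable {P : Type u} [Fintype P] [PartialOrder P] [DecidableEq P] {r : ℕ}
  {lo hi : Tops P → ℕ → ℕ} {e : Tops P → ℕ → ℕ → P}

/-- **no twins of the cells `(2, 12)` at `j = 13`** -/
theorem noE2_13 (K : Ctx P r 13 lo hi e) (hJ : ∃ z : P, Hul.Jn z) : NoE2 P 13 :=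
  noE2_13_nz K hJ fun N θ3 θ4 K3 V S W M hV hjn => by
    obtain ⟨h1, h2, h3⟩ := own13 S W M hV (n := 145) (by norm_num) hjn
    refine ⟨h1, h2, fun z hz hc => ?_⟩
    rcases h3 z hz hc with h | h | ⟨-, h, h', h''⟩
    · exact Or.inl h
    · exact Or.inr (Or.inl h)
    · exact Or.inr (Or.inr ⟨h, h', h''⟩)

end Pool.Agent.GaussPoset.Ec

namespace Pool.Agent.GaussPoset.Sm

open Finset

universe u

variable {P : Type u} [Fintype P] [PartialOrder P] [DecidableEq P] {r : ℕ}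
  {lo hi : Tops P → ℕ → ℕ} {e : Tops P → ℕ → ℕ → P}

/-- **S7 for `j = 13`: no joins of level `14`.** -/
theorem Ctx.no_join13 (K : Ctx P r 13 lo hi e) {z : P} (hl : lev z = 14) : ¬ Hul.Jn z :=
  fun hz => no_join13e K (Ec.noE2_13 K ⟨z, hz⟩) hl hz

end Pool.Agent.GaussPoset.Sm
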