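import Pool.Agent.W_448fin_h16.FnI
import Pool.Agent.W_448jx_h67.WhC
import Pool.Agent.W_448s7_h27.PoF
import Pool.Agent.W_448s8f_h76.FqF
import Pool.Agent.W_448s7s_h5.TuQ
import Pool.Agent.W_448s7_h27.PpM
import Pool.Agent.W_448f4_h70.GY

/-!
# Step A for `j = 10, .., 15` (MP_448cb3_co, HJoin10)

The input `HJoin10` of the final assembly from the six theorems `no_join10`, ..,
`no_join15`; the case `j = 14` uses that there are no joins of a fold end and an end
`(5, 25, 0)`.
-/

namespace Pool.Agent.GaussPoset.Win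

set_option linter.unusedSectionVars false

open Finset

universe u

variable {P : Type u} [Fintype P] [PartialOrder P] [DecidableEq P]

/-- INPUT: no joins of a fold end and an end `(5, 25, 0)` for `j = 14` -/
def HFB14 (P : Type u) [Fintype P] [PartialOrder P] [DecidableEq P] : Prop :=
  ∀ (r : ℕ) (lo hi : Tops P → ℕ → ℕ) (e : Tops P → ℕ → ℕ → P),
    Sm.Ctx P r 14 lo hi e → Sm.NoFB P 14

/-- **step A for `j = 10, .., 15`**, from the input for `j = 14` -/
theorem hjoin10_of (h14 : HFB14 P) : HJoin10 P := by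
  intro r j h1 h2 hB z hl
  obtain ⟨lo, hi, e, hC, hS⟩ := hsh (P := P) r j hB.gt
  have K : Sm.Ctx P r j lo hi e := ⟨hB.gt, by omega, by omega, hC, hS⟩
  have hj : j = 10 ∨ j = 11 ∨ j = 12 ∨ j = 13 ∨ j = 14 ∨ j = 15 := by omega
  rcases hj with rfl | rfl | rfl | rfl | rfl | rfl
  · exact Sm.no_join10 K hl
  · exact K.no_join11 hl
  · exact K.no_join12 hl
  · exact K.no_join13 hl
  · exact Sm.no_join14F K (h14 r lo hi e K) hl
  · exact K.no_join15 hl

end Pool.Agent.GaussPoset.Win
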