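import Pool.Agent.W_448f6_h94.FxM

/-!
The strip `E7` at level 14 with elements of the levels 15 and 16, window 7 (MP_448cb3_co, S7,
`j = 14`): the certificates.
-/

namespace Pool.Agent.GaussPoset.Tv

open Cl Dd Sg

/-! ### one element of level 15 and two elements of level 16 -/

/-- the thresholds at window 7, `Ea` -/
def Ea7th : List ℕ := [0, 0, 0, 0, 0, 0, 0, 0, 0, 0, 0, 0, 0, 0, 0, 0, 0, 0, 0, 1, 0, 1, 1, 2, 3, 4, 5, 5]

/-- the up-sets above the base, window 7: code, `ℓ`, `M`, exponent, coefficient -/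
def Ea7L : List (ℕ × ℕ × ℕ × ℕ × ℕ) := [(268435455, 17, 11, 195, 0), (201326591, 17, 10, 177, 0), (134217727, 17, 10, 177, 0), (67108863, 16, 10, 177, 0), (33554431, 15, 10, 177, 0), (16777215, 14, 10, 177, 0), (8388607, 13, 10, 177, 0), (6291455, 13, 9, 160, 0), (5767167, 13, 8, 144, 0), (4194303, 13, 9, 160, 0), (2097151, 12, 9, 160, 0), (1572863, 12, 8, 144, 0)]

theorem Ea7_pol : polC 28 (2 ^ 80) 11 F6.Eaus 7 Ea7L = true :=
  polC_of_fast (by decide +kernel) (by decide +kernel)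

theorem Ea7_low : lowC 28 11 7 58 (fun a => F6.Ealv.getD a 0) F6.Eaus 1572863 Ea7L = true := by
  decide +kernel

theorem Ea7_th : thChk 28 7 20 (fun a => F6.Ealv.getD a 0) (fun a => F6.Eacv.getD a 0)
    (fun a => F6.Eaum.getD a 0) (fun a => Ea7th.getD a 0) = true := by decide +kernel

theorem Ea7_bm : bmC 28 7 20 1572863 (fun a => F6.Ealv.getD a 0)
    (fun a => F6.Eaum.getD a 0) = true := by decide +kernel

/-! ### two elements of level 15 and four elements of level 16 -/

/-- the thresholds at window 7, `Eb` -/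
def Eb7th : List ℕ := [0, 0, 0, 0, 0, 0, 0, 0, 0, 0, 0, 0, 0, 0, 0, 0, 0, 0, 0, 1, 0, 1, 1, 2, 3, 4, 4, 5, 5, 5, 5]

/-- the up-sets above the base, window 7: code, `ℓ`, `M`, exponent, coefficient -/
def Eb7L : List (ℕ × ℕ × ℕ × ℕ × ℕ) := [(2147483647, 17, 14, 255, 0), (2013265919, 17, 13, 234, 0), (1879048191, 17, 13, 234, 0), (1744830463, 17, 12, 214, 0), (1711276031, 17, 11, 195, 0), (1610612735, 17, 13, 234, 0), (1476395007, 17, 12, 214, 0), (1342177279, 17, 12, 214, 0), (1207959551, 17, 11, 195, 0), (1174405119, 17, 10, 177, 0), (1073741823, 17, 13, 234, 0), (939524095, 17, 12, 214, 0), (805306367, 17, 12, 214, 0), (671088639, 17, 11, 195, 0), (637534207, 17, 10, 177, 0), (536870911, 17, 12, 214, 0), (469762047, 17, 11, 195, 0), (402653183, 17, 11, 195, 0), (335544319, 17, 10, 177, 0), (268435455, 17, 11, 195, 0), (201326591, 17, 10, 177, 0), (134217727, 16, 11, 195, 0), (100663295, 16, 10, 177, 0), (67108863, 16, 10, 177, 0), (33554431, 15, 10,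 177, 0), (16777215, 14, 10, 177, 0), (8388607, 13, 10, 177, 0), (6291455, 13, 9, 160, 0), (5767167, 13, 8, 144, 0), (4194303, 13, 9, 160, 0), (2097151, 12, 9, 160, 0), (1572863, 12, 8, 144, 0)]

theorem Eb7_pol : polC 31 (2 ^ 80) 14 F6.Ebus 7 Eb7L = true :=
  polC_of_fast (by decide +kernel) (by decide +kernel)

theorem Eb7_low : lowC 31 14 7 58 (fun a => F6.Eblv.getD a 0) F6.Ebus 1572863 Eb7L = true := by
  decide +kernel

theorem Eb7_th : thChk 31 7 20 (fun a => F6.Eblv.getD a 0) (fun a => F6.Ebcv.getD a 0)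
    (fun a => F6.Ebum.getD a 0) (fun a => Eb7th.getD a 0) = true := by decide +kernel

theorem Eb7_bm : bmC 31 7 20 1572863 (fun a => F6.Eblv.getD a 0)
    (fun a => F6.Ebum.getD a 0) = true := by decide +kernel

/-! ### two elements of level 15 and two elements of level 16 -/

/-- the thresholds at window 7, `Ec` -/
def Ec7th : List ℕ := [0, 0, 0, 0, 0, 0, 0, 0, 0, 0, 0, 0, 0, 0, 0, 0, 0, 0, 0, 1, 0, 1, 1, 2, 3, 4, 4, 5, 5]

/-- the up-sets above the base, window 7: code, `ℓ`, `M`, exponent, coefficient -/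
def Ec7L : List (ℕ × ℕ × ℕ × ℕ × ℕ) := [(536870911, 17, 12, 214, 0), (402653183, 17, 11, 195, 0), (369098751, 17, 10, 177, 0), (268435455, 17, 11, 195, 0), (201326591, 17, 10, 177, 0), (134217727, 16, 11, 195, 0), (100663295, 16, 10, 177, 0), (67108863, 16, 10, 177, 0), (33554431, 15, 10, 177, 0), (16777215, 14, 10, 177, 0), (8388607, 13, 10, 177, 0), (6291455, 13, 9, 160, 0), (5767167, 13, 8, 144, 0), (4194303, 13, 9, 160, 0), (2097151, 12, 9, 160, 0), (1572863, 12, 8, 144, 0)]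

theorem Ec7_pol : polC 29 (2 ^ 80) 12 F6.Ecus 7 Ec7L = true :=
  polC_of_fast (by decide +kernel) (by decide +kernel)

theorem Ec7_low : lowC 29 12 7 58 (fun a => F6.Eclv.getD a 0) F6.Ecus 1572863 Ec7L = true := by
  decide +kernel

theorem Ec7_th : thChk 29 7 20 (fun a => F6.Eclv.getD a 0) (fun a => F6.Eccv.getD a 0)
    (fun a => F6.Ecum.getD a 0) (fun a => Ec7th.getD a 0) = true := by decide +kernel

theorem Ec7_bm : bmC 29 7 20 1572863 (fun a => F6.Eclv.getD a 0)
    (fun a => F6.Ecum.getD a 0) = true := by decide +kernel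

/-! ### two elements of level 15, a common one of level 16 and two more -/

/-- the thresholds at window 7, `Ed` -/
def Ed7th : List ℕ := [0, 0, 0, 0, 0, 0, 0, 0, 0, 0, 0, 0, 0, 0, 0, 0, 0, 0, 0, 1, 0, 1, 1, 2, 3, 4, 4, 5, 5, 5]

/-- the up-sets above the base, window 7: code, `ℓ`, `M`, exponent, coefficient -/
def Ed7L : List (ℕ × ℕ × ℕ × ℕ × ℕ) := [(1073741823, 17, 13, 234, 0), (939524095, 17, 12, 214, 0), (805306367, 17, 12, 214, 0), (671088639, 17, 11, 195, 0), (637534207, 17, 10, 177, 0), (536870911, 17, 12, 214, 0), (402653183, 17, 11, 195, 0), (335544319, 17, 10, 177, 0), (268435455, 17, 11, 195, 0), (134217727, 16, 11, 195, 0), (100663295, 16, 10, 177, 0), (67108863, 16, 10, 177, 0), (33554431, 15, 10, 177, 0), (16777215, 14, 10, 177, 0), (8388607, 13, 10, 177, 0), (6291455, 13, 9, 160, 0), (5767167, 13, 8, 144, 0), (4194303, 13, 9, 160, 0), (2097151, 12, 9, 160, 0), (1572863, 12, 8, 144, 0)]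

theorem Ed7_pol : polC 30 (2 ^ 80) 13 F6.Edus 7 Ed7L = true :=
  polC_of_fast (by decide +kernel) (by decide +kernel)

theorem Ed7_low : lowC 30 13 7 58 (fun a => F6.Edlv.getD a 0) F6.Edus 1572863 Ed7L = true := by
  decide +kernel

theorem Ed7_th : thChk 30 7 20 (fun a => F6.Edlv.getD a 0) (fun a => F6.Edcv.getD a 0)
    (fun a => F6.Edum.getD a 0) (fun a => Ed7th.getD a 0) = true := by decide +kernel

theorem Ed7_bm : bmC 30 7 20 1572863 (fun a => F6.Edlv.getD a 0)
    (fun a => F6.Edum.getD a 0) = true := by decide +kernel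

/-! ### two elements of level 15, two common ones of level 16 -/

/-- the thresholds at window 7, `Ee` -/
def Ee7th : List ℕ := [0, 0, 0, 0, 0, 0, 0, 0, 0, 0, 0, 0, 0, 0, 0, 0, 0, 0, 0, 1, 0, 1, 1, 2, 3, 4, 4, 5, 5]

/-- the up-sets above the base, window 7: code, `ℓ`, `M`, exponent, coefficient -/
def Ee7L : List (ℕ × ℕ × ℕ × ℕ × ℕ) := [(536870911, 17, 12, 214, 0), (402653183, 17, 11, 195, 0), (268435455, 17, 11, 195, 0), (134217727, 16, 11, 195, 0), (100663295, 16, 10, 177, 0), (67108863, 16, 10, 177, 0), (33554431, 15, 10, 177, 0), (16777215, 14, 10, 177, 0), (8388607, 13, 10, 177, 0), (6291455, 13, 9, 160, 0), (5767167, 13, 8, 144, 0), (4194303, 13, 9, 160, 0), (2097151, 12, 9, 160, 0), (1572863, 12, 8, 144, 0)]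

theorem Ee7_pol : polC 29 (2 ^ 80) 12 F6.Eeus 7 Ee7L = true :=
  polC_of_fast (by decide +kernel) (by decide +kernel)

theorem Ee7_low : lowC 29 12 7 58 (fun a => F6.Eelv.getD a 0) F6.Eeus 1572863 Ee7L = true := by
  decide +kernel

theorem Ee7_th : thChk 29 7 20 (fun a => F6.Eelv.getD a 0) (fun a => F6.Eecv.getD a 0)
    (fun a => F6.Eeum.getD a 0) (fun a => Ee7th.getD a 0) = true := by decide +kernel

theorem Ee7_bm : bmC 29 7 20 1572863 (fun a => F6.Eelv.getD a 0)
    (fun a => F6.Eeum.getD a 0) = true := by decide +kernel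

end Pool.Agent.GaussPoset.Tv
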