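import Pool.Agent.W_448s7s_h5.TvA

/-!
The local data of the component `E7` at level 14, window 7 (MP_448cb3_co, S7, `j = 14`).
-/

namespace Pool.Agent.GaussPoset.Tv

set_option linter.unusedSectionVars false

open Polynomial Finset Cl Wd Cp Sg Cs F6

universe u

variable {P : Type u} [Fintype P] [PartialOrder P] [DecidableEq P] {r : ℕ} {v : P}

/-- the check of the cells -/
def chk7 (cv lv th : List ℕ) (N k15 : ℕ) (ms : List ℕ) : Bool :=
  ((List.range 25).all fun a => Nat.beq (cv.getD a 0) (E7cv.getD a 0) &&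
    Nat.beq (lv.getD a 0) (E7lv.getD a 0)) &&
  ((List.range k15).all fun k => Nat.beq (cv.getD (25 + k) 0) (2 ^ 24) &&
    Nat.beq (lv.getD (25 + k) 0) 15 && Nat.beq (th.getD (25 + k) 0) 4) &&
  ((List.range ms.length).all fun k =>
    Nat.beq (cv.getD (25 + k15 + k) 0) (ms.getD k 0 * 2 ^ 25) &&
    Nat.beq (lv.getD (25 + k15 + k) 0) 16 && Nat.beq (th.getD (25 + k15 + k) 0) 5 &&
    Nat.blt (ms.getD k 0) (2 ^ k15)) &&
  Nat.beq (th.getD 24 0) 3 && Nat.ble (25 + k15 + ms.length) N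

/-- the data of the component -/
structure E7L7 (t : Tops P) (v : P) (θ : P → ℕ) : Prop where
  loc : ∃ B, LocL 7 2 59 (nE t v) θ B
  th14 : θ v = 3
  th15 : ∀ x, Pend x v → θ x = 4
  th16 : ∀ x ∈ A16 v, θ x = 5

variable {t : Tops P} {c : ℕ → P} {zs : List P} {L : List (P × ℕ)} {ms : List ℕ}

theorem datLoc (D : Dat v zs L ms) (C : Cod 25 (fun a => E7cv.getD a 0) (fun a => E7lv.getD a 0) c)
    (hv : c 24 = v) (hst : ∀ x, x ∈ lowPart 14 (t : P) ↔ ∃ a < 25, c a = x)
    (hlz : ∀ z, Pend z v → GaussPoset.lev z = 15)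
    (hlw : ∀ w ∈ A16 v, GaussPoset.lev w = 16) {cv lv th um Us : List ℕ} {N B K k15 : ℕ}
    {LL : List (ℕ × ℕ × ℕ × ℕ × ℕ)} (hk : zs.length = k15)
    (hchk : chk7 cv lv th N k15 ms = true)
    (hU : UsOK N (fun a => cv.getD a 0) Us)
    (hpol : polC N B K Us 7 LL = true)
    (hlow : lowC N K 7 58 (fun a => lv.getD a 0) Us 1572863 LL = true)
    (hth : thChk N 7 20 (fun a => lv.getD a 0) (fun a => cv.getD a 0) (fun a => um.getD a 0)
      (fun a => th.getD a 0) = true)
    (hbm : bmC N 7 20 1572863 (fun a => lv.getD a 0) (fun a => um.getD a 0) = true) :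
    ∃ θ, E7L7 t v θ := by
  subst hk
  unfold chk7 at hchk
  simp only [Bool.and_eq_true, List.all_eq_true, List.mem_range, beq_iff, Nat.blt_eq,
    ble_iff] at hchk
  obtain ⟨⟨⟨⟨h1, h2⟩, h3⟩, h4⟩, h5⟩ := hchk
  have hc := D.cod (cv := fun a => cv.getD a 0) (lv := fun a => lv.getD a 0) C hv hlz hlw
    (fun a ha => (h1 a ha).1) (fun a ha => (h1 a ha).2)
    (fun k hk => ⟨(h2 k hk).1.1, (h2 k hk).1.2⟩)
    (fun k hk => ⟨(h3 k hk).1.1.1, (h3 k hk).1.1.2⟩) (fun k hk => (h3 k hk).2)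
  have hS := D.surj hst
  have hlen := D.len
  refine ⟨thI (25 + zs.length + ms.length) (cE c v zs L) (fun a => th.getD a 0), ?_, ?_, ?_, ?_⟩
  · refine ⟨_, cod_locL' hc hU h5 hth (by omega) hS hpol hlow (fun x hx => hx) hbm ?_⟩
    refine lt_of_lt_of_le (b := 2 ^ 25) (by norm_num) (Nat.pow_le_pow_right (by norm_num) ?_)
    omega
  · have e : v = cE c v zs L 24 := by
      unfold cE
      rw [if_pos (by omega), if_pos (by norm_num), hv]
    have g := thI_c hc (fun a => th.getD a 0) (a := 24) (by omega)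
    rw [← e] at g
    exact g.trans h4
  · intro x hx
    obtain ⟨k, hk, h6⟩ := mem_getD (d := v) ((D.zmem x).mpr hx)
    have e : x = cE c v zs L (25 + k) := by
      unfold cE
      rw [if_pos (by omega), if_neg (by omega), Nat.add_sub_cancel_left, h6]
    rw [e, thI_c hc _ (by omega)]
    exact (h2 k hk).2
  · intro x hx
    obtain ⟨p, hp, rfl⟩ := D.lall x hx
    obtain ⟨k, hk, h6⟩ := mem_getD (d := v) (List.mem_map_of_mem (f := Prod.fst) hp)
    have e : p.1 = cE c v zs L (25 + zs.length + k) := by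
      unfold cE
      rw [if_neg (by omega), Nat.add_sub_cancel_left, h6]
    rw [e, thI_c hc _ (by omega)]
    exact (h3 k (by omega)).1.2

section Cases

variable (C : Cod 25 (fun a => E7cv.getD a 0) (fun a => E7lv.getD a 0) c)
  (hv : c 24 = v) (hst : ∀ x, x ∈ lowPart 14 (t : P) ↔ ∃ a < 25, c a = x)
  (hlz : ∀ z, Pend z v → GaussPoset.lev z = 15)
  (hlw : ∀ w ∈ A16 v, GaussPoset.lev w = 16)

include C hv hst hlz hlw

/-- at most one pendant -/
lemma case_one (D : Dat v zs L ms) {n1 n2 : ℕ} (h1 : zs.length = n1) (hn1 : n1 ≤ 1)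
    (hms : ms = List.replicate n2 1) (hn2 : n2 ≤ 2) (h0 : n1 = 0 → n2 = 0) :
    ∃ θ, E7L7 t v θ := by
  subst hms
  refine datLoc D C hv hst hlz hlw h1 ?_ F6.Ea_us Ea7_pol Ea7_low Ea7_th Ea7_bm
  obtain rfl | rfl : n1 = 0 ∨ n1 = 1 := by omega
  · rw [h0 rfl]
    decide +kernel
  · obtain rfl | rfl | rfl : n2 = 0 ∨ n2 = 1 ∨ n2 = 2 := by omega
    · decide +kernel
    · decide +kernel
    · decide +kernel

/-- two pendants without common children -/
lemma case_two (D : Dat v zs L ms) {a b : ℕ} (h1 : zs.length = 2) (ha : a ≤ 2) (hba : b ≤ a)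
    (hms : ms = List.replicate a 1 ++ List.replicate b 2) : ∃ θ, E7L7 t v θ := by
  subst hms
  by_cases h : a = 1 ∧ b = 1
  · obtain ⟨rfl, rfl⟩ := h
    exact datLoc D C hv hst hlz hlw h1 (by decide +kernel) F6.Ec_us Ec7_pol Ec7_low Ec7_th Ec7_bm
  · refine datLoc D C hv hst hlz hlw h1 ?_ F6.Eb_us Eb7_pol Eb7_low Eb7_th Eb7_bm
    obtain rfl | rfl | rfl : a = 0 ∨ a = 1 ∨ a = 2 := by omega
    · obtain rfl : b = 0 := by omega
      decide +kernel
    · obtain rfl : b = 0 := by omega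
      decide +kernel
    · obtain rfl | rfl | rfl : b = 0 ∨ b = 1 ∨ b = 2 := by omega
      · decide +kernel
      · decide +kernel
      · decide +kernel

/-- two pendants with common children -/
lemma case_com (D : Dat v zs L ms) {a b d : ℕ} (h1 : zs.length = 2) (hd : 1 ≤ d)
    (had : a + d ≤ 2) (hba : b ≤ a)
    (hms : ms = List.replicate d 3 ++ (List.replicate a 1 ++ List.replicate b 2)) :
    ∃ θ, E7L7 t v θ := by
  subst hms
  obtain rfl | rfl : d = 1 ∨ d = 2 := by omega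
  · refine datLoc D C hv hst hlz hlw h1 ?_ F6.Ed_us Ed7_pol Ed7_low Ed7_th Ed7_bm
    obtain rfl | rfl : a = 0 ∨ a = 1 := by omega
    · obtain rfl : b = 0 := by omega
      decide +kernel
    · obtain rfl | rfl : b = 0 ∨ b = 1 := by omega
      · decide +kernel
      · decide +kernel
  · obtain rfl : a = 0 := by omega
    obtain rfl : b = 0 := by omega
    exact datLoc D C hv hst hlz hlw h1 (by decide +kernel) F6.Ee_us Ee7_pol Ee7_low Ee7_th Ee7_bm

end Cases

end Pool.Agent.GaussPoset.Tv
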