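import Pool.Agent.W_448s7s_h5.TvC

/-!
The component `E7` at level 14, window 7: the costs at the end of the natural set
(MP_448cb3_co, S7, `j = 14`; after `FxP` of helper94).
-/

namespace Pool.Agent.GaussPoset.Tv

set_option linter.unusedSectionVars false

open Polynomial Finset Cl Wd Cp Sg Cs F6

universe u

variable {P : Type u} [Fintype P] [PartialOrder P] [DecidableEq P] {r : ℕ} {v : P}
variable {t : Tops P} {lo hi : ℕ → ℕ} {e : ℕ → ℕ → P}

/-- the costs of a pendant at window 7 -/
lemma E7_pct7 (hC : Cod 25 (fun a => E7cv.getD a 0) (fun a => E7lv.getD a 0) (c7 e))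
    {z : P} (hl : GaussPoset.lev z = 15) (hz : Pend z (c7 e 24)) :
    ct 7 5 z = 46 ∧ ct 7 6 z = 49 := by
  have h1 := Sg.cod_ct (um := fun a => Cs.E7um.getD a 0) hC E7_cvOK E7_umOK
    (z := z) (m := 16777216) (fun w => by
      constructor
      · intro h
        exact ⟨24, by norm_num, by decide +kernel, (hz.2 w h).symm⟩
      · rintro ⟨b, hb, hbit, rfl⟩
        have h : ∀ b < 25, (16777216 : ℕ).testBit b = true → b = 24 := by decide +kernel
        rw [h b hb hbit]
        exact hz.1) 7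
  rw [h1, h1, hl]
  decide +kernel

/-- the costs at the end of the natural set -/
lemma kap_E77 (H : Gr P r) (hv : GaussPoset.lev v = 14)
    (hpc : ∀ x, Pend x v → ct 7 5 x = 46 ∧ ct 7 6 x = 49) {θ : P → ℕ} (E : E7L7 t v θ) {z x : P}
    (hz : z ∉ nE t v) (hx : x ∈ nE t v) (hl : 15 ≤ GaussPoset.lev x) (hzx : z ⋖ x) :
    60 ≤ ct 7 (θ x + 1) z := by
  have hzl := (H.covBy_iff.mp hzx).2
  rw [mem_nE] at hx hz
  push Not at hz
  rcases hx with hx | hx | hx
  · exact absurd (mem_lowPart.mp hx).2 (by omega)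
  · rw [E.th15 x hx]
    have hxl := lev15 H hv hx
    have h1 : ∃ y, z ⋖ y ∧ ¬ Pend y v := by
      by_contra hcon
      push Not at hcon
      exact hz.2.2 (mem_A16.mpr ⟨⟨x, hzx⟩, hcon⟩)
    obtain ⟨y, hy, hyp⟩ := h1
    have hyl := (H.covBy_iff.mp hy).2
    have h2 : ∃ y', y ⋖ y' ∧ y' ≠ v := by
      by_contra hcon
      push Not at hcon
      obtain ⟨y', hy'⟩ := exists_cov' (y := y) (by omega)
      exact hyp ⟨by rw [← hcon y' hy']; exact hy', hcon⟩
    obtain ⟨y', hy', hne⟩ := h2
    have hyl' := (H.covBy_iff.mp hy').2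
    have h3 := ct_three (i := 7) (k := 5) hzx.lt hy.lt (hy.lt.trans hy'.lt) (by
      intro h
      have h4 : x = y := by
        by_contra hne'
        have := lev_strictAnti (lt_of_le_of_ne h hne')
        omega
      rw [h4] at hx
      exact hyp hx) (by
      intro h
      obtain ⟨w, hw, hwy⟩ := Hul.exists_cov (lt_of_le_of_ne h (by rintro rfl; omega))
      rw [hx.2 w hw] at hwy
      refine hne ?_
      by_contra hne'
      have := lev_strictAnti (lt_of_le_of_ne hwy fun h => hne' h.symm)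
      omega) hy'.lt.ne
    rw [(hpc x hx).1, hzl, hxl, show GaussPoset.lev y = 15 by omega,
      show GaussPoset.lev y' = 14 by omega] at h3
    exact le_trans (by norm_num) h3
  · rw [E.th16 x hx]
    have hxl := lev16 H hv hx
    obtain ⟨⟨y, hy⟩, h2⟩ := mem_A16.mp hx
    have h3 := ct_cov (i := 7) (k := 6) hy.lt
    have h4 := ct_cov (i := 7) (k := 6) hzx.lt
    rw [(hpc y (h2 y hy)).2, hxl] at h3
    rw [hzl, hxl] at h4
    have h5 : min 6 (16 - 7) = 6 := by norm_num
    have h6 : min 6 (16 + 1 - 7) = 6 := by norm_num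
    rw [h5] at h3
    rw [h6] at h4
    show 60 ≤ ct 7 6 z
    omega

end Pool.Agent.GaussPoset.Tv
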