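import Pool.Agent.W_448s14_h94.SgN
import Pool.Agent.W_448s8f_h76.FjA
import Pool.Agent.W_448s7s_h5.SmF

/-!
`j = 14`, energy 25 at the window 7, with joins of a fold end and an end `(5, 25, 0)`
(MP_448cb3_co, S7; after `SgL` of helper94): the context.
-/

namespace Pool.Agent.GaussPoset.Tv

set_option linter.unusedSectionVars false

open Polynomial Finset Cl Dd Wd Win Sg

universe u

variable {P : Type u} [Fintype P] [PartialOrder P] [DecidableEq P] {r : ℕ}

/-- the context -/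
structure D7F (r : ℕ) (N A : Tops P → Finset P) (b : Tops P → ℕ) (θ : Tops P → P → ℕ)
    (B : Tops P → P → Prop) (ρ : Tops P → ℤ) : Prop where
  gt : GoodTo P r 14
  hjn : ∀ z x y : P, lev z = 15 → z ⋖ x → z ⋖ y → topOf x ≠ topOf y →
    ∀ k, 1 ≤ k → 26 ≤ ct 7 k z
  typ : ∀ t, T25 t (b t) (N t) (A t) (θ t) (B t) (ρ t)
  sum_b : ∑ t, b t = (lv P 7).card

variable {N A : Tops P → Finset P} {b : Tops P → ℕ} {θ : Tops P → P → ℕ} {B : Tops P → P → Prop}
  {ρ : Tops P → ℤ}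

lemma D7F.lowUp (W : D7F r N A b θ B ρ) (t : Tops P) :
    ∀ x ∈ lowPart 14 (t : P), ∀ y, x ≤ y → y ∈ lowPart 14 (t : P) := by
  intro x hx y hxy
  rw [mem_lowPart] at hx ⊢
  refine ⟨Cp.up_le W.gt.H W.gt.good t.2 hx.1 hx.2 hxy, ?_⟩
  rcases eq_or_lt_of_le hxy with h | h
  · rw [← h]; exact hx.2
  · have := lev_strictAnti h; omega

/-- the elements of the extended strips -/
lemma D7F.mem_A (W : D7F r N A b θ B ρ) {t : Tops P} {x : P} (hx : x ∈ A t) : lev x = 15 ∧
    (∀ y, x ⋖ y → y ∈ lowPart 14 (t : P)) ∧ ∀ z, z ⋖ x → 26 ≤ ct 7 (θ t x + 1) z := by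
  rcases W.typ t with ⟨h1, h2, h3, h4⟩ | ⟨lo, hi, e, C, D, h1, h2, h3, h4⟩
  · rw [h2] at hx
    exact absurd hx (Finset.notMem_empty x)
  · obtain ⟨m, hm, hmk, -⟩ := h4.ext.ex x hx
    refine ⟨hmk.1, fun y hy => ?_, fun z hz => h4.costA z x hx hz⟩
    obtain ⟨a, ha, -, rfl⟩ := (hmk.2 y).mp hy
    have h5 := La7_le D C ha
    have h6 := (W.gt.H.covBy_iff.mp hy).2
    have h7 := hmk.1
    rw [mem_lowPart]
    exact ⟨h5.1, by omega⟩

lemma D7F.sysM (W : D7F r N A b θ B ρ) : NatSys (MA A) where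
  up := by
    intro t x hx y hxy
    unfold MA at hx ⊢
    rw [mem_union] at hx ⊢
    rcases hx with hx | hx
    · exact Or.inl (W.lowUp t x hx y hxy)
    · rcases eq_or_lt_of_le hxy with h | h
      · rw [← h]
        exact Or.inr hx
      · obtain ⟨v, hv, hvy⟩ := Hul.exists_cov h
        exact Or.inl (W.lowUp t v ((W.mem_A hx).2.1 v hv) y hvy)
  le_t := by
    intro t x hx
    unfold MA at hx
    rw [mem_union] at hx
    rcases hx with hx | hx
    · exact (mem_lowPart.mp hx).1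
    · have h1 := (W.mem_A hx).1
      have h2 : x < (topOf x : P) := lt_of_le_of_ne (le_topOf x) (by
        intro h
        have := (topOf x).2
        rw [← h] at this
        omega)
      obtain ⟨v, hv, -⟩ := Hul.exists_cov h2
      exact hv.le.trans (mem_lowPart.mp ((W.mem_A hx).2.1 v hv)).1

lemma D7F.sysN (W : D7F r N A b θ B ρ) : NatSys N where
  up := by
    intro t
    rcases W.typ t with ⟨h1, h2, h3, h4⟩ | ⟨lo, hi, e, C, D, h1, h2, h3, h4⟩
    · exact h1.nt.up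
    · rw [h1]
      exact W.sysM.up t
  le_t := by
    intro t
    rcases W.typ t with ⟨h1, h2, h3, h4⟩ | ⟨lo, hi, e, C, D, h1, h2, h3, h4⟩
    · exact h1.nt.le_t
    · rw [h1]
      exact W.sysM.le_t t

lemma D7F.sub (W : D7F r N A b θ B ρ) (t : Tops P) : MA A t ⊆ N t := by
  rcases W.typ t with ⟨h1, h2, h3, h4⟩ | ⟨lo, hi, e, C, D, h1, h2, h3, h4⟩
  · unfold MA
    rw [h2, Finset.union_empty]
    exact h1.strip
  · rw [h1]
    exact Finset.Subset.refl _

lemma D7F.unnat_sub (W : D7F r N A b θ B ρ) : unnat N ⊆ unnat (MA A) := by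
  intro x hx
  rw [mem_unnat] at hx ⊢
  exact fun t h => hx t (W.sub t h)

lemma D7F.low (W : D7F r N A b θ B ρ) {x : P} (hx : lev x ≤ 14) : x ∈ MA A (topOf x) :=
  mem_union_left _ (mem_lowPart.mpr ⟨le_topOf x, hx⟩)

lemma D7F.lt_lev (W : D7F r N A b θ B ρ) {x : P} (hx : x ∈ unnat (MA A)) : 14 < lev x := by
  by_contra hcon
  exact mem_unnat.mp hx (topOf x) (W.low (by omega))

lemma D7F.base (W : D7F r N A b θ B ρ) {t : Tops P} {x : P} (hx : x ∈ N t) (hB : B t x) :
    lev x ≤ 14 := by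
  rcases W.typ t with ⟨h1, h2, h3, h4⟩ | ⟨lo, hi, e, C, D, h1, h2, h3, h4⟩
  · exact h1.base x hx hB
  · rw [h3] at hB
    have h5 := (La7_le D C (a := 29) (by norm_num)).2
    rw [show x = ce e 29 from hB, h5]
    decide +kernel

lemma D7F.not_BA (W : D7F r N A b θ B ρ) : ∀ x ∈ unnat (MA A), ¬ Dd.BA N B x := by
  rintro x hx ⟨h1, h2⟩
  have h3 := W.lt_lev hx
  have hxN : x ∈ N (topOf x) := W.sysN.mem_iff.mpr ⟨h1, rfl⟩
  have := W.base hxN h2
  omega

theorem D7F.compL (W : D7F r N A b θ B ρ) (t : Tops P) :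
    CompDataL (unnat (MA A)) topOf t 7 (b t) 25 (Dd.thA θ) (Dd.BA N B) := by
  have HN := W.sysN
  have e1 : ∀ x ∈ N t, Dd.thA θ x = θ t x := by
    intro x hx
    show θ (topOf x) x = _
    rw [HN.topOf_eq hx]
  have e2 : ∀ x ∈ N t, Dd.BA N B x ↔ B t x := by
    intro x hx
    unfold Dd.BA
    simp only [HN.topOf_eq hx, (HN.mem_iff.mp hx).1, not_false_eq_true, true_and]
  rcases W.typ t with ⟨h1, h2, h3, h4⟩ | ⟨lo, hi, e, C, D, h1, h2, h3, h4⟩
  · exact CompDataL.of (CompData.mono (h1.nt.data N HN rfl _ _ e1 e2) W.unnat_sub) 25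
  · have h5 : LocL 7 2 25 (N t) (θ t) (B t) := by
      rw [h1, h3]
      exact h4.ext.loc
    rw [h2]
    exact compDataL_mono (h5.data HN _ _ e1 e2) W.unnat_sub

/-- the covers of an element of level 15 are below one maximal element -/
lemma D7F.cov_top {z x y : P} (hc : ¬ ∃ x y : P, z ⋖ x ∧ z ⋖ y ∧ topOf x ≠ topOf y)
    (hx : z ⋖ x) (hy : z ⋖ y) : y ≤ (topOf x : P) := by
  have h1 : topOf x = topOf y := by
    by_contra hne
    exact hc ⟨x, y, hx, hy, hne⟩
  rw [h1]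
  exact le_topOf y

/-- **The costs.** -/
theorem D7F.cost (W : D7F r N A b θ B ρ) {z : P} (hz : z ∈ bdR (unnat (MA A))) :
    26 ≤ cst 7 (hcan (unnat (MA A)) (Dd.thA θ)) z := by
  classical
  have H := W.gt.H
  obtain ⟨x, hx, hzx, hh⟩ := hcan_spec (θ := Dd.thA θ) hz
  have hh' : hcan (unnat (MA A)) (Dd.thA θ) z = θ (topOf x) x + 1 := hh
  have hzR := (mem_filter.mp hz).1
  have hzl := W.lt_lev hzR
  have hzc := (H.covBy_iff.mp hzx).2
  rw [cst_ct (i := 7) hh']
  have hxM : x ∈ MA A (topOf x) := W.sysM.mem_iff.mpr ⟨hx, rfl⟩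
  unfold MA at hxM
  rw [mem_union, mem_lowPart] at hxM
  rcases hxM with ⟨-, hxl⟩ | hxA
  · have hlx : lev x = 14 := by omega
    have hlz : lev z = 15 := by omega
    by_cases hc : ∃ x y : P, z ⋖ x ∧ z ⋖ y ∧ topOf x ≠ topOf y
    · obtain ⟨a, c, g1, g2, g3⟩ := hc
      exact W.hjn z a c hlz g1 g2 g3 _ (by omega)
    rcases W.typ (topOf x) with ⟨h1, h2, h3, h4⟩ | ⟨lo, hi, e, C, D, h1, h2, h3, h4⟩
    · rcases h1.cost x (le_topOf x) hlx with h5 | ⟨h5, h6⟩
      · have h7 := ct_cov (i := 7) (k := θ (topOf x) x + 1) hzx.1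
        rw [hlz] at h7
        omega
      · obtain ⟨h7, h8⟩ := h4 x (le_topOf x) hlx h5 h6
        refine absurd ⟨hzx, fun y hy => ?_⟩ (h8 z hlz)
        refine h7 y (D7F.cov_top hc hzx hy) ?_
        have := (H.covBy_iff.mp hy).2
        omega
    · refine h4.cost z hlz (fun y hy => D7F.cov_top hc hzx hy) ?_ x hzx
      intro h
      exact mem_unnat.mp hzR (topOf x) (mem_union_right _ h)
  · exact (W.mem_A hxA).2.2 z hzx

/-- **No component with an element below the ends.** -/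
theorem D7F.no_pos (W : D7F r N A b θ B ρ) {t0 : Tops P} (h0 : 0 < ρ t0) : False := by
  classical
  have HM := W.sysM
  have hρ0 : ∀ t, 0 ≤ ρ t := by
    intro t
    rcases W.typ t with ⟨h1, h2, h3, h4⟩ | ⟨lo, hi, e, C, D, h1, h2, h3, h4⟩
    · rw [h3]
    · exact h4.nonneg
  refine no_first_pole_sum (n0 := 25) (i := 7) (by omega) W.gt.H.gauss HM.lower
    (fun x hx => by have := W.lt_lev hx; omega) topOf HM.cp b (Dd.thA θ) (Dd.BA N B) W.not_BA
    W.compL ?_ W.sum_b (fun z hz => by have := W.cost hz; omega) ρ ?_ ?_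
  · intro t
    rcases W.typ t with ⟨h1, h2, h3, h4⟩ | ⟨lo, hi, e, C, D, h1, h2, h3, h4⟩
    · exact h1.one
    · omega
  · intro t
    rcases W.typ t with ⟨h1, h2, h3, h4⟩ | ⟨lo, hi, e, C, D, h1, h2, h3, h4⟩
    · left
      refine ⟨h3, fun n => ?_⟩
      have HN := W.sysN
      have h6 : CompData (unnat N) topOf t 7 (b t) (Dd.thA θ) (Dd.BA N B) := by
        refine h1.nt.data N HN rfl _ _ ?_ ?_
        · intro x hx
          show θ (topOf x) x = _
          rw [HN.topOf_eq hx]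
        · intro x hx
          unfold Dd.BA
          simp only [HN.topOf_eq hx, (HN.mem_iff.mp hx).1, not_false_eq_true, true_and]
      have h7 := (CompData.mono h6 W.unnat_sub).clean (unnat (MA A))
        ⟨HM.lower, Subset.refl _, fun x hx => by have := W.lt_lev hx; omega, W.not_BA⟩
        inferInstance
      exact dvd_Z_of_dvd_W h7 n
    · right
      intro f hf
      rw [h2]
      refine h4.ext.pl f fun n => ?_
      rw [hf, ← Z_iso (isoPart HM t (Subset.refl _) (lowPart 14 (t : P) ∪ A t) (fun x => by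
        refine ⟨fun h => ⟨h, fun h' => mem_unnat.mp h' t h⟩, fun h => h.1⟩))]
  · have h1 : 0 < ∑ t, ρ t := Finset.sum_pos' (fun t _ => hρ0 t) ⟨t0, mem_univ _, h0⟩
    exact h1.ne'

end Pool.Agent.GaussPoset.Tv
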