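import Pool.Agent.W_448s7s_h5.TvD
import Pool.Agent.W_448w7_h94.WiA

/-!
The component `E7` at level 14, window 7, in the form of `WiA` of helper94 (MP_448cb3_co, S7,
`j = 14`; after `FxP` of helper94).
-/

namespace Pool.Agent.GaussPoset.Tv

set_option linter.unusedSectionVars false

open Polynomial Finset Cl Wd Cp Sg Cs F6

universe u

variable {P : Type u} [Fintype P] [PartialOrder P] [DecidableEq P] {r : ℕ} {v : P}
variable {t : Tops P} {lo hi : ℕ → ℕ} {e : ℕ → ℕ → P}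

/-- a smaller energy -/
lemma locL_le {i b n0 n1 : ℕ} {N : Finset P} {θ : P → ℕ} {B : P → Prop}
    (h : LocL i b n0 N θ B) (hn : n1 ≤ n0) : LocL i b n1 N θ B :=
  ⟨fun U h1 h2 h3 h4 n h5 => h.clean U h1 h2 h3 h4 n (by omega), h.lev, h.base, h.step, h.le⟩

/-- **The type of `E7`.** -/
theorem oth_E77 (h : Win.GoodTo P r 14) (C : Comp 14 (t : P) lo hi e) (D : WordD 14 4 w7 lo hi)
    {N : Tops P → Finset P} {θ : P → ℕ} (hN : N t = nE t (c7 e 24))
    (E : E7L7 t (c7 e 24) θ) : W7.Oth N t θ := by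
  have H := h.H
  have hC := E7_cod14 D C H h.good
  have hst := E7_low D C
  have hl := E7_l14 D C
  have hone : ∀ x, x ≤ (t : P) → GaussPoset.lev x = 14 → x = c7 e 24 :=
    fun x hx hxl => E7_one D C hx hxl
  have hvt : c7 e 24 ≤ (t : P) := (E7_le D C (by norm_num)).1
  have hprof := E7_prof hC
  have huc := E7_uc hC
  have hpc : ∀ x, Pend x (c7 e 24) → ct 7 5 x = 46 ∧ ct 7 6 x = 49 :=
    fun x hx => E7_pct7 hC (lev15 H hl hx) hx
  have hup : ∀ x ∈ lowPart 14 (t : P), ∀ y, x ≤ y → y ∈ lowPart 14 (t : P) := by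
    intro x hx y hxy
    rw [mem_lowPart] at hx ⊢
    refine ⟨Cp.up_le H h.good t.2 hx.1 hx.2 hxy, ?_⟩
    rcases eq_or_lt_of_le hxy with h | h
    · rw [← h]; exact hx.2
    · have := lev_strictAnti h; omega
  generalize c7 e 24 = v at *
  have hvlow : v ∈ lowPart 14 (t : P) := mem_lowPart.mpr ⟨hvt, hl.le⟩
  have hup15 : ∀ x, Pend x v → ∀ y, x ≤ y → y ∈ nE t v := by
    intro x hx y hxy
    rcases eq_or_lt_of_le hxy with h1 | h1
    · rw [← h1]
      exact mem_nE.mpr (Or.inr (Or.inl hx))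
    · obtain ⟨w, hw, hwy⟩ := Hul.exists_cov h1
      rw [hx.2 w hw] at hwy
      exact mem_nE.mpr (Or.inl (hup v hvlow y hwy))
  refine ⟨?_, ?_, ?_, ?_, ?_, ?_, ?_, ?_, ?_, ?_⟩
  · rw [hN]
    obtain ⟨B, h1⟩ := E.loc
    exact ⟨B, locL_le h1 (by norm_num)⟩
  · rw [hN]
    intro x hx
    exact mem_nE.mpr (Or.inl hx)
  · rw [hN]
    intro x hx
    rcases mem_nE.mp hx with hx | hx | hx
    · exact (mem_lowPart.mp hx).1
    · exact hx.1.le.trans hvt
    · obtain ⟨⟨y, hy⟩, h2⟩ := mem_A16.mp hx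
      exact hy.le.trans ((h2 y hy).1.le.trans hvt)
  · rw [hN]
    intro x hx y hxy
    rcases mem_nE.mp hx with hx | hx | hx
    · exact mem_nE.mpr (Or.inl (hup x hx y hxy))
    · exact hup15 x hx y hxy
    · rcases eq_or_lt_of_le hxy with h1 | h1
      · rw [← h1]
        exact mem_nE.mpr (Or.inr (Or.inr hx))
      · obtain ⟨w, hw, hwy⟩ := Hul.exists_cov h1
        exact hup15 w ((mem_A16.mp hx).2 w hw) y hwy
  · intro a b ha hb hal hbl
    rw [hone a ha hal, hone b hb hbl]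
  · intro z w _ hw hwl hzw
    rw [hone w hw hwl] at hzw
    rw [hN]
    exact mem_nE.mpr (Or.inr (Or.inl hzw))
  · intro w hw hwl
    rw [hone w hw hwl]
    exact ⟨hprof, E.th14, huc⟩
  · classical
    unfold cn
    refine (Finset.card_le_card (t := {c7 e 2}) ?_).trans (Finset.card_singleton _).le
    intro x hx
    obtain ⟨hx1, hx2⟩ := Finset.mem_filter.mp hx
    rw [mem_lv] at hx1
    obtain ⟨a, ha, rfl⟩ := (hst x).mp (mem_lowPart.mpr ⟨hx2, by omega⟩)
    have h2 : E7lv.getD a 0 = 2 := (hC.lev a ha).symm.trans hx1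
    have h3 : ∀ a < 25, E7lv.getD a 0 = 2 → a = 2 := by decide +kernel
    rw [h3 a ha h2]
    exact mem_singleton_self _
  · intro z hz x hx hxl hzx
    have hz' : z ∉ nE t v := by
      rw [← hN]
      exact mem_unnat.mp hz t
    rw [hN] at hx
    exact le_trans (by norm_num) (kap_E77 H hl hpc E hz' hx (by omega) hzx)
  · intro z hz x hx hxl hw
    have hz' : z ∉ nE t v := by
      rw [← hN]
      exact mem_unnat.mp hz t
    rw [hN] at hx
    exact tw_E7 H hl hz' hx (by omega) hw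

/-- **`E7` at the window 7** -/
theorem exists_oth (h : Win.GoodTo P r 14) (C : Comp 14 (t : P) lo hi e)
    (D : WordD 14 4 w7 lo hi) : ∃ (Nt : Finset P) (θ : P → ℕ), ∀ N : Tops P → Finset P,
      N t = Nt → W7.Oth N t θ := by
  obtain ⟨θ, E⟩ := exists_E7L7 h C D
  exact ⟨nE t (c7 e 24), θ, fun N hN => oth_E77 h C D hN E⟩

/-- the width of `E7` at the window 7 -/
lemma E7_b (C : Comp 14 (t : P) lo hi e) (D : WordD 14 4 w7 lo hi) : hi 7 - lo 7 + 1 = 2 := by
  obtain ⟨h1, h2⟩ := D.rows C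
  rw [h1 7 (by omega), h2 7 (by omega)]
  decide +kernel

end Pool.Agent.GaussPoset.Tv
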