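import Pool.Agent.W_448s14_h94.SgJ

/-!
Level 14, window 7: the costs below a strip `La7` (MP_448cb3_co, S7, S8, `j = 14`).
-/

namespace Pool.Agent.GaussPoset.Tv

set_option linter.unusedSectionVars false

open Polynomial Finset Cl Dd Wd Win Sg

universe u

variable {P : Type u} [Fintype P] [PartialOrder P] [DecidableEq P]

/-- the elements above an element whose covers are coded -/
lemma cod_nab {n : ℕ} {cv lv um : ℕ → ℕ} {c : ℕ → P} (C : Cod n cv lv c)
    (hcv : ∀ a < n, cv a < 2 ^ a) (hum : ∀ a < n, um a = Nat.lor (2 ^ a) (orM um n (cv a)))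
    {z : P} {m : ℕ} (hz : ∀ y, z ⋖ y ↔ ∃ b < n, m.testBit b = true ∧ c b = y) {l : ℕ}
    (hl : l ≠ GaussPoset.lev z) : nab l z =
      ((range n).filter (fun b => (orM um n m).testBit b = true ∧ lv b = l)).card := by
  classical
  unfold nab
  symm
  refine Finset.card_bij (fun a _ => c a) ?_ ?_ ?_
  · intro a ha
    rw [mem_filter, mem_range] at ha
    rw [mem_filter, mem_lv]
    refine ⟨(C.lev a ha.1).trans ha.2.2, ?_⟩
    obtain ⟨b, hb, hbb, h1⟩ := (orM_testBit _ _ _ _).mp ha.2.1
    exact ((hz (c b)).mpr ⟨b, hb, hbb, rfl⟩).le.trans ((C.le_iff le_rfl hcv hum hb ha.1).mpr h1)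
  · intro a ha b hb h
    rw [mem_filter, mem_range] at ha hb
    exact C.inj a ha.1 b hb.1 h
  · intro y hy
    rw [mem_filter, mem_lv] at hy
    have hne : z ≠ y := by
      rintro rfl
      exact hl hy.1.symm
    obtain ⟨v, hv, hvy⟩ := Hul.exists_cov (lt_of_le_of_ne hy.2 hne)
    obtain ⟨a, ha, hab, rfl⟩ := (hz v).mp hv
    obtain ⟨b, hb, rfl⟩ := cod_above C ha hvy
    refine ⟨b, mem_filter.mpr ⟨mem_range.mpr hb, ?_, (C.lev b hb).symm.trans hy.1⟩, rfl⟩
    exact (orM_testBit _ _ _ _).mpr ⟨a, ha, hab, (C.le_iff le_rfl hcv hum ha hb).mp hvy⟩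

variable {r : ℕ} {t : P} {lo hi : ℕ → ℕ} {e : ℕ → ℕ → P} {z c d p : P} {m : ℕ}

/-- the cost of a pendant -/
lemma ct_of_pend {i k : ℕ} (h : Pend z c) : ct i k z = min k (lev z - i) + ct i k c := by
  classical
  rw [ct_succ, ct_eq_sum]
  congr 1
  refine Finset.sum_congr rfl fun y _ => ?_
  have h1 : z < y ↔ c ≤ y := by
    constructor
    · intro hy
      obtain ⟨v, hv, hvy⟩ := Hul.exists_cov hy
      rwa [h.2 v hv] at hvy
    · intro hy
      exact h.1.lt.trans_le hy
  by_cases h2 : c ≤ y
  · rw [if_pos h2, if_pos (h1.mpr h2)]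
  · rw [if_neg h2, if_neg fun h3 => h2 (h1.mp h3)]

/-- the code of the strip with two elements of level 15, the covers -/
def cvJ (m : ℕ) : List ℕ := La7cv ++ [805306368, m]

/-- the levels -/
def lvJ : List ℕ := La7lv ++ [15, 15]

/-- the cells above -/
def umJ (m : ℕ) : List ℕ := La7um ++ [Nat.lor (2 ^ 30) (orM (fun a => La7um.getD a 0) 30
  805306368), Nat.lor (2 ^ 31) (orM (fun a => La7um.getD a 0) 30 m)]

section La7

variable (D : WordD 14 7 wa7 lo hi) (C : Cp.Comp 14 t lo hi e) (hgt : GoodTo P r 14)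
  (ht : lev t = 0)

include D C hgt ht

/-- the elements above an element of level 15 below the strip -/
lemma La7_nab (hz : Mk e z m) {l : ℕ} (hl : l ≤ 14) : nab l z =
    ((range 30).filter (fun b => (orM (fun a => La7um.getD a 0) 30 m).testBit b = true ∧
      La7lv.getD b 0 = l)).card :=
  cod_nab (La7_cod D C hgt.H hgt.good ht) La7_us.cv La7_um hz.2 (by rw [hz.1]; omega)

/-- the element below the last two cells -/
theorem c34_facts (hc : Mk e c 805306368) : ct 7 2 c = 28 ∧ ct 7 3 c = 39 ∧ nab 7 c = 2 ∧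
    nab 8 c = 2 ∧ nab 9 c = 2 := by
  rw [La7_ct D C hgt ht hc.1 hc.2, La7_ct D C hgt ht hc.1 hc.2, La7_nab D C hgt ht hc (by omega),
    La7_nab D C hgt ht hc (by omega), La7_nab D C hgt ht hc (by omega)]
  decide +kernel

/-- the pendant of the first cell -/
theorem p0_facts (hp : Mk e p 33554432) : ct 7 5 p = 40 ∧ nab 7 p = 2 ∧ nab 12 p = 1 ∧
    nst 7 (fun _ => 5) p = 10 := by
  rw [La7_ct D C hgt ht hp.1 hp.2, nst_eq]
  simp only [Finset.sum_range_succ, Finset.sum_range_zero]
  rw [La7_nab D C hgt ht hp (by omega), La7_nab D C hgt ht hp (by omega),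
    La7_nab D C hgt ht hp (by omega), La7_nab D C hgt ht hp (by omega),
    La7_nab D C hgt ht hp (by omega), La7_nab D C hgt ht hp (by omega)]
  decide +kernel

/-- all costs with the label 2 -/
theorem ct2_facts (hz : Mk e z m) (hm : m ∈ [33554432, 67108864, 100663296, 201326592, 402653184,
    805306368]) : 21 ≤ ct 7 2 z := by
  rw [La7_ct D C hgt ht hz.1 hz.2]
  revert hm m
  intro m _ hm
  have h : ∀ m ∈ [33554432, 67108864, 100663296, 201326592, 402653184, 805306368],
      21 ≤ min 2 8 + ∑ b ∈ (range 30).filter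
        (fun b => (orM (fun a => La7um.getD a 0) 30 m).testBit b = true),
          min 2 (La7lv.getD b 0 - 7) := by decide +kernel
  exact h m hm

/-- the first cell of level 14 -/
theorem y0_facts : ct 7 2 (ce e 25) = 20 ∧ nab 7 (ce e 25) = 2 ∧ nab 8 (ce e 25) = 2 ∧
    nab 9 (ce e 25) = 2 := by
  have hC := La7_cod D C hgt.H hgt.good ht
  have hl := (La7_le D C (a := 25) (by norm_num)).2
  have hl14 : La7lv.getD 25 0 = 14 := by decide +kernel
  rw [hl14] at hl
  have hcov := hC.cov 25 (by norm_num)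
  rw [cod_ct hC La7_us.cv La7_um hcov, cod_nab hC La7_us.cv La7_um hcov (by rw [hl]; omega),
    cod_nab hC La7_us.cv La7_um hcov (by rw [hl]; omega),
    cod_nab hC La7_us.cv La7_um hcov (by rw [hl]; omega), hl]
  decide +kernel

/-- the elements of level 16 below the pendant of the second cell -/
theorem below_p1 (hd : Mk e d 67108864) (hz : z ⋖ d) : 51 ≤ ct 7 5 z := by
  have h1 := La7_ct D C hgt ht hd.1 hd.2 5
  have h2 := ct_cov (i := 7) (k := 5) hz.lt
  have h3 := (hgt.H.covBy_iff.mp hz).2
  rw [h3, hd.1] at h2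
  have h4 : 46 ≤ ct 7 5 d := by
    rw [h1]
    decide +kernel
  omega

/-- the elements of level 16 below the element under the second and the third cell -/
theorem below_c12 (hd : Mk e d 201326592) (hz : z ⋖ d) : 51 ≤ ct 7 4 z := by
  have h1 := La7_ct D C hgt ht hd.1 hd.2 4
  have h2 := ct_cov (i := 7) (k := 4) hz.lt
  have h3 := (hgt.H.covBy_iff.mp hz).2
  rw [h3, hd.1] at h2
  have h4 : 47 ≤ ct 7 4 d := by
    rw [h1]
    decide +kernel
  omega

/-- the elements of level 16 below the element under the third and the fourth cell -/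
theorem below_c23 (hd : Mk e d 402653184) (hz : z ⋖ d) : 51 ≤ ct 7 3 z := by
  have h1 := La7_ct D C hgt ht hd.1 hd.2 3
  have h2 := ct_cov (i := 7) (k := 3) hz.lt
  have h3 := (hgt.H.covBy_iff.mp hz).2
  rw [h3, hd.1] at h2
  have h4 : 48 ≤ ct 7 3 d := by
    rw [h1]
    decide +kernel
  omega

/-- the pendants of level 16 below the element under the last two cells -/
theorem pend_c34 (hc : Mk e c 805306368) (hz : Pend z c) : ct 7 2 z = 30 := by
  have h1 := (c34_facts D C hgt ht hc).1
  have h3 := (hgt.H.covBy_iff.mp hz.1).2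
  rw [ct_of_pend hz, h1, h3, hc.1]
  norm_num

/-- the elements of level 16 below the element `c` under the last two cells and another element -/
theorem join_facts (hc : Mk e c 805306368) (hd : Mk e d m)
    (hm : m = 67108864 ∨ m = 201326592 ∨ m = 402653184)
    (hz : ∀ y, z ⋖ y ↔ y = c ∨ y = d) : 40 ≤ ct 7 2 z ∧ 57 ≤ ct 7 3 z ∧ nab 7 z = 2 ∧
      nab 8 z = 2 ∧ nab 9 z = 2 := by
  have hb : m.testBit 29 = false := by
    rcases hm with rfl | rfl | rfl <;> decide
  have hne : c ≠ d := hc.ne D C hgt ht hd (b := 29) (by norm_num) (by decide) hb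
  have hl : GaussPoset.lev z = 16 := by
    have := (hgt.H.covBy_iff.mp ((hz c).mpr (Or.inl rfl))).2
    rw [hc.1] at this
    exact this
  have hzm : ∀ y, z ⋖ y ↔ ∃ b < 30 + 2, (3221225472 : ℕ).testBit b = true ∧
      cz e (two c d) b = y := by
    intro y
    have h0 : ∀ b < 32, (3221225472 : ℕ).testBit b = true → b = 30 ∨ b = 31 := by decide +kernel
    have e0 : cz e (two c d) 30 = c := rfl
    have e1 : cz e (two c d) 31 = d := rfl
    rw [hz]
    constructor
    · rintro (rfl | rfl)
      · exact ⟨30, by norm_num, by decide, e0⟩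
      · exact ⟨31, by norm_num, by decide, e1⟩
    · rintro ⟨b, hb, hbit, rfl⟩
      rcases h0 b hb hbit with rfl | rfl
      · exact Or.inl e0
      · exact Or.inr e1
  have key : ∀ (m : ℕ), Mk e d m → (∀ a < 32, (cvJ m).getD a 0 < 2 ^ a) →
      (∀ a < 32, (umJ m).getD a 0 = Nat.lor (2 ^ a)
        (orM (fun a => (umJ m).getD a 0) 32 ((cvJ m).getD a 0))) → m < 2 ^ 30 →
      (∀ a < 30, (cvJ m).getD a 0 = La7cv.getD a 0) →
      (cvJ m).getD 30 0 = 805306368 → (cvJ m).getD 31 0 = m →
      (∀ k, ct 7 k z = min k 9 + ∑ b ∈ (range 32).filter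
        (fun b => (orM (fun a => (umJ m).getD a 0) 32 3221225472).testBit b = true),
          min k (lvJ.getD b 0 - 7)) ∧ ∀ l, l ≤ 14 → nab l z = ((range 32).filter
            (fun b => (orM (fun a => (umJ m).getD a 0) 32 3221225472).testBit b = true ∧
              lvJ.getD b 0 = l)).card := by
    intro m hd h1 h2 h3 h4 h5 h6
    have hC : Cod (30 + 2) (fun a => (cvJ m).getD a 0) (fun a => lvJ.getD a 0)
        (cz e (two c d)) := by
      refine La7_ext D C hgt ht (cx := fun k => if k = 0 then 805306368 else m) h4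
        (by decide +kernel) ?_ ?_ ?_ (two_inj hne) (two_all hc hd)
      · intro k hk
        obtain rfl | rfl : k = 0 ∨ k = 1 := by omega
        · exact h5
        · exact h6
      · intro k hk
        obtain rfl | rfl : k = 0 ∨ k = 1 := by omega
        · decide
        · decide
      · intro k hk
        obtain rfl | rfl : k = 0 ∨ k = 1 := by omega
        · norm_num
        · exact h3
    refine ⟨fun k => ?_, fun l hl2 => ?_⟩
    · rw [cod_ct hC h1 h2 hzm, hl]
    · rw [cod_nab hC h1 h2 hzm (by rw [hl]; omega)]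
  rcases hm with rfl | rfl | rfl
  · obtain ⟨g1, g2⟩ := key _ hd (by decide +kernel) (by decide +kernel) (by norm_num)
      (by decide +kernel) (by decide) (by decide)
    rw [g1, g1, g2 7 (by norm_num), g2 8 (by norm_num), g2 9 (by norm_num)]
    decide +kernel
  · obtain ⟨g1, g2⟩ := key _ hd (by decide +kernel) (by decide +kernel) (by norm_num)
      (by decide +kernel) (by decide) (by decide)
    rw [g1, g1, g2 7 (by norm_num), g2 8 (by norm_num), g2 9 (by norm_num)]
    decide +kernel
  · obtain ⟨g1, g2⟩ := key _ hd (by decide +kernel) (by decide +kernel) (by norm_num)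
      (by decide +kernel) (by decide) (by decide)
    rw [g1, g1, g2 7 (by norm_num), g2 8 (by norm_num), g2 9 (by norm_num)]
    decide +kernel

end La7

end Pool.Agent.GaussPoset.Tv
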