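import Pool.Agent.W_448j6_h22.KbK

/-!
MP_448cb3_co, G2, case B, window `j`: the rows with three sites: the value (3,2), the heavy joins.
helper5.
-/

namespace Pool.Agent.GaussPoset.EK

set_option linter.unusedSectionVars false

open Finset Win St Polynomial Wd Win.W4

universe u

variable {P : Type u} [Fintype P] [PartialOrder P] [DecidableEq P] {r i j : ℕ}

variable {x : ℕ → P} {c : ℕ → ℤ} {β : ℤ} {t : Tops P}

variable {K : Finset P} {psi : P → P}

/-- a row with three sites and a defect has (3,2) different from zero -/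
theorem NJ.w3_ne (h : NJ P r j) (hj : 2 ≤ j) (B : RowB P j t 2 x c β)
    (hd : ¬ (β = 0 ∧ ∀ k, k < 2 → c k = 0)) :
    I2.w3 (I2.bb j (j + 1) (topOf : P → Tops P) t) (I2.VV j (j + 1) (topOf : P → Tops P) t) ≠
      0 := by
  classical
  intro hw
  have hjr : j ≤ r := by have := h.hr; omega
  have H := h.g.H
  obtain ⟨K, psi, R⟩ := exists_red P j
  have hst : (st j (cext (j + 1) (topOf : P → Tops P) t)).card ≤ 3 := by
    have h5 : st j (cext (j + 1) (topOf : P → Tops P) t) ⊆ (range 3).image x := by
      intro v hv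
      rw [mem_sites h.split] at hv
      obtain ⟨k, hk, rfl⟩ := B.row.surj v hv.1 hv.2
      exact mem_image_of_mem x (mem_range.2 (by omega))
    have h6 := (card_le_card h5).trans card_image_le
    rwa [card_range] at h6
  have h0 := K2.three_natural H hjr (NJ.noQ h hj) (fun m hm => h.g.good m (by omega)) h.split R
    (a := t) hst hw
  have key : ∀ a b, a < b → b ≤ 2 → Df j {x a, x b} = 0 := by
    intro a b hab hb
    rw [← fib_K R.mat R.sub]
    refine sum_eq_zero fun k hk => ?_
    rw [mem_filter] at hk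
    exfalso
    have hkap := (kap_ns' H h.split (R.sub hk.1) (v := x a) (by rw [hk.2]; simp)).1
    have hl : lev k ≤ j + 1 := by
      rcases mem_union.1 (R.sub hk.1) with h1 | h1
      · exact (mem_dbL.1 h1).1.le
      · have := (mem_dbU.1 h1).1
        omega
    have hk2 : k ∈ K2.KD j K (cext (j + 1) (topOf : P → Tops P) t) := by
      rw [K2.mem_KD]
      exact ⟨hk.1, mem_cext_of_le h.split hl (hkap.symm.trans (B.row.kap a (by omega))),
        R.sub hk.1⟩
    rw [h0] at hk2
    exact absurd hk2 (notMem_empty k)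
  refine hd ⟨?_, fun k hk => ?_⟩
  · have e1 := B.row.df 0 2 (by omega) le_rfl
    rw [key 0 2 (by omega) le_rfl, if_neg (by omega), if_pos ⟨rfl, rfl⟩] at e1
    exact e1.symm
  · have e1 := B.row.df k (k + 1) (by omega) (by omega)
    rw [key k (k + 1) (by omega) (by omega), if_pos rfl] at e1
    exact e1.symm

/-- the value over a site is the defect of the opposite edge -/
lemma NJ.sa_tri (h : NJ P r j) (R : Red P j K psi) (B : RowB P j t 2 x c β) {p q s : ℕ}
    (hp : p ≤ 2) (hq : q ≤ 2) (hs : s ≤ 2) (hpq : p < q) (hps : p ≠ s) (hqs : q ≠ s) :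
    sa j (topOf : P → Tops P) K {x s} t = Df j {x p, x q} := by
  classical
  have H := h.g.H
  have W := B.row
  rw [sa_eq, ← fib_K R.mat R.sub]
  refine sum_congr ?_ fun _ _ => rfl
  ext k
  rw [mem_filter, mem_filter]
  constructor
  · rintro ⟨hk, hkt, hd⟩
    refine ⟨hk, ?_⟩
    obtain ⟨p', q', f1, f2, f3, f4⟩ := W.pair R H h.split hk hkt
    rw [f3, disjoint_singleton_right, mem_insert, mem_singleton] at hd
    have h1 : s ≠ p' := fun q => hd (Or.inl (by rw [q]))
    have h2 : s ≠ q' := fun q => hd (Or.inr (by rw [q]))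
    have h3 : p' = p ∧ q' = q := by omega
    rw [f3, h3.1, h3.2]
  · rintro ⟨hk, hns⟩
    refine ⟨hk, ?_, ?_⟩
    · have h1 := (kap_ns' H h.split (R.sub hk) (v := x p) (by rw [hns]; simp)).1
      rw [← h1]
      exact W.kap p hp
    · rw [hns, disjoint_singleton_right, mem_insert, mem_singleton]
      rintro (h1 | h1)
      · exact hps (W.inj _ _ hs hp h1).symm
      · exact hqs (W.inj _ _ hs hq h1).symm

/-- the values over the three sites -/
lemma NJ.sa_three (h : NJ P r j) (R : Red P j K psi) (B : RowB P j t 2 x c β) :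
    sa j (topOf : P → Tops P) K {x 0} t = c 1 ∧ sa j (topOf : P → Tops P) K {x 1} t = β ∧
      sa j (topOf : P → Tops P) K {x 2} t = c 0 := by
  refine ⟨?_, ?_, ?_⟩
  · rw [NJ.sa_tri h R B (p := 1) (q := 2) (s := 0) (by omega) le_rfl (by omega) (by omega)
      (by omega) (by omega), B.row.df 1 2 (by omega) le_rfl, if_pos rfl]
  · rw [NJ.sa_tri h R B (p := 0) (q := 2) (s := 1) (by omega) le_rfl (by omega) (by omega)
      (by omega) (by omega), B.row.df 0 2 (by omega) le_rfl, if_neg (by omega),
      if_pos ⟨rfl, rfl⟩]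
  · rw [NJ.sa_tri h R B (p := 0) (q := 1) (s := 2) (by omega) (by omega) (by omega) (by omega)
      (by omega) (by omega), B.row.df 0 1 (by omega) (by omega), if_pos rfl]

/-- a double over a row with three sites has the value zero -/
lemma NJ.sa_dbl (h : NJ P r j) (R : Red P j K psi) (B : RowB P j t 2 x c β) {y : P}
    (hl : lev y = j + 1) (ht : topOf y = t) (h2 : (uc y).card = 2) :
    sa j (topOf : P → Tops P) K (uc y) (topOf y) = 0 := by
  classical
  have H := h.g.H
  have hU : ({x 0, x 1, x 2} : Finset P).card = 3 := by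
    rw [card_insert_of_notMem, card_pair]
    · exact fun q => by
        have := B.row.inj 1 2 (by omega) le_rfl q
        omega
    · rw [mem_insert, mem_singleton]
      rintro (q | q)
      · have := B.row.inj 0 1 (by omega) (by omega) q
        omega
      · have := B.row.inj 0 2 (by omega) le_rfl q
        omega
  have hsub : uc y ⊆ ({x 0, x 1, x 2} : Finset P) := by
    intro v hv
    have hlv := lev_uc H hv
    have hts : topOf y = topOf v := h.split (mem_uc.1 hv) (by omega)
    obtain ⟨q, hq, rfl⟩ := B.row.surj v (by omega) (hts.symm.trans ht)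
    rw [mem_insert, mem_insert, mem_singleton]
    have h3 : q = 0 ∨ q = 1 ∨ q = 2 := by omega
    rcases h3 with rfl | rfl | rfl
    · exact Or.inl rfl
    · exact Or.inr (Or.inl rfl)
    · exact Or.inr (Or.inr rfl)
  rw [ht]
  refine paO_sa_none fun k hk hkt hd => ?_
  obtain ⟨p, q, f1, f2, f3, -⟩ := B.row.pair R H h.split hk hkt
  refine three_meet hU (S := ns j k) (T := uc y) ?_ hsub ?_ hd
  · rw [f3]
    intro v hv
    rw [mem_insert, mem_singleton] at hv
    rw [mem_insert, mem_insert, mem_singleton]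
    have hp3 : p = 0 ∨ p = 1 ∨ p = 2 := by omega
    have hq3 : q = 0 ∨ q = 1 ∨ q = 2 := by omega
    rcases hv with rfl | rfl
    · rcases hp3 with rfl | rfl | rfl
      · exact Or.inl rfl
      · exact Or.inr (Or.inl rfl)
      · exact Or.inr (Or.inr rfl)
    · rcases hq3 with rfl | rfl | rfl
      · exact Or.inl rfl
      · exact Or.inr (Or.inl rfl)
      · exact Or.inr (Or.inr rfl)
  · rw [ns_card (R.sub hk), h2]

/-- NO HEAVY JOIN at a row with three sites, if there is no pendant below the sites with a positive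
value -/
theorem NJ.noHeavy3 (h : NJ P r j) (hj : 2 ≤ j) (R : Red P j K psi) (B : RowB P j t 2 x c β)
    (h0 : 0 < c 1 → pen (x 0) = ∅) (h1 : 0 < β → pen (x 1) = ∅) (h2 : 0 < c 0 → pen (x 2) = ∅) :
    ∀ z y v : P, K2.SD j (topOf : P → Tops P) z y v → (topOf y = t ∨ topOf v = t) →
      sa j (topOf : P → Tops P) K (uc y) (topOf y) *
        sa j (topOf : P → Tops P) K (uc v) (topOf v) = 0 := by
  classical
  intro z y v S hor
  have H := h.g.H
  rcases hor with ht | ht
  · rw [NJ.sa_dbl h R B (S.ly H) ht S.cy, zero_mul]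
  · have hlv := S.lv' H
    have hpos := NJ.sa_single h hj R hlv S.cv
    obtain ⟨s, hs⟩ := card_eq_one.1 S.cv
    have hsv : s ∈ uc v := by rw [hs]; exact mem_singleton_self _
    have hls := lev_uc H hsv
    have hts : topOf v = topOf s := h.split (mem_uc.1 hsv) (by omega)
    obtain ⟨q, hq, rfl⟩ := B.row.surj s (by omega) (hts.symm.trans ht)
    have hp : v ∈ pen (x q) := Win.mem_pen.2 ⟨mem_uc.1 hsv, S.cv⟩
    obtain ⟨s0, s1, s2⟩ := NJ.sa_three h R B
    rw [hs, ht] at hpos ⊢
    suffices hz : sa j (topOf : P → Tops P) K {x q} t = 0 by rw [hz, mul_zero]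
    by_contra hne
    have hlt : 0 < sa j (topOf : P → Tops P) K {x q} t := lt_of_le_of_ne hpos (Ne.symm hne)
    have h3 : q = 0 ∨ q = 1 ∨ q = 2 := by omega
    rcases h3 with rfl | rfl | rfl
    · rw [h0 (by rwa [s0] at hlt)] at hp
      exact notMem_empty _ hp
    · rw [h1 (by rwa [s1] at hlt)] at hp
      exact notMem_empty _ hp
    · rw [h2 (by rwa [s2] at hlt)] at hp
      exact notMem_empty _ hp

end Pool.Agent.GaussPoset.EK
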