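import Pool.Agent.W_448s7s_h5.TwA

/-!
MP_448cb3_co, G2, case B, window `j`: the contribution of the window `j` to the functional
`⟨-1, 9, 1, 4, 3, -1, 2, 13, 0⟩` for the patterns R and [DL] with three sites.  helper5.
-/

namespace Pool.Agent.GaussPoset.Win.W4

set_option linter.unusedSectionVars false

open Finset
open Pool.Agent.GaussPoset.Win.SO (PN vp con on mem_PN vp_PD vp_PU)

universe u

variable {P : Type u} [Fintype P] [PartialOrder P] [DecidableEq P] {r i : ℕ}
variable {psi : P → P} {C K : Finset P} {w v p q s : P} {x : ℕ → P}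

/-- the contribution of the window `j` -/
noncomputable def OwT (i : ℕ) (C : Finset P) : ℤ :=
  - I2.al 2 (st i C).card (ZS i C) + 2 * I2.Q4 (st i C).card (ZS i C) +
    13 * I2.w3 (st i C).card (ZS i C)

lemma two_sq_sub_nonneg (u : ℤ) : 0 ≤ 2 * u ^ 2 - u := by
  rcases le_or_gt u 0 with h | h
  · nlinarith
  · nlinarith

/-- a lower bound, three sites, two unmatched elements -/
theorem K5.Ow_three (Q : K5 r i K psi C w v) (hw : uc w = {p, q}) (hv : dc v = {q, s})
    (hpq : p ≠ q) (hqs : q ≠ s) (hps : p ≠ s) (hst : st i C = {p, q, s}) :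
    2 * (- 6 + 2 * ∑ z ∈ (PN i C).filter (fun z => sit i z = {p, q}), vp i z -
    2 * ∑ z ∈ (PN i C).filter (fun z => sit i z = {q, s}), vp i z +
    2 * (dg i K C p + dg i K C s + 2 * dg i K C q - 2 * mm i K C {p, q} - 2 * mm i K C {q, s} -
      mm i K C {p, s})) - 5 ≤ OwT i C := by
  have key := Q.T_three hw hv hpq hqs hps hst
  have a1 := Q.al2 hw hv hpq hqs hps
  have a3 := Q.three_w3 hw hv hpq hqs hps hst
  have h2 := card_le_card (T4_subset i C)
  have h3 : ((T4 i C).card : ℤ) ≤ (Z4 i C).card := by exact_mod_cast h2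
  unfold Tv Lv at key
  unfold wv at a3 key
  unfold OwT
  rw [a3] at key ⊢
  rw [← a1] at key
  have h4 := two_sq_sub_nonneg (I2.al 2 (st i C).card (ZS i C))
  nlinarith

/-- the rest for [DL] -/
theorem DL2.rest_ge (h : DL2 r i K psi C w v x) {X : ℤ}
    (key : - 6 + 2 * ∑ z ∈ (PN i C).filter (fun z => sit i z = {x 0, x 1}), vp i z -
    2 * ∑ z ∈ (PN i C).filter (fun z => sit i z = {x 1, x 2}), vp i z +
    2 * (dg i K C (x 0) + dg i K C (x 2) + 2 * dg i K C (x 1) - 2 * mm i K C {x 0, x 1} -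
      2 * mm i K C {x 1, x 2} - mm i K C {x 0, x 2}) ≤ X) :
    2 * ((pen (x 2)).card : ℤ) + 4 * ((uc (x 0)).card - 1) + 2 * ((uc (x 2)).card - 1) ≤ X := by
  have W := h.W
  have n01 : x 0 ≠ x 1 := W.ne (by omega) (by omega) (by omega)
  have n12 : x 1 ≠ x 2 := W.ne (by omega) (by omega) (by omega)
  have n02 : x 0 ≠ x 2 := W.ne (by omega) (by omega) (by omega)
  have d10 := kf_dcv_comm (x 1) (x 0)
  have d21 := kf_dcv_comm (x 2) (x 1)
  have d20 := kf_dcv_comm (x 2) (x 0)
  rw [h.d01] at d10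
  rw [h.d12] at d21
  rw [h.d02] at d20
  -- degrees
  have D0 := W.deg (k := 0) (by omega)
  have D1 := W.deg (k := 1) (by omega)
  have D2 := W.deg (k := 2) (by omega)
  rw [(sum_er3 _).1, h.d01, h.d02] at D0
  rw [(sum_er3 _).2.1, d10, h.d12] at D1
  rw [(sum_er3 _).2.2, d20, d21] at D2
  have L0 := W.dc_le (k := 0) (by omega)
  have L1 := W.dc_le (k := 1) (by omega)
  have U1 := W.uc_inner (k := 1) (by omega) (by omega)
  have U0 := W.uc_le (k := 0) (by omega)
  have U2 := W.uc_le (k := 2) (by omega)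
  have g0 := h.Q.dg_eq (W.mem 0 (by omega)) (W.lev_x 0 (by omega))
  have g1 := h.Q.dg_eq (W.mem 1 (by omega)) (W.lev_x 1 (by omega))
  have g2 := h.Q.dg_eq (W.mem 2 (by omega)) (W.lev_x 2 (by omega))
  rw [h.hw, h.hv, if_pos (mem_insert_self _ _), if_neg (by
    rw [mem_insert, mem_singleton]
    rintro (h1 | h1)
    · exact n01 h1
    · exact n02 h1)] at g0
  rw [h.hw, h.hv, if_pos (mem_insert_of_mem (mem_singleton_self _)),
    if_pos (mem_insert_self _ _)] at g1
  rw [h.hw, h.hv, if_neg (by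
    rw [mem_insert, mem_singleton]
    rintro (h1 | h1)
    · exact n02 h1.symm
    · exact n12 h1.symm), if_pos (mem_insert_of_mem (mem_singleton_self _))] at g2
  have m0 := h.Q.mm_pair (W.mem 0 (by omega)) (W.lev_x 0 (by omega)) n01
  have m1 := h.Q.mm_pair (W.mem 1 (by omega)) (W.lev_x 1 (by omega)) n12
  have m2 := h.Q.mm_pair (W.mem 0 (by omega)) (W.lev_x 0 (by omega)) n02
  rw [h.d01, if_pos h.hw] at m0
  rw [h.d12, h.hw, if_neg (by rw [pair_comm (x 1)]; exact pair_ne n02 n12 _)] at m1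
  rw [h.d02, h.hw, if_neg (by rw [pair_comm (x 0) (x 2)]; exact pair_ne n02 n12 _)] at m2
  rw [m0, m1, m2, g0, g1, g2] at key
  -- pendants
  have A : ((uc (x 0)).card : ℤ) - 2 ≤
      ∑ z ∈ (PN i C).filter (fun z => sit i z = {x 0, x 1}), vp i z := by
    have h1 : NE i C x 0 = ∑ z ∈ (PN i C).filter (fun z => sit i z = {x 0, x 1}), vp i z :=
      NE_eq 0
    have h2 := W.UE_one (i := i) (C := C) 0
    rw [← h1]
    unfold NE
    rcases U0 with h3 | h3
    · omega
    · rw [W.ue_zero (i := i) (C := C) (by omega) h3, card_empty, h3]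
      push_cast
      omega
  have B := vp_nonpos (i := i) (C := C) W.H h.d12
  push_cast at key
  omega

/-- [DL] with three sites -/
theorem DL2.Ow_ge (h : DL2 r i K psi C w v x) : 4 * ((pen (x 2)).card : ℤ) +
    8 * ((uc (x 0)).card - 1) + 4 * ((uc (x 2)).card - 1) - 5 ≤ OwT i C := by
  have W := h.W
  have n01 : x 0 ≠ x 1 := W.ne (by omega) (by omega) (by omega)
  have n12 : x 1 ≠ x 2 := W.ne (by omega) (by omega) (by omega)
  have n02 : x 0 ≠ x 2 := W.ne (by omega) (by omega) (by omega)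
  have k1 := h.Q.Ow_three h.hw h.hv n01 n12 n02 W.st_three
  have k2 := h.rest_ge le_rfl
  linarith

/-- the rest for R -/
theorem R2.rest_ge (h : R2 r i K psi C w v x) {X : ℤ}
    (key : - 6 + 2 * ∑ z ∈ (PN i C).filter (fun z => sit i z = {x 2, x 0}), vp i z -
    2 * ∑ z ∈ (PN i C).filter (fun z => sit i z = {x 0, x 1}), vp i z +
    2 * (dg i K C (x 2) + dg i K C (x 1) + 2 * dg i K C (x 0) - 2 * mm i K C {x 2, x 0} -
      2 * mm i K C {x 0, x 1} - mm i K C {x 2, x 1}) ≤ X) : 2 * ((pen (x 1)).card : ℤ) ≤ X := by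
  have W := h.W
  have n01 : x 0 ≠ x 1 := W.ne (by omega) (by omega) (by omega)
  have n12 : x 1 ≠ x 2 := W.ne (by omega) (by omega) (by omega)
  have n02 : x 0 ≠ x 2 := W.ne (by omega) (by omega) (by omega)
  have d10 := kf_dcv_comm (x 1) (x 0)
  have d21 := kf_dcv_comm (x 2) (x 1)
  have d20 := kf_dcv_comm (x 2) (x 0)
  rw [h.d01] at d10
  rw [h.d12] at d21
  rw [h.d02] at d20
  have D0 := W.deg (k := 0) (by omega)
  have D1 := W.deg (k := 1) (by omega)
  have D2 := W.deg (k := 2) (by omega)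
  rw [(sum_er3 _).1, h.d01, h.d02] at D0
  rw [(sum_er3 _).2.1, d10, h.d12] at D1
  rw [(sum_er3 _).2.2, d20, d21] at D2
  have L2 := W.dc_le (k := 2) (by omega)
  have U1 := W.uc_inner (k := 1) (by omega) (by omega)
  have g0 := h.Q.dg_eq (W.mem 0 (by omega)) (W.lev_x 0 (by omega))
  have g1 := h.Q.dg_eq (W.mem 1 (by omega)) (W.lev_x 1 (by omega))
  have g2 := h.Q.dg_eq (W.mem 2 (by omega)) (W.lev_x 2 (by omega))
  rw [h.hw, h.hv, if_pos (mem_insert_of_mem (mem_singleton_self _)),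
    if_pos (mem_insert_self _ _)] at g0
  rw [h.hw, h.hv, if_neg (by
    rw [mem_insert, mem_singleton]
    rintro (h1 | h1)
    · exact n12 h1
    · exact n01 h1.symm), if_pos (mem_insert_of_mem (mem_singleton_self _))] at g1
  rw [h.hw, h.hv, if_pos (mem_insert_self _ _), if_neg (by
    rw [mem_insert, mem_singleton]
    rintro (h1 | h1)
    · exact n02 h1.symm
    · exact n12 h1.symm)] at g2
  have m0 := h.Q.mm_pair (W.mem 2 (by omega)) (W.lev_x 2 (by omega)) n02.symm
  have m1 := h.Q.mm_pair (W.mem 0 (by omega)) (W.lev_x 0 (by omega)) n01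
  have m2 := h.Q.mm_pair (W.mem 2 (by omega)) (W.lev_x 2 (by omega)) n12.symm
  rw [d20, if_pos h.hw] at m0
  rw [h.d01, h.hw, if_neg (by rw [pair_comm (x 0) (x 1)]; exact pair_ne n12.symm n01 _)] at m1
  rw [d21, h.hw, if_neg (by rw [pair_comm (x 2) (x 1)]; exact pair_ne n12.symm n01 _)] at m2
  rw [m0, m1, m2, g0, g1, g2, h.u0, h.u2] at key
  have hu : ucv (x 2) (x 0) = 0 := by
    rw [StB_ucv_comm, W.up 0 2 (by omega) (by omega), if_neg (by omega)]
  have A := vp_nonneg (i := i) (C := C) W.H hu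
  have B := vp_nonpos (i := i) (C := C) W.H h.d01
  push_cast at key
  omega

/-- R with three sites -/
theorem R2.Ow_ge (h : R2 r i K psi C w v x) : 4 * ((pen (x 1)).card : ℤ) - 5 ≤ OwT i C := by
  have W := h.W
  have n01 : x 0 ≠ x 1 := W.ne (by omega) (by omega) (by omega)
  have n12 : x 1 ≠ x 2 := W.ne (by omega) (by omega) (by omega)
  have n02 : x 0 ≠ x 2 := W.ne (by omega) (by omega) (by omega)
  have hst : st i C = {x 2, x 0, x 1} := by
    rw [W.st_three]
    ext y
    simp only [mem_insert, mem_singleton]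
    tauto
  have k1 := h.Q.Ow_three h.hw h.hv n02.symm n01 n12.symm hst
  have k2 := h.rest_ge le_rfl
  linarith

end Pool.Agent.GaussPoset.Win.W4
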