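import Pool.Agent.W_448t8_h97.TI
import Pool.Agent.W_448kf_h15.KfG
import Pool.Agent.W_448s7s_h5.TwB

/-!
MP_448cb3_co, G2, case B, window `j - 1`: the parts with two sites.  helper5.
-/

namespace Pool.Agent.GaussPoset.Tw

set_option linter.unusedSectionVars false

open Finset Win Win.W4 Wd EK Win.Pn
open Pool.Agent.GaussPoset.Win.SO (PN vp mem_PN F5)
open Pool.Agent.GaussPoset.Win.So (N5s Z2s mem_Z2s)

universe u

variable {P : Type u} [Fintype P] [PartialOrder P] [DecidableEq P] {r j i : ℕ}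
  {t : Tops P} {lo hi : ℕ → ℕ} {e : ℕ → ℕ → P} {x : ℕ → P} {c : ℕ → ℤ} {β : ℤ} {p : P}

section nj

variable (h : NJ P r j) (hij : i + 1 = j) (hi1 : 1 ≤ i)
include h hij hi1

/-- no far element with three sites -/
lemma two_Z4 (t : Tops P) (h2 : (st i (SS i t)).card ≤ 2) : Z4 i (SS i t) = ∅ := by
  rw [eq_empty_iff_forall_notMem]
  intro z hz
  obtain ⟨h3, h4⟩ := Z4_sites h.g.H (h.part (by omega) (by omega) t) hz
  have := card_le_card h4
  omega

/-- the value (3,1) of a part with two sites -/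
lemma two_A3 (t : Tops P) (h2 : (st i (SS i t)).card ≤ 2) :
    A3 i t = (FL i (SS i t)).card - (FU' i (SS i t)).card := by
  have hF := nj_F5_three h hij hi1 t (by omega)
  have h3 := nj_al3 h hij hi1 t hF
  have h4 := two_Z4 h hij hi1 t h2
  unfold Z4 at h4
  rw [union_eq_empty] at h4
  rw [h4.1, h4.2, card_empty] at h3
  unfold A3
  rw [h3]
  push_cast
  ring

/-- the values of a part with two sites -/
lemma two_vals (t : Tops P) (h2 : (st i (SS i t)).card ≤ 2) :
    B5 i t = 0 ∧ C6 i t = A3 i t ^ 2 ∧ C8 i t = 0 ∧ C10 i t = 0 := by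
  have h5 := nj_be5_small h hij t h2
  have h6 := nj_be6_small h hij t h2
  obtain ⟨h8, h10⟩ := nj_Q_two h hij t h2
  refine ⟨h5, ?_, h8, h10⟩
  unfold C6 So.Q6 A3
  rw [So.cf_three, So.cf_six, So.cf_five, h5, h6]
  ring

/-- the sites of a pendant of a part with two sites -/
lemma two_sit (t : Tops P) (h2 : (st i (SS i t)).card ≤ 2) {q : P} (hq : q ∈ PN i (SS i t)) :
    sit i q = st i (SS i t) := by
  obtain ⟨psi, hM⟩ := good_mat h.g.H (h.g.good i (by omega))
  have F := nj_fr h hij hi1 hM t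
  have h3 := (pn_two F hq).1
  have h4 := SO.sit_part h.g.H F.E.hC (mem_PN.1 hq).1
  exact eq_of_subset_of_card_le h4 (by omega)

/-- the crossing numbers of the pendant of a part with two sites -/
lemma two_rho (h2 : (st i (SS i (topOf p : Tops P))).card ≤ 2) (hp : p ∈ PD P i) :
    Pn.rho i (topOf : P → Tops P) 5 p = 0 ∧ Pn.rho i (topOf : P → Tops P) 7 p = 0 := by
  classical
  have hpm := nj_mem h hij hi1 (mem_PD.1 hp).1
  have hpn : p ∈ PN i (SS i (topOf p)) := mem_PN.2 ⟨hpm, Or.inl hp⟩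
  have h4 := two_Z4 h hij hi1 (topOf p) h2
  have hs := two_sit h hij hi1 (topOf p) h2 hpn
  constructor
  · rw [nj_rho5_PD h hij hi1 hp, sum_eq_zero, sum_eq_zero, add_zero]
    · intro q hq
      exfalso
      obtain ⟨h5, -, -, h6⟩ := mem_Ov.1 hq
      rw [hs, two_sit h hij hi1 (topOf p) h2 h5, inter_self] at h6
      obtain ⟨psi, hM⟩ := good_mat h.g.H (h.g.good i (by omega))
      have h7 := (pn_two (nj_fr h hij hi1 hM (topOf p)) hpn).1
      rw [hs] at h7
      omega
    · intro z hz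
      exfalso
      have h5 : z ∈ Z4 i (SS i (topOf p)) := (mem_filter.1 hz).1
      rw [h4] at h5
      exact notMem_empty z h5
  · rw [nj_rho7_PD h hij hi1 hp, neg_eq_zero, Nat.cast_eq_zero, card_eq_zero,
      filter_eq_empty_iff]
    intro q hq
    exfalso
    have h5 : q.1 ∈ Z4 i (SS i (topOf p)) := mem_union_left _ (mem_Tws.1 hq).zl
    rw [h4] at h5
    exact notMem_empty _ h5

/-- the private children of the pendant -/
lemma two_kc (t : Tops P) (hp : p ∈ PD P i) (ht : topOf p = t) :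
    ((FL i (SS i t)).card : ℤ) = kc p := by
  classical
  have H := h.g.H
  obtain ⟨n1, -, -⟩ := nj_one h hij hi1 t
  rw [card_le_one] at n1
  have lp := (mem_PD.1 hp).1
  have hpm : p ∈ SS i t := by
    rw [← ht]
    exact nj_mem h hij hi1 lp
  have hC : Part (i + 1) (SS i t) := h.part (by omega) (by omega) t
  unfold kc
  congr 2
  ext w
  rw [mem_FL, mem_ks]
  constructor
  · rintro ⟨h1, z, hz, h2⟩
    have h3 : z ∈ SS i t := hC.up h1 (by rw [← mem_uc, h2]; exact mem_singleton_self _)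
    rw [h2, n1 z (mem_filter.2 ⟨h3, hz⟩) p (mem_filter.2 ⟨hpm, hp⟩)]
  · intro hx
    refine ⟨?_, p, hp, hx⟩
    have hxp : w ⋖ p := by rw [← mem_uc, hx]; exact mem_singleton_self _
    have hlx := lev_cov H hxp
    rw [← h.cext_eq (i := i) (by omega) t, mem_cext] at hpm ⊢
    intro z hz hlz
    refine hpm z ?_ hlz
    have hne : w ≠ z := by
      rintro rfl
      omega
    obtain ⟨w', hw1, hw2⟩ := Hul.exists_cov (lt_of_le_of_ne hz hne)
    have : w' ∈ uc w := mem_uc.2 hw1
    rw [hx, mem_singleton] at this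
    rw [← this]
    exact hw2

/-- the children of a pendant: joins and private children -/
lemma zc_kc_le (p : P) : zc i (topOf : P → Tops P) p + kc p ≤ 2 := by
  classical
  have H := h.g.H
  have hκ : Split (i + 2) (topOf : P → Tops P) := by
    rw [show i + 2 = j + 1 by omega]
    exact h.split
  have h1 : zs i (topOf : P → Tops P) p ∪ ks p ⊆ dc p := by
    intro z hz
    rcases mem_union.1 hz with k | k
    · exact mem_dc.2 (mem_uc.1 (mem_zs.1 k).2)
    · exact mem_dc.2 (mem_uc.1 (by rw [mem_ks.1 k]; exact mem_singleton_self _))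
  have h2 : Disjoint (zs i (topOf : P → Tops P) p) (ks p) := by
    rw [disjoint_left]
    intro z hz hz'
    obtain ⟨p1, p2, y1, y2, D, hu, hne⟩ := Z2s_pair H hκ (mem_zs.1 hz).1
    have h3 := mem_ks.1 hz'
    rw [hu] at h3
    have := congrArg Finset.card h3
    rw [card_pair hne, card_singleton] at this
    omega
  have h3 := card_le_card h1
  rw [card_union_of_disjoint h2] at h3
  have h4 := dc_card_le H p
  unfold zc kc
  omega

omit hij hi1 in
lemma kc_two (z : P) : kc z ≤ 2 := by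
  have h1 : ks z ⊆ dc z := fun y hy =>
    mem_dc.2 (mem_uc.1 (by rw [mem_ks.1 hy]; exact mem_singleton_self _))
  have h2 := (card_le_card h1).trans (dc_card_le h.g.H z)
  unfold kc
  exact_mod_cast h2

omit hij hi1 in
lemma sum_kc_le (p : P) : ∑ z ∈ zs i (topOf : P → Tops P) p, kc z ≤
    2 * zc i (topOf : P → Tops P) p := by
  have h1 := sum_le_card_nsmul (zs i (topOf : P → Tops P) p) kc 2 (fun z _ => kc_two h z)
  rw [nsmul_eq_mul] at h1
  unfold zc
  linarith

variable (C : Cp.Comp j (t : P) lo hi e)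
include C

/-- an element of a narrow level -/
lemma narrow {k : ℕ} (hk : k ≤ j) (h1 : lo k = hi k) {w w' : P} (hw : w ≤ (t : P))
    (hw' : w' ≤ (t : P)) (hl : lev w = k) (hl' : lev w' = k) : w = w' := by
  obtain ⟨s, s1, s2, s3⟩ := C.surj w hw (by omega)
  obtain ⟨s', s4, s5, s6⟩ := C.surj w' hw' (by omega)
  rw [hl] at s1 s2 s3
  rw [hl'] at s4 s5 s6
  rw [← s3, ← s6, show s = s' by omega]

/-- at most one element above an upper pendant, if the levels are narrow -/
lemma two_FU (hn : ∀ k, k < i → lo k = hi k) : (FU' i (SS i t)).card ≤ 1 := by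
  classical
  have H := h.g.H
  rw [card_le_one]
  intro w hw w' hw'
  obtain ⟨h1, u, hu, h2⟩ := mem_FU'.1 hw
  obtain ⟨h1', u', hu', h2'⟩ := mem_FU'.1 hw'
  have l1 := lev_dc H (show u ∈ dc w by rw [h2]; exact mem_singleton_self _)
  have l1' := lev_dc H (show u' ∈ dc w' by rw [h2']; exact mem_singleton_self _)
  have l2 := (mem_PU.1 hu).1
  have l2' := (mem_PU.1 hu').1
  have g1 := (h.mem (by omega) t (by omega)).1 h1
  have g1' := (h.mem (by omega) t (by omega)).1 h1'
  exact narrow h hij hi1 C (k := lev w) (by omega) (hn _ (by omega)) g1 g1' rfl (by omega)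

/-- the near elements of the pendant -/
lemma two_nn (B : RowB P j t 2 x c β) (hn : lo (i - 1) = hi (i - 1)) (hp : p ∈ PD P i)
    (ht : topOf p = t) : nn i p ≤ 4 := by
  classical
  have H := h.g.H
  have lp := (mem_PD.1 hp).1
  have hpm : p ∈ SS i t := by
    rw [← ht]
    exact nj_mem h hij hi1 lp
  have hsit : ∀ s ∈ sit i p, lev s = i ∧ s ≤ (t : P) := by
    intro s hs
    have h3 := mem_st.1 (SO.sit_part H (h.part (by omega) (by omega) t) hpm hs)
    exact ⟨h3.2, (h.mem (by omega) t (by omega)).1 h3.1⟩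
  have hL : nLp i p ⊆ (range 3).image x := by
    intro w hw
    obtain ⟨hlw, hd⟩ := mem_nLp.1 hw
    obtain ⟨s, hs1, hs2⟩ := not_disjoint_iff.1 hd
    obtain ⟨hls, hst⟩ := hsit s hs2
    have h4 : w ≤ (t : P) := (mem_uc.1 hs1).le.trans hst
    have h5 : topOf w = t := (RowB.topOf_iff h (by omega)).2 h4
    obtain ⟨k, hk, rfl⟩ := B.row.surj w (by omega) h5
    exact mem_image_of_mem x (mem_range.2 (by omega))
  have hL' : (nLp i p).card ≤ 3 := by
    have h6 := (card_le_card hL).trans card_image_le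
    rwa [card_range] at h6
  have hU : (nUp i p).card ≤ 1 := by
    rw [card_le_one]
    intro w hw w' hw'
    obtain ⟨hlw, hd⟩ := mem_nUp.1 hw
    obtain ⟨hlw', hd'⟩ := mem_nUp.1 hw'
    obtain ⟨s, hs1, hs2⟩ := not_disjoint_iff.1 hd
    obtain ⟨s', hs1', hs2'⟩ := not_disjoint_iff.1 hd'
    obtain ⟨hls, hst⟩ := hsit s hs2
    obtain ⟨hls', hst'⟩ := hsit s' hs2'
    have g1 := Cp.up_le H h.g.good t.2 hst (by omega) (mem_dc.1 hs1).le
    have g1' := Cp.up_le H h.g.good t.2 hst' (by omega) (mem_dc.1 hs1').le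
    exact narrow h hij hi1 C (k := i - 1) (by omega) hn g1 g1' (by omega) (by omega)
  unfold nn
  have : ((nLp i p).card : ℤ) ≤ 3 := by exact_mod_cast hL'
  have : ((nUp i p).card : ℤ) ≤ 1 := by exact_mod_cast hU
  linarith

end nj

end Pool.Agent.GaussPoset.Tw
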