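import Pool.Agent.W_448s7s_h5.TwC
import Pool.Agent.W_448so_h39.FC

/-!
MP_448cb3_co, G2, case B, window `j - 1`: the parts with two sites: the share, the shapes.  helper5.
-/

namespace Pool.Agent.GaussPoset.Tw

set_option linter.unusedSectionVars false

open Finset Win Win.W4 Wd EK Win.Pn
open Pool.Agent.GaussPoset.Win.SO (PN vp mem_PN F5)
open Pool.Agent.GaussPoset.Win.So (N5s Z2s mem_Z2s)

universe u

/-- the weights -/
def Ws : Wt := ⟨-1, 9, 1, 4, 3, -1, 2, 13, 0⟩

section words

variable {lo hi : ℕ → ℕ} {a d : ℕ}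

lemma lateW_two (a : ℕ) : ∀ w ∈ lateW a, wdt w = 2 → w.getLast? = some OO →
    w = [OO] ∨ w = [OC, OO] ∨ w = [OC, CO, CO, OO] := by
  unfold lateW
  split_ifs <;> first | omega | decide

/-- the late words with three elements on the last level, last letter OO -/
lemma late_two (h3 : lo a = 0 ∧ hi a = 1)
    (hl : ∀ k, k < a + d → lo k ≤ lo (k + 1) ∧ lo (k + 1) ≤ lo k + 1)
    (hh : ∀ k, k < a + d → hi k ≤ hi (k + 1) ∧ hi (k + 1) ≤ hi k + 1)
    (h4 : ((1 ≤ d ∧ d ≤ a) ∧ word lo hi a d = Qw d) ∨ word lo hi a d ∈ lateW a)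
    (hd : 1 ≤ d) (hw : hi (a + d) = lo (a + d) + 2) (e1 : lo (a + d) = lo (a + (d - 1)))
    (e2 : hi (a + d) = hi (a + (d - 1)) + 1) :
    word lo hi a d = [OO] ∨ word lo hi a d = [OC, OO] ∨ word lo hi a d = [OC, CO, CO, OO] := by
  have gen : ∀ n, n ≤ d → (hi (a + n) : ℤ) - lo (a + n) =
      1 + ((word lo hi a n).map (fun l => (if l.2 then (1 : ℤ) else 0) -
        if l.1 then 1 else 0)).sum := by
    intro n
    induction n with
    | zero =>
      intro _
      simp [word, h3.1, h3.2]
    | succ n ih =>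
      intro hn
      have e1 := ih (by omega)
      have e2 := hl (a + n) (by omega)
      have e3 := hh (a + n) (by omega)
      have e4 : word lo hi a (n + 1) = word lo hi a n ++
          [(decide (lo (a + n + 1) ≠ lo (a + n)), decide (hi (a + n + 1) ≠ hi (a + n)))] := by
        unfold word
        rw [List.range_succ, List.map_append]
        rfl
      rw [e4, List.map_append, List.sum_append]
      simp only [List.map_cons, List.map_nil, List.sum_cons, List.sum_nil, add_zero,
        decide_eq_true_eq]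
      rw [show a + (n + 1) = a + n + 1 by omega]
      split_ifs <;> omega
  have key : wdt (word lo hi a d) = 2 := by
    unfold wdt
    rw [← gen d le_rfl]
    omega
  have last : (word lo hi a d).getLast? = some OO := by
    obtain ⟨n, rfl⟩ : ∃ n, d = n + 1 := ⟨d - 1, by omega⟩
    unfold word
    rw [List.range_succ, List.map_append, List.map_cons, List.map_nil, List.getLast?_concat]
    rw [show a + (n + 1) = a + n + 1 by omega, show a + (n + 1 - 1) = a + n by omega] at e1 e2
    have d1 : decide (lo (a + n + 1) ≠ lo (a + n)) = false := decide_eq_false (by simp [e1])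
    have d2 : decide (hi (a + n + 1) ≠ hi (a + n)) = true := decide_eq_true (by omega)
    rw [d1, d2]
    rfl
  rcases h4 with ⟨⟨h5, h6⟩, h7⟩ | h4
  · exfalso
    rw [h7] at last
    have g2 : ∀ n, 1 ≤ n → wdt (Qw n) = 0 := by
      intro n hn
      unfold wdt Qw
      rw [List.map_cons, List.map_replicate, List.sum_cons, List.sum_replicate]
      simp [Wd.CC, Wd.OC]
    rw [h7, g2 d hd] at key
    norm_num at key
  · exact lateW_two a _ h4 key last

/-- one step of a word -/
lemma wd_step {f : ℕ → ℕ} {k : ℕ} (hs : f (k + 1) = f k ∨ f (k + 1) = f k + 1) {b : Bool}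
    (h : some b = some (decide (f (k + 1) ≠ f k))) : f (k + 1) = f k + (if b then 1 else 0) := by
  rw [Option.some.injEq] at h
  subst h
  by_cases h1 : f (k + 1) = f k
  · simp [h1]
  · rw [if_pos (by simpa using h1)]
    omega

/-- the values of the ends from the word -/
lemma wd_vals {w : List Ltr} (h : word lo hi a d = w)
    (hlo : ∀ k, k < a + d → lo (k + 1) = lo k ∨ lo (k + 1) = lo k + 1)
    (hhi : ∀ k, k < a + d → hi (k + 1) = hi k ∨ hi (k + 1) = hi k + 1) :
    d = w.length ∧ ∀ n b c, w[n]? = some (b, c) →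
      lo (a + n + 1) = lo (a + n) + (if b then 1 else 0) ∧
      hi (a + n + 1) = hi (a + n) + (if c then 1 else 0) := by
  obtain ⟨h1, h2⟩ := Wd.word_spec h
  refine ⟨h1, fun n b c hn => ?_⟩
  have hnd : n < d := by
    rw [h1]
    exact (List.getElem?_eq_some_iff.1 hn).1
  obtain ⟨q1, q2⟩ := h2 n hnd
  rw [hn] at q1 q2
  simp only [Option.map_some] at q1 q2
  exact ⟨wd_step (hlo (a + n) (by omega)) q1, wd_step (hhi (a + n) (by omega)) q2⟩

end words

variable {P : Type u} [Fintype P] [PartialOrder P] [DecidableEq P] {r j i : ℕ}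
  {t : Tops P} {lo hi : ℕ → ℕ} {e : ℕ → ℕ → P} {x : ℕ → P} {c : ℕ → ℤ} {β : ℤ} {p : P}

lemma two_arith {z k f : ℕ} {n S T : ℤ} (h1 : (z : ℤ) + k ≤ 2) (h2 : f ≤ 1) (h3 : n ≤ 4)
    (h4 : S ≤ 2 * z) : 0 ≤ 2 * (-1 * ((k : ℤ) - f) + 1 * ((k : ℤ) - f) ^ 2) +
      ((z : ℤ) * (9 + 3) - 4 * 1 * z * (k + n - 3) - 2 * 1 * S - 2 * 4 * z * (0 - (k - f)) -
        4 * 3 * z * (0 - 0) + (2 * 3 - 4) * (z * (z - 1)) - (1 - 4 + 3) * T) := by
  have hz : z = 0 ∨ z = 1 ∨ z = 2 := by omega
  have hk : k = 0 ∨ k = 1 ∨ k = 2 := by omega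
  have hf : f = 0 ∨ f = 1 := by omega
  rcases hz with rfl | rfl | rfl <;> rcases hk with rfl | rfl | rfl <;>
    rcases hf with rfl | rfl <;>
    simp only [Nat.cast_zero, Nat.cast_one, Nat.cast_ofNat] at h1 h4 ⊢ <;> linarith

/-- the contribution of the window `j - 1` -/
noncomputable def own1 (W : Wt) (i : ℕ) (t : Tops P) : ℤ :=
  W.a3 * A3 i t + W.a5 * B5 i t + W.a6 * C6 i t + W.a8 * C8 i t + W.a10 * C10 i t

section nj

variable (h : NJ P r j) (hij : i + 1 = j) (hi1 : 1 ≤ i)
include h hij hi1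

/-- THE WINDOW `j - 1` OF A PART WITH TWO SITES is nonnegative -/
theorem two_share (B : RowB P j t 2 x c β) (C : Cp.Comp j (t : P) lo hi e)
    (h2 : (st i (SS i t)).card ≤ 2)
    (hn : ∀ p ∈ PD P i, topOf p = t → ∀ k, k < i → lo k = hi k) :
    0 ≤ 2 * own1 Ws i t + ∑ p ∈ (PD P i).filter (fun p => (topOf p : Tops P) = t),
      shr Ws i p := by
  classical
  obtain ⟨v5, v6, v8, v10⟩ := two_vals h hij hi1 t h2
  have v3 := two_A3 h hij hi1 t h2
  have e1 : own1 Ws i t = -1 * A3 i t + 1 * A3 i t ^ 2 := by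
    unfold own1
    rw [v5, v6, v8, v10]
    show -1 * A3 i t + 9 * 0 + 1 * A3 i t ^ 2 + 4 * 0 + 3 * 0 = _
    ring
  rw [e1]
  by_cases hE : (PD P i).filter (fun p => (topOf p : Tops P) = t) = ∅
  · rw [hE, sum_empty, add_zero]
    have := sq_sub_nonneg (A3 i t)
    linarith
  · obtain ⟨p, hp⟩ := nonempty_iff_ne_empty.2 hE
    have hE1 : (PD P i).filter (fun p => (topOf p : Tops P) = t) = {p} := by
      refine eq_singleton_iff_unique_mem.2 ⟨hp, fun q hq => ?_⟩
      rw [mem_filter] at hp hq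
      exact nj_hone h hij hi1 q hq.1 p hp.1 (hq.2.trans hp.2.symm)
    rw [hE1, sum_singleton]
    obtain ⟨hp1, hp2⟩ := mem_filter.1 hp
    have hw := hn p hp1 hp2
    obtain ⟨r5, r7⟩ := two_rho h hij hi1 (p := p) (by rw [hp2]; exact h2) hp1
    have f1 := two_FU h hij hi1 C hw
    have n1 := two_nn h hij hi1 C B (hw (i - 1) (by omega)) hp1 hp2
    have k1 := two_kc h hij hi1 t hp1 hp2
    have z1 := zc_kc_le h hij hi1 p
    have s1 := sum_kc_le (i := i) h p
    unfold shr
    rw [r5, r7, hp2, v5, v3]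
    rw [← k1] at z1 ⊢
    exact two_arith z1 f1 n1 s1

/-- an upper pendant -/
lemma pu_of_pd (hp : p ∈ PD P i) (ht : topOf p = t) : ∃ u ∈ PU P i, u ≤ (t : P) := by
  classical
  obtain ⟨-, -, hb⟩ := nj_one h hij hi1 t
  have lp := (mem_PD.1 hp).1
  have hpm : p ∈ (SS i t).filter (· ∈ PD P i) := by
    rw [mem_filter, ← ht]
    exact ⟨nj_mem h hij hi1 lp, hp⟩
  unfold Bal at hb
  have h1 := card_pos.2 ⟨p, hpm⟩
  rw [hb] at h1
  obtain ⟨u, hu⟩ := card_pos.1 h1
  rw [mem_filter] at hu
  have h2 := (mem_PU.1 hu.2).1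
  exact ⟨u, hu.2, (h.mem (by omega) t (by omega)).1 hu.1⟩

/-- the element `e k s` has two lower covers -/
lemma two_dn (C : Cp.Comp j (t : P) lo hi e) {k s : ℕ} (hk : k < j) (s1 : lo k ≤ s)
    (s2 : s ≤ hi k) (s3 : lo (k + 1) ≤ s) (s4 : s + 1 ≤ hi (k + 1)) : 2 ≤ (dc (e k s)).card := by
  classical
  have d1 := (C.cov k s s hk (by omega) (by omega) s1 s2).2 (Or.inl rfl)
  have d2 := (C.cov k (s + 1) s hk (by omega) (by omega) s1 s2).2 (Or.inr rfl)
  have hne : e (k + 1) s ≠ e (k + 1) (s + 1) := fun q => by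
    have := C.inj (k + 1) _ _ (by omega) (by omega) (by omega) (by omega) (by omega) q
    omega
  rw [← card_pair hne]
  refine card_le_card fun w hw => ?_
  rw [mem_insert, mem_singleton] at hw
  rcases hw with rfl | rfl
  · exact mem_dc.2 d1
  · exact mem_dc.2 d2

/-- the lower covers of `e k s` -/
lemma dn_cov (C : Cp.Comp j (t : P) lo hi e) {k s : ℕ} (hk : k < j) (s1 : lo k ≤ s)
    (s2 : s ≤ hi k) {w : P} (hw : w ⋖ e k s) :
    ∃ s', lo (k + 1) ≤ s' ∧ s' ≤ hi (k + 1) ∧ w = e (k + 1) s' ∧ (s' = s ∨ s' = s + 1) := by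
  have H := h.g.H
  have h1 := lev_cov H hw
  rw [C.lev_e k s (by omega) s1 s2] at h1
  have h2 := hw.le.trans (C.le_t k s (by omega) s1 s2)
  obtain ⟨s', q1, q2, q3⟩ := C.surj w h2 (by omega)
  rw [show lev w = k + 1 by omega] at q1 q2 q3
  rw [← q3] at hw
  have h3 := (C.cov k s' s hk q1 q2 s1 s2).1 hw
  exact ⟨s', q1, q2, q3.symm, by omega⟩

/-- THE SHAPES: a part with three sites at the level `j`, both ends open, with a pendant of the window
`j - 1` -/
theorem two_shape (C : Cp.Comp j (t : P) lo hi e) (hS : Shape j lo hi) (hV : hi j = lo j + 2)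
    (hl : lo j = lo i) (hh : hi j = hi i + 1) (hp : p ∈ PD P i) (ht : topOf p = t) :
    ∀ k, k < i → lo k = hi k := by
  classical
  have H := h.g.H
  obtain ⟨u, hu, hut⟩ := pu_of_pd h hij hi1 hp ht
  obtain ⟨lu, du, y, hyu, dy⟩ := mem_PU.1 hu
  obtain ⟨s, s1, s2, s3⟩ := C.surj u hut (by omega)
  have h00 := C.lo_zero
  have h01 := C.hi_zero
  subst hij
  rcases hS with g | ⟨g1, g2⟩ | ⟨g0, g2⟩ | ⟨g0, g1, g2⟩ | ⟨g0, g1⟩ | ⟨a, g0, g1, g2, g3, hN, g4⟩
  · have := g (i + 1) le_rfl
    omega
  · -- rectangle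
    have e1 := g2.lo i (by omega)
    have e2 := g2.hi i (by omega)
    have : i = 1 := by omega
    subst this
    intro k hk
    obtain rfl : k = 0 := by omega
    omega
  · -- stair
    exfalso
    have e1 := g2.lo i (by omega)
    have e2 := g2.hi (i + 1) (by omega)
    have e3 := g2.hi i (by omega)
    have : i = 3 := by omega
    subst this
    have lu1 : lev u = 1 := by omega
    rw [lu1] at s1 s2 s3
    have e4 := C.lo_step 2 (by omega)
    have e5 := C.lo_step 1 (by omega)
    have e6 := g2.hi 1 (by omega)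
    have e7 := g2.hi 2 (by omega)
    norm_num at e1 e2 e3 e4 e5 e6 e7
    have k1 := two_dn h rfl hi1 C (k := 1) (s := s) (by omega) s1 s2 (by norm_num; omega)
      (by norm_num; omega)
    rw [s3] at k1
    omega
  · -- three
    have : i = 2 := by omega
    subst this
    intro k hk
    have hk2 : k = 0 ∨ k = 1 := by omega
    rcases hk2 with rfl | rfl
    · omega
    · omega
  · exfalso
    have : i = 5 := by omega
    subst this
    unfold F1 at g1
    norm_num at hV
    omega
  · -- late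
    obtain ⟨d, hd⟩ : ∃ d, i + 1 = a + d := ⟨i + 1 - a, by omega⟩
    rw [show i + 1 - a = d by omega] at g4
    have hd1 : 1 ≤ d := by
      by_contra h3
      have : i + 1 = a := by omega
      rw [this] at hV
      omega
    have hst : ∀ k, k < a + d → lo k ≤ lo (k + 1) ∧ lo (k + 1) ≤ lo k + 1 := by
      intro k hk
      have := C.lo_step k (by omega)
      omega
    have hst' : ∀ k, k < a + d → hi k ≤ hi (k + 1) ∧ hi (k + 1) ≤ hi k + 1 := by
      intro k hk
      have := C.hi_step k (by omega)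
      omega
    rw [hd] at hV
    have key := late_two g3 hst hst' g4 hd1 hV
      (by rw [← hd, show a + (d - 1) = i by omega]; exact hl)
      (by rw [← hd, show a + (d - 1) = i by omega]; exact hh)
    rcases key with w | w | w
    all_goals
      obtain ⟨hd2, hv⟩ := wd_vals w (fun k hk => C.lo_step k (by omega))
        (fun k hk => C.hi_step k (by omega))
      simp only [List.length_cons, List.length_nil] at hd2
    · intro k hk
      have := g2 k (by omega)
      omega
    · exfalso
      obtain ⟨k, rfl⟩ : ∃ k, a = k + 1 := ⟨a - 1, by omega⟩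
      have lu1 : lev u = k := by omega
      rw [lu1] at s1 s2 s3
      have := g2 k (by omega)
      have k1 := two_dn h rfl hi1 C (k := k) (s := s) (by omega) s1 s2 (by omega) (by omega)
      rw [s3] at k1
      omega
    · exfalso
      have v0 := hv 0 false false rfl
      have v1 := hv 1 true true rfl
      have v2 := hv 2 true true rfl
      simp only [Bool.false_eq_true, if_false, if_true, add_zero] at v0 v1 v2
      have lu1 : lev u = a + 1 := by omega
      rw [lu1] at s1 s2 s3
      have v1' : lo (a + 2) = 1 ∧ hi (a + 2) = 2 := by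
        have u1 : a + 1 + 1 = a + 2 := rfl
        rw [u1] at v1
        omega
      have v2' : lo (a + 3) = 2 ∧ hi (a + 3) = 3 := by
        have u1 : a + 2 + 1 = a + 3 := rfl
        rw [u1] at v2
        omega
      have hs : s = 0 ∨ s = 1 := by omega
      rcases hs with rfl | rfl
      · rw [← s3] at hyu
        obtain ⟨s', q1, q2, q3, q4⟩ := dn_cov h rfl hi1 C (k := a + 1) (by omega) s1 s2 hyu
        rw [show a + 1 + 1 = a + 2 by omega] at q1 q2 q3
        obtain rfl : s' = 1 := by omega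
        obtain ⟨w1, hw1, w2, hw2, hne⟩ := one_lt_card.1 (show 1 < (dc y).card by omega)
        rw [q3] at hw1 hw2
        obtain ⟨r1, p1, p2, p3, p4⟩ := dn_cov h rfl hi1 C (k := a + 2) (s := 1) (by omega)
          (by omega) (by omega) (mem_dc.1 hw1)
        obtain ⟨r2, p5, p6, p7, p8⟩ := dn_cov h rfl hi1 C (k := a + 2) (s := 1) (by omega)
          (by omega) (by omega) (mem_dc.1 hw2)
        rw [show a + 2 + 1 = a + 3 by omega] at p1 p2 p3 p5 p6 p7
        apply hne
        rw [p3, p7, show r1 = r2 by omega]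
      · have k1 := two_dn h rfl hi1 C (k := a + 1) (s := 1) (by omega) s1 s2
          (by rw [show a + 1 + 1 = a + 2 by omega]; omega)
          (by rw [show a + 1 + 1 = a + 2 by omega]; omega)
        rw [s3] at k1
        omega

end nj

end Pool.Agent.GaussPoset.Tw
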