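import Pool.Agent.W_448fin_h16.FnQ
import Pool.Agent.W_448s7s_h5.TwG

/-!
MP_448cb3_co, G2, case B: the leaf `HTwo`.  helper5.
-/

namespace Pool.Agent.GaussPoset.EK

set_option linter.unusedSectionVars false

open Finset Win St Polynomial Wd Win.W4

universe u

variable (P : Type u) [Fintype P] [PartialOrder P] [DecidableEq P]

/-- THE LEAF `HTwo`, from the closed [DL] at the window `j - 1` -/
theorem htwo_of (hD : ∀ (r i : ℕ) (t : Tops P) (x : ℕ → P) (c : ℕ → ℤ) (β : ℤ), 1 ≤ i →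
    NJ P r (i + 1) → RowB P (i + 1) t 2 x c β → β = 0 → c 0 = 1 → c 1 = -1 →
    ¬ ((uc (x 0)).card = 1 ∧ (uc (x 2)).card = 1) → -13 ≤ Tw.V1 i t) : HTwo P := by
  intro r i K psi t x c β hi1 h R B hd
  have hn := h.nj
  obtain ⟨lo, hi, e, C, hS⟩ := hsh (P := P) r (i + 1) hn.g
  exact Tw.three_of hn hi1 (C t) (hS t) R B hd (fun x c β B hβ c0 c1 hu =>
    hD r i t x c β hi1 hn B hβ c0 c1 hu)

end Pool.Agent.GaussPoset.EK
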