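import Pool.Agent.W_448s7s_h5.TwG

/-!
MP_448cb3_co, G2, case B, STEP 0: the rows with three sites and the functional
`⟨-1, 9, 1, 4, 3, -1, 2, 14, 2⟩`.  helper5.
-/

namespace Pool.Agent.GaussPoset.Win.W4

set_option linter.unusedSectionVars false

open Finset
open Pool.Agent.GaussPoset.Win.SO (PN vp con on mem_PN vp_PD vp_PU)

universe u

variable {P : Type u} [Fintype P] [PartialOrder P] [DecidableEq P] {r i : ℕ}
variable {psi : P → P} {C K : Finset P} {w v p q s : P} {x : ℕ → P}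

/-- the rest for R -/
theorem R2.rest_ge2 (h : R2 r i K psi C w v x) {X : ℤ}
    (key : - 6 + 2 * ∑ z ∈ (PN i C).filter (fun z => sit i z = {x 2, x 0}), vp i z -
    2 * ∑ z ∈ (PN i C).filter (fun z => sit i z = {x 0, x 1}), vp i z +
    2 * (dg i K C (x 2) + dg i K C (x 1) + 2 * dg i K C (x 0) - 2 * mm i K C {x 2, x 0} -
      2 * mm i K C {x 0, x 1} - mm i K C {x 2, x 1}) ≤ X) : 4 * ((pen (x 0)).card : ℤ) + 2 * (pen (x 1)).card ≤ X := by
  have W := h.W
  have n01 : x 0 ≠ x 1 := W.ne (by omega) (by omega) (by omega)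
  have n12 : x 1 ≠ x 2 := W.ne (by omega) (by omega) (by omega)
  have n02 : x 0 ≠ x 2 := W.ne (by omega) (by omega) (by omega)
  have d10 := kf_dcv_comm (x 1) (x 0)
  have d21 := kf_dcv_comm (x 2) (x 1)
  have d20 := kf_dcv_comm (x 2) (x 0)
  rw [h.d01] at d10
  rw [h.d12] at d21
  rw [h.d02] at d20
  have D0 := W.deg (k := 0) (by omega)
  have D1 := W.deg (k := 1) (by omega)
  have D2 := W.deg (k := 2) (by omega)
  rw [(sum_er3 _).1, h.d01, h.d02] at D0
  rw [(sum_er3 _).2.1, d10, h.d12] at D1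
  rw [(sum_er3 _).2.2, d20, d21] at D2
  have L2 := W.dc_le (k := 2) (by omega)
  have U1 := W.uc_inner (k := 1) (by omega) (by omega)
  have g0 := h.Q.dg_eq (W.mem 0 (by omega)) (W.lev_x 0 (by omega))
  have g1 := h.Q.dg_eq (W.mem 1 (by omega)) (W.lev_x 1 (by omega))
  have g2 := h.Q.dg_eq (W.mem 2 (by omega)) (W.lev_x 2 (by omega))
  rw [h.hw, h.hv, if_pos (mem_insert_of_mem (mem_singleton_self _)),
    if_pos (mem_insert_self _ _)] at g0
  rw [h.hw, h.hv, if_neg (by
    rw [mem_insert, mem_singleton]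
    rintro (h1 | h1)
    · exact n12 h1
    · exact n01 h1.symm), if_pos (mem_insert_of_mem (mem_singleton_self _))] at g1
  rw [h.hw, h.hv, if_pos (mem_insert_self _ _), if_neg (by
    rw [mem_insert, mem_singleton]
    rintro (h1 | h1)
    · exact n02 h1.symm
    · exact n12 h1.symm)] at g2
  have m0 := h.Q.mm_pair (W.mem 2 (by omega)) (W.lev_x 2 (by omega)) n02.symm
  have m1 := h.Q.mm_pair (W.mem 0 (by omega)) (W.lev_x 0 (by omega)) n01
  have m2 := h.Q.mm_pair (W.mem 2 (by omega)) (W.lev_x 2 (by omega)) n12.symm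
  rw [d20, if_pos h.hw] at m0
  rw [h.d01, h.hw, if_neg (by rw [pair_comm (x 0) (x 1)]; exact pair_ne n12.symm n01 _)] at m1
  rw [d21, h.hw, if_neg (by rw [pair_comm (x 2) (x 1)]; exact pair_ne n12.symm n01 _)] at m2
  rw [m0, m1, m2, g0, g1, g2, h.u0, h.u2] at key
  have hu : ucv (x 2) (x 0) = 0 := by
    rw [StB_ucv_comm, W.up 0 2 (by omega) (by omega), if_neg (by omega)]
  have A := vp_nonneg (i := i) (C := C) W.H hu
  have B := vp_nonpos (i := i) (C := C) W.H h.d01
  push_cast at key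
  omega

/-- R with three sites -/
theorem R2.Ow_ge2 (h : R2 r i K psi C w v x) : 8 * ((pen (x 0)).card : ℤ) +
    4 * (pen (x 1)).card - 5 ≤ OwT i C := by
  have W := h.W
  have n01 : x 0 ≠ x 1 := W.ne (by omega) (by omega) (by omega)
  have n12 : x 1 ≠ x 2 := W.ne (by omega) (by omega) (by omega)
  have n02 : x 0 ≠ x 2 := W.ne (by omega) (by omega) (by omega)
  have hst : st i C = {x 2, x 0, x 1} := by
    rw [W.st_three]
    ext y
    simp only [mem_insert, mem_singleton]
    tauto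
  have k1 := h.Q.Ow_three h.hw h.hv n02.symm n01 n12.symm hst
  have k2 := h.rest_ge2 le_rfl
  linarith

end Pool.Agent.GaussPoset.Win.W4
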