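import Pool.Agent.W_448s7s_h5.TwH

/-!
MP_448cb3_co, G2, case B, STEP 0: `0 ≤ A + 2 W + 4 W ^ 2` for the rows with three sites and a defect,
except the pattern R without pendants.  helper5.
-/

namespace Pool.Agent.GaussPoset.Tw

set_option linter.unusedSectionVars false

open Finset Win Win.W4 Wd EK Win.Pn

universe u

variable {P : Type u} [Fintype P] [PartialOrder P] [DecidableEq P] {r j i : ℕ}
  {t : Tops P} {lo hi : ℕ → ℕ} {e : ℕ → ℕ → P} {x : ℕ → P} {c : ℕ → ℤ} {β : ℤ} {p : P}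
  {K : Finset P} {psi : P → P}

/-- the class (3,2) of a part -/
noncomputable def W3 (j : ℕ) (t : Tops P) : ℤ :=
  I2.w3 (I2.bb j (j + 1) (topOf : P → Tops P) t) (I2.VV j (j + 1) (topOf : P → Tops P) t)

/-- the pattern R without pendants -/
def R000 (j : ℕ) (t : Tops P) : Prop :=
  ∃ (x : ℕ → P) (c : ℕ → ℤ), RowB P j t 2 x c 1 ∧ c 0 = -1 ∧ c 1 = 0 ∧
    ∀ k, k ≤ 2 → pen (x k) = ∅

lemma q1_of {A W : ℤ} (h : 0 ≤ A ∨ (-2 ≤ A ∧ W = -1)) : 0 ≤ A + 2 * W + 4 * W ^ 2 := by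
  rcases h with h | ⟨h, rfl⟩
  · have h1 : 0 ≤ 2 * W + 4 * W ^ 2 := by
      rcases le_or_gt W (-1) with h2 | h2
      · nlinarith
      · have : 0 ≤ W := by linarith
        nlinarith
    linarith
  · linarith

/-- THE PATTERN R with three sites -/
theorem r2_q1 (h : NJ P r (i + 1)) (hi1 : 1 ≤ i) (C : Cp.Comp (i + 1) (t : P) lo hi e)
    (hS : Shape (i + 1) lo hi) (R : Red P (i + 1) K psi) (B : RowB P (i + 1) t 2 x c β)
    (hβ : β = 1) (c0 : c 0 = -1) (c1 : c 1 = 0) :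
    0 ≤ Vs i t + 2 * W3 (i + 1) t + 4 * W3 (i + 1) t ^ 2 ∨ R000 (i + 1) t := by
  obtain ⟨w, v, D⟩ := NJ.r2 h (by omega) R B hβ c0 c1
  have h1 := D.Ow_ge2
  have h2 := open_Vs h hi1 C hS B D.u0 D.u2
  have W := D.W
  have n01 : x 0 ≠ x 1 := W.ne (by omega) (by omega) (by omega)
  have n12 : x 1 ≠ x 2 := W.ne (by omega) (by omega) (by omega)
  have n02 : x 0 ≠ x 2 := W.ne (by omega) (by omega) (by omega)
  have hst : st (i + 1) (cext (i + 1 + 1) (topOf : P → Tops P) t) = {x 2, x 0, x 1} := by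
    rw [W.st_three]
    ext y
    simp only [mem_insert, mem_singleton]
    tauto
  have h3 := D.Q.three_w3 D.hw D.hv n02.symm n01 n12.symm hst
  have hW : W3 (i + 1) t = -1 := by
    unfold W3 I2.bb I2.VV
    exact h3
  by_cases hp : pen (x 0) = ∅ ∧ pen (x 1) = ∅
  · right
    refine ⟨x, c, by rw [← hβ]; exact B, c0, c1, fun k hk => ?_⟩
    have hk3 : k = 0 ∨ k = 1 ∨ k = 2 := by omega
    rcases hk3 with rfl | rfl | rfl
    · exact hp.1
    · exact hp.2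
    · have D2 := W.deg (k := 2) (by omega)
      have L2 := W.dc_le (k := 2) (by omega)
      have d21 := kf_dcv_comm (x 2) (x 1)
      have d20 := kf_dcv_comm (x 2) (x 0)
      rw [D.d12] at d21
      rw [D.d02] at d20
      rw [(sum_er3 _).2.2, d20, d21] at D2
      rw [← card_eq_zero]
      omega
  · left
    refine q1_of (Or.inr ⟨?_, hW⟩)
    have h5 : 1 ≤ (pen (x 0)).card + (pen (x 1)).card := by
      by_contra hcon
      exact hp ⟨card_eq_zero.1 (by omega), card_eq_zero.1 (by omega)⟩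
    have h6 : (1 : ℤ) ≤ (pen (x 0)).card + (pen (x 1)).card := by exact_mod_cast h5
    have h7 : (0 : ℤ) ≤ (pen (x 0)).card := by positivity
    linarith

/-- [DL] with three sites, from the value of the window `j - 1` -/
theorem dl2_q1 (h : NJ P r (i + 1)) (hi1 : 1 ≤ i) (C : Cp.Comp (i + 1) (t : P) lo hi e)
    (hS : Shape (i + 1) lo hi) (R : Red P (i + 1) K psi) (B : RowB P (i + 1) t 2 x c β)
    (hβ : β = 0) (c0 : c 0 = 1) (c1 : c 1 = -1)
    (hV : (uc (x 0)).card = 2 → -16 ≤ V1 i t)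
    (hV' : (uc (x 0)).card = 1 → (uc (x 2)).card = 2 → -8 * ((pen (x 2)).card : ℤ) ≤ V1 i t) :
    0 ≤ Vs i t + 2 * W3 (i + 1) t + 4 * W3 (i + 1) t ^ 2 := by
  obtain ⟨w, v, D⟩ := NJ.dl2 h (by omega) R B hβ c0 c1
  have h1 := D.Ow_ge
  have W := D.W
  have n01 : x 0 ≠ x 1 := W.ne (by omega) (by omega) (by omega)
  have n12 : x 1 ≠ x 2 := W.ne (by omega) (by omega) (by omega)
  have n02 : x 0 ≠ x 2 := W.ne (by omega) (by omega) (by omega)
  have h3 := D.Q.three_w3 D.hw D.hv n01 n12 n02 W.st_three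
  have hW : W3 (i + 1) t = -1 := by
    unfold W3 I2.bb I2.VV
    exact h3
  have hp : 1 ≤ (pen (x 2)).card := by
    have D2 := W.deg (k := 2) (by omega)
    have d21 := kf_dcv_comm (x 2) (x 1)
    have d20 := kf_dcv_comm (x 2) (x 0)
    rw [D.d12] at d21
    rw [D.d02] at d20
    rw [(sum_er3 _).2.2, d20, d21] at D2
    have hl := W.lev_x 2 (by omega)
    have hr := h.hr
    obtain ⟨z, hz⟩ := dc_nonempty h.g.H (x := x 2) (by omega)
    have h5 := card_pos.2 ⟨z, hz⟩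
    omega
  have hp' : (1 : ℤ) ≤ (pen (x 2)).card := by exact_mod_cast hp
  have h6 := Vs_eq i t
  have U0 := W.uc_le (k := 0) (by omega)
  have U2 := W.uc_le (k := 2) (by omega)
  refine q1_of (Or.inr ⟨?_, hW⟩)
  have c0' : (uc (x 0)).card = 1 ∨ (uc (x 0)).card = 2 := by omega
  have c2' : (uc (x 2)).card = 1 ∨ (uc (x 2)).card = 2 := by omega
  rcases c0' with u0 | u0
  · rcases c2' with u2 | u2
    · have := open_V1 h rfl hi1 C hS B u0 u2
      rw [u0, u2] at h1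
      push_cast at h1
      linarith
    · have := hV' u0 u2
      rw [u0, u2] at h1
      push_cast at h1
      linarith
  · have := hV u0
    rw [u0] at h1
    have h7 : (1 : ℤ) ≤ (uc (x 2)).card := by
      have : 1 ≤ (uc (x 2)).card := by omega
      exact_mod_cast this
    push_cast at h1
    linarith

/-- THE TRIANGLE -/
theorem rr_q1 (h : NJ P r (i + 1)) (hi1 : 1 ≤ i) (C : Cp.Comp (i + 1) (t : P) lo hi e)
    (hS : Shape (i + 1) lo hi) (B : RowB P (i + 1) t 2 x c β) (hβ : β = 2) (c0 : c 0 = -1)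
    (c1 : c 1 = -1) : 0 ≤ Vs i t + 2 * W3 (i + 1) t + 4 * W3 (i + 1) t ^ 2 := by
  obtain ⟨u0, u2⟩ := B.ends (by rw [hβ]; norm_num)
  have h1 := open_Vs h hi1 C hS B u0 u2
  subst hβ
  have h2 := tri_Ow h (by omega) B c0 c1
  exact q1_of (Or.inl (by linarith))

/-- ALL THE ROWS WITH THREE SITES AND A DEFECT -/
theorem all_q1 (h : NJ P r (i + 1)) (hi1 : 1 ≤ i) (C : Cp.Comp (i + 1) (t : P) lo hi e)
    (hS : Shape (i + 1) lo hi) (R : Red P (i + 1) K psi) (B : RowB P (i + 1) t 2 x c β)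
    (hd : ¬ (β = 0 ∧ ∀ k, k < 2 → c k = 0))
    (hV : ∀ (x : ℕ → P) (c : ℕ → ℤ) (β : ℤ), RowB P (i + 1) t 2 x c β → β = 0 → c 0 = 1 →
      c 1 = -1 → (uc (x 0)).card = 2 → -16 ≤ V1 i t)
    (hV' : ∀ (x : ℕ → P) (c : ℕ → ℤ) (β : ℤ), RowB P (i + 1) t 2 x c β → β = 0 → c 0 = 1 →
      c 1 = -1 → (uc (x 0)).card = 1 → (uc (x 2)).card = 2 →
      -8 * ((pen (x 2)).card : ℤ) ≤ V1 i t) :
    0 ≤ Vs i t + 2 * W3 (i + 1) t + 4 * W3 (i + 1) t ^ 2 ∨ R000 (i + 1) t := by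
  rcases B.pat with p1 | ⟨-, p1, p2, p3⟩ | ⟨-, p1, p2, p3⟩ | ⟨-, p1, p2, p3, p4⟩ |
    ⟨-, p1, p2, p3, p4⟩ | p1 | ⟨-, p1, p2, p3⟩ | p1
  · exact absurd p1 hd
  · exact r2_q1 h hi1 C hS R B p1 p2 (p3 1 le_rfl (by omega))
  · exact r2_q1 h hi1 C hS R B.rev p1 p2 (p3 0 (by omega))
  · exact Or.inl (dl2_q1 h hi1 C hS R B p1 p2 p3 (hV x c β B p1 p2 p3) (hV' x c β B p1 p2 p3))
  · exact Or.inl (dl2_q1 h hi1 C hS R B.rev p1 p2 p3 (hV _ _ β B.rev p1 p2 p3)
      (hV' _ _ β B.rev p1 p2 p3))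
  · have := p1.1
    omega
  · exact Or.inl (rr_q1 h hi1 C hS B p1 p2 p3)
  · have := p1.1
    omega

end Pool.Agent.GaussPoset.Tw
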