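import Pool.Agent.W_448s7s_h5.TwF
import Pool.Agent.W_448ft_h93.DtE

/-!
MP_448cb3_co, G2, case B: the leaf `HTwo` (rows with three sites).  helper5.
-/

namespace Pool.Agent.GaussPoset.EK

set_option linter.unusedSectionVars false

open Finset Win St Polynomial Wd Win.W4

universe u

variable (P : Type u) [Fintype P] [PartialOrder P] [DecidableEq P]

/-- THE LEAF `HTwo`: the rows with three sites -/
theorem htwo : HTwo P := by
  refine htwo_of P ?_
  intro r i t x c β hi1 h B _ c0 c1 hu
  have h1 : -12 ≤ Tw.V1 i t := h.dl_closed rfl hi1 B c0 c1 hu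
  linarith

end Pool.Agent.GaussPoset.EK
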