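import Pool.Agent.W_448s7s_h5.TwK
import Pool.Agent.W_448s7s_h5.TwI

/-!
MP_448cb3_co, G2, case B, STEP 0: the rows with three sites and a defect, `0 ≤ A + 2 W + 4 W ^ 2` or the
pattern R without pendants.  helper5.
-/

namespace Pool.Agent.GaussPoset.EK

set_option linter.unusedSectionVars false

open Finset Win St Polynomial Wd Win.W4

universe u

variable {P : Type u} [Fintype P] [PartialOrder P] [DecidableEq P] {r i : ℕ}
  {t : Tops P} {x : ℕ → P} {c : ℕ → ℤ} {β : ℤ} {K : Finset P} {psi : P → P}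

/-- THE ROWS WITH THREE SITES AND A DEFECT -/
theorem NJ.q1_three (h : NJ P r (i + 1)) (hi1 : 1 ≤ i) (R : Red P (i + 1) K psi)
    (B : RowB P (i + 1) t 2 x c β) (hd : ¬ (β = 0 ∧ ∀ k, k < 2 → c k = 0)) :
    0 ≤ Vt i t + 2 * v3 (i + 1) t + 4 * v3 (i + 1) t ^ 2 ∨ Tw.R000 (i + 1) t := by
  obtain ⟨lo, hi, e, C, hS⟩ := hsh (P := P) r (i + 1) h.g
  have key := Tw.all_q1 h hi1 (C t) (hS t) R B hd
    (fun x c β B _ c0 c1 hu => by
      have h1 : -12 ≤ Tw.V1 i t := h.dl_closed rfl hi1 B c0 c1 (by rw [hu]; omega)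
      linarith)
    (fun x c β B _ c0 c1 hu hu2 => by
      have h1 : -5 ≤ Tw.V1 i t := h.dl_V1 rfl hi1 B c0 c1 (by rw [hu, hu2])
      have W := NJ.prow h (by omega) B (by omega)
      obtain ⟨w, v, D⟩ := NJ.dl2 h (by omega) R B (by assumption) c0 c1
      have W := D.W
      have D2 := W.deg (k := 2) (by omega)
      have d21 := kf_dcv_comm (x 2) (x 1)
      have d20 := kf_dcv_comm (x 2) (x 0)
      rw [D.d12] at d21
      rw [D.d02] at d20
      rw [(sum_er3 _).2.2, d20, d21] at D2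
      have hl := W.lev_x 2 (by omega)
      have hr := h.hr
      obtain ⟨z, hz⟩ := dc_nonempty h.g.H (x := x 2) (by omega)
      have h5 := card_pos.2 ⟨z, hz⟩
      have h6 : (1 : ℤ) ≤ (pen (x 2)).card := by
        have : 1 ≤ (pen (x 2)).card := by omega
        exact_mod_cast this
      linarith)
  exact key

end Pool.Agent.GaussPoset.EK
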