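import Pool.Agent.W_448s7s_h5.TwL
import Pool.Agent.W_448nl_h15.NlW
import Pool.Agent.W_448st0_h96.SzB

/-!
MP_448cb3_co, G2, case B, STEP 0: the input `HTwoQ` (rows with three sites).  helper5.
-/

namespace Pool.Agent.GaussPoset.EK

set_option linter.unusedSectionVars false

open Finset Win St Polynomial Wd Win.W4

universe u

variable (P : Type u) [Fintype P] [PartialOrder P] [DecidableEq P]

/-- INPUT of step 0: three sites with a defect -/
theorem htwoq : HTwoQ P := by
  intro r i K psi t x c β lo hi e h5 h8 _ _ h R C hS B hd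
  have hn := h.nj
  rcases NJ.q1_three hn (by omega) R B hd with h1 | ⟨x', c', B', -, -, h2⟩
  · exact Or.inl h1
  · exfalso
    rcases NJ.r3_pen hn h5 h8 C hS B' one_ne_zero with h3 | h3 | h3
    · exact h3 (h2 0 (by omega))
    · exact h3 (h2 1 (by omega))
    · exact h3 (h2 2 (by omega))

end Pool.Agent.GaussPoset.EK
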