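import Pool.Agent.W_448w7_h94.WiG
import Pool.Agent.W_448s7s_h5.TvG
import Pool.Agent.W_448s7s_h5.TvF
import Pool.Agent.W_448f6_h94.FxQ

/-!
The context at window 7, level 14, with the elements of level 15 below the strips `La7`
(MP_448cb3_co, S7, `j = 14`; after `FxQ`).  helper5.
-/

namespace Pool.Agent.GaussPoset.W7

set_option linter.unusedSectionVars false

open Polynomial Finset Wd Cl Cp

universe u

variable {P : Type u} [Fintype P] [PartialOrder P] [DecidableEq P] {r a n0 : ℕ}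

section types

variable {t : Tops P} {lo hi : ℕ → ℕ} {e : ℕ → ℕ → P}

/-- light components -/
theorem tl_light (h : Win.GoodTo P r (2 * 7)) (C : Comp (2 * 7) (t : P) lo hi e)
    (h7 : lo 7 = 0 ∧ hi 7 = 0) (h2 : lo 2 = 0 ∧ hi 2 = 0) :
    ∃ Nt θ, ∀ N : Tops P → Finset P, N t = Nt → TyL n0 N t (hi 7 - lo 7 + 1) θ := by
  classical
  refine ⟨_, _, fun N hN => TyL.light hN rfl (by omega) (only_low h) ⟨e 7 (lo 7), C.le_t 7 (lo 7)
    (by omega) le_rfl (C.lo_le 7 (by omega)), C.lev_e 7 (lo 7) (by omega) le_rfl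
    (C.lo_le 7 (by omega))⟩ ?_ ?_⟩
  · rw [cn_comp C (by omega)]
    omega
  · rw [cn_comp C (by omega)]
    omega

/-- rectangle-like strips -/
theorem tl_rect (h : Win.GoodTo P r (2 * 7)) (C : Comp (2 * 7) (t : P) lo hi e)
    (h1 : lo 1 = 0 ∧ hi 1 = 1) (S : RectShape (2 * 7) lo hi) :
    ∃ Nt θ, ∀ N : Tops P → Finset P, N t = Nt → TyL n0 N t (hi 7 - lo 7 + 1) θ := by
  have H := h.H
  have hg := h.good
  have hlt : lo 7 < hi 7 := by
    have g1 := C.lo_mono (l := 1) (d := 6) (by omega)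
    have g2 := C.hi_mono (l := 1) (d := 6) (by omega)
    norm_num at g1 g2
    by_contra hcon
    have g3 := C.lo_le 7 (by omega)
    have g4 := shape_lo C S.lo (l := 7) (by omega) 7 (by omega)
    have g5 := shape_hi C S.hi (l := 7) (by omega) 7 (by omega)
    have g6 := C.lo_le (7 + 7) (by omega)
    omega
  obtain ⟨Nc, co, h2, -⟩ := exists_rect C H hg H.gradedBelow S (i := 7) (by omega) hlt
  refine ⟨_, _, fun N hN => TyL.rect Nc co h2 hN rfl ?_⟩
  intro x z hxt hxl hx2 hzx honly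
  exact rectShape_no_pendant (i := 13) h (by omega) t.2 C S hxl hxt hx2 hzx honly

/-- stair-like strips -/
theorem tl_stair (h : Win.GoodTo P r (2 * 7)) (C : Comp (2 * 7) (t : P) lo hi e)
    (S : StairShape (2 * 7) lo hi) :
    ∃ Nt θ, ∀ N : Tops P → Finset P, N t = Nt → TyL n0 N t (hi 7 - lo 7 + 1) θ := by
  have H := h.H
  have hg := h.good
  obtain ⟨Nc, co, h1, -⟩ := exists_stair C H hg H.gradedBelow S (i := 7) (by omega)
  have hnop : NopT 7 t := by
    intro x z hxt hxl hx2 hzx honly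
    have h2 := stairShape_pendant (i := 13) h (by omega) t.2 C S hxl hxt hx2 hzx honly
    have h3 := cell_lev C (x := x) hxt (by omega)
    omega
  have e0 := stair_lo (m := 7) C S
  have e1 := S.hi 7 (by omega)
  exact ⟨_, _, fun N hN => TyL.stair Nc co h1 hN rfl (by omega) hnop⟩

/-- `E7` -/
theorem tl_E7 (h : Win.GoodTo P r (2 * 7)) (C : Comp (2 * 7) (t : P) lo hi e)
    (D : WordD (2 * 7) 4 w7 lo hi) :
    ∃ Nt θ, ∀ N : Tops P → Finset P, N t = Nt → TyL n0 N t (hi 7 - lo 7 + 1) θ := by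
  obtain ⟨Nt, θ, h1⟩ := Tv.exists_oth h C D
  exact ⟨Nt, θ, fun N hN => TyL.oth (h1 N hN) (Tv.E7_b C D)⟩

/-- the quadric -/
theorem quad_data (h : Win.GoodTo P r (2 * 7)) (C : Comp (2 * 7) (t : P) lo hi e)
    (Q : QRows (2 * 7) 7 lo hi) :
    hi 7 - lo 7 + 1 = 2 ∧ NatTop 7 t 2 (lowPart (2 * 7) (t : P)) (fun _ => 0)
      (fun x => x ∈ lowPart (2 * 7) (t : P)) ∧ cn 2 (t : P) ≤ 1 ∧
      (∀ x ≤ (t : P), lev x = 14 → Sg.Thin x) ∧
      ∀ x y, x ≤ (t : P) → y ≤ (t : P) → lev x = 14 → lev y = 14 → x = y := by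
  classical
  have hQ : QInf 7 7 t := Q.inf (m := 7) C (by omega)
  have e1 := Q.at'
  have hup : ∀ x ∈ lowPart (2 * 7) (t : P), ∀ y, x ≤ y → y ∈ lowPart (2 * 7) (t : P) := by
    intro x hx y hxy
    rw [mem_lowPart] at hx ⊢
    refine ⟨Cp.up_le h.H h.good t.2 hx.1 hx.2 hxy, ?_⟩
    rcases eq_or_lt_of_le hxy with h | h
    · rw [← h]; exact hx.2
    · have := lev_strictAnti h; omega
  have hN := natTop_quad (m := 7) (by omega) (dvd_W_Qd 7) hQ hup
  refine ⟨by omega, hN, ?_, ?_, fun x y hx hy hlx hly => hQ.unique hx hy hlx hly⟩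
  · rw [hQ.cn 2 (by omega), if_neg (by omega)]
  · intro x hxt hl
    have hn : ∀ k, k ≤ 14 → nab k x = if k = 7 then 2 else 1 := by
      intro k hk
      rw [← hQ.cn k hk]
      unfold nab cn
      congr 1
      ext y
      rw [mem_filter, mem_filter, mem_lv]
      refine and_congr_right fun h1 => ⟨fun h2 => ?_, fun h2 => ?_⟩
      · exact Cp.up_le h.H h.good t.2 hxt hl.le h2
      · exact hQ.bot x hxt hl y h2 (by omega)
    refine ⟨fun k hk1 hk2 => ?_, ?_⟩
    · rw [hn k hk2, if_neg (by omega)]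
    · rw [hn 7 (by omega), if_pos rfl]

end types

section all

variable {lo hi : Tops P → ℕ → ℕ} {e : Tops P → ℕ → ℕ → P}

/-- no pendant below the last element of a quadric -/
theorem quad_pen (h : Win.GoodTo P r 14)
    (C : ∀ t : Tops P, Comp 14 (t : P) (lo t) (hi t) (e t)) (hS : ∀ t, Shape 14 (lo t) (hi t))
    {t0 : Tops P} (Q : QRows 14 7 (lo t0) (hi t0)) {x z : P} (hx : x ≤ (t0 : P))
    (hl : lev x = 14) (hz : lev z = 15) : ¬ Pend z x := by
  classical
  have hex : ∀ t : Tops P, ∃ N θ B, Sg.Dat t (hi t 7 - lo t 7 + 1) (lo t) (hi t) (e t) N θ B ∧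
      (t = t0 → ∀ x, θ x = 0) := by
    intro t
    by_cases ht : t = t0
    · subst ht
      obtain ⟨g1, g2, g3, g4, g5⟩ := quad_data h (C t) Q
      have h6 : Sg.Nt t 2 (lowPart (2 * 7) (t : P)) (fun _ => 0)
          (fun x => x ∈ lowPart (2 * 7) (t : P)) 26 :=
        ⟨g2, fun x hx => hx, fun x hx _ => (mem_lowPart.mp hx).2,
          fun x hx hl => Or.inr ⟨rfl, g4 x hx hl⟩, by norm_num⟩
      rw [g1]
      exact ⟨_, _, _, ⟨h6.weak (by norm_num), Or.inl ⟨h6, fun x hx hl _ _ y hy hly =>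
        g5 y x hy hx hly hl⟩⟩, fun _ _ => rfl⟩
    · obtain ⟨N, θ, B, h1⟩ := Sg.t7_shape h (C t) (hS t)
      exact ⟨N, θ, B, h1, fun h => absurd h ht⟩
  choose N θ B hT h0 using hex
  obtain ⟨-, -, -, g4, -⟩ := quad_data h (C t0) Q
  intro hp
  exact Tv.no_thin_of h C hS hT t0 x hx hl (h0 t0 rfl x) (g4 x hx hl) z hz hp

/-- nothing of level 15 below a quadric -/
theorem quad_bare (h : Win.GoodTo P r 14)
    (C : ∀ t : Tops P, Comp 14 (t : P) (lo t) (hi t) (e t)) (hS : ∀ t, Shape 14 (lo t) (hi t))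
    (hJ : Tv.JFB P) {t0 : Tops P} (Q : QRows 14 7 (lo t0) (hi t0)) {z : P} (hz : lev z = 15) :
    ¬ z ≤ (t0 : P) := by
  classical
  have H := h.H
  intro hzt
  obtain ⟨-, -, -, g4, g5⟩ := quad_data h (C t0) Q
  have hlt : z < (t0 : P) := lt_of_le_of_ne hzt (by
    intro h
    have := t0.2
    rw [← h] at this
    omega)
  obtain ⟨x, hzx, hxt⟩ := Hul.exists_cov hlt
  have hl : lev x = 14 := by
    have := (H.covBy_iff.mp hzx).2
    omega
  by_cases hp : ∀ y, z ⋖ y → y = x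
  · exact quad_pen h C hS Q hxt hl hz ⟨hzx, hp⟩
  push Not at hp
  obtain ⟨x', hzx', hne⟩ := hp
  have hl' : lev x' = 14 := by
    have := (H.covBy_iff.mp hzx').2
    omega
  have hxt' : ¬ x' ≤ (t0 : P) := fun h1 => hne (g5 x' x h1 hxt hl' hl)
  have hj : Hul.Jn z := ⟨t0, topOf x', t0.2, (topOf x').2, fun hh => hxt' (by
    rw [hh]; exact le_topOf x'), hzt, hzx'.1.le.trans (le_topOf x')⟩
  obtain ⟨a, a', ⟨hc, -, hf⟩, hd⟩ := hJ z hz hj
  have hth := g4 x hxt hl
  have hx : x = a ∨ x = a' := by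
    by_cases h1 : x = a
    · exact Or.inl h1
    · have h2 : a ≠ a' := fun hh => hc.ne (by rw [hh])
      exact uc_pair H hc.cov hc.cov' h2 hzx
  rcases hx with rfl | rfl
  · have := hf.2.2 7 (by norm_num)
    rw [hth.2] at this
    norm_num at this
  · have hm : mX 14 x = 5 := hd.1
    unfold mX at hm
    simp only [Finset.sum_range_succ, Finset.sum_range_zero] at hm
    have e0 := hd.2.1
    unfold cX at e0
    simp only [Finset.sum_range_succ, Finset.sum_range_zero] at e0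
    have k := hth.1
    rw [k 8 (by omega) (by omega), k 9 (by omega) (by omega), k 10 (by omega) (by omega),
      k 11 (by omega) (by omega), k 12 (by omega) (by omega), k 13 (by omega) (by omega),
      hth.2] at hm e0
    have g : ∀ l, l ≤ 14 → 1 ≤ nab l x := fun l hl2 => one_le_nab (by omega)
    have g0 := g 0 (by omega)
    have g1 := g 1 (by omega)
    have g2 := g 2 (by omega)
    have g3 := g 3 (by omega)
    have g6 := g 4 (by omega)
    have g7 := g 5 (by omega)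
    have g8 := g 6 (by omega)
    norm_num at hm e0
    omega

end all

end Pool.Agent.GaussPoset.W7
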