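import Pool.Agent.W_448s7s_h5.TyA

/-!
The context at window 7, level 14: the theorem (MP_448cb3_co, S7, `j = 14`).  helper5.
-/

namespace Pool.Agent.GaussPoset.W7

set_option linter.unusedSectionVars false

open Polynomial Finset Wd Cl Cp

universe u

variable {P : Type u} [Fintype P] [PartialOrder P] [DecidableEq P] {r n0 : ℕ}
  {lo hi : Tops P → ℕ → ℕ} {e : Tops P → ℕ → ℕ → P}

/-- the data of the strips `La7` -/
structure Lh (n0 : ℕ) (t : P) (e : ℕ → ℕ → P) (A : Finset P) : Prop where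
  pat : (∃ c, JA e A c) ∨ (n0 ≤ 31 ∧ ∃ c c', JB e A c c')
  full : ∀ z, lev z = 15 → (∀ y, z ⋖ y → y ≤ t) → z ∈ A ∨ Sg.Mk e z 33554432
  loc : ∃ θ, Sg.LocL 7 2 n0 (lowPart 14 t ∪ A) θ (fun x => x = Sg.ce e 29) ∧ ThA e A θ

/-- the elements of level 15 of a strip `La7` -/
lemma Lh.dat {t : P} {e : ℕ → ℕ → P} {A : Finset P} (L : Lh n0 t e A) : ∃ θ, LaT n0 e t A θ := by
  obtain ⟨θ, h1, h2⟩ := L.loc
  refine ⟨θ, h1, h2, ?_, L.full, L.pat⟩
  intro x hx
  rcases L.pat with ⟨c, J⟩ | ⟨-, c, c', J⟩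
  · exact J.all x hx
  · rcases J.all x hx with h | h | h | h
    · exact Or.inl h
    · exact Or.inr (Or.inl h)
    · rw [h]
      exact Or.inr (Or.inr (Or.inr J.hc))
    · rw [h]
      exact Or.inr (Or.inr (Or.inr J.hc'))

/-- the type of a strip -/
theorem tl_shape (h : Win.GoodTo P r 14)
    (C : ∀ t : Tops P, Comp 14 (t : P) (lo t) (hi t) (e t)) (hS : ∀ t, Shape 14 (lo t) (hi t))
    (hJ : Tv.JFB P) {t : Tops P} (hD : ¬ WordD 14 7 wa7 (lo t) (hi t)) :
    ∃ Nt θ, ∀ N : Tops P → Finset P, N t = Nt → TyL n0 N t (hi t 7 - lo t 7 + 1) θ := by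
  rcases hS t with h1 | ⟨h1, h2⟩ | ⟨h1, h2⟩ | ⟨h1, h2, h3⟩ | ⟨h1, h2⟩ | ⟨a, h0, h1, h2, h3, hN, h4⟩
  · exact tl_light h (C t) (h1 7 (by omega)) (h1 2 (by omega))
  · exact tl_rect h (C t) h1 h2
  · exact tl_stair h (C t) h2
  · omega
  · omega
  · have D : LateD 14 a (lo t) (hi t) := ⟨h0, h1, h2, h3, h4⟩
    rcases Nat.lt_or_ge 7 a with hma | hma
    · exact tl_light h (C t) (D.h2 7 hma) (D.h2 2 (by omega))
    · rcases h4 with ⟨⟨g1, g2⟩, g3⟩ | g3
      · have hq := D.quad (C t) g3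
        obtain rfl : a = 7 := by omega
        have Q : QRows 14 7 (lo t) (hi t) := ⟨D.h2, D.h3, by
          intro k hk hk2
          have := hq (k - 7) (by omega) (by omega)
          rwa [show 7 + (k - 7) = k by omega] at this⟩
        obtain ⟨q1, q2, q3, -, -⟩ := quad_data h (C t) Q
        refine ⟨lowPart (2 * 7) (t : P), fun _ => 0, fun N hN => TyL.bare hN
          ⟨fun x => x ∈ lowPart (2 * 7) (t : P), ?_⟩ (fun z hz => quad_bare h C hS hJ Q hz) q3⟩
        rw [hN, q1]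
        exact q2
      · obtain rfl | rfl | rfl | rfl | rfl : a = 3 ∨ a = 4 ∨ a = 5 ∨ a = 6 ∨ a = 7 := by omega
        · have := (wordD_three D (by omega)).2
          omega
        · exact tl_E7 h (C t) (wordD_four D (by omega) (by omega)).1
        · exact absurd word_length (Sg.late5_14 _ g3)
        · exact absurd word_length (Sg.late6_14 _ g3)
        · exact absurd ⟨D.h2, D.h3, Sg.late7_14 _ g3 (by rw [word_length])⟩ hD

/-- **The context at window 7**, from the data of the strips `La7` -/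
theorem exists_WL_of (K : Sm.Ctx P r 14 lo hi e) (hr : 15 ≤ r) (hJ : Tv.JFB P) (hn0 : n0 ≤ 51)
    (A : Tops P → Finset P)
    (hL : ∀ t : Tops P, WordD 14 7 wa7 (lo t) (hi t) → Lh n0 (t : P) (e t) (A t)) :
    ∃ N θ, WL r n0 N (fun t => hi t 7 - lo t 7 + 1) θ ∧ ∀ t : Tops P,
      WordD 14 7 wa7 (lo t) (hi t) → LaD n0 N (θ t) t (lo t) (hi t) (e t) (A t) := by
  classical
  have h := K.gt
  have C := K.comp
  have hex : ∀ t : Tops P, ∃ (Nt : Finset P) (θ : P → ℕ), (∀ N : Tops P → Finset P, N t = Nt →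
      TyL n0 N t (hi t 7 - lo t 7 + 1) θ) ∧ (WordD 14 7 wa7 (lo t) (hi t) →
      ∀ N : Tops P → Finset P, N t = Nt → LaD n0 N θ t (lo t) (hi t) (e t) (A t)) := by
    intro t
    by_cases hD : WordD 14 7 wa7 (lo t) (hi t)
    · obtain ⟨θ, hθ⟩ := (hL t hD).dat
      have hla : ∀ N : Tops P → Finset P, N t = lowPart (2 * 7) (t : P) ∪ A t →
          LaD n0 N θ t (lo t) (hi t) (e t) (A t) := fun N hN => ⟨C t, hD, hN, hθ⟩
      have hb : hi t 7 - lo t 7 + 1 = 2 := by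
        obtain ⟨h1, h2⟩ := hD.rows (C t)
        rw [h1 7 (by omega), h2 7 (by omega)]
        decide +kernel
      exact ⟨_, θ, fun N hN => TyL.la _ _ _ _ (hla N hN) hb, fun _ => hla⟩
    · obtain ⟨Nt, θ, h1⟩ := tl_shape (n0 := n0) h C K.shape hJ hD
      exact ⟨Nt, θ, h1, fun h => absurd h hD⟩
  choose N θ hT hT2 using hex
  refine ⟨N, θ, ⟨h, by omega, hn0, fun t => hT t N rfl, ?_⟩, fun t hD => hT2 t hD N rfl⟩
  rw [card_level h.H h.good C (i := 7) (by omega)]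

end Pool.Agent.GaussPoset.W7
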