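import Pool.Agent.W_448s7s_h5.TyB
import Pool.Agent.W_448w7_h36.LaA

/-!
The context at window 7, level 14, pattern `JA` (MP_448cb3_co, S7, `j = 14`).  helper5.
-/

namespace Pool.Agent.GaussPoset.W7

set_option linter.unusedSectionVars false

open Polynomial Finset Wd Cl Cp

universe u

variable {P : Type u} [Fintype P] [PartialOrder P] [DecidableEq P] {r n0 : ℕ}

/-- the data of a strip `La7`, pattern `JA` -/
theorem lh_JA {t : P} {lo hi : ℕ → ℕ} {e : ℕ → ℕ → P} (hgt : Win.GoodTo P r 14) (ht : lev t = 0)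
    (C : Comp 14 t lo hi e) (D : WordD 14 7 wa7 lo hi) (hn0 : n0 ≤ 51) {A : Finset P} {c : P}
    (J : JA e A c)
    (full : ∀ z, lev z = 15 → (∀ y, z ⋖ y → y ≤ t) → z ∈ A ∨ Sg.Mk e z 33554432) :
    Lh n0 t e A := by
  obtain ⟨θ, h1, h2⟩ := J.loc D C hgt ht
  exact ⟨Or.inl ⟨c, J⟩, full, θ, Tv.locL_le h1 hn0, h2⟩

variable {lo hi : Tops P → ℕ → ℕ} {e : Tops P → ℕ → ℕ → P}

/-- **The context at window 7**, all strips `La7` have the pattern `JA` -/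
theorem exists_WL51 (K : Sm.Ctx P r 14 lo hi e) (hr : 15 ≤ r) (hJ : Tv.JFB P) (hn0 : n0 ≤ 51)
    (A : Tops P → Finset P)
    (hpat : ∀ t : Tops P, WordD 14 7 wa7 (lo t) (hi t) → (∃ c, JA (e t) (A t) c) ∧
      ∀ z, lev z = 15 → (∀ y, z ⋖ y → y ≤ (t : P)) → z ∈ A t ∨ Sg.Mk (e t) z 33554432) :
    ∃ N θ, WL r n0 N (fun t => hi t 7 - lo t 7 + 1) θ ∧ ∀ t : Tops P,
      WordD 14 7 wa7 (lo t) (hi t) → LaD n0 N (θ t) t (lo t) (hi t) (e t) (A t) := by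
  refine exists_WL_of K hr hJ hn0 A fun t D => ?_
  obtain ⟨⟨c, J⟩, h1⟩ := hpat t D
  exact lh_JA K.gt t.2 (K.comp t) D hn0 J h1

end Pool.Agent.GaussPoset.W7
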